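import Mathlib

/-!
The interface between the geometry and the topology of a Blaschke metric on `HP^n`.
Points of `HP^n` are quaternionic projector matrices, closed geodesics are loops of such matrices.
-/

noncomputable section

namespace Pool.Agent.Work.MP_8c604c_gt.T

open Set Real
open scoped Quaternion

/-- `ℍ ^ (n + 1)` -/
abbrev EH (n : ℕ) : Type := EuclideanSpace ℍ (Fin (n + 1))

/-- `ℍ ^ n` -/
abbrev EA (n : ℕ) : Type := EuclideanSpace ℍ (Fin n)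

/-- quaternionic matrices -/
abbrev AM (n : ℕ) : Type := EuclideanSpace ℍ (Fin (n + 1) × Fin (n + 1))

/-- loops of matrices -/
abbrev LM (n : ℕ) : Type := C(Circle, AM n)

/-- Euclidean space -/
abbrev RN (N : ℕ) : Type := EuclideanSpace ℝ (Fin N)

variable {n : ℕ}

/-- the projector matrix of the left line `ℍ • z` -/
def pr (z : EH n) : AM n :=
  WithLp.toLp 2 fun i => (‖z‖ ^ 2)⁻¹ • (star (z i.1) * z i.2)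

/-- quaternionic projective space -/
def MH (n : ℕ) : Set (AM n) := pr '' {z | z ≠ 0}

/-- `X` is tangent to `MH n` at `p` -/
def Tan (p X : AM n) : Prop := ∃ z : EH n, z ≠ 0 ∧ pr z = p ∧ ∃ u, X = fderiv ℝ pr z u

/-- rotation of loops -/
def sh (θ : Circle) (c : LM n) : LM n := c.comp ⟨fun t => θ * t, continuous_const.mul continuous_id⟩

/-- the point of the circle at time `t`; the period is `π` -/
def cs (t : ℝ) : Circle := Circle.exp (2 * t)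

/-- pairs of cut points -/
def cutS (S : Set (LM n)) : Set (AM n × AM n) := {y | ∃ c ∈ S, c 1 = y.1 ∧ c (cs (π / 2)) = y.2}

/-- `c'` joins the same pair of cut points as `c` -/
def Lk (c c' : LM n) : Prop := c' 1 = c 1 ∧ c' (cs (π / 2)) = c (cs (π / 2))

/-- The closed geodesics `S` of a Blaschke metric with conjugate multiplicity `k`;
`vel c` is the velocity of `c` at time `0`. -/
structure TD0 (n k : ℕ) where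
  S : Set (LM n)
  vel : LM n → AM n
  cpt : IsCompact S
  inv : ∀ θ, ∀ c ∈ S, sh θ c ∈ S
  mem : ∀ c ∈ S, ∀ θ, c θ ∈ MH n
  cvel : ContinuousOn vel S
  tan : ∀ c ∈ S, Tan (c 1) (vel c)
  vne : ∀ c ∈ S, vel c ≠ 0
  ex : ∀ p X, Tan p X → X ≠ 0 → ∃ c ∈ S, c 1 = p ∧ ∃ r : ℝ, 0 < r ∧ X = r • vel c
  uniq : ∀ c ∈ S, ∀ c' ∈ S, c' 1 = c 1 → ∀ r : ℝ, 0 < r → vel c' = r • vel c → c' = c
  ne : ∀ c ∈ S, ∀ t ∈ Ioc 0 (π / 2), c (cs t) ≠ c 1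
  inj : ∀ c ∈ S, ∀ c' ∈ S, c' 1 = c 1 → ∀ t ∈ Ioo 0 (π / 2), ∀ t' ∈ Ioc 0 (π / 2),
    c' (cs t') = c (cs t) → c' = c ∧ t' = t
  surj : ∀ p ∈ MH n, ∀ q ∈ MH n, p ≠ q → ∃ c ∈ S, c 1 = p ∧ ∃ t ∈ Ioc 0 (π / 2), c (cs t) = q
  link : ∀ c ∈ S, ∃ V : Submodule ℝ (AM n × AM n), Module.finrank ℝ V = k + 1 ∧ ∀ y, y ∈ V ↔
    ∃ c' ∈ S, Lk c c' ∧ ∃ r : ℝ, 0 ≤ r ∧ y = r • (vel c', vel (sh (cs (π / 2)) c'))

/-- unit vectors of the bundle `K` over `S` -/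
def unitK {N : ℕ} (S : Set (LM n)) (K : LM n → RN N →L[ℝ] RN N) : Set (LM n × RN N) :=
  {y | y.1 ∈ S ∧ K y.1 y.2 = y.2 ∧ ‖y.2‖ = 1}

/-- The negative bundle `K`, the push `Hh` to constant loops, the family `Q` that joins the push at
`c0` to the broken geodesics `g`, and an equivariant map `Φ`. -/
structure TD (n : ℕ) extends TD0 n 3 where
  N : ℕ
  K : LM n → RN N →L[ℝ] RN N
  cK : ContinuousOn K S
  idK : ∀ c ∈ S, ∀ x, K c (K c x) = K c x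
  syK : ∀ c ∈ S, ∀ x y, inner ℝ (K c x) y = inner ℝ x (K c y)
  rkK : ∀ c ∈ S, Module.finrank ℝ (LinearMap.range (K c : RN N →ₗ[ℝ] RN N)) = 3
  invK : ∀ θ, ∀ c ∈ S, K (sh θ c) = K c
  B : LM n → RN N →L[ℝ] AM n
  cB : ContinuousOn B S
  BW : ∀ c ∈ S, ∀ X, (∃ c' ∈ S, Lk c c' ∧ ∃ r : ℝ, 0 ≤ r ∧ X = r • vel c') ↔
    ∃ (t : ℝ) (x : RN N), K c x = x ∧ X = t • vel c + B c x
  Hh : ℝ × LM n × RN N → LM n
  cH : ContinuousOn Hh (Icc 0 1 ×ˢ unitK S K)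
  memH : ∀ s ∈ Icc (0 : ℝ) 1, ∀ y ∈ unitK S K, ∀ θ, Hh (s, y) θ ∈ MH n
  eqH : ∀ s ∈ Icc (0 : ℝ) 1, ∀ y ∈ unitK S K, ∀ θ, Hh (s, sh θ y.1, y.2) = sh θ (Hh (s, y))
  H0 : ∀ y ∈ unitK S K, Hh (0, y) = y.1
  H1 : ∀ y ∈ unitK S K, ∀ θ, Hh (1, y) θ = Hh (1, y) 1
  short : ∀ s ∈ Ioc (0 : ℝ) 1, ∀ y ∈ unitK S K, ∀ θ, (Hh (s, y) 1, Hh (s, y) θ) ∉ cutS S
  c0 : LM n
  c0S : c0 ∈ S
  s0 : ℝ
  s0I : s0 ∈ Ioo (0 : ℝ) 1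
  Q : ℝ × RN N → LM n
  cQ : ContinuousOn Q (Icc 0 1 ×ˢ {x | K c0 x = x ∧ ‖x‖ ≤ 1})
  memQ : ∀ τ ∈ Icc (0 : ℝ) 1, ∀ x, K c0 x = x → ‖x‖ ≤ 1 → ∀ θ, Q (τ, x) θ ∈ MH n
  Q0 : ∀ r ∈ Icc (0 : ℝ) 1, ∀ x, K c0 x = x → ‖x‖ = 1 → Q (0, r • x) = Hh (s0 * r, c0, x)
  Qb : ∀ τ ∈ Icc (0 : ℝ) 1, ∀ x, K c0 x = x → ‖x‖ = 1 → ∀ θ, (Q (τ, x) 1, Q (τ, x) θ) ∉ cutS S
  g : RN N → LM n
  ε : ℝ
  εne : ε ≠ 0
  gS : ∀ x, K c0 x = x → ‖x‖ ≤ 1 → g x ∈ S ∧ Lk (sh (cs (π / 4)) c0) (g x) ∧ ∃ r : ℝ, 0 < r ∧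
    vel (g x) = r • (vel (sh (cs (π / 4)) c0) + ε • B (sh (cs (π / 4)) c0) x)
  Q1 : ∀ x, K c0 x = x → ‖x‖ ≤ 1 → ∀ t ∈ Icc 0 (π / 2),
    Q (1, x) (cs (t + π / 4)) = g x (cs t) ∧ Q (1, x) (cs (t - π / 4)) = c0 (cs (t - π / 4))
  cut1 : ∀ c ∈ S, Lk (sh (cs (π / 4)) c0) c → ∀ t ∈ Icc 0 (π / 2),
    (c0 1, c (cs t)) ∈ cutS S → c = sh (cs (π / 4)) c0 ∧ t = π / 4
  Φ : LM n → Fin (4 * n) → ℂ
  cΦ : ContinuousOn Φ S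
  eqΦ : ∀ θ, ∀ c ∈ S, Φ (sh θ c) = (θ : ℂ) • Φ c
  neΦ : ∀ c ∈ S, Φ c ≠ 0

/-- the point `(1, a)` -/
def aff (a : EA n) : EH n := WithLp.toLp 2 (Fin.cons 1 a)

/-- the vector `(0, b)` -/
def aff0 (b : EA n) : EH n := WithLp.toLp 2 (Fin.cons 0 b)

/-- A regular value `w` of the cone `r • vel c ↦ r • Φ c` over `Φ`, read in the affine chart of the
tangent bundle: `T` is the set of all preimages, `L x` the derivative at `x`. -/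
structure TD.Reg (D : TD n) (w : Fin (4 * n) → ℂ) (T : Finset (EA n × EA n))
    (L : EA n × EA n → (EA n × EA n) →L[ℝ] (Fin (4 * n) → ℂ)) : Prop where
  ne : w ≠ 0
  all : ∀ c ∈ D.S, ∀ r : ℝ, 0 < r → r • D.Φ c = w →
    ∃ x ∈ T, c 1 = pr (aff x.1) ∧ fderiv ℝ pr (aff x.1) (aff0 x.2) = r • D.vel c
  der : ∃ F : EA n × EA n → Fin (4 * n) → ℂ,
    (∀ x, ∀ c ∈ D.S, ∀ r : ℝ, 0 < r → c 1 = pr (aff x.1) →
      fderiv ℝ pr (aff x.1) (aff0 x.2) = r • D.vel c → F x = r • D.Φ c) ∧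
    ∀ x ∈ T, x.2 ≠ 0 ∧ F x = w ∧ HasFDerivAt F (L x) x ∧ Function.Injective (L x)

end Pool.Agent.Work.MP_8c604c_gt.T
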