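import Pool.Agent.Work.MP_8c604c_gt.FormS
import Pool.Agent.Work.MP_8c604c_gt.H.Base
import Pool.Agent.Work.MP_8c604c_gt.T.TD

-- merged part: Pool.Agent.Work.MP_8c604c_gt.FormJ
section
/-!
Integration along a real factor, the homotopy formula, basic forms, flows.
Hints. Sl commutes with d by hasFDerivAt_integral. dT_d: Lam.ctr_dop. homotopy: Sl of the t-derivative is the difference of the
end slices. Basic: a subalgebra closed under d because pull is an algebra map commuting with d.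
cartan: apply homotopy to pull F.big a on [0,1]; the slices of dT (pull big a) are pull (F.at t) (ctr a) = ctr a.
-/

set_option maxSynthPendingDepth 3
set_option linter.unusedSectionVars false

open Set Filter Topology MeasureTheory
open scoped ContDiff

noncomputable section
namespace Pool.Agent.Work.MP_8c604c_gt

open TopologicalSpace Lam

variable {V V' P : Type} [NormedAddCommGroup V] [NormedSpace ℝ V] [FiniteDimensional ℝ V]
  [NormedAddCommGroup V'] [NormedSpace ℝ V'] [FiniteDimensional ℝ V']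
  [NormedAddCommGroup P] [NormedSpace ℝ P] [FiniteDimensional ℝ P]

theorem fj_diff {U : Opens V} {U' : Opens V'} (f : SMap U U') {x : V} (hx : x ∈ U) :
    DifferentiableAt ℝ f.toFun x :=
  (f.smooth.contDiffAt (U.isOpen.mem_nhds hx)).differentiableAt (by simp)

theorem fj_slc_fderiv {U : Opens V} (t : ℝ) (x v : V) :
    fderiv ℝ (SMap.slc U t).toFun x v = (0, v) := by
  have : fderiv ℝ (SMap.slc U t).toFun x = ContinuousLinearMap.inr ℝ ℝ V :=
    (hasFDerivAt_prodMk_right t x).fderiv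
  rw [this]
  rfl

/-- Product of the identity with a map. -/
def fjProd (W : Opens P) {U : Opens V} {U' : Opens V'} (f : SMap U U') :
    SMap (prodO W U) (prodO W U') :=
  ⟨fun p => (p.1, f.toFun p.2),
    contDiffOn_fst.prodMk (f.smooth.comp contDiffOn_snd fun _ hp => hp.2),
    fun _ hp => ⟨hp.1, f.maps hp.2⟩⟩

/-- A pair of maps. -/
def fjPair {W : Opens P} {U : Opens V} {U' : Opens V'} (β : SMap U' W) (f : SMap U' U) :
    SMap U' (prodO W U) :=
  ⟨fun y => (β.toFun y, f.toFun y), β.smooth.prodMk f.smooth, fun _ hy => ⟨β.maps hy, f.maps hy⟩⟩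

/-- Exchange of the first two factors. -/
def fjSwap (W : Opens P) (U : Opens V) : SMap (cyl (prodO W U)) (prodO W (cyl U)) :=
  ⟨fun p => (p.2.1, p.1, p.2.2),
    contDiffOn_snd.fst.prodMk (contDiffOn_fst.prodMk contDiffOn_snd.snd),
    fun _ hp => ⟨hp.2.1, trivial, hp.2.2⟩⟩

/-- Exchange of the first two factors, backwards. -/
def fjSwap' (W : Opens P) (U : Opens V) : SMap (prodO W (cyl U)) (cyl (prodO W U)) :=
  ⟨fun p => (p.2.1, p.1, p.2.2),
    contDiffOn_snd.fst.prodMk (contDiffOn_fst.prodMk contDiffOn_snd.snd),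
    fun _ hp => ⟨trivial, hp.1, hp.2.2⟩⟩

/-- A smooth family of self-maps of `U` containing the identity. -/
structure Act (W : Opens P) (U : Opens V) where
  a : SMap (prodO W U) U
  e : P
  e_mem : e ∈ W
  a_e : ∀ x ∈ U, a.toFun (e, x) = x

namespace Act
variable {W : Opens P} {U : Opens V} {U' : Opens V'}

/-- The same family on the cylinder. -/
def cyl (A : Act W U) : Act W (cyl U) where
  a := ⟨fun p => (p.2.1, A.a.toFun (p.1, p.2.2)),
    contDiffOn_snd.fst.prodMk (A.a.smooth.comp (contDiffOn_fst.prodMk contDiffOn_snd.snd)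
      fun _ hp => ⟨hp.1, hp.2.2⟩),
    fun _ hp => ⟨trivial, A.a.maps ⟨hp.1, hp.2.2⟩⟩⟩
  e := A.e
  e_mem := A.e_mem
  a_e := fun p hp => Prod.ext rfl (A.a_e p.2 hp.2)

/-- Basic forms. -/
def Basic (A : Act W U) : Subalgebra ℝ (Om U) :=
  AlgHom.equalizer (Om.pull A.a) (Om.pull (SMap.snd W U))

theorem mem_basic (A : Act W U) {γ : Om U} :
    γ ∈ A.Basic ↔ Om.pull A.a γ = Om.pull (SMap.snd W U) γ := Iff.rfl

theorem d_mem (A : Act W U) {γ : Om U} (h : γ ∈ A.Basic) : Om.d γ ∈ A.Basic := by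
  rw [mem_basic] at h ⊢
  rw [← Om.d_pull, ← Om.d_pull, h]

theorem inv_mem (A : Act W U) {γ : Om U} (h : γ ∈ A.Basic) : Om.inv γ ∈ A.Basic := by
  rw [mem_basic] at h ⊢
  rw [← Om.inv_pull, ← Om.inv_pull, h]

theorem horizontal (A : Act W U) {γ : Om U} (h : γ ∈ A.Basic) {x : V} (hx : x ∈ U) (p : P) :
    ctr (fderiv ℝ A.a.toFun (A.e, x) (p, 0)) (Om.ev γ x) = 0 := by
  have hm : (A.e, x) ∈ prodO W U := ⟨A.e_mem, hx⟩
  have h1 := congrArg (fun η => Om.ev η (A.e, x)) (A.mem_basic.mp h)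
  simp only [Om.ev_pull _ _ hm] at h1
  have e1 : fderiv ℝ (SMap.snd W U).toFun (A.e, x) = ContinuousLinearMap.snd ℝ P V := fderiv_snd
  have e2 : (SMap.snd W U).toFun (A.e, x) = x := rfl
  rw [e1, e2, A.a_e x hx] at h1
  have h2 := congrArg (ctr ((p, 0) : P × V)) h1
  have e3 : ContinuousLinearMap.snd ℝ P V (p, 0) = 0 := rfl
  rw [ctr_lmap, ctr_lmap, e3, map_zero, zero_apply, map_zero] at h2
  have h3 : (fderiv ℝ A.a.toFun (A.e, x)).comp (ContinuousLinearMap.inr ℝ P V) =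
      ContinuousLinearMap.id ℝ V := by
    have d1 : HasFDerivAt (fun y => A.a.toFun (A.e, y))
        ((fderiv ℝ A.a.toFun (A.e, x)).comp (ContinuousLinearMap.inr ℝ P V)) x :=
      (fj_diff A.a hm).hasFDerivAt.comp x (hasFDerivAt_prodMk_right A.e x)
    have d2 : HasFDerivAt (fun y => A.a.toFun (A.e, y)) (ContinuousLinearMap.id ℝ V) x :=
      (hasFDerivAt_id x).congr_of_eventuallyEq
        (Filter.eventually_of_mem (U.isOpen.mem_nhds hx) fun y hy => A.a_e y hy)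
    exact d1.unique d2
  rw [← lmap_id (ctr _ (Om.ev γ x)), ← h3, lmap_comp, h2, map_zero]

theorem pull_mem (A : Act W U) (A' : Act W U') (f : SMap U U')
    (hf : ∀ p ∈ W, ∀ x ∈ U, f.toFun (A.a.toFun (p, x)) = A'.a.toFun (p, f.toFun x)) {γ : Om U'}
    (h : γ ∈ A'.Basic) : Om.pull f γ ∈ A.Basic := by
  rw [mem_basic] at h ⊢
  rw [← Om.pull_comp, ← Om.pull_comp,
    Om.pull_congr (f' := A'.a.comp (fjProd W f)) (fun q hq => hf q.1 hq.1 q.2 hq.2),
    Om.pull_comp, h, ← Om.pull_comp]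
  exact Om.pull_congr (fun _ _ => rfl) γ

theorem pull_mem_of_inv (A : Act W U) (f : SMap U U')
    (hf : ∀ p ∈ W, ∀ x ∈ U, f.toFun (A.a.toFun (p, x)) = f.toFun x) (γ : Om U') :
    Om.pull f γ ∈ A.Basic := by
  rw [mem_basic, ← Om.pull_comp, ← Om.pull_comp]
  exact Om.pull_congr (f := f.comp A.a) (f' := f.comp (SMap.snd W U))
    (fun q hq => hf q.1 hq.1 q.2 hq.2) γ

theorem fn_mem (A : Act W U) {f : V → ℝ} (hf : ContDiffOn ℝ ∞ f U)
    (h : ∀ p ∈ W, ∀ x ∈ U, f (A.a.toFun (p, x)) = f x) : Om.fn f hf ∈ A.Basic := by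
  rw [mem_basic]
  refine Om.ext fun q hq => ?_
  rw [Om.ev_pull _ _ hq, Om.ev_pull _ _ hq, Om.ev_fn _ _ (A.a.maps hq),
    Om.ev_fn _ _ ((SMap.snd W U).maps hq), AlgHom.commutes, AlgHom.commutes]
  exact congrArg _ (h q.1 hq.1 q.2 hq.2)

theorem one1_mem (A : Act W U) {θ : V → V →L[ℝ] ℝ} (hθ : ContDiffOn ℝ ∞ θ U)
    (h : ∀ p ∈ W, ∀ x ∈ U, ∀ v : P × V,
      θ (A.a.toFun (p, x)) (fderiv ℝ A.a.toFun (p, x) v) = θ x v.2) : Om.one1 θ hθ ∈ A.Basic := by
  rw [mem_basic]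
  refine Om.ext fun q hq => ?_
  have e1 : fderiv ℝ (SMap.snd W U).toFun q = ContinuousLinearMap.snd ℝ P V := fderiv_snd
  rw [Om.ev_pull _ _ hq, Om.ev_pull _ _ hq, Om.ev_one1 _ _ (A.a.maps hq),
    Om.ev_one1 _ _ ((SMap.snd W U).maps hq), lmap_io, lmap_io, e1]
  congr 1
  refine ContinuousLinearMap.ext fun v => ?_
  exact h q.1 hq.1 q.2 hq.2 v

theorem fj_cylMap (A : Act W U) {γ : Om (Pool.Agent.Work.MP_8c604c_gt.cyl U)}
    (h : γ ∈ A.cyl.Basic) : Om.pull A.a.cylMap γ = Om.pull (SMap.snd W U).cylMap γ := by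
  rw [mem_basic] at h
  rw [Om.pull_congr (f := A.a.cylMap) (f' := A.cyl.a.comp (fjSwap W U)) (fun _ _ => rfl),
    Om.pull_comp, h, ← Om.pull_comp]
  exact Om.pull_congr (fun _ _ => rfl) γ

theorem Sl_mem (A : Act W U) {γ : Om (Pool.Agent.Work.MP_8c604c_gt.cyl U)} (h : γ ∈ A.cyl.Basic)
    (a b : ℝ) : Om.Sl a b γ ∈ A.Basic := by
  rw [mem_basic, Om.pull_Sl, Om.pull_Sl, A.fj_cylMap h]

theorem dT_mem (A : Act W U) {γ : Om (Pool.Agent.Work.MP_8c604c_gt.cyl U)} (h : γ ∈ A.cyl.Basic) :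
    Om.dT γ ∈ A.cyl.Basic := by
  rw [mem_basic,
    Om.pull_congr (f := A.cyl.a) (f' := A.a.cylMap.comp (fjSwap' W U)) (fun _ _ => rfl),
    Om.pull_comp, ← Om.dT_cylMap, A.fj_cylMap h, Om.dT_cylMap, ← Om.pull_comp]
  exact Om.pull_congr (fun _ _ => rfl) _

theorem J_mem (A : Act W U) {γ : Om (Pool.Agent.Work.MP_8c604c_gt.cyl U)} (h : γ ∈ A.cyl.Basic)
    (a b : ℝ) : Om.J a b γ ∈ A.Basic :=
  A.Sl_mem (A.dT_mem h) a b

/-- Moving along the orbits by a point-dependent amount does not change pull-backs of basic forms. -/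
theorem gauge (A : Act W U) {γ : Om U} (h : γ ∈ A.Basic) (f f' : SMap U' U) (β : SMap U' W)
    (e : ∀ y ∈ U', f'.toFun y = A.a.toFun (β.toFun y, f.toFun y)) :
    Om.pull f' γ = Om.pull f γ := by
  rw [mem_basic] at h
  rw [Om.pull_congr (f' := A.a.comp (fjPair β f)) (fun y hy => e y hy), Om.pull_comp, h,
    ← Om.pull_comp]
  exact Om.pull_congr (fun _ _ => rfl) γ

end Act

/-- A smooth flow on `U`. -/
structure Flw (U : Opens V) where
  big : SMap (cyl U) U
  zero : ∀ x ∈ U, big.toFun (0, x) = x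
  add : ∀ s t, ∀ x ∈ U, big.toFun (s + t, x) = big.toFun (s, big.toFun (t, x))

namespace Flw
variable {U : Opens V} {W : Opens P} (F : Flw U)

/-- The time `t` map. -/
def tm (t : ℝ) : SMap U U := F.big.comp (SMap.slc U t)

/-- The generator. -/
def X (x : V) : V := fderiv ℝ F.big.toFun (0, x) (1, 0)

theorem X_smooth : ContDiffOn ℝ ∞ F.X U := by
  have h1 : ContDiffOn ℝ ∞ (fderiv ℝ F.big.toFun) (Pool.Agent.Work.MP_8c604c_gt.cyl U) :=
    F.big.smooth.fderiv_of_isOpen (Pool.Agent.Work.MP_8c604c_gt.cyl U).isOpen (by simp)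
  exact (h1.comp (SMap.slc U 0).smooth (SMap.slc U 0).maps).clm_apply contDiffOn_const

theorem fj_line (t : ℝ) {x : V} (hx : x ∈ U) :
    HasDerivAt (fun s => F.big.toFun (s, x)) (fderiv ℝ F.big.toFun (t, x) (1, 0)) t := by
  have hm : (t, x) ∈ Pool.Agent.Work.MP_8c604c_gt.cyl U := ⟨trivial, hx⟩
  exact (fj_diff F.big hm).hasFDerivAt.comp_hasDerivAt t
    ((hasDerivAt_id t).prodMk (hasDerivAt_const t x))

theorem hasDerivAt (t : ℝ) {x : V} (hx : x ∈ U) :
    HasDerivAt (fun s => F.big.toFun (s, x)) (F.X (F.big.toFun (t, x))) t := by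
  have hy : F.big.toFun (t, x) ∈ U := F.big.maps ⟨trivial, hx⟩
  have h0 := F.fj_line 0 hy
  have h1 : HasDerivAt (fun s => F.big.toFun (s - t, F.big.toFun (t, x)))
      (F.X (F.big.toFun (t, x))) t :=
    HasDerivAt.comp_sub_const (f := fun s => F.big.toFun (s, F.big.toFun (t, x))) t t
      (by rw [sub_self]; exact h0)
  refine h1.congr_of_eventuallyEq (Filter.Eventually.of_forall fun s => ?_)
  show F.big.toFun (s, x) = F.big.toFun (s - t, F.big.toFun (t, x))
  rw [← F.add _ _ x hx, sub_add_cancel]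

/-- Contraction with the generator. -/
def iX : Om U →ₗ[ℝ] Om U := Om.ctrF F.X F.X_smooth

/-- The same flow on the cylinder. -/
def cyl : Flw (cyl U) where
  big := ⟨fun p => (p.2.1, F.big.toFun (p.1, p.2.2)),
    contDiffOn_snd.fst.prodMk (F.big.smooth.comp (contDiffOn_fst.prodMk contDiffOn_snd.snd)
      fun _ hp => ⟨trivial, hp.2.2⟩),
    fun _ hp => ⟨trivial, F.big.maps ⟨trivial, hp.2.2⟩⟩⟩
  zero := fun p hp => Prod.ext rfl (F.zero p.2 hp.2)
  add := fun s t p hp => Prod.ext rfl (F.add s t p.2 hp.2)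

theorem cyl_X {p : ℝ × V} (hp : p.2 ∈ U) : F.cyl.X p = (0, F.X p.2) := by
  have hm : p ∈ Pool.Agent.Work.MP_8c604c_gt.cyl U := ⟨trivial, hp⟩
  have h1 := F.cyl.hasDerivAt 0 hm
  have h2 := (hasDerivAt_const (0 : ℝ) p.1).prodMk (F.hasDerivAt 0 hp)
  rw [F.cyl.zero p hm] at h1
  rw [F.zero p.2 hp] at h2
  exact h1.unique h2

/-- Invariant forms. -/
def Inv (γ : Om U) : Prop := ∀ t, Om.pull (F.tm t) γ = γ

/-- Average over the time interval `[0, π]`. -/
def avg : Om U →ₗ[ℝ] Om U := Real.pi⁻¹ • (Om.Sl 0 Real.pi ∘ₗ (Om.pull F.big).toLinearMap)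

theorem fj_avg (γ : Om U) :
    F.avg γ = Real.pi⁻¹ • Om.Sl 0 Real.pi (Om.pull F.big γ) := rfl

theorem fj_slc (t : ℝ) (γ : Om U) :
    Om.pull (SMap.slc U t) (Om.pull F.big γ) = Om.pull (F.tm t) γ :=
  (Om.pull_comp _ _ _).symm

theorem fj_tm_add (s t : ℝ) (γ : Om U) :
    Om.pull (F.tm (s + t)) γ = Om.pull (F.tm t) (Om.pull (F.tm s) γ) := by
  rw [← Om.pull_comp]
  exact Om.pull_congr (fun x hx => F.add s t x hx) γ

theorem ev_avg (γ : Om U) {x : V} (hx : x ∈ U) :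
    Om.ev (F.avg γ) x = Real.pi⁻¹ • ∫ t in (0 : ℝ)..Real.pi, Om.ev (Om.pull (F.tm t) γ) x := by
  rw [F.fj_avg, Om.ev_smul, Om.ev_Sl _ _ _ hx]
  simp only [F.fj_slc]

theorem iX_tm (t : ℝ) (γ : Om U) : F.iX (Om.pull (F.tm t) γ) = Om.pull (F.tm t) (F.iX γ) := by
  refine Om.ctrF_pull (F.tm t) F.X_smooth F.X_smooth (fun x hx => ?_) γ
  have h0 := F.hasDerivAt 0 hx
  have h1 : HasFDerivAt (F.tm t).toFun (fderiv ℝ (F.tm t).toFun x) (F.big.toFun (0, x)) := by
    rw [F.zero x hx]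
    exact (fj_diff (F.tm t) hx).hasFDerivAt
  have h2 := h1.comp_hasDerivAt (0 : ℝ) h0
  rw [F.zero x hx] at h2
  have h3 := (F.hasDerivAt (t + 0) hx).comp_const_add t 0
  rw [add_zero] at h3
  refine h2.unique (h3.congr_of_eventuallyEq (Filter.Eventually.of_forall fun s => ?_))
  exact (F.add t s x hx).symm

theorem slc_dT_big (t : ℝ) (γ : Om U) :
    Om.pull (SMap.slc U t) (Om.dT (Om.pull F.big γ)) = Om.pull (F.tm t) (F.iX γ) := by
  have h : Om.dT (Om.pull F.big γ) = Om.pull F.big (F.iX γ) :=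
    Om.ctrF_pull F.big contDiffOn_const F.X_smooth
      (fun p hp => (F.fj_line p.1 hp.2).unique (F.hasDerivAt p.1 hp.2)) γ
  rw [h, F.fj_slc]

theorem cartan {γ : Om U} (h : F.Inv γ) : F.iX (Om.d γ) + Om.d (F.iX γ) = 0 := by
  have key : ∀ η : Om U, F.Inv η → Om.J 0 1 (Om.pull F.big η) = F.iX η := by
    intro η hη
    have : Om.Sl 0 1 (Om.dT (Om.pull F.big η)) = ((1 : ℝ) - 0) • F.iX η :=
      Om.Sl_const fun t _ => by rw [F.slc_dT_big, ← F.iX_tm, hη t]
    rw [sub_zero, one_smul] at this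
    exact this
  have h1 := Om.homotopy 0 1 (Om.pull F.big γ)
  have h2 : F.Inv (Om.d γ) := fun t => by rw [← Om.d_pull, h t]
  rw [Om.d_pull, key _ h, key _ h2, F.fj_slc, F.fj_slc, h 0, h 1, sub_self] at h1
  rw [add_comm, h1]

theorem d_avg (γ : Om U) : Om.d (F.avg γ) = F.avg (Om.d γ) := by
  rw [F.fj_avg, F.fj_avg, map_smul, Om.d_Sl, Om.d_pull]

theorem fj_X' : ContDiffOn ℝ ∞ (fun p : ℝ × V => ((0 : ℝ), F.X p.2))
    (Pool.Agent.Work.MP_8c604c_gt.cyl U) :=
  contDiffOn_const.prodMk (F.X_smooth.comp contDiffOn_snd fun _ hp => hp.2)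

theorem iX_avg (γ : Om U) : F.iX (F.avg γ) = F.avg (F.iX γ) := by
  rw [F.fj_avg, F.fj_avg, map_smul]
  congr 1
  refine (Om.ctrF_Sl F.X_smooth F.fj_X' _ _ _).trans (Om.Sl_congr fun t _ => ?_)
  rw [← Om.ctrF_pull (SMap.slc U t) F.X_smooth F.fj_X' (fun x _ => fj_slc_fderiv t x _),
    F.fj_slc, F.fj_slc]
  exact F.iX_tm t γ

theorem avg_of_inv {γ : Om U} (h : F.Inv γ) : F.avg γ = γ := by
  rw [F.fj_avg, Om.Sl_const (η := γ) fun t _ => by rw [F.fj_slc, h t], sub_zero, smul_smul,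
    inv_mul_cancel₀ Real.pi_ne_zero, one_smul]

theorem avg_mul_left {γ : Om U} (h : F.Inv γ) (η : Om U) : F.avg (γ * η) = γ * F.avg η := by
  rw [F.fj_avg, F.fj_avg, map_mul, Om.Sl_mul_left (η := γ) fun t _ => by rw [F.fj_slc, h t],
    mul_smul_comm]

theorem avg_mul_right {γ : Om U} (h : F.Inv γ) (η : Om U) : F.avg (η * γ) = F.avg η * γ := by
  rw [F.fj_avg, F.fj_avg, map_mul, Om.Sl_mul_right (η := γ) fun t _ => by rw [F.fj_slc, h t],
    smul_mul_assoc]

theorem inv_avg {γ : Om U} (h : Om.pull (F.tm Real.pi) γ = γ) : F.Inv (F.avg γ) := by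
  intro s
  rw [F.fj_avg, map_smul, Om.pull_Sl]
  congr 1
  refine Om.ext fun x hx => ?_
  rw [Om.ev_Sl _ _ _ hx, Om.ev_Sl _ _ _ hx]
  have e : ∀ t, Om.pull (SMap.slc U t) (Om.pull (F.tm s).cylMap (Om.pull F.big γ)) =
      Om.pull (F.tm (t + s)) γ := by
    intro t
    rw [← Om.pull_comp, ← Om.pull_comp]
    exact Om.pull_congr (fun y hy => (F.add t s y hy).symm) γ
  have hp : Function.Periodic (fun t => Om.ev (Om.pull (F.tm t) γ) x) Real.pi := fun t => by
    show Om.ev (Om.pull (F.tm (t + Real.pi)) γ) x = _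
    rw [add_comm, F.fj_tm_add, h]
  simp only [e, F.fj_slc]
  rw [intervalIntegral.integral_comp_add_right (fun t => Om.ev (Om.pull (F.tm t) γ) x) s,
    zero_add, add_comm, hp.intervalIntegral_add_eq s 0, zero_add]

theorem avg_isOne {γ : Om U} (h : Om.IsOne γ) : Om.IsOne (F.avg γ) :=
  ((h.pull F.big).Sl 0 Real.pi).smul _

theorem slc_avg (s : ℝ) (γ : Om (Pool.Agent.Work.MP_8c604c_gt.cyl U)) :
    Om.pull (SMap.slc U s) (F.cyl.avg γ) = F.avg (Om.pull (SMap.slc U s) γ) := by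
  rw [F.fj_avg, F.cyl.fj_avg, map_smul, Om.pull_Sl, ← Om.pull_comp, ← Om.pull_comp]
  rfl

theorem slc_iX (s : ℝ) (γ : Om (Pool.Agent.Work.MP_8c604c_gt.cyl U)) :
    Om.pull (SMap.slc U s) (F.cyl.iX γ) = F.iX (Om.pull (SMap.slc U s) γ) :=
  (Om.ctrF_pull (SMap.slc U s) F.X_smooth F.cyl.X_smooth
    (fun x hx => (fj_slc_fderiv s x _).trans (F.cyl_X (p := (s, x)) hx).symm) γ).symm

theorem iX_J (a b : ℝ) (γ : Om (Pool.Agent.Work.MP_8c604c_gt.cyl U)) :
    F.iX (Om.J a b γ) = -Om.J a b (F.cyl.iX γ) := by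
  refine (Om.ctrF_J F.X_smooth F.fj_X' a b γ).trans ?_
  congr 2
  refine Om.ext fun p hp => ?_
  rw [iX, Om.ev_ctrF _ _ _ hp, Om.ev_ctrF _ _ _ hp, F.cyl_X hp.2]

theorem avg_mem (A : Act W U) (hc : ∀ t, ∀ p ∈ W, ∀ x ∈ U,
    F.big.toFun (t, A.a.toFun (p, x)) = A.a.toFun (p, F.big.toFun (t, x))) {γ : Om U}
    (h : γ ∈ A.Basic) : F.avg γ ∈ A.Basic :=
  A.Basic.smul_mem (A.Sl_mem
    (A.cyl.pull_mem A F.big (fun p hp q hq => hc q.1 p hp q.2 hq.2) h) 0 Real.pi) _

theorem iX_mem (A : Act W U) (hc : ∀ t, ∀ p ∈ W, ∀ x ∈ U,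
    F.big.toFun (t, A.a.toFun (p, x)) = A.a.toFun (p, F.big.toFun (t, x))) {γ : Om U}
    (h : γ ∈ A.Basic) : F.iX γ ∈ A.Basic := by
  have h1 := A.pull_mem A.cyl (SMap.slc U 0) (fun _ _ _ _ => rfl)
    (A.dT_mem (A.cyl.pull_mem A F.big (fun p hp q hq => hc q.1 p hp q.2 hq.2) h))
  rwa [F.slc_dT_big, Om.pull_id (f := F.tm 0) F.zero] at h1

end Flw

end Pool.Agent.Work.MP_8c604c_gt
end
end

-- merged part: Pool.Agent.Work.MP_8c604c_gt.C.Defs
section
/-!
Block C (volume bound from the signed count): definitions.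
`CH n` is the affine chart of the tangent bundle of `HP^n`, `sc0` its section into `VV n`, `sc i` the other charts.
-/

set_option maxSynthPendingDepth 3

open Set Filter Topology MeasureTheory
open scoped ContDiff Quaternion

noncomputable section
namespace Pool.Agent.Work.MP_8c604c_gt.C

open H T TopologicalSpace Lam Om

variable {n : ℕ}

/-- The affine chart of the tangent bundle. -/
abbrev CH (n : ℕ) : Type := EA n × EA n

instance chHaar : (volume : Measure (CH n)).IsAddHaarMeasure :=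
  Measure.prod.instIsAddHaarMeasure _ _

theorem finrank_EA : Module.finrank ℝ (EA n) = 4 * n := by
  rw [(WithLp.linearEquiv 2 ℝ (Fin n → ℍ)).finrank_eq, Module.finrank_pi_fintype]
  simp [Quaternion.finrank_eq_four]
  ring

/-- `OO` as an open set. -/
def UO (n : ℕ) : Opens (VV n) := ⟨OO n, isOpen_OO⟩

/-- Nonzero tangent vectors in the chart. -/
def U0 (n : ℕ) : Opens (CH n) := ⟨{y | y.2 ≠ 0}, isOpen_ne_fun continuous_snd continuous_const⟩

/-- Parameters of `act`. -/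
def WB : Opens (ℍ × ℝ × ℍ) :=
  ⟨{p | p.1 ≠ 0 ∧ 0 < p.2.1}, (isOpen_ne_fun continuous_fst continuous_const).inter
    (isOpen_lt continuous_const continuous_snd.fst)⟩

/-- Parameters of the action without the scaling of the vector. -/
def WC : Opens (ℍ × ℍ) := ⟨{p | p.1 ≠ 0}, isOpen_ne_fun continuous_fst continuous_const⟩

/-- The action on `OO` with quotient the unit tangent bundle. -/
def actB (n : ℕ) : Act WB (UO n) where
  a := ⟨fun p => act p.1.1 p.1.2.1 p.1.2.2 p.2, by unfold act; fun_prop,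
    fun _ hp => act_mem _ hp.1.1 hp.1.2 hp.2⟩
  e := (1, 1, 0)
  e_mem := ⟨one_ne_zero, one_pos⟩
  a_e := fun x _ => act_one x

/-- The action on `OO` with quotient the punctured tangent bundle. -/
def actC (n : ℕ) : Act WC (UO n) where
  a := ⟨fun p => act p.1.1 1 p.1.2 p.2, by unfold act; fun_prop,
    fun _ hp => act_mem _ hp.1 one_pos hp.2⟩
  e := (1, 0)
  e_mem := one_ne_zero
  a_e := fun x _ => act_one x

/-- `aff0` as a linear map. -/
def a0L (n : ℕ) : EA n →L[ℝ] E n :=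
  LinearMap.toContinuousLinearMap
    { toFun := aff0
      map_add' := fun a b => by
        ext i : 1
        refine Fin.cases ?_ (fun j => ?_) i <;> simp [aff0]
      map_smul' := fun r a => by
        ext i : 1
        refine Fin.cases ?_ (fun j => ?_) i <;> simp [aff0] }

/-- The last `n` coordinates. -/
def tl (n : ℕ) : E n →L[ℝ] EA n :=
  LinearMap.toContinuousLinearMap
    { toFun := fun z => WithLp.toLp 2 fun j => z j.succ
      map_add' := fun _ _ => rfl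
      map_smul' := fun _ _ => rfl }

/-- The exchange of the coordinates `0` and `i`. -/
def sw (i : Fin (n + 1)) : E n →L[ℝ] E n :=
  LinearMap.toContinuousLinearMap
    { toFun := fun z => WithLp.toLp 2 fun j => z (Equiv.swap 0 i j)
      map_add' := fun _ _ => rfl
      map_smul' := fun _ _ => rfl }

/-- The same on pairs. -/
def sw2 (i : Fin (n + 1)) : VV n →L[ℝ] VV n := (sw i).prodMap (sw i)

/-- The section over the affine chart. -/
def sc0 (y : CH n) : VV n := (aff y.1, aff0 y.2)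

/-- Its derivative. -/
def D0 (n : ℕ) : CH n →L[ℝ] VV n := (a0L n).prodMap (a0L n)

/-- The section over the chart number `i`. -/
def sc (i : Fin (n + 1)) (y : CH n) : VV n := sw2 i (sc0 y)

/-- The chart coordinates of a point with `x.1 0 ≠ 0`. -/
def rho (x : VV n) : CH n :=
  (tl n ((x.1 0)⁻¹ • x.1), tl n ((x.1 0)⁻¹ • (x.2 - (x.2 0 * (x.1 0)⁻¹) • x.1)))

/-- The change of chart. -/
def tau (i : Fin (n + 1)) (y : CH n) : CH n := rho (sc i y)

/-- Its domain. -/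
def Dm (i : Fin (n + 1)) : Set (CH n) := {y | (sc i y).1 0 ≠ 0}

theorem a0L_apply (a : EA n) : a0L n a = aff0 a := rfl

theorem aff_eq (a : EA n) : aff a = aff 0 + aff0 a := by
  ext i : 1
  refine Fin.cases ?_ (fun j => ?_) i <;> simp [aff0, aff]

theorem sc0_eq (y : CH n) : sc0 y = sc0 0 + D0 n y :=
  Prod.ext (aff_eq _) (by simp [sc0, D0, ← a0L_apply])

theorem hasFDerivAt_sc0 (y : CH n) : HasFDerivAt sc0 (D0 n) y := by
  rw [funext (sc0_eq (n := n))]
  exact (D0 n).hasFDerivAt.const_add _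

theorem contDiff_sc0 : ContDiff ℝ ∞ (sc0 : CH n → VV n) := by
  rw [funext (sc0_eq (n := n))]
  exact contDiff_const.add (D0 n).contDiff

theorem sc0_mem {y : CH n} (hy : y.2 ≠ 0) : sc0 y ∈ OO n := by
  refine ⟨fun h => ?_, fun c h => hy ?_⟩
  · simpa [sc0, aff] using congrArg (fun z : E n => z 0) h
  · have h0 : c = 0 := by simpa [sc0, aff, aff0] using (congrArg (fun z : E n => z 0) h).symm
    rw [h0, zero_smul] at h
    ext j : 1
    simpa [sc0, aff0] using congrArg (fun z : E n => z j.succ) h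

theorem sw_sw (i : Fin (n + 1)) (z : E n) : sw i (sw i z) = z := by
  ext j : 1
  change z (Equiv.swap 0 i (Equiv.swap 0 i j)) = z j
  rw [Equiv.swap_apply_self]

theorem sw_smul (i : Fin (n + 1)) (c : ℍ) (z : E n) : sw i (c • z) = c • sw i z := rfl

theorem sw2_mem (i : Fin (n + 1)) {x : VV n} (hx : x ∈ OO n) : sw2 i x ∈ OO n := by
  refine ⟨fun h => hx.1 ?_, fun c h => hx.2 c ?_⟩
  · rw [← sw_sw i x.1, show sw i x.1 = 0 from h, map_zero]
  · rw [← sw_sw i x.2, show sw i x.2 = c • sw i x.1 from h, sw_smul, sw_sw]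

/-- The section as a smooth map. -/
def sec0 (n : ℕ) : SMap (U0 n) (UO n) := ⟨sc0, contDiff_sc0.contDiffOn, fun _ hy => sc0_mem hy⟩

/-- The other sections. -/
def sec (i : Fin (n + 1)) : SMap (U0 n) (UO n) :=
  ⟨sc i, ((sw2 i).contDiff.comp contDiff_sc0).contDiffOn, fun _ hy => sw2_mem i (sc0_mem hy)⟩

/-- The density of a form in the affine chart. -/
def den (γ : Om (UO n)) (y : CH n) : ℝ := top (ev (pull (sec0 n) γ) y)

/-- The density in the chart number `i`. -/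
def deni (i : Fin (n + 1)) (γ : Om (UO n)) (y : CH n) : ℝ := top (ev (pull (sec i) γ) y)

/-- Admissible scale functions. -/
structure Adm (s : VV n → ℝ) : Prop where
  smooth : ContDiffOn ℝ ∞ s (OO n)
  pos : ∀ x ∈ OO n, 0 < s x
  hom : ∀ l m c x, l ≠ 0 → 0 < m → x ∈ OO n → s (act l m c x) = m * s x

theorem adm_spd {g : Met n} (h : IsMetric g) : Adm (spd g) :=
  ⟨h.contDiffOn_spd, fun _ hx => h.spd_pos hx, fun _ _ c _ hl hm hx => h.spd_act c hl hm hx.1⟩

/-- The closed one-form dual to the scaling. -/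
def sg {s : VV n → ℝ} (hs : Adm s) : Om (UO n) :=
  d (fn (fun x => Real.smoothTransition (Real.log (s x)))
    (Real.smoothTransition.contDiff.comp_contDiffOn (hs.smooth.log fun x hx => (hs.pos x hx).ne')))

/-- The contact form. -/
def alF {g : Met n} (h : IsMetric g) : Om (UO n) := one1 (al g) h.contDiffOn_al

/-- The complex structure of the target. -/
def Jc (w : CH n) : CH n := (-w.2, w.1)

/-- The Euclidean norm of the target. -/
def nr (w : CH n) : ℝ := √(‖w.1‖ ^ 2 + ‖w.2‖ ^ 2)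

/-- Half the standard symplectic form. -/
def B0 (n : ℕ) : CH n →L[ℝ] CH n →L[ℝ] ℝ :=
  (1 / 2 : ℝ) • ((innerSL ℝ (E := EA n)).bilinearComp (ContinuousLinearMap.fst ℝ _ _)
      (ContinuousLinearMap.snd ℝ _ _) -
    (innerSL ℝ (E := EA n)).bilinearComp (ContinuousLinearMap.snd ℝ _ _)
      (ContinuousLinearMap.fst ℝ _ _))

theorem B0_apply (w v : CH n) : B0 n w v = 1 / 2 * (inner ℝ w.1 v.2 - inner ℝ w.2 v.1) := rfl

/-- The rotation invariant primitive of the symplectic form. -/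
def lam0 (n : ℕ) : Om (⊤ : Opens (CH n)) := one1 (B0 n) (B0 n).contDiff.contDiffOn

/-- The radial weight. -/
def rw0 (k : ℕ) (r : ℝ) : ℝ := wt (Real.log r) / r ^ k

/-- A flow preserving the contact form and an equivariant map to the unit sphere. -/
structure FD (g : Met n) where
  ψ : ℝ → VV n → VV n
  ψ_smooth : ContDiffOn ℝ ∞ (fun p : ℝ × VV n => ψ p.1 p.2) {p | p.2 ∈ OO n}
  ψ_mem : ∀ t, ∀ x ∈ OO n, ψ t x ∈ OO n
  ψ_zero : ∀ x ∈ OO n, ψ 0 x = x
  ψ_add : ∀ s t, ∀ x ∈ OO n, ψ (s + t) x = ψ s (ψ t x)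
  ψ_al : ∀ t, ∀ x ∈ OO n, ∀ δ, al g (ψ t x) (fderiv ℝ (ψ t) x δ) = al g x δ
  ψ_vel : ∀ x ∈ OO n, HasDerivAt (fun t => (ψ t x).1) (vel g x) 0
  f : VV n → CH n
  f_smooth : ContDiffOn ℝ ∞ f (OO n)
  f_inv : H.Inv f
  f_unit : ∀ x ∈ OO n, nr (f x) = 1
  f_rot : ∀ t, ∀ x ∈ OO n, f (ψ t x) = Real.cos (2 * t) • f x + Real.sin (2 * t) • Jc (f x)

namespace FD
variable {g : Met n} (D : FD g)

/-- The map as a smooth map. -/
def fM : SMap (UO n) (⊤ : Opens (CH n)) := ⟨D.f, D.f_smooth, fun _ _ => trivial⟩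

/-- The second connection form. -/
def alP : Om (UO n) := pull D.fM (lam0 n)

/-- The cone over the map. -/
def cone (x : VV n) : CH n := spd g x • D.f x

end FD

end Pool.Agent.Work.MP_8c604c_gt.C
end
end

-- merged part: Pool.Agent.Work.MP_8c604c_gt.T.OutS
section
/-!
The statement of the counting bound as a proposition.
-/

noncomputable section

namespace Pool.Agent.Work.MP_8c604c_gt.T

/-- The signed number of preimages of a regular value is at most the Catalan number. -/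
def CountLe (n : ℕ) : Prop :=
  ∀ (D : TD n) {w : Fin (4 * n) → ℂ} {T : Finset (EA n × EA n)}
    {L : EA n × EA n → (EA n × EA n) →L[ℝ] (Fin (4 * n) → ℂ)} (_ : D.Reg w T L)
    (e : (Fin (4 * n) → ℂ) ≃L[ℝ] EA n × EA n),
    |∑ x ∈ T, (SignType.sign ((L x).comp (e : (Fin (4 * n) → ℂ) →L[ℝ] EA n × EA n)).det : ℝ)| ≤
      ((4 * n).choose (2 * n) : ℝ) - (4 * n).choose (2 * n - 1)

end Pool.Agent.Work.MP_8c604c_gt.T
end
end
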