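import Pool.Agent.Work.MP_849ab0_ag.G.FLoc
import Pool.Agent.Work.MP_849ab0_ag.G.GrpQuot
import Mathlib

-- merged part: Pool.Agent.Work.MP_8c604c_gt.T.Base
section
/-!
Topology side of the Blaschke theorem for quaternionic projective space: ring structure on plain
cohomology, even classes, bundles as idempotent matrices, Thom and Euler classes (definitions).
-/

noncomputable section

set_option linter.unusedSectionVars false

namespace Pool.Agent.Work.MP_8c604c_gt.T

open Set Topology Matrix Pool.Agent.Work.MP_849ab0_ag.G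

variable {X Y : Type} [TopologicalSpace X] [TopologicalSpace Y]
variable {U Z Z₁ V W : Set X} {U' Z' : Set Y} {f : X → Y}

theorem cupU (U Z : Set X) : CupOK U univ U Z U Z := cupOK fun _ _ _ k => k

theorem cupU' (U Z : Set X) : CupOK U Z U univ U Z := cupOK fun _ _ k _ => k

instance ringH (U : Set X) : Ring (H U univ) where
  __ := (inferInstance : AddCommGroup (H U univ))
  mul x y := cup U univ x y
  one := cls U univ onec
  mul_assoc x y z := cup_assoc (cupU _ _) (cupU _ _) (cupU _ _) (cupU _ _) x y z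
  one_mul := one_cup' (subset_univ _)
  mul_one := cup_one' (subset_univ _)
  left_distrib x y z := map_add (cup U univ x) y z
  right_distrib x y z := by
    change cup U univ (x + y) z = cup U univ x z + cup U univ y z
    rw [map_add, LinearMap.add_apply]
  zero_mul x := by
    change cup U univ (0 : H U univ) x = 0
    rw [map_zero, LinearMap.zero_apply]
  mul_zero x := map_zero (cup U univ x)

theorem mulH (x y : H U univ) : x * y = cup U univ x y := rfl

theorem oneH : (1 : H U univ) = cls U univ onec := rfl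

instance algH (U : Set X) : Algebra ℂ (H U univ) :=
  Algebra.ofModule
    (fun r x y => by rw [mulH, mulH, map_smul, LinearMap.smul_apply])
    (fun r x y => by rw [mulH, mulH, map_smul])

theorem isDeg_oneH : IsDeg 0 (1 : H U univ) := isDeg_one

theorem IsDeg.mulH {p q : ℤ} {x y : H U univ} (hx : IsDeg p x) (hy : IsDeg q y) :
    IsDeg (p + q) (x * y) := hx.cup hy _ _

theorem IsDeg.powH {p : ℤ} {x : H U univ} (hx : IsDeg p x) (k : ℕ) : IsDeg (k * p) (x ^ k) := by
  induction k with
  | zero => simpa using isDeg_oneH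
  | succ k ih => rw [pow_succ]; push_cast; rw [add_mul, one_mul]; exact IsDeg.mulH ih hx

/-- admissible maps from a locally closed set -/
theorem ok_of [RegularSpace X] [SecondCountableTopology X] (hU : IsLocallyClosed U)
    (hf : ContinuousOn f U) (h1 : MapsTo f U U') (h2 : ∀ x ∈ U, f x ∈ Z' → x ∈ Z) :
    Ok f U Z U' Z' := .of_mem (.of_continuousOn hU hf) h1 h2

theorem ok_top [RegularSpace X] [SecondCountableTopology X] (hU : IsLocallyClosed U)
    (hf : ContinuousOn f U) (h1 : MapsTo f U U') : Ok f U univ U' univ :=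
  ok_of hU hf h1 fun _ _ _ => trivial

theorem Ok.top (h : Ok f U Z U' Z') : Ok f U univ U' univ :=
  .of_mem h.ext h.maps fun _ _ _ => trivial

/-- pull-back as an algebra map -/
def pullA (h : Ok f U univ U' univ) : H U' univ →ₐ[ℂ] H U univ :=
  AlgHom.ofLinearMap (pull f U univ) (pull_one h (subset_univ _)) fun x y =>
    pull_cup' h h h (fun _ _ _ k => k) (cupU _ _) x y

theorem pullA_apply (h : Ok f U univ U' univ) (x : H U' univ) : pullA h x = pull f U univ x := rfl

theorem pull_mul (h : Ok f U univ U' univ) (x y : H U' univ) :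
    pull f U univ (x * y) = pull f U univ x * pull f U univ y := map_mul (pullA h) x y

theorem pull_pow (h : Ok f U univ U' univ) (x : H U' univ) (k : ℕ) :
    pull f U univ (x ^ k) = pull f U univ x ^ k := map_pow (pullA h) x k

theorem pull_oneH (h : Ok f U univ U' univ) : pull f U univ (1 : H U' univ) = 1 := map_one (pullA h)

/-! ### the module `H U Z` over the ring `H U univ` -/

theorem cm_mul (x y : H U univ) (c : H U Z) : cup U Z (x * y) c = cup U Z x (cup U Z y c) :=
  cup_assoc (cupU _ _) (cupU _ _) (cupU _ _) (cupU _ _) x y c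

theorem cm_one (c : H U Z) : cup U Z (1 : H U univ) c = c := one_cup' (subset_univ _) c

theorem pull_cm (h : Ok f U Z U' Z') (x : H U' univ) (c : H U' Z') :
    pull f U Z (cup U' Z' x c) = cup U Z (pull f U univ x) (pull f U Z c) :=
  pull_cup' h (Ok.top h) h (fun _ _ _ k => k) (cupU _ _) x c

/-- enlarging the support -/
theorem supp_cm (h : ∀ x ∈ U, x ∈ Z → x ∈ Z₁) (x : H U univ) (c : H U Z) :
    pull id U Z₁ (cup U Z x c) = cup U Z₁ x (pull id U Z₁ c) := by
  rw [pull_cm (.id subset_rfl h), pull_id]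

/-- forgetting the support -/
theorem fgt_cm (x : H U univ) (c : H U Z) :
    pull id U univ (cup U Z x c) = x * pull id U univ c := supp_cm (fun _ _ _ => trivial) x c

/-! ### even classes -/

/-- classes of even degree -/
def Evn (a : H U Z) : Prop := ∀ p : ℤ, Odd p → prj {p} a = 0

theorem IsDeg.evn {p : ℤ} {a : H U Z} (h : IsDeg p a) (hp : Even p) : Evn a := fun q hq =>
  h.prj_eq_zero fun e => by
    rw [mem_singleton_iff] at e
    exact (Int.not_odd_iff_even.2 hp) (e ▸ hq)

theorem Evn.ind {x : H U Z} (hx : Evn x) {Q : H U Z → Prop} (h0 : Q 0)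
    (ha : ∀ a b, Q a → Q b → Q (a + b)) (hd : ∀ (p : ℤ) a, IsDeg (2 * p) a → Q a) : Q x := by
  obtain ⟨n, e⟩ := exists_sum_prj x
  rw [e]
  refine Finset.sum_induction _ Q ha h0 fun p _ => ?_
  rcases Int.even_or_odd (p : ℤ) with ⟨r, k⟩ | k
  · exact hd r _ (by rw [two_mul, ← k]; exact isDeg_prj _ _)
  · rw [hx _ k]; exact h0

theorem evn_zero : Evn (0 : H U Z) := fun _ _ => map_zero _

theorem Evn.add {x y : H U Z} (hx : Evn x) (hy : Evn y) : Evn (x + y) := fun p hp => by
  rw [map_add, hx p hp, hy p hp, add_zero]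

theorem Evn.smul (c : ℂ) {x : H U Z} (hx : Evn x) : Evn (c • x) := fun p hp => by
  rw [map_smul, hx p hp, smul_zero]

theorem Evn.pul {x : H U' Z'} (hx : Evn x) (f : X → Y) (U Z : Set X) : Evn (pull f U Z x) :=
  fun p hp => by rw [← pull_prj, hx p hp, map_zero]

theorem Evn.cp {U₁ Z₁ U₂ Z₂ : Set X} {x : H U₁ Z₁} {y : H U₂ Z₂} (hx : Evn x) (hy : Evn y) :
    Evn (cup U Z x y) :=
  hx.ind (Q := fun x => Evn (cup U Z x y)) (by simpa using evn_zero)
    (fun a b h1 h2 => by rw [map_add, LinearMap.add_apply]; exact h1.add h2)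
    fun p a ha => hy.ind (Q := fun y => Evn (cup U Z a y)) (by simpa using evn_zero)
      (fun a b h1 h2 => by rw [map_add]; exact h1.add h2)
      fun q b hb => IsDeg.evn (ha.cup hb _ _) ⟨p + q, by ring⟩

theorem Evn.comm {U₁ Z₁ U₂ Z₂ : Set X} (c : CupOK U₁ Z₁ U₂ Z₂ U Z) {x : H U₁ Z₁} (hx : Evn x)
    (y : H U₂ Z₂) : cup U Z y x = cup U Z x y :=
  hx.ind (Q := fun x => cup U Z y x = cup U Z x y) (by simp)
    (fun _ _ h1 h2 => by rw [map_add, map_add, LinearMap.add_apply, h1, h2])
    fun p x hx => cup_comm_even c hx y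

theorem Evn.commH {x : H U univ} (hx : Evn x) (y : H U univ) : y * x = x * y :=
  hx.comm (cupU _ _) y

/-- the commutative ring of even classes -/
def EvR (U : Set X) : Subalgebra ℂ (H U univ) where
  carrier := {x | Evn x}
  mul_mem' hx hy := Evn.cp hx hy
  add_mem' hx hy := Evn.add hx hy
  algebraMap_mem' c := by
    rw [Algebra.algebraMap_eq_smul_one]
    exact (IsDeg.evn isDeg_oneH ⟨0, rfl⟩).smul c

instance (U : Set X) : CommRing (EvR U) where
  __ := (inferInstance : Ring (EvR U))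
  mul_comm x y := Subtype.ext (Evn.commH y.2 x.1)

/-- pull-back of even classes -/
def pullE (h : Ok f U univ U' univ) : EvR U' →ₐ[ℂ] EvR U :=
  ((pullA h).comp (EvR U').val).codRestrict _ fun x => Evn.pul x.2 _ _ _

theorem pullE_val (h : Ok f U univ U' univ) (x : EvR U') :
    (pullE h x : H U univ) = pull f U univ x.1 := rfl

/-- a homogeneous class of even degree as an even class -/
def evr {p : ℤ} (x : H U univ) (h : IsDeg (2 * p) x) : EvR U := ⟨x, IsDeg.evn h ⟨p, two_mul p⟩⟩

/-- classes that are represented by an integer valued cocycle -/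
def IsZ (c : H U Z) : Prop := ∃ φ ∈ Zc U Z, c = cls U Z φ ∧ ∀ l, ∃ m : ℤ, φ l = m

/-! ### complex vector bundles -/

variable {J : Type} [Fintype J]

/-- `P` is a complex vector bundle of rank `r` over `U` -/
structure CB (P : X → Matrix J J ℂ) (r : ℕ) (U : Set X) : Prop where
  lc : IsLocallyClosed U
  cont : ContinuousOn P U
  idem : ∀ x ∈ U, P x * P x = P x
  rank : ∀ x ∈ U, (P x).rank = r

/-- the total space -/
def tot (P : X → Matrix J J ℂ) (U : Set X) : Set (X × (J → ℂ)) :=
  {z | z.1 ∈ U ∧ P z.1 *ᵥ z.2 = z.2}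

/-- the zero section -/
def zs (X B : Type) [Zero B] : Set (X × B) := {z | z.2 = 0}

/-- Thom classes -/
def IsThom (P : X → Matrix J J ℂ) (r : ℕ) (U : Set X) (τ : H (tot P U) (zs X (J → ℂ))) : Prop :=
  IsDeg (2 * r) τ ∧ ∀ x ∈ U, ∀ T : (Fin r → ℂ) →ₗ[ℂ] (J → ℂ), Function.Injective T →
    (∀ v, P x *ᵥ T v = T v) → pull (fun v => (x, T v)) univ {0} τ = orient (Fin r)

/-- the Thom class -/
def th (P : X → Matrix J J ℂ) (r : ℕ) (U : Set X) : H (tot P U) (zs X (J → ℂ)) :=
  Classical.epsilon (IsThom P r U)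

/-- the Euler class with support in the zero set of the section `s` -/
def ec (P : X → Matrix J J ℂ) (r : ℕ) (s : X → J → ℂ) (U Z : Set X) : H U Z :=
  pull (fun x => (x, s x)) U Z (th P r U)

/-- the Euler class -/
def eu (P : X → Matrix J J ℂ) (r : ℕ) (U : Set X) : H U univ := ec P r 0 U univ

/-- `s` is a continuous section over `U` with zeros in `Z` -/
structure Sec (P : X → Matrix J J ℂ) (s : X → J → ℂ) (U Z : Set X) : Prop where
  cont : ContinuousOn s U
  mem : ∀ x ∈ U, P x *ᵥ s x = s x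
  zero : ∀ x ∈ U, s x = 0 → x ∈ Z

/-- complex projective space -/
def CP (J : Type) [Fintype J] : Set (Matrix J J ℂ) := {P | P * P = P ∧ Pᴴ = P ∧ P.rank = 1}

/-- the projector onto the line of `v` -/
def lin (v : J → ℂ) : Matrix J J ℂ := (star v ⬝ᵥ v)⁻¹ • vecMulVec v (star v)

/-- the antilinear structure map of `ℂ ^ (J × 2)` -/
def jq (v : J × Fin 2 → ℂ) : J × Fin 2 → ℂ := fun i =>
  if i.2 = 0 then -star (v (i.1, 1)) else star (v (i.1, 0))

/-- quaternionic line bundles -/
structure QL (P : X → Matrix (J × Fin 2) (J × Fin 2) ℂ) (U : Set X) : Prop extends CB P 2 U where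
  jq : ∀ x ∈ U, ∀ v, P x *ᵥ v = v → P x *ᵥ jq v = jq v

/-! ### real vector bundles -/

variable {A : Type} [NormedAddCommGroup A] [NormedSpace ℝ A] [FiniteDimensional ℝ A]

/-- `V` is a real vector bundle of rank `r` over `U` -/
structure RB (V : X → A →L[ℝ] A) (r : ℕ) (U : Set X) : Prop where
  lc : IsLocallyClosed U
  cont : ContinuousOn V U
  idem : ∀ x ∈ U, ∀ a, V x (V x a) = V x a
  rank : ∀ x ∈ U, Module.finrank ℝ (LinearMap.range (V x : A →ₗ[ℝ] A)) = r

/-- the total space -/
def totR (V : X → A →L[ℝ] A) (U : Set X) : Set (X × A) := {z | z.1 ∈ U ∧ V z.1 z.2 = z.2}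

/-- the complexification -/
def cx (V : X → A →L[ℝ] A) (x : X) :
    Matrix (Fin (Module.finrank ℝ A)) (Fin (Module.finrank ℝ A)) ℂ :=
  (LinearMap.toMatrix (Module.finBasis ℝ A) (Module.finBasis ℝ A) (V x : A →ₗ[ℝ] A)).map
    ((↑) : ℝ → ℂ)

/-- an orientation: a continuous family of alternating forms, nonzero on the fibres -/
structure Ori (V : X → A →L[ℝ] A) (r : ℕ) (U : Set X) (o : X → A [⋀^Fin r]→L[ℝ] ℝ) : Prop where
  cont : ContinuousOn o U
  ne : ∀ x ∈ U, ∀ b : Fin r → A, LinearIndependent ℝ b → (∀ i, V x (b i) = b i) → o x b ≠ 0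

end Pool.Agent.Work.MP_8c604c_gt.T
end
end

-- merged part: Pool.Agent.Work.MP_8c604c_gt.T.VBa
section
/-!
Complex vector bundles: linear algebra, frames, bundle maps.
-/

noncomputable section

set_option linter.unusedSectionVars false
set_option linter.unusedVariables false

namespace Pool.Agent.Work.MP_8c604c_gt.T

open Set Topology Matrix Pool.Agent.Work.MP_849ab0_ag.G

instance {J J' : Type} : RegularSpace (Matrix J J' ℂ) := inferInstanceAs (RegularSpace (J → J' → ℂ))

instance {J J' : Type} [Countable J] [Countable J'] : SecondCountableTopology (Matrix J J' ℂ) :=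
  inferInstanceAs (SecondCountableTopology (J → J' → ℂ))

variable {X Y : Type} [TopologicalSpace X] [TopologicalSpace Y]
variable {J J' K : Type} [Fintype J] [Fintype J'] [Fintype K]
variable {U Z Z₁ Z₂ V : Set X} {U' Z' : Set Y} {f : X → Y} {r r' : ℕ}
variable {P R : X → Matrix J J ℂ} {Q : X → Matrix J' J' ℂ} {P' : Y → Matrix J' J' ℂ}
variable {s t : X → J → ℂ} {s' : Y → J' → ℂ}

/-- `(f, A)` is a map of bundles, injective on the fibres -/
structure BM (P : X → Matrix J J ℂ) (U : Set X) (P' : Y → Matrix J' J' ℂ) (U' : Set Y) (f : X → Y)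
    (A : X → Matrix J' J ℂ) : Prop where
  cf : ContinuousOn f U
  maps : MapsTo f U U'
  cA : ContinuousOn A U
  mem : ∀ x ∈ U, ∀ v, P x *ᵥ v = v → P' (f x) *ᵥ (A x *ᵥ v) = A x *ᵥ v
  inj : ∀ x ∈ U, ∀ v, P x *ᵥ v = v → A x *ᵥ v = 0 → v = 0

/-- the map of total spaces -/
def bm (f : X → Y) (A : X → Matrix J' J ℂ) (z : X × (J → ℂ)) : Y × (J' → ℂ) :=
  (f z.1, A z.1 *ᵥ z.2)

theorem CB.mono (h : CB P r U) (hV : IsLocallyClosed V) (k : V ⊆ U) : CB P r V :=
  ⟨hV, h.cont.mono k, fun x hx => h.idem x (k hx), fun x hx => h.rank x (k hx)⟩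

theorem CB.comp (h : CB P' r U') (hU : IsLocallyClosed U) (hf : ContinuousOn f U)
    (hm : MapsTo f U U') : CB (fun x => P' (f x)) r U :=
  ⟨hU, h.cont.comp hf hm, fun _ hx => h.idem _ (hm hx), fun _ hx => h.rank _ (hm hx)⟩

theorem CB.congr (h : CB P r U) (e : EqOn R P U) : CB R r U :=
  ⟨h.lc, h.cont.congr e, fun x hx => by rw [e hx]; exact h.idem x hx,
    fun x hx => by rw [e hx]; exact h.rank x hx⟩

theorem cb_one [DecidableEq J] (hU : IsLocallyClosed U) :
    CB (fun _ : X => (1 : Matrix J J ℂ)) (Fintype.card J) U :=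
  ⟨hU, continuousOn_const, fun _ _ => mul_one _, fun _ _ => rank_one⟩

theorem Sec.mono (h : Sec P s U Z) (k : V ⊆ U) (hZ : ∀ x ∈ V, x ∈ Z → x ∈ Z₁) : Sec P s V Z₁ :=
  ⟨h.cont.mono k, fun x hx => h.mem x (k hx), fun x hx e => hZ x hx (h.zero x (k hx) e)⟩

theorem sec_zero (P : X → Matrix J J ℂ) (U : Set X) : Sec P 0 U univ :=
  ⟨continuousOn_const, fun _ _ => mulVec_zero _, fun _ _ _ => trivial⟩

theorem isClosed_zs {B : Type} [Zero B] [TopologicalSpace B] [T1Space B] : IsClosed (zs X B) :=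
  isClosed_singleton.preimage continuous_snd

theorem con_mul {L : Type} {A : X → Matrix L J ℂ} {B : X → Matrix J K ℂ} (hA : ContinuousOn A U)
    (hB : ContinuousOn B U) : ContinuousOn (fun x => A x * B x) U :=
  (continuous_fst.matrix_mul continuous_snd).comp_continuousOn (hA.prodMk hB)

theorem con_mulVec {L : Type} {A : X → Matrix L J ℂ} {v : X → J → ℂ} (hA : ContinuousOn A U)
    (hv : ContinuousOn v U) : ContinuousOn (fun x => A x *ᵥ v x) U :=
  (continuous_fst.matrix_mulVec continuous_snd).comp_continuousOn (hA.prodMk hv)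

theorem con_inv [DecidableEq J] {A : X → Matrix J J ℂ} (hA : ContinuousOn A U)
    (h : ∀ x ∈ U, (A x).det ≠ 0) : ContinuousOn (fun x => (A x)⁻¹) U := by
  simp only [Matrix.inv_def, Ring.inverse_eq_inv']
  exact ((continuous_id.matrix_det.comp_continuousOn hA).inv₀ h).smul
    (continuous_id.matrix_adjugate.comp_continuousOn hA)

theorem lc_of_eq {B : Type} [TopologicalSpace B] [T2Space B] (hU : IsLocallyClosed U) {a b : X → B}
    (ha : ContinuousOn a U) (hb : ContinuousOn b U) : IsLocallyClosed {x | x ∈ U ∧ a x = b x} := by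
  have h1 : IsClosed {x : U | a x = b x} := isClosed_eq ha.domRestrict hb.domRestrict
  obtain ⟨C, hC, e⟩ := isClosed_induced_iff.1 h1
  convert hU.inter hC.isLocallyClosed using 1
  ext x
  exact and_congr_right fun hx => (Set.ext_iff.1 e ⟨x, hx⟩).symm

theorem idem_trace {M : Matrix J J ℂ} (h : M * M = M) : M.trace = M.rank := by
  classical
  have h1 : IsIdempotentElem (toLin' M) := by
    rw [IsIdempotentElem, Module.End.mul_eq_comp, ← toLin'_mul, h]
  rw [← trace_toLin'_eq, ((LinearMap.isProj_range_iff_isIdempotentElem _).2 h1).trace]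
  rfl

theorem idem_rank {M : Matrix J J ℂ} (h : M * M = M) (e : M.trace = r) : M.rank = r := by
  rw [idem_trace h] at e
  exact_mod_cast e

theorem idem_eq_zero {M : Matrix J J ℂ} (h : M * M = M) (e : M.trace = 0) : M = 0 := by
  classical
  have h1 : M.rank = 0 := idem_rank h (by simpa using e)
  rw [Matrix.rank, Submodule.finrank_eq_zero, LinearMap.range_eq_bot] at h1
  exact toLin'.injective (by rw [map_zero]; exact h1)

theorem CB.trace (h : CB P r U) {x : X} (hx : x ∈ U) : (P x).trace = r := by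
  rw [idem_trace (h.idem x hx), h.rank x hx]

theorem CB.fix (h : CB P r U) {x : X} (hx : x ∈ U) (v : J → ℂ) : P x *ᵥ (P x *ᵥ v) = P x *ᵥ v := by
  rw [mulVec_mulVec, h.idem x hx]

theorem idem_factor {M : Matrix J J ℂ} (h : M * M = M) (e : M.rank = r) :
    ∃ (T : Matrix J (Fin r) ℂ) (S : Matrix (Fin r) J ℂ), S * T = 1 ∧ T * S = M := by
  classical
  let V := LinearMap.range M.mulVecLin
  let b : V ≃ₗ[ℂ] Fin r → ℂ := (Module.finBasisOfFinrankEq ℂ V e).equivFun
  refine ⟨LinearMap.toMatrix' (V.subtype ∘ₗ b.symm.toLinearMap),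
    LinearMap.toMatrix' (b.toLinearMap ∘ₗ M.mulVecLin.rangeRestrict), ?_, ?_⟩
  · rw [← LinearMap.toMatrix'_comp, ← LinearMap.toMatrix'_id]
    congr 1
    refine LinearMap.ext fun v => ?_
    obtain ⟨w, hw⟩ := (b.symm v).2
    change b _ = v
    rw [← b.eq_symm_apply]
    refine Subtype.ext ?_
    change M *ᵥ (b.symm v).1 = _
    rw [← hw, mulVecLin_apply, mulVec_mulVec, h]
  · rw [← LinearMap.toMatrix'_comp]
    refine Eq.trans ?_ (LinearMap.toMatrix'_toLin' M)
    congr 1
    refine LinearMap.ext fun v => ?_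
    simp

theorem CB.lc_tot (h : CB P r U) : IsLocallyClosed (tot P U) :=
  lc_of_eq (U := Prod.fst ⁻¹' U) (h.lc.preimage continuous_fst)
    (con_mulVec (h.cont.comp continuousOn_fst fun _ k => k) continuousOn_snd) continuousOn_snd

/-- local frames -/
theorem CB.exists_frame (h : CB P r U) {x : X} (hx : x ∈ U) :
    ∃ (W : Set X) (T : X → Matrix J (Fin r) ℂ) (S : X → Matrix (Fin r) J ℂ), IsOpen W ∧ x ∈ W ∧
      ContinuousOn T (U ∩ W) ∧ ContinuousOn S (U ∩ W) ∧
      ∀ y ∈ U ∩ W, S y * T y = 1 ∧ T y * S y = P y := by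
  obtain ⟨T, S, h1, h2⟩ := idem_factor (h.idem x hx) (h.rank x hx)
  have hM : ContinuousOn (fun y => S * (P y * T)) U :=
    con_mul continuousOn_const (con_mul h.cont continuousOn_const)
  obtain ⟨W, hW, e⟩ := continuousOn_iff'.1 (continuous_id.matrix_det.comp_continuousOn hM) {0}ᶜ
    isOpen_compl_singleton
  have key : ∀ y ∈ U, y ∈ W ↔ (S * (P y * T)).det ≠ 0 := fun y hy =>
    ⟨fun k => (e.symm.subset ⟨k, hy⟩).1, fun k => (e.subset ⟨k, hy⟩).1⟩
  refine ⟨W, fun y => P y * T, fun y => (S * (P y * T))⁻¹ * (S * P y), hW, (key x hx).2 ?_,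
    con_mul (h.cont.mono inter_subset_left) continuousOn_const,
    con_mul (con_inv (hM.mono inter_subset_left) fun y hy => (key y hy.1).1 hy.2)
      (con_mul continuousOn_const (h.cont.mono inter_subset_left)), fun y hy => ?_⟩
  · rw [← h2, Matrix.mul_assoc, h1, Matrix.mul_one, h1, det_one]
    exact one_ne_zero
  have u := (key y hy.1).1 hy.2
  have i := h.idem y hy.1
  have a : (S * (P y * T))⁻¹ * (S * P y) * (P y * T) = 1 := by
    rw [Matrix.mul_assoc, Matrix.mul_assoc, ← Matrix.mul_assoc (P y), i,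
      nonsing_inv_mul _ (Ne.isUnit u)]
  refine ⟨a, ?_⟩
  have c1 : P y * (P y * T) = P y * T := by rw [← Matrix.mul_assoc, i]
  have c2 : (S * (P y * T))⁻¹ * (S * P y) * P y = (S * (P y * T))⁻¹ * (S * P y) := by
    rw [Matrix.mul_assoc, Matrix.mul_assoc, i]
  change P y * T * ((S * (P y * T))⁻¹ * (S * P y)) = P y
  generalize (S * (P y * T))⁻¹ * (S * P y) = S' at a c2 ⊢
  generalize P y * T = T' at a c1 ⊢
  have b1 : P y * (T' * S') = T' * S' := by rw [← Matrix.mul_assoc, c1]
  have b2 : T' * S' * P y = T' * S' := by rw [Matrix.mul_assoc, c2]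
  have b3 : T' * S' * (T' * S') = T' * S' := by
    rw [Matrix.mul_assoc, ← Matrix.mul_assoc S', a, Matrix.one_mul]
  refine (sub_eq_zero.1 (idem_eq_zero ?_ ?_)).symm
  · rw [sub_mul, mul_sub, mul_sub, i, b1, b2, b3, sub_self, sub_zero]
  · rw [trace_sub, h.trace hy.1, trace_mul_comm, a, trace_one, Fintype.card_fin, sub_self]

theorem CB.finrank (h : CB P r U) {x : X} (hx : x ∈ U) :
    Module.finrank ℂ (LinearMap.range (P x).mulVecLin) = r := h.rank x hx

/-- a bundle map of equal rank is onto on the fibres -/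
theorem BM.surj (h : CB P r U) (h' : CB P' r U') {A : X → Matrix J' J ℂ} (b : BM P U P' U' f A)
    {x : X} (hx : x ∈ U) {w : J' → ℂ} (hw : P' (f x) *ᵥ w = w) :
    ∃ v, P x *ᵥ v = v ∧ A x *ᵥ v = w := by
  let V := LinearMap.range (P x).mulVecLin
  let V' := LinearMap.range (P' (f x)).mulVecLin
  have hV : ∀ v ∈ V, P x *ᵥ v = v := by
    rintro _ ⟨v, rfl⟩
    exact h.fix hx v
  let L : V →ₗ[ℂ] V' := (A x).mulVecLin.restrict fun v hv => ⟨_, b.mem x hx v (hV v hv)⟩
  have hL : Function.Injective L := (injective_iff_map_eq_zero _).2 fun v e =>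
    Subtype.ext (b.inj x hx v (hV v v.2) (congrArg Subtype.val e))
  obtain ⟨v, hv⟩ := (LinearMap.injective_iff_surjective_of_finrank_eq_finrank
    ((h.finrank hx).trans (h'.finrank (b.maps hx)).symm)).1 hL ⟨w, w, hw⟩
  exact ⟨v, hV v v.2, congrArg Subtype.val hv⟩

/-- a bundle map from a map of total spaces -/
theorem exists_BM (h : CB P r U) (hf : ContinuousOn f U) (hm : MapsTo f U U')
    {Φ : X → (J → ℂ) → J' → ℂ} (hΦ : ContinuousOn (fun z : X × (J → ℂ) => Φ z.1 z.2) (tot P U))
    (add : ∀ x ∈ U, ∀ v w, P x *ᵥ v = v → P x *ᵥ w = w → Φ x (v + w) = Φ x v + Φ x w)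
    (smul : ∀ x ∈ U, ∀ (c : ℂ) v, P x *ᵥ v = v → Φ x (c • v) = c • Φ x v)
    (mem : ∀ x ∈ U, ∀ v, P x *ᵥ v = v → P' (f x) *ᵥ Φ x v = Φ x v)
    (inj : ∀ x ∈ U, ∀ v, P x *ᵥ v = v → Φ x v = 0 → v = 0) :
    ∃ A, BM P U P' U' f A ∧ ∀ x ∈ U, ∀ v, P x *ᵥ v = v → A x *ᵥ v = Φ x v := by
  classical
  let A : X → Matrix J' J ℂ := fun x => Matrix.of fun i j => Φ x (P x *ᵥ Pi.single j 1) i
  have key : ∀ x ∈ U, ∀ v, P x *ᵥ v = v → A x *ᵥ v = Φ x v := fun x hx v hv => by
    let L : (J → ℂ) →ₗ[ℂ] J' → ℂ :=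
      { toFun := fun v => Φ x (P x *ᵥ v)
        map_add' := fun v w => by rw [mulVec_add, add x hx _ _ (h.fix hx v) (h.fix hx w)]
        map_smul' := fun c v => by rw [mulVec_smul, smul x hx _ _ (h.fix hx v)]; rfl }
    have : A x = LinearMap.toMatrix' L := by
      ext i j
      simp [A, L, LinearMap.toMatrix'_apply]
    rw [this, LinearMap.toMatrix'_mulVec]
    exact congrArg (Φ x) hv
  refine ⟨A, ⟨hf, hm, ?_, fun x hx v hv => ?_, fun x hx v hv e => ?_⟩, key⟩
  · refine continuousOn_pi.2 fun i => continuousOn_pi.2 fun j => ?_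
    exact continuousOn_pi.1 (hΦ.comp (f := fun x => (x, P x *ᵥ Pi.single j 1))
      (continuousOn_id.prodMk (con_mulVec h.cont continuousOn_const)) fun x hx => ⟨hx, h.fix hx _⟩) i
  · rw [key x hx v hv, mem x hx v hv]
  · exact inj x hx v hv (key x hx v hv ▸ e)

open scoped ComplexOrder in
/-- every bundle has the fibres of a bundle of orthogonal projectors -/
theorem CB.exists_herm (h : CB P r U) : ∃ R : X → Matrix J J ℂ, CB R r U ∧
    ∀ x ∈ U, (R x)ᴴ = R x ∧ R x * P x = P x ∧ P x * R x = R x := by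
  classical
  have key : ∀ M : Matrix J J ℂ, M * M = M → (M + Mᴴ - 1).det ≠ 0 ∧
      M * (M + Mᴴ - 1)⁻¹ = (M + Mᴴ - 1)⁻¹ * Mᴴ := fun M i => by
    have i' : Mᴴ * Mᴴ = Mᴴ := by rw [← conjTranspose_mul, i]
    have d : (M + Mᴴ - 1).det ≠ 0 := by
      rw [Ne, ← exists_mulVec_eq_zero_iff]
      rintro ⟨v, hv, e⟩
      have z : ∀ N : Matrix J J ℂ, N * N = N → (N + Nᴴ - 1) *ᵥ v = 0 → Nᴴ *ᵥ v = 0 := fun N j e => by
        have := congrArg (fun w => N *ᵥ w) e
        simp only [mulVec_mulVec, mul_sub, mul_add, j, mul_one, mulVec_zero, add_sub_cancel_left]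
          at this
        exact (self_mul_conjTranspose_mulVec_eq_zero N v).1 this
      have z1 := z M i e
      have z2 := z Mᴴ i' (by rwa [conjTranspose_conjTranspose, add_comm])
      rw [conjTranspose_conjTranspose] at z2
      rw [sub_mulVec, add_mulVec, z1, z2, one_mulVec, add_zero, zero_sub, neg_eq_zero] at e
      exact hv e
    refine ⟨d, ?_⟩
    have e : (M + Mᴴ - 1) * M = Mᴴ * (M + Mᴴ - 1) := by
      simp only [mul_sub, sub_mul, mul_add, add_mul, i, i', mul_one, one_mul]
      abel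
    calc M * (M + Mᴴ - 1)⁻¹ = (M + Mᴴ - 1)⁻¹ * ((M + Mᴴ - 1) * M) * (M + Mᴴ - 1)⁻¹ := by
          rw [← mul_assoc, nonsing_inv_mul _ (Ne.isUnit d), one_mul]
      _ = _ := by rw [e, mul_assoc, mul_assoc, mul_nonsing_inv _ (Ne.isUnit d), mul_one]
  have k2 : ∀ M : Matrix J J ℂ, M * M = M → (M * (M + Mᴴ - 1)⁻¹)ᴴ = M * (M + Mᴴ - 1)⁻¹ ∧
      M * (M + Mᴴ - 1)⁻¹ * M = M ∧ M * (M * (M + Mᴴ - 1)⁻¹) = M * (M + Mᴴ - 1)⁻¹ := fun M i => by
    obtain ⟨d, e⟩ := key M i
    refine ⟨?_, ?_, by rw [← mul_assoc, i]⟩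
    · rw [conjTranspose_mul, conjTranspose_nonsing_inv, e]
      simp [add_comm]
    · have : Mᴴ * M = (M + Mᴴ - 1) * M := by
        simp only [sub_mul, add_mul, i, one_mul]
        abel
      rw [e, mul_assoc, this, ← mul_assoc, nonsing_inv_mul _ (Ne.isUnit d), one_mul]
  refine ⟨fun x => P x * (P x + (P x)ᴴ - 1)⁻¹, ⟨h.lc, con_mul h.cont (con_inv ((h.cont.add
    (continuous_id.matrix_conjTranspose.comp_continuousOn h.cont)).sub continuousOn_const)
    fun x hx => (key _ (h.idem x hx)).1), fun x hx => ?_, fun x hx => ?_⟩,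
    fun x hx => k2 _ (h.idem x hx)⟩
  · rw [← mul_assoc, (k2 _ (h.idem x hx)).2.1]
  · obtain ⟨-, a, b⟩ := k2 _ (h.idem x hx)
    refine idem_rank (by rw [← mul_assoc, a]) ?_
    rw [← b, trace_mul_comm, a, h.trace hx]

theorem CB.sub (hR : CB R (r + r') U) (hP : CB P r U) (e : ∀ x ∈ U, R x * P x = P x) :
    CB (fun x => R x - P x * R x) r' U := by
  have i : ∀ x ∈ U, (R x - P x * R x) * (R x - P x * R x) = R x - P x * R x := fun x hx => by
    rw [sub_mul, mul_sub, mul_sub, hR.idem x hx, ← mul_assoc, e x hx, mul_assoc, hR.idem x hx,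
      mul_assoc, ← mul_assoc (R x), e x hx, ← mul_assoc, hP.idem x hx, sub_self, sub_zero]
  refine ⟨hR.lc, hR.cont.sub (con_mul hP.cont hR.cont), i, fun x hx => idem_rank (i x hx) ?_⟩
  rw [trace_sub, trace_mul_comm, e x hx, hR.trace hx, hP.trace hx]
  simp

theorem CB.add (hP : CB P r U) (hR : CB R r' U) (e : ∀ x ∈ U, P x * R x = 0)
    (e' : ∀ x ∈ U, R x * P x = 0) : CB (fun x => P x + R x) (r + r') U := by
  have i : ∀ x ∈ U, (P x + R x) * (P x + R x) = P x + R x := fun x hx => by
    simp [mul_add, add_mul, hR.idem x hx, hP.idem x hx, e x hx, e' x hx]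
  refine ⟨hR.lc, hP.cont.add hR.cont, i, fun x hx => idem_rank (i x hx) ?_⟩
  rw [trace_add, hR.trace hx, hP.trace hx]
  simp

theorem CB.sum (hP : CB P r U) (hQ : CB Q r' U) :
    CB (fun x => fromBlocks (P x) 0 0 (Q x)) (r + r') U := by
  have i : ∀ x ∈ U, fromBlocks (P x) 0 0 (Q x) * fromBlocks (P x) 0 0 (Q x) =
      fromBlocks (P x) 0 0 (Q x) := fun x hx => by
    simp [fromBlocks_multiply, hQ.idem x hx, hP.idem x hx]
  refine ⟨hP.lc, (continuous_fst.matrix_fromBlocks continuous_const continuous_const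
    continuous_snd).comp_continuousOn (hP.cont.prodMk hQ.cont), i,
    fun x hx => idem_rank (i x hx) ?_⟩
  rw [Nat.cast_add, ← hQ.trace hx, ← hP.trace hx]
  exact Fintype.sum_sum_type _

theorem CB.kron (hP : CB P r U) (hQ : CB Q r' U) :
    CB (fun x => kroneckerMap (· * ·) (P x) (Q x)) (r * r') U := by
  have i : ∀ x ∈ U, kroneckerMap (· * ·) (P x) (Q x) * kroneckerMap (· * ·) (P x) (Q x) =
      kroneckerMap (· * ·) (P x) (Q x) := fun x hx => by
    rw [← mul_kronecker_mul, hQ.idem x hx, hP.idem x hx]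
  refine ⟨hP.lc, continuousOn_pi.2 fun a => continuousOn_pi.2 fun b =>
    (continuousOn_pi.1 (continuousOn_pi.1 hP.cont a.1) b.1).mul
      (continuousOn_pi.1 (continuousOn_pi.1 hQ.cont a.2) b.2), i,
    fun x hx => idem_rank (i x hx) ?_⟩
  rw [trace_kronecker, hQ.trace hx, hP.trace hx, Nat.cast_mul]

theorem CB.conj (hP : CB P r U) : CB (fun x => (P x).map star) r U := by
  have i : ∀ x ∈ U, (P x).map star * (P x).map star = (P x).map star := fun x hx => by
    have := Matrix.map_mul (L := P x) (M := P x) (f := starRingEnd ℂ)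
    rw [hP.idem x hx] at this
    exact this.symm
  refine ⟨hP.lc, (continuous_id.matrix_map continuous_star).comp_continuousOn hP.cont, i,
    fun x hx => idem_rank (i x hx) ?_⟩
  have : ((P x).map star).trace = star (P x).trace := by
    rw [← trace_conjTranspose, ← trace_transpose]; rfl
  rw [this, hP.trace hx, star_natCast]

end Pool.Agent.Work.MP_8c604c_gt.T
end
end

-- merged part: Pool.Agent.Work.MP_8c604c_gt.T.Sign
section
/-!
Sign cocycles are trivial on quotients of simply connected spaces with connected fibres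
(owner helper45).
-/

noncomputable section

namespace Pool.Agent.Work.MP_8c604c_gt.T

open Set Topology

/-- every sign cocycle on `B` is a coboundary -/
def SgnTriv {X : Type} [TopologicalSpace X] (B : Set X) : Prop :=
  ∀ (ι : Type) (U : ι → Set X) (d : ι → ι → X → ℝ), (∀ i, IsOpen (U i)) →
    (∀ x ∈ B, ∃ i, x ∈ U i) → (∀ i j, ContinuousOn (d i j) (B ∩ U i ∩ U j)) →
    (∀ i j k, ∀ x ∈ B, x ∈ U i → x ∈ U j → x ∈ U k → 0 < d i j x * d j k x * d i k x) →
    ∃ σ : ι → X → ℝ, (∀ i, ContinuousOn (σ i) (B ∩ U i)) ∧ (∀ i x, σ i x = 1 ∨ σ i x = -1) ∧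
      ∀ i j, ∀ x ∈ B, x ∈ U i → x ∈ U j → 0 < σ i x * σ j x * d i j x

theorem sgn_aux1 {a b c : ℝ} (h : 0 < a * b * c) :
    SignType.sign b * SignType.sign a = SignType.sign c := by
  have := sign_pos h
  rw [sign_mul, sign_mul] at this
  revert this
  generalize SignType.sign a = x
  generalize SignType.sign b = y
  generalize SignType.sign c = z
  revert x y z
  decide

theorem sgn_contOn {X : Type} [TopologicalSpace X] {A : Set X} {f : X → ℝ}
    (hf : ContinuousOn f A) (h0 : ∀ x ∈ A, f x ≠ 0) :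
    ContinuousOn (fun x => SignType.sign (f x)) A := fun x hx =>
  ContinuousAt.comp_continuousWithinAt (continuousAt_sign_of_ne_zero (h0 x hx)) (hf x hx)

theorem sgnTriv_univ {Y : Type} [TopologicalSpace Y] [SimplyConnectedSpace Y]
    [LocallyPathConnectedSpace Y] : SgnTriv (univ : Set Y) := by
  intro ι U d hU cov hc hm
  have ne : ∀ i j x, x ∈ U i → x ∈ U j → d i j x ≠ 0 := fun i j x hi hj e => by
    have := hm i j j x trivial hi hj hj
    rw [e] at this
    simp at this
  have pos : ∀ i x, x ∈ U i → 0 < d i i x := fun i x hi => by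
    have := hm i i i x trivial hi hi hi
    by_contra h
    nlinarith [mul_self_nonneg (d i i x), not_lt.1 h]
  choose ix hix using fun x => cov x trivial
  let Z : FiberBundleCore ι Y SignType :=
    { baseSet := U
      isOpen_baseSet := hU
      indexAt := ix
      mem_baseSet_at := hix
      coordChange := fun i j x v => SignType.sign (d i j x) * v
      coordChange_self := fun i x hx v => by rw [sign_pos (pos i x hx), one_mul]
      continuousOn_coordChange := fun i j =>
        (continuous_of_discreteTopology (f := fun z : SignType × SignType => z.1 * z.2)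
          ).comp_continuousOn (((sgn_contOn (hc i j) fun x hx => ne i j x hx.1.2 hx.2).comp
            continuousOn_fst fun z hz => ⟨⟨trivial, hz.1.1⟩, hz.1.2⟩).prodMk continuousOn_snd)
      coordChange_comp := fun i j k x hx v => by
        rw [← mul_assoc, sgn_aux1 (hm i j k x trivial hx.1.1 hx.1.2 hx.2)] }
  have cv : IsCoveringMap Z.proj :=
    IsFiberBundle.isCoveringMap fun x => ⟨Z.localTriv (ix x), hix x⟩
  obtain ⟨y₀⟩ : Nonempty Y := inferInstance
  obtain ⟨s, ⟨s0, hs⟩, -⟩ := cv.existsUnique_continuousMap_lifts (ContinuousMap.id Y) y₀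
    ⟨y₀, (1 : SignType)⟩ rfl
  have sp : ∀ y, (s y).proj = y := fun y => congrFun hs y
  let τ : ι → Y → SignType := fun i y => (Z.localTriv i (s y)).2
  have cτ : ∀ i, ContinuousOn (τ i) (U i) := fun i =>
    continuous_snd.comp_continuousOn ((Z.localTriv i).continuousOn.comp s.continuous.continuousOn
      fun y hy => (Z.mem_localTriv_source i _).2 (by rw [sp]; exact hy))
  let w : Y → SignType := fun y => (s y).2
  have eτ : ∀ i y, τ i y = SignType.sign (d (ix y) i y) * w y := fun i y => by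
    show SignType.sign (d (ix (s y).proj) i (s y).proj) * w y = _
    rw [sp]
  have z : ∀ i y, y ∈ U i → (τ i y = 0 ↔ w y = 0) := fun i y hy => by
    rw [eτ, mul_eq_zero, sign_eq_zero_iff, or_iff_right (ne _ _ _ (hix y) hy)]
  have loc : ∀ (p : SignType → Prop), (∀ i y, y ∈ U i → (p (τ i y) ↔ p (w y))) →
      IsOpen {y | p (w y)} := fun p hp => isOpen_iff_mem_nhds.2 fun y hy => by
    have h1 := (cτ (ix y)).continuousAt ((hU _).mem_nhds (hix y))
    have h2 : ∀ᶠ y' in 𝓝 y, τ (ix y) y' = τ (ix y) y := 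
      h1.eventually (p := (· = τ (ix y) y)) (by rw [nhds_discrete]; simp)
    filter_upwards [h2, (hU _).mem_nhds (hix y)] with y' e hy'
    show p (w y')
    rw [← hp _ _ hy', e, hp _ _ (hix y)]
    exact hy
  have wne : ∀ y, w y ≠ 0 := by
    have cl : IsClopen {y | w y ≠ 0} :=
      ⟨⟨by simpa [compl_ofPred] using loc (· = 0) z⟩,
        loc (· ≠ 0) fun i y hy => not_congr (z i y hy)⟩
    have := cl.eq_univ ⟨y₀, by
      show (fun p : Z.TotalSpace => (show SignType from p.2)) (s y₀) ≠ 0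
      rw [s0]; exact (one_ne_zero : (1 : SignType) ≠ 0)⟩
    exact fun y => (this ▸ mem_univ y : y ∈ {y | w y ≠ 0})
  refine ⟨fun i y => if τ i y = 1 then 1 else -1, fun i => ?_, fun i y => ?_,
    fun i j y _ hi hj => ?_⟩
  · exact (continuous_of_discreteTopology
      (f := fun t : SignType => if t = 1 then (1 : ℝ) else -1)).comp_continuousOn
        ((cτ i).mono inter_subset_right)
  · by_cases h : τ i y = 1 <;> simp [h]
  · have e := sgn_aux1 (hm (ix y) i j y trivial (hix y) hi hj)
    have e2 : τ j y = SignType.sign (d i j y) * τ i y := by rw [eτ, eτ, ← mul_assoc, e]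
    have n : τ i y ≠ 0 := fun h => wne y ((z i y hi).1 h)
    rcases lt_or_gt_of_ne (ne i j y hi hj) with h | h
    · rw [sign_neg h] at e2
      rcases SignType.trichotomy (τ i y) with k | k | k
      · simp [e2, k, h]
      · exact absurd k n
      · simp [e2, k, h]
    · rw [sign_pos h, one_mul] at e2
      by_cases k : τ i y = 1 <;> simp [e2, k, h]

/-- descent along a quotient map with connected fibres -/
theorem SgnTriv.desc {Y X : Type} [TopologicalSpace Y] [TopologicalSpace X]
    (h : SgnTriv (univ : Set Y)) {q : Y → X} (hq : IsQuotientMap q)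
    (hf : ∀ x, IsPreconnected (q ⁻¹' {x})) : SgnTriv (univ : Set X) := by
  intro ι U d hU cov hc hm
  obtain ⟨σ, h1, h2, h3⟩ := h ι (fun i => q ⁻¹' U i) (fun i j y => d i j (q y))
    (fun i => (hU i).preimage hq.continuous) (fun y _ => cov _ trivial)
    (fun i j => (hc i j).comp hq.continuous.continuousOn
      fun x hx => ⟨⟨trivial, hx.1.2⟩, hx.2⟩) fun i j k x _ => hm i j k _ trivial
  choose s hs using hq.surjective
  have key : ∀ i y, q y ∈ U i → σ i (s (q y)) = σ i y := fun i y hy => by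
    have c : ContinuousOn (σ i) (q ⁻¹' {q y}) := (h1 i).mono fun z hz =>
      ⟨trivial, by rw [mem_preimage, show q z = q y from hz]; exact hy⟩
    have n : ∀ z ∈ q ⁻¹' {q y}, σ i z ≠ 0 := fun z _ => by
      rcases h2 i z with e | e <;> simp [e]
    have := (hf (q y)).constant (sgn_contOn c n) (x := s (q y)) (y := y) (hs _) rfl
    rcases h2 i (s (q y)) with e | e <;> rcases h2 i y with e' | e' <;>
      simp only [e, e'] at this ⊢ <;> simp at this
  refine ⟨fun i x => σ i (s x), fun i => ?_, fun i x => h2 i _, fun i j x _ hi hj => ?_⟩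
  · rw [univ_inter, hq.continuousOn_isOpen_iff (hU i)]
    exact ((h1 i).mono fun z hz => ⟨trivial, hz⟩).congr fun y hy => key i y hy
  · have := h3 i j (s x) trivial (by rw [mem_preimage, hs]; exact hi)
      (by rw [mem_preimage, hs]; exact hj)
    rwa [hs] at this

theorem SgnTriv.of_subtype {X : Type} [TopologicalSpace X] {B : Set X}
    (h : SgnTriv (univ : Set B)) : SgnTriv B := by
  intro ι U d hU cov hc hm
  obtain ⟨σ, h1, h2, h3⟩ := h ι (fun i => Subtype.val ⁻¹' U i) (fun i j x => d i j x)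
    (fun i => (hU i).preimage continuous_subtype_val) (fun x _ => cov x x.2)
    (fun i j => (hc i j).comp continuous_subtype_val.continuousOn
      fun x hx => ⟨⟨x.2, hx.1.2⟩, hx.2⟩) fun i j k x _ => hm i j k x x.2
  classical
  refine ⟨fun i x => if h : x ∈ B then σ i ⟨x, h⟩ else 1, fun i => ?_, fun i x => ?_,
    fun i j x hx hi hj => ?_⟩
  · rw [continuousOn_iff_continuous_domRestrict]
    have := (h1 i).comp_continuous (f := fun x : ↥(B ∩ U i) => (⟨x, x.2.1⟩ : B))
      (continuous_subtype_val.subtype_mk _) fun x => ⟨trivial, x.2.2⟩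
    exact this.congr fun x => by simp [x.2.1]
  · by_cases h : x ∈ B <;> simp [h, h2]
  · simpa [hx] using h3 i j ⟨x, hx⟩ trivial hi hj

theorem SgnTriv.to_subtype {X : Type} [TopologicalSpace X] {B : Set X} (h : SgnTriv B) :
    SgnTriv (univ : Set B) := by
  intro ι U d hU cov hc hm
  choose U' hU' eU using fun i => isOpen_induced_iff.1 (hU i)
  have mem : ∀ i (x : B), x ∈ U i ↔ (x : X) ∈ U' i := fun i x => by rw [← eU i]; rfl
  classical
  obtain ⟨σ, h1, h2, h3⟩ := h ι U' (fun i j x => if h : x ∈ B then d i j ⟨x, h⟩ else 0) hU'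
    (fun x hx => (cov ⟨x, hx⟩ trivial).imp fun i hi => (mem i _).1 hi)
    (fun i j => by
      rw [continuousOn_iff_continuous_domRestrict]
      have := (hc i j).comp_continuous (f := fun x : ↥(B ∩ U' i ∩ U' j) => (⟨x, x.2.1.1⟩ : B))
        (continuous_subtype_val.subtype_mk _)
        fun x => ⟨⟨trivial, (mem i _).2 x.2.1.2⟩, (mem j _).2 x.2.2⟩
      exact this.congr fun x => by simp [x.2.1.1])
    fun i j k x hx hi hj hk => by
      simpa [hx] using hm i j k ⟨x, hx⟩ trivial ((mem i _).2 hi) ((mem j _).2 hj) ((mem k _).2 hk)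
  refine ⟨fun i x => σ i x, fun i => (h1 i).comp continuous_subtype_val.continuousOn
    fun x hx => ⟨x.2, (mem i _).1 hx.2⟩, fun i x => h2 i x, fun i j x _ hi hj => ?_⟩
  simpa [x.2] using h3 i j x x.2 ((mem i _).1 hi) ((mem j _).1 hj)

theorem IsSimplyConnected.sgnTriv {V : Type} [TopologicalSpace V] [LocallyPathConnectedSpace V]
    {Y : Set V} (h : IsSimplyConnected Y) (ho : IsOpen Y) : SgnTriv Y :=
  have := h.simplyConnectedSpace
  have := ho.locallyPathConnectedSpace
  SgnTriv.of_subtype sgnTriv_univ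

theorem sgnTriv_of_quot {V X : Type} [TopologicalSpace V] [LocallyPathConnectedSpace V]
    [TopologicalSpace X] {Y : Set V} (h : IsSimplyConnected Y) (ho : IsOpen Y) {B : Set X}
    {π : V → X} (hm : MapsTo π Y B) (hq : IsQuotientMap (hm.restrict π Y B))
    (hf : ∀ x ∈ B, IsPreconnected (Y ∩ π ⁻¹' {x})) : SgnTriv B := by
  have := h.simplyConnectedSpace
  have := ho.locallyPathConnectedSpace
  refine SgnTriv.of_subtype (sgnTriv_univ.desc hq fun x => ?_)
  rw [← IsInducing.subtypeVal.isPreconnected_image]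
  convert hf x x.2 using 1
  ext y
  simp only [mem_image, mem_preimage, mem_singleton_iff, mem_inter_iff]
  exact ⟨fun ⟨z, e, k⟩ => k ▸ ⟨z.2, congrArg Subtype.val e⟩,
    fun ⟨a, b⟩ => ⟨⟨y, a⟩, Subtype.ext b, rfl⟩⟩

/-- pull-back along a homeomorphism onto, or a map with a continuous section -/
theorem SgnTriv.retract {X X' : Type} [TopologicalSpace X] [TopologicalSpace X'] {B : Set X}
    {B' : Set X'} (h : SgnTriv B) {r : X → X'} (hr : ContinuousOn r B)
    (mr : MapsTo r B B') {s : X' → X} (hs : ContinuousOn s B') (ms : MapsTo s B' B)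
    (e : ∀ y ∈ B', r (s y) = y) : SgnTriv B' := by
  intro ι U d hU cov hc hm
  have cr : Continuous fun x : B => r x := hr.domRestrict
  obtain ⟨σ, h1, h2, h3⟩ := h.to_subtype ι (fun i => (fun x : B => r x) ⁻¹' U i)
    (fun i j y => d i j (r y))
    (fun i => (hU i).preimage cr) (fun y _ => cov _ (mr y.2))
    (fun i j => (hc i j).comp cr.continuousOn fun x hx => ⟨⟨mr x.2, hx.1.2⟩, hx.2⟩)
    fun i j k x _ => hm i j k _ (mr x.2)
  classical
  refine ⟨fun i y => if h : y ∈ B' then σ i ⟨s y, ms h⟩ else 1, fun i => ?_, fun i x => ?_,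
    fun i j x hx hi hj => ?_⟩
  · rw [continuousOn_iff_continuous_domRestrict]
    have := (h1 i).comp_continuous (f := fun x : ↥(B' ∩ U i) => (⟨s x, ms x.2.1⟩ : B))
      (((hs.mono inter_subset_left).domRestrict).subtype_mk _)
      fun x => ⟨trivial, by rw [mem_preimage, e _ x.2.1]; exact x.2.2⟩
    exact this.congr fun x => by simp [x.2.1]
  · by_cases h : x ∈ B' <;> simp [h, h2]
  · have := h3 i j ⟨s x, ms hx⟩ trivial (by rw [mem_preimage, e _ hx]; exact hi)
      (by rw [mem_preimage, e _ hx]; exact hj)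
    simpa [hx, e _ hx] using this

end Pool.Agent.Work.MP_8c604c_gt.T
end
end

-- merged part: Pool.Agent.Work.MP_8c604c_gt.T.Orient
section
/-!
Real bundles over a base without sign cocycles are orientable (owner helper45).
-/

noncomputable section

set_option linter.unusedSectionVars false

namespace Pool.Agent.Work.MP_8c604c_gt.T

open Set Topology Module

variable {A : Type} [NormedAddCommGroup A] [NormedSpace ℝ A] [FiniteDimensional ℝ A] {r : ℕ}

/-- a form that takes the value `1` on an independent family -/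
theorem exists_form {b : Fin r → A} (hb : LinearIndependent ℝ b) :
    ∃ ω : A [⋀^Fin r]→L[ℝ] ℝ, ω b = 1 := by
  obtain ⟨g, hg⟩ := (Fintype.linearCombination ℝ b).exists_leftInverse_of_injective
    (LinearMap.ker_eq_bot.2 (linearIndependent_iff_injective_fintypeLinearCombination.1 hb))
  have e : ∀ v : Fin r → A, ((Pi.basisFun ℝ (Fin r)).det.compLinearMap g) v =
      (Matrix.of fun i j => g (v j) i).det := fun v => by
    rw [AlternatingMap.compLinearMap_apply, Basis.det_apply]; rfl
  have hc : Continuous ((Pi.basisFun ℝ (Fin r)).det.compLinearMap g) := by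
    rw [funext e]
    have := g.continuous_of_finiteDimensional
    exact Continuous.matrix_det (continuous_pi fun i => continuous_pi fun j => by
      simp only [Matrix.of_apply]; fun_prop)
  refine ⟨{ (Pi.basisFun ℝ (Fin r)).det.compLinearMap g with cont := hc }, ?_⟩
  show ((Pi.basisFun ℝ (Fin r)).det.compLinearMap g) b = 1
  rw [AlternatingMap.compLinearMap_apply]
  convert (Pi.basisFun ℝ (Fin r)).det_self with i
  have := LinearMap.congr_fun hg (Pi.single i 1)
  rw [LinearMap.comp_apply, Fintype.linearCombination_apply_single, one_smul] at this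
  rw [this]; simp

/-- forms of top degree on a subspace are proportional -/
theorem form_swap {F : Submodule ℝ A} (hF : finrank ℝ F = r) (ω ω' : A [⋀^Fin r]→L[ℝ] ℝ)
    {b b' : Fin r → A} (hb : ∀ i, b i ∈ F) (hb' : ∀ i, b' i ∈ F) : ω b * ω' b' = ω b' * ω' b := by
  let e : Basis (Fin r) ℝ F := finBasisOfFinrankEq ℝ F hF
  have key : ∀ (ω : A [⋀^Fin r]→L[ℝ] ℝ) (b : Fin r → A) (hb : ∀ i, b i ∈ F),
      ω b = ω (fun i => e i) * e.det fun i => ⟨b i, hb i⟩ := fun ω b hb =>
    congrArg (fun f : F [⋀^Fin r]→ₗ[ℝ] ℝ => f fun i => ⟨b i, hb i⟩)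
      (AlternatingMap.eq_smul_basis_det e (ω.toAlternatingMap.compLinearMap F.subtype))
  rw [key ω b hb, key ω' b hb, key ω b' hb', key ω' b' hb']
  ring

theorem form_ne {F : Submodule ℝ A} (hF : finrank ℝ F = r) {ω : A [⋀^Fin r]→L[ℝ] ℝ}
    {b b' : Fin r → A} (hb : ∀ i, b i ∈ F) (hb' : ∀ i, b' i ∈ F) (li : LinearIndependent ℝ b)
    (h : ω b' ≠ 0) : ω b ≠ 0 := fun e => by
  obtain ⟨η, hη⟩ := exists_form li
  have := form_swap hF ω η hb hb'
  rw [e, hη, zero_mul, mul_one] at this
  exact h this.symm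

theorem form_indep {ω : A [⋀^Fin r]→L[ℝ] ℝ} {b : Fin r → A} (h : ω b ≠ 0) :
    LinearIndependent ℝ b := by
  by_contra k
  exact h (ω.toAlternatingMap.map_linearDependent b k)

variable {X : Type} [TopologicalSpace X] {V : X → A →L[ℝ] A} {U : Set X}

theorem RB.mem_range (h : RB V r U) {x : X} (hx : x ∈ U) {a : A} :
    a ∈ LinearMap.range (V x : A →ₗ[ℝ] A) ↔ V x a = a :=
  ⟨fun ⟨c, e⟩ => by rw [← e]; exact h.idem x hx c, fun e => ⟨a, e⟩⟩

/-- a basis of a fibre -/
theorem RB.exists_basis (h : RB V r U) {x : X} (hx : x ∈ U) :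
    ∃ b : Fin r → A, LinearIndependent ℝ b ∧ ∀ i, V x (b i) = b i := by
  let e := finBasisOfFinrankEq ℝ _ (h.rank x hx)
  exact ⟨fun i => e i, e.linearIndependent.map' (Submodule.subtype _) (Submodule.ker_subtype _),
    fun i => (h.mem_range hx).1 (e i).2⟩

theorem contOn_glue [RegularSpace X] [SecondCountableTopology X] {E : Type} [NormedAddCommGroup E]
    [NormedSpace ℝ E] {t : X → Set E} (ht : ∀ x ∈ U, Convex ℝ (t x))
    (H : ∀ x ∈ U, ∃ O ∈ 𝓝[U] x, ∃ g : X → E, ContinuousOn g O ∧ ∀ y ∈ O, y ∈ U → g y ∈ t y) :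
    ∃ g : X → E, ContinuousOn g U ∧ ∀ x ∈ U, g x ∈ t x := by
  let _ := TopologicalSpace.pseudoMetrizableSpacePseudoMetric U
  obtain ⟨g, hg⟩ := exists_continuous_forall_mem_convex_of_local (X := U) (t := fun x => t x)
    (fun x => ht x x.2) fun x => by
      obtain ⟨O, hO, g, c, k⟩ := H x x.2
      exact ⟨Subtype.val ⁻¹' O, preimage_coe_mem_nhds_subtype.2 hO, fun y => g y,
        c.comp continuous_subtype_val.continuousOn fun _ h => h, fun y hy => k y hy y.2⟩
  classical
  refine ⟨fun x => if h : x ∈ U then g ⟨x, h⟩ else 0, ?_, fun x hx => by simpa [hx] using hg ⟨x, hx⟩⟩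
  rw [continuousOn_iff_continuous_domRestrict]
  exact g.continuous.congr fun x => by simp [x.2]

theorem RB.exists_ori [RegularSpace X] [SecondCountableTopology X] (h : RB V r U)
    (hs : SgnTriv U) : ∃ o, Ori V r U o := by
  choose b li hb using fun x : U => h.exists_basis x.2
  choose ω hω using fun x : U => exists_form (li x)
  let β : U → X → Fin r → A := fun j x i => V x (b j i)
  have cβ : ∀ j, ContinuousOn (β j) U := fun j =>
    continuousOn_pi.2 fun i => h.cont.clm_apply continuousOn_const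
  have mβ : ∀ j x i, β j x i ∈ LinearMap.range (V x : A →ₗ[ℝ] A) := fun j x i => ⟨_, rfl⟩
  let d : U → U → X → ℝ := fun i j x => ω i (β j x)
  have cd : ∀ i j, ContinuousOn (d i j) U := fun i j =>
    (ω i).coe_continuous.comp_continuousOn (cβ j)
  choose W hW eW using fun j => continuousOn_iff'.1 (cd j j) (Ioi 0) isOpen_Ioi
  have mW : ∀ j, ∀ x ∈ U, x ∈ W j ↔ 0 < d j j x := fun j x hx =>
    ⟨fun k => ((eW j).ge ⟨k, hx⟩).1, fun k => ((eW j).le ⟨k, hx⟩).1⟩
  have self : ∀ x : U, (x : X) ∈ W x := fun x => (mW x x x.2).2 (by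
    have : β x x = b x := funext (hb x)
    simp only [d, this, hω, one_pos])
  have sw : ∀ i j k l, ∀ x ∈ U, d i j x * d k l x = d i l x * d k j x := fun i j k l x hx =>
    form_swap (h.rank x hx) _ _ (mβ j x) (mβ l x)
  have ne : ∀ i j, ∀ x ∈ U, x ∈ W i → x ∈ W j → d i j x ≠ 0 := fun i j x hx hi hj =>
    form_ne (h.rank x hx) (mβ j x) (mβ i x) (form_indep ((mW j x hx).1 hj).ne')
      ((mW i x hx).1 hi).ne'
  obtain ⟨σ, cσ, vσ, hσ⟩ := hs U W d hW (fun x hx => ⟨⟨x, hx⟩, self ⟨x, hx⟩⟩)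
    (fun i j => (cd i j).mono fun _ k => k.1.1) fun i j k x hx hi hj hk => by
      rw [sw i j j k x hx, mul_right_comm]
      exact mul_pos (mul_self_pos.2 (ne i k x hx hi hk)) ((mW j x hx).1 hj)
  classical
  obtain ⟨o, co, ho⟩ := contOn_glue (U := U) (E := A [⋀^Fin r]→L[ℝ] ℝ)
    (t := fun x => {o | ∀ hx : x ∈ U, 0 < σ ⟨x, hx⟩ x * o (b ⟨x, hx⟩)})
    (fun x _ o₁ h₁ o₂ h₂ s t hs ht st hx => by
      have := (convex_Ioi (0 : ℝ)) (h₁ hx) (h₂ hx) hs ht st
      simp only [mem_Ioi, smul_eq_mul] at this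
      simp only [ContinuousAlternatingMap.add_apply, ContinuousAlternatingMap.smul_apply,
        smul_eq_mul]
      linarith)
    fun x hx => ⟨U ∩ W ⟨x, hx⟩, inter_mem_nhdsWithin _ ((hW _).mem_nhds (self ⟨x, hx⟩)),
      fun y => σ ⟨x, hx⟩ y • ω ⟨x, hx⟩, (cσ _).smul continuousOn_const, fun y hy _ hy' => by
        have := hσ ⟨x, hx⟩ ⟨y, hy'⟩ y hy' hy.2 (self ⟨y, hy'⟩)
        have e : β ⟨y, hy'⟩ y = b ⟨y, hy'⟩ := funext (hb ⟨y, hy'⟩)
        simp only [d, e] at this
        simp only [ContinuousAlternatingMap.smul_apply, smul_eq_mul]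
        linarith⟩
  refine ⟨o, co, fun x hx c lc hc => form_ne (h.rank x hx) (fun i => (h.mem_range hx).2 (hc i))
    (fun i => (h.mem_range hx).2 (hb ⟨x, hx⟩ i)) lc fun e => ?_⟩
  have := ho x hx hx
  rw [e, mul_zero] at this
  exact lt_irrefl _ this

end Pool.Agent.Work.MP_8c604c_gt.T
end
end
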