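import Pool.Agent.Work.MP_849ab0_ag.G.FLoc
import Pool.Agent.Work.MP_8c604c_gt.T.Orient
import Pool.Agent.Work.MP_8c604c_gt.TZ.OrR

-- merged part: Pool.Agent.Work.MP_8c604c_gt.T.GThom
section
/-! Thom classes and the Thom isomorphism for an arbitrary fibre `F` with a class `ω`. -/

noncomputable section

set_option linter.unusedSectionVars false

namespace Pool.Agent.Work.MP_8c604c_gt.T

open Set Topology Filter Pool.Agent.Work.MP_849ab0_ag.G

variable {X Y F A : Type} [TopologicalSpace X] [TopologicalSpace Y] [TopologicalSpace F] [Zero F]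
  [TopologicalSpace A]

/-- `ω` is a Thom class of degree `d` of the pointed space `F`. -/
structure Fib (d : ℤ) (ω : H (univ : Set F) {0}) : Prop where
  deg : IsDeg d ω
  triv : ∀ (Y : Type) [TopologicalSpace Y] [RegularSpace Y] [SecondCountableTopology Y]
    (U' Z' : Set Y), Cl U' Z' → Function.Bijective fun a : H U' Z' =>
      cup (U' ×ˢ univ) (Z' ×ˢ {0}) (pull Prod.fst (U' ×ˢ univ) (Z' ×ˢ univ) a)
        (pull Prod.snd (U' ×ˢ univ) (univ ×ˢ {0}) ω)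

theorem fib_orient (J : Type) [Fintype J] : Fib (2 * Fintype.card J) (orient J) :=
  ⟨isDeg_orient, fun _ _ _ _ _ _ h => thom_triv h⟩

variable {d : ℤ} {ω : H (univ : Set F) {0}}

theorem Fib.ne_zero (hω : Fib d ω) : ω ≠ 0 := fun h => by
  have := (hω.triv _ _ _ (Cl.univ ({()} : Set Unit))).1 (a₁ := cls _ _ onec) (a₂ := 0)
    (by simp [h])
  simpa [ev_one (mem_singleton ()) (subset_univ _)] using congrArg (ev ()) this

/-- `ω` generates the cohomology of `F` with support in the base point. -/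
theorem Fib.gen (hω : Fib d ω) (a : H (univ : Set F) {0}) : ∃ t : ℂ, a = t • ω := by
  have o1 : Ok Prod.snd (({()} : Set Unit) ×ˢ (univ : Set F)) (univ ×ˢ {0}) univ {0} :=
    .of_mem (.of_continuous continuous_snd _) (fun _ _ => trivial) fun _ _ k => ⟨trivial, k⟩
  have o2 : Ok (fun v : F => ((), v)) univ {0} (({()} : Set Unit) ×ˢ univ) (univ ×ˢ {0}) :=
    .of_mem (.of_continuous (by fun_prop) _) (fun _ _ => ⟨rfl, trivial⟩) fun _ _ k => k.2
  have o3 : Ok Prod.fst (({()} : Set Unit) ×ˢ (univ : Set F)) (univ ×ˢ univ) {()} univ :=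
    .of_mem (.of_continuous continuous_fst _) (fun _ k => k.1) fun _ _ _ => ⟨trivial, trivial⟩
  obtain ⟨b, hb⟩ := (hω.triv _ _ _ (Cl.univ ({()} : Set Unit))).2 (pull Prod.snd _ _ a)
  refine ⟨ev () b, ?_⟩
  have := congrArg (pull (fun v : F => ((), v)) univ {0}) hb
  rw [pt_eq (mem_univ ()) b] at this
  simp only [map_smul, LinearMap.smul_apply] at this
  rw [pull_one o3 (subset_univ _), one_cup' (by simp),
    pull_pull' (F := id) o2 o1 (fun _ _ => rfl), pull_pull' (F := id) o2 o1 (fun _ _ => rfl),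
    pull_id, pull_id] at this
  exact this.symm

theorem Fib.smul (hω : Fib d ω) {c : ℂ} (hc : c ≠ 0) : Fib d (c • ω) :=
  ⟨hω.deg.smul c, fun Y _ _ _ U' Z' h => by
    convert (MulAction.bijective (Units.mk0 _ hc)).comp (hω.triv Y U' Z' h) using 1
    funext a
    rw [map_smul, map_smul]; rfl⟩

/-- Transport of a Thom class along a homeomorphism of pointed spaces. -/
theorem Fib.homeo {F' : Type} [TopologicalSpace F'] [Zero F'] (hω : Fib d ω) {e : F' → F}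
    {e' : F → F'} (he : Continuous e) (he' : Continuous e') (h1 : ∀ v, e' (e v) = v)
    (h2 : ∀ v, e (e' v) = v) (h0 : e 0 = 0) : Fib d (pull e univ {0} ω) :=
  ⟨hω.deg.pull _ _ _, fun Y _ _ _ U' Z' h => by
    have z : ∀ v, e v = 0 → v = 0 := fun v k => by rw [← h1 v, k, ← h0, h1]
    have z' : ∀ v, e' v = 0 → v = 0 := fun v k => by rw [← h2 v, k, h0]
    have c : Continuous (Prod.map (id : Y → Y) e) := continuous_id.prodMap he
    have o1 : Ok (Prod.map id e) (U' ×ˢ univ) (Z' ×ˢ {0}) (U' ×ˢ univ) (Z' ×ˢ {0}) :=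
      .of_mem (.of_continuous c _) (fun _ k => ⟨k.1, trivial⟩) fun _ _ k => ⟨k.1, z _ k.2⟩
    have o2 : Ok (Prod.map id e) (U' ×ˢ univ) (Z' ×ˢ univ) (U' ×ˢ univ) (Z' ×ˢ univ) :=
      .of_mem (.of_continuous c _) (fun _ k => ⟨k.1, trivial⟩) fun _ _ k => ⟨k.1, trivial⟩
    have o3 : Ok (Prod.map id e) (U' ×ˢ univ) (univ ×ˢ {0}) (U' ×ˢ univ) (univ ×ˢ {0}) :=
      .of_mem (.of_continuous c _) (fun _ k => ⟨k.1, trivial⟩) fun _ _ k => ⟨trivial, z _ k.2⟩
    have o4 : Ok (Prod.map id e') (U' ×ˢ univ) (Z' ×ˢ {0}) (U' ×ˢ univ) (Z' ×ˢ {0}) :=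
      .of_mem (.of_continuous (continuous_id.prodMap he') _) (fun _ k => ⟨k.1, trivial⟩)
        fun _ _ k => ⟨k.1, z' _ k.2⟩
    have o5 : Ok Prod.snd (U' ×ˢ (univ : Set F')) (univ ×ˢ {0}) univ {0} :=
      .of_mem (.of_continuous continuous_snd _) (fun _ _ => mem_univ _) fun _ _ k => ⟨trivial, k⟩
    convert (pull_bij_of_inv o1 o4 (fun x _ => Prod.ext rfl (h1 _))
      fun x _ => Prod.ext rfl (h2 _)).comp (hω.triv Y U' Z' h) using 1
    funext a
    rw [Function.comp_apply, pull_cup' o1 o2 o3 (fun _ _ a b => ⟨a.1, b.2⟩)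
      (cupOK fun _ _ a b => ⟨a.1, b.2⟩),
      pull_pull' (F := Prod.fst) o2 (.of_mem (.of_continuous continuous_fst _) (fun _ k => k.1)
        fun _ _ k => ⟨k, trivial⟩) fun _ _ => rfl,
      pull_pull' (F := fun x => e x.2) o3 (.of_mem (.of_continuous continuous_snd _)
        (fun _ _ => mem_univ _) fun _ _ k => ⟨trivial, k⟩) fun _ _ => rfl,
      pull_pull' (F := fun x => e x.2) o5
        (.of_mem (.of_continuous he _) (fun _ _ => mem_univ _) fun v _ k => z v k) fun _ _ => rfl]⟩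

variable {U Z Z₀ Z₁ : Set X} {U' Z' : Set Y}

/-- A chart of a vector bundle `π : U → U'` with zero section `Z₀`. -/
structure ChartV (π : X → Y) (U Z₀ : Set X) (U' W : Set Y) (g : X → F)
    (s : Y × F → X) : Prop where
  op : IsOpen W
  extg : Ext g (U ∩ π ⁻¹' W)
  exts : Ext s ((U' ∩ W) ×ˢ univ)
  mem : ∀ y ∈ U' ∩ W, ∀ v, s (y, v) ∈ U
  fst : ∀ y ∈ U' ∩ W, ∀ v, π (s (y, v)) = y
  snd : ∀ y ∈ U' ∩ W, ∀ v, g (s (y, v)) = v
  inv : ∀ x ∈ U ∩ π ⁻¹' W, s (π x, g x) = x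
  zero : ∀ x ∈ U ∩ π ⁻¹' W, x ∈ Z₀ ↔ g x = 0

variable [RegularSpace X] [SecondCountableTopology X] [RegularSpace Y] [SecondCountableTopology Y]
variable {π : X → Y} {W W' : Set Y} {g : X → F} {s : Y × F → X}

namespace ChartV

theorem mono (h : ChartV π U Z₀ U' W g s) (o : IsOpen W') (k : W' ⊆ W) : ChartV π U Z₀ U' W' g s :=
  have a : U ∩ π ⁻¹' W' ⊆ U ∩ π ⁻¹' W := inter_subset_inter_right _ (preimage_mono k)
  have b : U' ∩ W' ⊆ U' ∩ W := inter_subset_inter_right _ k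
  ⟨o, h.extg.mono a, h.exts.mono (prod_mono b subset_rfl), fun y e => h.mem y (b e),
    fun y e => h.fst y (b e), fun y e => h.snd y (b e), fun y e => h.inv y (a e),
    fun y e => h.zero y (a e)⟩

theorem restrict (h : ChartV π U Z₀ U' W g s) (W' : Set Y) :
    ChartV π (U ∩ π ⁻¹' W') Z₀ (U' ∩ W') W g s :=
  have a : U ∩ π ⁻¹' W' ∩ π ⁻¹' W ⊆ U ∩ π ⁻¹' W := fun _ k => ⟨k.1.1, k.2⟩
  have b : U' ∩ W' ∩ W ⊆ U' ∩ W := fun _ k => ⟨k.1.1, k.2⟩
  ⟨h.op, h.extg.mono a, h.exts.mono (prod_mono b subset_rfl),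
    fun y e v => ⟨h.mem y (b e) v, by rw [mem_preimage, h.fst y (b e)]; exact e.1.2⟩,
    fun y e => h.fst y (b e), fun y e => h.snd y (b e), fun y e => h.inv y (a e),
    fun y e => h.zero y (a e)⟩

theorem mem' (h : ChartV π U Z₀ U' W g s) {y : Y} (hy : y ∈ U' ∩ W) (v : F) :
    s (y, v) ∈ U ∩ π ⁻¹' W := ⟨h.mem y hy v, by rw [mem_preimage, h.fst y hy]; exact hy.2⟩

theorem ok_fib (h : ChartV π U Z₀ U' W g s) {y : Y} (hy : y ∈ U' ∩ W) {V : Set X}
    (hV : ∀ v, s (y, v) ∈ V) : Ok (fun v => s (y, v)) univ {0} V Z₀ :=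
  .of_mem (h.exts.comp (f := fun v => (y, v)) (.of_continuous (by fun_prop) _)
    fun _ _ => ⟨hy, trivial⟩) (fun v _ => hV v)
    fun v _ k => (h.snd y hy v).symm.trans ((h.zero _ (h.mem' hy v)).1 k)

theorem ok_g (h : ChartV π U Z₀ U' W g s) : Ok g (U ∩ π ⁻¹' W) Z₀ univ {0} :=
  .of_mem h.extg (fun _ _ => trivial) fun x k e => (h.zero x k).2 e

theorem fib_g (h : ChartV π U Z₀ U' W g s) {y : Y} (hy : y ∈ U' ∩ W) :
    pull (fun v => s (y, v)) univ {0} (pull g (U ∩ π ⁻¹' W) Z₀ ω) = ω := by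
  rw [pull_pull' (F := id) (h.ok_fib hy (h.mem' hy)) h.ok_g fun v _ => h.snd y hy v, pull_id]

theorem bij (h : ChartV π U Z₀ U' W g s) (hω : Fib d ω) (hπ : Ext π U) (hm : MapsTo π U U') :
    Function.Bijective fun a : H (U' ∩ W) univ => cup (U ∩ π ⁻¹' W) Z₀
      (pull π (U ∩ π ⁻¹' W) univ a) (pull g (U ∩ π ⁻¹' W) Z₀ ω) := by
  have e := (hπ.mono inter_subset_left).prodMk h.extg
  have m : MapsTo (fun x => (π x, g x)) (U ∩ π ⁻¹' W) ((U' ∩ W) ×ˢ univ) :=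
    fun x k => ⟨⟨hm k.1, k.2⟩, trivial⟩
  have o : Ok (fun x => (π x, g x)) (U ∩ π ⁻¹' W) Z₀ ((U' ∩ W) ×ˢ univ) (univ ×ˢ {0}) :=
    .of_mem e m fun x k a => (h.zero x k).2 a.2
  have o' : Ok (fun x => (π x, g x)) (U ∩ π ⁻¹' W) univ ((U' ∩ W) ×ˢ univ) (univ ×ˢ univ) :=
    .of_mem e m fun x k a => trivial
  convert (pull_bij_of_inv o (.of_mem h.exts (fun z k => h.mem' k.1 z.2) fun z k a =>
    ⟨trivial, (h.snd _ k.1 _).symm.trans ((h.zero _ (h.mem' k.1 z.2)).1 a)⟩) h.inv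
    fun z k => Prod.ext (h.fst _ k.1 _) (h.snd _ k.1 _)).comp (hω.triv _ _ _ (Cl.univ _)) using 1
  funext a
  rw [Function.comp_apply, pull_cup' o o' o (fun _ _ _ k => k) (cupOK fun _ _ _ k => k),
    pull_pull' (F := π) o' (.of_mem (.of_continuous continuous_fst _) (fun _ k => k.1)
      fun _ _ _ => ⟨trivial, trivial⟩) fun _ _ => rfl,
    pull_pull' (F := g) o (.of_mem (.of_continuous continuous_snd _) (fun _ k => mem_univ _)
      fun _ _ k => ⟨trivial, k⟩) fun _ _ => rfl]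

theorem fib_cup (h : ChartV π U Z₀ U' W g s) (hπ : Ext π U) (hm : MapsTo π U U') {y : Y}
    (hy : y ∈ U' ∩ W) (a : H U' univ) (τ : H U Z₀) :
    pull (fun v => s (y, v)) univ {0} (cup U Z₀ (pull π U univ a) τ) =
      ev y a • pull (fun v => s (y, v)) univ {0} τ := by
  have o := h.ok_fib hy (h.mem y hy)
  have o' : Ok (fun v => s (y, v)) univ univ U univ := .of_mem o.ext o.maps fun _ _ _ => trivial
  have o1 : Ok (fun _ : F => y) univ univ {y} univ :=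
    .of_mem (.of_continuous continuous_const _) (fun _ _ => rfl) fun _ _ _ => trivial
  have o2 : Ok id {y} univ U' univ := .id (singleton_subset_iff.2 hy.1) fun _ _ _ => trivial
  rw [pull_cup' o o' o (fun _ _ _ k => k) (cupOK fun _ _ _ k => k),
    pull_pull' (F := fun _ => y) o' (.of_mem hπ hm fun _ _ _ => trivial) fun v _ => h.fst y hy v,
    ← pull_pull' (F := fun _ => y) o1 o2 fun _ _ => rfl, pt_eq (mem_univ y) (pull id {y} univ a), map_smul,
    pull_one o1 (subset_univ _), map_smul, LinearMap.smul_apply, one_cup' (subset_univ _),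
    ev_pull o2 rfl]
  rfl

end ChartV

/-- A class of top degree that vanishes on all fibres vanishes. -/
theorem eq_zero_of_fibV (hω : Fib d ω) (hπ : Ext π U) (hm : MapsTo π U U') {τ : H U Z₀} {k : ℤ} (hτ : IsDeg k τ)
    (hb : Function.Bijective fun a : H U' univ => cup U Z₀ (pull π U univ a) τ) {c : H U Z₀}
    (hc : IsDeg k c) (h : ∀ y ∈ U', ∃ (W : Set Y) (g : X → F) (s : Y × F → X), y ∈ W ∧
      ChartV π U Z₀ U' W g s ∧ pull (fun v => s (y, v)) univ {0} τ = ω ∧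
        pull (fun v => s (y, v)) univ {0} c = 0) : c = 0 := by
  obtain ⟨a, rfl⟩ := hb.2 c
  have : a = 0 := (isDeg_of_cup hτ hb.1 (by rwa [zero_add])).eq_zero_of_ev fun y hy => by
    obtain ⟨W, g, s, h1, h2, h3, h4⟩ := h y hy
    rw [h2.fib_cup hπ hm ⟨hy, h1⟩, h3] at h4
    exact (smul_eq_zero.1 h4).resolve_right hω.ne_zero
  simp [this]

theorem ChartV.res_eq (h : ChartV π U Z₀ U' W g s) (hω : Fib d ω) (hπ : Ext π U) (hm : MapsTo π U U') {τ : H U Z₀}
    (hτ : IsDeg d τ)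
    (k : ∀ y ∈ U' ∩ W, pull (fun v => s (y, v)) univ {0} τ = ω) :
    pull id (U ∩ π ⁻¹' W) Z₀ τ = pull g (U ∩ π ⁻¹' W) Z₀ ω := by
  refine sub_eq_zero.1 (eq_zero_of_fibV hω (U' := U' ∩ W) (hπ.mono inter_subset_left)
    (fun x k => ⟨hm k.1, k.2⟩)
    (hω.deg.pull _ _ _) (h.bij hω hπ hm) ((hτ.pull _ _ _).sub (hω.deg.pull _ _ _))
    fun y hy => ⟨W, g, s, hy.2, h.restrict W, h.fib_g hy, ?_⟩)
  rw [map_sub, h.fib_g hy, pull_pull' (F := fun v => s (y, v)) (h.ok_fib hy (h.mem' hy))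
    (.id inter_subset_left fun _ _ k => k) fun _ _ => rfl, k y hy, sub_self]

/-- The Thom isomorphism. -/
theorem thom_isoV (hω : Fib d ω) (hπ : Ext π U) (hm : MapsTo π U U') (hc' : Cl U' Z') (hc : Cl U Z₀)
    (h1 : ∀ x ∈ U, x ∈ Z₁ ↔ π x ∈ Z') (h2 : ∀ x ∈ U, x ∈ Z ↔ π x ∈ Z' ∧ x ∈ Z₀) {τ : H U Z₀}
    (hτ : IsDeg d τ)
    (h : ∀ y ∈ U', ∃ (W : Set Y) (g : X → F) (s : Y × F → X), y ∈ W ∧
      ChartV π U Z₀ U' W g s ∧ ∀ y ∈ U' ∩ W, pull (fun v => s (y, v)) univ {0} τ = ω) :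
    Function.Bijective fun a : H U' Z' => cup U Z (pull π U Z₁ a) τ := by
  refine cup_bij_local hπ hm hc' hc h1 h2 hτ fun y hy => ?_
  obtain ⟨W, g, s, k1, k2, k3⟩ := h y hy
  refine ⟨W, k2.op, k1, fun W' o k => ?_⟩
  convert (k2.mono o k).bij hω hπ hm using 1
  funext a
  rw [← (k2.mono o k).res_eq hω hπ hm hτ fun y e => k3 y ⟨e.1, k e.2⟩,
    cup_res_right (.id inter_subset_left fun _ _ k => k) (cupOK fun _ _ _ k => k)]

/-- Existence of Thom classes. -/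
theorem exists_thomV {I : Type} {W : I → Set Y} {g : I → X → F} {s : I → Y × F → X}
    (hω : Fib d ω) (hπ : Ext π U) (hm : MapsTo π U U') (hc : Cl U Z₀)
    (h : ∀ i, ChartV π U Z₀ U' (W i) (g i) (s i))
    (cov : ∀ y ∈ U', ∃ i, y ∈ W i)
    (lin : ∀ i j, ∀ y ∈ U' ∩ W i, y ∈ W j → 
      pull (fun v => g j (s i (y, v))) univ {0} ω = ω) :
    ∃ τ : H U Z₀, IsDeg d τ ∧
      ∀ i, ∀ y ∈ U' ∩ W i, pull (fun v => s i (y, v)) univ {0} τ = ω := by
  have hπ' := hπ.continuousOn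
  have res : ∀ (V : Set Y) (V' : Set X), U ∩ π ⁻¹' V ⊆ V' → ∀ (τ : H V' Z₀) i,
      ∀ y ∈ U' ∩ W i, y ∈ V → pull (fun v => s i (y, v)) univ {0} (pull id (U ∩ π ⁻¹' V) Z₀ τ) =
        pull (fun v => s i (y, v)) univ {0} τ := fun V V' k τ i y hy e =>
    pull_pull' ((h i).ok_fib (V := U ∩ π ⁻¹' V) hy fun v =>
      ⟨(h i).mem y hy v, by rwa [mem_preimage, (h i).fst y hy]⟩)
      (.id k fun _ _ k => k) (fun _ _ => rfl) τ
  have sub : ∀ {V V' : Set Y}, V ⊆ V' → U ∩ π ⁻¹' V ⊆ U ∩ π ⁻¹' V' := fun k =>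
    inter_subset_inter_right _ (preimage_mono k)
  have nh : ∀ {V : Set Y} (V' : Set Y), IsOpen V → ∀ x ∈ U ∩ π ⁻¹' V,
      U ∩ π ⁻¹' V ∈ 𝓝[U ∩ π ⁻¹' V'] x := fun V' o x k => nhdsWithin_mono _ inter_subset_left
    (inter_mem self_mem_nhdsWithin (hπ' x k.1 (o.mem_nhds k.2)))
  obtain ⟨V, -, v1, τ, t1, t2⟩ := cover_ind (fun V => ∃ τ : H (U ∩ π ⁻¹' V) Z₀,
    IsDeg d τ ∧
      ∀ i, ∀ y ∈ U' ∩ W i, y ∈ V → pull (fun v => s i (y, v)) univ {0} τ = ω) U'
    ⟨0, .zero _, fun _ _ _ k => k.elim⟩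
    (fun V V' _ _ k ⟨τ, t1, t2⟩ => ⟨_, t1.pull id _ _, fun i y hy e => by
      rw [res V' _ (sub k) τ i y hy e, t2 i y hy (k e)]⟩)
    (fun V V' o o' ⟨τ, t1, t2⟩ ⟨τ', t1', t2'⟩ => by
      have hπ1 := hπ.mono (inter_subset_left (t := π ⁻¹' (V ∩ V')))
      have hm1 : MapsTo π (U ∩ π ⁻¹' (V ∩ V')) (U' ∩ (V ∩ V')) := fun x k => ⟨hm k.1, k.2⟩
      have dd := t1.pull id (U ∩ π ⁻¹' (V ∩ V')) Z₀
      obtain ⟨c, c1, c2⟩ := mv_glue (C := U ∩ π ⁻¹' (V ∩ V')) (D := U ∩ π ⁻¹' (V ∪ V')) (nh V' o)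
        (nh V o') (by rw [preimage_inter, inter_inter_distrib_left])
        (by rw [preimage_union, inter_union_distrib_left]) τ τ' (sub_eq_zero.1 (eq_zero_of_fibV hω hπ1
          hm1 dd (thom_isoV hω hπ1 hm1 (.univ _) (hc.mono inter_subset_left) (by simp) (by simp) dd
            fun y hy => by
              obtain ⟨i, hi⟩ := cov y hy.1
              exact ⟨_, _, _, hi, (h i).restrict _, fun y e => by
                rw [res _ _ (sub inter_subset_left) τ i y ⟨e.1.1, e.2⟩ e.1.2,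
                  t2 i y ⟨e.1.1, e.2⟩ e.1.2.1]⟩) (dd.sub (t1'.pull _ _ _)) fun y hy => by
          obtain ⟨i, hi⟩ := cov y hy.1
          have a := (res _ _ (sub inter_subset_left) τ i y ⟨hy.1, hi⟩ hy.2).trans
            (t2 i y ⟨hy.1, hi⟩ hy.2.1)
          exact ⟨_, _, _, hi, (h i).restrict _, a, by
            rw [map_sub, a, res _ _ (sub inter_subset_right) τ' i y ⟨hy.1, hi⟩ hy.2,
              t2' i y ⟨hy.1, hi⟩ hy.2.2, sub_self]⟩))
      refine ⟨_, isDeg_prj _ c, fun i y hy e => ?_⟩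
      rw [pull_prj, ← isDeg_iff.1 hω.deg]
      congr 1
      rcases e with e | e
      · rw [← res V _ (sub subset_union_left) c i y hy e, c1, t2 i y hy e]
      · rw [← res V' _ (sub subset_union_right) c i y hy e, c2, t2' i y hy e])
    (fun V o dj hV => by
      choose τ t1 t2 using hV
      obtain ⟨c, c1⟩ := disj_glue hπ' o dj τ t1
      refine ⟨_, isDeg_prj _ c, fun i y hy e => ?_⟩
      obtain ⟨k, e⟩ := mem_iUnion.1 e
      rw [pull_prj, ← isDeg_iff.1 hω.deg, ← res (V k) _ (sub (subset_iUnion V k)) c i y hy e,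
        c1, t2 k i y hy e])
    (fun y hy => by
      obtain ⟨j, hj⟩ := cov y hy
      refine ⟨W j, (h j).op, hj, _, hω.deg.pull (g j) _ _, fun i y hy e => ?_⟩
      have a : ∀ v, s i (y, v) ∈ U ∩ π ⁻¹' W j := fun v =>
        ⟨(h i).mem y hy v, by rwa [mem_preimage, (h i).fst y hy]⟩
      rw [pull_pull ((h i).ok_fib hy a) (h j).ok_g]
      exact lin i j y hy e)
  refine ⟨pull id U Z₀ τ, t1.pull _ _ _, fun i y hy => ?_⟩
  rw [pull_pull' (F := fun v => s i (y, v)) ((h i).ok_fib hy ((h i).mem y hy))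
    (.id (subset_inter subset_rfl fun x k => v1 (hm k)) fun _ _ k => k) fun _ _ => rfl,
    t2 i y hy (v1 hy.1)]

section Loc

variable [RegularSpace F] [SecondCountableTopology F] [T1Space F] {U S V V' N B : Set Y}

variable {O : Set (A × F)} {K : A × F → Y} {L : Y → A × F}

/-- The Thom isomorphism in a chart. -/
theorem chart_bijV (hω : Fib d ω) (hO : IsOpen O) (hK : ContinuousOn K O) (hL : Ext L V) (mK : MapsTo K O V)
    (mL : MapsTo L V O) (e1 : ∀ w ∈ O, L (K w) = w) (e2 : ∀ y ∈ V, K (L y) = y)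
    (hS : ∀ w ∈ O, K w ∈ S ↔ w.2 = 0) (hV : V ⊆ V') (ok : Ok (fun y => (L y).2) V' S univ {0})
    (hB : ∀ y, y ∈ B ↔ y ∈ V ∧ y ∈ S) :
    Function.Bijective fun a : H B univ => cup V S a (pull (fun y => (L y).2) V' S ω) := by
  have hS' : ∀ y ∈ V, y ∈ S ↔ (L y).2 = 0 := fun y k => by rw [← hS _ (mL k), e2 y k]
  have z0 : ∀ y ∈ B, ((L y).1, 0) = L y := fun y k =>
    Prod.ext rfl ((hS' y ((hB y).1 k).1).1 ((hB y).1 k).2).symm
  have eK : Ext K O := .of_continuousAt fun w k => hK.continuousAt (hO.mem_nhds k)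
  have e0 : Ext (fun y => ((L y).1, (0 : F))) V :=
    (Ext.of_continuous (f := fun w : A × F => (w.1, (0 : F))) (by fun_prop) univ).comp hL
      (mapsTo_univ _ _)
  have e3 : Ext (fun z : Y × F => ((L z.1).1, z.2)) (B ×ˢ univ) :=
    (((Ext.of_continuous continuous_fst univ).comp hL (mapsTo_univ _ _)).mono
      fun y k => ((hB y).1 k).1).prodMap (.of_continuous continuous_id univ)
  let W : Set Y := V ∩ (fun y => ((L y).1, (0 : F))) ⁻¹' O
  let O' : Set (Y × F) := B ×ˢ univ ∩ (fun z => ((L z.1).1, z.2)) ⁻¹' O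
  have sB : B ⊆ W := fun y k => ⟨((hB y).1 k).1, by rw [mem_preimage, z0 y k]; exact mL ((hB y).1 k).1⟩
  have eπ : Ext (fun y => K ((L y).1, 0)) W := eK.comp (e0.mono inter_subset_left) fun _ k => k.2
  have mπ : MapsTo (fun y => K ((L y).1, 0)) W B := fun y k =>
    (hB _).2 ⟨mK k.2, (hS _ k.2).2 rfl⟩
  have eΛ := eπ.prodMk (ok.ext.mono (inter_subset_left.trans hV))
  have o1 : Ok (fun y => (K ((L y).1, 0), (L y).2)) W S O' (univ ×ˢ {0}) :=
    .of_mem eΛ (fun y k => ⟨⟨mπ k, trivial⟩, by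
      rw [mem_preimage, e1 _ k.2]; exact mL k.1⟩) fun y k e => (hS' y k.1).2 e.2
  have o2 : Ok (fun z : Y × F => K ((L z.1).1, z.2)) O' (univ ×ˢ {0}) W S :=
    .of_mem (eK.comp (e3.mono inter_subset_left) fun _ k => k.2) (fun z k => ⟨mK k.2, by
      rw [mem_preimage, e1 _ k.2]; exact (sB k.1.1).2⟩) fun z k e => ⟨trivial, (hS _ k.2).1 e⟩
  have b1 := pull_bij_of_inv o1 o2 (fun y k => by rw [e1 _ k.2]; exact e2 y k.1) fun z k => by
    rw [e1 _ k.2, z0 _ k.1.1, e2 _ ((hB _).1 k.1.1).1]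
  have b2 := res_excision (U := B ×ˢ univ) (U₁ := O') (Z := univ ×ˢ {0}) (Z₁ := univ ×ˢ {0})
    inter_subset_left (.of_isClosed (isClosed_univ.prod isClosed_singleton) _)
    (fun z k e => inter_mem self_mem_nhdsWithin (e3.continuousOn z k (hO.mem_nhds (by
      change (_, z.2) ∈ O
      rw [show z.2 = 0 from e.2]; exact (sB k.1).2)))) fun _ _ => Iff.rfl
  have b3 := res_excision (U := V) (U₁ := W) (Z := S) (Z₁ := S) inter_subset_left
    (((Cl.of_isClosed isClosed_singleton univ).preimage (ok.ext.continuousOn.mono hV)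
      (mapsTo_univ _ _)).congr fun y k => (hS' y k).symm)
    (fun y k e => inter_mem self_mem_nhdsWithin (e0.continuousOn y k
      (hO.mem_nhds (sB ((hB y).2 ⟨k, e⟩)).2))) fun _ _ => Iff.rfl
  refine (Function.Bijective.of_comp_iff' b3 _).1 ?_
  convert b1.comp (b2.comp (hω.triv _ _ _ (Cl.univ B))) using 1
  funext a
  have o3 : Ok (fun y => (K ((L y).1, 0), (L y).2)) W S (B ×ˢ univ) (univ ×ˢ {0}) :=
    .of_mem eΛ (fun y k => ⟨mπ k, trivial⟩) fun y k e => o1.mem k e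
  have o4 : Ok (fun y => (K ((L y).1, 0), (L y).2)) W univ (B ×ˢ univ) (univ ×ˢ univ) :=
    .of_mem eΛ o3.maps fun _ _ _ => trivial
  have o5 : Ok id W S V' S := .id (inter_subset_left.trans hV) fun _ _ k => k
  have o6 : Ok id B univ W univ := .id sB fun _ _ k => k
  have c1 : ∀ {C}, W ⊆ C → CupOK B univ C S W S := fun k => cupOK_fm k fun y k e => (hB y).2 ⟨k.1, e⟩
  simp only [Function.comp_apply]
  rw [res_cup_out (.id inter_subset_left fun _ _ k => k) (cupOK_fm hV fun y k e => (hB y).2 ⟨k, e⟩),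
    pull_pull' (F := fun y => (K ((L y).1, 0), (L y).2)) o1 (.id inter_subset_left fun _ _ k => k)
      fun _ _ => rfl,
    pull_cup' o3 o4 o3 (fun _ _ _ k => k) (cupOK fun _ _ _ k => k),
    pull_pull' (F := fun y => K ((L y).1, 0)) o4 (.of_mem (.of_continuous continuous_fst _)
      (fun _ k => k.1) fun _ _ _ => ⟨trivial, trivial⟩) fun _ _ => rfl,
    pull_pull' (F := fun y => (L y).2) o3 (.of_mem (.of_continuous continuous_snd _)
      (fun _ _ => mem_univ _) fun _ _ k => ⟨trivial, k⟩) fun _ _ => rfl,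
    ← cup_res_left o6 (c1 subset_rfl), pull_pull' (F := id) o6 (.of_mem eπ mπ fun _ _ _ => trivial)
      (fun y k => by rw [id, z0 y k, e2 y ((hB y).1 k).1]), pull_id, ← cup_res_right o5 (c1 subset_rfl),
    pull_pull' (F := fun y => (L y).2) o5 ok fun _ _ => rfl]

/-- The Thom isomorphism for a subset that is locally a zero section. -/
theorem thom_chartV (hω : Fib d ω) (hU : IsLocallyClosed U) (hc : Cl U S) (hS : S ⊆ U) {τ : H U S}
    (hτ : IsDeg d τ)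
    (h : ∀ y ∈ S, ∃ (A : Type) (_ : TopologicalSpace A) (O : Set (A × F))
      (K : A × F → Y) (L : Y → A × F) (N : Set Y) (z : A), IsOpen O ∧ IsOpen N ∧
      ContinuousOn K O ∧ ContinuousOn L (U ∩ N) ∧ MapsTo K O (U ∩ N) ∧ MapsTo L (U ∩ N) O ∧
      (∀ w ∈ O, L (K w) = w) ∧ (∀ y ∈ U ∩ N, K (L y) = y) ∧ (∀ w ∈ O, K w ∈ S ↔ w.2 = 0) ∧
      (z, 0) ∈ O ∧ K (z, 0) = y ∧ pull (fun v => K (z, v)) {v | (z, v) ∈ O} {0} τ ≠ 0) :
    Function.Bijective fun c : H S univ => cup U S c τ := by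
  refine cup_bij_fm hc hτ fun y hy => ?_
  obtain ⟨A, _, O, K, L, N, z, hO, hN, cK, cL, mK, mL, e1, e2, e3, z0, rfl, h0⟩ := h y hy
  have eL := Ext.of_continuousOn (hU.inter hN.isLocallyClosed) cL
  have ok : Ok (fun y => (L y).2) (U ∩ N) S univ {0} :=
    .of_mem ((Ext.of_continuous continuous_snd univ).comp eL (mapsTo_univ _ _)) (mapsTo_univ _ _)
      fun y k e => e2 y k ▸ (e3 _ (mL k)).2 e
  refine cup_bij_near hN (hω.deg.pull (fun y => (L y).2) _ _) hτ (fun W w1 w2 => ?_)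
    (σ := fun v => K (z, v)) (.of_mem (.of_continuousAt fun v k =>
      (cK.continuousAt (hO.mem_nhds k)).comp (f := fun v => (z, v)) (by fun_prop))
      (fun v k => mK k) fun v k e => (e3 _ k).1 e) z0 hy h0
  have s1 : U ∩ W ⊆ U ∩ N := inter_subset_inter_right _ w2
  exact chart_bijV hω (O := O ∩ K ⁻¹' W) (cK.isOpen_inter_preimage hO w1) (cK.mono inter_subset_left)
    (eL.mono s1) (fun w k => ⟨(mK k.1).1, k.2⟩)
    (fun y k => ⟨mL (s1 k), by rw [mem_preimage, e2 y (s1 k)]; exact k.2⟩) (fun w k => e1 w k.1)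
    (fun y k => e2 y (s1 k)) (fun w k => e3 w k.1) s1 ok
    fun y => ⟨fun k => ⟨⟨hS k.1, k.2⟩, k.1⟩, fun k => ⟨k.2, k.1.2⟩⟩

end Loc

end Pool.Agent.Work.MP_8c604c_gt.T
end
end

-- merged part: Pool.Agent.Work.MP_8c604c_gt.T.OrR
section
/-! The orientation class of `ℝ ^ r`; linear maps act by the sign of the determinant. -/

noncomputable section

set_option linter.unusedSectionVars false

namespace Pool.Agent.Work.MP_8c604c_gt.T

open Set Topology Filter Pool.Agent.Work.MP_849ab0_ag.G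

variable {X Y J J' : Type}

/-- The product of the jump cocycles of a list of real functions. -/
def ocR (w : J → X → ℝ) (L : List J) : List X → ℂ :=
  L.foldr (fun j φ => cupc (jump (w j)) φ) onec

theorem ocR_cons (w : J → X → ℝ) (j : J) (L : List J) :
    ocR w (j :: L) = cupc (jump (w j)) (ocR w L) := rfl

theorem ocR_nil_apply (w : J → X → ℝ) (L : List J) : ocR w L [] = 0 := by
  cases L
  · simp [ocR, onec]
  · rfl

theorem ocR_append (w : J → X → ℝ) (L L' : List J) :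
    ocR w (L ++ L') = cupc (ocR w L) (ocR w L') := by
  induction L with
  | nil => exact (onec_cupc (ocR_nil_apply w L')).symm
  | cons j L ih => rw [List.cons_append, ocR_cons, ocR_cons, ih, cupc_assoc]

theorem ocR_map (w : J → X → ℝ) (e : J' → J) (L : List J') :
    ocR w (L.map e) = ocR (w ∘ e) L := by
  induction L with
  | nil => rfl
  | cons j L ih => rw [List.map_cons, ocR_cons, ocR_cons, ih]; rfl

theorem pullc_ocR (f : X → Y) (w : J → Y → ℝ) (L : List J) :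
    pullc f (ocR w L) = ocR (fun j x => w j (f x)) L := by
  induction L with
  | nil => exact pullc_onec f
  | cons j L ih => rw [ocR_cons, ocR_cons, pullc_cupc, ih, pullc_jump]; rfl

theorem jump_int (c : X → ℝ) (l : List X) : ∃ m : ℤ, jump c l = m := by
  rcases l with _ | ⟨a, _ | ⟨b, _ | ⟨d, l⟩⟩⟩
  · exact ⟨0, by simp [jump]⟩
  · exact ⟨0, by simp [jump]⟩
  · exact ⟨(if 0 < c b then 1 else 0) - if 0 < c a then 1 else 0, by simp [jump]⟩
  · exact ⟨0, by simp [jump]⟩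

theorem ocR_int (w : J → X → ℝ) (L : List J) : ∀ l : List X, ∃ m : ℤ, ocR w L l = m := by
  induction L with
  | nil => exact fun l => ⟨if l.length = 1 then 1 else 0, by simp [ocR, onec]⟩
  | cons j L ih =>
    intro l
    choose a ha using jump_int (w j)
    choose b hb using ih
    refine ⟨∑ i ∈ Finset.range l.length, a (l.take (i + 1)) * b (l.drop i), ?_⟩
    rw [ocR_cons, cupc_apply]
    simp [ha, hb]

variable [TopologicalSpace X] [TopologicalSpace Y] {U Z : Set X} {U' Z' : Set Y}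

theorem hom_ocR (w : J → X → ℝ) (L : List J) : Hom L.length (ocR w L) := by
  induction L with
  | nil => exact hom_onec
  | cons j L ih =>
    rw [ocR_cons, List.length_cons, Nat.cast_succ, add_comm]
    exact (hom_jump (w j)).cupc ih

theorem ocR_zc {w : J → X → ℝ} (hw : ∀ j, ∀ x ∈ U, ContinuousAt (w j) x) (L : List J) :
    ∀ {Z : Set X}, (∀ x ∈ U, (∀ j ∈ L, w j x = 0) → x ∈ Z) → ocR w L ∈ Zc U Z := by
  induction L with
  | nil => exact fun h => onec_zc fun x k => h x k (by simp)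
  | cons j L ih =>
    exact fun h => (cupOK (Z₁ := {x | w j x = 0}) (Z₂ := {x | ∀ j ∈ L, w j x = 0}) fun x k a b =>
      h x k (List.forall_mem_cons.2 ⟨a, b⟩)).zc (jump_zc (hw j) fun _ _ k => k) (ih fun _ _ k => k)

theorem jump_mul_pos {a : ℝ} (ha : 0 < a) (c : X → ℝ) : jump (fun x => a * c x) = jump c := by
  funext l
  rcases l with _ | ⟨x, _ | ⟨y, _ | ⟨d, l⟩⟩⟩ <;> simp [jump, ha]

theorem cls_jump_neg {c : X → ℝ} (hc : ∀ x ∈ U, ContinuousAt c x)
    (h : ∀ x ∈ U, c x = 0 → x ∈ Z) : cls U Z (jump fun x => -c x) = -cls U Z (jump c) := by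
  have hc' : ∀ x ∈ U, ContinuousAt (fun x => -c x) x := fun x k => (hc x k).neg
  have m := jump_zc hc h
  have m' := jump_zc hc' fun x k e => h x k (neg_eq_zero.1 e)
  rw [eq_neg_iff_add_eq_zero, ← cls_add m' m, cls_eq_zero (add_mem m' m)]
  refine ⟨(zc fun x => if 0 < -c x then 1 else 0) + (zc fun x => if 0 < c x then 1 else 0) - onec,
    sub_mem (add_mem (zc_bd _) (zc_bd _)) onec_bd,
    lz_cover (A := U ∩ {x | 0 < c x}) (B := U ∩ {x | c x < 0}) ?_ ?_ fun x k e => ⟨k.1, ?_⟩, ?_⟩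
  · rw [add_sub_assoc]
    exact add_mem (lz_anti (by exact fun x k => ⟨k.1, neg_neg_of_pos (a := c x) k.2⟩)
      (step_lz_neg hc'))
      (step_lz_pos hc)
  · rw [add_sub_right_comm]
    exact add_mem (lz_anti (by exact fun x k => ⟨k.1, (neg_pos (a := c x)).2 k.2⟩)
      (step_lz_pos hc'))
      (step_lz_neg hc)
  · exact lt_of_le_of_ne (not_lt.1 fun a => e ⟨k.1, a⟩) fun a => k.2 (h x k.1 a)
  · rw [map_sub, map_add, dl_onec, ← jump_eq c, ← jump_eq (fun x => -c x)]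
    simp

theorem cls_jump_mul {c : X → ℝ} (hc : ∀ x ∈ U, ContinuousAt c x)
    (h : ∀ x ∈ U, c x = 0 → x ∈ Z) {a : ℝ} (ha : a ≠ 0) :
    cls U Z (jump fun x => a * c x) = (SignType.sign a : ℂ) • cls U Z (jump c) := by
  rcases lt_or_gt_of_ne ha with k | k
  · have : (fun x => a * c x) = fun x => -a * -c x := by funext x; ring
    rw [this, jump_mul_pos (neg_pos.2 k), cls_jump_neg hc h, sign_neg k]
    simp
  · rw [jump_mul_pos k, sign_pos k]
    simp

theorem ocR_scale {w : J → X → ℝ} (hw : ∀ j, ∀ x ∈ U, ContinuousAt (w j) x) {D : J → ℝ}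
    (hD : ∀ j, D j ≠ 0) (L : List J) : ∀ {Z : Set X}, (∀ x ∈ U, (∀ j ∈ L, w j x = 0) → x ∈ Z) →
      cls U Z (ocR (fun j x => D j * w j x) L) =
        (SignType.sign (L.map D).prod : ℂ) • cls U Z (ocR w L) := by
  have hw' : ∀ j, ∀ x ∈ U, ContinuousAt (fun x => D j * w j x) x := fun j x k =>
    continuousAt_const.mul (hw j x k)
  induction L with
  | nil => intro Z _; simp [ocR]
  | cons j L ih =>
    intro Z h
    have c := cupOK (Z₁ := {x | w j x = 0}) (Z₂ := {x | ∀ j ∈ L, w j x = 0}) fun x k a b =>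
      h x k (List.forall_mem_cons.2 ⟨a, b⟩)
    rw [ocR_cons, ocR_cons, ← cup_cls c (jump_zc (hw' j) fun _ _ k => by simpa [hD j] using k)
      (ocR_zc hw' L fun _ _ k i hi => by simpa [hD i] using k i hi),
      ih (Z := {x | ∀ j ∈ L, w j x = 0}) fun _ _ k => k,
      cls_jump_mul (Z := {x | w j x = 0}) (hw j) (fun _ _ k => k) (hD j),
      ← cup_cls c (jump_zc (hw j) fun _ _ k => k) (ocR_zc hw L fun _ _ k => k)]
    simp only [map_smul, LinearMap.smul_apply, smul_smul, List.map_cons, List.prod_cons, sign_mul,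
      SignType.coe_mul, mul_comm]

/-- The orientation class of `ℝ ^ r`. -/
def orR (r : ℕ) : H (univ : Set (Fin r → ℝ)) {0} :=
  cls univ {0} (ocR (fun j v => v j) (List.finRange r))

theorem orR_zc (r : ℕ) : ocR (fun j v => v j) (List.finRange r) ∈
    Zc (univ : Set (Fin r → ℝ)) {0} :=
  ocR_zc (fun j _ _ => (continuous_apply j).continuousAt) _ fun _ _ k =>
    funext fun j => k j (by simp)

theorem isDeg_orR (r : ℕ) : IsDeg r (orR r) :=
  isDeg_cls (orR_zc r) (by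
    have := hom_ocR (fun j (v : Fin r → ℝ) => v j) (List.finRange r)
    rwa [List.length_finRange] at this)

theorem pull_orR {r : ℕ} {F : X → Fin r → ℝ} (hF : ∀ x ∈ U, ContinuousAt F x)
    (h : ∀ x ∈ U, F x = 0 → x ∈ Z) :
    pull F U Z (orR r) = cls U Z (ocR (fun j x => F x j) (List.finRange r)) := by
  have a : Adm F U Z univ {0} := ⟨hF, fun _ _ => trivial, fun x k => ⟨trivial, fun e =>
    k.2 (h x k.1 e)⟩⟩
  rw [orR, a.pull_cls (orR_zc r), pullc_ocR]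

theorem ok_lin {A B : Type} [NormedAddCommGroup A] [NormedSpace ℝ A] [FiniteDimensional ℝ A]
    [NormedAddCommGroup B] [NormedSpace ℝ B] {T : A →ₗ[ℝ] B} (hT : Function.Injective T) :
    Ok T univ {0} univ {0} :=
  .of_mem (.of_continuous T.continuous_of_finiteDimensional _) (fun _ _ => trivial)
    fun _ _ k => hT (k.trans T.map_zero.symm)

theorem orR_mat {r : ℕ} (M : Matrix (Fin r) (Fin r) ℝ) (hM : M.det ≠ 0) :
    pull M.toLin' univ {0} (orR r) = (SignType.sign M.det : ℂ) • orR r := by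
  have inj : ∀ M : Matrix (Fin r) (Fin r) ℝ, M.det ≠ 0 → Function.Injective M.toLin' :=
    fun M h => (injective_iff_map_eq_zero _).2 fun v k => Matrix.eq_zero_of_mulVec_eq_zero h k
  refine Matrix.diagonal_transvection_induction_of_det_ne_zero
    (fun M => pull M.toLin' univ {0} (orR r) = (SignType.sign M.det : ℂ) • orR r) M hM
    (fun D hD => ?_) (fun t => ?_) fun A B hA hB a b => ?_
  · have hD' : ∀ j, D j ≠ 0 := fun j =>
      Finset.prod_ne_zero_iff.1 (Matrix.det_diagonal (d := D) ▸ hD) j (Finset.mem_univ j)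
    rw [pull_orR (fun _ _ => (LinearMap.continuous_of_finiteDimensional _).continuousAt)
      (fun _ => (ok_lin (inj _ hD)).mem), Matrix.det_diagonal, Fin.prod_univ_def, orR,
      ← ocR_scale (Z := {0}) (fun j _ _ => (continuous_apply j).continuousAt) hD' _
        fun _ _ k => funext fun j => k j (by simp)]
    simp [Matrix.mulVec_diagonal]
  · rw [t.det, sign_one, SignType.coe_one, one_smul,
      ← pull_htpy' (f := id) (g := t.toMatrix.toLin') (U := univ) (U' := univ) (Z := {0})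
      (Z' := {0}) (F := fun z => z.1 + z.2 • (Matrix.single t.i t.j t.c).toLin' z.1)
      (.of_continuous (continuous_fst.add (continuous_snd.smul
        ((LinearMap.continuous_of_finiteDimensional _).comp continuous_fst))) _)
      (fun _ _ _ _ => trivial) (fun v _ s _ k => ?_) (by simp)
      (by simp [Matrix.TransvectionStruct.toMatrix, Matrix.transvection]),
      pull_id]
    refine Matrix.eq_zero_of_mulVec_eq_zero (M := Matrix.transvection t.i t.j (s * t.c))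
      (by rw [Matrix.det_transvection_of_ne _ _ t.hij]; exact one_ne_zero) ?_
    rw [Matrix.transvection, Matrix.add_mulVec, Matrix.one_mulVec, ← smul_eq_mul,
      ← Matrix.smul_single, Matrix.smul_mulVec]
    exact k
  · rw [← pull_pull' (F := (A * B).toLin') (ok_lin (inj B hB)) (ok_lin (inj A hA))
      (by simp), a, map_smul, b, smul_smul, Matrix.det_mul, sign_mul, SignType.coe_mul]

variable [RegularSpace X] [SecondCountableTopology X]

theorem ocR_bij {w : J → X → ℝ} (hw : ∀ j, Continuous (w j)) {Φ : J → X × ℝ → X}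
    (hΦ : ∀ j, Continuous (Φ j)) (e0 : ∀ j x, Φ j (x, 0) = x)
    (e1 : ∀ j x t, w j (Φ j (x, t)) = w j x + t) (e1' : ∀ i j x t, i ≠ j → w i (Φ j (x, t)) = w i x)
    (e2 : ∀ j, ∀ x ∈ U, ∀ t, Φ j (x, t) ∈ U) (L : List J) (hL : L.Nodup) :
    ∀ {Z Z₀ Z₁ : Set X}, Cl U Z → (∀ j ∈ L, ∀ x ∈ U, ∀ t, Φ j (x, t) ∈ Z → x ∈ Z) →
      (∀ x ∈ U, x ∈ Z₁ ↔ ∀ j ∈ L, w j x = 0) → (∀ x ∈ U, x ∈ Z₀ ↔ x ∈ Z ∧ x ∈ Z₁) →
      Function.Bijective fun a : H U Z => cup U Z₀ a (cls U Z₁ (ocR w L)) := by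
  have hw' : ∀ j, ∀ x ∈ U, ContinuousAt (w j) x := fun j _ _ => (hw j).continuousAt
  induction L with
  | nil =>
    intro Z Z₀ Z₁ _ _ h1 h2
    have s : U ⊆ Z₁ := fun x k => (h1 x k).2 (by simp)
    convert res_bij_of_eq (U := U) (Z := Z) (Z₁ := Z₀) fun x k => by simp [h2 x k, s k] using 1
    exact funext fun a => cup_one s (cupOK fun x k a b => (h2 x k).2 ⟨a, b⟩)
      (.id subset_rfl fun x k a => (h2 x k).2 ⟨a, s k⟩) a
  | cons j L ih =>
    intro Z Z₀ Z₁ hc h0 h1 h2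
    have b1 := jump_bij_flow (Z₁ := {x | w j x = 0}) (Z₂ := Z ∩ {x | w j x = 0}) (hw j) hc
      (fun _ _ k => k) (fun _ _ k => k) (fun _ _ => Iff.rfl) (hΦ j) (e0 j) (e1 j) (e2 j)
      (h0 j (by simp))
    have b3 := ih hL.of_cons (Z := Z ∩ {x | w j x = 0}) (Z₀ := Z₀) (Z₁ := {x | ∀ j ∈ L, w j x = 0})
      (hc.inter (.of_isClosed (isClosed_eq (hw j) continuous_const) _))
      (fun i hi x k t e => ⟨h0 i (by simp [hi]) x k _ e.1, by
        have := e.2
        rwa [mem_ofPred_eq, e1' j i x t fun a => hL.notMem (a ▸ hi)] at this⟩)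
      (fun _ _ => Iff.rfl) fun x k => by simp [h2 x k, h1 x k, and_assoc]
    convert b3.comp b1 using 1
    funext a
    obtain ⟨φ, m, rfl⟩ := exists_cls a
    have d1 := cupOK (U := U) (Z₁ := Z) (Z₂ := {x | w j x = 0})
      (Z := Z ∩ {x | w j x = 0}) fun _ _ a b => ⟨a, b⟩
    have d3 := cupOK (U := U) (Z₁ := Z ∩ {x | w j x = 0}) (Z₂ := {x | ∀ j ∈ L, w j x = 0}) (Z := Z₀)
      fun x k a b => (h2 x k).2 ⟨a.1, (h1 x k).2 (List.forall_mem_cons.2 ⟨a.2, b⟩)⟩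
    have mj : jump (w j) ∈ Zc U {x | w j x = 0} := jump_zc (hw' j) fun _ _ k => k
    simp only [Function.comp_apply]
    rw [cup_cls d1 m mj,
      cup_cls (cupOK fun x k a b => (h2 x k).2 ⟨a, b⟩) m (ocR_zc hw' _ fun x k => (h1 x k).2),
      cup_cls d3 (d1.zc m mj) (ocR_zc hw' _ fun _ _ k => k), ocR_cons, cupc_assoc]

theorem pull_fst_bijR {A : Type} [NormedAddCommGroup A] [NormedSpace ℝ A]
    [SecondCountableTopology A] : Function.Bijective
    (pull Prod.fst (U ×ˢ (univ : Set A)) (Z ×ˢ univ) : H U Z → _) :=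
  pull_bij_of_section (s := fun y => (y, 0)) (F := fun z => (z.1.1, z.2 • z.1.2))
    (.of_mem (.of_continuous continuous_fst _) (fun _ k => k.1) fun _ _ k => ⟨k, trivial⟩)
    (.of_mem (.of_continuous (by fun_prop) _) (fun _ k => ⟨k, trivial⟩) fun _ _ k => k.1)
    (fun _ _ => rfl) (.of_continuous (by fun_prop) _) (fun _ k _ _ => ⟨k.1, trivial⟩)
    (fun _ _ _ _ k => ⟨k.1, trivial⟩) (by simp) (by simp)

theorem fib_orR (r : ℕ) : Fib r (orR r) := ⟨isDeg_orR r, fun Y _ _ _ U' Z' hc => by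
  rw [pull_orR (Z := univ ×ˢ {0}) (fun _ _ => continuousAt_snd) (fun _ _ k => ⟨trivial, k⟩)]
  refine (ocR_bij (U := U' ×ˢ univ) (w := fun j (z : Y × (Fin r → ℝ)) => z.2 j)
    (fun _ => by fun_prop)
    (Φ := fun j (z : (Y × (Fin r → ℝ)) × ℝ) => (z.1.1, z.1.2 + (Pi.single j z.2 : Fin r → ℝ)))
    (fun j => by
      exact continuous_fst.fst.prodMk (continuous_fst.snd.add
        ((continuous_single (A := fun _ : Fin r => ℝ) j).comp continuous_snd))) (by simp) (by simp)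
    (fun i j x t h => by simp [h]) (fun _ _ k _ => ⟨k.1, trivial⟩) _ (List.nodup_finRange r)
    (Z := Z' ×ˢ univ) ((hc.preimage continuousOn_fst fun _ k => k.1).congr (by simp))
    (fun _ _ _ _ _ k => ⟨k.1, trivial⟩) (by simp [funext_iff]) (by simp)).comp pull_fst_bijR⟩

theorem orR_ne_zero (r : ℕ) : orR r ≠ 0 := (fib_orR r).ne_zero

section Lin

variable {A B : Type} [NormedAddCommGroup A] [NormedSpace ℝ A] [FiniteDimensional ℝ A]
  [NormedAddCommGroup B] [NormedSpace ℝ B] [FiniteDimensional ℝ B]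

theorem Fib.lin {d : ℤ} {ω : H (univ : Set B) {0}} (h : Fib d ω) (e : A ≃ₗ[ℝ] B) :
    Fib d (pull e univ {0} ω) :=
  h.homeo (e' := e.symm) e.toLinearMap.continuous_of_finiteDimensional
    e.symm.toLinearMap.continuous_of_finiteDimensional e.symm_apply_apply e.apply_symm_apply
    e.map_zero

/-- Linear isomorphisms act on the local cohomology by the sign of the determinant. -/
theorem pull_lin {T : A →ₗ[ℝ] A} (hT : Function.Injective T) (a : H (univ : Set A) {0}) :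
    pull T univ {0} a = (SignType.sign (LinearMap.det T) : ℂ) • a := by
  let b := Module.finBasis ℝ A
  obtain ⟨t, rfl⟩ := ((fib_orR _).lin b.equivFun).gen a
  have hM : (LinearMap.toMatrix b b T).det ≠ 0 := by
    rw [LinearMap.det_toMatrix]
    exact ((LinearMap.isUnit_iff_ker_eq_bot T).2 (LinearMap.ker_eq_bot.2 hT)).map
      LinearMap.det |>.ne_zero
  have o1 : Ok b.equivFun univ {0} univ {0} := ok_lin (T := b.equivFun.toLinearMap)
    b.equivFun.injective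
  have o2 : Ok (LinearMap.toMatrix b b T).toLin' univ {0} univ {0} :=
    ok_lin ((injective_iff_map_eq_zero _).2 fun v k => Matrix.eq_zero_of_mulVec_eq_zero hM k)
  rw [map_smul, pull_pull (ok_lin hT) o1, ← pull_pull' o1 o2 (fun v _ => by
    funext i
    simp [← LinearMap.toMatrix_mulVec_repr b b T v]), orR_mat _ hM, map_smul,
    LinearMap.det_toMatrix, smul_comm]

theorem orR_lin {r : ℕ} {T : (Fin r → ℝ) →ₗ[ℝ] Fin r → ℝ} (hT : Function.Injective T) :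
    pull T univ {0} (orR r) = (SignType.sign (LinearMap.det T) : ℂ) • orR r := pull_lin hT _

/-- Local cohomology of a real vector space lives in the degree of its dimension. -/
theorem isDeg_loc (a : H (univ : Set A) {0}) : IsDeg (Module.finrank ℝ A) a := by
  obtain ⟨t, rfl⟩ := ((fib_orR _).lin (Module.finBasis ℝ A).equivFun).gen a
  exact ((isDeg_orR _).pull _ _ _).smul t

/-- Every nonzero local class is a Thom class. -/
theorem fib_of_ne {a : H (univ : Set A) {0}} (h : a ≠ 0) : Fib (Module.finrank ℝ A) a := by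
  have f := (fib_orR _).lin (Module.finBasis ℝ A).equivFun
  obtain ⟨t, rfl⟩ := f.gen a
  exact f.smul fun k => h (by rw [k, zero_smul])

end Lin

end Pool.Agent.Work.MP_8c604c_gt.T
end
end

-- merged part: Pool.Agent.Work.MP_8c604c_gt.T.DegZ
section
/-!
Integral classes: the change of coefficients `cc` from `ℤ` to `ℂ`, and closure properties of `IsZ`.
-/

noncomputable section

set_option linter.unusedSectionVars false

namespace Pool.Agent.Work.MP_8c604c_gt.T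

open Set Topology Pool.Agent.Work.MP_849ab0_ag.G

variable {R : Type} [CommRing R] [Algebra R ℂ] {X Y : Type}

/-- a cochain as a complex cochain -/
def cz : (List X → R) →+ (List X → ℂ) :=
  AddMonoidHom.mk' (fun φ l => algebraMap R ℂ (φ l)) fun _ _ => by funext l; simp

theorem cz_apply (φ : List X → R) (l : List X) : cz φ l = algebraMap R ℂ (φ l) := rfl

theorem cz_dl (φ : List X → R) : cz (TZ.dl φ) = dl (cz φ) := by
  funext l; simp [cz_apply, TZ.dl_apply, dl_apply]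

theorem cz_cupc (φ ψ : List X → R) : cz (TZ.cupc φ ψ) = cupc (cz φ) (cz ψ) := by
  funext l; simp [cz_apply, TZ.cupc_apply, cupc_apply]

theorem cz_pullc (f : X → Y) (φ : List Y → R) : cz (TZ.pullc f φ) = pullc f (cz φ) := rfl

theorem cz_onec : cz (TZ.onec : List X → R) = onec := by
  funext l; simp [cz_apply, TZ.onec, onec]

theorem cz_msk (s : Set ℤ) (φ : List X → R) : cz (TZ.msk s φ) = msk s (cz φ) := by
  funext l
  by_cases h : (l.length : ℤ) - 1 ∈ s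
  · rw [msk_of_mem _ h, cz_apply, TZ.msk_of_mem _ h, cz_apply]
  · rw [msk_of_not_mem _ h, cz_apply, TZ.msk_of_not_mem _ h, map_zero]

theorem cz_jump (c : X → ℝ) : cz (TZ.jump c : List X → R) = jump c := by
  funext l
  rcases l with _ | ⟨a, _ | ⟨b, _ | ⟨d, l⟩⟩⟩ <;> simp [cz_apply, TZ.jump, jump]

theorem cz_oc {J : Type} (w : J → X → ℂ) (L : List J) : cz (TZ.oc w L : List X → R) = oc w L := by
  induction L with
  | nil => exact cz_onec
  | cons j L ih => rw [TZ.oc_cons, oc_cons, cz_cupc, ih, TZ.uc, cz_cupc, cz_jump, cz_jump]; rfl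

variable [FaithfulSMul R ℂ] [TopologicalSpace X] [TopologicalSpace Y]
variable {U Z Z₁ U₁ U₂ Z₂ : Set X} {U' Z' : Set Y} {f : X → Y} {φ ψ : List X → R}

theorem cz_ocR {J : Type} (w : J → X → ℝ) (L : List J) : cz (TZ.ocR w L : List X → R) = ocR w L := by
  induction L with
  | nil => exact cz_onec
  | cons j L ih => rw [TZ.ocR_cons, ocR_cons, cz_cupc, ih, cz_jump]

theorem cz_lz : cz φ ∈ lz U ↔ φ ∈ TZ.lz R U :=
  forall₂_congr fun _ _ => exists_congr fun _ => and_congr_right fun _ =>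
    forall₂_congr fun _ _ => FaithfulSMul.algebraMap_eq_zero_iff R ℂ

theorem cz_bd : cz φ ∈ bd X ↔ φ ∈ TZ.bd R X :=
  and_congr (FaithfulSMul.algebraMap_eq_zero_iff R ℂ) (exists_congr fun _ =>
    forall₂_congr fun _ _ => FaithfulSMul.algebraMap_eq_zero_iff R ℂ)

theorem cz_zc : cz φ ∈ Zc U Z ↔ φ ∈ TZ.Zc R U Z := by
  rw [mem_Zc, TZ.mem_Zc, ← cz_dl, cz_bd, cz_lz, cz_lz]

theorem cls_cz_congr (h1 : φ ∈ TZ.Zc R U Z) (h2 : ψ ∈ TZ.Zc R U Z)
    (h : TZ.cls U Z φ = TZ.cls U Z ψ) : cls U Z (cz φ) = cls U Z (cz ψ) := by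
  obtain ⟨χ, k1, k2, k3⟩ := (TZ.cls_eq_cls h1 h2).1 h
  refine (cls_eq_cls (cz_zc.2 h1) (cz_zc.2 h2)).2 ⟨cz χ, cz_bd.2 k1, cz_lz.2 k2, ?_⟩
  rw [← cz_dl, ← map_sub, ← map_sub]
  exact cz_lz.2 k3

/-- change of coefficients, as a function -/
def cc0 (a : TZ.H R U Z) : H U Z := cls U Z (cz (TZ.exists_cls a).choose)

theorem cc0_cls (h : φ ∈ TZ.Zc R U Z) : cc0 (TZ.cls U Z φ) = cls U Z (cz φ) :=
  have k := (TZ.exists_cls (TZ.cls U Z φ)).choose_spec
  cls_cz_congr k.1 h k.2.symm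

/-- change of coefficients -/
def cc : TZ.H R U Z →+ H U Z :=
  AddMonoidHom.mk' cc0 fun a b => by
    obtain ⟨φ, h1, rfl⟩ := TZ.exists_cls a
    obtain ⟨ψ, h2, rfl⟩ := TZ.exists_cls b
    rw [← TZ.cls_add h1 h2, cc0_cls h1, cc0_cls h2, cc0_cls (add_mem h1 h2), map_add,
      cls_add (cz_zc.2 h1) (cz_zc.2 h2)]

theorem cc_cls (h : φ ∈ TZ.Zc R U Z) : cc (TZ.cls U Z φ) = cls U Z (cz φ) := cc0_cls h

theorem cc_smul (m : R) (a : TZ.H R U Z) : cc (m • a) = algebraMap R ℂ m • cc a := by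
  obtain ⟨φ, h, rfl⟩ := TZ.exists_cls a
  rw [← TZ.cls_smul m h, cc_cls h, cc_cls (Submodule.smul_mem _ m h), ← cls_smul _ (cz_zc.2 h)]
  congr 1
  funext l
  simp [cz_apply]

theorem cc_bij : Function.Bijective (cc : TZ.H ℂ U Z → H U Z) := by
  refine ⟨(injective_iff_map_eq_zero _).2 fun a k => ?_, fun a => ?_⟩
  · obtain ⟨φ, h, rfl⟩ := TZ.exists_cls a
    rw [cc_cls h] at k
    exact (TZ.cls_eq_zero h).2 ((cls_eq_zero (cz_zc.2 h)).1 k)
  · obtain ⟨φ, h, rfl⟩ := exists_cls a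
    exact ⟨_, cc_cls (φ := φ) h⟩

theorem cc_zsmul (m : ℤ) (a : TZ.H ℤ U Z) : cc (m • a) = (m : ℂ) • cc a := cc_smul m a

theorem isZ_iff {a : H U Z} : IsZ a ↔ ∃ b : TZ.H ℤ U Z, cc b = a := by
  constructor
  · rintro ⟨φ, h, rfl, k⟩
    choose ψ k using k
    obtain rfl : φ = cz ψ := funext k
    exact ⟨_, cc_cls (cz_zc.1 h)⟩
  · rintro ⟨b, rfl⟩
    obtain ⟨φ, h, rfl⟩ := TZ.exists_cls b
    exact ⟨_, cz_zc.2 h, cc_cls h, fun l => ⟨_, rfl⟩⟩

theorem isZ_cc (b : TZ.H ℤ U Z) : IsZ (cc b) := isZ_iff.2 ⟨b, rfl⟩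

theorem okZ (h : Ok f U Z U' Z') : TZ.Ok f U Z U' Z' := ⟨h.ext, h.maps, h.supp⟩

theorem okC (h : TZ.Ok f U Z U' Z') : Ok f U Z U' Z' := ⟨h.ext, h.maps, h.supp⟩

theorem cupZ (h : CupOK U₁ Z₁ U₂ Z₂ U Z) : TZ.CupOK U₁ Z₁ U₂ Z₂ U Z := ⟨h.left, h.right, h.supp⟩

theorem cc_pull (f : X → Y) (U Z : Set X) (b : TZ.H R U' Z') :
    cc (TZ.pull f U Z b) = pull f U Z (cc b) := by
  by_cases h : Ok f U Z U' Z'
  · obtain ⟨g, e, k⟩ := ok_iff.1 h
    have k' : TZ.Adm g U Z U' Z' := ⟨k.cont, k.maps, k.supp⟩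
    obtain ⟨φ, m, rfl⟩ := TZ.exists_cls b
    rw [TZ.pull_cls e k' m, cc_cls m, cc_cls (k'.zc m), pull_cls e k (cz_zc.2 m), cz_pullc]
  · rw [pull_of_not_ok h, TZ.pull_of_not_ok fun k => h (okC k)]
    exact map_zero _

theorem cc_cup (U Z : Set X) (a : TZ.H R U₁ Z₁) (b : TZ.H R U₂ Z₂) :
    cc (TZ.cup U Z a b) = cup U Z (cc a) (cc b) := by
  by_cases h : CupOK U₁ Z₁ U₂ Z₂ U Z
  · obtain ⟨φ, m, rfl⟩ := TZ.exists_cls a
    obtain ⟨ψ, m', rfl⟩ := TZ.exists_cls b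
    rw [TZ.cup_cls (cupZ h) m m', cc_cls m, cc_cls m', cc_cls ((cupZ h).zc m m'),
      cup_cls h (cz_zc.2 m) (cz_zc.2 m'), cz_cupc]
  · rw [cup_of_not_ok h, TZ.cup_of_not_ok fun k => h ⟨k.left, k.right, k.supp⟩, map_zero]

theorem cc_dlt (U Z : Set X) (a : TZ.H R U₁ Z₁) : cc (TZ.dlt U Z a) = dlt U Z (cc a) := by
  by_cases h : U \ Z ⊆ U₁
  · obtain ⟨φ, m, rfl⟩ := TZ.exists_cls a
    rw [TZ.dlt_cls h m, cc_cls m, cc_cls (TZ.dl_zc h m), dlt_cls h (cz_zc.2 m), cz_dl]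
  · rw [dlt, TZ.dlt, dif_neg h, dif_neg h]
    exact map_zero _

theorem cc_prj (s : Set ℤ) (a : TZ.H R U Z) : cc (TZ.prj s a) = prj s (cc a) := by
  obtain ⟨φ, m, rfl⟩ := TZ.exists_cls a
  rw [TZ.prj_cls s m, cc_cls m, cc_cls (TZ.msk_zc s m), prj_cls s (cz_zc.2 m), cz_msk]

theorem cc_one : cc (TZ.cls U Z TZ.onec : TZ.H R U Z) = cls U Z onec := by
  by_cases h : TZ.onec ∈ TZ.Zc R U Z
  · rw [cc_cls h, cz_onec]
  · rw [TZ.cls, dif_neg h, cls, dif_neg fun k => h (cz_zc.1 (cz_onec (R := R) ▸ k)), map_zero]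

theorem cc_deg {p : ℤ} {a : TZ.H R U Z} (h : TZ.IsDeg p a) : IsDeg p (cc a) :=
  isDeg_iff.2 (by rw [← cc_prj, TZ.isDeg_iff.1 h])

theorem cc_ev (x : X) (a : TZ.H R U Z) : ev x (cc a) = algebraMap R ℂ (TZ.ev x a) := by
  by_cases h : x ∈ U
  · obtain ⟨φ, m, rfl⟩ := TZ.exists_cls a
    rw [cc_cls m, ev_cls h (cz_zc.2 m), TZ.ev_cls h m, cz_apply]
  · rw [ev, TZ.ev, dif_neg h, dif_neg h]; simp

theorem cc_orR (r : ℕ) : cc (TZ.orR R r) = orR r := by
  rw [TZ.orR_eq, cc_cls (TZ.orR_zc r), cz_ocR]; rfl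

theorem cc_orC (J : Type) [Fintype J] : cc (TZ.orC R J) = orient J := by
  rw [TZ.orient_eq, cc_cls TZ.orient_zc, cz_oc]; rfl

theorem IsZ.exists_deg {p : ℤ} {a : H U Z} (h : IsZ a) (d : IsDeg p a) :
    ∃ b : TZ.H ℤ U Z, TZ.IsDeg p b ∧ cc b = a := by
  obtain ⟨b, rfl⟩ := isZ_iff.1 h
  exact ⟨_, TZ.isDeg_prj p b, by rw [cc_prj, isDeg_iff.1 d]⟩

/-! ### closure properties -/

theorem isZ_zero : IsZ (0 : H U Z) := isZ_iff.2 ⟨0, map_zero _⟩

theorem isZ_one : IsZ (cls U Z onec) := isZ_iff.2 ⟨_, cc_one⟩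

theorem isZ_oneH : IsZ (1 : H U univ) := isZ_one

theorem isZ_orR (r : ℕ) : IsZ (orR r) := isZ_iff.2 ⟨_, cc_orR r⟩

theorem isZ_orient (J : Type) [Fintype J] : IsZ (orient J) := isZ_iff.2 ⟨_, cc_orC J⟩

namespace IsZ

variable {a b : H U Z}

theorem add (h : IsZ a) (k : IsZ b) : IsZ (a + b) := by
  obtain ⟨a, rfl⟩ := isZ_iff.1 h
  obtain ⟨b, rfl⟩ := isZ_iff.1 k
  exact isZ_iff.2 ⟨_, map_add _ _ _⟩

theorem neg (h : IsZ a) : IsZ (-a) := by
  obtain ⟨a, rfl⟩ := isZ_iff.1 h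
  exact isZ_iff.2 ⟨_, map_neg _ _⟩

theorem sub (h : IsZ a) (k : IsZ b) : IsZ (a - b) := by
  rw [sub_eq_add_neg]; exact h.add k.neg

theorem smul (h : IsZ a) (m : ℤ) : IsZ ((m : ℂ) • a) := by
  obtain ⟨a, rfl⟩ := isZ_iff.1 h
  exact isZ_iff.2 ⟨_, cc_zsmul m a⟩

theorem nsmul (h : IsZ a) (m : ℕ) : IsZ ((m : ℂ) • a) := by simpa using h.smul m

theorem sum {ι : Type} (s : Finset ι) {a : ι → H U Z} (h : ∀ i ∈ s, IsZ (a i)) :
    IsZ (∑ i ∈ s, a i) :=
  Finset.sum_induction _ IsZ (fun _ _ => add) isZ_zero h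

theorem pul {a : H U' Z'} (h : IsZ a) (f : X → Y) (U Z : Set X) : IsZ (pull f U Z a) := by
  obtain ⟨a, rfl⟩ := isZ_iff.1 h
  exact isZ_iff.2 ⟨_, cc_pull f U Z a⟩

theorem cp {a : H U₁ Z₁} {b : H U₂ Z₂} (h : IsZ a) (k : IsZ b) (U Z : Set X) :
    IsZ (cup U Z a b) := by
  obtain ⟨a, rfl⟩ := isZ_iff.1 h
  obtain ⟨b, rfl⟩ := isZ_iff.1 k
  exact isZ_iff.2 ⟨_, cc_cup U Z a b⟩

theorem dl {a : H U₁ Z₁} (h : IsZ a) (U Z : Set X) : IsZ (dlt U Z a) := by
  obtain ⟨a, rfl⟩ := isZ_iff.1 h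
  exact isZ_iff.2 ⟨_, cc_dlt U Z a⟩

theorem pr (h : IsZ a) (s : Set ℤ) : IsZ (prj s a) := by
  obtain ⟨a, rfl⟩ := isZ_iff.1 h
  exact isZ_iff.2 ⟨_, cc_prj s a⟩

theorem mul {a b : H U univ} (h : IsZ a) (k : IsZ b) : IsZ (a * b) := h.cp k _ _

theorem pow {a : H U univ} (h : IsZ a) (k : ℕ) : IsZ (a ^ k) := by
  induction k with
  | zero => rw [pow_zero]; exact isZ_oneH
  | succ k ih => rw [pow_succ]; exact ih.mul h

theorem ev_int (h : IsZ a) (x : X) : ∃ m : ℤ, ev x a = m := by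
  obtain ⟨a, rfl⟩ := isZ_iff.1 h
  exact ⟨_, cc_ev x a⟩

end IsZ

end Pool.Agent.Work.MP_8c604c_gt.T
end
end

-- merged part: Pool.Agent.Work.MP_8c604c_gt.T.Deg
section
/-!
Degrees.  `ZB f U Z U' Z'`: the pull-back is bijective for all coefficients.  `Van d U Z`: the
cohomology vanishes in degree `d` for all coefficients.  `Gen d ω`: `ω` generates the integral
classes of degree `d`.
-/

noncomputable section

set_option linter.unusedSectionVars false

namespace Pool.Agent.Work.MP_8c604c_gt.T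

open Set Topology Pool.Agent.Work.MP_849ab0_ag.G

variable {X Y W : Type} [TopologicalSpace X] [TopologicalSpace Y] [TopologicalSpace W]
variable {U Z Z₁ U₁ U₂ Z₂ : Set X} {U' Z' : Set Y} {U'' Z'' : Set W} {f g : X → Y} {f' : Y → W}
variable {d : ℤ}

/-- `f` induces bijections for all coefficient rings -/
structure ZB (f : X → Y) (U Z : Set X) (U' Z' : Set Y) : Prop where
  ok : Ok f U Z U' Z'
  all : ∀ (R : Type) [CommRing R],
    Function.Bijective (TZ.pull f U Z : TZ.H R U' Z' → TZ.H R U Z)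

namespace ZB

theorem bij (h : ZB f U Z U' Z') : Function.Bijective (pull f U Z : H U' Z' → H U Z) := by
  rw [← Function.Bijective.of_comp_iff _ cc_bij]
  convert cc_bij.comp (h.all ℂ) using 1
  exact funext fun a => (cc_pull f U Z a).symm

theorem lift (h : ZB f U Z U' Z') {a : H U Z} (k : IsZ a) : ∃ b : H U' Z', IsZ b ∧ pull f U Z b = a := by
  obtain ⟨a, rfl⟩ := isZ_iff.1 k
  obtain ⟨b, rfl⟩ := (h.all ℤ).2 a
  exact ⟨_, isZ_cc b, (cc_pull f U Z b).symm⟩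

theorem isZ (h : ZB f U Z U' Z') {a : H U' Z'} (k : IsZ (pull f U Z a)) : IsZ a := by
  obtain ⟨b, hb, e⟩ := h.lift k
  exact h.bij.1 e ▸ hb

theorem isDeg (h : ZB f U Z U' Z') {a : H U' Z'} (k : IsDeg d (pull f U Z a)) : IsDeg d a :=
  isDeg_iff.2 (h.bij.1 (by rw [pull_prj, isDeg_iff.1 k]))

theorem comp {F : X → W} (h : ZB f U Z U' Z') (h' : ZB f' U' Z' U'' Z'')
    (e : ∀ x ∈ U, f' (f x) = F x) : ZB F U Z U'' Z'' :=
  ⟨(h'.ok.comp h.ok).congr e, fun R _ => by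
    convert (h.all R).comp (h'.all R) using 1
    exact funext fun a => (TZ.pull_pull' (okZ h.ok) (okZ h'.ok) e a).symm⟩

theorem of_comp_left {F : X → W} (h : ZB f U Z U' Z') (h' : Ok f' U' Z' U'' Z'')
    (k : ZB F U Z U'' Z'') (e : ∀ x ∈ U, f' (f x) = F x) : ZB f' U' Z' U'' Z'' :=
  ⟨h', fun R _ => by
    rw [← Function.Bijective.of_comp_iff' (h.all R)]
    convert k.all R using 1
    exact funext fun a => TZ.pull_pull' (okZ h.ok) (okZ h') e a⟩

theorem of_comp_right {F : X → W} (h : Ok f U Z U' Z') (h' : ZB f' U' Z' U'' Z'')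
    (k : ZB F U Z U'' Z'') (e : ∀ x ∈ U, f' (f x) = F x) : ZB f U Z U' Z' :=
  ⟨h, fun R _ => by
    rw [← Function.Bijective.of_comp_iff _ (h'.all R)]
    convert k.all R using 1
    exact funext fun a => TZ.pull_pull' (okZ h) (okZ h'.ok) e a⟩

theorem congr (h : ZB f U Z U' Z') (e : EqOn f g U) : ZB g U Z U' Z' :=
  ⟨h.ok.congr e, fun R _ => TZ.pull_congr (R := R) (Z := Z) (U' := U') (Z' := Z') e ▸ h.all R⟩

theorem of_inv {s : Y → X} (h : Ok f U Z U' Z') (h' : Ok s U' Z' U Z)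
    (e : ∀ x ∈ U, s (f x) = x) (e' : ∀ y ∈ U', f (s y) = y) : ZB f U Z U' Z' :=
  ⟨h, fun _ _ => TZ.pull_bij_of_inv (okZ h) (okZ h') e e'⟩

theorem of_eq (h : ∀ x ∈ U, x ∈ Z ↔ x ∈ Z₁) : ZB id U Z₁ U Z :=
  ⟨.id subset_rfl fun x k => (h x k).1, fun _ _ => TZ.res_bij_of_eq h⟩

theorem refl : ZB id U Z U Z := of_eq fun _ _ => Iff.rfl

variable [RegularSpace X] [SecondCountableTopology X]

theorem excision (hU : U₁ ⊆ U) (hc : Cl U Z) (hn : ∀ x ∈ U, x ∈ Z → U₁ ∈ 𝓝[U] x)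
    (hZ : ∀ x ∈ U₁, x ∈ Z ↔ x ∈ Z₁) : ZB id U₁ Z₁ U Z :=
  ⟨.id hU fun x k => (hZ x k).1, fun _ _ => TZ.res_excision hU hc hn hZ⟩

theorem excision_open {O : Set X} (hO : IsOpen O) (hc : Cl U Z) (h : ∀ x ∈ U, x ∈ Z → x ∈ O) :
    ZB id (U ∩ O) Z U Z :=
  ⟨.id inter_subset_left fun _ _ k => k, fun _ _ => TZ.res_excision_open hO hc h⟩

theorem excision_univ {O : Set X} (hc : IsClosed Z) (h : ∀ x ∈ Z, O ∈ 𝓝 x) : ZB id O Z univ Z :=
  excision (subset_univ _) (.of_isClosed hc _) (fun x _ k => by rw [nhdsWithin_univ]; exact h x k)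
    fun _ _ => Iff.rfl

theorem retract (hU : U₁ ⊆ U) (hZ : ∀ x ∈ U₁, x ∈ Z ↔ x ∈ Z₁) {F : X × ℝ → X}
    (hF : Ext F (U ×ˢ Icc 0 1)) (h1 : ∀ x ∈ U, ∀ t ∈ Icc (0 : ℝ) 1, F (x, t) ∈ U)
    (h2 : ∀ x ∈ U₁, ∀ t ∈ Icc (0 : ℝ) 1, F (x, t) ∈ U₁)
    (h3 : ∀ x ∈ U, ∀ t ∈ Icc (0 : ℝ) 1, F (x, t) ∈ Z → x ∈ Z) (e0 : ∀ x ∈ U, F (x, 0) = x)
    (e1 : ∀ x ∈ U, F (x, 1) ∈ U₁) : ZB id U₁ Z₁ U Z :=
  ⟨.id hU fun x k => (hZ x k).1, fun _ _ => TZ.res_bij_of_retract hU hZ hF h1 h2 h3 e0 e1⟩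

theorem of_section {s : Y → X} (h : Ok f U Z U' Z') (h' : Ok s U' Z' U Z)
    (e : ∀ y ∈ U', f (s y) = y) {F : X × ℝ → X} (hF : Ext F (U ×ˢ Icc 0 1))
    (h1 : ∀ x ∈ U, ∀ t ∈ Icc (0 : ℝ) 1, F (x, t) ∈ U)
    (h3 : ∀ x ∈ U, ∀ t ∈ Icc (0 : ℝ) 1, F (x, t) ∈ Z → x ∈ Z) (e0 : ∀ x ∈ U, F (x, 0) = s (f x))
    (e1 : ∀ x ∈ U, F (x, 1) = x) : ZB f U Z U' Z' :=
  ⟨h, fun _ _ => TZ.pull_bij_of_section (okZ h) (okZ h') e hF h1 h3 e0 e1⟩

theorem htpy (h : ZB f U Z U' Z') (k : Ok g U Z U' Z') {F : X × ℝ → Y} (hF : Ext F (U ×ˢ Icc 0 1))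
    (h1 : ∀ x ∈ U, ∀ t ∈ Icc (0 : ℝ) 1, F (x, t) ∈ U')
    (h2 : ∀ x ∈ U, ∀ t ∈ Icc (0 : ℝ) 1, F (x, t) ∈ Z' → x ∈ Z) (e0 : ∀ x ∈ U, F (x, 0) = f x)
    (e1 : ∀ x ∈ U, F (x, 1) = g x) : ZB g U Z U' Z' :=
  ⟨k, fun R _ => TZ.pull_htpy' (R := R) hF h1 h2 e0 e1 ▸ h.all R⟩

end ZB

/-! ### vanishing -/

/-- no cohomology in degree `d`, for all coefficient rings -/
def Van (d : ℤ) (U Z : Set X) : Prop :=
  ∀ (R : Type) [CommRing R] (b : TZ.H R U Z), TZ.IsDeg d b → b = 0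

theorem Van.eq_zero (h : Van d U Z) {a : H U Z} (k : IsDeg d a) : a = 0 := by
  obtain ⟨b, rfl⟩ := cc_bij.2 a
  rw [← isDeg_iff.1 k, ← cc_prj, h ℂ _ (TZ.isDeg_prj d b), map_zero]

theorem Van.pul (h : Van d U' Z') (k : ZB f U Z U' Z') : Van d U Z := fun R _ b hb => by
  obtain ⟨a, rfl⟩ := (k.all R).2 b
  rw [← TZ.isDeg_iff.1 hb, ← TZ.pull_prj, h R _ (TZ.isDeg_prj d a), map_zero]

theorem Van.of_pul (h : Van d U Z) (k : ZB f U Z U' Z') : Van d U' Z' := fun R _ b hb =>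
  (k.all R).1 (by rw [h R _ (hb.pull f U Z), map_zero])

/-- a retract -/
theorem Van.of_sec {s : Y → X} (h : Van d U Z) (k : Ok f U Z U' Z') (k' : Ok s U' Z' U Z)
    (e : ∀ y ∈ U', f (s y) = y) : Van d U' Z' := fun R _ b hb => by
  rw [← TZ.pull_id b, ← TZ.pull_pull' (F := id) (okZ k') (okZ k) e, h R _ (hb.pull f U Z), map_zero]

theorem van_neg (h : d < 0) : Van d U Z := fun _ _ _ hb => hb.eq_zero_of_neg h

theorem van_disjoint (h : Disjoint U Z) : Van d U Z := fun _ _ _ _ =>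
  (TZ.subsingleton_H h).elim _ _

theorem van_of_acy (h : ∀ (R : Type) [CommRing R], TZ.Acy R U) (hd : d ≠ 0) : Van d U univ :=
  fun R _ b hb => by
    obtain ⟨t, rfl⟩ := (h R).2 b
    exact hb.eq_zero_of_ne (TZ.isDeg_one.smul t) hd

theorem van_singleton (x : X) (hd : d ≠ 0) : Van d {x} univ :=
  van_of_acy (fun _ _ => TZ.acy_singleton x) hd

section LES

variable (h1 : U \ Z₁ = U₂) (h2 : U₂ \ Z₂ = U \ Z)
include h1 h2

theorem Van.mid (a : Van d U Z₁) (b : Van d U₂ Z₂) : Van d U Z := fun R _ x hx => by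
  obtain ⟨y, rfl⟩ := (TZ.exact_supp_res h1 h2 x).1 (b R _ (hx.pull _ _ _))
  rw [← TZ.isDeg_iff.1 hx, ← TZ.pull_prj, a R _ (TZ.isDeg_prj d y), map_zero]

theorem Van.res (a : Van d U Z) (b : Van (d + 1) U Z₁) : Van d U₂ Z₂ := fun R _ x hx => by
  obtain ⟨y, rfl⟩ := (TZ.exact_res_dlt h1 h2 x).1 (b R _ (hx.dlt _ _))
  rw [← TZ.isDeg_iff.1 hx, ← TZ.pull_prj, a R _ (TZ.isDeg_prj d y), map_zero]

theorem Van.supp (a : Van (d - 1) U₂ Z₂) (b : Van d U Z) : Van d U Z₁ := fun R _ x hx => by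
  obtain ⟨y, rfl⟩ := (TZ.exact_dlt_supp h1 h2 x).1 (b R _ (hx.pull _ _ _))
  rw [← TZ.isDeg_iff.1 hx, ← TZ.dlt_prj (s := {d - 1}) (fun p => by simp only [mem_singleton_iff]; omega),
    a R _ (TZ.isDeg_prj _ y), map_zero]

/-- integral classes lift to integral classes with smaller support -/
theorem Van.lift (h : Van d U₂ Z₂) {a : H U Z} (k : IsZ a) (k' : IsDeg d a) :
    ∃ c : H U Z₁, IsZ c ∧ IsDeg d c ∧ pull id U Z c = a := by
  obtain ⟨b, hb, rfl⟩ := k.exists_deg k'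
  obtain ⟨y, rfl⟩ := (TZ.exact_supp_res h1 h2 b).1 (h ℤ _ (hb.pull _ _ _))
  exact ⟨_, isZ_cc _, cc_deg (TZ.isDeg_prj d y), by
    rw [← cc_pull, TZ.pull_prj, TZ.isDeg_iff.1 hb]⟩

theorem supp_inj (h : ∀ b : H U₂ Z₂, IsDeg (d - 1) b → b = 0) {a : H U Z₁} (k : IsDeg d a)
    (e : pull id U Z a = 0) : a = 0 := by
  obtain ⟨y, rfl⟩ := (exact_dlt_supp h1 h2 a).1 e
  rw [← isDeg_iff.1 k, ← dlt_prj (s := {d - 1}) (fun p => by simp only [mem_singleton_iff]; omega),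
    h _ (isDeg_prj _ y), map_zero]

theorem supp_surj (h : ∀ b : H U₂ Z₂, IsDeg d b → b = 0) {a : H U Z} (k : IsDeg d a) :
    ∃ c : H U Z₁, IsDeg d c ∧ pull id U Z c = a := by
  obtain ⟨y, rfl⟩ := (exact_supp_res h1 h2 a).1 (h _ (k.pull _ _ _))
  exact ⟨_, isDeg_prj d y, by rw [pull_prj, isDeg_iff.1 k]⟩

end LES

theorem diff_diff_supp (h : ∀ x ∈ U, x ∈ Z₁ → x ∈ Z) : (U \ Z₁) \ Z = U \ Z :=
  Subset.antisymm (fun _ k => ⟨k.1.1, k.2⟩) fun x k => ⟨⟨k.1, fun e => k.2 (h x k.1 e)⟩, k.2⟩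

theorem ZB.supp (h : ∀ x ∈ U, x ∈ Z₁ → x ∈ Z) (k : ZB id (U \ Z) univ (U \ Z₁) univ) :
    ZB id U Z U Z₁ :=
  ⟨.id subset_rfl h, fun R _ => by
    have e := diff_diff_supp h
    have : Subsingleton (TZ.H R (U \ Z₁) Z) := TZ.subsingleton_of_res_bij (by
      rw [e]; exact k.all R)
    exact TZ.supp_bij_of_subsingleton fun x k => ⟨k.1, fun e => k.2 (h x k.1 e)⟩⟩

section Reg

variable [RegularSpace X] [SecondCountableTopology X]

/-- contractible sets -/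
theorem van_contr {F : X × ℝ → X} (hF : Ext F (U ×ˢ Icc 0 1))
    (h1 : ∀ x ∈ U, ∀ t ∈ Icc (0 : ℝ) 1, F (x, t) ∈ U) {x₀ : X} (hx : x₀ ∈ U)
    (e0 : ∀ x ∈ U, F (x, 0) = x₀) (e1 : ∀ x ∈ U, F (x, 1) = x) (hd : d ≠ 0) : Van d U univ :=
  (van_singleton () hd).pul (ZB.of_section (f := fun _ => ()) (s := fun _ => x₀)
    (.of_mem (.of_continuous continuous_const _) (fun _ _ => rfl) fun _ _ _ => trivial)
    (.of_mem (.of_continuous continuous_const _) (fun _ _ => hx) fun _ _ _ => trivial)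
    (fun _ _ => rfl) hF h1 (fun _ _ _ _ _ => trivial) e0 e1)

/-- Mayer-Vietoris -/
theorem Van.union {A B : Set X} (hA : IsOpen A) (hB : IsOpen B) (h : ∀ x ∈ U, x ∈ A ∨ x ∈ B)
    (a : Van d (U ∩ A) univ) (b : Van d (U ∩ B) univ) (c : Van (d - 1) (U ∩ A ∩ B) univ) :
    Van d U univ :=
  Van.mid (Z₁ := Bᶜ) (Z₂ := univ) Set.sdiff_compl (by simp)
    ((Van.supp (Z₁ := Bᶜ) (Z₂ := univ) Set.sdiff_compl (by simp) c a).of_pul (.excision_open hA
      (.of_isClosed hB.isClosed_compl _) fun x k e => (h x k).resolve_right e)) b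

/-- disjoint unions -/
theorem Van.disj {A B : Set X} (hA : IsOpen A) (hB : IsOpen B) (h : ∀ x ∈ U, x ∈ A ∨ x ∈ B)
    (h' : ∀ x ∈ U, x ∈ A → x ∉ B) (a : Van d (U ∩ A) univ) (b : Van d (U ∩ B) univ) :
    Van d U univ :=
  a.union hA hB h b (van_disjoint (Set.disjoint_left.2 fun x k _ => h' x k.1.1 k.1.2 k.2))

end Reg

/-! ### generators -/

/-- `ω` generates the integral classes of degree `d` -/
structure Gen (d : ℤ) (ω : H U Z) : Prop where
  isZ : IsZ ω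
  deg : IsDeg d ω
  ne : ω ≠ 0
  int : ∀ a : H U Z, IsZ a → IsDeg d a → ∃ m : ℤ, a = (m : ℂ) • ω
  span : ∀ a : H U Z, IsDeg d a → ∃ t : ℂ, a = t • ω

namespace Gen

theorem pul {ω : H U' Z'} (h : Gen d ω) (k : ZB f U Z U' Z') : Gen d (pull f U Z ω) where
  isZ := h.isZ.pul _ _ _
  deg := h.deg.pull _ _ _
  ne e := h.ne (k.bij.1 (e.trans (map_zero _).symm))
  int a ha hd := by
    obtain ⟨b, hb, rfl⟩ := k.lift ha
    obtain ⟨m, rfl⟩ := h.int b hb (k.isDeg hd)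
    exact ⟨m, map_smul _ _ _⟩
  span a hd := by
    obtain ⟨b, rfl⟩ := k.bij.2 a
    obtain ⟨m, rfl⟩ := h.span b (k.isDeg hd)
    exact ⟨m, map_smul _ _ _⟩

theorem of_pul {ω : H U' Z'} (h : Gen d (pull f U Z ω)) (k : ZB f U Z U' Z') : Gen d ω where
  isZ := k.isZ h.isZ
  deg := k.isDeg h.deg
  ne e := h.ne (by rw [e, map_zero])
  int a ha hd := (h.int _ (ha.pul _ _ _) (hd.pull _ _ _)).imp fun _ e =>
    k.bij.1 (e.trans (map_smul _ _ _).symm)
  span a hd := (h.span _ (hd.pull _ _ _)).imp fun _ e => k.bij.1 (e.trans (map_smul _ _ _).symm)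

theorem exists_pul {ω : H U Z} (h : Gen d ω) (k : ZB f U Z U' Z') :
    ∃ ω' : H U' Z', Gen d ω' ∧ pull f U Z ω' = ω := by
  obtain ⟨b, rfl⟩ := k.bij.2 ω
  exact ⟨b, h.of_pul k, rfl⟩

variable {ω ω' : H U Z}

theorem neg (h : Gen d ω) : Gen d (-ω) where
  isZ := h.isZ.neg
  deg := h.deg.neg
  ne := neg_ne_zero.2 h.ne
  int a ha hd := by
    obtain ⟨m, rfl⟩ := h.int a ha hd
    exact ⟨-m, by simp⟩
  span a hd := by
    obtain ⟨m, rfl⟩ := h.span a hd
    exact ⟨-m, by simp⟩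

theorem smul_inj (h : Gen d ω) {s t : ℂ} (e : s • ω = t • ω) : s = t :=
  smul_left_injective ℂ h.ne e

/-- generators are unique up to sign -/
theorem eq_or (h : Gen d ω) (h' : Gen d ω') : ω' = ω ∨ ω' = -ω := by
  obtain ⟨m, e⟩ := h.int _ h'.isZ h'.deg
  obtain ⟨m', e'⟩ := h'.int _ h.isZ h.deg
  have : ((m' * m : ℤ) : ℂ) = (1 : ℤ) := h.smul_inj (by
    rw [Int.cast_mul, mul_smul, ← e, ← e', Int.cast_one, one_smul])
  rcases Int.eq_one_or_neg_one_of_mul_eq_one' (Int.cast_injective this) with k | k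
  · left; rw [e, k.2]; simp
  · right; rw [e, k.2]; simp

theorem eq_sign (h : Gen d ω) (h' : Gen d ω') : ∃ ε : ℤ, (ε = 1 ∨ ε = -1) ∧ ω' = (ε : ℂ) • ω := by
  rcases h.eq_or h' with k | k
  · exact ⟨1, .inl rfl, by simpa using k⟩
  · exact ⟨-1, .inr rfl, by simpa using k⟩

section LES

variable (h1 : U \ Z₁ = U₂) (h2 : U₂ \ Z₂ = U \ Z) {ω : H U Z₁}
include h1 h2

/-- enlarging the support -/
theorem supp (h : Gen d ω) (v : Van d U₂ Z₂) (ne : pull id U Z ω ≠ 0) :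
    Gen d (pull id U Z ω) where
  isZ := h.isZ.pul _ _ _
  deg := h.deg.pull _ _ _
  ne := ne
  int a ha hd := by
    obtain ⟨c, c1, c2, rfl⟩ := v.lift h1 h2 ha hd
    obtain ⟨m, rfl⟩ := h.int c c1 c2
    exact ⟨m, map_smul _ _ _⟩
  span a hd := by
    obtain ⟨c, c2, rfl⟩ := supp_surj h1 h2 (fun _ => v.eq_zero) hd
    obtain ⟨m, rfl⟩ := h.span c c2
    exact ⟨m, map_smul _ _ _⟩

theorem supp_ne (h : Gen d ω) (v : ∀ b : H U₂ Z₂, IsDeg (d - 1) b → b = 0) : pull id U Z ω ≠ 0 :=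
  fun e => h.ne (supp_inj h1 h2 v h.deg e)

theorem supp' (h : Gen d ω) (v : Van d U₂ Z₂) (v' : Van (d - 1) U₂ Z₂) : Gen d (pull id U Z ω) :=
  h.supp h1 h2 v (h.supp_ne h1 h2 fun _ => v'.eq_zero)

/-- shrinking the support -/
theorem of_supp (h : Gen d (pull id U Z ω)) (hZ : IsZ ω) (hd : IsDeg d ω)
    (v : ∀ b : H U₂ Z₂, IsDeg (d - 1) b → b = 0) : Gen d ω where
  isZ := hZ
  deg := hd
  ne e := h.ne (by rw [e, map_zero])
  int a ha k := (h.int _ (ha.pul _ _ _) (k.pull _ _ _)).imp fun m e => sub_eq_zero.1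
    (supp_inj h1 h2 v (k.sub (hd.smul _)) (by rw [map_sub, map_smul, e, sub_self]))
  span a k := (h.span _ (k.pull _ _ _)).imp fun m e => sub_eq_zero.1
    (supp_inj h1 h2 v (k.sub (hd.smul _)) (by rw [map_sub, map_smul, e, sub_self]))

end LES

end Gen

theorem gen_of_fib {F : Type} [TopologicalSpace F] [Zero F] {ω : TZ.H ℤ (univ : Set F) {0}}
    (h : TZ.Fib d ω) (h' : Fib d (cc ω)) : Gen d (cc ω) where
  isZ := isZ_cc ω
  deg := h'.deg
  ne := h'.ne_zero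
  int a ha _ := by
    obtain ⟨b, rfl⟩ := isZ_iff.1 ha
    obtain ⟨m, rfl⟩ := h.gen b
    exact ⟨m, cc_zsmul m ω⟩
  span a _ := h'.gen a

theorem gen_orR (r : ℕ) : Gen r (orR r) :=
  cc_orR (R := ℤ) r ▸ gen_of_fib (TZ.fib_orR r) (by rw [cc_orR]; exact fib_orR r)

theorem gen_orient (J : Type) [Fintype J] : Gen (2 * Fintype.card J) (orient J) :=
  cc_orC (R := ℤ) J ▸ gen_of_fib (TZ.fib_orient J) (by rw [cc_orC]; exact fib_orient J)

/-! ### vector spaces -/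

section Lin

variable {A B : Type} [NormedAddCommGroup A] [NormedSpace ℝ A] [FiniteDimensional ℝ A]
  [NormedAddCommGroup B] [NormedSpace ℝ B] [FiniteDimensional ℝ B] {K O : Set A} {p : A}
  {ω : H (univ : Set A) {0}}

theorem zb_lin (e : A ≃ₗ[ℝ] B) : ZB e univ {0} univ {0} :=
  .of_inv (ok_lin (T := e.toLinearMap) e.injective) (ok_lin (T := e.symm.toLinearMap) e.symm.injective)
    (fun x _ => e.symm_apply_apply x) fun x _ => e.apply_symm_apply x

theorem exists_gen (A : Type) [NormedAddCommGroup A] [NormedSpace ℝ A] [FiniteDimensional ℝ A] :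
    ∃ ω : H (univ : Set A) {0}, Gen (Module.finrank ℝ A) ω :=
  ⟨_, (gen_orR _).pul (zb_lin (Module.finBasis ℝ A).equivFun)⟩

theorem Gen.dim (h : Gen d ω) : d = Module.finrank ℝ A :=
  by_contra fun k => h.ne (h.deg.eq_zero_of_ne (isDeg_loc ω) k)

theorem van_loc (h : d ≠ Module.finrank ℝ A) : Van d (univ : Set A) {0} := fun _ _ b hb =>
  hb.eq_zero_of_ne (TZ.isDeg_loc b) h

theorem zb_sub (p : A) : ZB (fun x => x - p) univ {p} univ {0} :=
  .of_inv (s := fun x => x + p)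
    (.of_mem (.of_continuous (by fun_prop) _) (fun _ _ => trivial) fun _ _ k => sub_eq_zero.1 k)
    (.of_mem (.of_continuous (by fun_prop) _) (fun _ _ => trivial) fun _ _ k => by simpa using k)
    (by simp) (by simp)

/-- the local group at a point -/
theorem zb_loc (hO : O ∈ 𝓝 p) : ZB (fun x => x - p) O {p} univ {0} :=
  have := FiniteDimensional.proper_real A
  (ZB.excision_univ isClosed_singleton fun _ k => k ▸ hO).comp (zb_sub p) fun _ _ => rfl

theorem zb_out {r : ℝ} (h0 : 0 ∈ K) (hs : ∀ x ∈ K, ∀ t ∈ Icc (0 : ℝ) 1, t • x ∈ K)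
    (hr : ∀ x ∈ K, ‖x‖ < r) : ZB id {x | r ≤ ‖x‖} univ (univ \ K) univ := by
  have := FiniteDimensional.proper_real A
  have r0 : 0 < r := by simpa using hr 0 h0
  have ne : ∀ x ∈ univ \ K, 0 < ‖x‖ := fun x k => norm_pos_iff.2 fun e => k.2 (e ▸ h0)
  have one : ∀ x : A, ∀ t ∈ Icc (0 : ℝ) 1, 1 ≤ 1 + t * (r / ‖x‖) := fun x t ht =>
    le_add_of_nonneg_right (mul_nonneg ht.1 (by positivity))
  refine .retract (fun x k => ⟨trivial, fun e => (hr x e).not_ge k⟩) (fun _ _ => Iff.rfl)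
    (F := fun z => (1 + z.2 * (r / ‖z.1‖)) • z.1) (.of_continuousAt fun z k => ?_)
    (fun x k t ht => ⟨trivial, fun e => k.2 ?_⟩) (fun x k t ht => ?_) (fun _ _ _ _ _ => trivial)
    (by simp) fun x k => ?_
  · have := (ne _ k.1).ne'
    fun_prop (disch := assumption)
  · have h1 := one x t ht
    have := hs _ e (1 + t * (r / ‖x‖))⁻¹ ⟨by positivity, inv_le_one_of_one_le₀ h1⟩
    rwa [smul_smul, inv_mul_cancel₀ (by positivity), one_smul] at this
  · have h1 := one x t ht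
    change r ≤ ‖_ • x‖
    rw [norm_smul, Real.norm_of_nonneg (by positivity)]
    exact le_trans k (le_mul_of_one_le_left (norm_nonneg _) h1)
  · have := ne x k
    change r ≤ ‖_ • x‖
    rw [norm_smul, Real.norm_of_nonneg (by positivity), one_mul, add_mul, div_mul_cancel₀ _ this.ne']
    linarith

/-- bounded star-shaped supports -/
theorem zb_star (h0 : 0 ∈ K) (hs : ∀ x ∈ K, ∀ t ∈ Icc (0 : ℝ) 1, t • x ∈ K)
    (hb : Bornology.IsBounded K) : ZB id univ K univ {0} := by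
  obtain ⟨r, hr⟩ := hb.subset_ball 0
  have hr' : ∀ x ∈ K, ‖x‖ < r := fun x k => by simpa using hr k
  refine .supp (fun x _ k => k ▸ h0) (.of_comp_left (zb_out h0 hs hr')
    (.id (fun x k => ⟨trivial, fun e => k.2 (e ▸ h0)⟩) fun _ _ _ => trivial)
    (zb_out (K := {0}) rfl (by simp) (by simpa using hr' 0 h0)) fun _ _ => rfl)

theorem zb_star' (h0 : 0 ∈ K) (hs : ∀ x ∈ K, ∀ t ∈ Icc (0 : ℝ) 1, t • x ∈ K)
    (hK : IsCompact K) (hO : ∀ x ∈ K, O ∈ 𝓝 x) : ZB id O K univ {0} :=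
  have := FiniteDimensional.proper_real A
  (ZB.excision_univ hK.isClosed hO).comp (zb_star h0 hs hK.isBounded) fun _ _ => rfl

theorem zb_convex (h0 : 0 ∈ K) (hs : Convex ℝ K) (hK : IsCompact K) (hO : IsOpen O) (h : K ⊆ O) :
    ZB id O K univ {0} :=
  zb_star' h0 (fun _ k _ ht => hs.smul_mem_of_zero_mem h0 k ht) hK fun _ k => hO.mem_nhds (h k)

/-- moving the point -/
theorem pull_sub (h : ∀ t ∈ Icc (0 : ℝ) 1, t • p ∈ K) (ω : H (univ : Set A) {0}) :
    pull (fun x => x - p) O K ω = pull id O K ω := by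
  have := FiniteDimensional.proper_real A
  rw [pull_htpy' (f := id) (g := fun x => x - p) (F := fun z => z.1 - z.2 • p) (U' := univ)
    (Z' := {0}) (.of_continuous (by fun_prop) _) (fun _ _ _ _ => trivial)
    (fun x _ t ht k => (sub_eq_zero.1 k : x = t • p) ▸ h t ht) (by simp) (by simp)]

/-- local homeomorphisms have degree `1` or `-1` -/
theorem zb_homeo [RegularSpace X] [SecondCountableTopology X] {χ : X → A} {ψ : A → X}
    (hU : IsLocallyClosed U) (hO : IsOpen O) (c1 : ContinuousOn χ U) (c2 : ContinuousOn ψ O)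
    (m1 : MapsTo χ U O) (m2 : MapsTo ψ O U) (e1 : ∀ x ∈ U, ψ (χ x) = x) (e2 : ∀ v ∈ O, χ (ψ v) = v)
    (hZ : ∀ x ∈ U, x ∈ Z ↔ χ x ∈ K) : ZB χ U Z O K :=
  have := FiniteDimensional.proper_real A
  .of_inv (ok_of hU c1 m1 fun x k => (hZ x k).2)
    (ok_of hO.isLocallyClosed c2 m2 fun v k e => e2 v k ▸ (hZ _ (m2 k)).1 e) e1 e2

/-- near a regular point a map is homotopic to its derivative -/
theorem pull_deriv {F : A → B} {L : A →L[ℝ] B} (hO : IsOpen O)
    (hF : ContinuousOn F O) (hd : HasFDerivAt F L p) (hL : Function.Injective L)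
    (hz : ∀ x ∈ O, F x = F p → x = p) (ω : H (univ : Set B) {0}) :
    pull (fun x => F x - F p) O {p} ω = pull (fun x => L (x - p)) O {p} ω := by
  have := FiniteDimensional.proper_real A
  obtain ⟨c, c0, hc⟩ := (L : A →ₗ[ℝ] B).exists_antilipschitzWith (LinearMap.ker_eq_bot.2 hL)
  have c0' : (0 : ℝ) < c := c0
  obtain ⟨V, hV, V1, V2⟩ := mem_nhds_iff.1
    (hd.isLittleO.def (c := (2 * c)⁻¹) (by positivity))
  have o1 : Ok (fun x => F x - F p) O {p} univ {0} :=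
    ok_of hO.isLocallyClosed (hF.sub continuousOn_const) (fun _ _ => trivial)
      fun x k e => hz x k (sub_eq_zero.1 e)
  have o2 : Ok (fun x => L (x - p)) O {p} univ {0} :=
    .of_mem (.of_continuous (by fun_prop) _) (fun _ _ => trivial)
      fun x _ e => sub_eq_zero.1 (hL (e.trans L.map_zero.symm))
  have z := ZB.excision_open (U := O) V1 (.of_isClosed isClosed_singleton _) fun _ _ k => k ▸ V2
  refine z.bij.1 ?_
  rw [pull_pull' (F := fun x => F x - F p) z.ok o1 fun _ _ => rfl,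
    pull_pull' (F := fun x => L (x - p)) z.ok o2 fun _ _ => rfl,
    pull_htpy' (f := fun x => L (x - p)) (g := fun x => F x - F p) (U' := univ) (Z' := {0})
      (F := fun z => L (z.1 - p) + z.2 • (F z.1 - F p - L (z.1 - p)))
      (ext_htpy (hO.inter V1).isLocallyClosed ?_) (fun _ _ _ _ => trivial) (fun x k t ht e => ?_)
      (by simp) (by simp)]
  · have : ContinuousOn (fun z : A × ℝ => F z.1) ((O ∩ V) ×ˢ Icc 0 1) :=
      hF.comp continuousOn_fst fun _ k => k.1.1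
    have c : Continuous fun z : A × ℝ => L (z.1 - p) := by fun_prop
    exact c.continuousOn.add (continuousOn_snd.smul ((this.sub continuousOn_const).sub c.continuousOn))
  · have h1 : ‖F x - F p - L (x - p)‖ ≤ (2 * (c : ℝ))⁻¹ * ‖x - p‖ := hV k.2
    have h2 : ‖x - p‖ ≤ c * ‖L (x - p)‖ := hc.le_mul_norm (L : A →ₗ[ℝ] B).map_zero _
    have h3 : ‖L (x - p)‖ ≤ ‖F x - F p - L (x - p)‖ := by
      rw [eq_neg_of_add_eq_zero_left e, norm_neg, norm_smul, Real.norm_of_nonneg ht.1,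
        ← eq_neg_of_add_eq_zero_left e]
      exact mul_le_of_le_one_left (norm_nonneg _) ht.2
    have h4 : (c : ℝ) * ((2 * (c : ℝ))⁻¹ * ‖x - p‖) = ‖x - p‖ / 2 := by field_simp
    have h5 := mul_le_mul_of_nonneg_left (h3.trans h1) c0'.le
    exact sub_eq_zero.1 (norm_le_zero_iff.1 (by linarith))

/-- the local degree is the sign of the determinant -/
theorem pull_deriv_det {F : A → B} {L : A →L[ℝ] B} (hO : IsOpen O)
    (hF : ContinuousOn F O) (hd : HasFDerivAt F L p) (hL : Function.Injective L)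
    (hz : ∀ x ∈ O, F x = F p → x = p) (e : B ≃L[ℝ] A) (ω : H (univ : Set B) {0}) :
    pull (fun x => F x - F p) O {p} ω = (SignType.sign (L.comp (e : B →L[ℝ] A)).det : ℂ) •
      pull (fun x => e.symm (x - p)) O {p} ω := by
  have inj : Function.Injective (L.comp (e : B →L[ℝ] A) : B →ₗ[ℝ] B) := hL.comp e.injective
  have o : Ok (fun x => e.symm (x - p)) O {p} univ {0} :=
    .of_mem (.of_continuous (by fun_prop) _) (fun _ _ => trivial)
      fun x _ k => sub_eq_zero.1 (e.symm.map_eq_zero_iff.1 k)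
  rw [pull_deriv hO hF hd hL hz, ← map_smul, ContinuousLinearMap.det, ← pull_lin inj,
    pull_pull' (F := fun x => L (x - p)) o (ok_lin inj) fun x _ => by simp]

end Lin

/-- integral classes with compact convex support -/
theorem isZ_int {J : Type} [Fintype J] {K O : Set (J → ℂ)} (h0 : 0 ∈ K) (hs : Convex ℝ K)
    (hK : IsCompact K) (hO : IsOpen O) (h : K ⊆ O) {c : H O K} (hc : IsZ c)
    (hd : IsDeg (2 * Fintype.card J) c) : ∃ k : ℤ, c = (k : ℂ) • pull id O K (orient J) :=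
  ((gen_orient J).pul (zb_convex h0 hs hK hO h)).int c hc hd

end Pool.Agent.Work.MP_8c604c_gt.T
end
end
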