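import Pool.Agent.Work.MP_8c604c_gt.T.Orient

/-!
Complex vector bundles: frames, Thom class, bundle maps, Euler classes with supports.
-/

noncomputable section

set_option linter.unusedSectionVars false
set_option linter.unusedVariables false

namespace Pool.Agent.Work.MP_8c604c_gt.T

open Set Topology Matrix Pool.Agent.Work.MP_849ab0_ag.G

variable {X Y : Type} [TopologicalSpace X] [TopologicalSpace Y]
variable {J J' K : Type} [Fintype J] [Fintype J'] [Fintype K]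
variable {U Z Z₁ Z₂ V : Set X} {U' Z' : Set Y} {f : X → Y} {r r' : ℕ}
variable {P R : X → Matrix J J ℂ} {Q : X → Matrix J' J' ℂ} {P' : Y → Matrix J' J' ℂ}
variable {s t : X → J → ℂ} {s' : Y → J' → ℂ}

variable [RegularSpace X] [SecondCountableTopology X] [RegularSpace Y] [SecondCountableTopology Y]

theorem CB.ok_fst (h : CB P r U) {W : Set (X × (J → ℂ))}
    (h1 : ∀ z ∈ tot P U, z.1 ∈ Z → z ∈ W) : Ok Prod.fst (tot P U) W U Z :=
  .of_mem (.of_continuous continuous_fst _) (fun _ hz => hz.1) h1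

theorem Sec.ok (h : Sec P s U Z) (hU : IsLocallyClosed U) :
    Ok (fun x => (x, s x)) U Z (tot P U) (zs X (J → ℂ)) :=
  ok_of hU (continuousOn_id.prodMk h.cont) (fun x hx => ⟨hx, h.mem x hx⟩) h.zero

theorem BM.ok (h : CB P r U) {A : X → Matrix J' J ℂ} (b : BM P U P' U' f A) :
    Ok (bm f A) (tot P U) (zs X (J → ℂ)) (tot P' U') (zs Y (J' → ℂ)) :=
  ok_of h.lc_tot ((b.cf.comp continuousOn_fst fun _ k => k.1).prodMk
    (con_mulVec (b.cA.comp continuousOn_fst fun _ k => k.1) continuousOn_snd))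
    (fun z hz => ⟨b.maps hz.1, b.mem _ hz.1 _ hz.2⟩) fun z hz e => b.inj _ hz.1 _ hz.2 e

theorem CB.exists_chart (h : CB P r U) {x : X} (hx : x ∈ U) :
    ∃ (W : Set X) (T : X → Matrix J (Fin r) ℂ) (S : X → Matrix (Fin r) J ℂ), x ∈ W ∧
      Chart Prod.fst (tot P U) (zs X (J → ℂ)) U W (fun z => S z.1 *ᵥ z.2)
        (fun z => (z.1, T z.1 *ᵥ z.2)) ∧ ∀ y ∈ U ∩ W, S y * T y = 1 ∧ T y * S y = P y := by
  obtain ⟨W, T, S, hW, h1, h2, h3, h4⟩ := h.exists_frame hx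
  have lc := h.lc.inter hW.isLocallyClosed
  refine ⟨W, T, S, h1, ⟨hW, .of_continuousOn
    (h.lc_tot.inter (hW.preimage continuous_fst).isLocallyClosed)
    (con_mulVec (h3.comp continuousOn_fst fun _ k => ⟨k.1.1, k.2⟩) continuousOn_snd),
    .of_continuousOn (by rw [prod_univ]; exact lc.preimage continuous_fst) (continuousOn_fst.prodMk
      (con_mulVec (h2.comp continuousOn_fst fun _ k => k.1) continuousOn_snd)),
    fun y hy v => ⟨hy.1, ?_⟩, fun _ _ _ => rfl, fun y hy v => ?_, fun z hz => ?_, fun z hz => ?_⟩,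
    h4⟩
  · change P y *ᵥ (T y *ᵥ v) = T y *ᵥ v
    rw [mulVec_mulVec, ← (h4 y hy).2, Matrix.mul_assoc, (h4 y hy).1, Matrix.mul_one]
  · change S y *ᵥ (T y *ᵥ v) = v
    rw [mulVec_mulVec, (h4 y hy).1, one_mulVec]
  · refine Prod.ext rfl ?_
    change T z.1 *ᵥ (S z.1 *ᵥ z.2) = z.2
    rw [mulVec_mulVec, (h4 _ ⟨hz.1.1, hz.2⟩).2, hz.1.2]
  · refine ⟨fun e => by rw [show z.2 = 0 from e, mulVec_zero], fun e => ?_⟩
    change z.2 = 0
    rw [← hz.1.2, ← (h4 _ ⟨hz.1.1, hz.2⟩).2, ← mulVec_mulVec, e, mulVec_zero]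

theorem ok_fib {x : X} (hx : x ∈ U) {T : (K → ℂ) →ₗ[ℂ] J → ℂ} (hT : Function.Injective T)
    (m : ∀ v, P x *ᵥ T v = T v) :
    Ok (fun v => (x, T v)) univ {0} (tot P U) (zs X (J → ℂ)) :=
  .of_mem (.of_continuous (continuous_const.prodMk T.continuous_of_finiteDimensional) _)
    (fun v _ => ⟨hx, m v⟩) fun v _ e => hT (e.trans (map_zero T).symm)

theorem ok_linC {T : (K → ℂ) →ₗ[ℂ] J → ℂ} (hT : Function.Injective T) : Ok T univ {0} univ {0} :=
  .of_mem (.of_continuous T.continuous_of_finiteDimensional _) (mapsTo_univ _ _)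
    fun v _ e => hT (e.trans (map_zero T).symm)

theorem frame_inj {T : Matrix J (Fin r) ℂ} {S : Matrix (Fin r) J ℂ} (e : S * T = 1) :
    Function.Injective T.mulVecLin := fun v w k => by
  have := congrArg (fun u => S *ᵥ u) k
  simpa only [mulVecLin_apply, mulVec_mulVec, e, one_mulVec] using this

theorem frame_mem {T : Matrix J (Fin r) ℂ} {S : Matrix (Fin r) J ℂ} {M : Matrix J J ℂ}
    (e : S * T = 1) (e' : T * S = M) (v : Fin r → ℂ) : M *ᵥ T.mulVecLin v = T.mulVecLin v := by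
  rw [mulVecLin_apply, mulVec_mulVec, ← e', Matrix.mul_assoc, e, Matrix.mul_one]

/-- one frame at `x` is enough -/
theorem fib_of_frame {x : X} (hx : x ∈ U) {τ : H (tot P U) (zs X (J → ℂ))}
    {T : Matrix J (Fin r) ℂ} {S : Matrix (Fin r) J ℂ} (e : S * T = 1) (e' : T * S = P x)
    (k : pull (fun v => (x, T *ᵥ v)) univ {0} τ = orient (Fin r)) (hK : Fintype.card K = r)
    {T' : (K → ℂ) →ₗ[ℂ] J → ℂ} (hT : Function.Injective T') (m : ∀ v, P x *ᵥ T' v = T' v) :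
    pull (fun v => (x, T' v)) univ {0} τ = orient K := by
  have e1 : ∀ v, T *ᵥ (S *ᵥ T' v) = T' v := fun v => by rw [mulVec_mulVec, e', m]
  have hi : Function.Injective (S.mulVecLin ∘ₗ T') := fun v w k =>
    hT (by rw [← e1 v, ← e1 w]; exact congrArg (fun u => T *ᵥ u) k)
  have hb : Function.Bijective (S.mulVecLin ∘ₗ T') :=
    ⟨hi, (LinearMap.injective_iff_surjective_of_finrank_eq_finrank (by simp [hK])).1 hi⟩
  rw [← orient_linear (S.mulVecLin ∘ₗ T').isLinear hb, ← k]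
  exact (pull_pull' (F := fun v => (x, T' v)) (ok_linC hi)
    (ok_fib hx (frame_inj e) (frame_mem e e')) (fun v _ => Prod.ext rfl (e1 v)) τ).symm

/-- a class is a Thom class if it restricts to the orientation in one frame at every point -/
theorem CB.isThom_of (h : CB P r U) {τ : H (tot P U) (zs X (J → ℂ))} (hτ : IsDeg (2 * r) τ)
    (hK : Fintype.card K = r) (k : ∀ x ∈ U, ∃ T : (K → ℂ) →ₗ[ℂ] J → ℂ, Function.Injective T ∧
      (∀ v, P x *ᵥ T v = T v) ∧ pull (fun v => (x, T v)) univ {0} τ = orient K) :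
    IsThom P r U τ := by
  refine ⟨hτ, fun x hx T' hT' m' => ?_⟩
  obtain ⟨T, hT, m, e⟩ := k x hx
  obtain ⟨T₀, S, e1, e2⟩ := idem_factor (h.idem x hx) (h.rank x hx)
  refine fib_of_frame hx e1 e2 ?_ (Fintype.card_fin r) hT' m'
  have e3 : ∀ v, T₀ *ᵥ (S *ᵥ T v) = T v := fun v => by rw [mulVec_mulVec, e2, m]
  have hi : Function.Injective (S.mulVecLin ∘ₗ T) := fun v w k =>
    hT (by rw [← e3 v, ← e3 w]; exact congrArg (fun u => T₀ *ᵥ u) k)
  let E := LinearEquiv.ofBijective (S.mulVecLin ∘ₗ T)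
    ⟨hi, (LinearMap.injective_iff_surjective_of_finrank_eq_finrank (by simp [hK])).1 hi⟩
  rw [← orient_linear E.symm.toLinearMap.isLinear E.symm.bijective, ← e]
  refine (pull_pull' (F := fun v => (x, T₀ *ᵥ v)) (ok_linC E.symm.injective)
    (ok_fib hx hT m) (fun v _ => Prod.ext rfl ?_) τ).symm
  exact (e3 _).symm.trans (congrArg (fun u => T₀ *ᵥ u) (E.apply_symm_apply v))

theorem IsThom.fib (h : CB P r U) {τ : H (tot P U) (zs X (J → ℂ))} (hτ : IsThom P r U τ)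
    {x : X} (hx : x ∈ U) (hK : Fintype.card K = r) {T : (K → ℂ) →ₗ[ℂ] J → ℂ}
    (hT : Function.Injective T) (m : ∀ v, P x *ᵥ T v = T v) :
    pull (fun v => (x, T v)) univ {0} τ = orient K := by
  obtain ⟨T₀, S, e1, e2⟩ := idem_factor (h.idem x hx) (h.rank x hx)
  exact fib_of_frame hx e1 e2 (hτ.2 x hx _ (frame_inj e1) (frame_mem e1 e2)) hK hT m

theorem CB.isThom_th (h : CB P r U) : IsThom P r U (th P r U) := by
  refine Classical.epsilon_spec (p := IsThom P r U) ?_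
  choose W T S h1 h2 h3 using fun x : U => h.exists_chart x.2
  obtain ⟨τ, t1, t2⟩ := exists_thom (.of_continuous continuous_fst _) (fun _ k => k.1)
    (.of_isClosed isClosed_zs _) h2 (fun y hy => ⟨⟨y, hy⟩, h1 _⟩) fun i j y _ _ =>
      ((S j y).mulVecLin ∘ₗ (T i y).mulVecLin).isLinear
  rw [Fintype.card_fin] at t1
  exact ⟨τ, t1, fun x hx T' hT m => fib_of_frame hx (h3 ⟨x, hx⟩ x ⟨hx, h1 _⟩).1
    (h3 ⟨x, hx⟩ x ⟨hx, h1 _⟩).2 (t2 ⟨x, hx⟩ x ⟨hx, h1 _⟩) (Fintype.card_fin r) hT m⟩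

theorem IsThom.bij (h : CB P r U) {τ : H (tot P U) (zs X (J → ℂ))} (hτ : IsThom P r U τ)
    (hc : Cl U Z) {W₁ W₂ : Set (X × (J → ℂ))} (h1 : ∀ z ∈ tot P U, z ∈ W₁ ↔ z.1 ∈ Z)
    (h2 : ∀ z ∈ tot P U, z ∈ W₂ ↔ z.1 ∈ Z ∧ z.2 = 0) : Function.Bijective fun a : H U Z =>
      cup (tot P U) W₂ (pull Prod.fst (tot P U) W₁ a) τ := by
  refine thom_iso (J := Fin r) (.of_continuous continuous_fst _) (fun _ k => k.1) hc
    (.of_isClosed isClosed_zs _) h1 h2 (by rw [Fintype.card_fin]; exact hτ.1) fun y hy => ?_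
  obtain ⟨W, T, S, k1, k2, k3⟩ := h.exists_chart hy
  exact ⟨W, _, _, k1, k2, fun x hx =>
    hτ.2 x hx.1 _ (frame_inj (k3 x hx).1) (frame_mem (k3 x hx).1 (k3 x hx).2)⟩

theorem IsThom.eq_th (h : CB P r U) {τ : H (tot P U) (zs X (J → ℂ))} (hτ : IsThom P r U τ) :
    τ = th P r U := by
  refine sub_eq_zero.1 (eq_zero_of_fib (J := Fin r) (.of_continuous continuous_fst _)
    (fun _ k => k.1) hτ.1 (hτ.bij h (.univ U) (fun _ _ => Iff.rfl)
      fun _ _ => ⟨fun k => ⟨trivial, k⟩, fun k => k.2⟩) (hτ.1.sub h.isThom_th.1) fun y hy => ?_)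
  obtain ⟨W, T, S, k1, k2, k3⟩ := h.exists_chart hy
  have a := frame_inj (k3 y ⟨hy, k1⟩).1
  have b := frame_mem (k3 y ⟨hy, k1⟩).1 (k3 y ⟨hy, k1⟩).2
  refine ⟨W, _, _, k1, k2, hτ.2 y hy _ a b, ?_⟩
  rw [map_sub]
  exact sub_eq_zero.2 ((hτ.2 y hy _ a b).trans (h.isThom_th.2 y hy _ a b).symm)

/-- the Thom isomorphism -/
theorem CB.thom_bij (h : CB P r U) (hc : Cl U Z) {W₁ W₂ : Set (X × (J → ℂ))}
    (h1 : ∀ z ∈ tot P U, z ∈ W₁ ↔ z.1 ∈ Z) (h2 : ∀ z ∈ tot P U, z ∈ W₂ ↔ z.1 ∈ Z ∧ z.2 = 0) :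
    Function.Bijective fun a : H U Z =>
      cup (tot P U) W₂ (pull Prod.fst (tot P U) W₁ a) (th P r U) := h.isThom_th.bij h hc h1 h2

theorem CB.fst_bij (h : CB P r U) {W : Set (X × (J → ℂ))} (h1 : ∀ z ∈ tot P U, z ∈ W ↔ z.1 ∈ Z) :
    Function.Bijective (pull Prod.fst (tot P U) W : H U Z → _) :=
  pull_bij_of_section (s := fun x => (x, 0)) (F := fun z => (z.1.1, z.2 • z.1.2))
    (h.ok_fst fun z hz => (h1 z hz).2)
    (.of_mem (.of_continuous (by fun_prop) _) (fun x hx => ⟨hx, mulVec_zero _⟩)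
      fun x hx k => (h1 _ ⟨hx, mulVec_zero _⟩).1 k) (fun _ _ => rfl)
    (.of_continuous (by fun_prop) _)
    (fun z hz t _ => ⟨hz.1, by rw [mulVec_smul, hz.2]⟩)
    (fun z hz t _ k => (h1 z hz).2 ((h1 (z.1, t • z.2) ⟨hz.1, by rw [mulVec_smul, hz.2]⟩).1 k))
    (fun z _ => by simp) fun z _ => by simp

theorem th_map (h : CB P r U) (h' : CB P' r U') {A : X → Matrix J' J ℂ} (b : BM P U P' U' f A) :
    pull (bm f A) (tot P U) (zs X (J → ℂ)) (th P' r U') = th P r U := by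
  refine IsThom.eq_th h ⟨h'.isThom_th.1.pull _ _ _, fun x hx T hT m => ?_⟩
  rw [pull_pull' (F := fun v => (f x, ((A x).mulVecLin ∘ₗ T) v)) (ok_fib hx hT m) (b.ok h)
    fun _ _ => rfl]
  exact h'.isThom_th.2 _ (b.maps hx) _ ((injective_iff_map_eq_zero _).2 fun v e =>
    hT ((b.inj x hx _ (m v) e).trans (map_zero T).symm)) fun v => b.mem x hx _ (m v)

theorem CB.isDeg_ec (h : CB P r U) (s : X → J → ℂ) (Z : Set X) : IsDeg (2 * r) (ec P r s U Z) :=
  h.isThom_th.1.pull _ _ _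

theorem CB.isDeg_eu (h : CB P r U) : IsDeg (2 * r) (eu P r U) := h.isDeg_ec _ _

theorem CB.evn_eu (h : CB P r U) : Evn (eu P r U) := IsDeg.evn h.isDeg_eu ⟨r, two_mul _⟩

theorem ec_map (h : CB P r U) (h' : CB P' r U') {A : X → Matrix J' J ℂ} (b : BM P U P' U' f A)
    (hs : Sec P s U Z) (hs' : Sec P' s' U' Z') (e : ∀ x ∈ U, s' (f x) = A x *ᵥ s x)
    (hZ : ∀ x ∈ U, f x ∈ Z' → x ∈ Z) : pull f U Z (ec P' r s' U' Z') = ec P r s U Z := by
  rw [ec, ec, ← th_map h h' b, pull_pull' (F := fun x => (f x, s' (f x)))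
    (ok_of h.lc b.cf b.maps hZ) (hs'.ok h'.lc) fun _ _ => rfl,
    pull_pull' (F := fun x => (f x, s' (f x))) (hs.ok h.lc) (b.ok h)
      fun x hx => Prod.ext rfl (e x hx).symm]

theorem eu_map (h : CB P r U) (h' : CB P' r U') {A : X → Matrix J' J ℂ} (b : BM P U P' U' f A) :
    pull f U univ (eu P' r U') = eu P r U :=
  ec_map h h' b (sec_zero _ _) (sec_zero _ _) (fun _ _ => (mulVec_zero _).symm) fun _ _ _ => trivial

theorem CB.bm_comp (h' : CB P' r U') (hf : ContinuousOn f U) (hm : MapsTo f U U') :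
    BM (fun x => P' (f x)) U P' U' f fun x => P' (f x) :=
  ⟨hf, hm, h'.cont.comp hf hm, fun _ hx v _ => h'.fix (hm hx) v, fun _ _ _ k e => k.symm.trans e⟩

theorem Sec.comp (hs' : Sec P' s' U' Z') (hf : ContinuousOn f U) (hm : MapsTo f U U')
    (hZ : ∀ x ∈ U, f x ∈ Z' → x ∈ Z) : Sec (fun x => P' (f x)) (fun x => s' (f x)) U Z :=
  ⟨hs'.cont.comp hf hm, fun _ hx => hs'.mem _ (hm hx), fun x hx e => hZ x hx (hs'.zero _ (hm hx) e)⟩

theorem Sec.map {A : X → Matrix J' J ℂ} (hs : Sec P s U Z) (b : BM P U Q U id A) :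
    Sec Q (fun x => A x *ᵥ s x) U Z :=
  ⟨con_mulVec b.cA hs.cont, fun x hx => b.mem x hx _ (hs.mem x hx),
    fun x hx e => hs.zero x hx (b.inj x hx _ (hs.mem x hx) e)⟩

theorem ec_pull (h' : CB P' r U') (hU : IsLocallyClosed U) (hf : ContinuousOn f U)
    (hm : MapsTo f U U') (hs' : Sec P' s' U' Z') (hZ : ∀ x ∈ U, f x ∈ Z' → x ∈ Z) :
    pull f U Z (ec P' r s' U' Z') = ec (fun x => P' (f x)) r (fun x => s' (f x)) U Z :=
  ec_map (h'.comp hU hf hm) h' (h'.bm_comp hf hm) (hs'.comp hf hm hZ) hs'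
    (fun _ hx => (hs'.mem _ (hm hx)).symm) hZ

theorem eu_pull (h' : CB P' r U') (hU : IsLocallyClosed U) (hf : ContinuousOn f U)
    (hm : MapsTo f U U') : pull f U univ (eu P' r U') = eu (fun x => P' (f x)) r U :=
  eu_map (h'.comp hU hf hm) h' (h'.bm_comp hf hm)

theorem ec_res (h : CB P r U) (hV : IsLocallyClosed V) (k : V ⊆ U) (hs : Sec P s U Z)
    (hZ : ∀ x ∈ V, x ∈ Z → x ∈ Z₁) : pull id V Z₁ (ec P r s U Z) = ec P r s V Z₁ :=
  ec_pull h hV continuousOn_id k hs hZ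

theorem eu_res (h : CB P r U) (hV : IsLocallyClosed V) (k : V ⊆ U) :
    pull id V univ (eu P r U) = eu P r V := eu_pull h hV continuousOn_id k

theorem ec_iso (h : CB P r U) (h' : CB Q r U) {A : X → Matrix J' J ℂ} (b : BM P U Q U id A)
    (hs : Sec P s U Z) : ec Q r (fun x => A x *ᵥ s x) U Z = ec P r s U Z := by
  rw [← ec_map h h' b hs (hs.map b) (fun _ _ => rfl) fun _ _ k => k, pull_id]

theorem eu_iso (h : CB P r U) (h' : CB Q r U) {A : X → Matrix J' J ℂ} (b : BM P U Q U id A) :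
    eu Q r U = eu P r U := by
  rw [← eu_map h h' b, pull_id]

theorem ec_congr_sec (e' : EqOn t s U) : ec P r t U Z = ec P r s U Z := by
  rw [ec, ec, pull_congr (f := fun x => (x, t x)) (g := fun x => (x, s x))
    fun x hx => Prod.ext rfl (e' hx)]

/-- only the fibres matter -/
theorem ec_of_le (h : CB P r U) (h' : CB R r U) (e : ∀ x ∈ U, R x * P x = P x)
    (hs : Sec P s U Z) : ec R r s U Z = ec P r s U Z := by
  rw [← ec_iso (A := P) h h' ⟨continuousOn_id, mapsTo_id _, h.cont,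
    fun x hx v _ => by rw [mulVec_mulVec]; exact congrArg (· *ᵥ v) (e x hx),
    fun _ _ _ k e => k.symm.trans e⟩ hs]
  exact ec_congr_sec fun x hx => (hs.mem x hx).symm

theorem eu_of_le (h : CB P r U) (h' : CB R r U) (e : ∀ x ∈ U, R x * P x = P x) :
    eu R r U = eu P r U := ec_of_le h h' e (sec_zero _ _)

theorem ec_congr (h : CB P r U) (e : EqOn R P U) (hs : Sec P s U Z) (e' : EqOn t s U) :
    ec R r t U Z = ec P r s U Z := by
  rw [ec_congr_sec e', ec_of_le h (h.congr e) (fun x hx => by rw [e hx, h.idem x hx]) hs]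

theorem eu_congr (h : CB P r U) (e : EqOn R P U) : eu R r U = eu P r U :=
  ec_congr h e (sec_zero _ _) fun _ _ => rfl

theorem ec_htpy (h : CB P r U) {S : X × ℝ → J → ℂ} (hS : ContinuousOn S (U ×ˢ Icc 0 1))
    (mem : ∀ x ∈ U, ∀ t ∈ Icc (0 : ℝ) 1, P x *ᵥ S (x, t) = S (x, t))
    (zero : ∀ x ∈ U, ∀ t ∈ Icc (0 : ℝ) 1, S (x, t) = 0 → x ∈ Z) :
    ec P r (fun x => S (x, 0)) U Z = ec P r (fun x => S (x, 1)) U Z := by
  rw [ec, ec, pull_htpy' (U' := tot P U) (Z' := zs X (J → ℂ)) (F := fun z => (z.1, S z))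
    (ext_htpy h.lc (continuousOn_fst.prodMk hS))
    (fun x hx t ht => ⟨hx, mem x hx t ht⟩) zero (fun _ _ => rfl) fun _ _ => rfl]

theorem fgt_ec (h : CB P r U) (hs : Sec P s U Z) : pull id U univ (ec P r s U Z) = eu P r U := by
  rw [ec_res (Z₁ := univ) h h.lc subset_rfl hs fun _ _ _ => trivial]
  have := ec_htpy (Z := univ) h (S := fun z => z.2 • s z.1)
    (continuousOn_snd.smul (hs.cont.comp continuousOn_fst fun _ k => k.1))
    (fun x hx t _ => by rw [mulVec_smul, hs.mem x hx]) fun _ _ _ _ _ => trivial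
  simp only [zero_smul, one_smul] at this
  exact this.symm

theorem ec_univ (h : CB P r U) (hs : Sec P s U univ) : ec P r s U univ = eu P r U := by
  rw [← fgt_ec h hs, pull_id]

theorem eu_eq_zero (h : CB P r U) (hs : Sec P s U ∅) : eu P r U = 0 := by
  have := subsingleton_H (U := U) (Z := ∅) disjoint_bot_right
  rw [← fgt_ec h hs, Subsingleton.elim (ec P r s U ∅) 0, map_zero]

theorem th_one [DecidableEq J] (hU : IsLocallyClosed U) :
    th (fun _ => (1 : Matrix J J ℂ)) (Fintype.card J) U =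
      pull Prod.snd (tot (fun _ => 1) U) (zs X (J → ℂ)) (orient J) := by
  refine (IsThom.eq_th (cb_one hU) ((cb_one hU).isThom_of (isDeg_orient.pull _ _ _) rfl
    fun x hx => ⟨LinearMap.id, Function.injective_id, fun _ => one_mulVec _, ?_⟩)).symm
  rw [pull_pull' (F := id) (ok_fib hx Function.injective_id fun _ => one_mulVec _)
    (.of_mem (.of_continuous continuous_snd _) (mapsTo_univ _ _) fun _ _ k => k) fun _ _ => rfl,
    pull_id]

theorem ec_one [DecidableEq J] (hU : IsLocallyClosed U) (hs : ContinuousOn s U)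
    (zero : ∀ x ∈ U, s x = 0 → x ∈ Z) :
    ec (fun _ => (1 : Matrix J J ℂ)) (Fintype.card J) s U Z = pull s U Z (orient J) := by
  rw [ec, th_one hU, pull_pull' (F := s) (Sec.ok ⟨hs, fun _ _ => one_mulVec _, zero⟩ hU)
    (.of_mem (.of_continuous continuous_snd _) (mapsTo_univ _ _) fun _ _ k => k) fun _ _ => rfl]

/-- the Euler class in a frame -/
theorem ec_frame (h : CB P r U) (hK : Fintype.card K = r) {T : X → Matrix J K ℂ}
    (hT : ContinuousOn T U) (mem : ∀ x ∈ U, P x * T x = T x)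
    (inj : ∀ x ∈ U, ∀ v, T x *ᵥ v = 0 → v = 0) {σ : X → K → ℂ} (hσ : ContinuousOn σ U)
    (zero : ∀ x ∈ U, σ x = 0 → x ∈ Z) :
    ec P r (fun x => T x *ᵥ σ x) U Z = pull σ U Z (orient K) := by
  classical
  subst hK
  rw [← ec_one h.lc hσ zero]
  exact ec_iso (cb_one h.lc) h ⟨continuousOn_id, mapsTo_id _, hT,
    fun x hx v _ => by rw [mulVec_mulVec]; exact congrArg (· *ᵥ v) (mem x hx),
    fun x hx v _ => inj x hx v⟩ ⟨hσ, fun _ _ => one_mulVec _, zero⟩

theorem eu_rank_zero (h : CB P 0 U) : eu P 0 U = 1 := by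
  have := ec_frame (K := Empty) (Z := univ) h rfl (T := fun _ => 0) continuousOn_const
    (fun _ _ => Matrix.mul_zero _) (fun _ _ _ _ => Subsingleton.elim _ _) (σ := fun _ => 0)
    continuousOn_const fun _ _ _ => trivial
  rw [pull_orient (Z := univ) (L := []) (fun _ _ => continuousAt_const) (fun _ _ _ => trivial) List.nodup_nil
    fun j => j.elim] at this
  exact (ec_congr_sec fun _ _ => (mulVec_zero _).symm).trans this

end Pool.Agent.Work.MP_8c604c_gt.T
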