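import Pool.Agent.Work.MP_8c604c_gt.T.Orient
import Pool.Agent.Work.MP_8c604c_gt.T.VB
import Pool.Agent.Work.MP_8c604c_gt.T.Deg

-- merged part: Pool.Agent.Work.MP_8c604c_gt.T.CQ
section
/-!
Closed quotient maps (lifting of maps and homotopies), comparison of lifts of a class to supports,
additivity for two supports (owner helper87).
-/

noncomputable section

set_option linter.unusedSectionVars false

namespace Pool.Agent.Work.MP_8c604c_gt.T

open Set Topology Pool.Agent.Work.MP_849ab0_ag.G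

variable {X Y Z : Type} [TopologicalSpace X] [TopologicalSpace Y] [TopologicalSpace Z]

theorem contOn_of_compact [T2Space Y] {K : Set X} (hK : IsCompact K) {f : X → Y}
    (hf : ContinuousOn f K) {V : Set Y} (hV : V ⊆ f '' K) {g : Y → Z}
    (hg : ContinuousOn (g ∘ f) (K ∩ f ⁻¹' V)) : ContinuousOn g V := by
  rw [continuousOn_iff_isClosed] at hg ⊢
  intro t ht
  obtain ⟨u, hu, e⟩ := hg t ht
  refine ⟨f '' (K ∩ u), ((hK.inter_right hu).image_of_continuousOn
    (hf.mono inter_subset_left)).isClosed, Set.ext fun y => ⟨fun k => ⟨?_, k.2⟩, fun k => ⟨?_, k.2⟩⟩⟩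
  · obtain ⟨x, hx, rfl⟩ := hV k.2
    exact ⟨x, ⟨hx, (e.subset ⟨k.1, hx, k.2⟩).1⟩, rfl⟩
  · obtain ⟨x, hx, rfl⟩ := k.1
    exact (e.superset ⟨hx.2, hx.1, k.2⟩).1

/-- `κ : V → U` is continuous and every point of `U` has a neighbourhood that is the image of a
compact set -/
structure CQ (κ : X → Y) (V : Set X) (U : Set Y) : Prop where
  cont : ContinuousOn κ V
  maps : MapsTo κ V U
  loc : ∀ y ∈ U, ∃ K ⊆ V, IsCompact K ∧ κ '' K ∈ 𝓝[U] y

namespace CQ

variable {κ : X → Y} {V : Set X} {U U' : Set Y}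

theorem surj (h : CQ κ V U) {y : Y} (hy : y ∈ U) : ∃ x ∈ V, κ x = y := by
  obtain ⟨K, k1, -, k3⟩ := h.loc y hy
  obtain ⟨x, hx, e⟩ := mem_of_mem_nhdsWithin hy k3
  exact ⟨x, k1 hx, e⟩

theorem of_compact (hV : IsCompact V) (hc : ContinuousOn κ V) (e : κ '' V = U) : CQ κ V U :=
  ⟨hc, fun x hx => e ▸ mem_image_of_mem κ hx, fun _ _ =>
    ⟨V, subset_rfl, hV, e ▸ self_mem_nhdsWithin⟩⟩

theorem contOn [T2Space Y] (h : CQ κ V U) (hU : U' ⊆ U) {g : Y → Z}
    (hg : ContinuousOn (g ∘ κ) (V ∩ κ ⁻¹' U')) : ContinuousOn g U' := fun y hy => by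
  obtain ⟨K, k1, k2, k3⟩ := h.loc y (hU hy)
  have := contOn_of_compact k2 (h.cont.mono k1) (V := U' ∩ κ '' K) inter_subset_right
    (hg.mono fun x k => ⟨k1 k.1, k.2.1⟩) y ⟨hy, mem_of_mem_nhdsWithin (hU hy) k3⟩
  exact this.mono_of_mem_nhdsWithin
    (Filter.inter_mem self_mem_nhdsWithin (nhdsWithin_mono _ hU k3))

theorem contOn' [T2Space Y] (h : CQ κ V U) (hU : U' ⊆ U) {g : Y → Z} {F : X → Z}
    (hF : ContinuousOn F (V ∩ κ ⁻¹' U')) (e : ∀ x ∈ V, κ x ∈ U' → g (κ x) = F x) :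
    ContinuousOn g U' := h.contOn hU (hF.congr fun x k => e x k.1 k.2)

theorem prod (h : CQ κ V U) {I : Set Z} (hI : IsCompact I) :
    CQ (Prod.map κ id) (V ×ˢ I) (U ×ˢ I) where
  cont := h.cont.prodMap continuousOn_id
  maps := fun _ k => ⟨h.maps k.1, k.2⟩
  loc := fun y hy => by
    obtain ⟨K, k1, k2, k3⟩ := h.loc y.1 hy.1
    refine ⟨K ×ˢ I, prod_mono k1 subset_rfl, k2.prod hI, ?_⟩
    rw [prodMap_image_prod, image_id, nhdsWithin_prod_eq]
    exact Filter.prod_mem_prod k3 self_mem_nhdsWithin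

theorem exists_lift [T2Space Y] [Nonempty X] (h : CQ κ V U) (hU : U' ⊆ U) {F : X → Z}
    (hF : ContinuousOn F (V ∩ κ ⁻¹' U'))
    (he : ∀ x ∈ V, ∀ x' ∈ V, κ x ∈ U' → κ x' = κ x → F x' = F x) :
    ∃ g : Y → Z, ContinuousOn g U' ∧ ∀ x ∈ V, κ x ∈ U' → g (κ x) = F x := by
  have e : ∀ x ∈ V, κ x ∈ U' → F (Function.invFunOn κ V (κ x)) = F x := fun x hx k =>
    he x hx _ (Function.invFunOn_mem ⟨x, hx, rfl⟩) k (Function.invFunOn_eq ⟨x, hx, rfl⟩)
  exact ⟨fun y => F (Function.invFunOn κ V y), h.contOn' hU hF e, e⟩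

/-- homotopies that are given upstairs -/
theorem pull_htpy [Nonempty X] [T3Space Y] [SecondCountableTopology Y] (h : CQ κ V U)
    (hU : U' ⊆ U) (lc : IsLocallyClosed U') {F : X × ℝ → Z}
    (hF : ContinuousOn F ((V ∩ κ ⁻¹' U') ×ˢ Icc 0 1))
    (he : ∀ x ∈ V, ∀ x' ∈ V, κ x ∈ U' → κ x' = κ x → ∀ t ∈ Icc (0 : ℝ) 1, F (x', t) = F (x, t))
    {W : Set Y} {A B : Set Z} (h1 : ∀ x ∈ V, κ x ∈ U' → ∀ t ∈ Icc (0 : ℝ) 1, F (x, t) ∈ A)
    (h2 : ∀ x ∈ V, κ x ∈ U' → ∀ t ∈ Icc (0 : ℝ) 1, F (x, t) ∈ B → κ x ∈ W) {f g : Y → Z}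
    (e0 : ∀ x ∈ V, κ x ∈ U' → f (κ x) = F (x, 0)) (e1 : ∀ x ∈ V, κ x ∈ U' → g (κ x) = F (x, 1)) :
    (pull f U' W : H A B →ₗ[ℂ] H U' W) = pull g U' W := by
  obtain ⟨G, cG, eG⟩ := (h.prod (isCompact_Icc (a := (0 : ℝ)) (b := 1))).exists_lift
    (U' := U' ×ˢ Icc 0 1) (prod_mono hU subset_rfl) (F := F)
    (hF.mono fun x k => ⟨⟨k.1.1, k.2.1⟩, k.1.2⟩) fun x hx x' hx' k e => by
      obtain ⟨e1, e2⟩ := Prod.ext_iff.1 e
      have := he x.1 hx.1 x'.1 hx'.1 k.1 e1 x.2 hx.2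
      rwa [show (x'.1, x.2) = x' from Prod.ext rfl (Eq.symm e2)] at this
  have key : ∀ y ∈ U', ∃ x ∈ V, κ x = y ∧ ∀ t ∈ Icc (0 : ℝ) 1, G (y, t) = F (x, t) :=
    fun y hy => by
      obtain ⟨x, hx, rfl⟩ := h.surj (hU hy)
      exact ⟨x, hx, rfl, fun t ht => eG (x, t) ⟨hx, ht⟩ ⟨hy, ht⟩⟩
  refine pull_htpy' (F := G) (ext_htpy lc cG) (fun y hy t ht => ?_) (fun y hy t ht => ?_)
    (fun y hy => ?_) fun y hy => ?_
  all_goals obtain ⟨x, hx, rfl, k⟩ := key y hy
  · rw [k t ht]; exact h1 x hx hy t ht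
  · rw [k t ht]; exact h2 x hx hy t ht
  · rw [k 0 (by simp), e0 x hx hy]
  · rw [k 1 (by simp), e1 x hx hy]

end CQ

/-- a map that misses the support -/
theorem pull_miss {f : X → Y} {U W : Set X} {U' Z' : Set Y} (hf : Ext f U) (hm : MapsTo f U U')
    (h : ∀ x ∈ U, f x ∉ Z') (a : H U' Z') : pull f U W a = 0 := by
  have := subsingleton_H (U := U) (Z := (∅ : Set X)) (disjoint_empty _)
  rw [← pull_pull' (f := id) (f' := f) (F := f) (U' := U) (Z' := ∅)
    (.id subset_rfl fun _ _ k => k.elim) (.of_mem hf hm fun x hx k => h x hx k) (fun _ _ => rfl),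
    Subsingleton.elim (pull f U ∅ a) 0, map_zero]

/-- restriction after pull-back -/
theorem res_pull {f : X → Y} {U W U₁ W₁ : Set X} {U' Z' : Set Y} (ok : Ok f U W U' Z')
    (h1 : U₁ ⊆ U) (h2 : ∀ x ∈ U₁, x ∈ W → x ∈ W₁) (a : H U' Z') :
    pull id U₁ W₁ (pull f U W a) = pull f U₁ W₁ a := pull_pull' (.id h1 h2) ok (fun _ _ => rfl) a

/-- pull-back after restriction -/
theorem pull_res {f : X → Y} {U W : Set X} {U' Z' U₁ Z₁ : Set Y} (ok : Ok f U W U₁ Z₁)
    (h1 : U₁ ⊆ U') (h2 : ∀ y ∈ U₁, y ∈ Z' → y ∈ Z₁) (a : H U' Z') :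
    pull f U W (pull id U₁ Z₁ a) = pull f U W a := pull_pull' ok (.id h1 h2) (fun _ _ => rfl) a

/-- A class that dies when the support is forgotten has pull-back zero if the map factors, outside
the support, through a space without cohomology in the previous degree. -/
theorem lift_zero {f : X → Y} {U W : Set X} {U' Z' : Set Y} (ok : Ok f U W U' Z') {p : ℤ}
    {a : H U' Z'} (ha : IsDeg (p + 1) a) (h0 : pull id U' univ a = 0) {B : Set Z} {g : X → Z}
    {i : Z → Y} (okg : Ok g (U \ W) univ B univ) (oki : Ok i B univ (U' \ Z') univ)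
    (e : ∀ x ∈ U \ W, i (g x) = f x) (hB : ∀ b : H B univ, IsDeg p b → b = 0) :
    pull f U W a = 0 := by
  obtain ⟨x, hx⟩ := (exact_dlt_supp (U := U') (Z := univ) (Z₁ := Z') (U₂ := U' \ Z') (Z₂ := univ)
    rfl (by simp) a).1 h0
  have e1 : a = dlt U' Z' (prj {p} x) := by
    rw [dlt_prj (s := {p}) (t := {p + 1}) (by simp), hx, isDeg_iff.1 ha]
  have ok1 : Ok f (U \ W) univ (U' \ Z') univ :=
    .of_mem (ok.ext.mono diff_subset) ok.supp fun _ _ _ => trivial
  rw [e1, pull_dlt ok.ext subset_rfl diff_subset ok ok1 subset_rfl subset_rfl,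
    ← pull_pull' okg oki e, hB _ ((isDeg_prj p x).pull _ _ _), map_zero, map_zero]

section

variable [RegularSpace X] [SecondCountableTopology X] {U W W₁ W₂ O₁ O₂ : Set X}

/-- a class with two disjoint supports is the sum of its local parts -/
theorem sum_two (c1 : Cl U W₁) (c2 : Cl U W₂) (o1 : IsOpen O₁) (o2 : IsOpen O₂)
    (s1 : ∀ x ∈ U, x ∈ W₁ → x ∈ O₁ ∧ x ∉ O₂) (s2 : ∀ x ∈ U, x ∈ W₂ → x ∈ O₂ ∧ x ∉ O₁)
    (hW : ∀ x ∈ U, x ∈ W ↔ x ∈ W₁ ∨ x ∈ W₂) {a : H U W} {a₁ : H U W₁} {a₂ : H U W₂}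
    (e1 : pull id (U ∩ O₁) W₁ a = pull id (U ∩ O₁) W₁ a₁)
    (e2 : pull id (U ∩ O₂) W₂ a = pull id (U ∩ O₂) W₂ a₂) :
    a = pull id U W a₁ + pull id U W a₂ := by
  obtain ⟨⟨b₁, b₂⟩, rfl⟩ := (additivity₂ c1 c2 (fun x hx k k' => (s1 x hx k).2 (s2 x hx k').1)
    hW).2 a
  have k1 : Ok id U W U W₁ := .id subset_rfl fun x hx k => (hW x hx).2 (.inl k)
  have k2 : Ok id U W U W₂ := .id subset_rfl fun x hx k => (hW x hx).2 (.inr k)
  have r1 : Ok id (U ∩ O₁) W₁ U W := .id inter_subset_left fun x hx k =>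
    ((hW x hx.1).1 k).elim id fun m => ((s2 x hx.1 m).2 hx.2).elim
  have r2 : Ok id (U ∩ O₂) W₂ U W := .id inter_subset_left fun x hx k =>
    ((hW x hx.1).1 k).elim (fun m => ((s1 x hx.1 m).2 hx.2).elim) id
  have z1 : pull id (U ∩ O₁) W₁ b₂ = 0 := pull_miss (.of_continuous continuous_id _)
    inter_subset_left (fun x hx k => (s2 x hx.1 k).2 hx.2) _
  have z2 : pull id (U ∩ O₂) W₂ b₁ = 0 := pull_miss (.of_continuous continuous_id _)
    inter_subset_left (fun x hx k => (s1 x hx.1 k).2 hx.2) _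
  dsimp only at e1 e2 ⊢
  rw [map_add, pull_pull' r1 k1 (F := id) fun _ _ => rfl, pull_pull' r1 k2 (F := id) fun _ _ => rfl,
    z1, add_zero] at e1
  rw [map_add, pull_pull' r2 k1 (F := id) fun _ _ => rfl, pull_pull' r2 k2 (F := id) fun _ _ => rfl,
    z2, zero_add] at e2
  rw [(res_excision_open o1 c1 fun x hx k => (s1 x hx k).1).1 e1,
    (res_excision_open o2 c2 fun x hx k => (s2 x hx k).1).1 e2]

end

end Pool.Agent.Work.MP_8c604c_gt.T
end
end

-- merged part: Pool.Agent.Work.MP_8c604c_gt.T.Gys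
section
/-!
The Gysin sequence of a complex vector bundle.
Hints. exact_supp_res, exact_res_dlt, exact_dlt_supp for (tot, zs), CB.fst_bij, fgt_ec for the zero section, isDeg_of_cup, pull_prj, cup_prj_left,
dlt_prj, cup_dlt, pull_dlt, th_map. sp_bij: C is homeomorphic to the unit sphere bundle (compact to Hausdorff, contOn_of_compact of T/CQ),
pull_bij_of_section. exists_sig: the sequence of (univ, {0}), Fib.gen and fib_orient of T/GThom, univ is acyclic. basis_pow: strong induction on the degree gives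
spanning (a class of positive degree dies in sp, except possibly in degree 2rm-1, where gys of the generator is nonzero because e^(m-1) is in the image of gys);
e^i is nonzero for i < m by mul_eu_eq_zero'; independence by degrees. For m = 0 the ring is trivial.
-/

noncomputable section

set_option linter.unusedSectionVars false
set_option linter.unusedVariables false

namespace Pool.Agent.Work.MP_8c604c_gt.T

open Set Topology Matrix Pool.Agent.Work.MP_849ab0_ag.G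

variable {X Y T : Type} [TopologicalSpace X] [TopologicalSpace Y] [TopologicalSpace T]
variable {J J' K : Type} [Fintype J] [Fintype J'] [Fintype K]
variable {U : Set X} {U' : Set Y} {f : X → Y} {r : ℕ}
variable {P : X → Matrix J J ℂ} {P' : Y → Matrix J' J' ℂ}

/-- the nonzero vectors -/
def sp (P : X → Matrix J J ℂ) (U : Set X) : Set (X × (J → ℂ)) := tot P U \ zs X (J → ℂ)

/-- the Thom map -/
def thm (P : X → Matrix J J ℂ) (r : ℕ) (U : Set X) :
    H U univ →ₗ[ℂ] H (tot P U) (zs X (J → ℂ)) :=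
  (cup (tot P U) (zs X (J → ℂ))).flip (th P r U) ∘ₗ pull Prod.fst (tot P U) univ

/-- the Gysin map -/
def gys (P : X → Matrix J J ℂ) (r : ℕ) (U : Set X) : H (sp P U) univ →ₗ[ℂ] H U univ :=
  open Classical in
  if h : Function.Bijective (thm P r U) then
    (LinearEquiv.ofBijective _ h).symm.toLinearMap ∘ₗ dlt (tot P U) (zs X (J → ℂ))
  else 0

theorem thm_apply (a : H U univ) :
    thm P r U a = cup (tot P U) (zs X (J → ℂ)) (pull Prod.fst (tot P U) univ a) (th P r U) := rfl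

theorem mem_sp {z : X × (J → ℂ)} : z ∈ sp P U ↔ z.1 ∈ U ∧ P z.1 *ᵥ z.2 = z.2 ∧ z.2 ≠ 0 :=
  and_assoc

theorem ok_sp (P : X → Matrix J J ℂ) (U : Set X) : Ok Prod.fst (sp P U) univ U univ :=
  .of_mem (.of_continuous continuous_fst _) (fun _ hz => hz.1.1) fun _ _ _ => trivial

variable [RegularSpace X] [SecondCountableTopology X] [RegularSpace Y] [SecondCountableTopology Y]
  [RegularSpace T] [SecondCountableTopology T]

theorem CB.lc_sp (h : CB P r U) : IsLocallyClosed (sp P U) :=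
  h.lc_tot.inter isClosed_zs.isOpen_compl.isLocallyClosed

theorem CB.thm_bij (h : CB P r U) : Function.Bijective (thm P r U) :=
  h.thom_bij (.univ U) (fun _ _ => Iff.rfl) fun _ _ => ⟨fun k => ⟨trivial, k⟩, fun k => k.2⟩

theorem CB.thm_gys (h : CB P r U) (x : H (sp P U) univ) :
    thm P r U (gys P r U x) = dlt (tot P U) (zs X (J → ℂ)) x := by
  rw [gys, dif_pos h.thm_bij]
  exact (LinearEquiv.ofBijective _ h.thm_bij).apply_symm_apply _

theorem Gys_ok (P : X → Matrix J J ℂ) (U : Set X) : Ok Prod.fst (tot P U) univ U univ :=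
  .of_mem (.of_continuous continuous_fst _) (fun _ hz => hz.1) fun _ _ _ => trivial

theorem Gys_bij (h : CB P r U) :
    Function.Bijective (pull Prod.fst (tot P U) univ : H U univ → _) :=
  h.fst_bij fun _ _ => Iff.rfl

theorem Gys_res (a : H U univ) : pull id (sp P U) univ (pull Prod.fst (tot P U) univ a) =
    pull Prod.fst (sp P U) univ a :=
  res_pull (Gys_ok P U) sdiff_subset (fun _ _ _ => trivial) a

theorem Gys_h1 (P : X → Matrix J J ℂ) (U : Set X) : tot P U \ zs X (J → ℂ) = sp P U := rfl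

theorem Gys_h2 (A B : Set X) : A \ univ = B \ univ := by simp

theorem CB.fgt_thm (h : CB P r U) (a : H U univ) :
    pull id (tot P U) univ (thm P r U a) = pull Prod.fst (tot P U) univ (a * eu P r U) := by
  have ok := Gys_ok P U
  have o1 := (sec_zero P U).ok h.lc
  obtain ⟨c, hc⟩ := (Gys_bij h).2 (pull id (tot P U) univ (th P r U))
  have e := congrArg (pull (fun x => (x, (0 : X → J → ℂ) x)) U univ) hc
  rw [pull_pull' (F := id) (Ok.top o1) ok fun _ _ => rfl, pull_id,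
    pull_res (Ok.top o1) subset_rfl fun _ _ _ => trivial] at e
  rw [thm_apply, fgt_cm, pull_mul ok, ← hc, e]
  rfl

theorem CB.sp_eq_zero (h : CB P r U) (a : H U univ) :
    pull Prod.fst (sp P U) univ a = 0 ↔ ∃ b, a = b * eu P r U := by
  rw [← Gys_res, exact_supp_res (Gys_h1 P U) (Gys_h2 _ _)]
  refine ⟨fun ⟨y, hy⟩ => ?_, fun ⟨b, hb⟩ => ⟨_, hb ▸ h.fgt_thm b⟩⟩
  obtain ⟨b, rfl⟩ := h.thm_bij.2 y
  exact ⟨b, ((Gys_bij h).1 ((h.fgt_thm b).symm.trans hy)).symm⟩

theorem CB.gys_eq_zero (h : CB P r U) (x : H (sp P U) univ) :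
    gys P r U x = 0 ↔ ∃ a : H U univ, x = pull Prod.fst (sp P U) univ a := by
  rw [← map_eq_zero_iff _ h.thm_bij.1, h.thm_gys, exact_res_dlt (Gys_h1 P U) (Gys_h2 _ _)]
  refine ⟨fun ⟨y, hy⟩ => ?_, fun ⟨a, ha⟩ => ⟨_, ha ▸ Gys_res a⟩⟩
  obtain ⟨a, rfl⟩ := (Gys_bij h).2 y
  exact ⟨a, hy.symm.trans (Gys_res a)⟩

theorem CB.mul_eu_eq_zero (h : CB P r U) (b : H U univ) :
    b * eu P r U = 0 ↔ ∃ x, b = gys P r U x := by
  rw [← map_eq_zero_iff _ (Gys_bij h).1, ← h.fgt_thm,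
    exact_dlt_supp (Gys_h1 P U) (Gys_h2 _ _)]
  exact exists_congr fun x => by rw [← h.thm_gys, h.thm_bij.1.eq_iff, eq_comm]

theorem CB.isDeg_gys (h : CB P r U) {p : ℤ} {x : H (sp P U) univ} (hx : IsDeg p x) :
    IsDeg (p + 1 - 2 * r) (gys P r U x) := by
  refine isDeg_of_cup h.isThom_th.1 h.thm_bij.1 ?_
  rw [← thm_apply, h.thm_gys, sub_add_cancel]
  exact hx.dlt _ _

/-- the three exactness statements for homogeneous classes -/
theorem CB.sp_eq_zero' (h : CB P r U) {p : ℤ} {a : H U univ} (ha : IsDeg p a)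
    (e : pull Prod.fst (sp P U) univ a = 0) : ∃ b, IsDeg (p - 2 * r) b ∧ a = b * eu P r U := by
  obtain ⟨b, hb⟩ := (h.sp_eq_zero a).1 e
  refine ⟨_, isDeg_prj _ b, ?_⟩
  rw [mulH, cup_prj_left (t := {p}) (fun q => by simp [eq_sub_iff_add_eq]) b h.isDeg_eu, ← mulH,
    ← hb, ha.prj_eq (mem_singleton _)]

theorem CB.gys_eq_zero' (h : CB P r U) {p : ℤ} {x : H (sp P U) univ} (hx : IsDeg p x)
    (e : gys P r U x = 0) : ∃ a : H U univ, IsDeg p a ∧ x = pull Prod.fst (sp P U) univ a := by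
  obtain ⟨a, ha⟩ := (h.gys_eq_zero x).1 e
  exact ⟨_, isDeg_prj p a, by rw [pull_prj, ← ha, hx.prj_eq (mem_singleton _)]⟩

theorem CB.mul_eu_eq_zero' (h : CB P r U) {p : ℤ} {b : H U univ} (hb : IsDeg p b)
    (e : b * eu P r U = 0) : ∃ x, IsDeg (p - 1 + 2 * r) x ∧ b = gys P r U x := by
  obtain ⟨x, hx⟩ := (h.mul_eu_eq_zero b).1 e
  refine ⟨_, isDeg_prj _ x, h.thm_bij.1 ?_⟩
  rw [h.thm_gys, dlt_prj (t := {p + 2 * r}) fun q => by simp only [mem_singleton_iff]; omega,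
    ← h.thm_gys, ← hx, (show IsDeg (p + 2 * r) (thm P r U b) from
      (hb.pull _ _ _).cup h.isThom_th.1 _ _).prj_eq (mem_singleton _)]

/-- the projection formula -/
theorem CB.gys_mul (h : CB P r U) {a : H U univ} (ha : Evn a) (x : H (sp P U) univ) :
    gys P r U (pull Prod.fst (sp P U) univ a * x) = a * gys P r U x := by
  apply h.thm_bij.1
  have c : CupOK (tot P U) univ (sp P U) univ (sp P U) univ :=
    .of_subset sdiff_subset subset_rfl fun _ _ _ k => k
  rw [h.thm_gys, thm_apply, pull_mul (Gys_ok P U), cm_mul, ← thm_apply, h.thm_gys, ← Gys_res, mulH,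
    cup_res_left (.id ((Gys_h1 P U).ge.trans sdiff_subset) fun _ _ k => k) (cupU _ _)]
  refine (ha.pul Prod.fst (tot P U) univ).ind (Q := fun a => dlt _ _ (cup (sp P U) univ a x) =
    cup (tot P U) (zs X (J → ℂ)) a (dlt _ _ x)) (by simp) (fun a b h1 h2 => ?_) fun p a k => ?_
  · simp only [map_add, LinearMap.add_apply, h1, h2]
  · rw [cup_dlt c (cupU _ _) subset_rfl subset_rfl subset_union_left k,
      Even.neg_one_zpow (even_two_mul p), one_smul]

theorem BM.ok_sp (h : CB P r U) {A : X → Matrix J' J ℂ} (b : BM P U P' U' f A) :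
    Ok (bm f A) (sp P U) univ (sp P' U') univ := by
  exact .of_mem ((b.ok h).ext.mono sdiff_subset) (b.ok h).supp fun _ _ _ => trivial

theorem gys_map (h : CB P r U) (h' : CB P' r U') {A : X → Matrix J' J ℂ} (b : BM P U P' U' f A)
    (x : H (sp P' U') univ) :
    gys P r U (pull (bm f A) (sp P U) univ x) = pull f U univ (gys P' r U' x) := by
  apply h.thm_bij.1
  have o := b.ok h
  rw [h.thm_gys, ← pull_dlt o.ext subset_rfl ((Gys_h1 P U).ge.trans sdiff_subset) o (b.ok_sp h)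
      (Gys_h1 P U).le (Gys_h1 P' U').le,
    ← h'.thm_gys, thm_apply, thm_apply, pull_cm o, th_map h h' b,
    pull_pull (Ok.top o) (Gys_ok P' U'), pull_pull (Gys_ok P U) (ok_top h.lc b.cf b.maps)]
  rfl

/-- a compact set that meets every ray once -/
theorem CB.sp_bij [T2Space X] (h : CB P r U) {C : Set T} (hC : IsCompact C)
    (hl : IsLocallyClosed C) {q : T → X} {σ : T → J → ℂ} (hq : ContinuousOn q C)
    (hσ : ContinuousOn σ C) (mem : ∀ y ∈ C, (q y, σ y) ∈ sp P U)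
    (surj : ∀ z ∈ sp P U, ∃ y ∈ C, ∃ c : ℝ, 0 < c ∧ q y = z.1 ∧ z.2 = c • σ y)
    (inj : ∀ y ∈ C, ∀ y' ∈ C, ∀ c : ℝ, 0 < c → q y' = q y → σ y' = c • σ y → y' = y) :
    Function.Bijective (pull (fun y => (q y, σ y)) C univ : H (sp P U) univ → _) := by
  rcases C.eq_empty_or_nonempty with rfl | ⟨y₀, -⟩
  · have := subsingleton_H (empty_disjoint (univ : Set T))
    have := subsingleton_H (U := sp P U) (Z := univ)
      (disjoint_left.2 fun z hz _ => (surj z hz).elim fun _ k => k.1)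
    exact ⟨fun _ _ _ => Subsingleton.elim _ _, fun _ => ⟨0, Subsingleton.elim _ _⟩⟩
  have : Nonempty T := ⟨y₀⟩
  choose! ρ m c hc e1 e2 using surj
  have nz : ∀ z ∈ sp P U, ‖z.2‖ ≠ 0 := fun z hz => norm_ne_zero_iff.2 (mem_sp.1 hz).2.2
  have sc : ∀ y ∈ C, ∀ t : ℝ, 0 < t → (q y, t • σ y) ∈ sp P U ∧ ρ (q y, t • σ y) = y := by
    intro y hy t ht
    obtain ⟨k1, k2, k3⟩ := mem_sp.1 (mem y hy)
    have k : (q y, t • σ y) ∈ sp P U :=
      mem_sp.2 ⟨k1, (mulVec_smul _ _ _).trans (congrArg _ k2), smul_ne_zero ht.ne' k3⟩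
    refine ⟨k, inj y hy _ (m _ k) ((c (q y, t • σ y))⁻¹ * t) (mul_pos (inv_pos.2 (hc _ k)) ht)
      (e1 _ k) ?_⟩
    rw [mul_smul]
    exact (eq_inv_smul_iff₀ (hc _ k).ne').2 (e2 _ k).symm
  let n : X × (J → ℂ) → X × (J → ℂ) := fun z => (z.1, ‖z.2‖⁻¹ • z.2)
  have cn : ContinuousOn n (sp P U) :=
    continuousOn_fst.prodMk ((continuousOn_snd.norm.inv₀ nz).smul continuousOn_snd)
  have cj : ContinuousOn (fun y => (q y, σ y)) C := hq.prodMk hσ
  have en : ∀ y ∈ C, ρ (n (q y, σ y)) = y := fun y hy =>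
    (sc y hy _ (inv_pos.2 ((norm_nonneg _).lt_of_ne' (nz _ (mem y hy))))).2
  have en' : ∀ z ∈ sp P U, n (q (ρ z), σ (ρ z)) = n z := fun z hz => by
    refine Prod.ext (e1 z hz) ?_
    change ‖σ (ρ z)‖⁻¹ • σ (ρ z) = ‖z.2‖⁻¹ • z.2
    rw [e2 z hz, norm_smul, Real.norm_of_nonneg (hc z hz).le, smul_smul, mul_inv, mul_right_comm,
      inv_mul_cancel₀ (hc z hz).ne', one_mul]
  have cρ : ContinuousOn ρ (sp P U) :=
    ((contOn_of_compact hC (cn.comp cj mem) subset_rfl
      (continuousOn_id.congr fun y hy => en y hy.1)).comp cn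
      fun z hz => ⟨_, m z hz, en' z hz⟩).congr fun z hz => by
        rw [Function.comp_apply, ← en' z hz, en _ (m z hz)]
  have o1 : Ok ρ (sp P U) univ C univ := ok_top h.lc_sp cρ m
  have o2 : Ok (fun y => (q y, σ y)) C univ (sp P U) univ := ok_top hl cj mem
  have e3 : ∀ y ∈ C, ρ (q y, σ y) = y := fun y hy => by simpa using (sc y hy 1 one_pos).2
  have b := pull_bij_of_section o1 o2 e3
    (F := fun w => (w.1.1, w.2 • w.1.2 + (1 - w.2) • σ (ρ w.1)))
    (ext_htpy h.lc_sp (continuousOn_fst.fst.prodMk ((continuousOn_snd.smul continuousOn_fst.snd).add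
      ((continuousOn_const.sub continuousOn_snd).smul
        ((hσ.comp cρ m).comp continuousOn_fst fun _ k => k.1)))))
    (fun z hz t ht => ?_) (fun _ _ _ _ _ => trivial) (fun z hz => by simp [e1 z hz])
    fun z hz => by simp
  · refine (Function.Bijective.of_comp_iff _ b).1 ?_
    convert Function.bijective_id using 1
    funext a
    rw [Function.comp_apply, pull_pull' (F := id) o2 o1 e3, pull_id, id]
  · have k := (sc _ (m z hz) (t * c z + (1 - t)) (by
      have := hc z hz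
      rcases ht.2.eq_or_lt with rfl | k
      exacts [by simpa, by nlinarith [ht.1]])).1
    rwa [add_smul, mul_smul, ← e2 z hz, e1 z hz] at k

/-- the cohomology of `ℂ ^ K` minus the origin -/
theorem exists_sig (K : Type) [Fintype K] [Nonempty K] :
    ∃ σ : H ({0}ᶜ : Set (K → ℂ)) univ, IsDeg (2 * Fintype.card K - 1) σ ∧
      dlt univ {0} σ = orient K ∧
      Function.Bijective fun c : ℂ × ℂ => c.1 • (1 : H ({0}ᶜ : Set (K → ℂ)) univ) + c.2 • σ := by
  have h1 : (univ : Set (K → ℂ)) \ {0} = {0}ᶜ := (compl_eq_univ_sdiff _).symm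
  have ok : Ok id ({0}ᶜ : Set (K → ℂ)) univ univ univ := .id (subset_univ _) fun _ _ k => k
  have o0 : Ok (fun _ => 0) (univ : Set (K → ℂ)) univ ({0} : Set (K → ℂ)) univ :=
    .of_mem (.of_continuous continuous_const _) (fun _ _ => rfl) fun _ _ _ => trivial
  have acy : Acy (univ : Set (K → ℂ)) := (acy_singleton (0 : K → ℂ)).of_surj univ_nonempty o0
    (pull_bij_of_section o0 (.id (subset_univ _) fun _ _ k => k) (fun _ k => k.symm)
      (F := fun w => w.2 • w.1) (.of_continuous (by fun_prop) _) (fun _ _ _ _ => trivial)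
      (fun _ _ _ _ _ => trivial) (by simp) (by simp)).2
  have ex := exact_res_dlt (Z := univ) h1 (Gys_h2 _ _)
  have d1 : dlt univ {0} (1 : H ({0}ᶜ : Set (K → ℂ)) univ) = 0 := (ex _).2 ⟨1, pull_oneH ok⟩
  obtain ⟨x, hx⟩ := (exact_dlt_supp (Z := univ) (Z₂ := univ) h1 (Gys_h2 _ _) (orient K)).1 (by
    obtain ⟨t, ht⟩ := acy.2 (pull id univ univ (orient K))
    have := Fintype.card_pos (α := K)
    exact (isDeg_orient.pull _ _ _).eq_zero_of_ne (ht ▸ isDeg_one.smul t) (by omega))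
  have hσ : dlt univ {0} (prj {2 * (Fintype.card K : ℤ) - 1} x) = orient K := by
    rw [dlt_prj (t := {2 * (Fintype.card K : ℤ)}) fun q => by simp [eq_sub_iff_add_eq], hx,
      isDeg_orient.prj_eq (mem_singleton _)]
  refine ⟨_, isDeg_prj _ x, hσ, fun c c' e => ?_, fun y => ?_⟩
  · have e2 := congrArg (dlt univ {0}) e
    simp only [map_add, map_smul, d1, hσ, smul_zero, zero_add] at e2
    have e3 := smul_left_injective ℂ orient_ne_zero e2
    simp only [e3, add_left_inj] at e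
    have m : (1 : K → ℂ) ∈ ({0}ᶜ : Set (K → ℂ)) := one_ne_zero
    exact Prod.ext (by simpa [oneH, ev_one m (subset_univ _)] using congrArg (ev 1) e) e3
  · obtain ⟨t, ht⟩ := (fib_orient K).gen (dlt univ {0} y)
    obtain ⟨z, hz⟩ := (ex (y - t • prj {2 * (Fintype.card K : ℤ) - 1} x)).1
      (by rw [map_sub, map_smul, hσ, ht, sub_self])
    obtain ⟨s, rfl⟩ := acy.2 z
    rw [map_smul, ← oneH, pull_oneH ok] at hz
    exact ⟨(s, t), eq_sub_iff_add_eq.1 hz⟩

/-- truncated polynomial rings from the Gysin sequence -/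
theorem CB.basis_pow (h : CB P r U) (hr : 0 < r) {m : ℕ} (hK : Fintype.card K = r * m)
    {k : X × (J → ℂ) → K → ℂ} (ok : Ok k (sp P U) univ {0}ᶜ univ)
    (bij : Function.Bijective (pull k (sp P U) univ : H ({0}ᶜ : Set (K → ℂ)) univ → _))
    (e : eu P r U ^ m = 0) :
    Function.Bijective fun a : Fin m → ℂ => ∑ i, a i • eu P r U ^ (i : ℕ) := by
  rcases m with - | m
  · have : Subsingleton (H U univ) := subsingleton_of_zero_eq_one (e.symm.trans (pow_zero _))
    exact ⟨fun _ _ _ => Subsingleton.elim _ _, fun _ => ⟨0, Subsingleton.elim _ _⟩⟩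
  have : Nonempty K := Fintype.card_pos_iff.1 (hK ▸ Nat.mul_pos hr m.succ_pos)
  obtain ⟨σ, dσ, -, bσ⟩ := exists_sig K
  have o := ok_sp P U
  have g1 : gys P r U 1 = 0 := (h.gys_eq_zero 1).2 ⟨1, (pull_oneH o).symm⟩
  have dec : ∀ x : H (sp P U) univ, ∃ s t : ℂ, x = s • 1 + t • pull k (sp P U) univ σ ∧
      gys P r U x = t • gys P r U (pull k (sp P U) univ σ) := fun x => by
    obtain ⟨y, rfl⟩ := bij.2 x
    obtain ⟨c, rfl⟩ := bσ.2 y
    exact ⟨c.1, c.2, by simp [pull_oneH ok], by simp [pull_oneH ok, g1]⟩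
  have dg := h.isDeg_gys (dσ.pull k (sp P U) univ)
  have ne : ∀ i, i ≤ m → eu P r U ^ i ≠ 0 := fun i => by
    induction i with
    | zero =>
      intro _ k1
      have k2 : (1 : H ({0}ᶜ : Set (K → ℂ)) univ) = 0 := bij.1 (by
        rw [pull_oneH ok, ← pull_oneH o, ← pow_zero (eu P r U), k1, map_zero, map_zero])
      simpa using bσ.1 (a₁ := (1, 0)) (a₂ := (0, 0)) (by simp [k2])
    | succ i ih =>
      intro hi k1
      obtain ⟨x, hx⟩ := (h.mul_eu_eq_zero _).1 ((pow_succ _ _).symm.trans k1)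
      obtain ⟨s, t, -, k2⟩ := dec x
      refine ih (by omega) ((IsDeg.powH h.isDeg_eu i).eq_zero_of_ne
        (hx.trans k2 ▸ dg.smul t) ?_)
      rw [hK]
      push_cast
      have : (i : ℤ) < m := by omega
      have : (0 : ℤ) < r := by omega
      nlinarith
  have g2 : gys P r U (pull k (sp P U) univ σ) ≠ 0 := fun k1 => by
    obtain ⟨x, hx⟩ := (h.mul_eu_eq_zero _).1 ((pow_succ _ _).symm.trans e)
    obtain ⟨s, t, -, k2⟩ := dec x
    exact ne m le_rfl (by rw [hx, k2, k1, smul_zero])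
  have step : ∀ a : H U univ, ∃ s : ℂ, ∃ b, a = s • 1 + b * eu P r U := fun a => by
    obtain ⟨s, t, k1, k2⟩ := dec (pull Prod.fst (sp P U) univ a)
    rw [(h.gys_eq_zero _).2 ⟨a, rfl⟩, eq_comm, smul_eq_zero, or_iff_left g2] at k2
    obtain ⟨b, hb⟩ := (h.sp_eq_zero (a - s • 1)).1 (by
      rw [map_sub, map_smul, pull_oneH o, k1, k2, zero_smul, add_zero, sub_self])
    exact ⟨s, b, sub_eq_iff_eq_add'.1 hb⟩
  have sp : ∀ d j, j + d = m + 1 → ∀ b : H U univ, b * eu P r U ^ j ∈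
      Submodule.span ℂ (range fun i : Fin (m + 1) => eu P r U ^ (i : ℕ)) := fun d => by
    induction d with
    | zero => intro j hj b; rw [show j = m + 1 from hj, e, mul_zero]; exact zero_mem _
    | succ d ih =>
      intro j hj a
      obtain ⟨s, b, rfl⟩ := step a
      rw [add_mul, smul_mul_assoc, one_mul, mul_assoc, ← pow_succ']
      exact add_mem (Submodule.smul_mem _ _ (Submodule.subset_span ⟨⟨j, by omega⟩, rfl⟩))
        (ih _ (by omega) b)
  refine ⟨fun a a' k1 => funext fun i => ?_, fun a => ?_⟩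
  · have k2 : ∀ a : Fin (m + 1) → ℂ, prj {(i : ℕ) * (2 * r : ℤ)} (∑ j, a j • eu P r U ^ (j : ℕ)) =
        a i • eu P r U ^ (i : ℕ) := fun a => by
      rw [map_sum, Finset.sum_eq_single i (fun j _ hj => ?_) (by simp), map_smul,
        (IsDeg.powH h.isDeg_eu i).prj_eq (mem_singleton _)]
      rw [map_smul, (IsDeg.powH h.isDeg_eu j).prj_eq_zero fun k3 => hj (Fin.ext ?_), smul_zero]
      exact_mod_cast mul_right_cancel₀ (by omega : (2 * r : ℤ) ≠ 0) k3
    exact smul_left_injective ℂ (ne i (by omega))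
      ((k2 a).symm.trans ((congrArg _ k1).trans (k2 a')))
  · simpa using (Submodule.mem_span_range_iff_exists_fun ℂ).1 (sp (m + 1) 0 (zero_add _) a)

end Pool.Agent.Work.MP_8c604c_gt.T
end
end
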