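import Pool.Agent.Work.MP_8c604c_gt.T.Deg
import Pool.Agent.Work.MP_8c604c_gt.T.Orient
import Pool.Agent.Work.MP_8c604c_gt.T.Gys

-- merged part: Pool.Agent.Work.MP_8c604c_gt.T.RThom
section
/-! Thom and Euler classes of oriented real vector bundles. -/

noncomputable section

set_option linter.unusedSectionVars false

namespace Pool.Agent.Work.MP_8c604c_gt.T

open Set Topology Filter Pool.Agent.Work.MP_849ab0_ag.G

variable {X Y : Type} [TopologicalSpace X] [TopologicalSpace Y]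
  [RegularSpace X] [SecondCountableTopology X] [RegularSpace Y] [SecondCountableTopology Y]

section Gen

variable {F : Type} [TopologicalSpace F] [Zero F] {d : ℤ} {U Z Z₀ Z₁ : Set X} {U' Z' : Set Y}
  {π : X → Y}

/-- A class of the degree of a Thom class that vanishes on all fibres vanishes. -/
theorem eq_zero_of_fibV' (hπ : Ext π U) (hm : MapsTo π U U') {τ : H U Z₀} {k : ℤ} (hτ : IsDeg k τ)
    (hb : Function.Bijective fun a : H U' univ => cup U Z₀ (pull π U univ a) τ) {c : H U Z₀}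
    (hc : IsDeg k c) (h : ∀ y ∈ U', ∃ (W : Set Y) (g : X → F) (s : Y × F → X), y ∈ W ∧
      ChartV π U Z₀ U' W g s ∧ pull (fun v => s (y, v)) univ {0} τ ≠ 0 ∧
        pull (fun v => s (y, v)) univ {0} c = 0) : c = 0 := by
  obtain ⟨a, rfl⟩ := hb.2 c
  have : a = 0 := (isDeg_of_cup hτ hb.1 (by rwa [zero_add])).eq_zero_of_ev fun y hy => by
    obtain ⟨W, g, s, h1, h2, h3, h4⟩ := h y hy
    rw [h2.fib_cup hπ hm ⟨hy, h1⟩] at h4
    exact (smul_eq_zero.1 h4).resolve_right h3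
  simp [this]

/-- A class that is nonzero on every fibre is a Thom class. -/
theorem thom_isoV' (hπ : Ext π U) (hm : MapsTo π U U') (hc' : Cl U' Z') (hc : Cl U Z₀)
    (h1 : ∀ x ∈ U, x ∈ Z₁ ↔ π x ∈ Z') (h2 : ∀ x ∈ U, x ∈ Z ↔ π x ∈ Z' ∧ x ∈ Z₀) {τ : H U Z₀}
    (hτ : IsDeg d τ)
    (h : ∀ y ∈ U', ∃ (ω : H (univ : Set F) {0}) (W : Set Y) (g : X → F) (s : Y × F → X),
      Fib d ω ∧ y ∈ W ∧ ChartV π U Z₀ U' W g s ∧ pull (fun v => s (y, v)) univ {0} τ ≠ 0) :
    Function.Bijective fun a : H U' Z' => cup U Z (pull π U Z₁ a) τ := by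
  refine cup_bij_local hπ hm hc' hc h1 h2 hτ fun y hy => ?_
  obtain ⟨ω, W, g, s, hω, k1, k2, k3⟩ := h y hy
  have hπ1 := hπ.mono (inter_subset_left (t := π ⁻¹' W))
  have hm1 : MapsTo π (U ∩ π ⁻¹' W) (U' ∩ W) := fun x k => ⟨hm k.1, k.2⟩
  obtain ⟨a, ha⟩ := (k2.bij hω hπ hm).2 (pull id _ _ τ)
  have key : ∀ y' ∈ U' ∩ W, pull (fun v => s (y', v)) univ {0} τ = ev y' a • ω := fun y' e => by
    rw [← pull_pull' (F := fun v => s (y', v)) (k2.ok_fib e (k2.mem' e))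
      (.id inter_subset_left fun _ _ k => k) fun _ _ => rfl, ← ha,
      (k2.restrict W).fib_cup hπ1 hm1 ⟨e, e.2⟩, k2.fib_g e]
  have c0 : ev y a ≠ 0 := fun e => k3 (by rw [key y ⟨hy, k1⟩, e, zero_smul])
  obtain ⟨V, v1, v2, v3⟩ := mem_nhdsWithin.1 (ev_eventually a ⟨hy, k1⟩)
  refine ⟨W ∩ V, k2.op.inter v1, ⟨k1, v2⟩, fun W' o k => ?_⟩
  have k' : W' ⊆ W := k.trans inter_subset_left
  convert (k2.mono o k').bij (hω.smul c0) hπ hm using 1
  funext b
  rw [← (k2.mono o k').res_eq (hω.smul c0) hπ hm hτ fun y' e => by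
      rw [key y' ⟨e.1, k' e.2⟩, v3 ⟨(k e.2).2, e.1, k' e.2⟩],
    cup_res_right (.id inter_subset_left fun _ _ k => k) (cupOK fun _ _ _ k => k)]

/-- Existence of Thom classes. -/
theorem exists_thomV' {I : Type} {ω : I → H (univ : Set F) {0}} {W : I → Set Y} {g : I → X → F}
    {s : I → Y × F → X}
    (hω : ∀ i, Fib d (ω i)) (hπ : Ext π U) (hm : MapsTo π U U') (hc : Cl U Z₀)
    (h : ∀ i, ChartV π U Z₀ U' (W i) (g i) (s i))
    (cov : ∀ y ∈ U', ∃ i, y ∈ W i)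
    (lin : ∀ i j, ∀ y ∈ U' ∩ W i, y ∈ W j →
      pull (fun v => g j (s i (y, v))) univ {0} (ω j) = ω i) :
    ∃ τ : H U Z₀, IsDeg d τ ∧
      ∀ i, ∀ y ∈ U' ∩ W i, pull (fun v => s i (y, v)) univ {0} τ = ω i := by
  have hπ' := hπ.continuousOn
  have res : ∀ (V : Set Y) (V' : Set X), U ∩ π ⁻¹' V ⊆ V' → ∀ (τ : H V' Z₀) i,
      ∀ y ∈ U' ∩ W i, y ∈ V → pull (fun v => s i (y, v)) univ {0} (pull id (U ∩ π ⁻¹' V) Z₀ τ) =
        pull (fun v => s i (y, v)) univ {0} τ := fun V V' k τ i y hy e =>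
    pull_pull' ((h i).ok_fib (V := U ∩ π ⁻¹' V) hy fun v =>
      ⟨(h i).mem y hy v, by rwa [mem_preimage, (h i).fst y hy]⟩)
      (.id k fun _ _ k => k) (fun _ _ => rfl) τ
  have sub : ∀ {V V' : Set Y}, V ⊆ V' → U ∩ π ⁻¹' V ⊆ U ∩ π ⁻¹' V' := fun k =>
    inter_subset_inter_right _ (preimage_mono k)
  have nh : ∀ {V : Set Y} (V' : Set Y), IsOpen V → ∀ x ∈ U ∩ π ⁻¹' V,
      U ∩ π ⁻¹' V ∈ 𝓝[U ∩ π ⁻¹' V'] x := fun V' o x k => nhdsWithin_mono _ inter_subset_left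
    (inter_mem self_mem_nhdsWithin (hπ' x k.1 (o.mem_nhds k.2)))
  obtain ⟨V, -, v1, τ, t1, t2⟩ := cover_ind (fun V => ∃ τ : H (U ∩ π ⁻¹' V) Z₀,
    IsDeg d τ ∧
      ∀ i, ∀ y ∈ U' ∩ W i, y ∈ V → pull (fun v => s i (y, v)) univ {0} τ = ω i) U'
    ⟨0, .zero _, fun _ _ _ k => k.elim⟩
    (fun V V' _ _ k ⟨τ, t1, t2⟩ => ⟨_, t1.pull id _ _, fun i y hy e => by
      rw [res V' _ (sub k) τ i y hy e, t2 i y hy (k e)]⟩)
    (fun V V' o o' ⟨τ, t1, t2⟩ ⟨τ', t1', t2'⟩ => by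
      have hπ1 := hπ.mono (inter_subset_left (t := π ⁻¹' (V ∩ V')))
      have hm1 : MapsTo π (U ∩ π ⁻¹' (V ∩ V')) (U' ∩ (V ∩ V')) := fun x k => ⟨hm k.1, k.2⟩
      have dd := t1.pull id (U ∩ π ⁻¹' (V ∩ V')) Z₀
      obtain ⟨c, c1, c2⟩ := mv_glue (C := U ∩ π ⁻¹' (V ∩ V')) (D := U ∩ π ⁻¹' (V ∪ V')) (nh V' o)
        (nh V o') (by rw [preimage_inter, inter_inter_distrib_left])
        (by rw [preimage_union, inter_union_distrib_left]) τ τ' (by
          have a : ∀ i, ∀ y ∈ U' ∩ (V ∩ V'), y ∈ W i → pull (fun v => s i (y, v)) univ {0}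
              (pull id (U ∩ π ⁻¹' (V ∩ V')) Z₀ τ) = ω i := fun i y hy hi =>
            (res _ _ (sub inter_subset_left) τ i y ⟨hy.1, hi⟩ hy.2).trans
              (t2 i y ⟨hy.1, hi⟩ hy.2.1)
          refine sub_eq_zero.1 (eq_zero_of_fibV' (F := F) hπ1 hm1 dd (thom_isoV' (F := F) hπ1 hm1 (.univ _)
            (hc.mono inter_subset_left) (by simp) (by simp) dd fun y hy => ?_)
            (dd.sub (t1'.pull _ _ _)) fun y hy => ?_)
          · obtain ⟨i, hi⟩ := cov y hy.1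
            exact ⟨_, _, _, _, hω i, hi, (h i).restrict _, a i y hy hi ▸ (hω i).ne_zero⟩
          · obtain ⟨i, hi⟩ := cov y hy.1
            exact ⟨_, _, _, hi, (h i).restrict _, a i y hy hi ▸ (hω i).ne_zero, by
              rw [map_sub, a i y hy hi, res _ _ (sub inter_subset_right) τ' i y ⟨hy.1, hi⟩ hy.2,
                t2' i y ⟨hy.1, hi⟩ hy.2.2, sub_self]⟩)
      refine ⟨_, isDeg_prj _ c, fun i y hy e => ?_⟩
      rw [pull_prj, ← isDeg_iff.1 (hω i).deg]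
      congr 1
      rcases e with e | e
      · rw [← res V _ (sub subset_union_left) c i y hy e, c1, t2 i y hy e]
      · rw [← res V' _ (sub subset_union_right) c i y hy e, c2, t2' i y hy e])
    (fun V o dj hV => by
      choose τ t1 t2 using hV
      obtain ⟨c, c1⟩ := disj_glue hπ' o dj τ t1
      refine ⟨_, isDeg_prj _ c, fun i y hy e => ?_⟩
      obtain ⟨k, e⟩ := mem_iUnion.1 e
      rw [pull_prj, ← isDeg_iff.1 (hω i).deg, ← res (V k) _ (sub (subset_iUnion V k)) c i y hy e,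
        c1, t2 k i y hy e])
    (fun y hy => by
      obtain ⟨j, hj⟩ := cov y hy
      refine ⟨W j, (h j).op, hj, _, (hω j).deg.pull (g j) _ _, fun i y hy e => ?_⟩
      have a : ∀ v, s i (y, v) ∈ U ∩ π ⁻¹' W j := fun v =>
        ⟨(h i).mem y hy v, by rwa [mem_preimage, (h i).fst y hy]⟩
      rw [pull_pull ((h i).ok_fib hy a) (h j).ok_g]
      exact lin i j y hy e)
  refine ⟨pull id U Z₀ τ, t1.pull _ _ _, fun i y hy => ?_⟩
  rw [pull_pull' (F := fun v => s i (y, v)) ((h i).ok_fib hy ((h i).mem y hy))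
    (.id (subset_inter subset_rfl fun x k => v1 (hm k)) fun _ _ k => k) fun _ _ => rfl,
    t2 i y hy (v1 hy.1)]

end Gen

variable {A A' : Type} [NormedAddCommGroup A] [NormedSpace ℝ A] [FiniteDimensional ℝ A]
  [NormedAddCommGroup A'] [NormedSpace ℝ A'] [FiniteDimensional ℝ A'] {r : ℕ}
  {V : X → A →L[ℝ] A} {U W Z : Set X} {o : X → A [⋀^Fin r]→L[ℝ] ℝ}

theorem ext_clm {L : X → A →L[ℝ] A'} (h : Ext L U) :
    Ext (fun z : X × A => L z.1 z.2) (U ×ˢ univ) :=
  (Ext.of_continuous (f := fun p : (A →L[ℝ] A') × A => p.1 p.2) (by fun_prop) univ).comp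
    (h.prodMap (.of_continuous continuous_id univ)) (mapsTo_univ _ _)

theorem RB.mono (h : RB V r U) (hW : IsLocallyClosed W) (k : W ⊆ U) : RB V r W :=
  ⟨hW, h.cont.mono k, fun x e => h.idem x (k e), fun x e => h.rank x (k e)⟩

theorem Ori.mono (h : Ori V r U o) (k : W ⊆ U) : Ori V r W o :=
  ⟨h.cont.mono k, fun x e => h.ne x (k e)⟩

theorem RB.comp (h : RB V r U) {f : Y → X} {U' : Set Y} (hU : IsLocallyClosed U')
    (hf : ContinuousOn f U') (m : MapsTo f U' U) : RB (fun y => V (f y)) r U' :=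
  ⟨hU, h.cont.comp hf m, fun _ e => h.idem _ (m e), fun _ e => h.rank _ (m e)⟩

theorem Ori.comp (h : Ori V r U o) {f : Y → X} {U' : Set Y} (hf : ContinuousOn f U')
    (m : MapsTo f U' U) : Ori (fun y => V (f y)) r U' fun y => o (f y) :=
  ⟨h.cont.comp hf m, fun _ e => h.ne _ (m e)⟩

theorem RB.lc_tot (h : RB V r U) : IsLocallyClosed (totR V U) := by
  have c : ContinuousOn (fun z : X × A => V z.1 z.2 - z.2) (Prod.fst ⁻¹' U) :=
    ((h.cont.comp continuousOn_fst fun _ k => k).clm_apply continuousOn_snd).sub continuousOn_snd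
  have := (((Cl.of_isClosed (isClosed_singleton (x := (0 : A))) univ).preimage c
    (mapsTo_univ _ _)).isLocallyClosed_inter (h.lc.preimage continuous_fst))
  convert this using 1
  ext z
  simp [totR, sub_eq_zero]

theorem isClosed_zsR : IsClosed (zs X A) := isClosed_eq continuous_snd continuous_const

/-- A frame of the bundle `V` over `U ∩ W` and its inverse. -/
structure Frame (V : X → A →L[ℝ] A) (U W : Set X) (T : X → (Fin r → ℝ) →L[ℝ] A)
    (L : X → A →L[ℝ] (Fin r → ℝ)) : Prop where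
  op : IsOpen W
  cT : ContinuousOn T (U ∩ W)
  cL : ContinuousOn L (U ∩ W)
  mem : ∀ x ∈ U ∩ W, ∀ v, V x (T x v) = T x v
  left : ∀ x ∈ U ∩ W, ∀ v, L x (T x v) = v
  right : ∀ x ∈ U ∩ W, ∀ a, V x a = a → T x (L x a) = a

theorem RB.surj_fib (h : RB V r U) {x : X} (hx : x ∈ U) {T : (Fin r → ℝ) →ₗ[ℝ] A}
    (hT : Function.Injective T) (m : ∀ v, V x (T v) = T v) {a : A} (ha : V x a = a) :
    ∃ v, T v = a := by
  have : LinearMap.range T = LinearMap.range (V x : A →ₗ[ℝ] A) :=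
    Submodule.eq_of_le_of_finrank_eq (by rintro _ ⟨v, rfl⟩; exact ⟨_, m v⟩)
      (by rw [LinearMap.finrank_range_of_inj hT, h.rank x hx]; simp)
  exact (this.ge ⟨a, ha⟩ :)

theorem RB.exists_frame (h : RB V r U) {x : X} (hx : x ∈ U) :
    ∃ (W : Set X) (T : X → (Fin r → ℝ) →L[ℝ] A) (L : X → A →L[ℝ] (Fin r → ℝ)),
      x ∈ W ∧ Frame V U W T L := by
  obtain ⟨b, li, hb⟩ := h.exists_basis hx
  obtain ⟨g, hg⟩ := (Fintype.linearCombination ℝ b).exists_leftInverse_of_injective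
    (LinearMap.ker_eq_bot.2 (linearIndependent_iff_injective_fintypeLinearCombination.1 li))
  let T : X → (Fin r → ℝ) →L[ℝ] A := fun y =>
    (V y).comp (LinearMap.toContinuousLinearMap (Fintype.linearCombination ℝ b))
  let G : X → (Fin r → ℝ) →L[ℝ] (Fin r → ℝ) := fun y => (LinearMap.toContinuousLinearMap g).comp (T y)
  have cT : ContinuousOn T U := h.cont.clm_comp continuousOn_const
  have cG : ContinuousOn G U := continuousOn_const.clm_comp cT
  obtain ⟨W, hW, eW⟩ := continuousOn_iff'.1 cG _ Units.isOpen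
  have un : ∀ y ∈ U ∩ W, IsUnit (G y) := fun y k => (eW.ge ⟨k.2, k.1⟩).1
  have left : ∀ y ∈ U ∩ W, ∀ v, Ring.inverse (G y) (g (T y v)) = v := fun y k v =>
    congrArg (fun f : (Fin r → ℝ) →L[ℝ] (Fin r → ℝ) => f v) (Ring.inverse_mul_cancel _ (un y k))
  refine ⟨W, T, fun y => (Ring.inverse (G y)).comp (LinearMap.toContinuousLinearMap g),
    (eW.le ⟨?_, hx⟩).1, hW, cT.mono inter_subset_left, ContinuousOn.clm_comp (fun y k => ?_)
      continuousOn_const, fun y k v => h.idem y k.1 _, left, fun y k a ha => ?_⟩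
  · have : G x = 1 := ContinuousLinearMap.ext fun v => by
      have e : T x v = Fintype.linearCombination ℝ b v := by
        simp [T, Fintype.linearCombination_apply, hb]
      change g (T x v) = v
      rw [e]
      exact LinearMap.congr_fun hg v
    change IsUnit (G x)
    rw [this]
    exact isUnit_one
  · obtain ⟨u, hu⟩ := un y k
    exact ContinuousAt.comp_continuousWithinAt (hu ▸ NormedRing.inverse_continuousAt u)
      ((cG y k.1).mono inter_subset_left)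
  · obtain ⟨v, rfl⟩ := h.surj_fib k.1 (T := (T y : (Fin r → ℝ) →ₗ[ℝ] A))
      (Function.LeftInverse.injective (g := fun a => Ring.inverse (G y) (g a)) (left y k)) (fun v => h.idem y k.1 _) ha
    exact congrArg (T y) (left y k v)

variable {T : X → (Fin r → ℝ) →L[ℝ] A} {L : X → A →L[ℝ] (Fin r → ℝ)}

theorem Frame.mono (h : Frame V U W T L) {W' : Set X} (o : IsOpen W') (k : W' ⊆ W) :
    Frame V U W' T L :=
  have a : U ∩ W' ⊆ U ∩ W := inter_subset_inter_right _ k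
  ⟨o, h.cT.mono a, h.cL.mono a, fun x e => h.mem x (a e), fun x e => h.left x (a e),
    fun x e => h.right x (a e)⟩

theorem Frame.inj (h : Frame V U W T L) {x : X} (hx : x ∈ U ∩ W) : Function.Injective (T x) :=
  Function.LeftInverse.injective (h.left x hx)

theorem Frame.chart (h : Frame V U W T L) (hU : IsLocallyClosed U) :
    ChartV Prod.fst (totR V U) (zs X A) U W (fun z => L z.1 z.2) fun z => (z.1, T z.1 z.2) :=
  have lc := hU.inter h.op.isLocallyClosed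
  ⟨h.op, (ext_clm (.of_continuousOn lc h.cL)).mono fun _ k => ⟨⟨k.1.1, k.2⟩, trivial⟩,
    (Ext.of_continuous continuous_fst _).prodMk (ext_clm (.of_continuousOn lc h.cT)),
    fun y k v => ⟨k.1, h.mem y k v⟩, fun _ _ _ => rfl, h.left,
    fun z k => Prod.ext rfl (h.right _ ⟨k.1.1, k.2⟩ _ k.1.2), fun z k =>
      ⟨fun e => by rw [show z.2 = 0 from e, map_zero], fun e => by
        have := h.right _ ⟨k.1.1, k.2⟩ _ k.1.2
        rw [e, map_zero] at this
        exact this.symm⟩⟩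

theorem form_comp (ω : A [⋀^Fin r]→L[ℝ] ℝ) (T : (Fin r → ℝ) →ₗ[ℝ] A)
    (G : (Fin r → ℝ) →ₗ[ℝ] Fin r → ℝ) : (ω fun i => T (G (Pi.single i 1))) =
      LinearMap.det G * ω fun i => T (Pi.single i 1) := by
  have := congrArg (fun f : (Fin r → ℝ) [⋀^Fin r]→ₗ[ℝ] ℝ => f (G ∘ Pi.basisFun ℝ (Fin r)))
    (AlternatingMap.eq_smul_basis_det (Pi.basisFun ℝ (Fin r))
      (ω.toAlternatingMap.compLinearMap T))
  simp only [AlternatingMap.smul_apply, Module.Basis.det_comp, Module.Basis.det_self, mul_one,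
    AlternatingMap.compLinearMap_apply, smul_eq_mul, Function.comp_apply, Pi.basisFun_apply] at this
  rw [mul_comm]
  exact this

theorem indep_single {T : (Fin r → ℝ) →ₗ[ℝ] A} (hT : Function.Injective T) :
    LinearIndependent ℝ fun i => T (Pi.single i 1) := by
  have := (Pi.basisFun ℝ (Fin r)).linearIndependent.map' T (LinearMap.ker_eq_bot.2 hT)
  simpa only [Function.comp_def, Pi.basisFun_apply] using this

theorem ok_fibR {x : X} (hx : x ∈ U) {B : Type} [NormedAddCommGroup B] [NormedSpace ℝ B]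
    [FiniteDimensional ℝ B] {S : B →ₗ[ℝ] A} (hS : Function.Injective S)
    (m : ∀ v, V x (S v) = S v) : Ok (fun v => (x, S v)) univ {0} (totR V U) (zs X A) :=
  .of_mem (.of_continuous (continuous_const.prodMk S.continuous_of_finiteDimensional) _)
    (fun v _ => ⟨hx, m v⟩) fun _ _ k => hS (k.trans S.map_zero.symm)

/-- Thom classes of an oriented real bundle -/
def IsThomR (V : X → A →L[ℝ] A) (r : ℕ) (U : Set X) (o : X → A [⋀^Fin r]→L[ℝ] ℝ)
    (τ : H (totR V U) (zs X A)) : Prop :=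
  IsDeg r τ ∧ ∀ x ∈ U, ∀ T : (Fin r → ℝ) →ₗ[ℝ] A, Function.Injective T →
    (∀ v, V x (T v) = T v) → pull (fun v => (x, T v)) univ {0} τ =
      (SignType.sign (o x fun i => T (Pi.single i 1)) : ℂ) • orR r

/-- change of frame in one fibre -/
theorem fib_change (h : RB V r U) {x : X} (hx : x ∈ U) {τ : H (totR V U) (zs X A)}
    {S S' : (Fin r → ℝ) →ₗ[ℝ] A} (hS : Function.Injective S) (m : ∀ v, V x (S v) = S v)
    (hS' : Function.Injective S') (m' : ∀ v, V x (S' v) = S' v) :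
    ∃ G : (Fin r → ℝ) →ₗ[ℝ] Fin r → ℝ, LinearMap.det G ≠ 0 ∧ (∀ v, S (G v) = S' v) ∧
      pull (fun v => (x, S' v)) univ {0} τ =
        (SignType.sign (LinearMap.det G) : ℂ) • pull (fun v => (x, S v)) univ {0} τ := by
  obtain ⟨g, hg⟩ := S.exists_leftInverse_of_injective (LinearMap.ker_eq_bot.2 hS)
  have e : ∀ v, S ((g ∘ₗ S') v) = S' v := fun v => by
    obtain ⟨w, hw⟩ := h.surj_fib hx hS m (m' v)
    rw [LinearMap.comp_apply, ← hw]
    exact congrArg S (LinearMap.congr_fun hg w)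
  have i : Function.Injective (g ∘ₗ S') := fun a b k => hS' (by rw [← e, ← e, k])
  refine ⟨g ∘ₗ S', (((LinearMap.isUnit_iff_ker_eq_bot _).2 (LinearMap.ker_eq_bot.2 i)).map
    LinearMap.det).ne_zero, e, ?_⟩
  rw [← pull_lin i, pull_pull' (F := fun v => (x, S' v)) (ok_lin i) (ok_fibR hx hS m)
    fun v _ => by rw [e]]

theorem sign_ne {a : ℝ} (h : a ≠ 0) : (SignType.sign a : ℂ) ≠ 0 := by
  rcases lt_or_gt_of_ne h with k | k
  · simp [sign_neg k]
  · simp [sign_pos k]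

theorem exists_thomR (h : RB V r U) (ho : Ori V r U o) : ∃ τ, IsThomR V r U o τ := by
  have key : ∀ x : U, ∃ (W : Set X) (T : X → (Fin r → ℝ) →L[ℝ] A) (L : X → A →L[ℝ] (Fin r → ℝ))
      (ε : SignType), (x : X) ∈ W ∧ Frame V U W T L ∧ (ε : ℂ) ≠ 0 ∧
        ∀ y ∈ U ∩ W, SignType.sign (o y fun i => T y (Pi.single i 1)) = ε := fun x => by
    obtain ⟨W, T, L, h1, h2⟩ := h.exists_frame x.2
    have n : ∀ y ∈ U ∩ W, (o y fun i => T y (Pi.single i 1)) ≠ 0 := fun y k =>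
      ho.ne y k.1 _ (indep_single (T := (T y : (Fin r → ℝ) →ₗ[ℝ] A)) (h2.inj k))
        fun i => h2.mem y k _
    have c : ContinuousOn (fun y => o y fun i => T y (Pi.single i 1)) (U ∩ W) :=
      (continuous_eval (F := A [⋀^Fin r]→L[ℝ] ℝ)).comp_continuousOn
        ((ho.cont.mono inter_subset_left).prodMk
          (continuousOn_pi.2 fun i => h2.cT.clm_apply continuousOn_const))
    obtain ⟨W', w1, w2⟩ := continuousOn_iff'.1 (sgn_contOn c n)
      {SignType.sign (o x fun i => T x (Pi.single i 1))} (isOpen_discrete _)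
    exact ⟨W ∩ W', T, L, _, ⟨h1, (w2.le ⟨rfl, x.2, h1⟩).1⟩,
      h2.mono (h2.op.inter w1) inter_subset_left, sign_ne (n x ⟨x.2, h1⟩),
      fun y k => (w2.ge ⟨k.2.2, k.1, k.2.1⟩).1⟩
  choose W T L ε h1 h2 h3 h4 using key
  obtain ⟨τ, t1, t2⟩ := exists_thomV' (ω := fun i => (ε i : ℂ) • orR r)
    (fun i => (fib_orR r).smul (h3 i)) (.of_continuous continuous_fst _) (fun _ k => k.1)
    (.of_isClosed isClosed_zsR _) (fun i => (h2 i).chart h.lc) (fun y k => ⟨⟨y, k⟩, h1 _⟩)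
    fun i j y k k' => by
      have e : ∀ v, T j y (L j y (T i y v)) = T i y v := fun v =>
        (h2 j).right y ⟨k.1, k'⟩ _ ((h2 i).mem y k v)
      have := form_comp (o y) (T j y : (Fin r → ℝ) →ₗ[ℝ] A)
        ((L j y : A →ₗ[ℝ] _) ∘ₗ (T i y : (Fin r → ℝ) →ₗ[ℝ] A))
      simp only [LinearMap.comp_apply, ContinuousLinearMap.coe_coe, e] at this
      rw [← h4 i y k, this, sign_mul, h4 j y ⟨k.1, k'⟩, SignType.coe_mul, mul_smul]
      exact pull_lin (T := (L j y : A →ₗ[ℝ] _) ∘ₗ (T i y : (Fin r → ℝ) →ₗ[ℝ] A))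
        (fun a b k0 => (h2 i).inj k (by rw [← e, ← e b]; exact congrArg _ k0)) _
  refine ⟨τ, t1, fun x hx S hS m => ?_⟩
  have k : x ∈ U ∩ W ⟨x, hx⟩ := ⟨hx, h1 _⟩
  obtain ⟨G, -, g1, g2⟩ := fib_change (τ := τ) h hx (S := (T ⟨x, hx⟩ x : (Fin r → ℝ) →ₗ[ℝ] A))
    ((h2 _).inj k) ((h2 _).mem x k) hS m
  have := form_comp (o x) (T ⟨x, hx⟩ x : (Fin r → ℝ) →ₗ[ℝ] A) G
  simp only [g1] at this
  rw [g2, this, sign_mul, SignType.coe_mul, mul_smul]
  exact congrArg _ ((t2 _ x k).trans (by rw [← h4 _ x k]; rfl))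

/-- a class that is nonzero on the fibres -/
def FibNe (V : X → A →L[ℝ] A) (r : ℕ) (U : Set X) (τ : H (totR V U) (zs X A)) : Prop :=
  ∀ x ∈ U, ∀ T : (Fin r → ℝ) →ₗ[ℝ] A, Function.Injective T → (∀ v, V x (T v) = T v) →
    pull (fun v => (x, T v)) univ {0} τ ≠ 0

theorem IsThomR.fibNe {τ : H (totR V U) (zs X A)} (hτ : IsThomR V r U o τ) (ho : Ori V r U o) :
    FibNe V r U τ := fun x hx T hT m => by
  rw [hτ.2 x hx T hT m]
  exact smul_ne_zero (sign_ne (ho.ne x hx _ (indep_single hT) fun i => m _)) (orR_ne_zero r)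

/-- The Thom isomorphism. -/
theorem FibNe.bij {τ : H (totR V U) (zs X A)} (h0 : FibNe V r U τ) (h : RB V r U)
    (hτ : IsDeg r τ) (hZ : Cl U Z) {Z₁ Z₂ : Set (X × A)} (h1 : ∀ z ∈ totR V U, z ∈ Z₁ ↔ z.1 ∈ Z)
    (h2 : ∀ z ∈ totR V U, z ∈ Z₂ ↔ z.1 ∈ Z ∧ z.2 = 0) :
    Function.Bijective fun a : H U Z => cup (totR V U) Z₂ (pull Prod.fst (totR V U) Z₁ a) τ :=
  thom_isoV' (.of_continuous continuous_fst _) (fun _ k => k.1) hZ (.of_isClosed isClosed_zsR _)
    h1 h2 hτ fun y hy => by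
      obtain ⟨W, T, L, k1, k2⟩ := h.exists_frame hy
      exact ⟨_, W, _, _, fib_orR r, k1, k2.chart h.lc,
        h0 y hy (T y : (Fin r → ℝ) →ₗ[ℝ] A) (k2.inj ⟨hy, k1⟩) (k2.mem y ⟨hy, k1⟩)⟩

theorem FibNe.bij' {τ : H (totR V U) (zs X A)} (h0 : FibNe V r U τ) (h : RB V r U)
    (hτ : IsDeg r τ) : Function.Bijective fun a : H U univ =>
      cup (totR V U) (zs X A) (pull Prod.fst (totR V U) univ a) τ :=
  h0.bij h hτ (.univ _) (by simp) (by simp [zs])

theorem IsThomR.unique {τ τ' : H (totR V U) (zs X A)} (hτ : IsThomR V r U o τ)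
    (hτ' : IsThomR V r U o τ') (h : RB V r U) (ho : Ori V r U o) : τ = τ' :=
  sub_eq_zero.1 (eq_zero_of_fibV' (F := Fin r → ℝ) (.of_continuous continuous_fst _)
    (fun _ k => k.1) hτ.1 ((hτ.fibNe ho).bij' h hτ.1) (hτ.1.sub hτ'.1) fun y hy => by
      obtain ⟨W, T, L, k1, k2⟩ := h.exists_frame hy
      have i := k2.inj ⟨hy, k1⟩
      have m := k2.mem y ⟨hy, k1⟩
      exact ⟨W, _, _, k1, k2.chart h.lc, hτ.fibNe ho y hy (T y : (Fin r → ℝ) →ₗ[ℝ] A) i m, by
        rw [map_sub]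
        exact sub_eq_zero.2 ((hτ.2 y hy (T y : (Fin r → ℝ) →ₗ[ℝ] A) i m).trans
          (hτ'.2 y hy (T y : (Fin r → ℝ) →ₗ[ℝ] A) i m).symm)⟩)

/-- the Thom class -/
def thR (V : X → A →L[ℝ] A) (r : ℕ) (U : Set X) (o : X → A [⋀^Fin r]→L[ℝ] ℝ) :
    H (totR V U) (zs X A) := Classical.epsilon (IsThomR V r U o)

theorem thR_spec (h : RB V r U) (ho : Ori V r U o) : IsThomR V r U o (thR V r U o) :=
  Classical.epsilon_spec (exists_thomR h ho)

/-- the Euler class with support in the zero set of the section `s` -/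
def ecR (V : X → A →L[ℝ] A) (r : ℕ) (o : X → A [⋀^Fin r]→L[ℝ] ℝ) (s : X → A) (U Z : Set X) :
    H U Z := pull (fun x => (x, s x)) U Z (thR V r U o)

/-- the Euler class -/
def euR (V : X → A →L[ℝ] A) (r : ℕ) (o : X → A [⋀^Fin r]→L[ℝ] ℝ) (U : Set X) : H U univ :=
  ecR V r o 0 U univ

section Map

variable {V' : Y → A' →L[ℝ] A'} {U' : Set Y} {o' : Y → A' [⋀^Fin r]→L[ℝ] ℝ} {f : Y → X}
  {B : Y → A' →L[ℝ] A}

/-- a map of bundles that is injective on the fibres -/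
structure BMap (V' : Y → A' →L[ℝ] A') (U' : Set Y) (V : X → A →L[ℝ] A) (U : Set X) (f : Y → X)
    (B : Y → A' →L[ℝ] A) : Prop where
  cf : ContinuousOn f U'
  mf : MapsTo f U' U
  cB : ContinuousOn B U'
  mem : ∀ y ∈ U', ∀ a, V' y a = a → V (f y) (B y a) = B y a
  inj : ∀ y ∈ U', ∀ a, V' y a = a → B y a = 0 → a = 0

theorem BMap.ok (b : BMap V' U' V U f B) (hU : IsLocallyClosed U') :
    Ok (fun z => (f z.1, B z.1 z.2)) (totR V' U') (zs Y A') (totR V U) (zs X A) :=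
  .of_mem (((Ext.of_continuousOn hU b.cf).comp (.of_continuous continuous_fst _)
    fun _ k => k.1).prodMk ((ext_clm (.of_continuousOn hU b.cB)).mono fun _ k => ⟨k.1, trivial⟩))
    (fun _ k => ⟨b.mf k.1, b.mem _ k.1 _ k.2⟩) fun _ k e => b.inj _ k.1 _ k.2 e

theorem BMap.fib (b : BMap V' U' V U f B) (hU : IsLocallyClosed U') {y : Y} (hy : y ∈ U')
    {S : (Fin r → ℝ) →ₗ[ℝ] A'} (hS : Function.Injective S) (m : ∀ v, V' y (S v) = S v)
    (τ : H (totR V U) (zs X A)) : Function.Injective ((B y : A' →ₗ[ℝ] A) ∘ₗ S) ∧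
      pull (fun v => (y, S v)) univ {0} (pull (fun z => (f z.1, B z.1 z.2)) (totR V' U') (zs Y A') τ)
        = pull (fun v => (f y, ((B y : A' →ₗ[ℝ] A) ∘ₗ S) v)) univ {0} τ :=
  ⟨(injective_iff_map_eq_zero _).2 fun v k => hS ((b.inj y hy _ (m v) k).trans S.map_zero.symm),
    pull_pull' (ok_fibR hy hS m) (b.ok hU) (fun _ _ => rfl) τ⟩

theorem FibNe.pull {τ : H (totR V U) (zs X A)} (h : FibNe V r U τ) (b : BMap V' U' V U f B)
    (hU : IsLocallyClosed U') :
    FibNe V' r U' (pull (fun z => (f z.1, B z.1 z.2)) (totR V' U') (zs Y A') τ) :=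
  fun y hy S hS m => by
    rw [(b.fib hU hy hS m τ).2]
    exact h _ (b.mf hy) _ (b.fib hU hy hS m τ).1 fun v => b.mem y hy _ (m v)

theorem IsThomR.pull {τ : H (totR V U) (zs X A)} (h : IsThomR V r U o τ) (b : BMap V' U' V U f B)
    (hU : IsLocallyClosed U') (e : ∀ y ∈ U', ∀ c : Fin r → A', (∀ i, V' y (c i) = c i) →
      SignType.sign (o (f y) fun i => B y (c i)) = SignType.sign (o' y c)) :
    IsThomR V' r U' o' (pull (fun z => (f z.1, B z.1 z.2)) (totR V' U') (zs Y A') τ) :=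
  ⟨h.1.pull _ _ _, fun y hy S hS m => by
    rw [(b.fib hU hy hS m τ).2, h.2 _ (b.mf hy) _ (b.fib hU hy hS m τ).1
      fun v => b.mem y hy _ (m v), ← e y hy _ fun i => m _]
    rfl⟩

theorem pull_thR (h : RB V r U) (ho : Ori V r U o) (h' : RB V' r U') (ho' : Ori V' r U' o')
    (b : BMap V' U' V U f B) (e : ∀ y ∈ U', ∀ c : Fin r → A', (∀ i, V' y (c i) = c i) →
      SignType.sign (o (f y) fun i => B y (c i)) = SignType.sign (o' y c)) :
    pull (fun z => (f z.1, B z.1 z.2)) (totR V' U') (zs Y A') (thR V r U o) = thR V' r U' o' :=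
  ((thR_spec h ho).pull b h'.lc e).unique (thR_spec h' ho') h' ho'

end Map

end Pool.Agent.Work.MP_8c604c_gt.T
end
end

-- merged part: Pool.Agent.Work.MP_8c604c_gt.T.AGys
section
/-! The Gysin sequence of a pair with a Thom class. -/

noncomputable section

set_option linter.unusedSectionVars false

namespace Pool.Agent.Work.MP_8c604c_gt.T

open Set Topology Filter Pool.Agent.Work.MP_849ab0_ag.G

variable {X Y : Type} [TopologicalSpace X] [TopologicalSpace Y]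

theorem ok_fgt {U V Z : Set X} (h : V ⊆ U) : Ok id V univ U Z := .id h fun _ _ _ => trivial

/-- `π : E → U` is a cohomology equivalence, `τ` is a Thom class of `Z` in `E` and `e` is its
Euler class. -/
structure GysD (π : X → Y) (E Z : Set X) (U : Set Y) (τ : H E Z) (d : ℤ) (e : H U univ) : Prop where
  ok : Ok π E univ U univ
  deg : IsDeg d τ
  thom : Function.Bijective fun a : H U univ => cup E Z (pull π E univ a) τ
  base : Function.Bijective (pull π E univ : H U univ → H E univ)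
  eul : pull π E univ e = pull id E univ τ

namespace GysD

variable {π : X → Y} {E Z : Set X} {U : Set Y} {τ : H E Z} {d : ℤ} {e : H U univ}

/-- the Thom isomorphism -/
def thomE (h : GysD π E Z U τ d e) : H U univ ≃ₗ[ℂ] H E Z :=
  LinearEquiv.ofBijective ((cup E Z).flip τ ∘ₗ pull π E univ) h.thom

theorem thomE_apply (h : GysD π E Z U τ d e) (a : H U univ) :
    h.thomE a = cup E Z (pull π E univ a) τ := rfl

/-- the Gysin map -/
def gys (h : GysD π E Z U τ d e) : H (E \ Z) univ →ₗ[ℂ] H U univ :=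
  h.thomE.symm.toLinearMap ∘ₗ dlt E Z

theorem gys_spec (h : GysD π E Z U τ d e) (c : H (E \ Z) univ) :
    cup E Z (pull π E univ (h.gys c)) τ = dlt E Z c := h.thomE.apply_symm_apply _

theorem gys_eq (h : GysD π E Z U τ d e) {c : H (E \ Z) univ} {a : H U univ} :
    h.gys c = a ↔ dlt E Z c = cup E Z (pull π E univ a) τ := h.thomE.symm_apply_eq

theorem isDeg_e (h : GysD π E Z U τ d e) : IsDeg d e :=
  isDeg_iff.2 (h.base.1 (by rw [pull_prj, h.eul, isDeg_iff.1 (h.deg.pull _ _ _)]))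

theorem ok0 (h : GysD π E Z U τ d e) : Ok π (E \ Z) univ U univ :=
  .of_mem (h.ok.ext.mono sdiff_subset) (h.ok.maps.mono_left sdiff_subset) fun _ _ _ => trivial

theorem res_pull (h : GysD π E Z U τ d e) (a : H U univ) :
    pull id (E \ Z) univ (pull π E univ a) = pull π (E \ Z) univ a :=
  pull_pull' (ok_fgt sdiff_subset) h.ok (fun _ _ => rfl) a

theorem fgt_thom (h : GysD π E Z U τ d e) (a : H U univ) :
    pull id E univ (cup E Z (pull π E univ a) τ) = pull π E univ (a * e) := by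
  rw [fgt_cm, pull_mul h.ok, h.eul]

theorem aux : (E \ Z) \ univ = E \ univ := by simp

theorem pull_eq_zero (h : GysD π E Z U τ d e) (a : H U univ) :
    pull π (E \ Z) univ a = 0 ↔ ∃ b, a = b * e := by
  rw [← h.res_pull, exact_supp_res rfl aux]
  constructor
  · rintro ⟨c, hc⟩
    obtain ⟨b, rfl⟩ := h.thom.2 c
    exact ⟨b, h.base.1 (hc.symm.trans (h.fgt_thom b))⟩
  · rintro ⟨b, rfl⟩
    exact ⟨_, h.fgt_thom b⟩

theorem gys_eq_zero (h : GysD π E Z U τ d e) (c : H (E \ Z) univ) :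
    h.gys c = 0 ↔ ∃ a : H U univ, c = pull π (E \ Z) univ a := by
  rw [h.gys_eq, map_zero, map_zero, LinearMap.zero_apply, exact_res_dlt rfl aux]
  constructor
  · rintro ⟨b, rfl⟩
    obtain ⟨a, rfl⟩ := h.base.2 b
    exact ⟨a, h.res_pull a⟩
  · rintro ⟨a, rfl⟩
    exact ⟨_, h.res_pull a⟩

theorem mul_eq_zero (h : GysD π E Z U τ d e) (b : H U univ) :
    b * e = 0 ↔ ∃ c, h.gys c = b := by
  simp only [h.gys_eq]
  rw [← (injective_iff_map_eq_zero' _).1 h.base.1, ← h.fgt_thom, exact_dlt_supp rfl aux]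
  rfl

theorem gys_pull (h : GysD π E Z U τ d e) (a : H U univ) : h.gys (pull π (E \ Z) univ a) = 0 :=
  (h.gys_eq_zero _).2 ⟨a, rfl⟩

theorem gys_mul_e (h : GysD π E Z U τ d e) (c : H (E \ Z) univ) : h.gys c * e = 0 :=
  (h.mul_eq_zero _).2 ⟨c, rfl⟩

theorem pull_e (h : GysD π E Z U τ d e) : pull π (E \ Z) univ e = 0 :=
  (h.pull_eq_zero _).2 ⟨1, (one_mul _).symm⟩

theorem gys_deg (h : GysD π E Z U τ d e) {p q : ℤ} {c : H (E \ Z) univ} (hc : IsDeg q c)
    (k : q + 1 = p + d) : IsDeg p (h.gys c) :=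
  isDeg_iff.2 (h.thom.1 (by
    change cup E Z (pull π E univ (prj {p} _)) τ = cup E Z (pull π E univ _) τ
    rw [pull_prj, cup_prj_left (t := {p + d}) (by simp) _ h.deg, h.gys_spec, ← k,
      isDeg_iff.1 (hc.dlt _ _)]))

theorem gys_prj (h : GysD π E Z U τ d e) {s t : Set ℤ} (k : ∀ p, p ∈ t ↔ p + d - 1 ∈ s)
    (c : H (E \ Z) univ) : h.gys (prj s c) = prj t (h.gys c) := by
  rw [h.gys_eq, pull_prj, cup_prj_left (t := {p | p - 1 ∈ s}) (fun p => (k p).symm) _ h.deg,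
    h.gys_spec, dlt_prj (t := {p | p - 1 ∈ s}) (by simp)]

theorem gys_mul (h : GysD π E Z U τ d e) {p : ℤ} {a : H U univ} (ha : IsDeg p a)
    (c : H (E \ Z) univ) :
    h.gys (pull π (E \ Z) univ a * c) = (-1 : ℂ) ^ p • (a * h.gys c) := by
  have c1 : CupOK E univ (E \ Z) univ (E \ Z) univ :=
    .of_subset sdiff_subset subset_rfl fun _ _ _ _ => trivial
  rw [h.gys_eq, map_smul, map_smul, LinearMap.smul_apply, pull_mul h.ok, cm_mul, h.gys_spec,
    ← h.res_pull, mulH, cup_res_left (ok_fgt sdiff_subset) (cupU _ _),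
    cup_dlt c1 (cupU E Z) subset_rfl subset_rfl subset_union_left (ha.pull _ _ _)]

theorem gys_mul_evn (h : GysD π E Z U τ d e) {a : H U univ} (ha : Evn a) (c : H (E \ Z) univ) :
    h.gys (pull π (E \ Z) univ a * c) = a * h.gys c :=
  ha.ind (Q := fun a => h.gys (pull π (E \ Z) univ a * c) = a * h.gys c) (by simp)
    (fun a b h1 h2 => by rw [map_add, add_mul, map_add, h1, h2, add_mul])
    fun p a k => by rw [h.gys_mul k, Even.neg_one_zpow (even_two_mul p), one_smul]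

end GysD

variable [RegularSpace X] [SecondCountableTopology X] {A : Type} [NormedAddCommGroup A]
  [NormedSpace ℝ A] [FiniteDimensional ℝ A] {r : ℕ} {V : X → A →L[ℝ] A} {U Z : Set X}
  {o : X → A [⋀^Fin r]→L[ℝ] ℝ}

theorem ok_fstR : Ok Prod.fst (totR V U) univ U univ :=
  .of_mem (.of_continuous continuous_fst _) (fun _ k => k.1) fun _ _ _ => trivial

theorem ok_secR (hU : IsLocallyClosed U) {s : X → A} (hs : ContinuousOn s U)
    (m : ∀ x ∈ U, V x (s x) = s x) (z : ∀ x ∈ U, s x = 0 → x ∈ Z) :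
    Ok (fun x => (x, s x)) U Z (totR V U) (zs X A) :=
  ok_of hU (continuousOn_id.prodMk hs) (fun x k => ⟨k, m x k⟩) z

theorem ok_zeroR : Ok (fun x => (x, (0 : A))) U univ (totR V U) univ :=
  .of_mem (.of_continuous (by fun_prop) _) (fun _ k => ⟨k, map_zero _⟩) fun _ _ _ => trivial

theorem pull_fst_zeroR (c : H (totR V U) univ) :
    pull Prod.fst (totR V U) univ (pull (fun x => (x, (0 : A))) U univ c) = c := by
  rw [pull_pull ok_fstR ok_zeroR, pull_htpy' (g := id) (Z := univ) (U' := totR V U) (Z' := univ)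
    (F := fun z => (z.1.1, z.2 • z.1.2))
    (.of_continuous (by fun_prop) _) (fun x k t _ => ⟨k.1, by
      change V x.1 (t • x.2) = t • x.2
      rw [map_smul, k.2]⟩) (fun _ _ _ _ _ => trivial) (by simp) (by simp), pull_id]

theorem pull_fstR_bij : Function.Bijective (pull Prod.fst (totR V U) univ : H U univ → _) :=
  Function.bijective_iff_has_inverse.2 ⟨pull (fun x => (x, (0 : A))) U univ, fun a => by
    rw [pull_pull' (F := id) ok_zeroR ok_fstR fun _ _ => rfl, pull_id], pull_fst_zeroR⟩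

theorem FibNe.gysD {τ : H (totR V U) (zs X A)} (h0 : FibNe V r U τ) (h : RB V r U)
    (hτ : IsDeg r τ) :
    GysD Prod.fst (totR V U) (zs X A) U τ r (MP_849ab0_ag.G.pull (fun x => (x, (0 : A))) U univ τ) :=
  ⟨ok_fstR, hτ, h0.bij' h hτ, pull_fstR_bij, by
    rw [← pull_fst_zeroR (MP_849ab0_ag.G.pull id _ univ τ), pull_pull' (F := fun x => (x, (0 : A))) ok_zeroR
      (ok_fgt subset_rfl) fun _ _ => rfl]⟩

/-- The Gysin sequence of an oriented real bundle. -/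
theorem gysD_thR (h : RB V r U) (ho : Ori V r U o) :
    GysD Prod.fst (totR V U) (zs X A) U (thR V r U o) r (euR V r o U) :=
  ((thR_spec h ho).fibNe ho).gysD h (thR_spec h ho).1

theorem isDeg_ecR (h : RB V r U) (ho : Ori V r U o) (s : X → A) : IsDeg r (ecR V r o s U Z) :=
  (thR_spec h ho).1.pull _ _ _

theorem isDeg_euR (h : RB V r U) (ho : Ori V r U o) : IsDeg r (euR V r o U) := isDeg_ecR h ho _

/-- all sections give the same class -/
theorem pull_sec_eq (hU : IsLocallyClosed U) {s : X → A} (hs : ContinuousOn s U)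
    (m : ∀ x ∈ U, V x (s x) = s x) (τ : H (totR V U) (zs X A)) :
    pull (fun x => (x, s x)) U univ τ = pull (fun x => (x, (0 : A))) U univ τ := by
  rw [pull_htpy' (f := fun x => (x, (0 : A))) (g := fun x => (x, s x)) (U := U) (Z := univ)
    (U' := totR V U) (Z' := zs X A) (F := fun z => (z.1, z.2 • s z.1)) (ext_htpy hU (continuousOn_fst.prodMk
      (continuousOn_snd.smul (hs.comp continuousOn_fst fun _ k => k.1))))
    (fun x k t _ => ⟨k, by
      change V x (t • s x) = t • s x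
      rw [map_smul, m x k]⟩) (fun _ _ _ _ _ => trivial) (by simp) (by simp)]

theorem fgt_ecR (hU : IsLocallyClosed U) {s : X → A} (hs : ContinuousOn s U)
    (m : ∀ x ∈ U, V x (s x) = s x) (z : ∀ x ∈ U, s x = 0 → x ∈ Z) :
    pull id U univ (ecR V r o s U Z) = euR V r o U := by
  rw [ecR, pull_pull' (F := fun x => (x, s x)) (ok_fgt subset_rfl)
    (ok_secR hU hs m z) fun _ _ => rfl, pull_sec_eq hU hs m]
  rfl

theorem euR_eq_zero (hU : IsLocallyClosed U) {s : X → A} (hs : ContinuousOn s U)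
    (m : ∀ x ∈ U, V x (s x) = s x) (z : ∀ x ∈ U, s x ≠ 0) : euR V r o U = 0 := by
  have := subsingleton_H (U := U) (Z := ∅) (by simp)
  rw [← fgt_ecR (Z := ∅) hU hs m z, Subsingleton.elim (ecR V r o s U ∅) 0, map_zero]

theorem pull_euR {Y A' : Type} [TopologicalSpace Y] [RegularSpace Y] [SecondCountableTopology Y]
    [NormedAddCommGroup A'] [NormedSpace ℝ A'] [FiniteDimensional ℝ A'] {V' : Y → A' →L[ℝ] A'}
    {U' : Set Y} {o' : Y → A' [⋀^Fin r]→L[ℝ] ℝ} {f : Y → X} {B : Y → A' →L[ℝ] A}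
    (h : RB V r U) (ho : Ori V r U o) (h' : RB V' r U') (ho' : Ori V' r U' o')
    (b : BMap V' U' V U f B) (e : ∀ y ∈ U', ∀ c : Fin r → A', (∀ i, V' y (c i) = c i) →
      SignType.sign (o (f y) fun i => B y (c i)) = SignType.sign (o' y c)) :
    pull f U' univ (euR V r o U) = euR V' r o' U' := by
  have z : ∀ {X A : Type} [TopologicalSpace X] [NormedAddCommGroup A] [NormedSpace ℝ A]
      (V : X → A →L[ℝ] A) (U : Set X), Ok (fun x => (x, (0 : X → A) x)) U univ (totR V U) (zs X A) :=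
    fun V U => .of_mem (.of_continuous (by fun_prop) _) (fun _ k => ⟨k, map_zero _⟩)
      fun _ _ _ => trivial
  rw [euR, euR, ecR, ecR, ← pull_thR h ho h' ho' b e,
    pull_pull' (F := fun y => (f y, (0 : A))) (ok_top h'.lc b.cf b.mf) (z V U) fun _ _ => rfl,
    pull_pull' (F := fun y => (f y, (0 : A))) (z V' U') (b.ok h'.lc) fun _ _ => by simp]

end Pool.Agent.Work.MP_8c604c_gt.T
end
end

-- merged part: Pool.Agent.Work.MP_8c604c_gt.T.ZTh
section
/-!
Thom classes for all coefficient rings, torsion free degrees.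
-/

noncomputable section

set_option linter.unusedSectionVars false

namespace Pool.Agent.Work.MP_8c604c_gt.T

open Set Topology Matrix Pool.Agent.Work.MP_849ab0_ag.G

variable {X Y : Type} [TopologicalSpace X] [TopologicalSpace Y]
variable {U Z Z₁ U₂ Z₂ : Set X} {U' Z' : Set Y} {f : X → Y} {d q : ℤ}

/-- the change of coefficients is injective in degree `d` -/
def Tf (d : ℤ) (U Z : Set X) : Prop := ∀ b : TZ.H ℤ U Z, TZ.IsDeg d b → cc b = 0 → b = 0

theorem Van.tf (h : Van d U Z) : Tf d U Z := fun b hb _ => h ℤ b hb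

theorem tf_zero : Tf 0 U Z := fun b hb e => hb.eq_zero_of_ev fun x _ => by
  have := cc_ev x b
  rw [e, map_zero] at this
  exact (FaithfulSMul.algebraMap_eq_zero_iff ℤ ℂ).1 this.symm

theorem Tf.pul (h : Tf d U' Z') (k : ZB f U Z U' Z') : Tf d U Z := fun b hb e => by
  obtain ⟨a, rfl⟩ := (k.all ℤ).2 b
  rw [← TZ.isDeg_iff.1 hb, ← TZ.pull_prj] at e ⊢
  rw [h _ (TZ.isDeg_prj d a) (k.bij.1 (by rw [← cc_pull, e, map_zero])), map_zero]

theorem Tf.of_pul (h : Tf d U Z) (k : ZB f U Z U' Z') : Tf d U' Z' := fun b hb e =>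
  (k.all ℤ).1 (by rw [h _ (hb.pull f U Z) (by rw [cc_pull, e, map_zero]), map_zero])

section LES

variable (h1 : U \ Z₁ = U₂) (h2 : U₂ \ Z₂ = U \ Z)
include h1 h2

theorem Tf.mid (a : Tf d U Z₁) (b : Van d U₂ Z₂) (c : Van (d - 1) U₂ Z₂) : Tf d U Z :=
  fun x hx e => by
    obtain ⟨y, rfl⟩ := (TZ.exact_supp_res h1 h2 x).1 (b ℤ _ (hx.pull _ _ _))
    rw [← TZ.isDeg_iff.1 hx, ← TZ.pull_prj] at e ⊢
    rw [a _ (TZ.isDeg_prj d y) (supp_inj h1 h2 (fun _ => c.eq_zero) (cc_deg (TZ.isDeg_prj d y))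
      (by rw [← cc_pull, e])), map_zero]

theorem Tf.res (a : Tf d U Z) (b : Van (d + 1) U Z₁) (c : Van d U Z₁) : Tf d U₂ Z₂ :=
  fun x hx e => by
    obtain ⟨y, rfl⟩ := (TZ.exact_res_dlt h1 h2 x).1 (b ℤ _ (hx.dlt _ _))
    rw [← TZ.isDeg_iff.1 hx, ← TZ.pull_prj] at e ⊢
    rw [cc_pull] at e
    obtain ⟨z, hz⟩ := (exact_supp_res h1 h2 _).1 e
    rw [a _ (TZ.isDeg_prj d y) (by
      rw [← isDeg_iff.1 (cc_deg (TZ.isDeg_prj d y)), ← hz, ← pull_prj, c.eq_zero (isDeg_prj d z),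
        map_zero]), map_zero]

theorem Tf.dl (a : Tf (d + 1) U Z₁) (b : Van d U Z) : Tf d U₂ Z₂ := fun x hx e => by
  obtain ⟨y, rfl⟩ := (TZ.exact_res_dlt h1 h2 x).1 (a _ (hx.dlt _ _) (by rw [cc_dlt, e, map_zero]))
  rw [← TZ.isDeg_iff.1 hx, ← TZ.pull_prj, b ℤ _ (TZ.isDeg_prj d y), map_zero]

/-- integral classes that restrict to zero -/
theorem Tf.lift (h : Tf d U₂ Z₂) {a : H U Z} (k : IsZ a) (k' : IsDeg d a)
    (e : pull id U₂ Z₂ a = 0) : ∃ c : H U Z₁, IsZ c ∧ IsDeg d c ∧ pull id U Z c = a := by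
  obtain ⟨b, hb, rfl⟩ := k.exists_deg k'
  obtain ⟨y, rfl⟩ := (TZ.exact_supp_res h1 h2 b).1 (h _ (hb.pull _ _ _) (by rw [cc_pull, e]))
  exact ⟨_, isZ_cc _, cc_deg (TZ.isDeg_prj d y), by
    rw [← cc_pull, TZ.pull_prj, TZ.isDeg_iff.1 hb]⟩

/-- integral classes extend -/
theorem Van.extend (h : Van (d + 1) U Z₁) {a : H U₂ Z₂} (k : IsZ a) (k' : IsDeg d a) :
    ∃ c : H U Z, IsZ c ∧ IsDeg d c ∧ pull id U₂ Z₂ c = a := by
  obtain ⟨b, hb, rfl⟩ := k.exists_deg k'
  obtain ⟨y, rfl⟩ := (TZ.exact_res_dlt h1 h2 b).1 (h ℤ _ (hb.dlt _ _))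
  exact ⟨_, isZ_cc _, cc_deg (TZ.isDeg_prj d y), by
    rw [← cc_pull, TZ.pull_prj, TZ.isDeg_iff.1 hb]⟩

theorem dlt_inj' (h : Van d U Z) {a : H U₂ Z₂} (k : IsDeg d a) (e : dlt U Z₁ a = 0) : a = 0 := by
  obtain ⟨y, rfl⟩ := (exact_res_dlt h1 h2 a).1 e
  rw [← isDeg_iff.1 k, ← pull_prj, h.eq_zero (isDeg_prj d y), map_zero]

theorem Gen.of_dlt {ζ : H U₂ Z₂} (h : Gen (d + 1) (dlt U Z₁ ζ)) (hZ : IsZ ζ) (hd : IsDeg d ζ)
    (v : Van d U Z) : Gen d ζ where
  isZ := hZ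
  deg := hd
  ne e := h.ne (by rw [e, map_zero])
  int a ha k := (h.int _ (ha.dl _ _) (k.dlt _ _)).imp fun m e => sub_eq_zero.1
    (dlt_inj' h1 h2 v (k.sub (hd.smul _)) (by rw [map_sub, map_smul, e, sub_self]))
  span a k := (h.span _ (k.dlt _ _)).imp fun m e => sub_eq_zero.1
    (dlt_inj' h1 h2 v (k.sub (hd.smul _)) (by rw [map_sub, map_smul, e, sub_self]))

theorem Van.exists_dlt (h : Van (d + 1) U Z) {τ : H U Z₁} (k : IsZ τ) (k' : IsDeg (d + 1) τ) :
    ∃ ζ : H U₂ Z₂, IsZ ζ ∧ IsDeg d ζ ∧ dlt U Z₁ ζ = τ := by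
  obtain ⟨b, hb, rfl⟩ := k.exists_deg k'
  obtain ⟨y, rfl⟩ := (TZ.exact_dlt_supp h1 h2 b).1 (h ℤ _ (hb.pull _ _ _))
  exact ⟨_, isZ_cc _, cc_deg (TZ.isDeg_prj d y), by
    rw [← cc_dlt, TZ.dlt_prj (t := {d + 1}) (by simp), TZ.isDeg_iff.1 hb]⟩

end LES

theorem gen_one (hU : IsConnected U) : Gen 0 (1 : H U univ) := by
  obtain ⟨x, hx⟩ := hU.1
  have e1 : ∀ y ∈ U, ev y (1 : H U univ) = 1 := fun y hy => ev_one hy (subset_univ _)
  have key : ∀ a : H U univ, IsDeg 0 a → a = ev x a • 1 := fun a ha => by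
    refine sub_eq_zero.1 ((ha.sub (isDeg_oneH.smul _)).eq_zero_of_ev fun y hy => ?_)
    have c : ContinuousOn (fun y => (if ev y a = ev x a then 1 else 0 : SignType)) U := fun z hz =>
      tendsto_const_nhds.congr' ((ev_eventually a hz).mono fun w k => by simp only [k])
    have := hU.2.constant c hy hx
    rw [if_pos rfl] at this
    rw [map_sub, map_smul, e1 y hy, smul_eq_mul, mul_one, sub_eq_zero]
    by_contra k
    rw [if_neg k] at this
    exact zero_ne_one this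
  refine ⟨isZ_oneH, isDeg_oneH, fun e => ?_, fun a ha k => ?_, fun a k => ⟨_, key a k⟩⟩
  · simpa [e] using e1 x hx
  · obtain ⟨m, e⟩ := ha.ev_int x
    exact ⟨m, e ▸ key a k⟩

/-- `τ` is a Thom class for all coefficient rings -/
structure ThZ (π : X → Y) (E Z : Set X) (U : Set Y) (d : ℤ) (τ : H E Z) : Prop where
  base : ZB π E univ U univ
  thom : ∀ (R : Type) [CommRing R], ∃ t : TZ.H R E Z, TZ.IsDeg d t ∧
    (Function.Bijective fun a : TZ.H R U univ => TZ.cup E Z (TZ.pull π E univ a) t) ∧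
    ∀ [Algebra R ℂ] [FaithfulSMul R ℂ], cc t = τ

namespace ThZ

variable {π : X → Y} {E : Set X} {τ : H E Z} [RegularSpace X] [SecondCountableTopology X]
  [RegularSpace Y] [SecondCountableTopology Y]

theorem isZ (h : ThZ π E Z U' d τ) : IsZ τ := by
  obtain ⟨t, -, -, e⟩ := h.thom ℤ
  exact isZ_iff.2 ⟨t, e⟩

theorem deg (h : ThZ π E Z U' d τ) : IsDeg d τ := by
  obtain ⟨t, k, -, e⟩ := h.thom ℤ
  exact e ▸ cc_deg k

theorem bij (h : ThZ π E Z U' d τ) :
    Function.Bijective fun a : H U' univ => cup E Z (pull π E univ a) τ := by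
  obtain ⟨t, -, k, e⟩ := h.thom ℂ
  rw [← Function.Bijective.of_comp_iff _ cc_bij]
  convert cc_bij.comp k using 1
  funext a
  simp only [Function.comp_apply, cc_cup, cc_pull, e]

theorem van (h : ThZ π E Z U' d τ) (v : Van (q - d) U' univ) : Van q E Z := fun R _ b hb => by
  obtain ⟨t, k1, k2, -⟩ := h.thom R
  obtain ⟨a, rfl⟩ := k2.2 b
  rw [v R a (TZ.isDeg_of_cup k1 k2.1 (by rwa [sub_add_cancel]))]
  simp

theorem van_lt (h : ThZ π E Z U' d τ) (k : q < d) : Van q E Z := h.van (van_neg (by omega))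

theorem tf (h : ThZ π E Z U' d τ) (v : Tf (q - d) U' univ) : Tf q E Z := fun b hb e => by
  obtain ⟨t, k1, k2, k3⟩ := h.thom ℤ
  obtain ⟨a, rfl⟩ := k2.2 b
  rw [v a (TZ.isDeg_of_cup k1 k2.1 (by rwa [sub_add_cancel])) (h.bij.1 (by
    simpa only [cc_cup, cc_pull, k3, map_zero, LinearMap.zero_apply] using e))]
  simp

theorem ex (h : ThZ π E Z U' d τ) {c : H E Z} (hc : IsZ c) (hd : IsDeg q c) :
    ∃ a : H U' univ, IsZ a ∧ IsDeg (q - d) a ∧ c = cup E Z (pull π E univ a) τ := by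
  obtain ⟨t, k1, k2, k3⟩ := h.thom ℤ
  obtain ⟨b, hb, rfl⟩ := hc.exists_deg hd
  obtain ⟨a, rfl⟩ := k2.2 b
  exact ⟨_, isZ_cc a, cc_deg (TZ.isDeg_of_cup k1 k2.1 (by rwa [sub_add_cancel])), by
    simp only [cc_cup, cc_pull, k3]⟩

theorem gen (h : ThZ π E Z U' d τ) (hU : IsConnected U') : Gen d τ := by
  have g := gen_one hU
  have e : ∀ t : ℂ, cup E Z (pull π E univ (t • (1 : H U' univ))) τ = t • τ := fun t => by
    rw [map_smul, map_smul, LinearMap.smul_apply, pull_oneH h.base.ok, cm_one]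
  refine ⟨h.isZ, h.deg, fun k => g.ne (h.bij.1 (by simp [k])), fun c hc hd => ?_, fun c hd => ?_⟩
  · obtain ⟨a, a1, a2, rfl⟩ := h.ex hc hd
    obtain ⟨m, rfl⟩ := g.int a a1 (by simpa using a2)
    exact ⟨m, e _⟩
  · obtain ⟨a, rfl⟩ := h.bij.2 c
    obtain ⟨m, rfl⟩ := g.span a (isDeg_of_cup h.deg h.bij.1 (by rwa [zero_add]))
    exact ⟨m, e _⟩

/-- integral classes in the kernel of the pull-back to the sphere bundle -/
theorem ker (h : ThZ π E Z U' d τ) {e : H U' univ} (he : pull π E univ e = pull id E univ τ)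
    (v : Tf q (E \ Z) univ) {a : H U' univ} (ha : IsZ a) (hd : IsDeg q a)
    (k : pull π (E \ Z) univ a = 0) : ∃ b, IsZ b ∧ IsDeg (q - d) b ∧ a = b * e := by
  obtain ⟨c, c1, c2, c3⟩ := v.lift rfl GysD.aux (ha.pul π E univ) (hd.pull _ _ _) (by
    rw [pull_pull' (F := π) (ok_fgt sdiff_subset) h.base.ok fun _ _ => rfl, k])
  obtain ⟨b, b1, b2, rfl⟩ := h.ex c1 c2
  exact ⟨b, b1, b2, h.base.bij.1 (by rw [← c3, fgt_cm, pull_mul h.base.ok, he])⟩

/-- integral classes of the sphere bundle that come from the base -/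
theorem desc (h : ThZ π E Z U' d τ) (v : Van (q + 1 - d) U' univ) {c : H (E \ Z) univ}
    (hc : IsZ c) (hd : IsDeg q c) :
    ∃ a : H U' univ, IsZ a ∧ IsDeg q a ∧ pull π (E \ Z) univ a = c := by
  obtain ⟨b, b1, b2, rfl⟩ := (h.van v).extend rfl GysD.aux hc hd
  obtain ⟨a, a1, rfl⟩ := h.base.lift b1
  exact ⟨a, a1, h.base.isDeg b2,
    (pull_pull' (F := π) (ok_fgt sdiff_subset) h.base.ok (fun _ _ => rfl) a).symm⟩

theorem van_sp (h : ThZ π E Z U' d τ) (v : Van q U' univ) (v' : Van (q + 1 - d) U' univ) :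
    Van q (E \ Z) univ := (v.pul h.base).res rfl GysD.aux (h.van v')

theorem van_base (h : ThZ π E Z U' d τ) (v : Van q (E \ Z) univ) (v' : Van (q - d) U' univ) :
    Van q U' univ := (Van.mid rfl GysD.aux (h.van v') v).of_pul h.base

theorem tf_sp (h : ThZ π E Z U' d τ) (v : Tf q U' univ) (v1 : Van (q + 1 - d) U' univ)
    (v2 : Van (q - d) U' univ) : Tf q (E \ Z) univ :=
  (v.pul h.base).res rfl GysD.aux (h.van v1) (h.van v2)

theorem tf_sp' (h : ThZ π E Z U' d τ) (v : Tf (q + 1 - d) U' univ) (v1 : Van q U' univ) :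
    Tf q (E \ Z) univ := (h.tf v).dl rfl GysD.aux (v1.pul h.base)

theorem tf_base (h : ThZ π E Z U' d τ) (v : Tf (q - d) U' univ) (v1 : Van q (E \ Z) univ)
    (v2 : Van (q - 1) (E \ Z) univ) : Tf q U' univ :=
  ((h.tf v).mid rfl GysD.aux v1 v2).of_pul h.base

end ThZ

variable [RegularSpace X] [SecondCountableTopology X]

theorem CB.thZ {J : Type} [Fintype J] {P : X → Matrix J J ℂ} {r : ℕ} (h : CB P r U) :
    ThZ Prod.fst (tot P U) (zs X (J → ℂ)) U (2 * r) (th P r U) := by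
  have o := Gys_ok P U
  refine ⟨.of_section (s := fun x => (x, 0)) (F := fun z => (z.1.1, z.2 • z.1.2)) o
    (.of_mem (.of_continuous (by fun_prop) _) (fun x hx => ⟨hx, mulVec_zero _⟩)
      fun _ _ _ => trivial) (fun _ _ => rfl) (.of_continuous (by fun_prop) _)
    (fun z hz t _ => ⟨hz.1, by rw [mulVec_smul, hz.2]⟩) (fun _ _ _ _ _ => trivial)
    (fun z _ => by simp) fun z _ => by simp, fun R _ => ?_⟩
  choose W T S h1 h2 h3 using fun x : U => h.exists_chart x.2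
  have ch : ∀ i, TZ.ChartV Prod.fst (tot P U) (zs X (J → ℂ)) U (W i) (fun z => S i z.1 *ᵥ z.2)
      fun z => (z.1, T i z.1 *ᵥ z.2) := fun i =>
    ⟨(h2 i).op, (h2 i).extg, (h2 i).exts, (h2 i).mem, (h2 i).fst, (h2 i).snd, (h2 i).inv, (h2 i).zero⟩
  have fb := TZ.fib_orient (R := R) (Fin r)
  rw [Fintype.card_fin] at fb
  obtain ⟨τ, t1, t2⟩ := TZ.exists_thomV fb o.ext o.maps (.of_isClosed isClosed_zs _) ch
    (fun y hy => ⟨⟨y, hy⟩, h1 _⟩) fun i j y k k' =>
      TZ.orient_end (M := (S j y).mulVecLin ∘ₗ (T i y).mulVecLin) fun v w e => by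
        have a := frame_mem (h3 i y k).1 (h3 i y k).2
        refine frame_inj (h3 i y k).1 ?_
        rw [← a v, ← a w, ← (h3 j y ⟨k.1, k'⟩).2, ← mulVec_mulVec, ← mulVec_mulVec]
        exact congrArg _ e
  refine ⟨τ, t1, TZ.thom_isoV fb o.ext o.maps (.univ _) (.of_isClosed isClosed_zs _) (by simp)
    (by simp) t1 fun y hy => ⟨_, _, _, h1 ⟨y, hy⟩, ch _, t2 _⟩, ?_⟩
  intro _ _
  refine IsThom.eq_th h ⟨cc_deg t1, fun x hx T' hT m => fib_of_frame hx (h3 ⟨x, hx⟩ x ⟨hx, h1 _⟩).1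
    (h3 ⟨x, hx⟩ x ⟨hx, h1 _⟩).2 ?_ (Fintype.card_fin r) hT m⟩
  rw [← cc_pull, t2 ⟨x, hx⟩ x ⟨hx, h1 _⟩, cc_orC]

theorem CB.isZ_th {J : Type} [Fintype J] {P : X → Matrix J J ℂ} {r : ℕ} (h : CB P r U) :
    IsZ (th P r U) := h.thZ.isZ

theorem CB.isZ_ec {J : Type} [Fintype J] {P : X → Matrix J J ℂ} {r : ℕ} (h : CB P r U)
    (s : X → J → ℂ) (Z : Set X) : IsZ (ec P r s U Z) := h.isZ_th.pul _ _ _

theorem CB.isZ_eu {J : Type} [Fintype J] {P : X → Matrix J J ℂ} {r : ℕ} (h : CB P r U) :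
    IsZ (eu P r U) := h.isZ_ec _ _

theorem CB.fst_eu {J : Type} [Fintype J] {P : X → Matrix J J ℂ} {r : ℕ} (h : CB P r U) :
    pull Prod.fst (tot P U) univ (eu P r U) = pull id (tot P U) univ (th P r U) := by
  have := h.fgt_thm 1
  rw [one_mul, thm_apply, pull_oneH (Gys_ok P U), cm_one] at this
  exact this.symm

variable {A : Type} [NormedAddCommGroup A] [NormedSpace ℝ A] [FiniteDimensional ℝ A] {r : ℕ}
  {V : X → A →L[ℝ] A} {o : X → A [⋀^Fin r]→L[ℝ] ℝ}

theorem RB.exists_pos (h : RB V r U) (ho : Ori V r U o) (hr : 0 < r) {x : X} (hx : x ∈ U) :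
    ∃ (W : Set X) (T : X → (Fin r → ℝ) →L[ℝ] A) (L : X → A →L[ℝ] (Fin r → ℝ)),
      x ∈ W ∧ Frame V U W T L ∧ ∀ y ∈ U ∩ W, 0 < o y fun i => T y (Pi.single i 1) := by
  have key : ∀ (W : Set X) (T : X → (Fin r → ℝ) →L[ℝ] A) (L : X → A →L[ℝ] (Fin r → ℝ)),
      x ∈ W → Frame V U W T L → (0 < o x fun i => T x (Pi.single i 1)) →
      ∃ (W : Set X) (T : X → (Fin r → ℝ) →L[ℝ] A) (L : X → A →L[ℝ] (Fin r → ℝ)),
        x ∈ W ∧ Frame V U W T L ∧ ∀ y ∈ U ∩ W, 0 < o y fun i => T y (Pi.single i 1) := by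
    intro W T L h1 h2 h3
    have c : ContinuousOn (fun y => o y fun i => T y (Pi.single i 1)) (U ∩ W) :=
      (continuous_eval (F := A [⋀^Fin r]→L[ℝ] ℝ)).comp_continuousOn
        ((ho.cont.mono inter_subset_left).prodMk
          (continuousOn_pi.2 fun i => h2.cT.clm_apply continuousOn_const))
    obtain ⟨W', w1, w2⟩ := continuousOn_iff'.1 c _ (isOpen_Ioi (a := 0))
    exact ⟨W ∩ W', T, L, ⟨h1, (w2.le ⟨h3, hx, h1⟩).1⟩,
      h2.mono (h2.op.inter w1) inter_subset_left, fun y k => (w2.ge ⟨k.2.2, k.1, k.2.1⟩).1⟩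
  obtain ⟨W, T, L, h1, h2⟩ := h.exists_frame hx
  rcases (ho.ne x hx _ (indep_single (T := (T x : (Fin r → ℝ) →ₗ[ℝ] A)) (h2.inj ⟨hx, h1⟩))
    fun i => h2.mem x ⟨hx, h1⟩ _).lt_or_gt with k | k
  · let D : Fin r → ℝ := Function.update 1 ⟨0, hr⟩ (-1)
    let G : (Fin r → ℝ) →L[ℝ] Fin r → ℝ := LinearMap.toContinuousLinearMap (diagonal D).toLin'
    have g : ∀ v, G (G v) = v := fun v => funext fun i => by
      change (diagonal D *ᵥ (diagonal D *ᵥ v)) i = v i
      rw [mulVec_diagonal, mulVec_diagonal]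
      by_cases e : i = ⟨0, hr⟩
      · simp [D, e]
      · simp [D, e]
    have dg : LinearMap.det (diagonal D).toLin' = -1 := by
      rw [LinearMap.det_toLin', det_diagonal, Finset.prod_update_of_mem (Finset.mem_univ _)]
      simp
    refine key W (fun y => (T y).comp G) (fun y => G.comp (L y)) h1
      ⟨h2.op, h2.cT.clm_comp continuousOn_const, continuousOn_const.clm_comp h2.cL,
        fun y k v => h2.mem y k _, fun y k v => ?_, fun y k a e => ?_⟩ ?_
    · change G (L y (T y (G v))) = v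
      rw [h2.left y k, g]
    · change T y (G (G (L y a))) = a
      rw [g, h2.right y k a e]
    · have := form_comp (o x) (T x : (Fin r → ℝ) →ₗ[ℝ] A) (diagonal D).toLin'
      rw [dg] at this
      exact lt_of_lt_of_eq (by simpa using k) this.symm
  · exact key W T L h1 h2 k

theorem RB.thZ (h : RB V r U) (ho : Ori V r U o) (hr : 0 < r) :
    ThZ Prod.fst (totR V U) (zs X A) U r (thR V r U o) := by
  have o1 : Ok Prod.fst (totR V U) univ U univ := ok_fstR
  refine ⟨.of_section (s := fun x => (x, 0)) (F := fun z => (z.1.1, z.2 • z.1.2)) o1 ok_zeroR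
    (fun _ _ => rfl) (.of_continuous (by fun_prop) _) (fun x k t _ => ⟨k.1, by
      change V x.1 (t • x.2) = t • x.2
      rw [map_smul, k.2]⟩) (fun _ _ _ _ _ => trivial) (by simp) (by simp), fun R _ => ?_⟩
  choose W T L h1 h2 h3 using fun x : U => h.exists_pos ho hr x.2
  have ch : ∀ i, TZ.ChartV Prod.fst (totR V U) (zs X A) U (W i) (fun z => L i z.1 z.2)
      fun z => (z.1, T i z.1 z.2) := fun i =>
    have c := (h2 i).chart h.lc
    ⟨c.op, c.extg, c.exts, c.mem, c.fst, c.snd, c.inv, c.zero⟩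
  obtain ⟨τ, t1, t2⟩ := TZ.exists_thomV (TZ.fib_orR (R := R) r) o1.ext o1.maps
    (.of_isClosed isClosed_zsR _) ch (fun y hy => ⟨⟨y, hy⟩, h1 _⟩) fun i j y k k' => by
      have e : ∀ v, T j y (L j y (T i y v)) = T i y v := fun v =>
        (h2 j).right y ⟨k.1, k'⟩ _ ((h2 i).mem y k v)
      have := form_comp (o y) (T j y : (Fin r → ℝ) →ₗ[ℝ] A)
        ((L j y : A →ₗ[ℝ] _) ∘ₗ (T i y : (Fin r → ℝ) →ₗ[ℝ] A))
      simp only [LinearMap.comp_apply, ContinuousLinearMap.coe_coe, e] at this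
      have p := (mul_pos_iff_of_pos_right (h3 j y ⟨k.1, k'⟩)).1 (this ▸ h3 i y k)
      have := TZ.pull_lin (T := (L j y : A →ₗ[ℝ] _) ∘ₗ (T i y : (Fin r → ℝ) →ₗ[ℝ] A))
        (fun a b k0 => (h2 i).inj k (by rw [← e, ← e b]; exact congrArg _ k0)) (TZ.orR R r)
      rw [sign_pos p, SignType.coe_one, one_smul] at this
      exact this
  refine ⟨τ, t1, TZ.thom_isoV (TZ.fib_orR r) o1.ext o1.maps (.univ _) (.of_isClosed isClosed_zsR _)
    (by simp) (by simp) t1 fun y hy => ⟨_, _, _, h1 ⟨y, hy⟩, ch _, t2 _⟩, ?_⟩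
  intro _ _
  refine IsThomR.unique ⟨cc_deg t1, fun x hx S hS m => ?_⟩ (thR_spec h ho) h ho
  have k : x ∈ U ∩ W ⟨x, hx⟩ := ⟨hx, h1 _⟩
  obtain ⟨G, -, g1, g2⟩ := fib_change (τ := cc τ) h hx (S := (T ⟨x, hx⟩ x : (Fin r → ℝ) →ₗ[ℝ] A))
    ((h2 _).inj k) ((h2 _).mem x k) hS m
  have := form_comp (o x) (T ⟨x, hx⟩ x : (Fin r → ℝ) →ₗ[ℝ] A) G
  simp only [g1] at this
  have p := sign_pos (h3 _ x k)
  simp only [ContinuousLinearMap.coe_coe] at this g2
  rw [g2, this, sign_mul, p, mul_one, ← cc_pull, ← cc_orR (R := R), ← t2 _ x k]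

end Pool.Agent.Work.MP_8c604c_gt.T
end
end
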