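import Pool.Agent.Work.MP_8c604c_gt.H.Base
import Pool.Agent.Work.MP_8c604c_gt.T.TD
import Pool.Agent.Work.MP_8c604c_gt.T.Orient
import Mathlib

-- merged part: Pool.Agent.Work.MP_8c604c_gt.T.Ext
section
-- merged part: Pool.Agent.Work.MP_8c604c_gt.T.Pr
section
/-!
Elementary facts on the projector model of quaternionic projective space (owner helper45).
-/

set_option maxSynthPendingDepth 3

noncomputable section

namespace Pool.Agent.Work.MP_8c604c_gt.T

open Set Topology Filter Module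
open scoped Quaternion ContDiff
open Pool.Agent.Work.MP_8c604c_gt.H

variable {n : ℕ}

/-- a real bilinear map of finite dimensional spaces as a continuous one -/
def bil {A B C : Type} [NormedAddCommGroup A] [NormedSpace ℝ A] [FiniteDimensional ℝ A]
    [NormedAddCommGroup B] [NormedSpace ℝ B] [FiniteDimensional ℝ B] [NormedAddCommGroup C]
    [NormedSpace ℝ C] (f : A →ₗ[ℝ] B →ₗ[ℝ] C) : A →L[ℝ] B →L[ℝ] C :=
  LinearMap.toContinuousLinearMap
    (((LinearMap.toContinuousLinearMap : (B →ₗ[ℝ] C) ≃ₗ[ℝ] B →L[ℝ] C) :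
      (B →ₗ[ℝ] C) →ₗ[ℝ] B →L[ℝ] C).comp f)

/-- outer product -/
def op : EH n →L[ℝ] EH n →L[ℝ] AM n :=
  bil (LinearMap.mk₂ ℝ (fun a b => WithLp.toLp 2 fun i => star (a i.1) * b i.2)
    (fun a a' b => by ext1 i; simp [add_mul]) (fun r a b => by ext1 i; simp)
    (fun a b b' => by ext1 i; simp [mul_add]) (fun r a b => by ext1 i; simp))

/-- row vector times matrix -/
def rm : EH n →L[ℝ] AM n →L[ℝ] EH n :=
  bil (LinearMap.mk₂ ℝ (fun z X => WithLp.toLp 2 fun j => ∑ i, z i * X (i, j))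
    (fun a a' b => by ext1 i; simp [add_mul, Finset.sum_add_distrib])
    (fun r a b => by ext1 i; simp [Finset.smul_sum])
    (fun a b b' => by ext1 i; simp [mul_add, Finset.sum_add_distrib])
    (fun r a b => by ext1 i; simp [Finset.smul_sum]))

/-- matrix product -/
def mm : AM n →L[ℝ] AM n →L[ℝ] AM n :=
  bil (LinearMap.mk₂ ℝ (fun X Y => WithLp.toLp 2 fun i => ∑ j, X (i.1, j) * Y (j, i.2))
    (fun a a' b => by ext1 i; simp [add_mul, Finset.sum_add_distrib])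
    (fun r a b => by ext1 i; simp [Finset.smul_sum])
    (fun a b b' => by ext1 i; simp [mul_add, Finset.sum_add_distrib])
    (fun r a b => by ext1 i; simp [Finset.smul_sum]))

/-- conjugate transpose -/
def adj : AM n →L[ℝ] AM n :=
  LinearMap.toContinuousLinearMap
    { toFun := fun X => WithLp.toLp 2 fun i => star (X (i.2, i.1))
      map_add' := fun a b => by ext1 i; simp
      map_smul' := fun r a => by ext1 i; simp }

theorem op_apply (a b : EH n) (i) : op a b i = star (a i.1) * b i.2 := rfl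
theorem rm_apply (z : EH n) (X : AM n) (j) : rm z X j = ∑ i, z i * X (i, j) := rfl
theorem mm_apply (X Y : AM n) (i) : mm X Y i = ∑ j, X (i.1, j) * Y (j, i.2) := rfl
theorem adj_apply (X : AM n) (i) : adj X i = star (X (i.2, i.1)) := rfl

theorem rm_op (u a b : EH n) : rm u (op a b) = hm a u • b := by
  ext1 j; simp [rm_apply, op_apply, hm, Finset.sum_mul, mul_assoc]

theorem rm_csmul (c : ℍ) (u : EH n) (X : AM n) : rm (c • u) X = c • rm u X := by
  ext1 j; simp [rm_apply, Finset.mul_sum, mul_assoc]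

theorem op_csmul (c : ℍ) (a b : EH n) : op (c • a) b = op a (star c • b) := by
  ext1 j; simp [op_apply, mul_assoc]

theorem mm_op (a b : EH n) (X : AM n) : mm (op a b) X = op a (rm b X) := by
  ext1 j; simp [mm_apply, op_apply, rm_apply, Finset.mul_sum, mul_assoc]

theorem rm_mm (z : EH n) (X Y : AM n) : rm z (mm X Y) = rm (rm z X) Y := by
  ext1 j
  simp only [mm_apply, rm_apply, Finset.mul_sum, Finset.sum_mul, mul_assoc]
  exact Finset.sum_comm

theorem adj_op (a b : EH n) : adj (op a b) = op b a := by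
  ext1 j; simp [adj_apply, op_apply]

theorem op_smul_smul (c : ℍ) (a b : EH n) : op (c • a) (c • b) = ‖c‖ ^ 2 • op a b := by
  rw [op_csmul, smul_smul, q_star_mul, coe_smul, map_smul]

theorem pr_eq (z : EH n) : pr z = (‖z‖ ^ 2)⁻¹ • op z z := by
  ext1 i; rfl

theorem norm_csmul (c : ℍ) (z : EH n) : ‖c • z‖ = ‖c‖ * ‖z‖ := norm_smul c z

theorem pr_smul {c : ℍ} (hc : c ≠ 0) (z : EH n) : pr (c • z) = pr z := by
  rw [pr_eq, pr_eq, op_smul_smul, norm_csmul, smul_smul, mul_pow, mul_inv, mul_right_comm,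
    inv_mul_cancel₀ (pow_ne_zero _ (norm_ne_zero_iff.2 hc)), one_mul]

theorem pr_rsmul {r : ℝ} (hr : r ≠ 0) (z : EH n) : pr (r • z) = pr z := by
  rw [← coe_smul, pr_smul (coe_ne_zero hr)]

theorem rm_pr (u z : EH n) : rm u (pr z) = nu z u • z := by
  rw [pr_eq, map_smul, rm_op, nu_def, smul_assoc]

theorem rm_pr_self {z : EH n} (hz : z ≠ 0) : rm z (pr z) = z := by
  rw [rm_pr, nu_self hz, one_smul]

theorem pr_eq_iff {z w : EH n} (_hz : z ≠ 0) (hw : w ≠ 0) :
    pr z = pr w ↔ ∃ c : ℍ, c ≠ 0 ∧ w = c • z := by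
  refine ⟨fun e => ?_, fun ⟨c, hc, e⟩ => by rw [e, pr_smul hc]⟩
  have h : w = nu z w • z := by rw [← rm_pr, e, rm_pr_self hw]
  exact ⟨nu z w, fun k => hw (by rw [h, k, zero_smul]), h⟩

theorem pr_mem {z : EH n} (hz : z ≠ 0) : pr z ∈ MH n := ⟨z, hz, rfl⟩

/-- local sections of `pr` -/
theorem pr_rm {p : AM n} (hp : p ∈ MH n) {u : EH n} (h : rm u p ≠ 0) : pr (rm u p) = p := by
  obtain ⟨z, hz, rfl⟩ := hp
  rw [rm_pr] at h ⊢
  exact pr_smul (fun e => h (by rw [e, zero_smul])) z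

theorem contDiffOn_pr : ContDiffOn ℝ ∞ (pr : EH n → AM n) {0}ᶜ := by
  rw [funext pr_eq]
  exact (((contDiff_norm_sq ℝ).contDiffOn).inv fun z hz =>
    pow_ne_zero _ (norm_ne_zero_iff.2 hz)).smul (op.contDiff.clm_apply contDiff_id).contDiffOn

theorem continuousOn_pr : ContinuousOn (pr : EH n → AM n) {0}ᶜ := contDiffOn_pr.continuousOn

theorem continuousOn_dpr : ContinuousOn (fderiv ℝ (pr : EH n → AM n)) {0}ᶜ :=
  contDiffOn_pr.continuousOn_fderiv_of_isOpen isOpen_compl_singleton (by exact_mod_cast le_top)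

theorem differentiableAt_pr {z : EH n} (hz : z ≠ 0) : DifferentiableAt ℝ pr z :=
  (contDiffOn_pr.contDiffAt (isOpen_compl_singleton.mem_nhds hz)).differentiableAt (by simp)

theorem fderiv_pr {z : EH n} (hz : z ≠ 0) (u : EH n) :
    fderiv ℝ pr z u = (‖z‖ ^ 2)⁻¹ • (op (hor z u) z + op z (hor z u)) := by
  have n0 : ‖z‖ ^ 2 ≠ 0 := pow_ne_zero _ (norm_ne_zero_iff.2 hz)
  have h1 := (hasDerivAt_inv n0).comp_hasFDerivAt z (hasStrictFDerivAt_norm_sq z).hasFDerivAt
  have h2 := (op (n := n)).hasFDerivAt_of_bilinear (hasFDerivAt_id z) (hasFDerivAt_id z)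
  have h3 := h1.smul h2
  have e : (pr : EH n → AM n) = ((fun x => x⁻¹) ∘ fun x : EH n => ‖x‖ ^ 2) •
      fun y => op (id y) (id y) := funext pr_eq
  rw [e, h3.fderiv]
  have k : op (nu z u • z) z + op z (nu z u • z) = (2 * (nu z u).re) • op z z := by
    rw [op_csmul, ← map_add, ← add_smul, Quaternion.star_add_self', ← map_smul, ← coe_smul]
  have k2 : inner ℝ z u = ‖z‖ ^ 2 * (nu z u).re := by
    rw [real_inner_comm, inner_re, ← star_hm, hm_eq_nu hz]; simp
  simp only [hor_def, map_sub, sub_apply]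
  simp only [add_apply, smul_apply, Function.comp_apply,
    ContinuousLinearMap.precompR_apply, ContinuousLinearMap.precompL_apply,
    ContinuousLinearMap.smulRight_apply, id, ContinuousLinearMap.id_apply, innerSL_apply_apply,
    ContinuousLinearMap.compL_apply, ContinuousLinearMap.comp_apply, smul_eq_mul, k2]
  rw [show op u z - op (nu z u • z) z + (op z u - op z (nu z u • z)) =
    op z u + op u z - (op (nu z u • z) z + op z (nu z u • z)) by abel, k, smul_sub, smul_smul,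
    sub_eq_add_neg, ← neg_smul]
  congr 2
  simp only [nsmul_eq_mul]
  field_simp
  ring

theorem hor_hor {z : EH n} (hz : z ≠ 0) (u : EH n) : hor z (hor z u) = hor z u :=
  hor_of_nu (nu_hor hz u)

theorem dpr_hor {z : EH n} (hz : z ≠ 0) (u : EH n) :
    fderiv ℝ pr z (hor z u) = fderiv ℝ pr z u := by rw [fderiv_pr hz, fderiv_pr hz, hor_hor hz]

theorem rm_dpr {z : EH n} (hz : z ≠ 0) (u : EH n) : rm z (fderiv ℝ pr z u) = hor z u := by
  have h0 : hm z (hor z u) = 0 := (nu_eq_zero hz).1 (nu_hor hz u)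
  rw [fderiv_pr hz, map_smul, map_add, rm_op, rm_op, ← star_hm, h0, star_zero, zero_smul, zero_add,
    hm_self, coe_smul, smul_smul, inv_mul_cancel₀ (pow_ne_zero _ (norm_ne_zero_iff.2 hz)), one_smul]

theorem dpr_rm {z : EH n} (hz : z ≠ 0) (u : EH n) :
    fderiv ℝ pr z (rm z (fderiv ℝ pr z u)) = fderiv ℝ pr z u := by rw [rm_dpr hz, dpr_hor hz]

theorem dpr_eq_zero {z : EH n} (hz : z ≠ 0) {u : EH n} : fderiv ℝ pr z u = 0 ↔ hor z u = 0 :=
  ⟨fun h => by rw [← rm_dpr hz, h, map_zero], fun h => by rw [← dpr_hor hz, h, map_zero]⟩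

theorem dpr_smul {c : ℍ} (hc : c ≠ 0) {z : EH n} (hz : z ≠ 0) (u : EH n) :
    fderiv ℝ pr (c • z) (c • u) = fderiv ℝ pr z u := by
  rw [fderiv_pr hz, fderiv_pr (smul_ne_zero hc hz), hor_smul_left hc, hor_smul, op_smul_smul,
    op_smul_smul, ← smul_add, norm_csmul, smul_smul, mul_pow, mul_inv, mul_right_comm,
    inv_mul_cancel₀ (pow_ne_zero _ (norm_ne_zero_iff.2 hc)), one_mul]

theorem dpr_act {l : ℍ} (hl : l ≠ 0) (m : ℝ) (c : ℍ) {y : VV n} (hy : y.1 ≠ 0) :
    fderiv ℝ pr (act l m c y).1 (act l m c y).2 = m • fderiv ℝ pr y.1 y.2 := by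
  show fderiv ℝ pr (l • y.1) (l • _) = _
  rw [dpr_smul hl hy, map_add, map_smul,
    (dpr_eq_zero hy).2 ((hor_eq_zero_iff hy _).2 ⟨c, rfl⟩), add_zero]

theorem tan_iff {z : EH n} (hz : z ≠ 0) {X : AM n} : Tan (pr z) X ↔ ∃ u, X = fderiv ℝ pr z u := by
  refine ⟨fun ⟨w, hw, e, u, k⟩ => ?_, fun h => ⟨z, hz, rfl, h⟩⟩
  obtain ⟨c, hc, rfl⟩ := (pr_eq_iff hw hz).1 e
  exact ⟨c • u, by rw [dpr_smul hc hw, k]⟩

theorem Tan.dpr_rm {z : EH n} (hz : z ≠ 0) {X : AM n} (h : Tan (pr z) X) :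
    fderiv ℝ pr z (rm z X) = X := by
  obtain ⟨u, rfl⟩ := (tan_iff hz).1 h
  exact T.dpr_rm hz u

theorem Tan.mem {p X : AM n} (h : Tan p X) : p ∈ MH n := by
  obtain ⟨z, hz, e, -⟩ := h
  exact ⟨z, hz, e⟩

theorem MH_eq : MH n = pr '' Metric.sphere 0 1 := by
  refine subset_antisymm ?_ (image_mono fun z hz => Metric.ne_of_mem_sphere hz one_ne_zero)
  rintro _ ⟨z, hz, rfl⟩
  have := norm_ne_zero_iff.2 (show z ≠ 0 from hz)
  exact ⟨‖z‖⁻¹ • z, by simp [norm_smul, this], pr_rsmul (inv_ne_zero this) z⟩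

theorem isCompact_MH : IsCompact (MH n) := by
  rw [MH_eq]
  exact (isCompact_sphere 0 1).image_of_continuousOn
    (continuousOn_pr.mono fun z hz => Metric.ne_of_mem_sphere hz one_ne_zero)

theorem finrank_H : finrank ℝ ℍ = 4 := Quaternion.finrank_eq_four

/-- the line of `p` as a real bundle of rank four -/
def lineP (p : AM n) : EH n →L[ℝ] EH n := rm.flip p

theorem lineP_apply (p : AM n) (u : EH n) : lineP p u = rm u p := rfl

theorem continuous_lineP : Continuous (lineP : AM n → _) := rm.flip.continuous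

theorem finrank_line {z : EH n} (hz : z ≠ 0) :
    finrank ℝ (LinearMap.range (lineP (pr z) : EH n →ₗ[ℝ] EH n)) = 4 := by
  let f : ℍ →ₗ[ℝ] EH n := ((ContinuousLinearMap.lsmul ℝ ℍ).flip z : ℍ →L[ℝ] EH n)
  have : LinearMap.range (lineP (pr z) : EH n →ₗ[ℝ] EH n) = LinearMap.range f := by
    ext u
    refine ⟨fun ⟨w, e⟩ => ⟨nu z w, by rw [← e]; exact (rm_pr w z).symm⟩, fun ⟨c, e⟩ => ⟨c • z, ?_⟩⟩
    rw [← e]
    show rm (c • z) (pr z) = c • z
    rw [rm_csmul, rm_pr_self hz]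
  rw [this, LinearMap.finrank_range_of_inj (f := f) (smul_left_injective ℍ hz), finrank_H]

theorem rb_lineP : RB lineP 4 (MH n) where
  lc := isCompact_MH.isClosed.isLocallyClosed
  cont := continuous_lineP.continuousOn
  idem := by
    rintro _ ⟨z, hz, rfl⟩ a
    rw [lineP_apply, lineP_apply, rm_pr a, rm_csmul, rm_pr_self hz]
  rank := by
    rintro _ ⟨z, hz, rfl⟩
    exact finrank_line hz

theorem finrank_hor {z : EH n} (hz : z ≠ 0) :
    finrank ℝ (LinearMap.range (horL z : EH n →ₗ[ℝ] EH n)) = 4 * n := by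
  have h1 := (horL z : EH n →ₗ[ℝ] EH n).finrank_range_add_finrank_ker
  have h2 : LinearMap.ker (horL z : EH n →ₗ[ℝ] EH n) =
      LinearMap.range (lineP (pr z) : EH n →ₗ[ℝ] EH n) := by
    ext u
    rw [LinearMap.mem_ker, rb_lineP.mem_range (pr_mem hz)]
    show hor z u = 0 ↔ rm u (pr z) = u
    rw [hor_def, rm_pr, sub_eq_zero, eq_comm]
  rw [h2, finrank_line hz, finrank_E] at h1
  omega

/-- the projector onto the tangent space -/
def tanP (p : AM n) : AM n →L[ℝ] AM n :=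
  (1 + adj) ∘L (mm p - mm.flip p ∘L mm p)

theorem continuous_tanP : Continuous (tanP : AM n → _) := by
  unfold tanP
  have := (mm (n := n)).continuous
  have := (mm (n := n)).flip.continuous
  exact continuous_const.clm_comp (mm.continuous.sub (mm.flip.continuous.clm_comp mm.continuous))

theorem tanP_pr {z : EH n} (hz : z ≠ 0) (X : AM n) : tanP (pr z) X = fderiv ℝ pr z (rm z X) := by
  have e : mm (pr z) X = (‖z‖ ^ 2)⁻¹ • op z (rm z X) := by
    rw [pr_eq, map_smul, smul_apply, mm_op]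
  have e2 : mm (pr z) X - mm (mm (pr z) X) (pr z) = (‖z‖ ^ 2)⁻¹ • op z (hor z (rm z X)) := by
    rw [e, map_smul, smul_apply, mm_op, rm_pr, hor_def, map_sub, smul_sub]
  show (mm (pr z) X - mm (mm (pr z) X) (pr z)) + adj (mm (pr z) X - mm (mm (pr z) X) (pr z)) = _
  rw [e2, map_smul, adj_op, fderiv_pr hz, smul_add, add_comm]

theorem tanP_eq_iff {p : AM n} (hp : p ∈ MH n) {X : AM n} : tanP p X = X ↔ Tan p X := by
  obtain ⟨z, hz, rfl⟩ := hp
  rw [tanP_pr hz]
  exact ⟨fun h => (tan_iff hz).2 ⟨_, h.symm⟩, fun h => h.dpr_rm hz⟩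

theorem tan_tanP {p : AM n} (hp : p ∈ MH n) (X : AM n) : Tan p (tanP p X) := by
  obtain ⟨z, hz, rfl⟩ := hp
  exact (tan_iff hz).2 ⟨_, tanP_pr hz X⟩

theorem finrank_dpr {z : EH n} (hz : z ≠ 0) :
    finrank ℝ (LinearMap.range (fderiv ℝ pr z : EH n →ₗ[ℝ] AM n)) = 4 * n := by
  have h1 := (fderiv ℝ pr z : EH n →ₗ[ℝ] AM n).finrank_range_add_finrank_ker
  have h2 := (horL z : EH n →ₗ[ℝ] EH n).finrank_range_add_finrank_ker
  have h3 : LinearMap.ker (fderiv ℝ pr z : EH n →ₗ[ℝ] AM n) =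
      LinearMap.ker (horL z : EH n →ₗ[ℝ] EH n) := by
    ext u
    exact dpr_eq_zero hz
  rw [h3] at h1
  rw [finrank_hor hz] at h2
  exact Nat.add_right_cancel (h1.trans h2.symm)

theorem rb_tanP : RB tanP (4 * n) (MH n) where
  lc := isCompact_MH.isClosed.isLocallyClosed
  cont := continuous_tanP.continuousOn
  idem _ hp a := (tanP_eq_iff hp).2 (tan_tanP hp a)
  rank := by
    rintro _ ⟨z, hz, rfl⟩
    rw [← finrank_dpr hz]
    refine congrArg (fun F : Submodule ℝ (AM n) => finrank ℝ F) (Submodule.ext fun X => ?_)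
    exact ⟨fun ⟨Y, e⟩ => ⟨_, (tanP_pr hz Y).symm.trans e⟩, fun ⟨u, e⟩ =>
      ⟨X, (tanP_eq_iff (pr_mem hz)).2 ((tan_iff hz).2 ⟨u, e.symm⟩)⟩⟩

end Pool.Agent.Work.MP_8c604c_gt.T
end
end

-- merged part: Pool.Agent.Work.MP_8c604c_gt.T.EqExt
section
/-!
Equivariant extension over a free cell `Circle x D` (owner helper45).
-/

noncomputable section

namespace Pool.Agent.Work.MP_8c604c_gt.T

open Set Topology Metric

/-- continuity can be checked on a compact set that maps onto the domain -/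
theorem contOn_of_cpt {A B X : Type} [TopologicalSpace A] [TopologicalSpace B] [T2Space B]
    [TopologicalSpace X] {K : Set A} (hK : IsCompact K) {π : A → B} (hπ : ContinuousOn π K)
    {J : Set B} (hJ : J ⊆ π '' K) {f : B → X} {G : A → X} (hG : ContinuousOn G K)
    (e : ∀ y ∈ K, f (π y) = G y) : ContinuousOn f J := by
  refine continuousOn_iff_isClosed.2 fun T hT => ?_
  obtain ⟨u, hu, eu⟩ := continuousOn_iff_isClosed.1 hG T hT
  refine ⟨π '' (K ∩ u), ((hK.inter_right hu).image_of_continuousOn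
    (hπ.mono inter_subset_left)).isClosed, Set.ext fun b => ⟨fun h => ?_, fun h => ?_⟩⟩
  · obtain ⟨y, hy, rfl⟩ := hJ h.2
    have : y ∈ G ⁻¹' T ∩ K := ⟨by rw [mem_preimage, ← e y hy]; exact h.1, hy⟩
    rw [eu] at this
    exact ⟨⟨y, ⟨hy, this.1⟩, rfl⟩, h.2⟩
  · obtain ⟨⟨y, hy, rfl⟩, h2⟩ := h
    have : y ∈ u ∩ K := ⟨hy.2, hy.1⟩
    rw [← eu] at this
    exact ⟨by rw [mem_preimage, e y hy.1]; exact this.1, h2⟩

/-- the phase of a complex number (`1` at `0`) -/
def phs (t : ℂ) : Circle := Circle.exp t.arg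

theorem norm_mul_phs (t : ℂ) : (‖t‖ : ℂ) * phs t = t := by
  rw [phs, Circle.coe_exp]; exact Complex.norm_mul_exp_arg_mul_I t

theorem phs_mul {r : ℝ} (hr : 0 < r) (g : Circle) : phs (r * g) = g := by
  rw [phs, Complex.arg_real_mul _ hr, Circle.exp_arg]

theorem phs_ofReal {r : ℝ} (hr : 0 ≤ r) : phs r = 1 := by
  rw [phs, Complex.arg_ofReal_of_nonneg hr, Circle.exp_zero]

/-- `D` is a compact invariant set with an invariant height `ρ`; a map `F` on `D` that is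
equivariant where the height vanishes extends equivariantly to the join `‖t‖ = ρ v`. -/
theorem eq_ext {V X : Type} [TopologicalSpace V] [T2Space V] [TopologicalSpace X]
    {b : Circle → V → V} (hb : Continuous fun z : Circle × V => b z.1 z.2)
    (b1 : ∀ v, b 1 v = v) (bm : ∀ g h v, b (g * h) v = b g (b h v))
    {a : Circle → X → X} (ha : Continuous fun z : Circle × X => a z.1 z.2)
    (a1 : ∀ x, a 1 x = x) (am : ∀ g h x, a (g * h) x = a g (a h x))
    {D : Set V} (hD : IsCompact D) (iD : ∀ g, ∀ v ∈ D, b g v ∈ D) {ρ : V → ℝ}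
    (hρ : ContinuousOn ρ D) (pρ : ∀ v ∈ D, 0 ≤ ρ v) (iρ : ∀ g, ∀ v ∈ D, ρ (b g v) = ρ v)
    {F : V → X} (hF : ContinuousOn F D)
    (eF : ∀ g, ∀ v ∈ D, ρ v = 0 → F (b g v) = a g (F v)) :
    ∃ f : V × ℂ → X, ContinuousOn f {z | z.1 ∈ D ∧ ‖z.2‖ = ρ z.1} ∧
      (∀ g : Circle, ∀ v ∈ D, ∀ t : ℂ, ‖t‖ = ρ v → f (b g v, g * t) = a g (f (v, t))) ∧
      (∀ v, ∀ r : ℝ, 0 ≤ r → f (v, r) = F v) ∧
      ∀ v t, f (v, t) = a (phs t) (F (b (phs t)⁻¹ v)) := by
  let f : V × ℂ → X := fun z => a (phs z.2) (F (b (phs z.2)⁻¹ z.1))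
  have key : ∀ g : Circle, ∀ v ∈ D, f (b g v, ρ v * g) = a g (F v) := fun g v hv => by
    rcases (pρ v hv).eq_or_lt with h | h
    · have : phs (ρ v * g) = 1 := by rw [← h]; simpa using phs_ofReal le_rfl
      simp only [f, this, inv_one, a1, b1]
      exact eF g v hv h.symm
    · simp only [f, phs_mul h, ← bm, inv_mul_cancel, b1]
  have sur : ∀ v ∈ D, ∀ t : ℂ, ‖t‖ = ρ v → ∃ g : Circle, ∃ w ∈ D, (v, t) = (b g w, (ρ w : ℂ) * g) :=
    fun v hv t ht => ⟨phs t, b (phs t)⁻¹ v, iD _ _ hv, by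
      rw [← bm, mul_inv_cancel, b1, iρ _ _ hv, ← ht, norm_mul_phs]⟩
  refine ⟨f, ?_, fun g v hv t ht => ?_, fun v r hr => ?_, fun _ _ => rfl⟩
  · refine contOn_of_cpt (K := univ ×ˢ D) (isCompact_univ.prod hD)
      (π := fun y : Circle × V => (b y.1 y.2, (ρ y.2 : ℂ) * y.1)) (G := fun y => a y.1 (F y.2))
      (hb.continuousOn.prodMk ((Complex.continuous_ofReal.comp_continuousOn
        (hρ.comp continuousOn_snd fun _ h => h.2)).mul
          (continuous_subtype_val.comp continuous_fst).continuousOn)) ?_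
      (ha.comp_continuousOn (continuousOn_fst.prodMk (hF.comp continuousOn_snd fun _ h => h.2)))
      fun y hy => key y.1 y.2 hy.2
    rintro ⟨v, t⟩ ⟨hv, ht⟩
    obtain ⟨g, w, hw, e⟩ := sur v hv t ht
    exact ⟨(g, w), ⟨trivial, hw⟩, e.symm⟩
  · obtain ⟨h, w, hw, e⟩ := sur v hv t ht
    obtain ⟨rfl, rfl⟩ := Prod.mk.inj e
    rw [key h w hw, ← bm, ← am, ← key (g * h) w hw, Circle.coe_mul]
    congr 2
    ring
  · simp only [f, phs_ofReal hr, inv_one, a1, b1]

end Pool.Agent.Work.MP_8c604c_gt.T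
end
end

-- merged part: Pool.Agent.Work.MP_8c604c_gt.T.Ext
section
/-!
Relative general position (owner helper45): nowhere vanishing sections of a continuous family of
idempotents over a compact set of small Hausdorff dimension.
-/

noncomputable section

set_option linter.unusedSectionVars false

namespace Pool.Agent.Work.MP_8c604c_gt.T

open Set Topology Metric Module

variable {P W : Type} [NormedAddCommGroup P] [NormedSpace ℝ P] [FiniteDimensional ℝ P]
  [NormedAddCommGroup W] [NormedSpace ℝ W] [FiniteDimensional ℝ W]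

/-- Tietze for functions on a closed set -/
theorem ext_tietze {X : Type} [TopologicalSpace X] [NormalSpace X] {C : Set X} (hC : IsClosed C)
    {φ : X → W} (hφ : ContinuousOn φ C) : ∃ ψ : X → W, Continuous ψ ∧ EqOn ψ φ C := by
  obtain ⟨g, hg⟩ := ContinuousMap.exists_restrict_eq hC
    (⟨C.domRestrict φ, hφ.domRestrict⟩ : C(C, W))
  exact ⟨g, g.continuous, fun x hx => congrArg (fun f : C(C, W) => f ⟨x, hx⟩) hg⟩

/-- a map without zeros on a closed subset extends without zeros -/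
theorem ext_ne {K C : Set P} (hK : IsCompact K) (hC : IsClosed C) (hCK : C ⊆ K)
    (hd : dimH K < finrank ℝ W) {φ : P → W} (hφ : ContinuousOn φ C) (h0 : ∀ x ∈ C, φ x ≠ 0) :
    ∃ ψ : P → W, Continuous ψ ∧ EqOn ψ φ C ∧ ∀ x ∈ K, ψ x ≠ 0 := by
  obtain ⟨f, hf, ef⟩ := ext_tietze hC hφ
  obtain ⟨δ, hδ, hδC⟩ : ∃ δ : ℝ, 0 < δ ∧ ∀ x ∈ C, δ < ‖f x‖ := by
    rcases C.eq_empty_or_nonempty with rfl | hne
    · exact ⟨1, one_pos, fun _ h => h.elim⟩
    · obtain ⟨x, hx, hm⟩ := (hK.of_isClosed_subset hC hCK).exists_isMinOn hne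
        hf.norm.continuousOn
      have : 0 < ‖f x‖ := norm_pos_iff.2 (by rw [ef hx]; exact h0 x hx)
      exact ⟨‖f x‖ / 2, by linarith, fun y hy => lt_of_lt_of_le (by linarith) (hm hy)⟩
  obtain ⟨g, hg, ga, -⟩ := hf.exists_contDiff_approx 1 (ε := fun _ => δ / 2) continuous_const
    fun _ => by linarith
  have hden : Dense (g '' K)ᶜ :=
    hg.contDiffOn.dense_compl_image_of_dimH_lt_finrank convex_univ (subset_univ K) hd
  obtain ⟨v, hv, hvb⟩ := hden.exists_mem_open (isOpen_ball (x := (0 : W)) (ε := δ / 2))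
    ⟨0, mem_ball_self (by linarith)⟩
  obtain ⟨l, l0, l1, lm⟩ := exists_continuous_zero_one_of_isClosed hC
    (isClosed_le hf.norm continuous_const : IsClosed {x | ‖f x‖ ≤ δ})
    (Set.disjoint_left.2 fun x hx hx' => absurd (hδC x hx) (not_lt.2 hx'))
  refine ⟨fun x => f x + l x • (g x - v - f x), by
    have := hg.continuous; have := l.continuous; fun_prop, fun x hx => ?_, fun x hx => ?_⟩
  · simp [l0 hx, ef hx]
  · by_cases h : ‖f x‖ ≤ δ
    · have : l x = 1 := l1 h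
      simp only [this, one_smul, add_sub_cancel]
      exact fun e => hv ⟨x, hx, sub_eq_zero.1 e⟩
    · intro e
      have e1 : f x = -(l x • (g x - v - f x)) := eq_neg_of_add_eq_zero_left e
      have e2 : ‖g x - v - f x‖ < δ := by
        have a := ga x
        rw [dist_eq_norm] at a
        have b := mem_ball_zero_iff.1 hvb
        calc ‖g x - v - f x‖ = ‖(g x - f x) - v‖ := by congr 1; abel
          _ ≤ ‖g x - f x‖ + ‖v‖ := norm_sub_le _ _
          _ < δ := by linarith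
      have e3 : ‖f x‖ ≤ ‖g x - v - f x‖ := by
        conv_lhs => rw [e1]
        rw [norm_neg, norm_smul, Real.norm_of_nonneg (lm x).1]
        exact mul_le_of_le_one_left (norm_nonneg _) (lm x).2
      linarith [not_le.1 h]

/-- the local trivialisation of a family of idempotents -/
def extT (A B : W →L[ℝ] W) : W →L[ℝ] W := A * B + (1 - A) * (1 - B)

theorem extT_self {B : W →L[ℝ] W} (h : B * B = B) : extT B B = 1 := by
  simp only [extT, mul_sub, sub_mul, h, one_mul, mul_one]; abel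

theorem extT_right (A : W →L[ℝ] W) {B : W →L[ℝ] W} (h : B * B = B) : extT A B * B = A * B := by
  simp only [extT, add_mul, mul_assoc, h, sub_mul, one_mul, sub_self, mul_zero, add_zero]

theorem extT_left {A : W →L[ℝ] W} (B : W →L[ℝ] W) (h : A * A = A) : A * extT A B = A * B := by
  simp only [extT, mul_add, ← mul_assoc, h, mul_sub, mul_one, sub_self, zero_mul, add_zero]

theorem sec_ext_loc {K : Set P} (hK : IsCompact K) {Q : P → W →L[ℝ] W} (hQ : Continuous Q)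
    (hi : ∀ x ∈ K, Q x * Q x = Q x)
    (hd : ∀ x ∈ K, dimH K < finrank ℝ (LinearMap.range (Q x : W →ₗ[ℝ] W))) {x₀ : P}
    (hx₀ : x₀ ∈ K) : ∃ r > 0, ∀ C : Set P, IsClosed C → ∀ φ : P → W, Continuous φ →
      (∀ x ∈ C, x ∈ K → Q x (φ x) ≠ 0) → ∃ ψ : P → W, Continuous ψ ∧ EqOn ψ φ C ∧
        ∀ x ∈ closedBall x₀ r, x ∈ K → Q x (ψ x) ≠ 0 := by
  have hT : Continuous fun x => extT (Q x) (Q x₀) := by unfold extT; fun_prop
  have hu : {x | IsUnit (extT (Q x) (Q x₀))} ∈ 𝓝 x₀ :=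
    (Units.isOpen.preimage hT).mem_nhds (by
      show IsUnit (extT (Q x₀) (Q x₀))
      rw [extT_self (hi x₀ hx₀)]; exact isUnit_one)
  obtain ⟨r, hr, hb⟩ := nhds_basis_closedBall.mem_iff.1 hu
  refine ⟨r, hr, fun C hC φ hφ h0 => ?_⟩
  set K' := K ∩ closedBall x₀ r with hK'
  have cK : IsCompact K' := hK.inter_right isClosed_closedBall
  let S : P → W →L[ℝ] W := fun x => Ring.inverse (extT (Q x) (Q x₀))
  have hS : ContinuousOn S K' := fun x hx => by
    obtain ⟨u, hu⟩ := hb hx.2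
    have := NormedRing.inverse_continuousAt u
    rw [hu] at this
    exact (ContinuousAt.comp (f := fun x => extT (Q x) (Q x₀)) this
      hT.continuousAt).continuousWithinAt
  have TS : ∀ x ∈ K', extT (Q x) (Q x₀) * S x = 1 := fun x hx =>
    Ring.mul_inverse_cancel _ (hb hx.2)
  have ST : ∀ x ∈ K', S x * extT (Q x) (Q x₀) = 1 := fun x hx =>
    Ring.inverse_mul_cancel _ (hb hx.2)
  let R := LinearMap.range (Q x₀ : W →ₗ[ℝ] W)
  let ρ : W →L[ℝ] R := (Q x₀).codRestrict R fun w => ⟨w, rfl⟩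
  let φ' : P → R := fun x => ρ (S x (φ x))
  have cφ' : ContinuousOn φ' K' :=
    ρ.continuous.comp_continuousOn (hS.clm_apply hφ.continuousOn)
  have key : ∀ x ∈ K', extT (Q x) (Q x₀) (φ' x) = Q x (φ x) := fun x hx => by
    show (extT (Q x) (Q x₀) * Q x₀ * S x) (φ x) = _
    rw [extT_right _ (hi x₀ hx₀), ← extT_left _ (hi x hx.1), mul_assoc, TS x hx, mul_one]
  obtain ⟨ψ', cψ', eψ', nψ'⟩ := ext_ne (W := R) cK (hC.inter cK.isClosed) inter_subset_right
    ((dimH_mono inter_subset_left).trans_lt (hd x₀ hx₀)) (cφ'.mono inter_subset_right)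
    fun x hx e => h0 x hx.1 hx.2.1 (by rw [← key x hx.2, e]; simp)
  let χ : P → W := fun x => φ x + extT (Q x) (Q x₀) ((ψ' x : W) - φ' x)
  have cχ : ContinuousOn χ K' :=
    hφ.continuousOn.add (hT.continuousOn.clm_apply
      ((continuous_subtype_val.comp cψ').continuousOn.sub
        (continuous_subtype_val.comp_continuousOn cφ')))
  classical
  have e1 : EqOn (K'.piecewise χ φ) φ C := fun x hx => by
    by_cases h : x ∈ K'
    · rw [piecewise_eq_of_mem _ _ _ h]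
      simp [χ, eψ' ⟨hx, h⟩]
    · exact piecewise_eq_of_notMem _ _ _ h
  have e2 : EqOn (K'.piecewise χ φ) χ K' := piecewise_eqOn _ _ _
  obtain ⟨ψ, cψ, eψ⟩ := ext_tietze (hC.union cK.isClosed)
    ((hφ.continuousOn.congr e1).union_of_isClosed (cχ.congr e2) hC cK.isClosed)
  refine ⟨ψ, cψ, fun x hx => (eψ (Or.inl hx)).trans (e1 hx), fun x hx hxK e => ?_⟩
  have hx' : x ∈ K' := ⟨hxK, hx⟩
  rw [eψ (Or.inr hx'), e2 hx'] at e
  have q : ∀ w : R, Q x (extT (Q x) (Q x₀) w) = extT (Q x) (Q x₀) w := by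
    rintro ⟨_, w, rfl⟩
    show (Q x * extT (Q x) (Q x₀) * Q x₀) w = (extT (Q x) (Q x₀) * Q x₀) w
    rw [extT_left _ (hi x hxK), extT_right _ (hi x₀ hx₀), mul_assoc, hi x₀ hx₀]
  have e' : extT (Q x) (Q x₀) (ψ' x) = 0 := by
    simp only [χ, map_add, map_sub, q, key x hx'] at e
    have := q (φ' x)
    rw [key x hx'] at this
    simpa [this] using e
  apply nψ' x hx'
  have : (S x * extT (Q x) (Q x₀)) (ψ' x) = 0 := by
    show S x (extT _ _ _) = 0
    rw [e', map_zero]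
  rw [ST x hx'] at this
  exact Subtype.ext this

/-- relative general position for a family of idempotents -/
theorem sec_ext {K C : Set P} (hK : IsCompact K) (hC : IsClosed C) {Q : P → W →L[ℝ] W}
    (hQ : ContinuousOn Q K) (hi : ∀ x ∈ K, Q x * Q x = Q x)
    (hd : ∀ x ∈ K, dimH K < finrank ℝ (LinearMap.range (Q x : W →ₗ[ℝ] W))) {φ : P → W}
    (hφ : ContinuousOn φ C) (h0 : ∀ x ∈ C, x ∈ K → Q x (φ x) ≠ 0) :
    ∃ ψ : P → W, Continuous ψ ∧ EqOn ψ φ C ∧ ∀ x ∈ K, Q x (ψ x) ≠ 0 := by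
  obtain ⟨Q', cQ, eQ⟩ := ext_tietze hK.isClosed hQ
  obtain ⟨f, cf, ef⟩ := ext_tietze hC hφ
  have main : ∀ C : Set P, IsClosed C → ∀ φ : P → W, Continuous φ →
      (∀ x ∈ C, x ∈ K → Q' x (φ x) ≠ 0) → ∃ ψ : P → W, Continuous ψ ∧ EqOn ψ φ C ∧
        ∀ x ∈ closure K, x ∈ K → Q' x (ψ x) ≠ 0 := by
    refine hK.induction_on (p := fun s => ∀ C : Set P, IsClosed C → ∀ φ : P → W, Continuous φ →
      (∀ x ∈ C, x ∈ K → Q' x (φ x) ≠ 0) → ∃ ψ : P → W, Continuous ψ ∧ EqOn ψ φ C ∧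
        ∀ x ∈ closure s, x ∈ K → Q' x (ψ x) ≠ 0) ?_ ?_ ?_ ?_
    · exact fun C _ φ hφ _ => ⟨φ, hφ, fun _ _ => rfl, fun x hx => by simp at hx⟩
    · intro s t st h C hC φ hφ h0
      obtain ⟨ψ, a, b, c⟩ := h C hC φ hφ h0
      exact ⟨ψ, a, b, fun x hx => c x (closure_mono st hx)⟩
    · intro s t hs ht C hC φ hφ h0
      obtain ⟨ψ, a, b, c⟩ := hs C hC φ hφ h0
      obtain ⟨ψ₂, a₂, b₂, c₂⟩ := ht (C ∪ closure s) (hC.union isClosed_closure) ψ a (by
        rintro x (hx | hx) hk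
        · rw [b hx]; exact h0 x hx hk
        · exact c x hx hk)
      refine ⟨ψ₂, a₂, fun x hx => (b₂ (Or.inl hx)).trans (b hx), fun x hx hk => ?_⟩
      rw [closure_union] at hx
      rcases hx with hx | hx
      · rw [b₂ (Or.inr hx)]; exact c x hx hk
      · exact c₂ x hx hk
    · intro x₀ hx₀
      obtain ⟨r, hr, h⟩ := sec_ext_loc hK cQ (fun x hx => by rw [eQ hx]; exact hi x hx)
        (fun x hx => by rw [eQ hx]; exact hd x hx) hx₀
      refine ⟨closedBall x₀ r, mem_nhdsWithin_of_mem_nhds (closedBall_mem_nhds _ hr), ?_⟩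
      rw [isClosed_closedBall.closure_eq]
      exact h
  obtain ⟨ψ, a, b, c⟩ := main C hC f cf fun x hx hk => by
    rw [eQ hk, ef hx]; exact h0 x hx hk
  exact ⟨ψ, a, fun x hx => (b hx).trans (ef hx), fun x hx => by
    rw [← eQ hx]; exact c x (subset_closure hx) hx⟩

theorem ext_dimH_le (K : Set P) : dimH K ≤ finrank ℝ P :=
  (dimH_mono (subset_univ K)).trans (Real.dimH_univ_eq_finrank P).le

/-- a set that meets every ray in one point, in a Lipschitz way, has codimension one -/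
theorem ext_dimH_level {N : P → ℝ} {c : NNReal} (hN : LipschitzWith c N)
    (hp : ∀ x, x ≠ 0 → 0 < N x) (hh : ∀ t : ℝ, 0 < t → ∀ x, N (t • x) = t * N x) :
    dimH {x | N x = 1} ≤ (finrank ℝ P - 1 : ℕ) := by
  let b := Module.finBasis ℝ P
  let g : ℝ × P → P := fun z => z.1⁻¹ • z.2
  have hg : ContDiffOn ℝ 1 g (Ioi 0 ×ˢ univ) :=
    (contDiffOn_fst.inv fun z hz => ne_of_gt hz.1).smul contDiffOn_snd
  have hl : LipschitzWith (max c 1) fun x : P => (N x, x) := hN.prodMk LipschitzWith.id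
  have N0 : N 0 = 0 := by have := hh 2 two_pos 0; rw [smul_zero] at this; linarith
  let A : Fin (finrank ℝ P) × Bool → Set P := fun i =>
    range fun k : LinearMap.ker (b.coord i.1) => (if i.2 then b i.1 else -b i.1) + (k : P)
  have sub : {x | N x = 1} ⊆ ⋃ i, g '' ((fun x : P => (N x, x)) '' A i) := fun x hx => by
    have hx1 : N x = 1 := hx
    have x0 : x ≠ 0 := fun e => by rw [e, N0] at hx1; exact zero_ne_one hx1
    obtain ⟨i, hi⟩ : ∃ i, b.coord i x ≠ 0 := by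
      by_contra h
      push Not at h
      exact x0 (b.ext_elem fun i => by simpa using h i)
    have pos : 0 < |b.coord i x|⁻¹ := inv_pos.2 (abs_pos.2 hi)
    refine mem_iUnion.2 ⟨(i, decide (0 < b.coord i x)), _, ⟨|b.coord i x|⁻¹ • x,
      ⟨⟨|b.coord i x|⁻¹ • x - (if decide (0 < b.coord i x) then b i else -b i), ?_⟩, by simp⟩,
      rfl⟩, ?_⟩
    · rw [LinearMap.mem_ker, map_sub, map_smul, smul_eq_mul]
      by_cases h : 0 < b.coord i x
      · rw [abs_of_pos h, inv_mul_cancel₀ hi]; simp [h, -Module.Basis.coord_apply]; simp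
      · have h' : b.coord i x < 0 := lt_of_le_of_ne (not_lt.1 h) hi
        rw [abs_of_neg h', inv_neg, neg_mul, inv_mul_cancel₀ hi]
        simp [h, -Module.Basis.coord_apply]; simp
    · show (N _)⁻¹ • _ = x
      rw [hh _ pos, hx1, mul_one, smul_smul, inv_mul_cancel₀ pos.ne', one_smul]
  refine (dimH_mono sub).trans ?_
  rw [dimH_iUnion]
  refine iSup_le fun i => ?_
  have h1 : (fun x : P => (N x, x)) '' A i ⊆ Ioi 0 ×ˢ univ := by
    rintro _ ⟨_, ⟨k, rfl⟩, rfl⟩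
    refine ⟨hp _ fun e => ?_, trivial⟩
    have := congrArg (b.coord i.1) e
    rw [map_add, LinearMap.mem_ker.1 k.2] at this
    split_ifs at this <;> simp at this
  refine (hg.dimH_image_le ((convex_Ioi 0).prod convex_univ) h1).trans
    ((hl.dimH_image_le _).trans ((ContDiff.dimH_range_le (contDiff_const.add
      (LinearMap.ker (b.coord i.1)).subtypeL.contDiff)).trans (Nat.cast_le.2 ?_)))
  have h2 := (b.coord i.1).finrank_range_add_finrank_ker
  have h3 : LinearMap.range (b.coord i.1) = ⊤ :=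
    LinearMap.range_eq_top.2 fun t => ⟨t • b i.1, by simp⟩
  rw [h3, finrank_top, finrank_self] at h2
  omega

theorem ext_dimH_sphere : dimH (sphere (0 : P) 1) ≤ (finrank ℝ P - 1 : ℕ) := by
  have := ext_dimH_level (P := P) lipschitzWith_one_norm (fun _ => norm_pos_iff.2)
    fun t ht x => by rw [norm_smul, Real.norm_of_nonneg ht.le]
  simpa only [← mem_sphere_zero_iff_norm, ofPred_mem_eq] using this

end Pool.Agent.Work.MP_8c604c_gt.T
end
end
end

-- merged part: Pool.Agent.Work.MP_8c604c_gt.T.SC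
section
/-!
The extension property, simple connectivity, lifts to `E n` minus the origin (owner helper45).
-/

set_option maxSynthPendingDepth 3

noncomputable section

namespace Pool.Agent.Work.MP_8c604c_gt.T

open Set Topology Filter Module
open scoped Quaternion
open Pool.Agent.Work.MP_8c604c_gt.H

/-- maps to `Y` extend from closed sets of dimension at most `e` to compact sets of dimension at
most `d` -/
def EP (d e : ℕ) {V : Type} [TopologicalSpace V] (Y : Set V) : Prop :=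
  ∀ (P : Type) [NormedAddCommGroup P] [NormedSpace ℝ P] [FiniteDimensional ℝ P] (K C : Set P),
    IsCompact K → IsClosed C → C ⊆ K → dimH K ≤ d → dimH C ≤ e → ∀ φ : P → V,
      ContinuousOn φ C → MapsTo φ C Y → ∃ ψ : P → V, ContinuousOn ψ K ∧ EqOn ψ φ C ∧ MapsTo ψ K Y

section

variable {V X : Type} [TopologicalSpace V] [TopologicalSpace X] {Y : Set V} {B : Set X}
  {d e d' e' : ℕ}

theorem EP.mono (h : EP d e Y) (hd : d' ≤ d) (he : e' ≤ e) : EP d' e' Y :=
  fun P _ _ _ K C hK hC s k1 k2 =>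
    h P K C hK hC s (k1.trans (Nat.cast_le.2 hd)) (k2.trans (Nat.cast_le.2 he))

theorem EP.isPathConnected (h : EP 1 1 Y) (hne : Y.Nonempty) : IsPathConnected Y := by
  classical
  refine ⟨_, hne.some_mem, fun y hy => ?_⟩
  have fin : ({0, 1} : Set ℝ).Finite := toFinite _
  obtain ⟨ψ, c, e, m⟩ := h ℝ (Icc 0 1) {0, 1} isCompact_Icc fin.isClosed
    (by rintro _ (rfl | rfl) <;> simp) ((ext_dimH_le _).trans (by simp))
    ((ext_dimH_le _).trans (by simp)) (fun t => if t = 0 then hne.some else y)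
    (fin.continuousOn _)
    fun t _ => by by_cases k : t = 0 <;> simp [k, hy, hne.some_mem]
  exact JoinedIn.ofLine c (by simpa using e (Or.inl rfl)) (by simpa using e (Or.inr rfl))
    m.image_subset

theorem EP.isSimplyConnected (h : EP 2 2 Y) (hne : Y.Nonempty) : IsSimplyConnected Y := by
  classical
  refine isSimplyConnected_iff_exists_homotopy_refl_forall_mem.2
    ⟨(h.mono one_le_two one_le_two).isPathConnected hne, fun x p hp => ?_⟩
  let K : Set (ℝ × ℝ) := Icc 0 1 ×ˢ Icc 0 1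
  let C₁ : Set (ℝ × ℝ) := K ∩ {z | z.1 = 0}
  let C₂ : Set (ℝ × ℝ) := K ∩ ({z | z.1 = 1} ∪ ({z | z.2 = 0} ∪ {z | z.2 = 1}))
  have cK : IsCompact K := isCompact_Icc.prod isCompact_Icc
  have c1 : IsClosed C₁ := cK.isClosed.inter (isClosed_eq continuous_fst continuous_const)
  have c2 : IsClosed C₂ := cK.isClosed.inter ((isClosed_eq continuous_fst continuous_const).union
    ((isClosed_eq continuous_snd continuous_const).union
      (isClosed_eq continuous_snd continuous_const)))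
  let φ : ℝ × ℝ → V := fun z => if z.1 = 0 then p.extend z.2 else x
  have e1 : EqOn φ (fun z => p.extend z.2) C₁ := fun z hz => if_pos hz.2
  have e2 : EqOn φ (fun _ => x) C₂ := fun z hz => by
    by_cases k : z.1 = 0
    · rcases hz.2 with h | h | h
      · exact absurd (k.symm.trans h) zero_ne_one
      · simp [φ, k, show z.2 = 0 from h]
      · simp [φ, k, show z.2 = 1 from h]
    · exact if_neg k
  have hx : x ∈ Y := by simpa using hp 0
  obtain ⟨ψ, c, e, m⟩ := h (ℝ × ℝ) K (C₁ ∪ C₂) cK (c1.union c2)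
    (union_subset inter_subset_left inter_subset_left) ((ext_dimH_le _).trans (by simp))
    ((ext_dimH_le _).trans (by simp)) φ
    ((((p.continuous_extend.comp continuous_snd).continuousOn).congr e1).union_of_isClosed
      (continuousOn_const.congr e2) c1 c2) (by
        rintro z (hz | hz)
        · rw [e1 hz]
          show p.extend z.2 ∈ Y
          rw [p.extend_apply hz.1.2]; exact hp _
        · rw [e2 hz]; exact hx)
  have mk : ∀ z : unitInterval × unitInterval, ((z.1 : ℝ), (z.2 : ℝ)) ∈ K :=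
    fun z => ⟨z.1.2, z.2.2⟩
  refine ⟨{ toFun := fun z => ψ (z.1, z.2)
            continuous_toFun := c.comp_continuous (by fun_prop) mk
            map_zero_left := fun t => ?_
            map_one_left := fun t => ?_
            prop' := fun s t ht => ?_ }, fun z => m (mk z)⟩
  · have k : (((0 : unitInterval) : ℝ), (t : ℝ)) ∈ C₁ := ⟨mk (0, t), rfl⟩
    exact (e (Or.inl k)).trans ((e1 k).trans (p.extend_extends' t))
  · have k : (((1 : unitInterval) : ℝ), (t : ℝ)) ∈ C₂ := ⟨mk (1, t), Or.inl rfl⟩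
    exact (e (Or.inr k)).trans (e2 k)
  · have k : ((s : ℝ), (t : ℝ)) ∈ C₂ := ⟨mk (s, t), Or.inr (by
      rcases ht with rfl | rfl
      exacts [Or.inl rfl, Or.inr rfl])⟩
    refine (e (Or.inr k)).trans ((e2 k).trans ?_)
    rcases ht with rfl | rfl <;> simp

/-- a map with local sections is a quotient map -/
theorem isQuot_of_sec {π : V → X} (hm : MapsTo π Y B) (hc : ContinuousOn π Y)
    (hs : ∀ b ∈ B, ∃ s : X → V, ContinuousWithinAt s B b ∧
      ∀ᶠ x in 𝓝[B] b, s x ∈ Y ∧ π (s x) = x) : IsQuotientMap (hm.restrict π Y B) := by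
  refine ⟨isCoinducing_iff.2 fun T => ⟨fun h => ?_, fun h =>
    h.preimage (hc.mapsToRestrict hm)⟩, fun b => ?_⟩
  · obtain ⟨O, hO, eO⟩ := isOpen_induced_iff.1 h
    refine isOpen_iff_mem_nhds.2 fun b hb => ?_
    obtain ⟨s, cs, ks⟩ := hs b b.2
    have k0 := ks.self_of_nhdsWithin b.2
    have : s b ∈ O := by
      have : (⟨s b, k0.1⟩ : Y) ∈ hm.restrict π Y B ⁻¹' T := by
        rw [mem_preimage]; convert hb; exact Subtype.ext k0.2
      rwa [← eO] at this
    have k1 : ∀ᶠ x in 𝓝[B] (b : X), s x ∈ O := cs (hO.mem_nhds this)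
    have k2 := (k1.and ks)
    rw [nhdsWithin_eq_map_subtype_coe b.2, eventually_map] at k2
    filter_upwards [k2] with x hx
    have : (⟨s x, hx.2.1⟩ : Y) ∈ hm.restrict π Y B ⁻¹' T := by rw [← eO]; exact hx.1
    rw [mem_preimage] at this
    convert this
    exact Subtype.ext hx.2.2.symm
  · obtain ⟨s, -, ks⟩ := hs b b.2
    have k0 := ks.self_of_nhdsWithin b.2
    exact ⟨⟨s b, k0.1⟩, Subtype.ext k0.2⟩

/-- the extension property descends along a map with the lifting property -/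
theorem EP.desc (h : EP d e Y) {π : V → X} (hm : MapsTo π Y B) (hc : ContinuousOn π Y)
    (hl : ∀ (P : Type) [NormedAddCommGroup P] [NormedSpace ℝ P] [FiniteDimensional ℝ P]
      (C : Set P), IsCompact C → dimH C ≤ e → ∀ φ : P → X, ContinuousOn φ C → MapsTo φ C B →
        ∃ z : P → V, ContinuousOn z C ∧ ∀ x ∈ C, z x ∈ Y ∧ π (z x) = φ x) : EP d e B := by
  intro P _ _ _ K C hK hC s k1 k2 φ cφ mφ
  obtain ⟨z, cz, hz⟩ := hl P C (hK.of_isClosed_subset hC s) k2 φ cφ mφ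
  obtain ⟨ψ, c, e, m⟩ := h P K C hK hC s k1 k2 z cz fun x hx => (hz x hx).1
  exact ⟨π ∘ ψ, hc.comp c m, fun x hx => by rw [Function.comp_apply, e hx, (hz x hx).2],
    hm.comp m⟩

end

variable {n d e : ℕ}

theorem ep_ne {W : Type} [NormedAddCommGroup W] [NormedSpace ℝ W] [FiniteDimensional ℝ W]
    (h : d < finrank ℝ W) : EP d e ({0}ᶜ : Set W) := by
  intro P _ _ _ K C hK hC s k1 _ φ cφ mφ
  obtain ⟨ψ, c, e, m⟩ := ext_ne hK hC s (k1.trans_lt (Nat.cast_lt.2 h)) cφ mφ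
  exact ⟨ψ, c.continuousOn, e, m⟩

theorem ep_OO (h : d < 4 * n) : EP d e (OO n) := by
  intro P _ _ _ K C hK hC s k1 _ φ cφ mφ
  obtain ⟨z, cz, ez, mz⟩ := ext_ne (W := E n) hK hC s
    (k1.trans_lt (Nat.cast_lt.2 (by rw [finrank_E]; omega))) cφ.fst fun x hx => (mφ hx).1
  obtain ⟨w, cw, ew, mw⟩ := sec_ext hK hC (Q := fun x => horL (z x))
    (contDiffOn_horL.continuousOn.comp cz.continuousOn mz)
    (fun x hx => ContinuousLinearMap.ext fun u => hor_hor (mz x hx) u)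
    (fun x hx => by rw [finrank_hor (mz x hx)]; exact k1.trans_lt (Nat.cast_lt.2 h)) cφ.snd
    fun x hx _ => by rw [ez hx]; exact (mem_OO.1 (mφ hx)).2
  exact ⟨fun x => (z x, w x), (cz.prodMk cw).continuousOn, fun x hx => Prod.ext (ez hx) (ew hx),
    fun x hx => mem_OO.2 ⟨mz x hx, mw x hx⟩⟩

theorem nonempty_OO (hn : 1 ≤ n) : (OO n).Nonempty := by
  obtain ⟨ψ, -, -, m⟩ := ep_OO (n := n) (d := 0) (e := 0) (by omega) ℝ {0} ∅ isCompact_singleton
    isClosed_empty (empty_subset _) (by simp) (by simp) (fun _ => 0) (continuousOn_empty _)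
    (mapsTo_empty _ _)
  exact ⟨ψ 0, m rfl⟩

theorem isSimplyConnected_OO (hn : 1 ≤ n) : IsSimplyConnected (OO n) :=
  (ep_OO (by omega)).isSimplyConnected (nonempty_OO hn)

section

variable {P : Type} [NormedAddCommGroup P] [NormedSpace ℝ P] [FiniteDimensional ℝ P]

/-- relative lifting along `pr` -/
theorem lift_MH_rel {K C : Set P} (hK : IsCompact K) (hC : IsClosed C) (hd : dimH K < 4)
    {f : P → AM n} (hf : ContinuousOn f K) (hm : MapsTo f K (MH n)) {z₀ : P → EH n}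
    (h0 : ContinuousOn z₀ C) (e0 : ∀ x ∈ C, x ∈ K → z₀ x ≠ 0 ∧ pr (z₀ x) = f x) :
    ∃ z : P → EH n, ContinuousOn z K ∧ (∀ x ∈ C, x ∈ K → z x = z₀ x) ∧
      ∀ x ∈ K, z x ≠ 0 ∧ pr (z x) = f x := by
  have k0 : ∀ x ∈ C, x ∈ K → rm (z₀ x) (f x) = z₀ x := fun x hx hk => by
    rw [← (e0 x hx hk).2, rm_pr_self (e0 x hx hk).1]
  have a1 : ContinuousOn (fun x => lineP (f x)) K := continuous_lineP.comp_continuousOn hf
  have a2 : ∀ x ∈ K, lineP (f x) * lineP (f x) = lineP (f x) :=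
    fun x hx => ContinuousLinearMap.ext fun a => by
      rw [mul_apply_eq_comp]; exact rb_lineP.idem _ (hm hx) a
  have a3 : ∀ x ∈ K, dimH K < finrank ℝ (LinearMap.range (lineP (f x) : EH n →ₗ[ℝ] EH n)) :=
    fun x hx => by rw [rb_lineP.rank _ (hm hx)]; exact_mod_cast hd
  have a4 : ∀ x ∈ C, x ∈ K → lineP (f x) (z₀ x) ≠ 0 :=
    fun x hx hk => by rw [lineP_apply, k0 x hx hk]; exact (e0 x hx hk).1
  obtain ⟨w, cw, ew, mw⟩ := sec_ext hK hC a1 a2 a3 h0 a4
  have a5 : ContinuousOn (fun x => rm (w x)) K := (rm.continuous.comp cw).continuousOn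
  have a6 : ∀ x ∈ K, rm (w x) (f x) ≠ 0 := fun x hx => by
    rw [← lineP_apply]; exact mw x hx
  refine ⟨fun x => rm (w x) (f x), a5.clm_apply hf, fun x hx hk => ?_,
    fun x hx => ⟨a6 x hx, pr_rm (hm hx) (a6 x hx)⟩⟩
  show rm (w x) (f x) = _
  rw [ew hx, k0 x hx hk]

theorem lift_MH {K : Set P} (hK : IsCompact K) (hd : dimH K < 4) {f : P → AM n}
    (hf : ContinuousOn f K) (hm : MapsTo f K (MH n)) :
    ∃ z : P → EH n, ContinuousOn z K ∧ ∀ x ∈ K, z x ≠ 0 ∧ pr (z x) = f x := by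
  obtain ⟨z, a, -, b⟩ := lift_MH_rel hK isClosed_empty hd hf hm (z₀ := fun _ => 0)
    (continuousOn_empty _) fun _ h => h.elim
  exact ⟨z, a, b⟩

end

theorem dim_lt_four {a : ENNReal} (h : a ≤ (3 : ℕ)) : a < 4 :=
  h.trans_lt (by exact_mod_cast (by norm_num : (3 : ℕ) < 4))

theorem ep_MH (h : d < 4 * n + 4) : EP d 3 (MH n) :=
  (ep_ne (W := E n) (by rwa [finrank_E])).desc (fun _ => pr_mem) continuousOn_pr
    fun _ _ _ _ _ hC hd _ cφ mφ => lift_MH hC (dim_lt_four hd) cφ mφ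

theorem sec_pr {z : EH n} (hz : z ≠ 0) : ∀ᶠ p in 𝓝[MH n] (pr z), rm z p ≠ 0 ∧ pr (rm z p) = p := by
  have : ∀ᶠ p in 𝓝 (pr z), rm z p ≠ 0 :=
    (rm z).continuous.continuousAt.eventually_ne (by rw [rm_pr_self hz]; exact hz)
  filter_upwards [mem_nhdsWithin_of_mem_nhds this, self_mem_nhdsWithin] with p h hp
  exact ⟨h, pr_rm hp h⟩

theorem isPreconnected_Hne : IsPreconnected ({0}ᶜ : Set ℍ) :=
  (isConnected_compl_singleton_of_one_lt_rank (by
    rw [← Module.finrank_eq_rank, finrank_H]; norm_num) 0).isPreconnected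

theorem sgnTriv_MH : SgnTriv (MH n) := by
  have hne : ({0}ᶜ : Set (EH n)).Nonempty := Set.nonempty_compl.2 (singleton_ne_univ 0)
  refine sgnTriv_of_quot ((ep_ne (W := E n) (by rw [finrank_E]; omega)).isSimplyConnected hne)
    isOpen_compl_singleton (π := pr) (fun _ => pr_mem) (isQuot_of_sec _ continuousOn_pr ?_) ?_
  · rintro _ ⟨z, hz, rfl⟩
    exact ⟨rm z, (rm z).continuous.continuousWithinAt, sec_pr hz⟩
  · rintro _ ⟨z, hz, rfl⟩
    suffices e : {0}ᶜ ∩ pr ⁻¹' {pr z} = (fun c : ℍ => c • z) '' {0}ᶜ by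
      rw [e]; exact isPreconnected_Hne.image _ (by fun_prop)
    ext w
    refine ⟨fun h => ?_, ?_⟩
    · obtain ⟨c, hc, e⟩ := (pr_eq_iff hz h.1).1 (Eq.symm h.2)
      exact ⟨c, hc, e.symm⟩
    · rintro ⟨c, hc, rfl⟩
      exact ⟨smul_ne_zero hc hz, pr_smul hc z⟩

/-- pairs of distinct points -/
def OH (n : ℕ) : Set (AM n × AM n) := {y | y.1 ∈ MH n ∧ y.2 ∈ MH n ∧ y.1 ≠ y.2}

theorem OO_snd_ne {y : VV n} (h : y ∈ OO n) : y.2 ≠ 0 := fun e => h.2 0 (by rw [e, zero_smul])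

theorem mem_OO_iff {z w : EH n} : (z, w) ∈ OO n ↔ z ≠ 0 ∧ w ≠ 0 ∧ pr z ≠ pr w :=
  ⟨fun h => ⟨h.1, OO_snd_ne h, fun e =>
    let ⟨c, _, k⟩ := (pr_eq_iff h.1 (OO_snd_ne h)).1 e; h.2 c k⟩,
   fun h => ⟨h.1, fun c (e : w = c • z) => h.2.2 ((pr_eq_iff h.1 h.2.1).2
    ⟨c, fun k => h.2.1 (by rw [e, k, zero_smul]), e⟩)⟩⟩

theorem mapsTo_OH : MapsTo (Prod.map pr pr) (OO n) (OH n) := fun _ h =>
  ⟨pr_mem h.1, pr_mem (OO_snd_ne h), (mem_OO_iff.1 h).2.2⟩

theorem continuousOn_prpr : ContinuousOn (Prod.map pr pr) (OO n) :=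
  (continuousOn_pr.comp continuousOn_fst fun _ h => h.1).prodMk
    (continuousOn_pr.comp continuousOn_snd fun _ h => OO_snd_ne h)

theorem ep_OH (h : d < 4 * n) : EP d 3 (OH n) :=
  (ep_OO h).desc mapsTo_OH continuousOn_prpr fun _ _ _ _ _ hC hd _ cφ mφ => by
    obtain ⟨z, cz, hz⟩ := lift_MH hC (dim_lt_four hd) cφ.fst fun _ h => (mφ h).1
    obtain ⟨w, cw, hw⟩ := lift_MH hC (dim_lt_four hd) cφ.snd fun _ h => (mφ h).2.1
    exact ⟨fun x => (z x, w x), cz.prodMk cw, fun x hx => ⟨mem_OO_iff.2 ⟨(hz x hx).1, (hw x hx).1,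
      by rw [(hz x hx).2, (hw x hx).2]; exact (mφ hx).2.2⟩, Prod.ext (hz x hx).2 (hw x hx).2⟩⟩

theorem sgnTriv_OH (hn : 1 ≤ n) : SgnTriv (OH n) := by
  refine sgnTriv_of_quot (isSimplyConnected_OO hn) isOpen_OO mapsTo_OH
    (isQuot_of_sec _ continuousOn_prpr ?_) ?_
  · rintro ⟨_, _⟩ ⟨⟨z, hz, rfl⟩, ⟨w, hw, rfl⟩, -⟩
    refine ⟨Prod.map (rm z) (rm w), ((rm z).continuous.prodMap (rm w).continuous
      ).continuousWithinAt, ?_⟩
    have h1 : ∀ᶠ y in 𝓝[OH n] (pr z, pr w), rm z y.1 ≠ 0 ∧ pr (rm z y.1) = y.1 :=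
      ((continuousWithinAt_fst (s := OH n) (p := (pr z, pr w))).tendsto_nhdsWithin
        fun _ h => h.1).eventually (sec_pr hz)
    have h2 : ∀ᶠ y in 𝓝[OH n] (pr z, pr w), rm w y.2 ≠ 0 ∧ pr (rm w y.2) = y.2 :=
      ((continuousWithinAt_snd (s := OH n) (p := (pr z, pr w))).tendsto_nhdsWithin
        fun _ h => h.2.1).eventually (sec_pr hw)
    filter_upwards [h1, h2, self_mem_nhdsWithin] with y a b c
    exact ⟨mem_OO_iff.2 ⟨a.1, b.1, by rw [a.2, b.2]; exact c.2.2⟩, Prod.ext a.2 b.2⟩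
  · rintro ⟨_, _⟩ ⟨⟨z, hz, rfl⟩, ⟨w, hw, rfl⟩, ne⟩
    suffices e : OO n ∩ Prod.map pr pr ⁻¹' {(pr z, pr w)} =
        (fun c : ℍ × ℍ => (c.1 • z, c.2 • w)) '' ({0}ᶜ ×ˢ {0}ᶜ) by
      rw [e]; exact (isPreconnected_Hne.prod isPreconnected_Hne).image _ (by fun_prop)
    ext ⟨z', w'⟩
    refine ⟨fun h => ?_, ?_⟩
    · obtain ⟨e1, e2⟩ := Prod.mk.inj h.2
      obtain ⟨c, hc, e⟩ := (pr_eq_iff hz h.1.1).1 e1.symm
      obtain ⟨c', hc', e'⟩ := (pr_eq_iff hw (OO_snd_ne h.1)).1 e2.symm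
      exact ⟨(c, c'), ⟨hc, hc'⟩, Prod.ext e.symm e'.symm⟩
    · rintro ⟨⟨c, c'⟩, ⟨hc, hc'⟩, e⟩
      obtain ⟨rfl, rfl⟩ := Prod.mk.inj e
      exact ⟨mem_OO_iff.2 ⟨smul_ne_zero hc hz, smul_ne_zero hc' hw, by
        rw [pr_smul hc, pr_smul hc']; exact ne⟩, Prod.ext (pr_smul hc z) (pr_smul hc' w)⟩

end Pool.Agent.Work.MP_8c604c_gt.T
end
end

-- merged part: Pool.Agent.Work.MP_8c604c_gt.T.SL
section
/-!
The space of closed geodesics is highly connected (owner helper45).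
-/

set_option maxSynthPendingDepth 3

noncomputable section

namespace Pool.Agent.Work.MP_8c604c_gt.T

open Set Topology Filter Module
open scoped Quaternion
open Pool.Agent.Work.MP_8c604c_gt.H

variable {n k d : ℕ}

theorem EP.retract {V X : Type} [TopologicalSpace V] [TopologicalSpace X] {Y : Set V} {B : Set X}
    {e : ℕ} (h : EP d e Y) {r : V → X} (hr : ContinuousOn r Y) (mr : MapsTo r Y B) {s : X → V}
    (hs : ContinuousOn s B) (ms : MapsTo s B Y) (k : ∀ y ∈ B, r (s y) = y) : EP d e B :=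
  h.desc mr hr fun _ _ _ _ _ _ _ φ cφ mφ =>
    ⟨s ∘ φ, hs.comp cφ mφ, fun _ hx => ⟨ms (mφ hx), k _ (mφ hx)⟩⟩

/-- nonzero tangent vectors -/
def T0 (n : ℕ) : Set (AM n × AM n) := {y | Tan y.1 y.2 ∧ y.2 ≠ 0}

/-- the tangent vector of a point of `OO n` -/
def tv (y : VV n) : AM n × AM n := (pr y.1, fderiv ℝ pr y.1 y.2)

theorem mapsTo_tv : MapsTo tv (OO n) (T0 n) := fun y h =>
  ⟨⟨y.1, h.1, rfl, y.2, rfl⟩, fun e => (mem_OO.1 h).2 ((dpr_eq_zero h.1).1 e)⟩

theorem continuousOn_tv : ContinuousOn tv (OO n) :=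
  (continuousOn_pr.comp continuousOn_fst fun _ h => h.1).prodMk
    ((continuousOn_dpr.comp continuousOn_fst fun _ h => h.1).clm_apply continuousOn_snd)

theorem tv_rm {y : AM n × AM n} (hy : y ∈ T0 n) {z : EH n} (hz : z ≠ 0) (e : pr z = y.1) :
    (z, rm z y.2) ∈ OO n ∧ tv (z, rm z y.2) = y := by
  have h : fderiv ℝ pr z (rm z y.2) = y.2 := Tan.dpr_rm hz (by rw [e]; exact hy.1)
  exact ⟨mem_OO.2 ⟨hz, fun k => hy.2 (by rw [← h]; exact (dpr_eq_zero hz).2 k)⟩, Prod.ext e h⟩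

theorem ep_T0 (h : d < 4 * n) : EP d 3 (T0 n) :=
  (ep_OO h).desc mapsTo_tv continuousOn_tv fun _ _ _ _ _ hC hd φ cφ mφ => by
    obtain ⟨z, cz, hz⟩ := lift_MH hC (dim_lt_four hd) cφ.fst fun _ h => (mφ h).1.mem
    exact ⟨fun x => (z x, rm (z x) (φ x).2),
      cz.prodMk ((rm.continuous.comp_continuousOn cz).clm_apply cφ.snd),
      fun x hx => tv_rm (mφ hx) (hz x hx).1 (hz x hx).2⟩

theorem sgnTriv_T0 (hn : 1 ≤ n) : SgnTriv (T0 n) := by
  refine sgnTriv_of_quot (isSimplyConnected_OO hn) isOpen_OO mapsTo_tv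
    (isQuot_of_sec _ continuousOn_tv ?_) ?_
  · rintro ⟨_, X⟩ ⟨⟨z, hz, rfl, -⟩, -⟩
    have c1 : Continuous fun y : AM n × AM n => rm z y.1 := (rm z).continuous.comp continuous_fst
    refine ⟨fun y => (rm z y.1, rm (rm z y.1) y.2), (c1.prodMk
      ((rm.continuous.comp c1).clm_apply continuous_snd)).continuousWithinAt, ?_⟩
    have h1 : ∀ᶠ y in 𝓝[T0 n] (pr z, X), rm z y.1 ≠ 0 ∧ pr (rm z y.1) = y.1 :=
      ((continuousWithinAt_fst (s := T0 n) (p := (pr z, X))).tendsto_nhdsWithin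
        fun _ h => h.1.mem).eventually (sec_pr hz)
    filter_upwards [h1, self_mem_nhdsWithin] with y a c
    exact tv_rm c a.1 a.2
  · rintro ⟨_, _⟩ ⟨⟨z, hz, rfl, u, rfl⟩, ne⟩
    have hu : (z, u) ∈ OO n := mem_OO.2 ⟨hz, fun k => ne ((dpr_eq_zero hz).2 k)⟩
    suffices e : OO n ∩ tv ⁻¹' {(pr z, fderiv ℝ pr z u)} =
        (fun c : ℍ × ℍ => act c.1 1 c.2 (z, u)) '' ({0}ᶜ ×ˢ univ) by
      rw [e]
      exact (isPreconnected_Hne.prod isPreconnected_univ).image _ (by unfold act; fun_prop)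
    ext ⟨z', u'⟩
    refine ⟨fun h => ?_, ?_⟩
    · obtain ⟨e1, e2⟩ := Prod.mk.inj h.2
      obtain ⟨c, hc, rfl⟩ := (pr_eq_iff hz h.1.1).1 e1.symm
      have e3 : fderiv ℝ pr z (c⁻¹ • u' - u) = 0 := by
        rw [map_sub, ← e2, ← dpr_smul hc hz, smul_inv_smul₀ hc, sub_self]
      obtain ⟨a, ha⟩ := (hor_eq_zero_iff hz _).1 ((dpr_eq_zero hz).1 e3)
      refine ⟨(c, a), ⟨hc, trivial⟩, Prod.ext rfl ?_⟩
      show c • ((1 : ℝ) • u + a • z) = u'
      rw [← ha, one_smul, add_sub_cancel, smul_inv_smul₀ hc]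
    · rintro ⟨⟨c, a⟩, ⟨hc, -⟩, e⟩
      rw [← e]
      exact ⟨act_mem a hc one_pos hu, Prod.ext (pr_smul hc z)
        ((dpr_act hc 1 a (y := (z, u)) hz).trans (one_smul _ _))⟩

namespace TD0

variable (D : TD0 n k)

/-- a retraction of the nonzero tangent vectors onto the geodesics -/
theorem exists_retr : ∃ r : AM n × AM n → LM n, ContinuousOn r (T0 n) ∧ MapsTo r (T0 n) D.S ∧
    ∀ c ∈ D.S, r (c 1, D.vel c) = c := by
  classical
  let ν : AM n × AM n → AM n × AM n := fun y => (y.1, ‖y.2‖⁻¹ • y.2)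
  have cν : ContinuousOn ν (T0 n) := continuousOn_fst.prodMk
    ((continuousOn_snd.norm.inv₀ fun y h => norm_ne_zero_iff.2 h.2).smul continuousOn_snd)
  let s : LM n → AM n × AM n := fun c => (c 1, D.vel c)
  have cs : ContinuousOn s D.S := (continuous_eval_const 1).continuousOn.prodMk D.cvel
  have ms : MapsTo s D.S (T0 n) := fun c hc => ⟨D.tan c hc, D.vne c hc⟩
  have inj : InjOn (ν ∘ s) D.S := fun c hc c' hc' e => by
    obtain ⟨e1, e2⟩ := Prod.mk.inj e
    have p := norm_pos_iff.2 (D.vne c hc)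
    have p' := norm_pos_iff.2 (D.vne c' hc')
    refine D.uniq c' hc' c hc e1 (‖D.vel c‖ * ‖D.vel c'‖⁻¹) (by positivity) ?_
    have e3 : ‖D.vel c‖⁻¹ • D.vel c = ‖D.vel c'‖⁻¹ • D.vel c' := e2
    rw [mul_smul, ← e3, smul_inv_smul₀ p.ne']
  have sur : ∀ y ∈ T0 n, ν y ∈ (ν ∘ s) '' D.S := fun y hy => by
    obtain ⟨c, hc, e, r, hr, e'⟩ := D.ex y.1 y.2 hy.1 hy.2
    refine ⟨c, hc, Prod.ext e ?_⟩
    show ‖D.vel c‖⁻¹ • D.vel c = ‖y.2‖⁻¹ • y.2
    rw [e', norm_smul, Real.norm_of_nonneg hr.le, smul_smul, mul_inv, mul_right_comm,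
      inv_mul_cancel₀ hr.ne', one_mul]
  have : Nonempty (LM n) := ⟨0⟩
  let g := Function.invFunOn (ν ∘ s) D.S
  have cg : ContinuousOn g ((ν ∘ s) '' D.S) :=
    contOn_of_cpt D.cpt (cν.comp cs ms) subset_rfl continuousOn_id
      fun c hc => inj.leftInvOn_invFunOn hc
  exact ⟨g ∘ ν, cg.comp cν sur, fun y hy => Function.invFunOn_mem (sur y hy),
    fun c hc => inj.leftInvOn_invFunOn hc⟩

theorem ep_S (h : d < 4 * n) : EP d 3 D.S := by
  obtain ⟨r, a, b, c⟩ := D.exists_retr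
  exact (ep_T0 h).retract a b (s := fun c => (c 1, D.vel c))
    ((continuous_eval_const 1).continuousOn.prodMk D.cvel)
    (fun c hc => ⟨D.tan c hc, D.vne c hc⟩) c

theorem sgnTriv_S (hn : 1 ≤ n) : SgnTriv D.S := by
  obtain ⟨r, a, b, c⟩ := D.exists_retr
  exact (sgnTriv_T0 hn).retract a b (s := fun c => (c 1, D.vel c))
    ((continuous_eval_const 1).continuousOn.prodMk D.cvel)
    (fun c hc => ⟨D.tan c hc, D.vne c hc⟩) c

theorem nonempty_S (hn : 1 ≤ n) : D.S.Nonempty := by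
  obtain ⟨r, -, b, -⟩ := D.exists_retr
  obtain ⟨y, hy⟩ := nonempty_OO hn
  exact ⟨_, b (mapsTo_tv hy)⟩

theorem isPathConnected_S (hn : 1 ≤ n) : IsPathConnected D.S :=
  ((D.ep_S (d := 1) (by omega)).mono le_rfl (by norm_num)).isPathConnected (D.nonempty_S hn)

end TD0

theorem TD.rb_K (D : TD n) : RB D.K 3 D.S :=
  ⟨D.cpt.isClosed.isLocallyClosed, D.cK, D.idK, D.rkK⟩

theorem TD.exists_ori_K (D : TD n) (hn : 1 ≤ n) : ∃ o, Ori D.K 3 D.S o :=
  D.rb_K.exists_ori (D.sgnTriv_S hn)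

theorem exists_ori_tanP : ∃ o, Ori tanP (4 * n) (MH n) o := rb_tanP.exists_ori sgnTriv_MH

end Pool.Agent.Work.MP_8c604c_gt.T
end
end
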