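import Pool.Agent.Work.MP_8c604c_gt.T.VB
import Pool.Agent.Work.MP_8c604c_gt.T.Deg
import Pool.Agent.Work.MP_8c604c_gt.T.Gys
import Pool.Agent.Work.MP_8c604c_gt.T.Orient
import Pool.Agent.Work.MP_8c604c_gt.T.TD

-- merged part: Pool.Agent.Work.MP_8c604c_gt.T.VBS
section
/-!
Euler classes of sums and of conjugate bundles.
Hints. ec_sum: the class cup (pull (x, v o inl) th P) (pull (x, v o inr) th Q) on the total space of the sum is a Thom class
(check it on one frame per point, T = blocks of local frames, orient_sum, orient_linear; IsThom quantifies over all T, two of them differ by a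
complex linear bijection), then IsThom.eq_th, pull_cup'. ec_split: ec_iso with A = fromCols P1 P2 from the block sum. eu_rep: induction on K
(Fintype.induction_empty_option or Fin) through eu_iso. eu_pow_eq_zero: the cup product of the ec has support in the common zero set
(induction on a Finset), subsingleton_H. orient_conj: pull_lin of T/OrR (sign of the determinant) or cls_jump_neg. ec_conj: (-1)^r times the pull back of
th under (x, star v) is a Thom class.
-/

noncomputable section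

set_option linter.unusedSectionVars false
set_option linter.unusedVariables false

namespace Pool.Agent.Work.MP_8c604c_gt.T

open Set Topology Matrix Pool.Agent.Work.MP_849ab0_ag.G

variable {X : Type} [TopologicalSpace X] [RegularSpace X] [SecondCountableTopology X]
variable {J J' K : Type} [Fintype J] [Fintype J'] [Fintype K]
variable {U Z Z₁ Z₂ : Set X} {r r' : ℕ}
variable {P P₁ P₂ : X → Matrix J J ℂ} {Q : X → Matrix J' J' ℂ} {s s₁ s₂ : X → J → ℂ} {t : X → J' → ℂ}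

theorem VBS_ok_fib {x : X} (hx : x ∈ U) {T : (K → ℂ) →ₗ[ℂ] (J → ℂ)} (hT : Function.Injective T)
    (mem : ∀ v, P x *ᵥ T v = T v) :
    Ok (fun v => (x, T v)) univ {0} (tot P U) (zs X (J → ℂ)) :=
  .of_mem (.of_continuous (continuous_const.prodMk T.continuous_of_finiteDimensional) _)
    (fun v _ => ⟨hx, mem v⟩) fun v _ e => hT (Eq.trans e (map_zero T).symm)

theorem VBS_frame (h : CB P r U) {x : X} (hx : x ∈ U) :
    ∃ T : (Fin r → ℂ) →ₗ[ℂ] (J → ℂ), Function.Injective T ∧ ∀ v, P x *ᵥ T v = T v := by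
  obtain ⟨W, T, S, -, h1, -, -, h2⟩ := h.exists_frame hx
  obtain ⟨h3, h4⟩ := h2 x ⟨hx, h1⟩
  have k : ∀ v, S x *ᵥ (T x *ᵥ v) = v := fun v => by rw [mulVec_mulVec, h3, one_mulVec]
  refine ⟨(T x).mulVecLin, Function.LeftInverse.injective (g := fun w => S x *ᵥ w) k, fun v => ?_⟩
  rw [mulVecLin_apply, ← h4, ← mulVec_mulVec, k]

/-- it is enough to test a Thom class on one frame at each point -/
theorem VBS_thom (h : CB P r U) (hK : Fintype.card K = r) {τ : H (tot P U) (zs X (J → ℂ))}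
    (hd : IsDeg (2 * r) τ) (hτ : ∀ x ∈ U, ∃ T : (K → ℂ) →ₗ[ℂ] (J → ℂ), Function.Injective T ∧
      (∀ v, P x *ᵥ T v = T v) ∧ pull (fun v => (x, T v)) univ {0} τ = orient K) :
    IsThom P r U τ := by
  refine ⟨hd, fun x hx T' i' m' => ?_⟩
  obtain ⟨T, i, m, e⟩ := hτ x hx
  have hr : LinearMap.range T = LinearMap.range (P x).mulVecLin :=
    Submodule.eq_of_le_of_finrank_eq (by rintro _ ⟨v, rfl⟩; exact ⟨T v, m v⟩)
      (by rw [LinearMap.finrank_range_of_inj i, h.finrank hx, Module.finrank_fintype_fun_eq_card,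
        hK])
  obtain ⟨S, hS⟩ := T.exists_leftInverse_of_injective (LinearMap.ker_eq_bot.2 i)
  have k : ∀ v, T ((S ∘ₗ T') v) = T' v := fun v => by
    obtain ⟨w, hw⟩ : T' v ∈ LinearMap.range T := hr ▸ ⟨T' v, m' v⟩
    rw [LinearMap.comp_apply, ← hw, show S (T w) = w from LinearMap.congr_fun hS w]
  have j : Function.Injective (S ∘ₗ T') := fun a b e => i' (by rw [← k, e, k])
  have j' : Function.Bijective (S ∘ₗ T') :=
    ⟨j, (LinearMap.injective_iff_surjective_of_finrank_eq_finrank (by simp [hK])).1 j⟩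
  have o : Ok (S ∘ₗ T') univ {0} univ {0} :=
    .of_mem (.of_continuous (S ∘ₗ T').continuous_of_finiteDimensional _) (fun _ _ => trivial)
      fun v _ e => j (Eq.trans e (map_zero _).symm)
  rw [← pull_pull' o (VBS_ok_fib hx i m) (fun v _ => by rw [k]), e]
  exact orient_linear (S ∘ₗ T').isLinear j'

theorem VBS_blk {A : Matrix J J ℂ} {B : Matrix J' J' ℂ} {v : J ⊕ J' → ℂ} :
    fromBlocks A 0 0 B *ᵥ v = v ↔
      A *ᵥ (v ∘ Sum.inl) = v ∘ Sum.inl ∧ B *ᵥ (v ∘ Sum.inr) = v ∘ Sum.inr := by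
  rw [fromBlocks_mulVec, zero_mulVec, zero_mulVec, add_zero, zero_add]
  constructor
  · exact fun e => ⟨funext fun j => congrFun e (.inl j), funext fun j => congrFun e (.inr j)⟩
  · rintro ⟨a, b⟩
    rw [a, b, Sum.elim_comp_inl_inr]

theorem VBS_ok1 (P : X → Matrix J J ℂ) (Q : X → Matrix J' J' ℂ) (U : Set X) :
    Ok (fun z : X × (J ⊕ J' → ℂ) => (z.1, z.2 ∘ Sum.inl))
      (tot (fun x => fromBlocks (P x) 0 0 (Q x)) U) {z | z.2 ∘ Sum.inl = 0}
      (tot P U) (zs X (J → ℂ)) :=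
  .of_mem (.of_continuous (continuous_fst.prodMk ((cont_comp_right _).comp continuous_snd)) _)
    (fun _ hz => ⟨hz.1, (VBS_blk.1 hz.2).1⟩) fun _ _ e => e

theorem VBS_ok2 (P : X → Matrix J J ℂ) (Q : X → Matrix J' J' ℂ) (U : Set X) :
    Ok (fun z : X × (J ⊕ J' → ℂ) => (z.1, z.2 ∘ Sum.inr))
      (tot (fun x => fromBlocks (P x) 0 0 (Q x)) U) {z | z.2 ∘ Sum.inr = 0}
      (tot Q U) (zs X (J' → ℂ)) :=
  .of_mem (.of_continuous (continuous_fst.prodMk ((cont_comp_right _).comp continuous_snd)) _)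
    (fun _ hz => ⟨hz.1, (VBS_blk.1 hz.2).2⟩) fun _ _ e => e

theorem VBS_zero {v : J ⊕ J' → ℂ} (a : v ∘ Sum.inl = 0) (b : v ∘ Sum.inr = 0) : v = 0 :=
  funext fun j => j.rec (congrFun a) (congrFun b)

theorem VBS_cup (P : X → Matrix J J ℂ) (Q : X → Matrix J' J' ℂ) (U : Set X) :
    CupOK (tot (fun x => fromBlocks (P x) 0 0 (Q x)) U) {z | z.2 ∘ Sum.inl = 0}
      (tot (fun x => fromBlocks (P x) 0 0 (Q x)) U) {z | z.2 ∘ Sum.inr = 0}
      (tot (fun x => fromBlocks (P x) 0 0 (Q x)) U) (zs X (J ⊕ J' → ℂ)) :=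
  cupOK fun _ _ a b => VBS_zero a b

/-- the direct sum of two linear maps -/
def VBS_lin {K' : Type} (T : (K → ℂ) →ₗ[ℂ] (J → ℂ)) (T' : (K' → ℂ) →ₗ[ℂ] (J' → ℂ)) :
    (K ⊕ K' → ℂ) →ₗ[ℂ] (J ⊕ J' → ℂ) where
  toFun v := Sum.elim (T (v ∘ Sum.inl)) (T' (v ∘ Sum.inr))
  map_add' v w := funext fun j => j.rec (congrFun (map_add T (v ∘ Sum.inl) (w ∘ Sum.inl)))
    (congrFun (map_add T' (v ∘ Sum.inr) (w ∘ Sum.inr)))
  map_smul' c v := funext fun j => j.rec (congrFun (map_smul T c (v ∘ Sum.inl)))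
    (congrFun (map_smul T' c (v ∘ Sum.inr)))

theorem VBS_th_sum (hP : CB P r U) (hQ : CB Q r' U) :
    th (fun x => fromBlocks (P x) 0 0 (Q x)) (r + r') U =
      cup (tot (fun x => fromBlocks (P x) 0 0 (Q x)) U) (zs X (J ⊕ J' → ℂ))
        (pull (fun z : X × (J ⊕ J' → ℂ) => (z.1, z.2 ∘ Sum.inl))
          (tot (fun x => fromBlocks (P x) 0 0 (Q x)) U) {z | z.2 ∘ Sum.inl = 0} (th P r U))
        (pull (fun z : X × (J ⊕ J' → ℂ) => (z.1, z.2 ∘ Sum.inr))
          (tot (fun x => fromBlocks (P x) 0 0 (Q x)) U) {z | z.2 ∘ Sum.inr = 0} (th Q r' U)) := by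
  refine (IsThom.eq_th (hP.sum hQ) (VBS_thom (K := Fin r ⊕ Fin r') (hP.sum hQ) (by simp) ?_
    fun x hx => ?_)).symm
  · rw [Nat.cast_add, mul_add]
    exact (hP.isThom_th.1.pull _ _ _).cup (hQ.isThom_th.1.pull _ _ _) _ _
  obtain ⟨T, i, m⟩ := VBS_frame hP hx
  obtain ⟨T', i', m'⟩ := VBS_frame hQ hx
  have j : Function.Injective (VBS_lin T T') := (injective_iff_map_eq_zero _).2 fun v e =>
    VBS_zero ((injective_iff_map_eq_zero T).1 i _ (funext fun j => congrFun e (.inl j)))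
      ((injective_iff_map_eq_zero T').1 i' _ (funext fun j => congrFun e (.inr j)))
  have n : ∀ v, fromBlocks (P x) 0 0 (Q x) *ᵥ VBS_lin T T' v = VBS_lin T T' v := fun v =>
    VBS_blk.2 ⟨m _, m' _⟩
  have o := VBS_ok_fib (P := fun x => fromBlocks (P x) 0 0 (Q x)) hx j n
  have o1 : Ok (fun v => (x, VBS_lin T T' v)) univ {v | v ∘ Sum.inl = 0}
      (tot (fun x => fromBlocks (P x) 0 0 (Q x)) U) {z | z.2 ∘ Sum.inl = 0} :=
    .of_mem o.ext o.maps fun v _ e => (injective_iff_map_eq_zero T).1 i _ e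
  have o2 : Ok (fun v => (x, VBS_lin T T' v)) univ {v | v ∘ Sum.inr = 0}
      (tot (fun x => fromBlocks (P x) 0 0 (Q x)) U) {z | z.2 ∘ Sum.inr = 0} :=
    .of_mem o.ext o.maps fun v _ e => (injective_iff_map_eq_zero T').1 i' _ e
  have q1 : Ok (fun v : Fin r ⊕ Fin r' → ℂ => v ∘ Sum.inl) univ {v | v ∘ Sum.inl = 0} univ {0} :=
    .of_mem (.of_continuous (cont_comp_right _) _) (fun _ _ => trivial) fun _ _ e => e
  have q2 : Ok (fun v : Fin r ⊕ Fin r' → ℂ => v ∘ Sum.inr) univ {v | v ∘ Sum.inr = 0} univ {0} :=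
    .of_mem (.of_continuous (cont_comp_right _) _) (fun _ _ => trivial) fun _ _ e => e
  refine ⟨VBS_lin T T', j, n, ?_⟩
  rw [pull_cup' o o1 o2 (fun _ _ a b => VBS_zero a b) (VBS_cup P Q U),
    pull_pull' (F := fun v => (x, T (v ∘ Sum.inl))) o1 (VBS_ok1 P Q U) fun _ _ => rfl,
    pull_pull' (F := fun v => (x, T' (v ∘ Sum.inr))) o2 (VBS_ok2 P Q U) fun _ _ => rfl,
    ← pull_pull' (F := fun v => (x, T (v ∘ Sum.inl))) q1 (VBS_ok_fib hx i m) fun _ _ => rfl,
    ← pull_pull' (F := fun v => (x, T' (v ∘ Sum.inr))) q2 (VBS_ok_fib hx i' m') fun _ _ => rfl,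
    hP.isThom_th.2 x hx T i m, hQ.isThom_th.2 x hx T' i' m']
  exact (orient_sum (Equiv.refl _)).symm

theorem VBS_sec (hs : Sec P s U Z₁) (ht : Sec Q t U Z₂)
    (hZ : ∀ x ∈ U, x ∈ Z₁ → x ∈ Z₂ → x ∈ Z) :
    Sec (fun x => fromBlocks (P x) 0 0 (Q x)) (fun x => Sum.elim (s x) (t x)) U Z :=
  ⟨continuousOn_pi.2 fun j => j.rec (continuousOn_pi.1 hs.cont) (continuousOn_pi.1 ht.cont),
    fun x hx => VBS_blk.2 ⟨hs.mem x hx, ht.mem x hx⟩, fun x hx e =>
      hZ x hx (hs.zero x hx (funext fun j => congrFun e (.inl j)))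
        (ht.zero x hx (funext fun j => congrFun e (.inr j)))⟩

theorem ec_sum (hP : CB P r U) (hQ : CB Q r' U) (hs : Sec P s U Z₁) (ht : Sec Q t U Z₂)
    (hZ : ∀ x ∈ U, x ∈ Z₁ → x ∈ Z₂ → x ∈ Z) :
    ec (fun x => fromBlocks (P x) 0 0 (Q x)) (r + r') (fun x => Sum.elim (s x) (t x)) U Z =
      cup U Z (ec P r s U Z₁) (ec Q r' t U Z₂) := by
  have o := (VBS_sec hs ht hZ).ok hP.lc
  have o1 : Ok (fun x => (x, Sum.elim (s x) (t x))) U Z₁
      (tot (fun x => fromBlocks (P x) 0 0 (Q x)) U) {z | z.2 ∘ Sum.inl = 0} :=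
    .of_mem o.ext o.maps hs.zero
  have o2 : Ok (fun x => (x, Sum.elim (s x) (t x))) U Z₂
      (tot (fun x => fromBlocks (P x) 0 0 (Q x)) U) {z | z.2 ∘ Sum.inr = 0} :=
    .of_mem o.ext o.maps ht.zero
  rw [ec, VBS_th_sum hP hQ, pull_cup' o o1 o2 hZ (VBS_cup P Q U),
    pull_pull' (F := fun x => (x, s x)) o1 (VBS_ok1 P Q U) fun _ _ => rfl,
    pull_pull' (F := fun x => (x, t x)) o2 (VBS_ok2 P Q U) fun _ _ => rfl]
  rfl

theorem eu_sum (hP : CB P r U) (hQ : CB Q r' U) :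
    eu (fun x => fromBlocks (P x) 0 0 (Q x)) (r + r') U = eu P r U * eu Q r' U := by
  have e : (fun x => Sum.elim ((0 : X → J → ℂ) x) ((0 : X → J' → ℂ) x)) = 0 :=
    funext fun _ => VBS_zero rfl rfl
  have := ec_sum (Z := univ) hP hQ (sec_zero P U) (sec_zero Q U) fun _ _ _ _ => trivial
  rwa [e] at this

/-- internal direct sums -/
theorem ec_split (h : CB P (r + r') U) (h₁ : CB P₁ r U) (h₂ : CB P₂ r' U)
    (e₁ : ∀ x ∈ U, P x * P₁ x = P₁ x) (e₂ : ∀ x ∈ U, P x * P₂ x = P₂ x)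
    (dj : ∀ x ∈ U, ∀ v, P₁ x *ᵥ v = v → P₂ x *ᵥ v = v → v = 0)
    (hs₁ : Sec P₁ s₁ U Z₁) (hs₂ : Sec P₂ s₂ U Z₂) (hZ : ∀ x ∈ U, x ∈ Z₁ → x ∈ Z₂ → x ∈ Z) :
    ec P (r + r') (fun x => s₁ x + s₂ x) U Z = cup U Z (ec P₁ r s₁ U Z₁) (ec P₂ r' s₂ U Z₂) := by
  classical
  have k : ∀ v : J ⊕ J → ℂ, fromCols (1 : Matrix J J ℂ) 1 *ᵥ v = v ∘ Sum.inl + v ∘ Sum.inr :=
    fun v => by rw [fromCols_mulVec, one_mulVec, one_mulVec]
  have b : BM (fun x => fromBlocks (P₁ x) 0 0 (P₂ x)) U P U id fun _ => fromCols 1 1 := by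
    refine ⟨continuousOn_id, fun _ hx => hx, continuousOn_const, fun x hx v hv => ?_,
      fun x hx v hv e => ?_⟩
    · obtain ⟨a, b⟩ := VBS_blk.1 hv
      rw [k, mulVec_add, ← a, ← b, mulVec_mulVec, mulVec_mulVec, id, e₁ x hx, e₂ x hx]
    · obtain ⟨a, b⟩ := VBS_blk.1 hv
      rw [k] at e
      have c : v ∘ Sum.inl = -(v ∘ Sum.inr) := eq_neg_of_add_eq_zero_left e
      have d := dj x hx _ a (by rw [c, mulVec_neg, b])
      exact VBS_zero d (by rwa [d, zero_add] at e)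
  rw [← ec_sum h₁ h₂ hs₁ hs₂ hZ, ← ec_iso (h₁.sum h₂) h b (VBS_sec hs₁ hs₂ hZ)]
  simp only [k]
  rfl

theorem eu_split (h : CB P (r + r') U) (h₁ : CB P₁ r U) (h₂ : CB P₂ r' U)
    (e₁ : ∀ x ∈ U, P x * P₁ x = P₁ x) (e₂ : ∀ x ∈ U, P x * P₂ x = P₂ x)
    (dj : ∀ x ∈ U, ∀ v, P₁ x *ᵥ v = v → P₂ x *ᵥ v = v → v = 0) :
    eu P (r + r') U = eu P₁ r U * eu P₂ r' U := by
  have e : (fun x => (0 : X → J → ℂ) x + (0 : X → J → ℂ) x) = 0 := funext fun _ => add_zero _
  have := ec_split (Z := univ) h h₁ h₂ e₁ e₂ dj (sec_zero P₁ U) (sec_zero P₂ U)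
    fun _ _ _ _ => trivial
  rwa [e] at this

/-- a subbundle splits off -/
theorem eu_sub (h : CB P (r + r') U) (h₁ : CB P₁ r U) (e₁ : ∀ x ∈ U, P x * P₁ x = P₁ x) :
    eu P (r + r') U = eu P₁ r U * eu (fun x => P x - P₁ x * P x) r' U := by
  refine eu_split h h₁ (h.sub h₁ e₁) e₁ (fun x hx => ?_) fun x hx v a b => ?_
  · rw [mul_sub, h.idem x hx, ← mul_assoc, e₁ x hx]
  · rw [← a, ← b, mulVec_mulVec, mul_sub, ← mul_assoc, h₁.idem x hx, sub_self, zero_mulVec]

theorem VBS_reindex (h : CB P r U) (h' : CB Q r U) {e : J' → J} (he : Function.Surjective e)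
    (mem : ∀ x ∈ U, ∀ v, P x *ᵥ v = v → Q x *ᵥ (v ∘ e) = v ∘ e) : eu Q r U = eu P r U := by
  obtain ⟨A, b, -⟩ := exists_BM (P' := Q) (U' := U) (f := id) (Φ := fun _ v => v ∘ e) h
    continuousOn_id (fun _ hx => hx) ((cont_comp_right e).comp continuous_snd).continuousOn
    (fun _ _ _ _ _ _ => rfl) (fun _ _ _ _ _ => rfl) mem fun _ _ v _ k => funext fun j => by
      obtain ⟨i, rfl⟩ := he j
      exact congrFun k i
  exact eu_iso h h' b

theorem VBS_kron [DecidableEq K] {A : Matrix J J ℂ} {v : K × J → ℂ} :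
    kroneckerMap (· * ·) (1 : Matrix K K ℂ) A *ᵥ v = v ↔
      ∀ k, (A *ᵥ fun j => v (k, j)) = fun j => v (k, j) := by
  have e : ∀ k j, (kroneckerMap (· * ·) (1 : Matrix K K ℂ) A *ᵥ v) (k, j) =
      (A *ᵥ fun j => v (k, j)) j := fun k j => by
    simp [mulVec, dotProduct, Fintype.sum_prod_type, one_apply]
  exact ⟨fun h k => funext fun j => (e k j).symm.trans (congrFun h (k, j)),
    fun h => funext fun p => (e p.1 p.2).trans (congrFun (h p.1) p.2)⟩

theorem VBS_rep (h : CB P r U) (K : Type) [Finite K] : ∀ [Fintype K] [DecidableEq K],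
    eu (fun x => kroneckerMap (· * ·) (1 : Matrix K K ℂ) (P x)) (Fintype.card K * r) U =
      eu P r U ^ Fintype.card K := by
  induction K using Finite.induction_empty_option with
  | @of_equiv α β e ih =>
    intro _ _
    classical
    let _ := Fintype.ofEquiv β e.symm
    have c := (cb_one (J := β) h.lc).kron h
    rw [← Fintype.card_congr e] at c ⊢
    rw [← ih]
    refine VBS_reindex ((cb_one h.lc).kron h) c (e := fun p => (e.symm p.1, p.2))
      (fun p => ⟨(e p.1, p.2), by simp⟩) fun x _ v hv => VBS_kron.2 fun k =>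
        VBS_kron.1 hv (e.symm k)
  | h_empty =>
    intro _ _
    have c := (cb_one (J := PEmpty) h.lc).kron h
    rw [Fintype.card_eq_zero, zero_mul] at c ⊢
    rw [pow_zero]
    exact eu_rank_zero c
  | @h_option α _ ih =>
    intro i _
    classical
    have e : @Fintype.card (Option α) i = Fintype.card α + 1 := by convert Fintype.card_option
    have c := (cb_one (J := Option α) h.lc).kron h
    have c' := (cb_one (J := α) h.lc).kron h
    rw [e, add_mul, one_mul, add_comm] at c ⊢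
    rw [pow_succ', ← ih, ← eu_sum h c']
    refine (VBS_reindex c (h.sum c') (e := Sum.elim (fun j => (none, j)) fun p => (some p.1, p.2))
      ?_ fun x _ v hv => VBS_blk.2 ⟨VBS_kron.1 hv none, VBS_kron.2 fun k =>
        VBS_kron.1 hv (some k)⟩).symm
    rintro ⟨_ | k, j⟩
    exacts [⟨.inl j, rfl⟩, ⟨.inr (k, j), rfl⟩]

/-- the sum of several copies -/
theorem eu_rep [DecidableEq K] (h : CB P r U) :
    eu (fun x => kroneckerMap (· * ·) (1 : Matrix K K ℂ) (P x)) (Fintype.card K * r) U =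
      eu P r U ^ Fintype.card K := by
  exact VBS_rep h K

/-- sections without a common zero -/
theorem eu_pow_eq_zero (h : CB P r U) {σ : K → X → J → ℂ} (hσ : ∀ k, Sec P (σ k) U univ)
    (ne : ∀ x ∈ U, ∃ k, σ k x ≠ 0) : eu P r U ^ Fintype.card K = 0 := by
  classical
  have k : ∀ S : Finset K, ∃ c : H U {x | ∀ k ∈ S, σ k x = 0},
      pull id U univ c = eu P r U ^ S.card := by
    intro S
    induction S using Finset.induction_on with
    | empty =>
      refine ⟨cls U _ onec, ?_⟩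
      rw [Finset.card_empty, pow_zero]
      exact pull_one (.id subset_rfl fun _ _ _ => trivial) fun _ _ => by simp
    | insert a S ha ih =>
      obtain ⟨c, hc⟩ := ih
      have hs : Sec P (σ a) U {x | σ a x = 0} := ⟨(hσ a).cont, (hσ a).mem, fun _ _ e => e⟩
      refine ⟨cup U _ (ec P r (σ a) U {x | σ a x = 0}) c, ?_⟩
      have o : ∀ Z : Set X, Ok id U univ U Z := fun Z => .id subset_rfl fun _ _ _ => trivial
      have c' : CupOK U {x | σ a x = 0} U {x | ∀ k ∈ S, σ k x = 0} U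
          {x | ∀ k ∈ insert a S, σ k x = 0} :=
        cupOK fun x _ u v => (Finset.forall_mem_insert a S fun k => σ k x = 0).2 ⟨u, v⟩
      rw [pull_cup' (o _) (o _) (o _) (fun _ _ _ _ => trivial) c', fgt_ec h hs, hc, Finset.card_insert_of_notMem ha, pow_succ']
      rfl
  obtain ⟨c, hc⟩ := k Finset.univ
  have : Subsingleton (H U {x | ∀ k ∈ Finset.univ, σ k x = 0}) :=
    subsingleton_H (disjoint_left.2 fun x hx e => by
      obtain ⟨k, hk⟩ := ne x hx
      exact hk (e k (Finset.mem_univ k)))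
  rw [← Finset.card_univ, ← hc, Subsingleton.elim c 0, map_zero]

theorem VBS_uc {w : X → ℂ} (hw : ∀ x ∈ U, ContinuousAt w x) :
    cls U {x | w x = 0} (uc fun x => star (w x)) = -cls U {x | w x = 0} (uc w) := by
  have c : CupOK U {x | (w x).re = 0} U {x | (w x).im = 0} U {x | w x = 0} :=
    cupOK fun _ _ a b => Complex.ext a b
  have hi : ∀ x ∈ U, ContinuousAt (fun x => (w x).im) x := fun x k =>
    Complex.continuous_im.continuousAt.comp (hw x k)
  have e : uc (fun x => star (w x)) =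
      cupc (jump fun x => (w x).re) (jump fun x => -(w x).im) := rfl
  have m : jump (fun x => -(w x).im) ∈ Zc U {x | (w x).im = 0} :=
    jump_zc (fun x k => (hi x k).neg) fun _ _ k => neg_eq_zero.1 k
  rw [e, ← cup_cls c (jre_zc hw) m, cls_jump_neg (Z := {x | (w x).im = 0}) hi fun _ _ k => k,
    map_neg, cup_cls c (jre_zc hw) (jim_zc hw)]
  rfl

theorem VBS_oc {w : K → X → ℂ} (hw : ∀ j, ∀ x ∈ U, ContinuousAt (w j) x) (L : List K) :
    ∀ {Z : Set X}, (∀ x ∈ U, (∀ j ∈ L, w j x = 0) → x ∈ Z) →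
      cls U Z (oc (fun j x => star (w j x)) L) = (-1 : ℂ) ^ L.length • cls U Z (oc w L) := by
  have hw' : ∀ j, ∀ x ∈ U, ContinuousAt (fun x => star (w j x)) x := fun j x k => (hw j x k).star
  induction L with
  | nil => intro Z _; simp [oc]
  | cons j L ih =>
    intro Z h
    have c := cupOK (Z₁ := {x | w j x = 0}) (Z₂ := {x | ∀ j ∈ L, w j x = 0}) fun x k a b =>
      h x k (List.forall_mem_cons.2 ⟨a, b⟩)
    have m : uc (fun x => star (w j x)) ∈ Zc U {x | w j x = 0} := by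
      simpa only [star_eq_zero] using uc_zc (hw' j)
    rw [oc_cons, oc_cons, ← cup_cls c m
      (oc_zc hw' L fun _ _ k i hi => star_eq_zero.1 (k i hi)),
      ih (Z := {x | ∀ j ∈ L, w j x = 0}) fun _ _ k => k, VBS_uc (hw j),
      ← cup_cls c (uc_zc (hw j)) (oc_zc hw L fun _ _ k => k)]
    simp only [map_smul, map_neg, LinearMap.neg_apply, List.length_cons, pow_succ, mul_neg, mul_one,
      neg_smul, smul_neg]

theorem orient_conj (K : Type) [Fintype K] :
    pull (fun v : K → ℂ => star v) univ {0} (orient K) = (-1 : ℂ) ^ Fintype.card K • orient K := by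
  rw [pull_orient (F := fun v : K → ℂ => star v) (U := univ) (Z := {0})
    (L := (Finset.univ : Finset K).toList) (fun _ _ => continuous_star.continuousAt)
    (fun _ _ e => star_eq_zero.1 e) (Finset.nodup_toList _) (by simp), orient_eq,
    ← Finset.card_univ, ← Finset.length_toList]
  have := VBS_oc (U := univ) (Z := {0}) (w := fun (j : K) (v : K → ℂ) => v j)
    (fun j _ _ => (continuous_apply j).continuousAt) (Finset.univ : Finset K).toList
    fun _ _ k => funext fun j => k j (by simp)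
  simpa only [Pi.star_apply] using this

theorem VBS_star (A : Matrix J J ℂ) (v : J → ℂ) : star (A.map star *ᵥ v) = A *ᵥ star v := by
  funext i
  simp [mulVec, dotProduct]

theorem VBS_okc (P : X → Matrix J J ℂ) (U : Set X) :
    Ok (fun z : X × (J → ℂ) => (z.1, star z.2)) (tot (fun x => (P x).map star) U) (zs X (J → ℂ))
      (tot P U) (zs X (J → ℂ)) :=
  .of_mem (.of_continuous (continuous_fst.prodMk continuous_snd.star) _)
    (fun z hz => ⟨hz.1, (VBS_star _ _).symm.trans (congrArg star hz.2)⟩)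
    fun _ _ e => star_eq_zero.1 e

theorem VBS_th_conj (h : CB P r U) : th (fun x => (P x).map star) r U =
    (-1 : ℂ) ^ r • pull (fun z : X × (J → ℂ) => (z.1, star z.2))
      (tot (fun x => (P x).map star) U) (zs X (J → ℂ)) (th P r U) := by
  refine (IsThom.eq_th h.conj ⟨(h.isThom_th.1.pull _ _ _).smul _, fun x hx T i m => ?_⟩).symm
  let T' : (Fin r → ℂ) →ₗ[ℂ] (J → ℂ) :=
    { toFun := fun v => star (T (star v))
      map_add' := fun v w => by rw [star_add, map_add, star_add]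
      map_smul' := fun c v => by
        rw [star_smul, map_smul, star_smul, star_star, RingHom.id_apply] }
  have i' : Function.Injective T' := fun a b e => star_injective (i (star_injective e))
  have m' : ∀ v, P x *ᵥ T' v = T' v := fun v =>
    (VBS_star _ _).symm.trans (congrArg star (m (star v)))
  have o : Ok (fun v : Fin r → ℂ => star v) univ {0} univ {0} :=
    .of_mem (.of_continuous continuous_star _) (fun _ _ => trivial) fun _ _ e => star_eq_zero.1 e
  rw [map_smul, pull_pull' (F := fun v => (x, star (T v))) (VBS_ok_fib hx i m) (VBS_okc P U)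
      fun _ _ => rfl,
    ← pull_pull' (F := fun v => (x, star (T v))) o (VBS_ok_fib hx i' m')
      fun v _ => congrArg (fun w => (x, star (T w))) (star_star v),
    h.isThom_th.2 x hx T' i' m', orient_conj, Fintype.card_fin, smul_smul, ← mul_pow]
  simp

theorem ec_conj (h : CB P r U) (hs : Sec P s U Z) :
    ec (fun x => (P x).map star) r (fun x => star (s x)) U Z = (-1 : ℂ) ^ r • ec P r s U Z := by
  have hs' : Sec (fun x => (P x).map star) (fun x => star (s x)) U Z :=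
    ⟨hs.cont.star, fun x hx => star_injective (by rw [VBS_star, star_star, hs.mem x hx]),
      fun x hx e => hs.zero x hx (star_eq_zero.1 e)⟩
  rw [ec, VBS_th_conj h, map_smul, pull_pull' (F := fun x => (x, s x)) (hs'.ok h.lc) (VBS_okc P U)
    fun x _ => congrArg (fun w => (x, w)) (star_star (s x))]
  rfl

theorem eu_conj (h : CB P r U) : eu (fun x => (P x).map star) r U = (-1 : ℂ) ^ r • eu P r U := by
  have e : (fun x => star ((0 : X → J → ℂ) x)) = 0 := funext fun _ => star_zero _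
  have := ec_conj h (sec_zero P U)
  rwa [e] at this

end Pool.Agent.Work.MP_8c604c_gt.T
end
end

-- merged part: Pool.Agent.Work.MP_8c604c_gt.T.Sph
section
/-!
Sphere bundles of oriented Euclidean bundles of rank three: the vertical tangent line bundle
(definitions and linear algebra, owner helper87).

PLAN.  Pure linear algebra, no cohomology.  Let `P` be the `N × 3` matrix with columns `a, b, c`.
* `Fr.form`: `ω ![A x, A y, A z] = ω ![a, b, c] * det` of the coordinates (expand with `h.eq`,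
  multilinear + alternating, or `AlternatingMap.map_eq_det`-like argument on `Fin 3`).  Hence
  `crs A ω (frv a b c p) i j = λ * (α (b j * c i - c j * b i) + β (c j * a i - a j * c i)
  + γ (a j * b i - b j * a i))` with `(α, β, γ) = (p.2, p.1.re, p.1.im)`, the sum of the squares is
  `2 λ ^ 2 (α² + β² + γ²)` (use `∑ i, a i * a i = 1`, `∑ i, a i * b i = 0`, ...), and
  `mat A i j = a i * a j + b i * b j + c i * c j`.  This gives the explicit matrix `Fr.ell0_apply`,
  from which `ell0_eq` (`p = (0, 1)`), `ell0_rel`, `ell0_ne`, `ell0_zero` follow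
  (`star b0 ⬝ᵥ Π b0 = (1 + α) ^ 2 / 2`, `Π a = (a - α ξ - i (γ b - β c)) / 2`).
* `exists_fr`: extend `ξ` to an orthonormal basis of the range (dimension 3,
  `Orthonormal.exists_orthonormalBasis_extension_of_card_eq` in the subtype), flip `c` if the form
  is negative; `eq` from symmetry and idempotence.
* `cb_ell`: continuity entrywise (the sum of squares is positive), `idem` and `rank` from
  `ell0_eq` and `lin_idem`, `lin_rank`.
-/

noncomputable section

set_option linter.unusedSectionVars false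

namespace Pool.Agent.Work.MP_8c604c_gt.T

open Set Topology Matrix Pool.Agent.Work.MP_849ab0_ag.G

variable {X Y : Type} [TopologicalSpace X] [TopologicalSpace Y] {N : ℕ}

/-- the unit sphere bundle -/
def sph (V : X → RN N →L[ℝ] RN N) (U : Set X) : Set (X × RN N) :=
  {y | y.1 ∈ U ∧ V y.1 y.2 = y.2 ∧ ‖y.2‖ = 1}

/-- the antipodal map -/
def anti (y : X × RN N) : X × RN N := (y.1, -y.2)

/-- an oriented Euclidean bundle of rank three -/
structure SB (V : X → RN N →L[ℝ] RN N) (o : X → RN N [⋀^Fin 3]→L[ℝ] ℝ) (U : Set X) : Prop where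
  rb : RB V 3 U
  sym : ∀ x ∈ U, ∀ a b, inner ℝ (V x a) b = inner ℝ a (V x b)
  ori : Ori V 3 U o

/-- the matrix of a linear map -/
def mat (A : RN N →L[ℝ] RN N) : Matrix (Fin N) (Fin N) ℝ :=
  fun i j => A (EuclideanSpace.single j 1) i

/-- a multiple of the cross product with `ξ` -/
def crs (A : RN N →L[ℝ] RN N) (ω : RN N [⋀^Fin 3]→L[ℝ] ℝ) (ξ : RN N) : Matrix (Fin N) (Fin N) ℝ :=
  fun i j => ω ![ξ, A (EuclideanSpace.single j 1), A (EuclideanSpace.single i 1)]

/-- the projector onto the `i`-eigenspace of the cross product with `ξ` -/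
def ell0 (A : RN N →L[ℝ] RN N) (ω : RN N [⋀^Fin 3]→L[ℝ] ℝ) (ξ : RN N) :
    Matrix (Fin N) (Fin N) ℂ := fun i j =>
  (((mat A i j - ξ i * ξ j : ℝ) : ℂ) - Complex.I *
    ((crs A ω ξ i j / √((∑ k, ∑ l, crs A ω ξ k l ^ 2) / 2) : ℝ) : ℂ)) / 2

/-- the vertical tangent line bundle -/
def ell (V : X → RN N →L[ℝ] RN N) (o : X → RN N [⋀^Fin 3]→L[ℝ] ℝ) (y : X × RN N) :
    Matrix (Fin N) (Fin N) ℂ := ell0 (V y.1) (o y.1) y.2

/-- a real vector as a complex one -/
def rcv (a : RN N) : Fin N → ℂ := fun i => a i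

/-- `a, b, c` is a positive orthonormal frame of the range of `A` -/
structure Fr (A : RN N →L[ℝ] RN N) (ω : RN N [⋀^Fin 3]→L[ℝ] ℝ) (a b c : RN N) : Prop where
  on : Orthonormal ℝ ![a, b, c]
  eq : ∀ x, A x = inner ℝ a x • a + inner ℝ b x • b + inner ℝ c x • c
  pos : 0 < ω ![a, b, c]

/-- coordinates in a frame -/
def frv (a b c : RN N) (p : ℂ × ℝ) : RN N := p.2 • a + p.1.re • b + p.1.im • c

/-- the inverse of `frv` -/
def frc (a b c : RN N) (x : RN N) : ℂ × ℝ := (⟨inner ℝ b x, inner ℝ c x⟩, inner ℝ a x)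

/-- the two-sphere -/
def S2 : Set (ℂ × ℝ) := {p | ‖p.1‖ ^ 2 + p.2 ^ 2 = 1}

open scoped ComplexOrder in
theorem sph_dot_ne {J : Type} [Fintype J] {v : J → ℂ} (hv : v ≠ 0) : star v ⬝ᵥ v ≠ 0 :=
  fun e => hv (dotProduct_star_self_eq_zero.1 e)

theorem sph_lin_mulVec {J : Type} [Fintype J] (v w : J → ℂ) :
    lin v *ᵥ w = ((star v ⬝ᵥ v)⁻¹ * (star v ⬝ᵥ w)) • v := by
  rw [lin, smul_mulVec, vecMulVec_mulVec, op_smul_eq_smul, smul_smul]

theorem sph_lin_mul {J : Type} [Fintype J] (v w : J → ℂ) :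
    lin v * lin w = ((star v ⬝ᵥ v)⁻¹ * (star w ⬝ᵥ w)⁻¹ * (star v ⬝ᵥ w)) • vecMulVec v (star w) := by
  rw [lin, lin, smul_mul_smul_comm, vecMulVec_mul_vecMulVec, vecMulVec_smul, smul_smul]

theorem sph_lin_orth {J : Type} [Fintype J] {v w : J → ℂ} (h : star v ⬝ᵥ w = 0) :
    lin v * lin w = 0 := by
  rw [sph_lin_mul, h, mul_zero, zero_smul]

theorem sph_lin_star {J : Type} [Fintype J] (v : J → ℂ) : (lin v).map star = lin (star v) := by
  ext i j
  simp [lin, vecMulVec_apply, dotProduct, mul_comm]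

theorem sph_lin_idem {J : Type} [Fintype J] {v : J → ℂ} (hv : v ≠ 0) : lin v * lin v = lin v := by
  rw [sph_lin_mul, mul_assoc, inv_mul_cancel₀ (sph_dot_ne hv), mul_one, lin]

theorem sph_lin_rank {J : Type} [Fintype J] {v : J → ℂ} (hv : v ≠ 0) : (lin v).rank = 1 := by
  have e : LinearMap.range (lin v).mulVecLin = Submodule.span ℂ {v} := by
    ext w
    rw [Submodule.mem_span_singleton]
    refine ⟨fun ⟨u, e⟩ => ⟨_, (sph_lin_mulVec v u).symm.trans e⟩, fun ⟨t, e⟩ => ⟨t • v, ?_⟩⟩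
    rw [mulVecLin_apply, mulVec_smul, sph_lin_mulVec, inv_mul_cancel₀ (sph_dot_ne hv), one_smul, e]
  rw [Matrix.rank, e, finrank_span_singleton hv]

theorem sph_lin_fix {J : Type} [Fintype J] {v w : J → ℂ} (hv : v ≠ 0) :
    lin v *ᵥ w = w ↔ ∃ t : ℂ, w = t • v := by
  refine ⟨fun e => ⟨_, e.symm.trans (sph_lin_mulVec v w)⟩, fun ⟨t, e⟩ => ?_⟩
  rw [e, mulVec_smul, sph_lin_mulVec, inv_mul_cancel₀ (sph_dot_ne hv), one_smul]

theorem sph_lin_smul {J : Type} [Fintype J] (v : J → ℂ) {t : ℂ} (ht : t ≠ 0) :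
    lin (t • v) = lin v := by
  have h1 : star t ≠ 0 := star_ne_zero.2 ht
  rw [lin, lin, star_smul, smul_dotProduct, dotProduct_smul, smul_vecMulVec, vecMulVec_smul,
    smul_smul, smul_smul, smul_eq_mul, smul_eq_mul]
  congr 1
  rw [mul_inv, mul_inv]
  field_simp

theorem sph_lin_cont {J : Type} [Fintype J] {f : X → J → ℂ} {U : Set X} (hf : ContinuousOn f U)
    (h0 : ∀ x ∈ U, f x ≠ 0) : ContinuousOn (fun x => lin (f x)) U := by
  have c : ∀ i, ContinuousOn (fun x => f x i) U := continuousOn_pi.1 hf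
  refine continuousOn_pi.2 fun i => continuousOn_pi.2 fun j => ?_
  show ContinuousOn (fun x => (∑ k, star (f x k) * f x k)⁻¹ * (f x i * star (f x j))) U
  exact ((continuousOn_finsetSum _ fun k _ => (c k).star.mul (c k)).inv₀
    fun x hx => sph_dot_ne (h0 x hx)).mul ((c i).mul (c j).star)

namespace Fr

variable {A : RN N →L[ℝ] RN N} {ω : RN N [⋀^Fin 3]→L[ℝ] ℝ} {a b c : RN N} {p : ℂ × ℝ}

theorem sph_form (ω : RN N [⋀^Fin 3]→L[ℝ] ℝ) (a b c : RN N) (x₁ x₂ x₃ y₁ y₂ y₃ z₁ z₂ z₃ : ℝ) :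
    ω ![x₁ • a + x₂ • b + x₃ • c, y₁ • a + y₂ • b + y₃ • c, z₁ • a + z₂ • b + z₃ • c] =
      ω ![a, b, c] * (x₁ * (y₂ * z₃ - y₃ * z₂) + x₂ * (y₃ * z₁ - y₁ * z₃) +
        x₃ * (y₁ * z₂ - y₂ * z₁)) := by
  have e := congrArg (fun f : (Fin 3 → ℝ) [⋀^Fin 3]→ₗ[ℝ] ℝ =>
      f ![![x₁, x₂, x₃], ![y₁, y₂, y₃], ![z₁, z₂, z₃]])
    (AlternatingMap.eq_smul_basis_det (Pi.basisFun ℝ (Fin 3))
      (ω.toAlternatingMap.compLinearMap (Fintype.linearCombination ℝ ![a, b, c])))
  simp only [AlternatingMap.smul_apply, AlternatingMap.compLinearMap_apply, Pi.basisFun_det_apply,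
    det_fin_three, smul_eq_mul] at e
  have e1 : (fun i => Fintype.linearCombination ℝ ![a, b, c]
      (![![x₁, x₂, x₃], ![y₁, y₂, y₃], ![z₁, z₂, z₃]] i)) =
      ![x₁ • a + x₂ • b + x₃ • c, y₁ • a + y₂ • b + y₃ • c, z₁ • a + z₂ • b + z₃ • c] := by
    funext i
    fin_cases i <;> simp [Fintype.linearCombination_apply, Fin.sum_univ_three]
  have e2 : (fun i => Fintype.linearCombination ℝ ![a, b, c] (Pi.basisFun ℝ (Fin 3) i)) =
      ![a, b, c] := by
    funext i
    simp [Fintype.linearCombination_apply_single]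
  rw [e1, e2] at e
  refine e.trans (congrArg (ω ![a, b, c] * ·) ?_)
  simp
  ring

theorem sph_in (h : Orthonormal ℝ ![a, b, c]) :
    (inner ℝ a a = 1 ∧ inner ℝ b b = 1 ∧ inner ℝ c c = 1) ∧
      (inner ℝ a b = 0 ∧ inner ℝ a c = 0 ∧ inner ℝ b c = 0) ∧
      inner ℝ b a = 0 ∧ inner ℝ c a = 0 ∧ inner ℝ c b = 0 := by
  have k := orthonormal_iff_ite.1 h
  exact ⟨⟨k 0 0, k 1 1, k 2 2⟩, ⟨k 0 1, k 0 2, k 1 2⟩, k 1 0, k 2 0, k 2 1⟩

theorem sph_on (h1 : inner ℝ a a = 1) (h2 : inner ℝ b b = 1) (h3 : inner ℝ c c = 1)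
    (h4 : inner ℝ a b = 0) (h5 : inner ℝ a c = 0) (h6 : inner ℝ b c = 0) :
    Orthonormal ℝ ![a, b, c] := by
  refine orthonormal_iff_ite.2 fun i j => ?_
  fin_cases i <;> fin_cases j
  exacts [h1, h4, h5, (real_inner_comm _ _).trans h4, h2, h6, (real_inner_comm _ _).trans h5,
    (real_inner_comm _ _).trans h6, h3]

theorem sph_inner (a b : RN N) : inner ℝ a b = ∑ k, a k * b k := by
  simp [PiLp.inner_apply, mul_comm]

theorem sph_bil0 {R : Type} [CommRing R] {a b c : Fin N → R} (h1 : ∑ k, a k * a k = 1)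
    (h2 : ∑ k, b k * b k = 1) (h3 : ∑ k, c k * c k = 1) (h4 : ∑ k, a k * b k = 0)
    (h5 : ∑ k, a k * c k = 0) (h6 : ∑ k, b k * c k = 0) (x y z x' y' z' : R) :
    ∑ k, (x * a k + y * b k + z * c k) * (x' * a k + y' * b k + z' * c k) =
      x * x' + y * y' + z * z' := by
  have e : ∀ k, (x * a k + y * b k + z * c k) * (x' * a k + y' * b k + z' * c k) =
      x * x' * (a k * a k) + y * y' * (b k * b k) + z * z' * (c k * c k) +
        (x * y' + y * x') * (a k * b k) + (x * z' + z * x') * (a k * c k) +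
        (y * z' + z * y') * (b k * c k) := fun k => by ring
  simp only [e, Finset.sum_add_distrib, ← Finset.mul_sum, h1, h2, h3, h4, h5, h6]
  ring

theorem sph_bil (h : Fr A ω a b c) (x y z x' y' z' : ℝ) :
    ∑ k, (x * a k + y * b k + z * c k) * (x' * a k + y' * b k + z' * c k) =
      x * x' + y * y' + z * z' := by
  obtain ⟨⟨h1, h2, h3⟩, ⟨h4, h5, h6⟩, -⟩ := sph_in h.on
  rw [sph_inner] at h1 h2 h3 h4 h5 h6
  exact sph_bil0 h1 h2 h3 h4 h5 h6 _ _ _ _ _ _

theorem sph_bilc (h : Fr A ω a b c) (x y z x' y' z' : ℂ) :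
    ∑ k, (x * a k + y * b k + z * c k) * (x' * a k + y' * b k + z' * c k) =
      x * x' + y * y' + z * z' := by
  obtain ⟨⟨h1, h2, h3⟩, ⟨h4, h5, h6⟩, -⟩ := sph_in h.on
  rw [sph_inner] at h1 h2 h3 h4 h5 h6
  exact sph_bil0 (a := fun k => (a k : ℂ)) (b := fun k => (b k : ℂ)) (c := fun k => (c k : ℂ))
    (by exact_mod_cast h1) (by exact_mod_cast h2) (by exact_mod_cast h3) (by exact_mod_cast h4)
    (by exact_mod_cast h5) (by exact_mod_cast h6) _ _ _ _ _ _

theorem flip (h : Fr A ω a b c) : Fr A ω (-a) b (-c) := by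
  obtain ⟨⟨h1, h2, h3⟩, ⟨h4, h5, h6⟩, -⟩ := sph_in h.on
  refine ⟨sph_on (by simpa using h1) h2 (by simpa using h3) (by simpa using h4) (by simpa using h5)
    (by simpa using h6), fun x => by simpa using h.eq x, ?_⟩
  have e := sph_form ω a b c (-1) 0 0 0 1 0 0 0 (-1)
  simp only [neg_smul, one_smul, zero_smul, add_zero, zero_add] at e
  rw [e]
  simpa using h.pos

theorem sph_frv (h : Fr A ω a b c) (p : ℂ × ℝ) : inner ℝ a (frv a b c p) = p.2 ∧
    inner ℝ b (frv a b c p) = p.1.re ∧ inner ℝ c (frv a b c p) = p.1.im := by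
  obtain ⟨⟨h1, h2, h3⟩, ⟨h4, h5, h6⟩, h7, h8, h9⟩ := sph_in h.on
  simp only [frv, inner_add_right, real_inner_smul_right, h1, h2, h3, h4, h5, h6, h7, h8, h9,
    mul_one, mul_zero, add_zero, zero_add, and_self]

theorem frv_fix (h : Fr A ω a b c) (p : ℂ × ℝ) : A (frv a b c p) = frv a b c p := by
  obtain ⟨h1, h2, h3⟩ := h.sph_frv p
  rw [h.eq, h1, h2, h3, frv]

theorem norm_frv (h : Fr A ω a b c) (p : ℂ × ℝ) : ‖frv a b c p‖ ^ 2 = ‖p.1‖ ^ 2 + p.2 ^ 2 := by
  rw [← real_inner_self_eq_norm_sq, sph_inner, Complex.sq_norm, Complex.normSq_apply]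
  refine (h.sph_bil p.2 p.1.re p.1.im p.2 p.1.re p.1.im).trans ?_
  ring

theorem frc_frv (h : Fr A ω a b c) (p : ℂ × ℝ) : frc a b c (frv a b c p) = p := by
  obtain ⟨h1, h2, h3⟩ := h.sph_frv p
  rw [frc, h1, h2, h3]

theorem frv_frc (h : Fr A ω a b c) {x : RN N} (hx : A x = x) : frv a b c (frc a b c x) = x := by
  exact (h.eq x).symm.trans hx

theorem sph_single (h : Fr A ω a b c) (j : Fin N) :
    A (EuclideanSpace.single j 1) = a j • a + b j • b + c j • c := by
  simp [h.eq, EuclideanSpace.inner_single_right]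

theorem sph_mat (h : Fr A ω a b c) (i j : Fin N) :
    mat A i j = a i * a j + b i * b j + c i * c j := by
  simp [mat, h.sph_single, mul_comm]

theorem sph_crs (h : Fr A ω a b c) (p : ℂ × ℝ) (i j : Fin N) :
    crs A ω (frv a b c p) i j = ω ![a, b, c] * (p.2 * (b j * c i - c j * b i) +
      p.1.re * (c j * a i - a j * c i) + p.1.im * (a j * b i - b j * a i)) := by
  rw [crs, h.sph_single, h.sph_single, frv, sph_form]

theorem sph_S2 (hp : p ∈ S2) : p.2 ^ 2 + p.1.re ^ 2 + p.1.im ^ 2 = 1 := by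
  have e : ‖p.1‖ ^ 2 + p.2 ^ 2 = 1 := hp
  rw [Complex.sq_norm, Complex.normSq_apply] at e
  linarith

theorem sph_sqrt (h : Fr A ω a b c) (hp : p ∈ S2) :
    √((∑ k, ∑ l, crs A ω (frv a b c p) k l ^ 2) / 2) = ω ![a, b, c] := by
  have e0 := sph_S2 hp
  generalize hl : ω ![a, b, c] = t
  have e1 : ∀ k, ∑ l, crs A ω (frv a b c p) k l ^ 2 = t ^ 2 *
      ((0 * a k + p.1.im * b k + -p.1.re * c k) * (0 * a k + p.1.im * b k + -p.1.re * c k) +
      (-p.1.im * a k + 0 * b k + p.2 * c k) * (-p.1.im * a k + 0 * b k + p.2 * c k) +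
      (p.1.re * a k + -p.2 * b k + 0 * c k) * (p.1.re * a k + -p.2 * b k + 0 * c k)) := fun k => by
    rw [← h.sph_bil, Finset.mul_sum]
    refine Finset.sum_congr rfl fun l _ => ?_
    rw [h.sph_crs, hl]
    ring
  simp only [e1, ← Finset.mul_sum, Finset.sum_add_distrib, h.sph_bil]
  rw [← Real.sqrt_sq (hl ▸ h.pos.le : 0 ≤ t), Real.sq_sqrt (sq_nonneg t)]
  congr 1
  linear_combination t ^ 2 * e0

theorem ell0_apply (h : Fr A ω a b c) (hp : p ∈ S2) (i j : Fin N) :
    ell0 A ω (frv a b c p) i j =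
      (((a i * a j + b i * b j + c i * c j - frv a b c p i * frv a b c p j : ℝ) : ℂ) - Complex.I *
        ((p.2 * (b j * c i - c j * b i) + p.1.re * (c j * a i - a j * c i) +
          p.1.im * (a j * b i - b j * a i) : ℝ) : ℂ)) / 2 := by
  rw [ell0, h.sph_sqrt hp, h.sph_crs, h.sph_mat, mul_div_cancel_left₀ _ h.pos.ne']

theorem sph_a (a b c : RN N) : frv a b c (0, 1) = a := by simp [frv]

theorem sph_a' : ((0, 1) : ℂ × ℝ) ∈ S2 := by simp [S2]

theorem sph_dot (h : Fr A ω a b c) {v w : Fin N → ℂ} (x y z x' y' z' : ℂ)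
    (hv : ∀ k, star (v k) = x * a k + y * b k + z * c k)
    (hw : ∀ k, w k = x' * a k + y' * b k + z' * c k) : star v ⬝ᵥ w = x * x' + y * y' + z * z' := by
  rw [← h.sph_bilc]
  exact Finset.sum_congr rfl fun k _ => by rw [Pi.star_apply, hv, hw]

theorem sph_b0 (a b c : RN N) (k : Fin N) :
    (rcv b - Complex.I • rcv c) k = 0 * a k + 1 * b k + -Complex.I * c k := by
  simp [rcv, sub_eq_add_neg]

theorem sph_b1 (a b c : RN N) (k : Fin N) :
    star ((rcv b - Complex.I • rcv c) k) = 0 * a k + 1 * b k + Complex.I * c k := by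
  simp [rcv]

theorem sph_a0 (a b c : RN N) (k : Fin N) : rcv a k = 1 * a k + 0 * b k + 0 * c k := by
  simp [rcv]

theorem sph_a1 (a b c : RN N) (k : Fin N) : star (rcv a k) = 1 * a k + 0 * b k + 0 * c k := by
  simp [rcv]

theorem sph_mulVec (h : Fr A ω a b c) (hp : p ∈ S2) {w : Fin N → ℂ} (x y z : ℂ)
    (hw : ∀ k, w k = x * a k + y * b k + z * c k) (i : Fin N) :
    (ell0 A ω (frv a b c p) *ᵥ w) i =
      (a i - (p.2 * a i + p.1.re * b i + p.1.im * c i) * p.2 -
        Complex.I * (p.1.im * b i - p.1.re * c i)) / 2 * x +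
      (b i - (p.2 * a i + p.1.re * b i + p.1.im * c i) * p.1.re -
        Complex.I * (p.2 * c i - p.1.im * a i)) / 2 * y +
      (c i - (p.2 * a i + p.1.re * b i + p.1.im * c i) * p.1.im -
        Complex.I * (p.1.re * a i - p.2 * b i)) / 2 * z := by
  rw [← h.sph_bilc, mulVec, dotProduct]
  refine Finset.sum_congr rfl fun k _ => ?_
  rw [h.ell0_apply hp, hw]
  congr 1
  simp only [frv, PiLp.add_apply, PiLp.smul_apply, smul_eq_mul]
  push_cast
  ring

theorem ell0_eq (h : Fr A ω a b c) :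
    rcv b - Complex.I • rcv c ≠ 0 ∧ ell0 A ω a = lin (rcv b - Complex.I • rcv c) := by
  have e : star (rcv b - Complex.I • rcv c) ⬝ᵥ (rcv b - Complex.I • rcv c) = 2 := by
    rw [h.sph_dot _ _ _ _ _ _ (sph_b1 a b c) (sph_b0 a b c)]
    linear_combination -Complex.I_sq
  refine ⟨fun k => by simp [k] at e, ?_⟩
  ext i j
  have e1 := h.ell0_apply sph_a' i j
  rw [sph_a] at e1
  rw [e1, lin, e, Matrix.smul_apply, vecMulVec_apply, Pi.star_apply, sph_b1 a, sph_b0 a,
    smul_eq_mul]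
  simp only [Complex.zero_re, Complex.zero_im]
  push_cast
  linear_combination (c i * c j / 2 : ℂ) * Complex.I_sq

theorem ell0_rel (h : Fr A ω a b c) (hp : p ∈ S2) :
    ((1 + p.2 : ℝ) : ℂ) • (ell0 A ω (frv a b c p) *ᵥ rcv a) =
      -p.1 • (ell0 A ω (frv a b c p) *ᵥ (rcv b - Complex.I • rcv c)) := by
  have e0 : (p.2 : ℂ) ^ 2 + p.1.re ^ 2 + p.1.im ^ 2 = 1 := by exact_mod_cast sph_S2 hp
  ext i
  rw [Pi.smul_apply, Pi.smul_apply, h.sph_mulVec hp _ _ _ (sph_a0 a b c),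
    h.sph_mulVec hp _ _ _ (sph_b0 a b c), smul_eq_mul, smul_eq_mul]
  have e1 := Complex.re_add_im p.1
  generalize (p.1.re : ℂ) = β at *
  generalize (p.1.im : ℂ) = γ at *
  rw [← e1]
  push_cast
  linear_combination (-(a i + (p.2 * a i + β * b i + γ * c i)) / 2 : ℂ) * e0 +
    (((β + γ * Complex.I) * (β * a i - p.2 * b i) + γ * (-p.2 * c i + γ * a i - c i +
      (p.2 * a i + β * b i + γ * c i) * γ)) / 2 : ℂ) * Complex.I_sq

theorem ell0_ne (h : Fr A ω a b c) (hp : p ∈ S2) (h1 : p.2 ≠ -1) :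
    ell0 A ω (frv a b c p) *ᵥ (rcv b - Complex.I • rcv c) ≠ 0 := by
  intro k
  have e0 : (p.2 : ℂ) ^ 2 + p.1.re ^ 2 + p.1.im ^ 2 = 1 := by exact_mod_cast sph_S2 hp
  have e := h.sph_dot (w := ell0 A ω (frv a b c p) *ᵥ (rcv b - Complex.I • rcv c)) _ _ _
    ((-p.2 * p.1.re + Complex.I * p.1.im + Complex.I * p.2 * p.1.im + Complex.I ^ 2 * p.1.re) / 2)
    ((1 - p.1.re ^ 2 + Complex.I * p.1.re * p.1.im - Complex.I ^ 2 * p.2) / 2)
    ((-p.1.re * p.1.im - Complex.I * p.2 - Complex.I + Complex.I * p.1.im ^ 2) / 2)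
    (sph_b1 a b c) fun i => by
      rw [h.sph_mulVec hp _ _ _ (sph_b0 a b c)]
      ring
  rw [k, dotProduct_zero] at e
  have e2 : ((p.2 : ℂ) + 1) ^ 2 = 0 := by
    linear_combination -2 * e + e0 + (2 * p.2 + 1 - p.1.im ^ 2 : ℂ) * Complex.I_sq
  have e3 : (p.2 : ℂ) = -1 := eq_neg_of_add_eq_zero_left (pow_eq_zero_iff two_ne_zero |>.1 e2)
  exact h1 (by exact_mod_cast e3)

/-- the complexification splits -/
theorem mat_eq (h : Fr A ω a b c) : rcv a ≠ 0 ∧ (mat A).map ((↑) : ℝ → ℂ) =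
    lin (rcv a) + ell0 A ω a + (ell0 A ω a).map star ∧ lin (rcv a) * ell0 A ω a = 0 ∧
    ell0 A ω a * lin (rcv a) = 0 ∧ lin (rcv a) * (ell0 A ω a).map star = 0 ∧
    (ell0 A ω a).map star * lin (rcv a) = 0 ∧ ell0 A ω a * (ell0 A ω a).map star = 0 ∧
    (ell0 A ω a).map star * ell0 A ω a = 0 := by
  have e1 : star (rcv a) ⬝ᵥ rcv a = 1 := by
    rw [h.sph_dot _ _ _ _ _ _ (sph_a1 a b c) (sph_a0 a b c)]
    ring
  have s0 : ∀ k, star (star (rcv b - Complex.I • rcv c) k) =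
      0 * a k + 1 * b k + -Complex.I * c k := fun k => (star_star _).trans (sph_b0 a b c k)
  refine ⟨fun k => by simp [k] at e1, ?_, ?_⟩
  · ext i j
    have e2 := h.ell0_apply sph_a' i j
    rw [sph_a] at e2
    simp only [map_apply, Matrix.add_apply, e2, h.sph_mat, lin, e1, Matrix.smul_apply,
      vecMulVec_apply, Pi.star_apply, rcv]
    simp
    ring
  rw [h.ell0_eq.2, sph_lin_star]
  refine ⟨sph_lin_orth ?_, sph_lin_orth ?_, sph_lin_orth ?_, sph_lin_orth ?_, sph_lin_orth ?_,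
    sph_lin_orth ?_⟩
  · rw [h.sph_dot _ _ _ _ _ _ (sph_a1 a b c) (sph_b0 a b c)]
    ring
  · rw [h.sph_dot _ _ _ _ _ _ (sph_b1 a b c) (sph_a0 a b c)]
    ring
  · rw [h.sph_dot (w := star _) _ _ _ _ _ _ (sph_a1 a b c) (sph_b1 a b c)]
    ring
  · rw [h.sph_dot _ _ _ _ _ _ s0 (sph_a0 a b c)]
    ring
  · rw [h.sph_dot (w := star _) _ _ _ _ _ _ (sph_b1 a b c) (sph_b1 a b c)]
    linear_combination Complex.I_sq
  · rw [h.sph_dot _ _ _ _ _ _ s0 (sph_b0 a b c)]
    linear_combination Complex.I_sq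

end Fr

theorem ell0_neg (A : RN N →L[ℝ] RN N) (ω : RN N [⋀^Fin 3]→L[ℝ] ℝ) (ξ : RN N) :
    ell0 A ω (-ξ) = (ell0 A ω ξ).map star := by
  have e : ∀ i j, crs A ω (-ξ) i j = -crs A ω ξ i j := fun i j => by
    rw [crs, crs, ← neg_one_smul ℝ ξ, ContinuousAlternatingMap.vecCons_smul, neg_one_smul]
  ext i j
  simp only [ell0, e, map_apply, neg_sq, PiLp.neg_apply, neg_mul_neg, neg_div]
  simp

variable {V : X → RN N →L[ℝ] RN N} {o : X → RN N [⋀^Fin 3]→L[ℝ] ℝ} {U : Set X}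

theorem anti_mem {y : X × RN N} (hy : y ∈ sph V U) : anti y ∈ sph V U :=
  ⟨hy.1, by simp [anti, hy.2.1], by simp [anti, hy.2.2]⟩

theorem anti_anti (y : X × RN N) : anti (anti y) = y := by simp [anti]

theorem continuous_anti : Continuous (anti : X × RN N → _) := by unfold anti; fun_prop

theorem SB.exists_fr (h : SB V o U) {y : X × RN N} (hy : y ∈ sph V U) :
    ∃ b c, Fr (V y.1) (o y.1) y.2 b c := by
  let F := LinearMap.range (V y.1 : RN N →ₗ[ℝ] RN N)
  obtain ⟨e, he⟩ := Orthonormal.exists_orthonormalBasis_extension_of_card_eq (𝕜 := ℝ) (E := F)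
    (ι := Fin 3) (h.rb.rank _ hy.1) (v := fun _ => ⟨y.2, y.2, hy.2.1⟩) (s := {0})
    ⟨fun _ => hy.2.2, Subsingleton.pairwise⟩
  have e0 : (e 0 : RN N) = y.2 := congrArg Subtype.val (he 0 rfl)
  have fx : ∀ i, V y.1 (e i) = e i := fun i => (h.rb.mem_range hy.1).1 (e i).2
  have ee : (fun i => (e i : RN N)) = ![y.2, e 1, e 2] := by
    funext i
    fin_cases i
    exacts [e0, rfl, rfl]
  have on : Orthonormal ℝ ![y.2, e 1, e 2] := ee ▸ e.orthonormal.comp_linearIsometry F.subtypeₗᵢ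
  have eq : ∀ x, V y.1 x = inner ℝ y.2 x • y.2 + inner ℝ (e 1 : RN N) x • (e 1 : RN N) +
      inner ℝ (e 2 : RN N) x • (e 2 : RN N) := fun x => by
    have k := congrArg Subtype.val (e.sum_repr' ⟨V y.1 x, x, rfl⟩)
    simp only [Fin.sum_univ_three, Submodule.coe_add, Submodule.coe_smul, Submodule.coe_inner,
      ← h.sym _ hy.1, fx, e0] at k
    exact k.symm
  have ne : o y.1 ![y.2, e 1, e 2] ≠ 0 :=
    h.ori.ne _ hy.1 _ on.linearIndependent fun i => by rw [← ee]; exact fx i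
  rcases lt_or_gt_of_ne ne with k | k
  · obtain ⟨⟨h1, h2, h3⟩, ⟨h4, h5, h6⟩, -⟩ := Fr.sph_in on
    refine ⟨e 1, -e 2, Fr.sph_on h1 h2 (by simpa using h3) h4 (by simpa using h5)
      (by simpa using h6), fun x => by simpa using eq x, ?_⟩
    have m := Fr.sph_form (o y.1) y.2 (e 1) (e 2) 1 0 0 0 1 0 0 0 (-1)
    simp only [neg_smul, one_smul, zero_smul, add_zero, zero_add] at m
    rw [m]
    simpa using k
  · exact ⟨e 1, e 2, on, eq, k⟩

theorem SB.exists_fr' (h : SB V o U) {x : X} (hx : x ∈ U) : ∃ a b c, Fr (V x) (o x) a b c := by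
  have : Nontrivial (LinearMap.range (V x : RN N →ₗ[ℝ] RN N)) :=
    Module.nontrivial_of_finrank_pos (R := ℝ) (by rw [h.rb.rank x hx]; norm_num)
  obtain ⟨a, ha⟩ := exists_norm_eq (LinearMap.range (V x : RN N →ₗ[ℝ] RN N)) zero_le_one
  exact ⟨a, h.exists_fr (y := (x, a)) ⟨hx, (h.rb.mem_range hx).1 a.2, ha⟩⟩

theorem sph_closed (h : SB V o U) :
    ∃ u, IsClosed u ∧ sph V U = u ∩ U ×ˢ Metric.sphere 0 1 := by
  have c : ContinuousOn (fun y : X × RN N => V y.1 y.2 - y.2) (U ×ˢ Metric.sphere 0 1) :=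
    ((h.rb.cont.comp continuousOn_fst fun _ k => k.1).clm_apply continuousOn_snd).sub
      continuousOn_snd
  obtain ⟨u, hu, e⟩ := continuousOn_iff_isClosed.1 c {0} isClosed_singleton
  refine ⟨u, hu, Eq.trans (Set.ext fun y => ?_) e⟩
  simp only [sph, mem_ofPred_eq, mem_inter_iff, mem_preimage, mem_singleton_iff, sub_eq_zero,
    mem_prod, mem_sphere_zero_iff_norm]
  tauto

theorem SB.lc (h : SB V o U) : IsLocallyClosed (sph V U) := by
  obtain ⟨u, hu, e⟩ := sph_closed h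
  rw [e, prod_eq]
  exact hu.isLocallyClosed.inter ((h.rb.lc.preimage continuous_fst).inter
    (Metric.isClosed_sphere.preimage continuous_snd).isLocallyClosed)

theorem SB.isCompact (h : SB V o U) (hU : IsCompact U) : IsCompact (sph V U) := by
  obtain ⟨u, hu, e⟩ := sph_closed h
  rw [e]
  exact (hU.prod (isCompact_sphere 0 1)).inter_left hu

theorem SB.cb_ell (h : SB V o U) : CB (ell V o) 1 (sph V U) := by
  refine ⟨h.lc, continuousOn_pi.2 fun i => continuousOn_pi.2 fun j => ?_, fun y hy => ?_,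
    fun y hy => ?_⟩
  · have c1 : ∀ k, ContinuousOn (fun y : X × RN N => V y.1 (EuclideanSpace.single k 1))
        (sph V U) := fun k =>
      (h.rb.cont.comp continuousOn_fst fun _ k => k.1).clm_apply continuousOn_const
    have c2 : ∀ k l, ContinuousOn (fun y : X × RN N => crs (V y.1) (o y.1) y.2 k l) (sph V U) :=
      fun k l => (h.ori.cont.comp continuousOn_fst fun _ k => k.1).eval
        (continuousOn_snd.matrixVecCons ((c1 l).matrixVecCons
          ((c1 k).matrixVecCons continuousOn_const)))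
    have c3 : ContinuousOn (fun y : X × RN N => mat (V y.1) i j) (sph V U) :=
      (EuclideanSpace.proj (𝕜 := ℝ) i).continuous.comp_continuousOn (c1 j)
    have c4 : ContinuousOn (fun y : X × RN N => y.2 i * y.2 j) (sph V U) := by fun_prop
    refine ((Complex.continuous_ofReal.comp_continuousOn (c3.sub c4)).sub (continuousOn_const.mul
      (Complex.continuous_ofReal.comp_continuousOn ((c2 i j).div
        ((continuousOn_finsetSum _ fun k _ => continuousOn_finsetSum _ fun l _ =>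
          (c2 k l).pow 2).div_const 2).sqrt fun y hy => ?_)))).div_const 2
    obtain ⟨b, c, k⟩ := h.exists_fr hy
    have m := k.sph_sqrt Fr.sph_a'
    rw [Fr.sph_a] at m
    exact m.trans_ne k.pos.ne'
  · obtain ⟨b, c, k⟩ := h.exists_fr hy
    rw [ell, k.ell0_eq.2, sph_lin_idem k.ell0_eq.1]
  · obtain ⟨b, c, k⟩ := h.exists_fr hy
    rw [ell, k.ell0_eq.2, sph_lin_rank k.ell0_eq.1]

theorem SB.comp (h : SB V o U) {f : Y → X} {U' : Set Y} (lc : IsLocallyClosed U')
    (hf : ContinuousOn f U') (hm : MapsTo f U' U) {V' : Y → RN N →L[ℝ] RN N}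
    (e : ∀ y ∈ U', V' y = V (f y)) : SB V' (o ∘ f) U' := by
  refine ⟨⟨lc, (h.rb.cont.comp hf hm).congr e, fun y hy => ?_, fun y hy => ?_⟩, fun y hy => ?_,
    h.ori.cont.comp hf hm, fun y hy => ?_⟩
  all_goals rw [e y hy]
  exacts [h.rb.idem _ (hm hy), h.rb.rank _ (hm hy), h.sym _ (hm hy), h.ori.ne _ (hm hy)]

end Pool.Agent.Work.MP_8c604c_gt.T
end
end
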