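import Pool.Agent.Work.MP_8c604c_gt.OT.Cut
import Pool.Agent.Work.MP_8c604c_gt.OG.ZG

-- merged part: Pool.Agent.Work.MP_8c604c_gt.T.ThMa
section
/-!
The cohomology ring of `HP^n x HP^n`.
Hints. MM_basis: basis_prod with uH_basis twice, pull_pow. uu and vv commute (IsDeg.evn, Evn.commH). A homogeneous class is a combination of the monomials of its degree
(apply prj to the expansion). ann_hh: for a = sum a(i,j) u^i v^j with i + j = n, the coefficient of u^(i+1) v^(n-i) in (u - v) a is a(i,n-i) - a(i+1,n-i-1) for i < n.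
sub_mul_hh: Commute.mul_geom_sum2 or telescoping, u^(n+1) - v^(n+1) = 0.
-/

noncomputable section

set_option linter.unusedSectionVars false
set_option linter.unusedVariables false

namespace Pool.Agent.Work.MP_8c604c_gt.T

open Set Topology Matrix Pool.Agent.Work.MP_849ab0_ag.G
open scoped Quaternion

variable {n : ℕ}

/-- the class `u` of the first factor -/
def uu (n : ℕ) : H (MM n) univ := pull Prod.fst (MM n) univ (uH n)

/-- the class `u` of the second factor -/
def vv (n : ℕ) : H (MM n) univ := pull Prod.snd (MM n) univ (uH n)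

/-- the complete symmetric polynomial of degree `n` in `uu`, `vv` -/
def hh (n : ℕ) : H (MM n) univ := ∑ i ∈ Finset.range (n + 1), uu n ^ i * vv n ^ (n - i)

theorem isCompact_MM : IsCompact (MM n) := isCompact_MM'

theorem isClosed_Dg : IsClosed (Dg n) := isClosed_Dg'

theorem lc_Od : IsLocallyClosed (Od n) := lc_Od'

theorem lc_MM : IsLocallyClosed (MM n) := isCompact_MM.isClosed.isLocallyClosed

theorem ok_MM1 : Ok Prod.fst (MM n) univ (MH n) univ := ok_fst' _ _

theorem ok_MM2 : Ok Prod.snd (MM n) univ (MH n) univ := ok_snd' _ _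

theorem isDeg_uu : IsDeg 4 (uu n) := isDeg_uH.pull _ _ _

theorem isDeg_vv : IsDeg 4 (vv n) := isDeg_uH.pull _ _ _

theorem uu_pow : uu n ^ (n + 1) = 0 := by rw [uu, ← pull_pow ok_MM1, uH_pow, map_zero]

theorem vv_pow : vv n ^ (n + 1) = 0 := by rw [vv, ← pull_pow ok_MM2, uH_pow, map_zero]

theorem ThMa_deg (i j : ℕ) : IsDeg (4 * (i + j)) (uu n ^ i * vv n ^ j) := by
  rw [mul_add, mul_comm (4 : ℤ), mul_comm (4 : ℤ)]
  exact IsDeg.mulH (IsDeg.powH isDeg_uu i) (IsDeg.powH isDeg_vv j)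

theorem ThMa_comm : Commute (uu n) (vv n) := (IsDeg.evn isDeg_vv ⟨2, rfl⟩).commH _

theorem isDeg_hh : IsDeg (4 * n) (hh n) := by
  refine IsDeg.sum _ fun i hi => ?_
  have h := ThMa_deg (n := n) i (n - i)
  rwa [Nat.cast_sub (Nat.lt_succ_iff.1 (Finset.mem_range.1 hi)), add_sub_cancel] at h

theorem MM_basis : Function.Bijective fun a : Fin (n + 1) × Fin (n + 1) → ℂ =>
    ∑ i, a i • (uu n ^ (i.1 : ℕ) * vv n ^ (i.2 : ℕ)) := by
  have h := basis_prod (c := fun i : Fin (n + 1) => uH n ^ (i : ℕ))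
    (b := fun i : Fin (n + 1) => uH n ^ (i : ℕ)) isCompact_MH (fun i => IsDeg.powH isDeg_uH i)
    uH_basis uH_basis
  simp only [pull_pow (ok_fst' (MH n) (MH n)), pull_pow (ok_snd' (MH n) (MH n))] at h
  exact h

theorem ThMa_li : LinearIndependent ℂ fun i : Fin (n + 1) × Fin (n + 1) =>
    uu n ^ (i.1 : ℕ) * vv n ^ (i.2 : ℕ) :=
  Fintype.linearIndependent_iff.2 fun a h => congrFun (MM_basis.1 (a₂ := 0) (by simpa using h))

theorem ThMa_exp {p : ℤ} {a : H (MM n) univ} (ha : IsDeg p a) :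
    ∃ c : Fin (n + 1) × Fin (n + 1) → ℂ, (∀ i, 4 * (((i.1 : ℕ) : ℤ) + (i.2 : ℕ)) ≠ p → c i = 0) ∧
      a = ∑ i, c i • (uu n ^ (i.1 : ℕ) * vv n ^ (i.2 : ℕ)) := by
  obtain ⟨c, rfl⟩ := MM_basis.2 a
  refine ⟨fun i => if 4 * (((i.1 : ℕ) : ℤ) + (i.2 : ℕ)) = p then c i else 0, fun i h => if_neg h, ?_⟩
  rw [← isDeg_iff.1 ha, map_sum]
  refine Finset.sum_congr rfl fun i _ => ?_
  rw [map_smul]
  beta_reduce
  split_ifs with h
  · rw [(ThMa_deg _ _).prj_eq h]
  · rw [(ThMa_deg _ _).prj_eq_zero h, smul_zero, zero_smul]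

theorem uv_pow_ne : uu n ^ n * vv n ^ n ≠ 0 := by
  exact ThMa_li.ne_zero (Fin.last n, Fin.last n)

theorem MM_deg_zero {p : ℤ} {a : H (MM n) univ} (ha : IsDeg p a) (hp : ¬ 4 ∣ p ∨ 8 * n < p) :
    a = 0 := by
  obtain ⟨c, h, rfl⟩ := ThMa_exp ha
  refine Finset.sum_eq_zero fun i _ => ?_
  have h1 := i.1.2
  have h2 := i.2.2
  rw [h i (by omega), zero_smul]

/-- the annihilator of `u - v` in degree `4 n` -/
theorem ann_hh {a : H (MM n) univ} (ha : IsDeg (4 * n) a) (e : (uu n - vv n) * a = 0) :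
    ∃ c : ℂ, a = c • hh n := by
  obtain ⟨c, h, rfl⟩ := ThMa_exp ha
  have e1 : ∑ i : Fin (n + 1) × Fin (n + 1), c i • (uu n ^ (i.1 : ℕ) * vv n ^ (i.2 : ℕ)) =
      ∑ i : Fin (n + 1), c (i, i.rev) • (uu n ^ (i : ℕ) * vv n ^ (n - i)) := by
    rw [Fintype.sum_prod_type]
    refine Finset.sum_congr rfl fun i _ => ?_
    rw [Finset.sum_eq_single i.rev (fun j _ k => ?_) (by simp), Fin.val_rev, Nat.add_sub_add_right]
    have h1 : (j : ℕ) ≠ n + 1 - (i + 1) := fun r => k (Fin.ext r)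
    have h2 := i.2
    rw [h (i, j) (by simp only; omega), zero_smul]
  rw [e1] at e ⊢
  have k1 : ∀ i j : ℕ, uu n * (uu n ^ i * vv n ^ j) = uu n ^ (i + 1) * vv n ^ j := fun i j => by
    rw [← mul_assoc, ← pow_succ']
  have k2 : ∀ i j : ℕ, vv n * (uu n ^ i * vv n ^ j) = uu n ^ i * vv n ^ (j + 1) := fun i j => by
    rw [← mul_assoc, ← (ThMa_comm.pow_left i).eq, mul_assoc, ← pow_succ']
  rw [sub_mul] at e
  simp only [Finset.mul_sum, mul_smul_comm, k1, k2] at e
  rw [Fin.sum_univ_castSucc, Fin.sum_univ_succ, Fin.val_last, uu_pow, Fin.val_zero, Nat.sub_zero,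
    vv_pow, zero_mul, mul_zero, smul_zero, smul_zero, add_zero, zero_add,
    ← Finset.sum_sub_distrib] at e
  have li := (ThMa_li (n := n)).comp (fun i : Fin n => (i.succ, i.castSucc.rev))
    fun i j r => Fin.succ_injective _ (congrArg Prod.fst r)
  have k3 := Fintype.linearIndependent_iff.1 li
    (fun i => c (i.castSucc, i.castSucc.rev) - c (i.succ, i.succ.rev)) (by
      rw [← e]
      refine Finset.sum_congr rfl fun i _ => ?_
      have h1 := i.2
      rw [sub_smul, Function.comp_apply, Fin.val_succ, Fin.val_rev, Fin.val_castSucc,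
        Nat.add_sub_add_right, show n - (i + 1) + 1 = n - i by omega])
  have k4 : ∀ i : Fin (n + 1), c (i, i.rev) = c (0, Fin.rev 0) := fun i => by
    induction i using Fin.induction with
    | zero => rfl
    | succ i ih => rw [← ih, sub_eq_zero.1 (k3 i)]
  refine ⟨c (0, Fin.rev 0), ?_⟩
  rw [hh, Finset.sum_range, Finset.smul_sum]
  exact Finset.sum_congr rfl fun i _ => by rw [k4]

theorem sub_mul_hh : (uu n - vv n) * hh n = 0 := by
  have h := (ThMa_comm (n := n)).mul_geom_sum₂ (n + 1)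
  rwa [uu_pow, vv_pow, sub_zero] at h

end Pool.Agent.Work.MP_8c604c_gt.T
end
end

-- merged part: Pool.Agent.Work.MP_8c604c_gt.T.ThMb
section
/-!
The class `hh` vanishes off the diagonal.
Plan. B = pb (fun y => cm y.1) (MM n), points (p, q, l) with l a complex line in the line of p. J = Fin (n+1) x Fin 2. The bundle R (p,q,l) = (l.map star) kron (1 - cm q) has rank 1 * 2n
(CB.kron, CB.conj, CB.sub) and the section s (a,b) = ((1 - cm q) * l) b a (the map l -> complement of q; l is Hermitian so l.map star is the transpose), which vanishes iff (1 - cm q) * l = 0, and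
then p = q (two quaternionic lines with a common nonzero vector, cm_mulVec, rm_pr_eq, pr_eq_iff). t = ec R (2n) s B D with D = {p = q}. E = fgt t = eu R = pi^* a + pi^* b x (lh_pb), deg b = 4n - 2 so b = 0 (MM_deg_zero).
pi^*(u - v) * E = fgt (cup (pi^*(u - v)) t) = 0 because cup B D c t only depends on the restriction of c to B inter D (cup_res_left, CupOK as in cupOK_fm) where u = v (pull_congr). So (u - v) a = 0 (pb_inj), a = c hh (ann_hh).
c != 0: restrict to q = q0 fixed, i.e. pull back along pb cm (MH n) -> B; there R is (l.map star) kron (constant of rank 2n), isomorphic to 2n copies, eu = (-x)^(2n) (eu_rep, eu_conj, eu_iso) = (x^2)^n = (-u)^n (QL.eu_eq), not zero (pb_inj, uH_pow_ne).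
On B minus D = pb .. (Od n) the section has no zero, so pi^* a = 0 there (eu_eq_zero, eu_res), and pb_inj over Od n gives the claim. For n = 0 the set Od 0 is empty, the same proof works.
-/

noncomputable section

set_option linter.unusedSectionVars false
set_option linter.unusedVariables false

namespace Pool.Agent.Work.MP_8c604c_gt.T

open Set Topology Matrix Pool.Agent.Work.MP_849ab0_ag.G
open scoped Quaternion

variable {n : ℕ}

/-- the bundle of maps from the complex line to the complement of the second point -/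
def ThMbR (z : (AM n × AM n) × Matrix (Fin (n + 1) × Fin 2) (Fin (n + 1) × Fin 2) ℂ) :=
  kroneckerMap (· * ·) (1 - cm z.1.2) (z.2.map star)

/-- the tautological section -/
def ThMbs (z : (AM n × AM n) × Matrix (Fin (n + 1) × Fin 2) (Fin (n + 1) × Fin 2) ℂ) :=
  vec ((1 - cm z.1.2) * z.2)ᵀ

theorem ThMb_cbP {U : Set (AM n × AM n)} (lc : IsLocallyClosed U) (h : U ⊆ MM n) :
    CB (fun y => cm y.1) 2 U := ql_MH.toCB.comp lc continuousOn_fst fun _ k => (h k).1

theorem ThMb_cbN : CB (fun q => 1 - cm q) (2 * n) (MH n) := by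
  have h := cb_one (J := Fin (n + 1) × Fin 2) (lc_MH (n := n))
  rw [show Fintype.card (Fin (n + 1) × Fin 2) = 2 + 2 * n by simp; ring] at h
  exact (h.sub ql_MH.toCB fun _ _ => one_mul _).congr fun _ _ => congrArg (1 - ·) (mul_one _).symm

theorem ThMb_cbR : CB ThMbR (2 * n) (pb (fun y => cm y.1) (MM n)) := by
  have h := ThMb_cbP (lc_MM (n := n)) subset_rfl
  have k := (ThMb_cbN.comp h.lc_pb continuous_fst.snd.continuousOn fun _ k => k.1.2).kron
    h.cb_pb.conj
  rwa [mul_one] at k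

theorem ThMb_pt {p : AM n} (hp : p ∈ MH n) {v : Fin (n + 1) × Fin 2 → ℂ} (hv : v ≠ 0)
    (e : cm p *ᵥ v = v) : p = pr (vc v) := by
  obtain ⟨z, hz, rfl⟩ := hp
  have h : rm (vc v) (pr z) = vc v := by rw [← vc_cv (rm _ _), ← cm_mulVec, cv_vc, e]
  obtain ⟨c, hc⟩ := (rm_pr_eq hz _).1 h
  rw [hc, pr_smul]
  rintro rfl
  exact hv (by rw [← cv_vc v, hc, zero_smul, cv_eq_zero])

theorem ThMb_sec : Sec ThMbR ThMbs (pb (fun y => cm y.1) (MM n)) {z | z.1.1 = z.1.2} := by
  refine ⟨Continuous.continuousOn (continuous_pi fun a => ?_), fun z hz => ?_, fun z hz e => ?_⟩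
  · exact ((continuous_const.sub (continuous_cm.comp continuous_fst.snd)).matrix_mul
      continuous_snd).matrix_elem a.1 a.2
  · have e : z.2.map star = z.2ᵀ := congrArg transpose hz.2.1.2.1
    rw [ThMbR, ThMbs, e]
    refine (kronecker_mulVec_vec _ _ _).trans ?_
    rw [← transpose_mul, ← transpose_mul, mul_assoc, hz.2.1.1, ← mul_assoc,
      ThMb_cbN.idem _ hz.1.2]
  · rw [ThMbs, vec_eq_zero_iff, transpose_eq_zero, sub_mul, one_mul, sub_eq_zero] at e
    obtain ⟨v, hv, l⟩ := CP.exists_lin hz.2.1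
    have k : z.2 *ᵥ v = v := by rw [l, lin_mulVec hv]
    refine (ThMb_pt hz.1.1 hv ?_).trans (ThMb_pt hz.1.2 hv ?_).symm
    · rw [← k, mulVec_mulVec, hz.2.2]
    · rw [← k, mulVec_mulVec, ← e]

/-- a class that vanishes on the support -/
theorem ThMb_mul {X : Type} [TopologicalSpace X] {U Z : Set X} {c : H U univ} (t : H U Z)
    (e : pull id (U ∩ Z) univ c = 0) : c * pull id U univ t = 0 := by
  rw [← fgt_cm, ← cup_res_left (.id inter_subset_left fun _ _ k => k)
    (cupOK_fm (B := U ∩ Z) subset_rfl fun _ h k => ⟨h, k⟩), e, map_zero, LinearMap.zero_apply,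
    map_zero]

theorem ThMb_ann : pull Prod.fst (pb (fun y => cm y.1) (MM n)) univ (uu n - vv n) *
    eu ThMbR (2 * n) (pb (fun y => cm y.1) (MM n)) = 0 := by
  rw [← fgt_ec ThMb_cbR ThMb_sec]
  refine ThMb_mul _ ?_
  have o := Ok.comp (ok_pb (fun y => cm y.1) (MM n))
    (.id (U₁ := _ ∩ {z | z.1.1 = z.1.2}) (Z₁ := univ) inter_subset_left fun _ _ k => k)
  rw [res_pull (ok_pb _ _) inter_subset_left fun _ _ k => k, map_sub, uu, vv, sub_eq_zero]
  exact (pull_pull' o ok_MM1 (fun _ k => k.2.out) _).trans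
    (pull_pull' o ok_MM2 (fun _ _ => rfl) _).symm

theorem ThMb_ex : ∃ a : H (MM n) univ, IsDeg (4 * n) a ∧
    pull Prod.fst (pb (fun y => cm y.1) (MM n)) univ a =
      eu ThMbR (2 * n) (pb (fun y => cm y.1) (MM n)) := by
  have h := ThMb_cbP (lc_MM (n := n)) subset_rfl
  obtain ⟨a, e⟩ := h.lh_pb.2 (eu ThMbR (2 * n) (pb (fun y => cm y.1) (MM n)))
  have d : IsDeg (4 * n) (eu ThMbR (2 * n) (pb (fun y => cm y.1) (MM n))) := by
    convert ThMb_cbR.isDeg_eu using 1
    push_cast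
    ring
  refine ⟨_, isDeg_prj _ (a 0), ?_⟩
  simp only [Fin.sum_univ_two, Fin.val_zero, Fin.val_one, pow_zero, pow_one, mul_one] at e
  rw [← isDeg_iff.1 d, ← e, map_add, mulH, ← cup_prj_left (s := {4 * (n : ℤ) - 2})
    (fun p => by simp only [mem_singleton_iff]; omega) _ h.cb_pb.isDeg_eu, ← pull_prj, ← pull_prj,
    MM_deg_zero (isDeg_prj _ (a 1)) (.inl (by omega)), map_zero, map_zero, LinearMap.zero_apply,
    add_zero]

/-- the product with a constant bundle -/
theorem ThMb_const {X J K : Type} [TopologicalSpace X] [RegularSpace X]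
    [SecondCountableTopology X] [Fintype J] [Fintype K] {U : Set X} {L : X → Matrix J J ℂ} {m : ℕ}
    (h : CB L 1 U) {T : Matrix K (Fin m) ℂ} {S : Matrix (Fin m) K ℂ} (e : S * T = 1)
    (h' : CB (fun x => kroneckerMap (· * ·) (T * S) (L x)) m U) :
    eu (fun x => kroneckerMap (· * ·) (T * S) (L x)) m U = eu L 1 U ^ m := by
  classical
  have k := eu_rep (K := Fin m) h
  have c := (cb_one (J := Fin m) h.lc).kron h
  rw [Fintype.card_fin, mul_one] at k c
  rw [← k]
  refine eu_iso c h' (A := fun _ => kroneckerMap (· * ·) T 1) ⟨continuousOn_id, mapsTo_id _,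
    continuousOn_const, fun x hx v hv => ?_, fun x hx v hv e' => ?_⟩
  · rw [← hv, mulVec_mulVec, mulVec_mulVec, mulVec_mulVec, ← mul_kronecker_mul,
      ← mul_kronecker_mul, ← mul_kronecker_mul, Matrix.mul_assoc T, e, Matrix.mul_one,
      Matrix.mul_one, Matrix.mul_one, Matrix.one_mul, id, h.idem x hx]
  · have := congrArg (kroneckerMap (· * ·) S (1 : Matrix J J ℂ) *ᵥ ·) e'
    simpa only [mulVec_mulVec, ← mul_kronecker_mul, e, mul_one, one_kronecker_one, one_mulVec,
      mulVec_zero] using this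

theorem ThMb_ne : eu ThMbR (2 * n) (pb (fun y => cm y.1) (MM n)) ≠ 0 := by
  intro e
  have q0 : pr (aff (0 : EA n)) ∈ MH n := ⟨_, aff_ne 0, rfl⟩
  have h := (ql_MH (n := n)).toCB
  generalize pr (aff (0 : EA n)) = q at q0
  have c : ContinuousOn (fun z => ((z.1, q), z.2)) (pb cm (MH n)) :=
    (continuousOn_fst.prodMk continuousOn_const).prodMk continuousOn_snd
  have m : MapsTo (fun z => ((z.1, q), z.2)) (pb cm (MH n)) (pb (fun y => cm y.1) (MM n)) :=
    fun z k => ⟨⟨k.1, q0⟩, k.2⟩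
  have e1 := eu_pull ThMb_cbR h.lc_pb c m
  have c1 := ThMb_cbR.comp h.lc_pb c m
  obtain ⟨W, T, S, -, w, -, -, k⟩ := ThMb_cbN.exists_frame q0
  obtain ⟨k1, k2⟩ := k _ ⟨q0, w⟩
  simp only [ThMbR, ← k2] at c1 e1
  rw [e, map_zero, ThMb_const h.cb_pb.conj k1 c1, eu_conj h.cb_pb, smul_pow, pow_one,
    (even_two_mul n).neg_one_pow, one_smul, pow_mul] at e1
  have l : QL (fun z => cm z.1) (pb cm (MH n)) :=
    ⟨h.comp h.lc_pb continuousOn_fst fun _ k => k.1, fun _ k => ql_MH.jq _ k.1⟩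
  have e2 : pull Prod.fst (pb cm (MH n)) univ (uH n) = _ :=
    (eu_pull h h.lc_pb continuousOn_fst fun _ k => k.1).trans (l.eu_eq h.cb_pb fun _ k => k.2.2)
  refine uH_pow_ne le_rfl (h.pb_inj two_pos ?_)
  rw [map_zero, pull_pow (ok_pb _ _), e2, neg_pow, ← e1, mul_zero]

theorem res_hh : pull id (Od n) univ (hh n) = 0 := by
  obtain ⟨a, d, e⟩ := ThMb_ex (n := n)
  have h := ThMb_cbP (lc_MM (n := n)) subset_rfl
  have h' := ThMb_cbP (lc_Od (n := n)) sdiff_subset
  obtain ⟨c, rfl⟩ := ann_hh d (h.pb_inj two_pos (by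
    rw [pull_mul (ok_pb _ _), e, ThMb_ann, map_zero]))
  have hc : c ≠ 0 := by
    rintro rfl
    exact ThMb_ne (by rw [← e, zero_smul, map_zero])
  have k : pb (fun y => cm y.1) (Od n) ⊆ pb (fun y => cm y.1) (MM n) := fun _ k => ⟨k.1.1, k.2⟩
  have e1 := eu_res ThMb_cbR h'.lc_pb k
  rw [eu_eq_zero (ThMb_cbR.mono h'.lc_pb k) (ThMb_sec.mono k fun _ k m => k.1.2 m), ← e,
    res_pull (ok_pb _ _) k fun _ _ k => k, map_smul, smul_eq_zero_iff_right hc] at e1
  refine h'.pb_inj two_pos ?_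
  rw [map_zero, pull_res (ok_pb _ (Od n)) sdiff_subset fun _ _ k => k, e1]

end Pool.Agent.Work.MP_8c604c_gt.T
end
end

-- merged part: Pool.Agent.Work.MP_8c604c_gt.T.ThM
section
/-!
The diagonal class of `HP^n x HP^n`.
Hints. exists_tauD: exact_supp_res and prj. Slices: pull_pull', uu restricts to 0 on {p} x M (constant map: factor through {p}, pt_eq, degree), so only one term of hh survives.
tauD_bij: thom_chart (FLoc) with U = MM n, S = MM n inter Dg n (res_bij_of_eq), J = Fin n x Fin 2, A = J -> C, O = univ, K (a, w) = (phi a, phi (a + w)), L y = (chi y.1, chi y.2 - chi y.1), N = O x O from exists_chart; the slice class is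
nonzero by tauD_slice, excision and the chart; H (MH n) -> H S is bijective (pull_bij_of_inv), cup_res_left. Dg_fgt_inj: the image of sum a k u^k is sum a k u^k hh, and the coefficient of u^n v^k is a k (MM_basis).
-/

noncomputable section

set_option linter.unusedSectionVars false
set_option linter.unusedVariables false

namespace Pool.Agent.Work.MP_8c604c_gt.T

open Set Topology Matrix Pool.Agent.Work.MP_849ab0_ag.G
open scoped Quaternion

variable {n : ℕ}

theorem ThM_e2 : Od n \ univ = MM n \ univ := by simp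

theorem exists_tauD : ∃ τ : H (MM n) (Dg n), IsDeg (4 * n) τ ∧ pull id (MM n) univ τ = hh n := by
  obtain ⟨τ, h⟩ := (exact_supp_res (Z₁ := Dg n) rfl ThM_e2 (hh n)).1 res_hh
  exact ⟨prj {(4 * n : ℤ)} τ, isDeg_prj _ _, by rw [pull_prj, h, isDeg_iff.1 isDeg_hh]⟩

/-- the Thom class of the diagonal -/
def tauD (n : ℕ) : H (MM n) (Dg n) := exists_tauD.choose

theorem isDeg_tauD : IsDeg (4 * n) (tauD n) := exists_tauD.choose_spec.1

theorem fgt_tauD : pull id (MM n) univ (tauD n) = hh n := exists_tauD.choose_spec.2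

theorem ThM_const {p : AM n} (hp : p ∈ MH n) : pull (fun _ => p) (MH n) univ (uH n) = 0 := by
  have o : Ok (fun _ : AM n => p) (MH n) univ {p} univ :=
    .of_mem (.of_continuous continuous_const _) (fun _ _ => rfl) fun _ _ _ => trivial
  have z : pull id {p} univ (uH n) = 0 := (isDeg_uH.pull _ _ _).eq_zero_of_ne
    (by rw [pt_eq (mem_univ p) (pull id {p} univ (uH n))]; exact isDeg_one.smul _) (by norm_num)
  rw [← pull_res o (singleton_subset_iff.2 hp) fun _ _ _ => trivial, z, map_zero]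

theorem ThM_pull {σ : AM n → AM n × AM n} (hσ : Continuous σ) (m : MapsTo σ (MH n) (MM n)) :
    pull σ (MH n) univ (tauD n) = ∑ i ∈ Finset.range (n + 1),
      pull (fun q => (σ q).1) (MH n) univ (uH n) ^ i *
        pull (fun q => (σ q).2) (MH n) univ (uH n) ^ (n - i) := by
  have o : Ok σ (MH n) univ (MM n) univ := .of_mem (.of_continuous hσ _) m fun _ _ _ => trivial
  rw [← pull_res o subset_rfl fun _ _ _ => trivial, fgt_tauD, hh, map_sum]
  refine Finset.sum_congr rfl fun i _ => ?_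
  rw [pull_mul o, pull_pow o, pull_pow o, uu, vv, pull_pull' o ok_MM1 fun _ _ => rfl,
    pull_pull' o ok_MM2 fun _ _ => rfl]

theorem ThM_ok {p : AM n} (hp : p ∈ MH n) : Ok (fun q => (p, q)) (MH n) {p} (MM n) (Dg n) :=
  .of_mem (.of_continuous (by fun_prop) _) (fun _ h => ⟨hp, h⟩) fun _ _ h => Eq.symm h

theorem tauD_slice {p : AM n} (hp : p ∈ MH n) :
    pull id (MH n) univ (pull (fun q => (p, q)) (MH n) {p} (tauD n)) = uH n ^ n := by
  rw [res_pull (W₁ := univ) (ThM_ok hp) subset_rfl fun _ _ _ => trivial,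
    ThM_pull (by fun_prop) fun _ h => ⟨hp, h⟩, ThM_const hp, Finset.sum_range_succ',
    Finset.sum_eq_zero fun i _ => by rw [pow_succ, mul_zero, zero_mul], zero_add, pow_zero, one_mul]
  exact congrArg (· ^ n) (pull_id _)

theorem tauD_slice' {p : AM n} (hp : p ∈ MH n) :
    pull id (MH n) univ (pull (fun q => (q, p)) (MH n) {p} (tauD n)) = uH n ^ n := by
  have o : Ok (fun q => (q, p)) (MH n) {p} (MM n) (Dg n) :=
    .of_mem (.of_continuous (by fun_prop) _) (fun _ h => ⟨h, hp⟩) fun _ _ h => h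
  rw [res_pull (W₁ := univ) o subset_rfl fun _ _ _ => trivial,
    ThM_pull (by fun_prop) fun _ h => ⟨h, hp⟩, ThM_const hp, Finset.sum_range_succ,
    Finset.sum_eq_zero fun i hi => by
      rw [zero_pow (Nat.sub_ne_zero_of_lt (Finset.mem_range.1 hi)), mul_zero],
    zero_add, Nat.sub_self, pow_zero, mul_one]
  exact congrArg (· ^ n) (pull_id _)

theorem tauD_diag : pull (fun p => (p, p)) (MH n) univ (tauD n) = ((n : ℂ) + 1) • uH n ^ n := by
  rw [ThM_pull (by fun_prop) fun _ h => ⟨h, h⟩, show pull (fun q : AM n => q) (MH n) univ (uH n) =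
    uH n from pull_id _, Finset.sum_congr rfl fun i hi => by
      rw [← pow_add, Nat.add_sub_cancel' (Nat.lt_succ_iff.1 (Finset.mem_range.1 hi))],
    Finset.sum_const, Finset.card_range, ← Nat.cast_smul_eq_nsmul ℂ]
  push_cast
  rfl

theorem ThM_loc : Function.Bijective fun c : H (MM n ∩ Dg n) univ =>
    cup (MM n) (MM n ∩ Dg n) c (pull id (MM n) (MM n ∩ Dg n) (tauD n)) := by
  refine thom_chart (J := Fin n × Fin 2) lc_MM
    ((Cl.of_isClosed isClosed_Dg _).congr fun x hx => ⟨mem_inter hx, fun h => h.2⟩)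
    inter_subset_left ?_ ?_
  · convert isDeg_tauD.pull id (MM n) (MM n ∩ Dg n) using 1
    simp only [Fintype.card_prod, Fintype.card_fin]
    push_cast
    ring
  rintro ⟨p, q⟩ ⟨⟨hp, -⟩, rfl : p = q⟩
  replace hp : p ∈ MH n := hp
  obtain ⟨O, φ, χ, hO, hφ, hχ, hpO, m, e1, e2, e0⟩ := exists_chart hp
  refine ⟨Fin n × Fin 2 → ℂ, inferInstance, univ, fun w => (φ w.1, φ (w.1 + w.2)),
    fun y => (χ y.1, χ y.2 - χ y.1), O ×ˢ O, 0, isOpen_univ, hO.prod hO, by fun_prop, ?_,
    fun w _ => ⟨⟨(m _).1, (m _).1⟩, (m _).2, (m _).2⟩, fun _ _ => trivial,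
    fun w _ => by simp [e1], fun y hy => ?_, fun w _ => ⟨fun h => ?_, fun h => ?_⟩, trivial,
    by simp [e0], ?_⟩
  · have c1 : ContinuousOn (fun y : AM n × AM n => χ y.1) (MM n ∩ O ×ˢ O) :=
      hχ.comp continuousOn_fst fun _ h => h.2.1
    exact c1.prodMk ((hχ.comp continuousOn_snd fun _ h => h.2.2).sub c1)
  · simp only [add_sub_cancel, e2 _ ⟨hy.1.1, hy.2.1⟩, e2 _ ⟨hy.1.2, hy.2.2⟩]
  · simpa [e1] using congrArg χ (show φ w.1 = φ (w.1 + w.2) from h.2)
  · exact ⟨⟨(m _).1, (m _).1⟩, by simp [Dg, h]⟩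
  · have z : ∀ v, φ v = p → v = 0 := fun v h => by rw [← e1 v, h, ← e0, e1]
    have o1 : Ok φ univ {0} (MH n ∩ O) {p} :=
      .of_mem (.of_continuous hφ _) (fun v _ => m v) fun v _ h => z v h
    have o2 : Ok χ (MH n ∩ O) {p} univ {0} :=
      ok_of (isCompact_MH.isClosed.isLocallyClosed.inter hO.isLocallyClosed)
        (hχ.mono inter_subset_right) (fun _ _ => trivial) fun q hq h => by
          rw [mem_singleton_iff] at h ⊢
          rw [← e2 q hq, h, e0]
    have b := (pull_bij_of_inv o1 o2 (fun v _ => e1 v) e2).comp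
      (res_excision_open hO (Cl.of_isClosed isClosed_singleton (MH n)) fun x _ h => h ▸ hpO)
    have o3 : Ok (fun v => (φ 0, φ (0 + v))) univ {0} (MM n) (MM n ∩ Dg n) :=
      .of_mem (.of_continuous (by fun_prop) _) (fun v _ => ⟨(m _).1, (m _).1⟩) fun v _ h =>
        z v (by simpa [Dg, e0, eq_comm] using h.2)
    intro h
    change pull (fun v => (φ 0, φ (0 + v))) univ {0} _ = 0 at h
    rw [pull_res o3 subset_rfl fun _ k h => ⟨k, h⟩] at h
    have h2 : pull (fun q => (p, q)) (MH n) {p} (tauD n) = 0 := b.1 (by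
      simp only [Function.comp_apply, map_zero]
      rw [pull_res o1 inter_subset_left fun _ _ h => h, pull_pull' (Z := {0})
        (.of_mem o1.ext (fun v _ => (m v).1) fun v _ h => z v h) (ThM_ok hp)
        (F := fun v => (φ 0, φ (0 + v))) fun v _ => by rw [e0, zero_add], h])
    exact uH_pow_ne le_rfl (by rw [← tauD_slice hp, h2, map_zero])

/-- the Thom isomorphism of the diagonal -/
theorem tauD_bij : Function.Bijective fun a : H (MH n) univ =>
    cup (MM n) (Dg n) (pull Prod.fst (MM n) univ a) (tauD n) := by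
  have o1 : Ok Prod.fst (MM n ∩ Dg n) univ (MH n) univ :=
    .of_mem (.of_continuous continuous_fst _) (fun _ h => h.1.1) fun _ _ _ => trivial
  have o2 : Ok (fun p => (p, p)) (MH n) univ (MM n ∩ Dg n) univ :=
    .of_mem (.of_continuous (by fun_prop) _) (fun _ h => ⟨⟨h, h⟩, rfl⟩) fun _ _ _ => trivial
  rw [← Function.Bijective.of_comp_iff' (res_bij_of_eq (U := MM n) (Z := Dg n)
    (Z₁ := MM n ∩ Dg n) fun x hx => ⟨fun h => ⟨hx, h⟩, fun h => h.2⟩)]
  convert ThM_loc.comp (pull_bij_of_inv o1 o2 (fun x hx => Prod.ext rfl hx.2) fun _ _ => rfl) using 1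
  funext a
  simp only [Function.comp_apply]
  rw [supp_cm fun x => mem_inter, ← res_pull (W₁ := univ) ok_MM1 inter_subset_left fun _ _ _ => trivial,
    cup_res_left (W₁ := univ) (.id inter_subset_left fun _ _ _ => trivial)
      (cupOK_fm subset_rfl fun _ _ h => h)]

theorem ThM_top : uu n ^ n * hh n = uu n ^ n * vv n ^ n := by
  rw [hh, Finset.mul_sum, Finset.sum_range_succ', Finset.sum_eq_zero fun i _ => by
    rw [← mul_assoc, ← pow_add, pow_eq_zero_of_le (by omega) uu_pow, zero_mul], zero_add, pow_zero,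
    one_mul, Nat.sub_zero]

theorem ThM_inj {a : H (MH n) univ} (h : pull Prod.fst (MM n) univ a * hh n = 0) : a = 0 := by
  obtain ⟨c, rfl⟩ := uH_basis.2 a
  have key : ∀ k : ℕ, ∀ j : Fin (n + 1), (j : ℕ) = k → c j = 0 := fun k => by
    induction k using Nat.strong_induction_on with
    | _ k ih =>
      rintro j rfl
      have e := congrArg (uu n ^ (n - j) * ·) h
      simp only [map_sum, map_smul, pull_pow ok_MM1, Finset.sum_mul, Finset.mul_sum,
        smul_mul_assoc, mul_smul_comm, mul_zero] at e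
      rw [Finset.sum_eq_single j (fun i _ hi => ?_) (by simp), ← mul_assoc] at e
      · change c j • (uu n ^ _ * uu n ^ _ * _) = 0 at e
        rw [← pow_add, Nat.sub_add_cancel (Nat.lt_succ_iff.1 j.2), ThM_top] at e
        exact (smul_eq_zero.1 e).resolve_right uv_pow_ne
      · rcases lt_or_gt_of_ne (Fin.val_ne_of_ne hi) with l | l
        · rw [ih i l i rfl, zero_smul]
        · change c i • (uu n ^ _ * (uu n ^ _ * _)) = 0
          rw [← mul_assoc, ← pow_add, pow_eq_zero_of_le (by have := j.2; omega) uu_pow, zero_mul,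
            smul_zero]
  exact Finset.sum_eq_zero fun j _ => by rw [key j j rfl, zero_smul]

theorem Dg_fgt_inj : Function.Injective (pull id (MM n) univ : H (MM n) (Dg n) → _) := by
  refine (injective_iff_map_eq_zero _).2 fun t h => ?_
  obtain ⟨a, rfl⟩ := tauD_bij.2 t
  rw [fgt_cm, fgt_tauD] at h
  simp [ThM_inj h]

theorem res_Od_surj : Function.Surjective (pull id (Od n) univ : H (MM n) univ → _) := fun b =>
  (exact_res_dlt (Z₁ := Dg n) rfl ThM_e2 b).1 (Dg_fgt_inj (by
    rw [map_zero]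
    exact (exact_dlt_supp (Z₁ := Dg n) rfl ThM_e2 _).2 ⟨b, rfl⟩))

theorem res_Od_eq_zero {a : H (MM n) univ} :
    pull id (Od n) univ a = 0 ↔ ∃ b : H (MH n) univ, a = pull Prod.fst (MM n) univ b * hh n := by
  refine (exact_supp_res (Z₁ := Dg n) rfl ThM_e2 a).trans ⟨?_, ?_⟩
  · rintro ⟨t, rfl⟩
    obtain ⟨b, rfl⟩ := tauD_bij.2 t
    exact ⟨b, by rw [fgt_cm, fgt_tauD]⟩
  · rintro ⟨b, rfl⟩
    exact ⟨_, by rw [fgt_cm, fgt_tauD]⟩

end Pool.Agent.Work.MP_8c604c_gt.T
end
end

-- merged part: Pool.Agent.Work.MP_8c604c_gt.T.ThF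
section
/-! The multiplicity is three; the lift `thF` of `vv - uu` to supports in `F` is a Thom class. -/

noncomputable section

set_option linter.unusedSectionVars false

namespace Pool.Agent.Work.MP_8c604c_gt.T

open Set Topology Filter Pool.Agent.Work.MP_849ab0_ag.G

variable {n k : ℕ}

theorem uH_ne (hn : 1 ≤ n) : uH n ≠ 0 := by simpa using uH_pow_ne (n := n) (k := 1) hn

theorem pull_const {X Y : Type} [TopologicalSpace X] [TopologicalSpace Y] {U : Set X} {U' : Set Y}
    {y : Y} (hy : y ∈ U') {p : ℤ} (hp : p ≠ 0) {a : H U' univ} (ha : IsDeg p a) :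
    pull (fun _ => y) U univ a = 0 := by
  have o1 : Ok (fun _ => y) U univ {y} univ :=
    .of_mem (.of_continuous continuous_const _) (fun _ _ => rfl) fun _ _ _ => trivial
  rw [← pull_res o1 (singleton_subset_iff.2 hy) fun _ _ h => h,
    acy_deg (acy_singleton y) hp (ha.pull _ _ _), map_zero]

theorem uu_sub_vv_ne (hn : 1 ≤ n) : uu n - vv n ≠ 0 := fun h => by
  obtain ⟨p, hp⟩ : (MH n).Nonempty := ⟨_, pr_mem (aff_ne 0)⟩
  have o : Ok (fun q => (q, p)) (MH n) univ (MM n) univ :=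
    .of_mem (.of_continuous (by fun_prop) _) (fun _ h => ⟨h, hp⟩) fun _ _ _ => trivial
  have := congrArg (pull (fun q => (q, p)) (MH n) univ) h
  rw [map_sub, uu, vv, pull_pull' (F := id) o ok_MM1 fun _ _ => rfl, pull_id,
    pull_pull' (F := fun _ => p) o ok_MM2 fun _ _ => rfl, pull_const hp (by norm_num) isDeg_uH,
    sub_zero, map_zero] at this
  exact uH_ne hn this

namespace TD0

/-- The conjugate multiplicity is three. -/
theorem k_eq' (D : TD0 n k) (hn : 1 ≤ n) : k = 3 := by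
  obtain ⟨c, hc⟩ := D.nonempty_S hn
  have hp : c 1 ∈ MH n := D.mem c hc 1
  have g := D.gysD_tube hn (B := D.F ∩ {y | y.1 = c 1}) (U := ({c 1} ×ˢ MH n) \ Dg n)
    (D.isClosed_F.inter (isClosed_eq continuous_fst continuous_const)).isLocallyClosed
    inter_subset_left fun y => ⟨fun h => by
      have : y ∈ Od n := ⟨⟨h.1.1 ▸ hp, h.1.2⟩, h.2⟩
      exact ⟨this, D.hat_mem this, h.1.1⟩, fun h => ⟨⟨h.2.2, h.1.1.2⟩, h.1.2⟩⟩
  have ex := D.exc_Dg ({c 1} ×ˢ MH n)
  have ac := D.acy_slice hp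
  have inj := fgt_inj (acy_res_surj ac)
  have o1 : Ok Prod.snd (({c 1} : Set (AM n)) ×ˢ MH n) univ (MH n) univ := ok_snd' _ _
  have o2 : Ok (fun q => (c 1, q)) (MH n) univ ({c 1} ×ˢ MH n) univ :=
    .of_mem (.of_continuous (by fun_prop) _) (fun _ h => ⟨rfl, h⟩) fun _ _ _ => trivial
  have sb := pull_bij_of_inv o1 o2 (fun y h => Prod.ext (Eq.symm h.1) rfl) fun _ _ => rfl
  have h1 : k ≤ 3 := by
    have du := isDeg_uH.pull Prod.snd (({c 1} : Set (AM n)) ×ˢ MH n) univ
    obtain ⟨θ, d1, e1⟩ := exists_lift_deg (Z := D.F) du (acy_deg ac (by norm_num) (du.pull _ _ _))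
    obtain ⟨a, d2, e2⟩ := g.exists_thom (p := 3 - k) (c := pull id _ _ θ)
      (by convert d1.pull id _ D.F using 1; ring)
    by_contra hk
    rw [d2.eq_zero_of_neg (by omega), map_zero, map_zero, LinearMap.zero_apply,
      map_eq_zero_iff _ ex.1] at e2
    rw [e2, map_zero, eq_comm, map_eq_zero_iff _ sb.1] at e1
    exact uH_ne hn e1
  obtain ⟨θ, e1⟩ := ex.2 (pull id _ D.F D.thO)
  have d1 : IsDeg (k + 1) θ := isDeg_iff.2 (ex.1 (by rw [pull_prj, e1, isDeg_iff.1 g.deg]))
  obtain ⟨a, e2⟩ := sb.2 (pull id _ univ θ)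
  have d2 : IsDeg (k + 1) a :=
    isDeg_iff.2 (sb.1 (by rw [pull_prj, e2, isDeg_iff.1 (d1.pull _ _ _)]))
  by_contra hk
  rw [MH_deg_zero d2 (.inl (by omega)), map_zero, eq_comm, map_eq_zero_iff _ inj] at e2
  exact g.ne_zero ⟨_, D.en_mem hc, rfl⟩ (by rw [← e1, e2, map_zero])

theorem k_eq (D : TD0 n k) (hn : 2 ≤ n) : k = 3 := D.k_eq' (by omega)

theorem Nb_uv (D : TD0 n k) : pull id D.Nb univ (uu n) = pull id D.Nb univ (vv n) := by
  have s : D.Nb ⊆ MM n := sdiff_subset
  rw [uu, vv, res_pull ok_MM1 s fun _ _ h => h, res_pull ok_MM2 s fun _ _ h => h]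
  exact D.Nb_fst_snd _

theorem exists_thF (D : TD0 n k) :
    ∃ θ : H (MM n) D.F, IsDeg 4 θ ∧ pull id (MM n) univ θ = vv n - uu n :=
  exists_lift_deg (isDeg_vv.sub isDeg_uu) (by
    rw [map_sub]; exact sub_eq_zero.2 D.Nb_uv.symm)

/-- the lift of `vv - uu` to supports in `F` -/
def thF (D : TD0 n k) : H (MM n) D.F := D.exists_thF.choose

theorem isDeg_thF (D : TD0 n k) : IsDeg 4 D.thF := D.exists_thF.choose_spec.1

theorem fgt_thF (D : TD0 n k) : pull id (MM n) univ D.thF = vv n - uu n :=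
  D.exists_thF.choose_spec.2

theorem eq_thF (D : TD0 n k) {θ : H (MM n) D.F} (h : pull id (MM n) univ θ = vv n - uu n) :
    θ = D.thF := D.F_fgt_inj (h.trans D.fgt_thF.symm)

theorem hh_thF (D : TD0 n k) : cup (MM n) D.F (hh n) D.thF = 0 := D.F_fgt_inj (by
  rw [fgt_cm, D.fgt_thF, map_zero, ← neg_sub, mul_neg,
    (IsDeg.evn (isDeg_uu.sub isDeg_vv) ⟨2, rfl⟩).commH, sub_mul_hh, neg_zero])

/-- the image of `thF` on a subset -/
theorem res_thF (D : TD0 n k) {U : Set (AM n × AM n)} (h : U ⊆ MM n) :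
    pull id U univ D.thF = pull id U univ (vv n - uu n) := by
  rw [← D.fgt_thF, res_pull (ok_fgt subset_rfl) h fun _ _ h => h]

variable (D : TD0 n 3)

theorem thF_eq (hn : 1 ≤ n) : ∃ c : ℂ, c ≠ 0 ∧ pull id (Od n) D.F D.thF = c • D.thO := by
  have g := D.gysD_Od hn
  obtain ⟨a, d, e⟩ := g.exists_thom (p := 0) (c := pull id _ _ D.thF)
    (by convert D.isDeg_thF.pull id (Od n) D.F using 1; norm_num)
  obtain ⟨c, rfl⟩ := deg0_const (D.isConnected_F hn).isPreconnected d
  rw [map_smul, pull_oneH g.ok, map_smul, LinearMap.smul_apply, cm_one] at e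
  refine ⟨c, fun h => uu_sub_vv_ne hn (neg_eq_zero.1 ((neg_sub _ _).trans ?_)), e⟩
  rw [h, zero_smul] at e
  rw [← D.fgt_thF, (map_eq_zero_iff _ (D.exc_Dg (MM n)).1).1 e, map_zero]

/-- `thF` is a Thom class over every locally closed part `B` of `F`. -/
theorem gysD_thF (hn : 1 ≤ n) {B U : Set (AM n × AM n)} (hB : IsLocallyClosed B) (hBF : B ⊆ D.F)
    (hU : ∀ y, y ∈ U ↔ y ∈ Od n ∧ D.hat y ∈ B) :
    GysD D.hat U D.F B (pull id U D.F D.thF) 4 (pull id B univ (vv n - uu n)) := by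
  obtain ⟨c, hc, e⟩ := D.thF_eq hn
  have o : Ok id (Od n) D.F (MM n) D.F := .id Od_sub fun _ _ h => h
  convert (D.gysD_tube hn hB hBF hU).smul hc using 1
  · rw [← map_smul, ← e, res_pull o (fun y h => ((hU y).1 h).1) fun _ _ h => h]
  · norm_num
  · rw [← map_smul, ← e, res_pull o (hBF.trans D.F_sub) fun _ _ _ => mem_univ _,
      D.res_thF ((hBF.trans D.F_sub).trans Od_sub)]

theorem gysD_thF_Od (hn : 1 ≤ n) : GysD D.hat (Od n) D.F D.F (pull id (Od n) D.F D.thF) 4
    (pull id D.F univ (vv n - uu n)) :=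
  D.gysD_thF hn D.lc_F subset_rfl fun _ => ⟨fun h => ⟨h, D.hat_mem h⟩, And.left⟩

/-- `thF` is nonzero on the slices of the tube. -/
theorem thF_slice' (hn : 1 ≤ n) {y : AM n × AM n} (hy : y ∈ D.F) {B : Type} [NormedAddCommGroup B]
    [NormedSpace ℝ B] [FiniteDimensional ℝ B] (hB : Module.finrank ℝ B = 4)
    {T : B →ₗ[ℝ] AM n} (hT : Function.Injective T) (m : ∀ v, T v ∈ D.Ws y) :
    pull (fun v => D.Th (y, T v)) univ {0} D.thF ≠ 0 := by
  obtain ⟨c, hc, e⟩ := D.thF_eq hn
  rw [← pull_res (D.ok_slice hy hT m) Od_sub fun _ _ h => h, e, map_smul]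
  exact smul_ne_zero hc (D.thO_slice hn hy hB hT m)

theorem thF_slice (hn : 2 ≤ n) {y : AM n × AM n} (hy : y ∈ D.F)
    {T : (Fin 4 → ℝ) →ₗ[ℝ] AM n} (hT : Function.Injective T) (mem : ∀ v, T v ∈ D.Ws y) :
    pull (fun v => D.Th (y, T v)) univ {0} D.thF ≠ 0 :=
  D.thF_slice' (by omega) hy (by simp) hT mem

/-- the Euler class of `WF` -/
theorem euR_WF (hn : 1 ≤ n) :
    ∃ c : ℂ, c ≠ 0 ∧ euR D.WF 4 D.oF D.F = c • pull id D.F univ (vv n - uu n) := by
  obtain ⟨c, hc, e⟩ := D.thF_eq hn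
  refine ⟨c⁻¹, inv_ne_zero hc, ?_⟩
  rw [← D.res_thF (D.F_sub.trans Od_sub), ← res_pull (.id Od_sub fun _ _ h => h) D.F_sub
    (fun _ _ _ => mem_univ _) D.thF, e, map_smul, inv_smul_smul₀ hc, D.res_thO]

end TD0

end Pool.Agent.Work.MP_8c604c_gt.T
end
end
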