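import Pool.Agent.Work.MP_8c604c_gt.OT.Cut
import Pool.Agent.Work.MP_8c604c_gt.T.ZTh

-- merged part: Pool.Agent.Work.MP_8c604c_gt.T.Kron
section
/-!
Kronecker products, internal direct sums, image bundles, classifying maps of line bundles.
-/

noncomputable section

set_option linter.unusedSectionVars false

namespace Pool.Agent.Work.MP_8c604c_gt.T

open Set Topology Matrix Pool.Agent.Work.MP_849ab0_ag.G
open scoped Kronecker

variable {J J' K K' J₁ J₂ : Type} [Fintype J] [Fintype J'] [Fintype K] [Fintype K'] [Fintype J₁]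
  [Fintype J₂]

theorem kron_apply (A : Matrix K J ℂ) (B : Matrix K' J' ℂ) (v : J × J' → ℂ) (k : K) (k' : K') :
    ((A ⊗ₖ B) *ᵥ v) (k, k') = (A *ᵥ fun j => (B *ᵥ fun j' => v (j, j')) k') k := by
  simp [mulVec, dotProduct, Fintype.sum_prod_type, Finset.mul_sum, mul_assoc]

theorem kron_apply' (A : Matrix K J ℂ) (B : Matrix K' J' ℂ) (v : J × J' → ℂ) (k : K) (k' : K') :
    ((A ⊗ₖ B) *ᵥ v) (k, k') = (B *ᵥ fun j' => (A *ᵥ fun j => v (j, j')) k) k' := by
  simp only [mulVec, dotProduct, Fintype.sum_prod_type, Finset.mul_sum, kroneckerMap_apply]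
  rw [Finset.sum_comm]
  exact Finset.sum_congr rfl fun _ _ => Finset.sum_congr rfl fun _ _ => by ring

theorem kron_col {P : Matrix J J ℂ} {Q : Matrix J' J' ℂ} (hP : P * P = P) {v : J × J' → ℂ}
    (h : (P ⊗ₖ Q) *ᵥ v = v) (j' : J') : (P *ᵥ fun j => v (j, j')) = fun j => v (j, j') := by
  have e : (fun j => v (j, j')) = P *ᵥ fun j => (Q *ᵥ fun k => v (j, k)) j' :=
    funext fun j => by rw [← kron_apply, h]
  rw [e, mulVec_mulVec, hP]

theorem kron_row {P : Matrix J J ℂ} {Q : Matrix J' J' ℂ} (hQ : Q * Q = Q) {v : J × J' → ℂ}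
    (h : (P ⊗ₖ Q) *ᵥ v = v) (j : J) : (Q *ᵥ fun j' => v (j, j')) = fun j' => v (j, j') := by
  have e : (fun j' => v (j, j')) = Q *ᵥ fun j' => (P *ᵥ fun k => v (k, j')) j :=
    funext fun j' => by rw [← kron_apply', h]
  rw [e, mulVec_mulVec, hQ]

theorem mul_eq_of_mem {P : Matrix J J ℂ} {P' : Matrix K K ℂ} {A : Matrix K J ℂ} (hP : P * P = P)
    (h : ∀ v, P *ᵥ v = v → P' *ᵥ (A *ᵥ v) = A *ᵥ v) : P' * (A * P) = A * P :=
  Matrix.ext_iff_mulVec.2 fun v => by
    rw [← mulVec_mulVec, ← mulVec_mulVec, h _ (by rw [mulVec_mulVec, hP])]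

theorem kron_mem {P : Matrix J J ℂ} {Q : Matrix J' J' ℂ} {P' : Matrix K K ℂ} {Q' : Matrix K' K' ℂ}
    {A : Matrix K J ℂ} {B : Matrix K' J' ℂ} (hP : P * P = P) (hQ : Q * Q = Q)
    (h : ∀ v, P *ᵥ v = v → P' *ᵥ (A *ᵥ v) = A *ᵥ v) (h' : ∀ v, Q *ᵥ v = v → Q' *ᵥ (B *ᵥ v) = B *ᵥ v)
    (v : J × J' → ℂ) (e : (P ⊗ₖ Q) *ᵥ v = v) :
    (P' ⊗ₖ Q') *ᵥ ((A ⊗ₖ B) *ᵥ v) = (A ⊗ₖ B) *ᵥ v := by
  rw [← e]
  simp only [mulVec_mulVec, ← mul_kronecker_mul]
  rw [mul_eq_of_mem hP h, mul_eq_of_mem hQ h']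

theorem kron_inj {P : Matrix J J ℂ} {Q : Matrix J' J' ℂ} {A : Matrix K J ℂ} {B : Matrix K' J' ℂ}
    (hP : P * P = P) (hQ : Q * Q = Q) (h : ∀ v, P *ᵥ v = v → A *ᵥ v = 0 → v = 0)
    (h' : ∀ v, Q *ᵥ v = v → B *ᵥ v = 0 → v = 0) (v : J × J' → ℂ) (e : (P ⊗ₖ Q) *ᵥ v = v)
    (e0 : (A ⊗ₖ B) *ᵥ v = 0) : v = 0 := by
  classical
  have a : ∀ k', (fun j => (B *ᵥ fun j' => v (j, j')) k') = 0 := fun k' => by
    refine h _ ?_ (funext fun k => by rw [← kron_apply, e0]; rfl)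
    have e1 : (P ⊗ₖ (1 : Matrix K' K' ℂ)) *ᵥ (((1 : Matrix J J ℂ) ⊗ₖ B) *ᵥ v) =
        ((1 : Matrix J J ℂ) ⊗ₖ B) *ᵥ v :=
      kron_mem hP hQ (fun v k => by rw [one_mulVec, k]) (fun v _ => one_mulVec _) v e
    have e2 := kron_col hP e1 k'
    simpa only [kron_apply, one_mulVec] using e2
  funext ⟨j, j'⟩
  exact congrFun (h' _ (kron_row hQ e j) (funext fun k' => congrFun (a k') j)) j'

variable {X Y : Type} [TopologicalSpace X] [TopologicalSpace Y]
variable {U V : Set X} {U' : Set Y} {f : X → Y} {r r' s : ℕ}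
variable {P P₁ P₂ R : X → Matrix J J ℂ} {Q : X → Matrix J' J' ℂ}

theorem contOn_kron {A : X → Matrix K J ℂ} {B : X → Matrix K' J' ℂ} (hA : ContinuousOn A U)
    (hB : ContinuousOn B U) : ContinuousOn (fun x => A x ⊗ₖ B x) U :=
  continuousOn_pi.2 fun i => continuousOn_pi.2 fun j =>
    (continuousOn_pi.1 (continuousOn_pi.1 hA i.1) j.1).mul
      (continuousOn_pi.1 (continuousOn_pi.1 hB i.2) j.2)

theorem CB.kron1 (hP : CB P r U) (hQ : CB Q 1 U) : CB (fun x => P x ⊗ₖ Q x) r U := by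
  simpa using hP.kron hQ

theorem BM.kron (hP : CB P r U) (hQ : CB Q r' U) {P' : Y → Matrix K K ℂ} {Q' : Y → Matrix K' K' ℂ}
    {A : X → Matrix K J ℂ} {B : X → Matrix K' J' ℂ} (a : BM P U P' U' f A) (b : BM Q U Q' U' f B) :
    BM (fun x => P x ⊗ₖ Q x) U (fun y => P' y ⊗ₖ Q' y) U' f fun x => A x ⊗ₖ B x :=
  ⟨a.cf, a.maps, contOn_kron a.cA b.cA,
    fun x hx => kron_mem (hP.idem x hx) (hQ.idem x hx) (a.mem x hx) (b.mem x hx),
    fun x hx => kron_inj (hP.idem x hx) (hQ.idem x hx) (a.inj x hx) (b.inj x hx)⟩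

/-- the tautological map from a pull-back -/
theorem bm_one [DecidableEq J] {P' : Y → Matrix J J ℂ} (hf : ContinuousOn f U)
    (hm : MapsTo f U U') (e : ∀ x ∈ U, P' (f x) * P x = P x) : BM P U P' U' f fun _ => 1 :=
  ⟨hf, hm, continuousOn_const, fun x hx v k => by rw [one_mulVec, ← k, mulVec_mulVec, e x hx],
    fun x _ v _ k => by rwa [one_mulVec] at k⟩

/-- `P₁` and `P₂` are independent subbundles of `P` -/
structure Spl (P P₁ P₂ : X → Matrix J J ℂ) (U : Set X) : Prop where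
  e₁ : ∀ x ∈ U, P x * P₁ x = P₁ x
  e₂ : ∀ x ∈ U, P x * P₂ x = P₂ x
  dj : ∀ x ∈ U, ∀ v, P₁ x *ᵥ v = v → P₂ x *ᵥ v = v → v = 0

theorem Spl.comp (h : Spl P P₁ P₂ U) {g : Y → X} (hg : MapsTo g U' U) :
    Spl (fun y => P (g y)) (fun y => P₁ (g y)) (fun y => P₂ (g y)) U' :=
  ⟨fun _ k => h.e₁ _ (hg k), fun _ k => h.e₂ _ (hg k), fun _ k => h.dj _ (hg k)⟩

theorem Spl.kron_right (h : Spl P P₁ P₂ U) (h₁ : CB P₁ r U) (h₂ : CB P₂ r' U) (hQ : CB Q s U) :
    Spl (fun x => P x ⊗ₖ Q x) (fun x => P₁ x ⊗ₖ Q x) (fun x => P₂ x ⊗ₖ Q x) U :=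
  ⟨fun x hx => by rw [← mul_kronecker_mul, h.e₁ x hx, hQ.idem x hx],
    fun x hx => by rw [← mul_kronecker_mul, h.e₂ x hx, hQ.idem x hx],
    fun x hx v a b => funext fun ⟨j, j'⟩ => congrFun
      (h.dj x hx _ (kron_col (h₁.idem x hx) a j') (kron_col (h₂.idem x hx) b j')) j⟩

theorem Spl.kron_left (h : Spl P P₁ P₂ U) (h₁ : CB P₁ r U) (h₂ : CB P₂ r' U) (hQ : CB Q s U) :
    Spl (fun x => Q x ⊗ₖ P x) (fun x => Q x ⊗ₖ P₁ x) (fun x => Q x ⊗ₖ P₂ x) U :=
  ⟨fun x hx => by rw [← mul_kronecker_mul, h.e₁ x hx, hQ.idem x hx],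
    fun x hx => by rw [← mul_kronecker_mul, h.e₂ x hx, hQ.idem x hx],
    fun x hx v a b => funext fun ⟨j, j'⟩ => congrFun
      (h.dj x hx _ (kron_row (h₁.idem x hx) a j) (kron_row (h₂.idem x hx) b j)) j'⟩

theorem map_star_mul (A : Matrix K J ℂ) (B : Matrix J K' ℂ) :
    (A * B).map star = A.map star * B.map star := Matrix.map_mul (f := starRingEnd ℂ)

theorem map_star_mulVec (A : Matrix K J ℂ) (v : J → ℂ) :
    A.map star *ᵥ v = star (A *ᵥ star v) := by
  funext i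
  simp [mulVec, dotProduct]

theorem Spl.conj (h : Spl P P₁ P₂ U) :
    Spl (fun x => (P x).map star) (fun x => (P₁ x).map star) (fun x => (P₂ x).map star) U :=
  ⟨fun x hx => by rw [← map_star_mul, h.e₁ x hx], fun x hx => by rw [← map_star_mul, h.e₂ x hx],
    fun x hx v a b => by
      rw [map_star_mulVec, star_eq_iff_star_eq, eq_comm] at a b
      exact star_eq_zero.1 (h.dj x hx _ a b)⟩

theorem spl_sub (hR : CB R s U) (hP : CB P r U) (e : ∀ x ∈ U, R x * P x = P x) :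
    Spl R P (fun x => R x - P x * R x) U :=
  ⟨e, fun x hx => by rw [mul_sub, ← mul_assoc, hR.idem x hx, e x hx], fun x hx v a b => by
    rw [← a, ← b, mulVec_mulVec, mul_sub, ← mul_assoc, hP.idem x hx, sub_self, zero_mulVec]⟩

/-- orthogonal idempotents -/
theorem spl_add (hP : CB P r U) (hR : CB R s U) (e : ∀ x ∈ U, P x * R x = 0)
    (e' : ∀ x ∈ U, R x * P x = 0) : Spl (fun x => P x + R x) P R U :=
  ⟨fun x hx => by rw [add_mul, hP.idem x hx, e' x hx, add_zero],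
    fun x hx => by rw [add_mul, hR.idem x hx, e x hx, zero_add],
    fun x hx v a b => by rw [← a, ← b, mulVec_mulVec, e x hx, zero_mulVec]⟩

theorem eu_spl [RegularSpace X] [SecondCountableTopology X] (h : CB P (r + r') U) (h₁ : CB P₁ r U)
    (h₂ : CB P₂ r' U) (e : Spl P P₁ P₂ U) : eu P (r + r') U = eu P₁ r U * eu P₂ r' U :=
  eu_split h h₁ h₂ e.e₁ e.e₂ e.dj

open scoped ComplexOrder in
theorem kron_img [DecidableEq J'] {q : Matrix J' J' ℂ} {B : Matrix J J' ℂ} (hq : q * q = q)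
    (hB : B * q = B) (inj : ∀ v, q *ᵥ v = v → B *ᵥ v = 0 → v = 0) :
    (Bᴴ * B + (1 - q)ᴴ * (1 - q)).det ≠ 0 ∧ (Bᴴ * B + (1 - q)ᴴ * (1 - q))⁻¹ * (Bᴴ * B) = q := by
  have d : (Bᴴ * B + (1 - q)ᴴ * (1 - q)).det ≠ 0 := by
    rw [Ne, ← exists_mulVec_eq_zero_iff]
    rintro ⟨v, hv, e⟩
    have e1 := congrArg (fun w => star v ⬝ᵥ w) e
    simp only [add_mulVec, dotProduct_add, dotProduct_zero, ← mulVec_mulVec, dotProduct_mulVec _ _ᴴ,
      vecMul_conjTranspose, star_star] at e1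
    obtain ⟨a, b⟩ := (add_eq_zero_iff_of_nonneg (dotProduct_star_self_nonneg _)
      (dotProduct_star_self_nonneg _)).1 e1
    rw [dotProduct_star_self_eq_zero] at a b
    rw [sub_mulVec, one_mulVec, sub_eq_zero] at b
    exact hv (inj v b.symm a)
  refine ⟨d, ?_⟩
  have e : (Bᴴ * B + (1 - q)ᴴ * (1 - q)) * q = Bᴴ * B := by
    rw [add_mul, Matrix.mul_assoc, hB, mul_assoc, sub_mul, one_mul, hq, sub_self, mul_zero, add_zero]
  rw [← e, ← mul_assoc, e, nonsing_inv_mul _ (Ne.isUnit d), one_mul]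

/-- the image of a bundle map -/
theorem BM.exists_img (hQ : CB Q r U) {A : X → Matrix J J' ℂ} (b : BM Q U P U id A) :
    ∃ R : X → Matrix J J ℂ, CB R r U ∧ (∀ x ∈ U, P x * R x = R x) ∧ BM Q U R U id A := by
  classical
  have hB : ∀ x ∈ U, A x * Q x * Q x = A x * Q x := fun x hx => by
    rw [Matrix.mul_assoc, hQ.idem x hx]
  have k := fun x hx => kron_img (hQ.idem x hx) (hB x hx) fun v e e' =>
    b.inj x hx v e (by rwa [← mulVec_mulVec, e] at e')
  set G := fun x => ((A x * Q x)ᴴ * (A x * Q x) + (1 - Q x)ᴴ * (1 - Q x))⁻¹ with hG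
  have cB := con_mul b.cA hQ.cont
  have ct : ∀ {L L' : Type} {M : X → Matrix L L' ℂ}, ContinuousOn M U →
    ContinuousOn (fun x => (M x)ᴴ) U := fun h => continuous_id.matrix_conjTranspose.comp_continuousOn h
  have c1 : ContinuousOn (fun x => 1 - Q x) U := continuousOn_const.sub hQ.cont
  have cG : ContinuousOn G U :=
    con_inv ((con_mul (ct cB) cB).add (con_mul (ct c1) c1)) fun x hx => (k x hx).1
  have e1 : ∀ x ∈ U, A x * Q x * (G x * (A x * Q x)ᴴ) * (A x * Q x) = A x * Q x := fun x hx => by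
    rw [Matrix.mul_assoc (A x * Q x), Matrix.mul_assoc (G x), (k x hx).2, hB x hx]
  have e2 : ∀ x ∈ U, A x * Q x * (G x * (A x * Q x)ᴴ) * (A x * Q x * (G x * (A x * Q x)ᴴ)) =
      A x * Q x * (G x * (A x * Q x)ᴴ) := fun x hx => by rw [← Matrix.mul_assoc, e1 x hx]
  refine ⟨fun x => A x * Q x * (G x * (A x * Q x)ᴴ), ⟨hQ.lc, con_mul cB (con_mul cG (ct cB)), e2,
    fun x hx => idem_rank (e2 x hx) ?_⟩, fun x hx => ?_, b.cf, b.maps, b.cA, fun x hx v e => ?_, b.inj⟩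
  · rw [trace_mul_comm, Matrix.mul_assoc, (k x hx).2, hQ.trace hx]
  · rw [← Matrix.mul_assoc]
    exact congrArg (· * _) (mul_eq_of_mem (hQ.idem x hx) (b.mem x hx))
  · rw [← e]
    simp only [mulVec_mulVec, id]
    rw [e1 x hx]

/-- classifying maps of line bundles -/
theorem CB.exists_cls [RegularSpace X] [SecondCountableTopology X] (h : CB P 1 U)
    {E : Matrix K J ℂ} [DecidableEq J] (hE : Eᴴ * E = 1) :
    ∃ φ : X → Matrix K K ℂ, BM P U (fun p => p) (CP K) φ fun _ => E := by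
  obtain ⟨f, c, m, e, -⟩ := h.exists_class
  refine ⟨fun x => E * f x * Eᴴ, con_mul (con_mul continuousOn_const c) continuousOn_const,
    fun x hx => (cpn_conj (m hx) (by rw [hE, one_mul])).1, continuousOn_const, fun x hx v k => ?_,
    fun x hx v _ k => ?_⟩
  · rw [← k]
    simp only [mulVec_mulVec, Matrix.mul_assoc]
    rw [← Matrix.mul_assoc Eᴴ, hE, one_mul, (e x hx).1]
  · have := congrArg (fun w => Eᴴ *ᵥ w) k
    simpa only [mulVec_mulVec, hE, one_mulVec, mulVec_zero] using this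

end Pool.Agent.Work.MP_8c604c_gt.T
end
end

-- merged part: Pool.Agent.Work.MP_8c604c_gt.T.Chern
section
/-!
The Chern polynomial `cp P r U`: the Euler class of `P ⊗ L` is `cp P r U` evaluated at the Euler
class of the line bundle `L`.
-/

noncomputable section

set_option linter.unusedSectionVars false

namespace Pool.Agent.Work.MP_8c604c_gt.T

open Set Topology Matrix Polynomial Pool.Agent.Work.MP_849ab0_ag.G
open scoped Kronecker

variable {T Y W : Type} [TopologicalSpace T] [TopologicalSpace Y] [TopologicalSpace W]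
variable {J J' K : Type} [Fintype J] [Fintype J'] [Fintype K]
variable {U : Set T} {V : Set Y} {U'' : Set W} {f : T → Y} {g : Y → T} {r r' s m : ℕ}
variable {P P₁ P₂ R : T → Matrix J J ℂ} {Q : T → Matrix J' J' ℂ} {L : Y → Matrix J' J' ℂ}

/-- an even class as an element of `EvR` -/
def evE (x : H U univ) : EvR U := open Classical in if h : Evn x then ⟨x, h⟩ else 0

theorem evE_val {x : H U univ} (h : Evn x) : (evE x : H U univ) = x := by rw [evE, dif_pos h]

theorem evE_coe (x : EvR U) : evE (x : H U univ) = x := Subtype.ext (evE_val x.2)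

/-- pull-back of even classes as a ring homomorphism -/
def pR (h : Ok f U univ V univ) : EvR V →+* EvR U := (pullE h).toRingHom

theorem pR_val (h : Ok f U univ V univ) (x : EvR V) : (pR h x : H U univ) = pull f U univ x.1 := rfl

theorem pR_smul (h : Ok f U univ V univ) (c : ℂ) (x : EvR V) : pR h (c • x) = c • pR h x :=
  map_smul (pullE h) c x

theorem pR_evE (h : Ok f U univ V univ) {x : H V univ} (hx : Evn x) :
    pR h (evE x) = evE (pull f U univ x) :=
  Subtype.ext (by rw [pR_val, evE_val hx, evE_val (hx.pul _ _ _)])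

theorem pR_pR {f' : Y → W} {F : T → W} (h : Ok f U univ V univ) (h' : Ok f' V univ U'' univ)
    (k : Ok F U univ U'' univ) (e : ∀ x ∈ U, f' (f x) = F x) (a : EvR U'') :
    pR h (pR h' a) = pR k a := Subtype.ext (pull_pull' h h' e _)

theorem pR_comp {f' : Y → W} {F : T → W} (h : Ok f U univ V univ) (h' : Ok f' V univ U'' univ)
    (k : Ok F U univ U'' univ) (e : ∀ x ∈ U, f' (f x) = F x) : (pR h).comp (pR h') = pR k :=
  RingHom.ext (pR_pR h h' k e)

theorem pR_id (h : Ok id U univ U univ) : pR h = RingHom.id _ :=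
  RingHom.ext fun _ => Subtype.ext (pull_id _)

/-- the Euler class as an even class -/
def euE (P : T → Matrix J J ℂ) (r : ℕ) (U : Set T) : EvR U := evE (eu P r U)

/-- the defining property of the Chern polynomial -/
def IsCp (P : T → Matrix J J ℂ) (r : ℕ) (U : Set T) (K : Type) [Fintype K] (p : (EvR U)[X]) : Prop :=
  p.natDegree ≤ r ∧ (∀ i : ℕ, IsDeg (2 * r - 2 * i) (p.coeff i : H U univ)) ∧
    euE (fun z : T × Matrix K K ℂ => P z.1 ⊗ₖ z.2) r (U ×ˢ CP K) =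
      p.eval₂ (pR (ok_fst' U (CP K))) (euE Prod.snd 1 (U ×ˢ CP K))

/-- the Chern polynomial -/
def cp (P : T → Matrix J J ℂ) (r : ℕ) (U : Set T) : (EvR U)[X] :=
  Classical.epsilon (IsCp P r U (Fin (r + 1)))

variable [RegularSpace T] [SecondCountableTopology T] [RegularSpace Y] [SecondCountableTopology Y]

theorem CB.euE_val (h : CB P r U) : (euE P r U : H U univ) = eu P r U := evE_val h.evn_eu

theorem euE_map (h : CB P r U) (h' : CB L r V) {A : T → Matrix J' J ℂ} (b : BM P U L V f A)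
    (ok : Ok f U univ V univ) : pR ok (euE L r V) = euE P r U := by
  rw [euE, pR_evE ok h'.evn_eu, eu_map h h' b, euE]

theorem euE_pull (h' : CB L r V) (hU : IsLocallyClosed U) (ok : Ok f U univ V univ) :
    pR ok (euE L r V) = euE (fun x => L (f x)) r U := by
  rw [euE, pR_evE ok h'.evn_eu, eu_pull h' hU ok.ext.continuousOn ok.maps, euE]

theorem cp_lc_prod (hU : IsLocallyClosed U) (hV : IsLocallyClosed V) : IsLocallyClosed (U ×ˢ V) :=
  (hU.preimage continuous_fst).inter (hV.preimage continuous_snd)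

theorem cb_fst (h : CB P r U) (hV : IsLocallyClosed V) :
    CB (fun z : T × Y => P z.1) r (U ×ˢ V) :=
  h.comp (cp_lc_prod h.lc hV) continuousOn_fst fun _ k => k.1

theorem cb_snd (hU : IsLocallyClosed U) : CB Prod.snd 1 (U ×ˢ CP K) :=
  cb_CP.comp (cp_lc_prod hU lc_CP) continuousOn_snd fun _ k => k.2

theorem cp_lh (U : Set T) (K : Type) [Fintype K] :
    Function.Bijective fun a : Fin (Fintype.card K) → H U univ => ∑ i,
      pull Prod.fst (U ×ˢ CP K) univ (a i) * pull Prod.snd (U ×ˢ CP K) univ (xC K ^ (i : ℕ)) :=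
  lh_prod' isCompact_CP (k := fun i : Fin (Fintype.card K) => (i : ℕ) * 2)
    (fun i => IsDeg.powH isDeg_xC i) xC_basis U

theorem cp_val (hU : IsLocallyClosed U) {p : (EvR U)[X]} (hp : p.natDegree < Fintype.card K) :
    ((p.eval₂ (pR (ok_fst' U (CP K))) (euE Prod.snd 1 (U ×ˢ CP K)) : EvR _) : H _ univ) =
      ∑ i : Fin (Fintype.card K), pull Prod.fst (U ×ˢ CP K) univ (p.coeff i : H U univ) *
        pull Prod.snd (U ×ˢ CP K) univ (xC K ^ (i : ℕ)) := by
  rw [eval₂_eq_sum_range' _ hp, Finset.sum_range, AddSubmonoidClass.coe_finset_sum]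
  refine Finset.sum_congr rfl fun i _ => ?_
  rw [MulMemClass.coe_mul, SubmonoidClass.coe_pow, pR_val, (cb_snd hU).euE_val,
    pull_pow (ok_snd' _ _), xC, eu_pull cb_CP (cp_lc_prod hU lc_CP) continuousOn_snd fun _ k => k.2]

theorem exists_isCp (h : CB P r U) (K : Type) [Fintype K] [Nonempty K] : ∃ p, IsCp P r U K p := by
  have hb := (cb_fst h (lc_CP (J := K))).kron1 (cb_snd h.lc)
  obtain ⟨a, ha⟩ := (cp_lh U K).2 (eu (fun z : T × Matrix K K ℂ => P z.1 ⊗ₖ z.2) r (U ×ˢ CP K))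
  have hd : ∀ i : Fin (Fintype.card K), IsDeg (2 * r - 2 * (i : ℕ)) (a i) := by
    have : (fun i : Fin (Fintype.card K) => prj {2 * (r : ℤ) - 2 * (i : ℕ)} (a i)) = a := by
      refine (cp_lh U K).1 ?_
      simp only at ha ⊢
      rw [ha, ← isDeg_iff.1 hb.isDeg_eu, ← ha, map_sum]
      refine Finset.sum_congr rfl fun i _ => ?_
      rw [pull_prj]
      exact cup_prj_left (k := (i : ℕ) * 2) (fun p => by simp only [mem_singleton_iff]; omega) _
        ((IsDeg.powH isDeg_xC i).pull _ _ _)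
    exact fun i => isDeg_iff.2 (congrFun this i)
  have he : ∀ i, Evn (a i) := fun i => IsDeg.evn (hd i) ⟨(r : ℤ) - (i : ℕ), by ring⟩
  set p : (EvR U)[X] := ∑ i : Fin (Fintype.card K), monomial i (evE (a i)) with hp
  have c1 : ∀ i : Fin (Fintype.card K), (p.coeff i : H U univ) = a i := fun i => by
    rw [hp, finset_sum_coeff, Finset.sum_eq_single i (fun j _ k => by
      rw [coeff_monomial, if_neg fun e => k (Fin.ext e)]) (by simp), coeff_monomial_same,
      evE_val (he i)]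
  have c2 : ∀ j, Fintype.card K ≤ j → p.coeff j = 0 := fun j k => by
    rw [hp, finset_sum_coeff]
    exact Finset.sum_eq_zero fun i _ => by rw [coeff_monomial, if_neg (by omega)]
  have c3 : ∀ j : ℕ, IsDeg (2 * r - 2 * j) (p.coeff j : H U univ) := fun j => by
    rcases lt_or_ge j (Fintype.card K) with k | k
    · exact (c1 ⟨j, k⟩).symm ▸ hd ⟨j, k⟩
    · rw [c2 j k]; exact IsDeg.zero _
  refine ⟨p, natDegree_le_iff_coeff_eq_zero.2 fun j k =>
    Subtype.ext ((c3 j).eq_zero_of_neg (by omega)), c3, Subtype.ext ?_⟩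
  have := Fintype.card_pos (α := K)
  rw [hb.euE_val, cp_val h.lc (Nat.lt_of_le_pred this (natDegree_le_iff_coeff_eq_zero.2 fun j k =>
    c2 j (Nat.le_of_pred_lt k))), ← ha]
  simp only [c1]

/-- polynomials are determined by their values on the tautological class -/
theorem poly_ext (hU : IsLocallyClosed U) {p q : (EvR U)[X]} (hp : p.natDegree < Fintype.card K)
    (hq : q.natDegree < Fintype.card K)
    (e : p.eval₂ (pR (ok_fst' U (CP K))) (euE Prod.snd 1 (U ×ˢ CP K)) =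
      q.eval₂ (pR (ok_fst' U (CP K))) (euE Prod.snd 1 (U ×ˢ CP K))) : p = q := by
  have e1 := congrArg Subtype.val e
  rw [cp_val hU hp, cp_val hU hq] at e1
  have e2 := (cp_lh U K).1 e1
  ext1 j
  rcases lt_or_ge j (Fintype.card K) with k | k
  · exact Subtype.ext (congrFun e2 ⟨j, k⟩)
  · rw [coeff_eq_zero_of_natDegree_lt (by omega), coeff_eq_zero_of_natDegree_lt (by omega)]

theorem CB.isCp (h : CB P r U) : IsCp P r U (Fin (r + 1)) (cp P r U) :=
  Classical.epsilon_spec (exists_isCp h _)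

theorem CB.cp_natDegree (h : CB P r U) : (cp P r U).natDegree ≤ r := h.isCp.1

theorem CB.cp_deg (h : CB P r U) (i : ℕ) : IsDeg (2 * r - 2 * i) ((cp P r U).coeff i : H U univ) :=
  h.isCp.2.1 i

theorem IsCp.eval [DecidableEq J'] {p : (EvR U)[X]} (hp : IsCp P r U K p) (h : CB P r U)
    (hL : CB L 1 V) (ok : Ok g V univ U univ) {E : Matrix K J' ℂ} (hE : Eᴴ * E = 1) :
    euE (fun y => P (g y) ⊗ₖ L y) r V = p.eval₂ (pR ok) (euE L 1 V) := by
  classical
  obtain ⟨φ, b⟩ := hL.exists_cls hE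
  have cg := ok.ext.continuousOn
  have cF : ContinuousOn (fun y => (g y, φ y)) V := cg.prodMk b.cf
  have mF : MapsTo (fun y => (g y, φ y)) V (U ×ˢ CP K) := fun y hy => ⟨ok.maps hy, b.maps hy⟩
  have okF := ok_top hL.lc cF mF
  have hg := h.comp hL.lc cg ok.maps
  have b2 : BM L V Prod.snd (U ×ˢ CP K) (fun y => (g y, φ y)) fun _ => E :=
    ⟨cF, mF, b.cA, b.mem, b.inj⟩
  have b1 : BM (fun y => P (g y)) V (fun z : T × Matrix K K ℂ => P z.1) (U ×ˢ CP K)
      (fun y => (g y, φ y)) fun _ => 1 := bm_one cF mF hg.idem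
  rw [← euE_map (hg.kron1 hL) ((cb_fst h lc_CP).kron1 (cb_snd h.lc)) (BM.kron hg hL b1 b2) okF,
    hp.2.2, hom_eval₂, pR_comp okF _ ok fun _ _ => rfl, euE_map hL (cb_snd h.lc) b2 okF]

/-- the universal property -/
theorem cp_eval (h : CB P r U) (hL : CB L 1 V) (ok : Ok g V univ U univ) :
    euE (fun y => P (g y) ⊗ₖ L y) r V = (cp P r U).eval₂ (pR ok) (euE L 1 V) := by
  classical
  obtain ⟨p, hp⟩ := exists_isCp h (J' ⊕ Fin (r + 1))
  have e : cp P r U = p := poly_ext (K := Fin (r + 1)) h.lc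
    (by simpa [Nat.lt_succ_iff] using h.cp_natDegree) (by simpa [Nat.lt_succ_iff] using hp.1)
    (h.isCp.2.2.symm.trans (hp.eval h (cb_snd h.lc) _ (E := fromRows 0 1) (by
      simp [conjTranspose_fromRows_eq_fromCols_conjTranspose, fromCols_mul_fromRows])))
  rw [e]
  exact hp.eval h hL ok (E := fromRows 1 0) (by
    simp [conjTranspose_fromRows_eq_fromCols_conjTranspose, fromCols_mul_fromRows])

theorem cp_eq (h : CB P r U) {p : (EvR U)[X]} (hp : p.natDegree ≤ r)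
    (e : euE (fun z : T × Matrix (Fin (r + 1)) (Fin (r + 1)) ℂ => P z.1 ⊗ₖ z.2) r
      (U ×ˢ CP (Fin (r + 1))) = p.eval₂ (pR (ok_fst' U _)) (euE Prod.snd 1 (U ×ˢ CP (Fin (r + 1))))) :
    cp P r U = p :=
  poly_ext (K := Fin (r + 1)) h.lc (by simpa [Nat.lt_succ_iff] using h.cp_natDegree)
    (by simpa [Nat.lt_succ_iff] using hp) (h.isCp.2.2.symm.trans e)

theorem cp_map (h : CB P r U) (h' : CB L r V) {A : T → Matrix J' J ℂ} (b : BM P U L V f A)
    (ok : Ok f U univ V univ) : (cp L r V).map (pR ok) = cp P r U := by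
  classical
  refine (cp_eq h (natDegree_map_le.trans h'.cp_natDegree) ?_).symm
  have o := ok.comp (ok_fst' U (CP (Fin (r + 1))))
  have hs := cb_snd (K := Fin (r + 1)) h.lc
  have h1 := cb_fst h (lc_CP (J := Fin (r + 1)))
  have h2 := h'.comp hs.lc o.ext.continuousOn o.maps
  rw [eval₂_map, pR_comp _ ok o fun _ _ => rfl, ← cp_eval h' hs o, euE, euE]
  refine congrArg evE (eu_iso (h1.kron1 hs) (h2.kron1 hs) (BM.kron h1 hs (A := fun z => A z.1)
    ⟨continuousOn_id, mapsTo_id _, b.cA.comp continuousOn_fst fun _ k => k.1,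
      fun z k => b.mem z.1 k.1, fun z k => b.inj z.1 k.1⟩
    (bm_one continuousOn_id (mapsTo_id _) hs.idem))).symm

theorem cp_pull (h' : CB L r V) (hU : IsLocallyClosed U) (ok : Ok f U univ V univ) :
    (cp L r V).map (pR ok) = cp (fun x => L (f x)) r U :=
  cp_map (h'.comp hU ok.ext.continuousOn ok.maps) h' (h'.bm_comp ok.ext.continuousOn ok.maps) ok

theorem cp_iso (h : CB P r U) (h' : CB Q r U) {A : T → Matrix J' J ℂ} (b : BM P U Q U id A) :
    cp Q r U = cp P r U := by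
  rw [← cp_map h h' b .refl, pR_id, Polynomial.map_id]

theorem cp_of_le (h : CB P r U) (h' : CB R r U) (e : ∀ x ∈ U, R x * P x = P x) :
    cp R r U = cp P r U := by
  classical
  exact cp_iso h h' (bm_one continuousOn_id (mapsTo_id _) e)

theorem cp_spl (h : CB P (r + r') U) (h₁ : CB P₁ r U) (h₂ : CB P₂ r' U) (e : Spl P P₁ P₂ U) :
    cp P (r + r') U = cp P₁ r U * cp P₂ r' U := by
  refine cp_eq h (natDegree_mul_le.trans (add_le_add h₁.cp_natDegree h₂.cp_natDegree)) ?_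
  have hs := cb_snd (K := Fin (r + r' + 1)) h.lc
  have k := cb_fst h (lc_CP (J := Fin (r + r' + 1)))
  have k₁ := cb_fst h₁ (lc_CP (J := Fin (r + r' + 1)))
  have k₂ := cb_fst h₂ (lc_CP (J := Fin (r + r' + 1)))
  rw [eval₂_mul, ← cp_eval h₁ hs, ← cp_eval h₂ hs]
  refine Subtype.ext ?_
  rw [MulMemClass.coe_mul, (k.kron1 hs).euE_val, (k₁.kron1 hs).euE_val, (k₂.kron1 hs).euE_val]
  exact eu_spl (k.kron1 hs) (k₁.kron1 hs) (k₂.kron1 hs)
    ((e.comp fun _ k => k.1).kron_right k₁ k₂ hs)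

theorem eu_reindex (h : CB P r U) (h' : CB Q r U) (e : J ≃ J')
    (he : ∀ x ∈ U, ∀ i j, Q x (e i) (e j) = P x i j) : eu Q r U = eu P r U := by
  obtain ⟨A, b, -⟩ := exists_BM (P' := Q) h continuousOn_id (mapsTo_id U)
    (Φ := fun _ v i => v (e.symm i)) (by fun_prop) (fun _ _ _ _ _ _ => rfl) (fun _ _ _ _ _ => rfl)
    (fun x hx v k => funext fun i => by
      obtain ⟨i, rfl⟩ := e.surjective i
      rw [e.symm_apply_apply, ← congrFun k i]
      simp only [mulVec, dotProduct, id, ← e.sum_comp, he x hx, e.symm_apply_apply])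
    fun _ _ v _ k => funext fun i => by simpa using congrFun k (e i)
  exact eu_iso h h' b

theorem evE_zero : evE (0 : H U univ) = 0 := evE_coe 0

theorem cp_coeff_zero (h : CB P r U) : (cp P r U).coeff 0 = euE P r U := by
  have hL : CB (fun _ : T => (1 : Matrix Unit Unit ℂ)) 1 U := cb_one h.lc
  have e : euE (fun x => P x ⊗ₖ (1 : Matrix Unit Unit ℂ)) r U = _ :=
    cp_eval h hL (.refl : Ok id U univ U univ)
  rw [euE, euE, eu_eq_zero hL (s := fun _ _ => 1) ⟨continuousOn_const, fun _ _ => one_mulVec _,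
    fun _ _ k => one_ne_zero (congrFun k ())⟩, evE_zero, eval₂_at_zero, pR_id,
    eu_reindex h (h.kron1 hL) (Equiv.prodPUnit J).symm fun _ _ _ _ => by simp] at e
  exact e.symm

theorem cp_rep [DecidableEq K] (h : CB P r U) :
    cp (fun x => (1 : Matrix K K ℂ) ⊗ₖ P x) (Fintype.card K * r) U = cp P r U ^ Fintype.card K := by
  have h1 := (cb_one (J := K) h.lc).kron h
  refine cp_eq h1 (natDegree_pow_le.trans (Nat.mul_le_mul_left _ h.cp_natDegree)) ?_
  have hs := cb_snd (K := Fin (Fintype.card K * r + 1)) h.lc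
  have k := (cb_fst h (lc_CP (J := Fin (Fintype.card K * r + 1)))).kron1 hs
  have k₁ := (cb_fst h1 (lc_CP (J := Fin (Fintype.card K * r + 1)))).kron1 hs
  rw [eval₂_pow, ← cp_eval h hs]
  refine Subtype.ext ?_
  rw [SubmonoidClass.coe_pow, k.euE_val, k₁.euE_val, ← eu_rep k]
  exact (eu_reindex k₁ ((cb_one hs.lc).kron k) (Equiv.prodAssoc _ _ _) fun _ _ i j => by
    simp [mul_assoc]).symm

theorem cp_one [DecidableEq K] (hU : IsLocallyClosed U) :
    cp (fun _ => (1 : Matrix K K ℂ)) (Fintype.card K) U = X ^ Fintype.card K := by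
  refine cp_eq (cb_one hU) (natDegree_X_pow_le _) ?_
  have hs := cb_snd (K := Fin (Fintype.card K + 1)) hU
  rw [eval₂_X_pow]
  refine Subtype.ext ?_
  rw [SubmonoidClass.coe_pow, hs.euE_val, ((cb_one hs.lc).kron1 hs).euE_val, ← eu_rep hs, mul_one]

theorem cp_coeff_top (h : CB P r U) : (cp P r U).coeff r = 1 := by
  have d : IsDeg 0 ((cp P r U).coeff r : H U univ) := by simpa using h.cp_deg r
  refine Subtype.ext (sub_eq_zero.1 ((d.sub isDeg_oneH).eq_zero_of_ev fun x hx => ?_))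
  obtain ⟨A, S, e1, e2⟩ := idem_factor (h.idem x hx) (h.rank x hx)
  have lc : IsLocallyClosed (univ : Set Unit) := isClosed_univ.isLocallyClosed
  have ok : Ok (fun _ : Unit => x) univ univ U univ := ok_top lc continuousOn_const fun _ _ => hx
  have h1 : CB (fun _ : Unit => (1 : Matrix (Fin r) (Fin r) ℂ)) r univ := by
    simpa using cb_one (J := Fin r) lc
  have e := cp_map h1 h (A := fun _ => A) ⟨continuousOn_const, ok.maps, continuousOn_const,
    fun _ _ v _ => frame_mem e1 e2 v, fun _ _ v _ k => frame_inj e1 (k.trans (map_zero _).symm)⟩ ok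
  have e' := cp_one (K := Fin r) lc
  rw [Fintype.card_fin] at e'
  have e3 := congrArg (fun p : (EvR (univ : Set Unit))[X] => ev () (coeff p r).1) (e.trans e')
  simp only [coeff_map, coeff_X_pow_self, pR_val, ev_pull ok (mem_univ _)] at e3
  rw [map_sub, e3]
  exact sub_eq_zero.2 ((ev_one (mem_univ _) subset_rfl).trans (ev_one hx (subset_univ _)).symm)

theorem CB.cp_monic (h : CB P r U) : (cp P r U).Monic :=
  monic_of_natDegree_le_of_coeff_eq_one r h.cp_natDegree (cp_coeff_top h)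

theorem cp_line (h : CB P 1 U) : cp P 1 U = X + C (euE P 1 U) := by
  rw [eq_X_add_C_of_natDegree_le_one h.cp_natDegree, cp_coeff_top h, cp_coeff_zero h, C_1, one_mul]

theorem cp_triv (h : CB P 1 U) {σ : T → J → ℂ} (hs : Sec P σ U ∅) : cp P 1 U = X := by
  rw [cp_line h, euE, eu_eq_zero h hs, evE_zero, C_0, add_zero]

/-- a subbundle divides -/
theorem cp_dvd (h : CB P (r + r') U) (hQ : CB Q r U) {A : T → Matrix J J' ℂ}
    (b : BM Q U P U id A) : cp Q r U ∣ cp P (r + r') U := by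
  obtain ⟨R, hR, e, b'⟩ := b.exists_img hQ
  rw [cp_spl h hR (h.sub hR e) (spl_sub h hR e), cp_iso hQ hR b']
  exact dvd_mul_right _ _

theorem cp_sum (h : CB P r U) (hQ : CB Q r' U) :
    cp (fun x => fromBlocks (P x) 0 0 (Q x)) (r + r') U = cp P r U * cp Q r' U := by
  refine cp_eq (h.sum hQ) (natDegree_mul_le.trans (add_le_add h.cp_natDegree hQ.cp_natDegree)) ?_
  have hs := cb_snd (K := Fin (r + r' + 1)) h.lc
  have k := (cb_fst (h.sum hQ) (lc_CP (J := Fin (r + r' + 1)))).kron1 hs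
  have k₁ := (cb_fst h (lc_CP (J := Fin (r + r' + 1)))).kron1 hs
  have k₂ := (cb_fst hQ (lc_CP (J := Fin (r + r' + 1)))).kron1 hs
  rw [eval₂_mul, ← cp_eval h hs, ← cp_eval hQ hs]
  refine Subtype.ext ?_
  rw [MulMemClass.coe_mul, k.euE_val, k₁.euE_val, k₂.euE_val, ← eu_sum k₁ k₂]
  exact (eu_reindex k (k₁.sum k₂) (Equiv.sumProdDistrib _ _ _) fun _ _ ⟨i, a⟩ ⟨j, b⟩ => by
    cases i <;> cases j <;> simp).symm

end Pool.Agent.Work.MP_8c604c_gt.T
end
end

-- merged part: Pool.Agent.Work.MP_8c604c_gt.T.Cx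
section
/-!
Complexification of real bundles.

PLAN.  `cre`, `cim` are the real and imaginary parts of a coordinate vector in the basis
`Module.finBasis`.  `cmx_mulVec`: expand `cre v = ∑ (v j).re • b j` (`Basis.equivFun_symm_apply`), `map_sum`.
`cre_cxm`, `cim_cxm`: `LinearMap.toMatrix_mulVec_repr`.  `RB.cb_cx`: the rank of an idempotent is its trace
(`LinearMap.IsProj.trace`, `LinearMap.trace_eq_matrix_trace`, `Matrix.trace` commutes with `map`), continuity
entrywise (`LinearMap.toMatrix_apply`).  `cp_cx_dvd`, `cp_cx_sum`: the block sum of `cx V₁` and `cx V₂` maps to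
`cx V` by `fromCols (cxm B₁) (cxm B₂)` (`fromBlocks_mulVec`, `fromCols_mulVec_sumElim`), then `cp_sum`,
`cp_dvd`, `cp_iso`.  `cp_cx_one`: `cx` of the identity is `1`, `cp_one`.
-/

noncomputable section

set_option linter.unusedSectionVars false

namespace Pool.Agent.Work.MP_8c604c_gt.T

open Set Topology Matrix Polynomial Module Pool.Agent.Work.MP_849ab0_ag.G

variable {A A₁ A₂ : Type} [NormedAddCommGroup A] [NormedSpace ℝ A] [FiniteDimensional ℝ A]
  [NormedAddCommGroup A₁] [NormedSpace ℝ A₁] [FiniteDimensional ℝ A₁]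
  [NormedAddCommGroup A₂] [NormedSpace ℝ A₂] [FiniteDimensional ℝ A₂] {K : Type} [Fintype K]

/-- the complex matrix of a real linear map -/
def cxm (B : A₁ →L[ℝ] A) : Matrix (Fin (finrank ℝ A)) (Fin (finrank ℝ A₁)) ℂ :=
  (LinearMap.toMatrix (finBasis ℝ A₁) (finBasis ℝ A) (B : A₁ →ₗ[ℝ] A)).map ((↑) : ℝ → ℂ)

/-- the real part -/
def cre (v : Fin (finrank ℝ A) → ℂ) : A := (finBasis ℝ A).equivFun.symm fun i => (v i).re

/-- the imaginary part -/
def cim (v : Fin (finrank ℝ A) → ℂ) : A := (finBasis ℝ A).equivFun.symm fun i => (v i).im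

/-- the complex linear extension of a real linear map -/
def cmx (β : A →ₗ[ℝ] K → ℂ) : Matrix K (Fin (finrank ℝ A)) ℂ := fun k j => β (finBasis ℝ A j) k

theorem cx_eq {T : Type} (V : T → A →L[ℝ] A) (x : T) : cx V x = cxm (V x) := rfl

theorem cmx_mulVec (β : A →ₗ[ℝ] K → ℂ) (v : Fin (finrank ℝ A) → ℂ) :
    cmx β *ᵥ v = β (cre v) + Complex.I • β (cim v) := by
  funext k
  simp only [cre, cim, Basis.equivFun_symm_apply, map_sum, map_smul, Pi.add_apply, Pi.smul_apply,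
    Finset.sum_apply, smul_eq_mul, Complex.real_smul, Finset.mul_sum, ← Finset.sum_add_distrib,
    mulVec, dotProduct]
  refine Finset.sum_congr rfl fun j _ => ?_
  change β (finBasis ℝ A j) k * v j = _
  linear_combination (-β (finBasis ℝ A j) k) * Complex.re_add_im (v j)

theorem cx_real (B : A₁ →L[ℝ] A) (w : Fin (finrank ℝ A₁) → ℝ) :
    (finBasis ℝ A).equivFun.symm
      (LinearMap.toMatrix (finBasis ℝ A₁) (finBasis ℝ A) (B : A₁ →ₗ[ℝ] A) *ᵥ w) =
      B ((finBasis ℝ A₁).equivFun.symm w) := by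
  obtain ⟨a, rfl⟩ := (finBasis ℝ A₁).equivFun.surjective w
  rw [LinearEquiv.symm_apply_apply, LinearEquiv.symm_apply_eq]
  exact LinearMap.toMatrix_mulVec_repr _ _ _ a

theorem cre_cxm (B : A₁ →L[ℝ] A) (v : Fin (finrank ℝ A₁) → ℂ) : cre (cxm B *ᵥ v) = B (cre v) := by
  rw [cre, cre, ← cx_real]
  refine congrArg _ (funext fun i => ?_)
  simp only [cxm, mulVec, dotProduct, Matrix.map_apply, Complex.re_sum, Complex.re_ofReal_mul]

theorem cim_cxm (B : A₁ →L[ℝ] A) (v : Fin (finrank ℝ A₁) → ℂ) : cim (cxm B *ᵥ v) = B (cim v) := by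
  rw [cim, cim, ← cx_real]
  refine congrArg _ (funext fun i => ?_)
  simp only [cxm, mulVec, dotProduct, Matrix.map_apply, Complex.im_sum, Complex.im_ofReal_mul]

theorem cre_add (v w : Fin (finrank ℝ A) → ℂ) : cre (v + w) = cre v + cre w := by
  rw [cre, cre, cre, ← map_add]
  rfl

theorem cim_add (v w : Fin (finrank ℝ A) → ℂ) : cim (v + w) = cim v + cim w := by
  rw [cim, cim, cim, ← map_add]
  rfl

theorem cre_ext {v w : Fin (finrank ℝ A) → ℂ} (h : cre v = cre w) (h' : cim v = cim w) : v = w := by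
  funext i
  exact Complex.ext (congrFun ((finBasis ℝ A).equivFun.symm.injective h) i)
    (congrFun ((finBasis ℝ A).equivFun.symm.injective h') i)

theorem cx_re_zero : cre (0 : Fin (finrank ℝ A) → ℂ) = 0 := (finBasis ℝ A).equivFun.symm.map_zero

theorem cx_im_zero : cim (0 : Fin (finrank ℝ A) → ℂ) = 0 := (finBasis ℝ A).equivFun.symm.map_zero

theorem cre_eq_zero {v : Fin (finrank ℝ A) → ℂ} : v = 0 ↔ cre v = 0 ∧ cim v = 0 := by
  constructor
  · rintro rfl
    exact ⟨cx_re_zero, cx_im_zero⟩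
  · exact fun h => cre_ext (h.1.trans cx_re_zero.symm) (h.2.trans cx_im_zero.symm)

theorem cxm_fix {B : A →L[ℝ] A} {v : Fin (finrank ℝ A) → ℂ} :
    cxm B *ᵥ v = v ↔ B (cre v) = cre v ∧ B (cim v) = cim v := by
  rw [← cre_cxm, ← cim_cxm]
  exact ⟨fun h => by rw [h]; exact ⟨rfl, rfl⟩, fun h => cre_ext h.1 h.2⟩

theorem continuous_cre : Continuous (cre : _ → A) := by
  exact (finBasis ℝ A).equivFun.symm.toLinearMap.continuous_of_finiteDimensional.comp
    (continuous_pi fun i => Complex.continuous_re.comp (continuous_apply i))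

theorem continuous_cim : Continuous (cim : _ → A) := by
  exact (finBasis ℝ A).equivFun.symm.toLinearMap.continuous_of_finiteDimensional.comp
    (continuous_pi fun i => Complex.continuous_im.comp (continuous_apply i))

theorem continuous_cxm : Continuous (cxm : (A₁ →L[ℝ] A) → _) := by
  refine continuous_pi fun i => continuous_pi fun j => ?_
  simp only [cxm, Matrix.map_apply, LinearMap.toMatrix_apply]
  exact Complex.continuous_ofReal.comp
    (((finBasis ℝ A).coord i).continuous_of_finiteDimensional.comp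
      (ContinuousLinearMap.apply ℝ A (finBasis ℝ A₁ j)).continuous)

theorem cx_mul (B : A₁ →L[ℝ] A) (C : A₂ →L[ℝ] A₁) : cxm B * cxm C = cxm (B.comp C) := by
  refine Matrix.ext_of_mulVec_single fun j => ?_
  rw [← mulVec_mulVec]
  refine cre_ext ?_ ?_
  · rw [cre_cxm, cre_cxm, cre_cxm]; rfl
  · rw [cim_cxm, cim_cxm, cim_cxm]; rfl

theorem cx_trace {B : A →L[ℝ] A} (h : ∀ a, B (B a) = B a) :
    (cxm B).trace = (finrank ℝ (LinearMap.range (B : A →ₗ[ℝ] A)) : ℕ) := by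
  have h1 : IsIdempotentElem (B : A →ₗ[ℝ] A) := LinearMap.ext h
  have h2 := ((LinearMap.isProj_range_iff_isIdempotentElem _).2 h1).trace
  rw [LinearMap.trace_eq_matrix_trace ℝ (finBasis ℝ A)] at h2
  have h3 := AddMonoidHom.map_trace Complex.ofRealHom
    (LinearMap.toMatrix (finBasis ℝ A) (finBasis ℝ A) (B : A →ₗ[ℝ] A))
  rw [h2, map_natCast] at h3
  exact h3.symm

theorem cx_id : cxm (1 : A →L[ℝ] A) = 1 := by
  refine Matrix.ext_of_mulVec_single fun j => ?_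
  rw [one_mulVec, cxm_fix]
  exact ⟨rfl, rfl⟩

variable {T Y : Type} [TopologicalSpace T] [TopologicalSpace Y] {U : Set T} {U' : Set Y}
  {V : T → A →L[ℝ] A} {V₁ : T → A₁ →L[ℝ] A₁} {V₂ : T → A₂ →L[ℝ] A₂} {r r₁ r₂ s : ℕ}

theorem RB.cb_cx (h : RB V r U) : CB (cx V) r U := by
  have i : ∀ x ∈ U, cx V x * cx V x = cx V x := fun x hx => by
    rw [cx_eq, cx_mul]
    exact congrArg cxm (ContinuousLinearMap.ext (h.idem x hx))
  exact ⟨h.lc, continuous_cxm.comp_continuousOn h.cont, i, fun x hx =>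
    idem_rank (i x hx) (by rw [cx_eq, cx_trace (h.idem x hx), h.rank x hx])⟩

theorem BMap.bm_cx {V' : Y → A₁ →L[ℝ] A₁} {f : Y → T} {B : Y → A₁ →L[ℝ] A}
    (b : BMap V' U' V U f B) : BM (cx V') U' (cx V) U f fun y => cxm (B y) := by
  refine ⟨b.cf, b.mf, continuous_cxm.comp_continuousOn b.cB, fun y hy v hv => ?_,
    fun y hy v hv e => ?_⟩
  · obtain ⟨h1, h2⟩ := cxm_fix.1 hv
    rw [cx_eq, cxm_fix, cre_cxm, cim_cxm]
    exact ⟨b.mem y hy _ h1, b.mem y hy _ h2⟩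
  · obtain ⟨h1, h2⟩ := cxm_fix.1 hv
    rw [cre_eq_zero, cre_cxm, cim_cxm] at e
    exact cre_eq_zero.2 ⟨b.inj y hy _ h1 e.1, b.inj y hy _ h2 e.2⟩

theorem cx_bm_sum {B₁ : T → A₁ →L[ℝ] A} {B₂ : T → A₂ →L[ℝ] A}
    (b₁ : BMap V₁ U V U id B₁) (b₂ : BMap V₂ U V U id B₂)
    (dj : ∀ x ∈ U, ∀ a₁ a₂, V₁ x a₁ = a₁ → V₂ x a₂ = a₂ → B₁ x a₁ + B₂ x a₂ = 0 → a₁ = 0 ∧ a₂ = 0) :
    BM (fun x => fromBlocks (cx V₁ x) 0 0 (cx V₂ x)) U (cx V) U id
      fun x => fromCols (cxm (B₁ x)) (cxm (B₂ x)) := by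
  refine ⟨continuousOn_id, mapsTo_id _, ?_, fun x hx v hv => ?_, fun x hx v hv e => ?_⟩
  · refine continuousOn_pi.2 fun i => continuousOn_pi.2 fun j => ?_
    rcases j with j | j
    · exact continuousOn_pi.1 (continuousOn_pi.1 b₁.bm_cx.cA i) j
    · exact continuousOn_pi.1 (continuousOn_pi.1 b₂.bm_cx.cA i) j
  · obtain ⟨h1, h2⟩ := VBS_blk.1 hv
    rw [fromCols_mulVec, mulVec_add, b₁.bm_cx.mem x hx _ h1, b₂.bm_cx.mem x hx _ h2]
  · obtain ⟨h1, h2⟩ := VBS_blk.1 hv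
    obtain ⟨h3, h4⟩ := cxm_fix.1 h1
    obtain ⟨h5, h6⟩ := cxm_fix.1 h2
    rw [fromCols_mulVec, cre_eq_zero, cre_add, cim_add, cre_cxm, cre_cxm, cim_cxm, cim_cxm] at e
    obtain ⟨k1, k2⟩ := dj x hx _ _ h3 h5 e.1
    obtain ⟨k3, k4⟩ := dj x hx _ _ h4 h6 e.2
    exact VBS_zero (cre_eq_zero.2 ⟨k1, k3⟩) (cre_eq_zero.2 ⟨k2, k4⟩)

variable [RegularSpace T] [SecondCountableTopology T] [RegularSpace Y] [SecondCountableTopology Y]

theorem cp_cx_map {V' : Y → A₁ →L[ℝ] A₁} {f : Y → T} {B : Y → A₁ →L[ℝ] A} (h : RB V r U)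
    (h' : RB V' r U') (b : BMap V' U' V U f B) (ok : Ok f U' univ U univ) :
    (cp (cx V) r U).map (pR ok) = cp (cx V') r U' := cp_map h'.cb_cx h.cb_cx b.bm_cx ok

theorem cp_cx_dvd {B₁ : T → A₁ →L[ℝ] A} {B₂ : T → A₂ →L[ℝ] A} (h : RB V (r₁ + r₂ + s) U)
    (h₁ : RB V₁ r₁ U) (h₂ : RB V₂ r₂ U) (b₁ : BMap V₁ U V U id B₁) (b₂ : BMap V₂ U V U id B₂)
    (dj : ∀ x ∈ U, ∀ a₁ a₂, V₁ x a₁ = a₁ → V₂ x a₂ = a₂ → B₁ x a₁ + B₂ x a₂ = 0 → a₁ = 0 ∧ a₂ = 0) :
    cp (cx V₁) r₁ U * cp (cx V₂) r₂ U ∣ cp (cx V) (r₁ + r₂ + s) U := by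
  rw [← cp_sum h₁.cb_cx h₂.cb_cx]
  exact cp_dvd h.cb_cx (h₁.cb_cx.sum h₂.cb_cx) (cx_bm_sum b₁ b₂ dj)

theorem cp_cx_sum {B₁ : T → A₁ →L[ℝ] A} {B₂ : T → A₂ →L[ℝ] A} (h : RB V (r₁ + r₂) U)
    (h₁ : RB V₁ r₁ U) (h₂ : RB V₂ r₂ U) (b₁ : BMap V₁ U V U id B₁) (b₂ : BMap V₂ U V U id B₂)
    (dj : ∀ x ∈ U, ∀ a₁ a₂, V₁ x a₁ = a₁ → V₂ x a₂ = a₂ → B₁ x a₁ + B₂ x a₂ = 0 → a₁ = 0 ∧ a₂ = 0) :
    cp (cx V) (r₁ + r₂) U = cp (cx V₁) r₁ U * cp (cx V₂) r₂ U := by
  rw [← cp_sum h₁.cb_cx h₂.cb_cx]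
  exact cp_iso (h₁.cb_cx.sum h₂.cb_cx) h.cb_cx (cx_bm_sum b₁ b₂ dj)

theorem rb_one (hU : IsLocallyClosed U) : RB (fun _ : T => (1 : ℝ →L[ℝ] ℝ)) 1 U := by
  refine ⟨hU, continuousOn_const, fun _ _ _ => rfl, fun _ _ => ?_⟩
  rw [LinearMap.range_eq_top.2 fun a => ⟨a, rfl⟩, finrank_top, finrank_self]

theorem cp_cx_one (hU : IsLocallyClosed U) :
    cp (cx fun _ : T => (1 : ℝ →L[ℝ] ℝ)) 1 U = X := by
  have e : (cx fun _ : T => (1 : ℝ →L[ℝ] ℝ)) = fun _ => 1 := funext fun _ => cx_id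
  have c : Fintype.card (Fin (finrank ℝ ℝ)) = 1 := by rw [Fintype.card_fin, finrank_self]
  have k := cp_one (K := Fin (finrank ℝ ℝ)) hU
  rw [c, pow_one] at k
  rw [e, k]

end Pool.Agent.Work.MP_8c604c_gt.T
end
end

-- merged part: Pool.Agent.Work.MP_8c604c_gt.T.TM
section
/-!
The Chern polynomial of the complexified tangent bundle of `HP^n`.

PLAN.  Write `P = cm p`, `P' = P.map star`, `J = Fin (n+1) × Fin 2`.
* `cp_cm`: monic of degree `2` (`cp_coeff_top`, `CB.cp_natDegree`), coefficient `0` is `uE` (`cp_coeff_zero`),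
  coefficient `1` has degree `2`, so it is `0` (`CB.cp_deg`, `MH_deg_zero`).  `cp_cm_conj`: the same, `eu_conj`.
* `cp_ad`: pull back to `pb cm (MH n)` (injective: `CB.pb_inj`, `Polynomial.map_injective`; `cp_pull`).  There
  `L = Prod.snd`, `L' = P - L * P` (`CB.sub`, `spl_sub`), `x = euE L`, `x' = euE L'`,
  `(X + C x) (X + C x') = X ^ 2 + C u` (`cp_spl`, `cp_line`), so `x' = -x`, `u = -x ^ 2`.  Split `P ⊗ P'` into four
  lines (`Spl.kron_right`, `Spl.kron_left`, `Spl.conj`, `CB.kron`, `CB.kron1`), Euler classes `0, 2x, -2x, 0` by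
  `eu_kron_line`, `eu_conj`.
* `bm_tan`: `A p = ((1 - P) ⊗ₖ P') * cmx β`, `β a (i, j) = cm a i j` (real linear).  `(A ⊗ₖ B) *ᵥ (uncurry M)` is
  `uncurry (A * M * Bᵀ)`, and `P'ᵀ = P` by `cm_herm`.  Injective: if `M a + I • M b = 0` with
  `M a = (1 - P) * cm a * P`, then apply it to `v` and to `jq v`; `cm X *ᵥ jq v = jq (cm X *ᵥ v)` (`cv_vc`, `cv_j_smul`,
  `cm_mulVec`, `rm_csmul`), so `M a = M b = 0`.  For `p = pr z`: `M a *ᵥ cv z = cv (hor z (rm z a))` (`rm_pr`), and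
  `a = fderiv ℝ pr z (rm z a)` (`tanP_pr`), `dpr_eq_zero`.  Use `cxm_fix`, `cmx_mulVec`, `cre_eq_zero`.
* `cp_tan`: `1 ⊗ P'` splits as `(1 - P) ⊗ P'` and `P ⊗ P'` (`spl_sub` with `cb_one`, `CB.sub`), `cp_rep`, `cp_iso`.
-/

noncomputable section

set_option linter.unusedSectionVars false

namespace Pool.Agent.Work.MP_8c604c_gt.T

open Set Topology Matrix Polynomial Pool.Agent.Work.MP_849ab0_ag.G
open scoped Kronecker

variable {n : ℕ}

/-- `uH` as an even class -/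
def uE (n : ℕ) : EvR (MH n) := euE cm 2 (MH n)

theorem uE_val : (uE n : H (MH n) univ) = uH n := ql_MH.toCB.euE_val

theorem tm_quad {J : Type} [Fintype J] {P : AM n → Matrix J J ℂ} (h : CB P 2 (MH n)) :
    cp P 2 (MH n) = X ^ 2 + C (euE P 2 (MH n)) := by
  have h1 : (cp P 2 (MH n)).coeff 1 = 0 :=
    Subtype.ext (MH_deg_zero (h.cp_deg 1) (Or.inl (by norm_num)))
  refine Polynomial.ext fun i => ?_
  rcases i with _ | _ | _ | i
  · simp [cp_coeff_zero h]
  · simp [h1, coeff_X_pow, coeff_C]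
  · simp [cp_coeff_top h, coeff_X_pow, coeff_C]
  · rw [coeff_eq_zero_of_natDegree_lt (h.cp_natDegree.trans_lt (by omega))]
    simp [coeff_X_pow, coeff_C]

theorem cp_cm : cp cm 2 (MH n) = X ^ 2 + C (uE n) :=
  tm_quad ql_MH.toCB

theorem cp_cm_conj : cp (fun p => (cm p).map star) 2 (MH n) = X ^ 2 + C (uE n) := by
  rw [tm_quad ql_MH.toCB.conj]
  congr 2
  refine Subtype.ext ?_
  rw [ql_MH.toCB.conj.euE_val, eu_conj ql_MH.toCB, uE_val, neg_one_sq, one_smul, uH]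

theorem tm_line {T J : Type} [TopologicalSpace T] [RegularSpace T] [SecondCountableTopology T]
    [Fintype J] {U : Set T} {A B : T → Matrix J J ℂ} (hA : CB A 1 U) (hB : CB B 1 U) :
    cp (fun x => A x ⊗ₖ (B x).map star) 1 U = X + C (euE A 1 U - euE B 1 U) := by
  rw [cp_line (hA.kron1 hB.conj)]
  congr 2
  refine Subtype.ext ?_
  rw [(hA.kron1 hB.conj).euE_val, eu_kron_line hA hB.conj, eu_conj hB, AddSubgroupClass.coe_sub,
    hA.euE_val, hB.euE_val, pow_one, neg_one_smul, sub_eq_add_neg]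

theorem cp_ad : cp (fun p => cm p ⊗ₖ (cm p).map star) (2 * 2) (MH n) =
    X ^ 2 * (X ^ 2 + C (4 * uE n)) := by
  have h := (ql_MH (n := n)).toCB
  have ok := ok_pb cm (MH n)
  have inj : Function.Injective (pR ok) := fun a b e =>
    Subtype.ext (h.pb_inj two_pos (congrArg Subtype.val e))
  have hP : CB (fun z : AM n × _ => cm z.1) 2 (pb cm (MH n)) :=
    h.comp h.lc_pb continuousOn_fst fun _ k => k.1
  have hL := h.cb_pb
  have hL' := CB.sub (r := 1) (r' := 1) hP hL fun _ k => k.2.2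
  have sp := spl_sub hP hL fun _ k => k.2.2
  have h1 := cp_pull h h.lc_pb ok
  rw [cp_spl (r := 1) (r' := 1) hP hL hL' sp, cp_line hL, cp_line hL', cp_cm] at h1
  apply Polynomial.map_injective _ inj
  rw [cp_pull (h.kron h.conj) h.lc_pb ok]
  refine (cp_spl (r := 2) (r' := 2) (hP.kron hP.conj) (hL.kron hP.conj) (hL'.kron hP.conj)
    (sp.kron_right hL hL' hP.conj)).trans ?_
  rw [cp_spl (r := 1) (r' := 1) (hL.kron hP.conj) (hL.kron1 hL.conj) (hL.kron1 hL'.conj)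
      (sp.conj.kron_left hL.conj hL'.conj hL),
    cp_spl (r := 1) (r' := 1) (hL'.kron hP.conj) (hL'.kron1 hL.conj) (hL'.kron1 hL'.conj)
      (sp.conj.kron_left hL.conj hL'.conj hL'),
    tm_line hL hL, tm_line hL hL', tm_line hL' hL, tm_line hL' hL']
  generalize euE Prod.snd 1 (pb cm (MH n)) = x at h1 ⊢
  generalize euE (fun z : AM n × _ => cm z.1 - z.2 * cm z.1) 1 (pb cm (MH n)) = x' at h1 ⊢
  simp only [Polynomial.map_add, Polynomial.map_mul, Polynomial.map_pow, map_X, map_C, map_mul,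
    map_ofNat, Polynomial.map_ofNat, map_sub] at h1 ⊢
  have e0 := congrArg (eval 0) h1
  have e1 := congrArg (eval 1) h1
  simp only [eval_add, eval_mul, eval_pow, eval_X, eval_C] at e0 e1
  have e2 : x' = -x := by linear_combination e0 - e1
  have e3 : pR ok (uE n) = -x ^ 2 := by rw [e2] at e0; linear_combination e0
  rw [e2, e3, map_neg, map_neg, map_pow]
  ring

/-- `cm` as a real linear map -/
def tm_beta (n : ℕ) : AM n →ₗ[ℝ] ((Fin (n + 1) × Fin 2) × (Fin (n + 1) × Fin 2) → ℂ) where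
  toFun a i := cm a i.1 i.2
  map_add' a b := funext fun i => by
    simp only [cm, Pi.add_apply]
    split_ifs <;> apply Complex.ext <;> simp [qa, qb, add_comm]
  map_smul' r a := funext fun i => by
    simp only [cm, Pi.smul_apply]
    split_ifs <;> apply Complex.ext <;> simp [qa, qb]

theorem tm_kron {J : Type} [Fintype J] (A B M : Matrix J J ℂ) (i j : J) :
    ((A ⊗ₖ B) *ᵥ fun i => M i.1 i.2) (i, j) = (A * M * Bᵀ) i j := by
  rw [kron_apply, Matrix.mul_assoc]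
  simp [mul_apply, mulVec, dotProduct, mul_comm]

theorem tm_hor {z : EH n} (hz : z ≠ 0) (a : AM n) (c : Quaternion ℝ) :
    ((1 - cm (pr z)) * cm a * cm (pr z)) *ᵥ cv (c • z) = cv (c • H.hor z (rm z a)) := by
  rw [← mulVec_mulVec, ← mulVec_mulVec, hpn_fix hz, cm_mulVec, sub_mulVec, one_mulVec, cm_mulVec,
    rm_pr, ← H.hor_smul, ← rm_csmul, H.hor_def]
  exact ((HPa_cvL _).map_sub _ _).symm

theorem tm_jq {J : Type} [Fintype J] {u w : J × Fin 2 → ℂ} (h : u + Complex.I • w = 0)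
    (h' : jq u + Complex.I • jq w = 0) : u = 0 ∧ w = 0 := by
  have h0 : jq (0 : J × Fin 2 → ℂ) = 0 := by simpa using jq_smul 0 (0 : J × Fin 2 → ℂ)
  have h1 := congrArg jq h'
  rw [jq_add, jq_smul, jq_jq, jq_jq, h0, Complex.star_def, Complex.conj_I, neg_smul, smul_neg,
    neg_neg] at h1
  have h2 : u = 0 := by
    have : (2 : ℂ) • u = 0 := by rw [two_smul]; linear_combination (exp := 1) h - h1
    exact (smul_eq_zero.1 this).resolve_left two_ne_zero
  rw [h2, zero_add] at h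
  exact ⟨h2, (smul_eq_zero.1 h).resolve_left Complex.I_ne_zero⟩

theorem tm_cb : CB (fun p : AM n => 1 - cm p) (2 * n) (MH n) := by
  have h1 := cb_one (J := Fin (n + 1) × Fin 2) (lc_MH (n := n))
  rw [show Fintype.card (Fin (n + 1) × Fin 2) = 2 + 2 * n by simp; ring] at h1
  simpa only [Matrix.mul_one] using CB.sub h1 ql_MH.toCB fun _ _ => Matrix.one_mul _

theorem bm_tan : ∃ A, BM (cx tanP) (MH n) (fun p => (1 - cm p) ⊗ₖ (cm p).map star) (MH n) id A := by
  have h := (tm_cb (n := n)).kron ql_MH.toCB.conj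
  refine ⟨fun p => ((1 - cm p) ⊗ₖ (cm p).map star) * cmx (tm_beta n), continuousOn_id, mapsTo_id _,
    con_mul h.cont continuousOn_const, fun p hp v _ => ?_, ?_⟩
  · rw [← mulVec_mulVec]
    exact h.fix hp _
  rintro _ ⟨z, hz, rfl⟩ v hv e
  obtain ⟨ha, hb⟩ := cxm_fix.1 hv
  have ht : ((cm (pr z)).map star)ᵀ = cm (pr z) := cm_herm (pr_mem hz)
  have e1 : (1 - cm (pr z)) * cm (cre v) * cm (pr z) +
      Complex.I • ((1 - cm (pr z)) * cm (cim v) * cm (pr z)) = 0 := by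
    ext i j
    rw [← mulVec_mulVec, cmx_mulVec, mulVec_add, mulVec_smul] at e
    have e2 := congrFun e (i, j)
    have k1 := tm_kron (1 - cm (pr z)) ((cm (pr z)).map star) (cm (cre v)) i j
    have k2 := tm_kron (1 - cm (pr z)) ((cm (pr z)).map star) (cm (cim v)) i j
    rw [ht] at k1 k2
    rw [Matrix.add_apply, Matrix.smul_apply, ← k1, ← k2]
    exact e2
  have e2 := fun c : Quaternion ℝ => congrArg (· *ᵥ cv (c • z)) e1
  simp only [add_mulVec, smul_mulVec, zero_mulVec, tm_hor hz] at e2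
  have e3 := e2 1
  have e4 := e2 qJ
  rw [one_smul, one_smul] at e3
  rw [cv_j_smul, cv_j_smul] at e4
  obtain ⟨k1, k2⟩ := tm_jq e3 e4
  rw [tanP_pr hz] at ha hb
  exact cre_eq_zero.2 ⟨ha.symm.trans ((dpr_eq_zero hz).2 (cv_eq_zero.1 k1)),
    hb.symm.trans ((dpr_eq_zero hz).2 (cv_eq_zero.1 k2))⟩

theorem cp_tan : X ^ 2 * (X ^ 2 + C (4 * uE n)) * cp (cx tanP) (4 * n) (MH n) =
    (X ^ 2 + C (uE n)) ^ (2 * n + 2) := by
  have h := (ql_MH (n := n)).toCB
  obtain ⟨A, b⟩ := bm_tan (n := n)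
  have h2 := (tm_cb (n := n)).kron h.conj
  rw [show 2 * n * 2 = 4 * n by ring] at h2
  have h1 := (cb_one (J := Fin (n + 1) × Fin 2) (lc_MH (n := n))).kron h.conj
  have h3 := cp_rep (K := Fin (n + 1) × Fin 2) h.conj
  have sp := spl_sub (cb_one (J := Fin (n + 1) × Fin 2) (lc_MH (n := n))) h
    fun _ _ => Matrix.one_mul _
  simp only [Matrix.mul_one] at sp
  rw [show Fintype.card (Fin (n + 1) × Fin 2) = 2 * n + 2 by simp; ring,
    show (2 * n + 2) * 2 = 2 * 2 + 4 * n by ring] at h1 h3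
  rw [← cp_ad, ← cp_iso rb_tanP.cb_cx h2 b, ← cp_cm_conj, ← h3]
  exact (cp_spl h1 (h.kron h.conj) h2 (sp.kron_right h tm_cb h.conj)).symm

end Pool.Agent.Work.MP_8c604c_gt.T
end
end
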