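import Pool.Agent.Work.MP_8c604c_gt.T.ThF

/-! The Euler class of a complexification is a nonzero multiple of the square of the real Euler
class. -/

noncomputable section

set_option linter.unusedSectionVars false

namespace Pool.Agent.Work.MP_8c604c_gt.T

open Set Topology Filter Matrix Pool.Agent.Work.MP_849ab0_ag.G

section Gen

variable {X Y F : Type} [TopologicalSpace X] [TopologicalSpace Y] [TopologicalSpace F] [Zero F]
  {π : X → Y} {E Z : Set X} {U : Set Y}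

theorem rcx_fib_cup (hπ : Ok π E univ U univ) {σ : F → X} (o : Ok σ univ {0} E Z) {y : Y}
    (hy : y ∈ U) (e : ∀ v, π (σ v) = y) (a : H U univ) (τ : H E Z) :
    pull σ univ {0} (cup E Z (pull π E univ a) τ) = ev y a • pull σ univ {0} τ := by
  have o1 : Ok (fun _ : F => y) univ univ {y} univ :=
    .of_mem (.of_continuous continuous_const _) (fun _ _ => rfl) fun _ _ _ => trivial
  have o2 : Ok id {y} univ U univ := ok_fgt (singleton_subset_iff.2 hy)
  rw [pull_cm o, pull_pull' (F := fun _ => y) (Ok.top o) hπ fun v _ => e v,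
    ← pull_pull' (F := fun _ => y) o1 o2 fun _ _ => rfl, pt_eq (mem_univ y) (pull id {y} univ a),
    map_smul, pull_one o1 (subset_univ _), map_smul, LinearMap.smul_apply,
    one_cup' (subset_univ _), ev_pull o2 rfl]
  rfl

/-- A class of the degree of a Thom class is determined by its restrictions to slices. -/
theorem eq_zero_of_slice [RegularSpace X] [SecondCountableTopology X] [RegularSpace Y]
    [SecondCountableTopology Y] (hπ : Ok π E univ U univ) {τ : H E Z} {k : ℤ} (hτ : IsDeg k τ)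
    (hb : Function.Bijective fun a : H U univ => cup E Z (pull π E univ a) τ) {c : H E Z}
    (hc : IsDeg k c) (h : ∀ y ∈ U, ∃ σ : F → X, Ok σ univ {0} E Z ∧ (∀ v, π (σ v) = y) ∧
      pull σ univ {0} τ ≠ 0 ∧ pull σ univ {0} c = 0) : c = 0 := by
  obtain ⟨a, rfl⟩ := hb.2 c
  have : a = 0 := (isDeg_of_cup hτ hb.1 (by rwa [zero_add])).eq_zero_of_ev fun y hy => by
    obtain ⟨σ, h1, h2, h3, h4⟩ := h y hy
    rw [rcx_fib_cup hπ h1 hy h2] at h4
    exact (smul_eq_zero.1 h4).resolve_right h3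
  simp [this]

/-- The product of two local classes is nonzero. -/
theorem Fib.prod_ne [RegularSpace F] [SecondCountableTopology F] [T1Space F] {F' : Type}
    [TopologicalSpace F'] [Zero F'] {ω : H (univ : Set F) {0}} (h : ω ≠ 0) {d : ℤ}
    {ω' : H (univ : Set F') {0}} (h' : Fib d ω') :
    cup (univ : Set (F × F')) {0} (pull Prod.fst univ {z | z.1 = 0} ω)
      (pull Prod.snd univ {z | z.2 = 0} ω') ≠ 0 := fun k => h (by
  refine (injective_iff_map_eq_zero ((cup (univ ×ˢ univ) ({0} ×ˢ {0})).flip _ ∘ₗ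
    pull Prod.fst (univ ×ˢ univ) ({0} ×ˢ univ))).1
      (h'.triv F univ {0} (.of_isClosed isClosed_singleton _)).1 ω ?_
  have := congrArg (pull id (univ ×ˢ univ) ({0} ×ˢ {0})) k
  have o1 : Ok id (univ ×ˢ univ) ({0} ×ˢ univ) univ {z : F × F' | z.1 = 0} :=
    .id (subset_univ _) fun _ _ k => ⟨k, trivial⟩
  have o2 : Ok id (univ ×ˢ univ) (univ ×ˢ {0}) univ {z : F × F' | z.2 = 0} :=
    .id (subset_univ _) fun _ _ k => ⟨trivial, k⟩
  have o0 : Ok id (univ ×ˢ univ) ({0} ×ˢ {0}) univ {(0 : F × F')} :=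
    .id (subset_univ _) fun _ _ k => by rw [k]; exact ⟨rfl, rfl⟩
  have o3 : Ok Prod.fst univ {z : F × F' | z.1 = 0} univ {0} :=
    .of_mem (.of_continuous continuous_fst _) (fun _ _ => trivial) fun _ _ k => k
  have o4 : Ok Prod.snd univ {z : F × F' | z.2 = 0} univ {0} :=
    .of_mem (.of_continuous continuous_snd _) (fun _ _ => trivial) fun _ _ k => k
  have cu : CupOK univ {z : F × F' | z.1 = 0} univ {z | z.2 = 0} univ {0} :=
    cupOK fun _ _ a b => Prod.ext a b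
  rwa [map_zero, pull_cup' o0 o1 o2 (fun _ _ a b => ⟨a.1, b.2⟩) cu,
    pull_pull' (F := Prod.fst) o1 o3 fun _ _ => rfl,
    pull_pull' (F := Prod.snd) o2 o4 fun _ _ => rfl] at this)

end Gen

variable {X A : Type} [TopologicalSpace X] [RegularSpace X] [SecondCountableTopology X]
  [NormedAddCommGroup A] [NormedSpace ℝ A] [FiniteDimensional ℝ A] {r : ℕ}
  {V : X → A →L[ℝ] A} {U : Set X} {o : X → A [⋀^Fin r]→L[ℝ] ℝ}

/-- the part `l` (real or imaginary) of a vector of the complexification -/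
def rcxP (A : Type) [NormedAddCommGroup A] [NormedSpace ℝ A] [FiniteDimensional ℝ A]
    (l : ℂ →ₗ[ℝ] ℝ) : (Fin (Module.finrank ℝ A) → ℂ) →ₗ[ℝ] A :=
  (Module.finBasis ℝ A).equivFun.symm.toLinearMap ∘ₗ l.compLeft _

theorem rcxP_repr (l : ℂ →ₗ[ℝ] ℝ) (w : Fin (Module.finrank ℝ A) → ℂ) :
    ⇑((Module.finBasis ℝ A).repr (rcxP A l w)) = fun i => l (w i) :=
  (Module.finBasis ℝ A).equivFun.apply_symm_apply _

theorem rcxP_cx (l : ℂ →ₗ[ℝ] ℝ) (x : X) (w : Fin (Module.finrank ℝ A) → ℂ) :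
    rcxP A l (cx V x *ᵥ w) = V x (rcxP A l w) := by
  refine (Module.finBasis ℝ A).repr.injective (DFunLike.coe_injective ?_)
  have := LinearMap.toMatrix_mulVec_repr (Module.finBasis ℝ A) (Module.finBasis ℝ A)
    (V x : A →ₗ[ℝ] A) (rcxP A l w)
  refine (rcxP_repr l _).trans (Eq.trans ?_ this)
  funext i
  simp only [rcxP_repr, mulVec, dotProduct, cx, map_apply, map_sum, ← Complex.real_smul, map_smul,
    smul_eq_mul]

theorem rcxP_ext {w w' : Fin (Module.finrank ℝ A) → ℂ}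
    (h1 : rcxP A Complex.reLm w = rcxP A Complex.reLm w')
    (h2 : rcxP A Complex.imLm w = rcxP A Complex.imLm w') : w = w' := funext fun i =>
  Complex.ext (congrFun ((rcxP_repr _ w).symm.trans (h1 ▸ rcxP_repr _ w')) i)
    (congrFun ((rcxP_repr _ w).symm.trans (h2 ▸ rcxP_repr _ w')) i)

/-- the complexification of a frame -/
def rcxT (S : (Fin r → ℝ) →ₗ[ℝ] A) : (Fin r → ℂ) →ₗ[ℂ] Fin (Module.finrank ℝ A) → ℂ :=
  ((LinearMap.toMatrix (Pi.basisFun ℝ (Fin r)) (Module.finBasis ℝ A) S).map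
    ((↑) : ℝ → ℂ)).mulVecLin

theorem rcxP_T (l : ℂ →ₗ[ℝ] ℝ) (S : (Fin r → ℝ) →ₗ[ℝ] A) (w : Fin r → ℂ) :
    rcxP A l (rcxT S w) = S fun i => l (w i) := by
  refine (Module.finBasis ℝ A).repr.injective (DFunLike.coe_injective ?_)
  have := LinearMap.toMatrix_mulVec_repr (Pi.basisFun ℝ (Fin r)) (Module.finBasis ℝ A) S
    fun i => l (w i)
  refine (rcxP_repr l _).trans (Eq.trans ?_ this)
  funext i
  simp only [rcxT, mulVecLin_apply, mulVec, dotProduct, map_apply, map_sum, ← Complex.real_smul,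
    map_smul, smul_eq_mul, Pi.basisFun_repr]

/-- `ℝ ^ r × ℝ ^ r → ℂ ^ r` -/
def rcxJ (r : ℕ) : ((Fin r → ℝ) × (Fin r → ℝ)) ≃ₗ[ℝ] (Fin r → ℂ) where
  toFun z i := ⟨z.1 i, z.2 i⟩
  invFun w := (fun i => (w i).re, fun i => (w i).im)
  map_add' _ _ := rfl
  map_smul' _ _ := funext fun i => Complex.ext (by simp) (by simp)
  left_inv _ := rfl
  right_inv _ := rfl

theorem rcx_ok (l : ℂ →ₗ[ℝ] ℝ) : Ok (fun z => (z.1, rcxP A l z.2)) (tot (cx V) U)
    {z | rcxP A l z.2 = 0} (totR V U) (zs X A) :=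
  .of_mem (.of_continuous (continuous_fst.prodMk
    ((rcxP A l).continuous_of_finiteDimensional.comp continuous_snd)) _)
    (fun z k => ⟨k.1, by rw [← rcxP_cx, k.2]⟩) fun _ _ k => k

theorem euR_sq (h : RB V r U) (ho : Ori V r U o) (hc : CB (cx V) r U) :
    ∃ c : ℂ, c ≠ 0 ∧ euR V r o U ^ 2 = c • eu (cx V) r U := by
  have f1 := (fib_orient (Fin r)).lin (rcxJ r)
  have f0 := Fib.prod_ne (orR_ne_zero r) (fib_orR r)
  obtain ⟨c, e⟩ := f1.gen (cup univ {0} (pull Prod.fst univ {z | z.1 = 0} (orR r))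
    (pull Prod.snd univ {z | z.2 = 0} (orR r)))
  have sp := thR_spec h ho
  have cu : CupOK (tot (cx V) U) {z | rcxP A Complex.reLm z.2 = 0} (tot (cx V) U)
      {z | rcxP A Complex.imLm z.2 = 0} (tot (cx V) U) (zs X _) := cupOK fun z _ a b =>
    rcxP_ext (a.trans (map_zero _).symm) (b.trans (map_zero _).symm)
  have key : cup (tot (cx V) U) (zs X _)
      (pull (fun z => (z.1, rcxP A Complex.reLm z.2)) (tot (cx V) U)
        {z | rcxP A Complex.reLm z.2 = 0} (thR V r U o))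
      (pull (fun z => (z.1, rcxP A Complex.imLm z.2)) (tot (cx V) U)
        {z | rcxP A Complex.imLm z.2 = 0} (thR V r U o)) = c • th (cx V) r U := by
    refine sub_eq_zero.1 (eq_zero_of_slice (F := (Fin r → ℝ) × (Fin r → ℝ))
      (hc.ok_fst fun _ _ _ => mem_univ _) hc.isThom_th.1 hc.thm_bij
      (IsDeg.sub (by rw [two_mul]; exact (sp.1.pull _ _ _).cup (sp.1.pull _ _ _) _ _)
        (hc.isThom_th.1.smul c)) fun y hy => ?_)
    obtain ⟨W, T, L, k1, k2⟩ := h.exists_frame hy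
    obtain ⟨S, i, m⟩ : ∃ S : (Fin r → ℝ) →ₗ[ℝ] A, Function.Injective S ∧ ∀ v, V y (S v) = S v :=
      ⟨T y, k2.inj ⟨hy, k1⟩, k2.mem y ⟨hy, k1⟩⟩
    have i' : Function.Injective (rcxT S) := fun w w' k => by
      have a : ∀ (l : ℂ →ₗ[ℝ] ℝ) j, l (w j) = l (w' j) := fun l =>
        congrFun (i (by rw [← rcxP_T, k, rcxP_T]) : (fun j => l (w j)) = fun j => l (w' j))
      exact funext fun j => Complex.ext (a Complex.reLm j) (a Complex.imLm j)
    have m' : ∀ w, cx V y *ᵥ rcxT S w = rcxT S w := fun w =>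
      rcxP_ext (by rw [rcxP_cx, rcxP_T, m]) (by rw [rcxP_cx, rcxP_T, m])
    have o1 : Ok (fun w => (y, rcxT S w)) univ {0} (tot (cx V) U) (zs X _) :=
      .of_mem (.of_continuous (continuous_const.prodMk (rcxT S).continuous_of_finiteDimensional) _)
        (fun w _ => ⟨hy, m' w⟩) fun _ _ k => i' (k.trans (map_zero _).symm)
    have o2 : Ok (rcxJ r) univ {0} univ {0} := ok_lin (T := (rcxJ r).toLinearMap) (rcxJ r).injective
    have o3 := o1.comp o2
    have e1 : pull ((fun w => (y, rcxT S w)) ∘ rcxJ r) univ {0} (th (cx V) r U) =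
        pull (rcxJ r) univ {0} (orient (Fin r)) := by
      rw [← pull_pull o2 o1, hc.isThom_th.2 y hy _ i' m']
    have o4 : ∀ (l : ℂ →ₗ[ℝ] ℝ) (q : (Fin r → ℝ) × (Fin r → ℝ) → Fin r → ℝ), Continuous q →
        (∀ z, (fun j => l (rcxJ r z j)) = q z) →
        Ok ((fun w => (y, rcxT S w)) ∘ rcxJ r) univ {z | q z = 0} (tot (cx V) U)
          {z | rcxP A l z.2 = 0} ∧ pull ((fun w => (y, rcxT S w)) ∘ rcxJ r) univ {z | q z = 0}
            (pull (fun z => (z.1, rcxP A l z.2)) (tot (cx V) U) {z | rcxP A l z.2 = 0}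
              (thR V r U o)) = (SignType.sign (o y fun i => S (Pi.single i 1)) : ℂ) •
                pull q univ {z | q z = 0} (orR r) := fun l q cq eq => by
      have a : Ok ((fun w => (y, rcxT S w)) ∘ rcxJ r) univ {z | q z = 0} (tot (cx V) U)
          {z | rcxP A l z.2 = 0} := .of_mem o3.ext o3.maps fun z _ k =>
        i (((congrArg S (eq z)).symm.trans ((rcxP_T l S _).symm.trans k)).trans (map_zero _).symm)
      have b : Ok q univ {z | q z = 0} univ {0} :=
        .of_mem (.of_continuous cq _) (fun _ _ => mem_univ _) fun _ _ k => k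
      refine ⟨a, ?_⟩
      rw [pull_pull' (F := fun z => (y, S (q z))) a (rcx_ok l) fun z _ =>
        Prod.ext rfl ((rcxP_T l S _).trans (congrArg S (eq z))), ← map_smul, ← sp.2 y hy S i m,
        pull_pull' (F := fun z => (y, S (q z))) b (ok_fibR hy i m) fun _ _ => rfl]
    obtain ⟨a1, b1⟩ := o4 Complex.reLm Prod.fst continuous_fst fun _ => rfl
    obtain ⟨a2, b2⟩ := o4 Complex.imLm Prod.snd continuous_snd fun _ => rfl
    refine ⟨_, o3, fun _ => rfl, e1 ▸ f1.ne_zero, ?_⟩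
    have s2 : (SignType.sign (o y fun i => S (Pi.single i 1)) : ℂ) *
        (SignType.sign (o y fun i => S (Pi.single i 1)) : ℂ) = 1 := by
      rcases lt_or_gt_of_ne (ho.ne y hy _ (indep_single i) fun _ => m _) with k | k
      · simp [sign_neg k]
      · simp [sign_pos k]
    rw [map_sub, map_smul, e1, ← e, pull_cup' o3 a1 a2 (fun _ _ a b => Prod.ext a b) cu, b1, b2,
      map_smul, map_smul, LinearMap.smul_apply, smul_smul, s2, one_smul, sub_self]
  refine ⟨c, fun k => f0 (by rw [e, k, zero_smul]), ?_⟩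
  have z : ∀ Z, Ok (fun x => (x, (0 : X → _) x)) U univ (tot (cx V) U) Z := fun Z =>
    .of_mem (.of_continuous (by fun_prop) _) (fun _ k => ⟨k, mulVec_zero _⟩) fun _ _ _ => trivial
  rw [eu, ec, ← map_smul, ← key, pull_cup' (z _) (z _) (z _) (fun _ _ _ k => k) cu,
    pull_pull' (F := fun x => (x, (0 : X → A) x)) (z _) (rcx_ok _) fun _ _ => by simp,
    pull_pull' (F := fun x => (x, (0 : X → A) x)) (z _) (rcx_ok _) fun _ _ => by simp, sq]
  rfl

variable {n : ℕ}

theorem TD0.eu_cx_WF (D : TD0 n 3) (hn : 1 ≤ n) (hc : CB (cx D.WF) 4 D.F) :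
    ∃ c : ℂ, c ≠ 0 ∧ eu (cx D.WF) 4 D.F = c • pull id D.F univ ((vv n - uu n) ^ 2) := by
  obtain ⟨c, c0, e⟩ := euR_sq D.rb_WF (D.ori_F hn) hc
  obtain ⟨b, b0, e'⟩ := D.euR_WF hn
  refine ⟨c⁻¹ * b ^ 2, mul_ne_zero (inv_ne_zero c0) (pow_ne_zero _ b0), ?_⟩
  rw [pull_pow (ok_fgt (D.F_sub.trans Od_sub)), mul_smul, ← smul_pow, ← e', e, inv_smul_smul₀ c0]

theorem TD0.eu_cx_W (D : TD0 n 3) (hn : 1 ≤ n) (hc : CB (cx D.WF) 4 D.F) :
    ∃ c : ℂ, c ≠ 0 ∧ eu (cx D.W) 4 (Od n) = c • pull id (Od n) univ ((vv n - uu n) ^ 2) := by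
  obtain ⟨c, c0, e⟩ := D.eu_cx_WF hn hc
  refine ⟨c, c0, ?_⟩
  rw [← D.hat_pull, ← map_smul, ← e, eu_pull hc lc_Od D.cont_hat D.hat_mem]
  rfl

end Pool.Agent.Work.MP_8c604c_gt.T
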