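import Mathlib

-- merged part: Pool.Agent.Work.MP_8c604c_gt.Q.AlgH
section
/-!
Algebra for the volume bound on quaternionic projective space: homogeneous polynomials in two
classes `u`, `v` with `u ^ (n+1) = v ^ (n+1) = 0` and `h_n (u, v) = 0`.
-/

noncomputable section

namespace Pool.Agent.Work.MP_8c604c_gt.Q

open MvPolynomial Finset

/-- Integral polynomials in two variables. -/
abbrev P2 : Type := MvPolynomial (Fin 2) ℤ

/-- The exponent of `x ^ r y ^ k`. -/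
def ex (r k : ℕ) : Fin 2 →₀ ℕ := Finsupp.single 0 r + Finsupp.single 1 k

@[simp] theorem ex_zero (r k : ℕ) : ex r k 0 = r := by simp [ex]

@[simp] theorem ex_one (r k : ℕ) : ex r k 1 = k := by simp [ex]

theorem ex_eq (d : Fin 2 →₀ ℕ) : d = ex (d 0) (d 1) := by
  ext i; fin_cases i <;> simp

theorem eq_ex {d : Fin 2 →₀ ℕ} {r k : ℕ} : d = ex r k ↔ d 0 = r ∧ d 1 = k :=
  ⟨fun h => by simp [h], fun h => by rw [ex_eq d, h.1, h.2]⟩

theorem degree_two (d : Fin 2 →₀ ℕ) : d.degree = d 0 + d 1 := by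
  rw [Finsupp.degree_eq_sum, Fin.sum_univ_two]

/-- A two step recurrence. -/
def sq {R : Type*} [CommRing R] (p q : R) : ℕ → R
  | 0 => 1
  | 1 => p
  | k + 2 => p * sq p q (k + 1) + q * sq p q k

theorem map_sq {R S F : Type*} [CommRing R] [CommRing S] [FunLike F R S] [RingHomClass F R S]
    (f : F) (p q : R) : ∀ k, f (sq p q k) = sq (f p) (f q) k
  | 0 => by simp [sq]
  | 1 => by simp [sq]
  | k + 2 => by simp [sq, map_sq f p q (k + 1), map_sq f p q k]

theorem hom_sq {p q : P2} (hp : p.IsHomogeneous 1) (hq : q.IsHomogeneous 2) :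
    ∀ k, (sq p q k).IsHomogeneous k
  | 0 => isHomogeneous_one _ _
  | 1 => hp
  | k + 2 => by
    have h1 := hp.mul (hom_sq hp hq (k + 1))
    have h2 := hq.mul (hom_sq hp hq k)
    rw [show 1 + (k + 1) = k + 2 by ring] at h1
    rw [show 2 + k = k + 2 by ring] at h2
    exact h1.add h2

/-- Evaluation at `u`, `v`. -/
def ev {A : Type*} [CommRing A] (u v : A) : P2 →+* A := eval₂Hom (Int.castRingHom A) ![u, v]

@[simp] theorem ev_X0 {A : Type*} [CommRing A] (u v : A) : ev u v (X 0) = u := by simp [ev]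

@[simp] theorem ev_X1 {A : Type*} [CommRing A] (u v : A) : ev u v (X 1) = v := by simp [ev]

@[simp] theorem ev_C {A : Type*} [CommRing A] (u v : A) (c : ℤ) : ev u v (C c) = c := by
  simp [ev]

theorem ev_mon {A : Type*} [CommRing A] (u v : A) (d : Fin 2 →₀ ℕ) (c : ℤ) :
    ev u v (monomial d c : P2) = c • (u ^ d 0 * v ^ d 1) := by
  rw [ev, eval₂Hom_monomial, Finsupp.prod_fintype _ _ (by simp), Fin.prod_univ_two]
  simp

/-- A homogeneous polynomial as a sum over the exponent of the first variable. -/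
theorem ev_hom {A : Type*} [CommRing A] (u v : A) {f : P2} {m : ℕ} (hf : f.IsHomogeneous m) :
    ev u v f = ∑ i ∈ range (m + 1), coeff (ex i (m - i)) f • (u ^ i * v ^ (m - i)) := by
  conv_lhs => rw [f.as_sum]
  rw [map_sum]
  simp only [ev_mon]
  have hs : f.support ⊆ (range (m + 1)).image fun i => ex i (m - i) := fun d hd => by
    have h := hf.degree_eq_sum_deg_support hd
    have h' : d.degree = m := by
      by_contra hc
      exact (mem_support_iff.1 hd) (hf.coeff_eq_zero hc)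
    rw [degree_two] at h'
    exact mem_image.2 ⟨d 0, mem_range.2 (by omega), (eq_ex.2 ⟨rfl, by omega⟩).symm⟩
  rw [sum_subset hs fun d _ hd => by rw [notMem_support_iff.1 hd, zero_smul],
    sum_image fun i _ j _ h => by simpa using congrArg (fun d => d 0) h]
  simp

section Ring

variable {A : Type*} [CommRing A] {u v : A} {n : ℕ}

theorem mon_zero (hu : u ^ (n + 1) = 0) (hv : v ^ (n + 1) = 0) {i j : ℕ} (h : n < i ∨ n < j) :
    u ^ i * v ^ j = 0 := by
  rcases h with h | h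
  · rw [pow_eq_zero_of_le h hu, zero_mul]
  · rw [pow_eq_zero_of_le h hv, mul_zero]

theorem top_zero (hu : u ^ (n + 1) = 0) (hv : v ^ (n + 1) = 0)
    (hh : ∑ i ∈ range (n + 1), u ^ i * v ^ (n - i) = 0) : u ^ n * v ^ n = 0 := by
  have h := congrArg (fun z => u ^ n * z) hh
  simp only [mul_sum, mul_zero] at h
  rw [sum_eq_single 0] at h
  · simpa using h
  · intro i hi h0
    rw [← mul_assoc, ← pow_add]
    exact mon_zero hu hv (Or.inl (by omega))
  · simp

theorem top_anti (hn : 1 ≤ n) (hu : u ^ (n + 1) = 0) (hv : v ^ (n + 1) = 0)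
    (hh : ∑ i ∈ range (n + 1), u ^ i * v ^ (n - i) = 0) :
    u ^ (n - 1) * v ^ n = -(u ^ n * v ^ (n - 1)) := by
  have h := congrArg (fun z => u ^ (n - 1) * z) hh
  simp only [mul_sum, mul_zero] at h
  rw [sum_eq_add_of_mem 0 1 (by simp) (by simp; omega) (by simp)] at h
  · rw [← mul_assoc, ← mul_assoc, ← pow_add, ← pow_add, show n - 1 + 1 = n by omega] at h
    simp only [add_zero, Nat.sub_zero] at h
    exact eq_neg_of_add_eq_zero_left h
  · intro i hi h0
    rw [← mul_assoc, ← pow_add]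
    exact mon_zero hu hv (Or.inl (by omega))

/-- Homogeneous polynomials of degree `2 n` vanish. -/
theorem hom_zero (hu : u ^ (n + 1) = 0) (hv : v ^ (n + 1) = 0)
    (hh : ∑ i ∈ range (n + 1), u ^ i * v ^ (n - i) = 0) {f : P2} (hf : f.IsHomogeneous (2 * n)) :
    ev u v f = 0 := by
  rw [ev_hom u v hf]
  refine sum_eq_zero fun i hi => ?_
  by_cases h : i = n
  · rw [h, show 2 * n - n = n by omega, top_zero hu hv hh, smul_zero]
  · rw [mon_zero hu hv (by omega), smul_zero]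

theorem coeff_sub_mul (hn : 1 ≤ n) (f : P2) :
    coeff (ex n n) ((X 1 - X 0) * f) = coeff (ex n (n - 1)) f - coeff (ex (n - 1) n) f := by
  have h1 : ex n n = Finsupp.single 1 1 + ex n (n - 1) := eq_ex.2 (by simp; omega) |>.symm
  have h0 : ex n n = Finsupp.single 0 1 + ex (n - 1) n := eq_ex.2 (by simp; omega) |>.symm
  rw [sub_mul, coeff_sub]
  congr 1
  · rw [h1, coeff_X_mul]
  · rw [h0, coeff_X_mul]

/-- Homogeneous polynomials of degree `2 n - 1` are multiples of `u ^ n v ^ (n - 1)`. -/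
theorem hom_eval (hn : 1 ≤ n) (hu : u ^ (n + 1) = 0) (hv : v ^ (n + 1) = 0)
    (hh : ∑ i ∈ range (n + 1), u ^ i * v ^ (n - i) = 0) {f : P2}
    (hf : f.IsHomogeneous (2 * n - 1)) :
    ev u v f = coeff (ex n n) ((X 1 - X 0) * f) • (u ^ n * v ^ (n - 1)) := by
  rw [ev_hom u v hf, coeff_sub_mul hn,
    sum_eq_add_of_mem n (n - 1) (by simp; omega) (by simp; omega) (by omega)]
  · rw [show 2 * n - 1 - n = n - 1 by omega, show 2 * n - 1 - (n - 1) = n by omega,
      top_anti hn hu hv hh, sub_smul, smul_neg, sub_eq_add_neg]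
  · intro i hi h0
    rw [mem_range] at hi
    rw [mon_zero hu hv (by omega), smul_zero]

end Ring

/-- Coefficients after setting the second variable to `1`. -/
theorem deh {f : P2} {m : ℕ} (hf : f.IsHomogeneous m) {i : ℕ} (hi : i ≤ m) :
    (ev (Polynomial.X : Polynomial ℤ) 1 f).coeff i = coeff (ex i (m - i)) f := by
  rw [ev_hom _ _ hf, Polynomial.finsetSum_coeff, sum_eq_single i]
  · simp
  · intro j _ h
    simp [Polynomial.coeff_X_pow, h.symm]
  · intro h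
    exact absurd (mem_range.2 (by omega)) h

theorem hom_s : (X 0 + X 1 : P2).IsHomogeneous 1 :=
  (isHomogeneous_X _ _).add (isHomogeneous_X _ _)

theorem hom_d : (X 0 - X 1 : P2).IsHomogeneous 1 :=
  (isHomogeneous_X _ _).sub (isHomogeneous_X _ _)

theorem hom_d' : (X 1 - X 0 : P2).IsHomogeneous 1 :=
  (isHomogeneous_X _ _).sub (isHomogeneous_X _ _)

end Pool.Agent.Work.MP_8c604c_gt.Q
end
end

-- merged part: Pool.Agent.Work.MP_8c604c_gt.Q.AlgN
section
/-!
The bound for the Weinstein number in the ring model of the space of geodesics.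
-/

noncomputable section

namespace Pool.Agent.Work.MP_8c604c_gt.Q

open Finset Polynomial

theorem kraw {n i j : ℕ} (h : i + 2 * j = 2 * n) :
    0 ≤ ((X + 1 : ℤ[X]) ^ i * (-(X - 1) ^ 2) ^ j).coeff n := by
  obtain ⟨m, rfl⟩ : ∃ m, n = j + m := ⟨n - j, by omega⟩
  obtain rfl : i = 2 * m := by omega
  have d1 : ((X - 1 : ℤ[X])).natDegree ≤ 1 := by compute_degree
  have d2 : ((X + 1 : ℤ[X])).natDegree ≤ 1 := by compute_degree
  have r1 : reflect 1 (X - 1 : ℤ[X]) = -(X - 1) := by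
    rw [reflect_sub, reflect_one_X, reflect_one]; ring
  have r2 : reflect 1 (X + 1 : ℤ[X]) = X + 1 := by
    rw [reflect_add, reflect_one_X, reflect_one]; ring
  have rp : ∀ (f : ℤ[X]) (k : ℕ), f.natDegree ≤ 1 → reflect k (f ^ k) = reflect 1 f ^ k := by
    intro f k hf
    induction k with
    | zero => simp
    | succ k ih =>
      rw [pow_succ, reflect_mul _ _ (natDegree_pow_le_of_le k hf |>.trans (by omega)) hf, ih,
        pow_succ]
  have hr : reflect (j + m) ((X - 1 : ℤ[X]) ^ j * (X + 1) ^ m) = (-(X - 1)) ^ j * (X + 1) ^ m := by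
    rw [reflect_mul _ _ (natDegree_pow_le_of_le j d1 |>.trans (by omega))
      (natDegree_pow_le_of_le m d2 |>.trans (by omega)), rp _ _ d1, rp _ _ d2, r1, r2]
  have e : (X + 1 : ℤ[X]) ^ (2 * m) * (-(X - 1) ^ 2) ^ j =
      ((X - 1) ^ j * (X + 1) ^ m) * reflect (j + m) ((X - 1) ^ j * (X + 1) ^ m) := by
    rw [hr, show (-(X - 1 : ℤ[X]) ^ 2) = (X - 1) * (-(X - 1)) by ring, mul_pow]; ring
  rw [e, coeff_mul]
  refine sum_nonneg fun x hx => ?_
  rw [HasAntidiagonal.mem_antidiagonal] at hx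
  rw [coeff_reflect, revAt_le (by omega), show j + m - x.2 = x.1 by omega]
  exact mul_self_nonneg _

theorem major {n : ℕ} {al la : ℤ} (h0 : la ≠ 0) (ha : |al| ≤ 2 * |la|) : ∀ k i j : ℕ,
    i + 2 * j + k = 2 * n →
    |((X + 1 : ℤ[X]) ^ i * (-(X - 1) ^ 2) ^ j *
        sq (C al * (X + 1)) (C la * (X - 1) ^ 2) k).coeff n| ≤
      |la| ^ k * ((X + 1 : ℤ[X]) ^ i * (-(X - 1) ^ 2) ^ j *
        sq (2 * (X + 1)) (-(X - 1) ^ 2) k).coeff n
  | 0, i, j, h => by
    simp only [sq, mul_one, pow_zero, one_mul]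
    rw [abs_of_nonneg (kraw (by omega))]
  | 1, i, j, h => by
    have k0 := kraw (n := n) (i := i + 1) (j := j) (by omega)
    have e1 : (X + 1 : ℤ[X]) ^ i * (-(X - 1) ^ 2) ^ j * (C al * (X + 1)) =
      C al * ((X + 1) ^ (i + 1) * (-(X - 1) ^ 2) ^ j) := by ring
    have e2 : (X + 1 : ℤ[X]) ^ i * (-(X - 1) ^ 2) ^ j * (2 * (X + 1)) =
      C 2 * ((X + 1) ^ (i + 1) * (-(X - 1) ^ 2) ^ j) := by rw [map_ofNat]; ring
    simp only [sq]
    rw [e1, e2, coeff_C_mul, coeff_C_mul, abs_mul, abs_of_nonneg k0]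
    linarith only [ha, k0, mul_nonneg_of_nonpos_of_nonpos (Mathlib.Tactic.Linarith.sub_nonpos_of_le ha) (Mathlib.Tactic.Linarith.sub_nonpos_of_le k0)]
  | k + 2, i, j, h => by
    have h1 := major (n := n) h0 ha (k + 1) (i + 1) j (by omega)
    have h2 := major (n := n) h0 ha k i (j + 1) (by omega)
    have hl : 1 ≤ |la| := Int.one_le_abs h0
    have hp : 0 < |la| ^ k := by positivity
    set A1 := sq (C al * (X + 1)) (C la * (X - 1) ^ 2) (k + 1) with hA1
    set A0 := sq (C al * (X + 1)) (C la * (X - 1) ^ 2) k with hA0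
    set G1 := sq (2 * (X + 1 : ℤ[X])) (-(X - 1) ^ 2) (k + 1) with hG1
    set G0 := sq (2 * (X + 1 : ℤ[X])) (-(X - 1) ^ 2) k with hG0
    have e1 : (X + 1 : ℤ[X]) ^ i * (-(X - 1) ^ 2) ^ j *
        (C al * (X + 1) * A1 + C la * (X - 1) ^ 2 * A0) =
      C al * ((X + 1) ^ (i + 1) * (-(X - 1) ^ 2) ^ j * A1) -
        C la * ((X + 1) ^ i * (-(X - 1) ^ 2) ^ (j + 1) * A0) := by ring
    have e2 : (X + 1 : ℤ[X]) ^ i * (-(X - 1) ^ 2) ^ j *
        (2 * (X + 1) * G1 + -(X - 1) ^ 2 * G0) =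
      C 2 * ((X + 1) ^ (i + 1) * (-(X - 1) ^ 2) ^ j * G1) +
        (X + 1) ^ i * (-(X - 1) ^ 2) ^ (j + 1) * G0 := by rw [map_ofNat]; ring
    simp only [sq]
    rw [← hA1, ← hA0, ← hG1, ← hG0, e1, e2, coeff_sub, coeff_add, coeff_C_mul, coeff_C_mul,
      coeff_C_mul]
    set x1 := ((X + 1) ^ (i + 1) * (-(X - 1) ^ 2) ^ j * A1).coeff n
    set x0 := ((X + 1) ^ i * (-(X - 1) ^ 2) ^ (j + 1) * A0).coeff n
    set z1 := ((X + 1) ^ (i + 1) * (-(X - 1) ^ 2) ^ j * G1).coeff n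
    set z0 := ((X + 1) ^ i * (-(X - 1) ^ 2) ^ (j + 1) * G0).coeff n
    have hz0 : 0 ≤ z0 := by
      by_contra hc
      have := mul_neg_of_pos_of_neg hp (not_le.1 hc)
      linarith only [h2, this, abs_nonneg x0]
    have t1 : |al * x1| ≤ 2 * |la| * (|la| ^ (k + 1) * z1) := by
      rw [abs_mul]
      exact mul_le_mul ha h1 (abs_nonneg _) (by positivity)
    have t0 : |la * x0| ≤ |la| ^ (k + 2) * z0 := by
      rw [abs_mul]
      calc |la| * |x0| ≤ |la| * (|la| ^ k * z0) := by gcongr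
        _ = |la| ^ (k + 1) * z0 := by ring
        _ ≤ |la| ^ (k + 2) * z0 := mul_le_mul_of_nonneg_right (pow_le_pow_right₀ hl (by omega)) hz0
    calc |al * x1 - la * x0| ≤ |al * x1| + |la * x0| := abs_sub _ _
      _ ≤ 2 * |la| * (|la| ^ (k + 1) * z1) + |la| ^ (k + 2) * z0 := add_le_add t1 t0
      _ = _ := by ring

theorem expand_sq : ∀ k : ℕ, 4 * X * expand ℤ 2 (sq (2 * (X + 1 : ℤ[X])) (-(X - 1) ^ 2) k) =
    (X + 1) ^ (2 * k + 2) - (X - 1) ^ (2 * k + 2)
  | 0 => by simp [sq]; ring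
  | 1 => by simp [sq, map_ofNat]; ring
  | k + 2 => by
    have h1 := expand_sq (k + 1)
    have h0 := expand_sq k
    simp only [sq, map_add, map_mul, map_neg, map_pow, map_sub, map_one, expand_X, map_ofNat]
    linear_combination (2 * (X ^ 2 + 1)) * h1 - (X ^ 2 - 1) ^ 2 * h0

theorem coeff_sq (k i : ℕ) : 2 * (sq (2 * (X + 1 : ℤ[X])) (-(X - 1) ^ 2) k).coeff i =
    ((2 * k + 2).choose (2 * i + 1) : ℤ) := by
  have h := congrArg (fun p => p.coeff (2 * i + 1)) (expand_sq k)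
  simp only
    [show ∀ p : ℤ[X], 4 * X * p = C 4 * (X * p) from fun p => by rw [map_ofNat]; ring] at h
  rw [coeff_C_mul, coeff_X_mul, coeff_expand_mul' (by norm_num)] at h
  generalize (sq (2 * (X + 1 : ℤ[X])) (-(X - 1) ^ 2) k).coeff i = z at h ⊢
  rw [coeff_sub, coeff_X_add_one_pow,
    show (X - 1 : ℤ[X]) = X + C (-1) by simp [sub_eq_add_neg], coeff_X_add_C_pow] at h
  by_cases hi : i ≤ k
  · rw [Odd.neg_one_pow ⟨k - i, by omega⟩] at h
    linarith only [h]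
  · rw [Nat.choose_eq_zero_of_lt (by omega)] at h ⊢
    simp at h ⊢
    exact h

theorem std_value {n : ℕ} (hn : 1 ≤ n) :
    (-(X - 1) ^ 2 * sq (2 * (X + 1 : ℤ[X])) (-(X - 1) ^ 2) (2 * n - 2)).coeff n =
      ((4 * n).choose (2 * n) : ℤ) - (4 * n).choose (2 * n - 1) := by
  obtain ⟨m, rfl⟩ : ∃ m, n = m + 1 := ⟨n - 1, by omega⟩
  have e : -(X - 1) ^ 2 * sq (2 * (X + 1 : ℤ[X])) (-(X - 1) ^ 2) (2 * m) =
      sq (2 * (X + 1 : ℤ[X])) (-(X - 1) ^ 2) (2 * m + 2) -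
        (C 2 * (X * sq (2 * (X + 1 : ℤ[X])) (-(X - 1) ^ 2) (2 * m + 1)) +
          C 2 * sq (2 * (X + 1 : ℤ[X])) (-(X - 1) ^ 2) (2 * m + 1)) := by
    rw [sq, map_ofNat]; ring
  rw [show 2 * (m + 1) - 2 = 2 * m by omega, e, coeff_sub, coeff_add, coeff_C_mul, coeff_C_mul,
    coeff_X_mul, coeff_sq, coeff_sq]
  have h := coeff_sq (2 * m + 2) (m + 1)
  have c1 : (2 * (2 * m + 2) + 2).choose (2 * (m + 1) + 1) =
      (4 * m + 4).choose (2 * m + 1) + 2 * (4 * m + 4).choose (2 * m + 2) +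
        (4 * m + 4).choose (2 * m + 3) := by
    rw [show 2 * (2 * m + 2) + 2 = (4 * m + 4) + 1 + 1 by ring,
      show 2 * (m + 1) + 1 = (2 * m + 1) + 1 + 1 by ring, Nat.choose_succ_succ' (4 * m + 4 + 1),
      Nat.choose_succ_succ' (4 * m + 4) (2 * m + 1),
      Nat.choose_succ_succ' (4 * m + 4) (2 * m + 1 + 1)]
    ring
  have c2 : (4 * m + 4).choose (2 * m + 3) = (4 * m + 4).choose (2 * m + 1) :=
    Nat.choose_symm_of_eq_add (by ring)
  rw [c1, c2] at h
  rw [show 2 * (2 * m + 1) + 2 = 4 * m + 4 by ring, show 2 * (m + 1) + 1 = 2 * m + 3 by ring, c2,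
    show 4 * (m + 1) = 4 * m + 4 by ring, show 2 * (m + 1) - 1 = 2 * m + 1 by omega,
    show 2 * (m + 1) = 2 * m + 2 by ring]
  push_cast at h
  linarith only [h]

theorem pow_red {B : Type*} [CommRing B] {p q l E : B} (h : l * E ^ 2 = p * E + q) :
    ∀ k : ℕ, l ^ (k + 1) * E ^ (k + 2) = sq p (l * q) (k + 1) * E + q * sq p (l * q) k
  | 0 => by simpa [sq] using h
  | k + 1 => by
    have ih := pow_red h k
    rw [sq]
    linear_combination l * E * ih + sq p (l * q) (k + 1) * h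

/-- The Weinstein number `N` is at most the Catalan number of index `2 n`. -/
theorem weinstein_le {B : Type*} [CommRing B] {n : ℕ} (hn : 2 ≤ n) {y1 y2 E : B}
    {a d b k N : ℤ} (I : B →+ ℤ) (h1 : y1 ^ (n + 1) = 0) (h2 : y2 ^ (n + 1) = 0)
    (hh : ∑ i ∈ range (n + 1), y1 ^ i * y2 ^ (n - i) = 0)
    (hE : (b * d ^ 2 : ℤ) * E ^ 2 + (a * d ^ 2 : ℤ) * (y1 + y2) * E = (y1 - y2) ^ 2)
    (hk : I (E * (y1 ^ n * y2 ^ (n - 1))) = k) (hn2 : |d * b * k| = 2)
    (hN : I ((y1 - y2) * E ^ (2 * n - 1)) = 2 * d * N) (ha : |a| ≤ 2) :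
    |N| ≤ ((4 * n).choose (2 * n) : ℤ) - (4 * n).choose (2 * n - 1) := by
  have hd : d ≠ 0 := by rintro rfl; simp at hn2
  have hb : b ≠ 0 := by rintro rfl; simp at hn2
  set la : ℤ := b * d ^ 2 with hla
  set al : ℤ := -(a * d ^ 2) with hal
  have hl0 : la ≠ 0 := mul_ne_zero hb (pow_ne_zero _ hd)
  have hb1 : 1 ≤ |b| := Int.one_le_abs hb
  have hd1 : 1 ≤ |d| := Int.one_le_abs hd
  have hal2 : |al| ≤ 2 * |la| := by
    rw [hal, hla, abs_neg, abs_mul, abs_mul]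
    linarith only [ha, hb1, abs_nonneg (d ^ 2), abs_nonneg a, mul_nonneg_of_nonpos_of_nonpos (Mathlib.Tactic.Linarith.sub_nonpos_of_le ha) (Mathlib.Tactic.Linarith.sub_nonpos_of_le (abs_nonneg (d ^ (2 : ℕ)))), mul_nonneg_of_nonpos_of_nonpos (Mathlib.Tactic.Linarith.sub_nonpos_of_le hb1) (Mathlib.Tactic.Linarith.sub_nonpos_of_le (abs_nonneg (d ^ (2 : ℕ))))]
  let p : P2 := MvPolynomial.C al * (MvPolynomial.X 0 + MvPolynomial.X 1)
  let q : P2 := MvPolynomial.C la * (MvPolynomial.X 0 - MvPolynomial.X 1) ^ 2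
  have hp : p.IsHomogeneous 1 := hom_s.C_mul _
  have hq : q.IsHomogeneous 2 := (hom_d.pow 2).C_mul _
  have hr := pow_red (p := (al : B) * (y1 + y2)) (q := (y1 - y2) ^ 2) (l := (la : B)) (E := E)
    (by rw [hal]; push_cast at hE ⊢; linear_combination hE) (2 * n - 3)
  rw [show 2 * n - 3 + 1 = 2 * n - 2 by omega, show 2 * n - 3 + 2 = 2 * n - 1 by omega] at hr
  have ev1 : ∀ m, ev y1 y2 (sq p q m) = sq ((al : B) * (y1 + y2)) (la * (y1 - y2) ^ 2) m := by
    intro m; rw [map_sq]; simp [p, q]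
  have z1 := hom_zero h1 h2 hh
    (f := (MvPolynomial.X 0 - MvPolynomial.X 1) ^ 3 * sq p q (2 * n - 3)) (by
      convert (hom_d.pow 3).mul (hom_sq hp hq (2 * n - 3)) using 1; omega)
  have hf : ((MvPolynomial.X 0 - MvPolynomial.X 1) * sq p q (2 * n - 2)).IsHomogeneous
      (2 * n - 1) := by
    convert hom_d.mul (hom_sq hp hq (2 * n - 2)) using 1; omega
  have z2 := hom_eval (by omega) h1 h2 hh hf
  have z3 := deh (m := 2 * n) (i := n) (by
    convert hom_d'.mul hf using 1; omega) (by omega)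
  rw [show 2 * n - n = n by omega] at z3
  rw [← z3] at z2
  have hm := major (n := n) hl0 hal2 (2 * n - 2) 0 1 (by omega)
  have e3 : ev (X : ℤ[X]) 1 ((MvPolynomial.X 1 - MvPolynomial.X 0) *
      ((MvPolynomial.X 0 - MvPolynomial.X 1) * sq p q (2 * n - 2))) =
      (X + 1 : ℤ[X]) ^ 0 * (-(X - 1) ^ 2) ^ 1 *
        sq (C al * (X + 1)) (C la * (X - 1) ^ 2) (2 * n - 2) := by
    rw [map_mul, map_mul, map_sq]
    simp [p, q]
    ring
  rw [e3] at z2
  rw [pow_zero, one_mul, pow_one] at hm z2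
  rw [std_value (by omega)] at hm
  set c := (-(X - 1) ^ 2 * sq (C al * (X + 1 : ℤ[X])) (C la * (X - 1) ^ 2) (2 * n - 2)).coeff n
  simp only [map_mul, map_pow, map_sub, ev_X0, ev_X1, ev1] at z1 z2
  have key : la ^ (2 * n - 2) • ((y1 - y2) * E ^ (2 * n - 1)) =
      c • (E * (y1 ^ n * y2 ^ (n - 1))) := by
    rw [← mul_smul_comm c, ← z2, zsmul_eq_mul]
    push_cast
    linear_combination (y1 - y2) * hr + z1
  have k2 := congrArg I key
  rw [map_zsmul, map_zsmul, hN, hk, smul_eq_mul, smul_eq_mul] at k2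
  have k3 := congrArg abs k2
  simp only [abs_mul, abs_pow, abs_two] at k3 hn2
  have hpos : 0 < |la| ^ (2 * n - 2) := pow_pos (abs_pos.2 hl0) _
  have hk2 : |k| ≤ 2 := by (refine le_of_not_gt fun h_nl => ?_; linarith only [h_nl, hn2, hd1, hb1, abs_nonneg k, mul_le_mul hd1 hb1 zero_le_one (abs_nonneg d), mul_nonneg_of_nonpos_of_nonpos (Mathlib.Tactic.Linarith.sub_nonpos_of_le (Int.add_one_le_iff.mpr h_nl)) (Mathlib.Tactic.Linarith.sub_nonpos_of_le (mul_le_mul hd1 hb1 zero_le_one (abs_nonneg d)))])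
  set Y := ((4 * n).choose (2 * n) : ℤ) - (4 * n).choose (2 * n - 1)
  have : |la| ^ (2 * n - 2) * (2 * |d| * |N|) ≤ |la| ^ (2 * n - 2) * (Y * 2) := by
    rw [k3, ← mul_assoc]
    exact mul_le_mul hm hk2 (abs_nonneg _) ((abs_nonneg _).trans hm)
  have := le_of_mul_le_mul_left this hpos
  linarith only [this, hd1, abs_nonneg N, mul_nonneg_of_nonpos_of_nonpos (Mathlib.Tactic.Linarith.sub_nonpos_of_le hd1) (Mathlib.Tactic.Linarith.sub_nonpos_of_le (abs_nonneg N))]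

/-- The bound of `weinstein_le` is the Catalan number. -/
theorem choose_sub (n : ℕ) (hn : 1 ≤ n) :
    (2 * n + 1 : ℤ) * (((4 * n).choose (2 * n) : ℤ) - (4 * n).choose (2 * n - 1)) =
      (4 * n).choose (2 * n) := by
  have h := Nat.choose_succ_right_eq (4 * n) (2 * n - 1)
  rw [show 2 * n - 1 + 1 = 2 * n by omega, show 4 * n - (2 * n - 1) = 2 * n + 1 by omega] at h
  have h' := congrArg (Nat.cast : ℕ → ℤ) h
  push_cast at h'
  linarith only [h]

end Pool.Agent.Work.MP_8c604c_gt.Q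
end
end

-- merged part: Pool.Agent.Work.MP_8c604c_gt.T.AlgF
section
/-!
The final algebra.
-/

noncomputable section

namespace Pool.Agent.Work.MP_8c604c_gt.T

open Finset Polynomial Pool.Agent.Work.MP_8c604c_gt.Q

variable {B : Type} [CommRing B] [Algebra ℂ B] {n : ℕ}

theorem weinstein_le' (hn : 2 ≤ n) {y1 y2 E : B} {d b N : ℤ} (h1 : y1 ^ (n + 1) = 0)
    (h2 : y2 ^ (n + 1) = 0) (hh : ∑ i ∈ range (n + 1), y1 ^ i * y2 ^ (n - i) = 0)
    (hE : (b * d ^ 2 : ℤ) * E ^ 2 + (-2 * d ^ 2 : ℤ) * (y1 + y2) * E = (y1 - y2) ^ 2)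
    (hd : d ≠ 0) (hb : b ≠ 0) (hk : E * (y1 ^ n * y2 ^ (n - 1)) ≠ 0)
    (hN : (y1 - y2) * E ^ (2 * n - 1) = (N * (b * d ^ 2)) • (E * (y1 ^ n * y2 ^ (n - 1)))) :
    |N| ≤ ((4 * n).choose (2 * n) : ℤ) - (4 * n).choose (2 * n - 1) := by
  set la : ℤ := b * d ^ 2 with hla
  set al : ℤ := 2 * d ^ 2 with hal
  have hl0 : la ≠ 0 := mul_ne_zero hb (pow_ne_zero _ hd)
  have hb1 : 1 ≤ |b| := Int.one_le_abs hb
  have hal2 : |al| ≤ 2 * |la| := by
    rw [hal, hla, abs_mul, abs_mul, abs_two]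
    linarith only [hb1, abs_nonneg (d ^ 2), mul_nonneg_of_nonpos_of_nonpos (Mathlib.Tactic.Linarith.sub_nonpos_of_le hb1) (Mathlib.Tactic.Linarith.sub_nonpos_of_le (abs_nonneg (d ^ (2 : ℕ))))]
  let p : P2 := MvPolynomial.C al * (MvPolynomial.X 0 + MvPolynomial.X 1)
  let q : P2 := MvPolynomial.C la * (MvPolynomial.X 0 - MvPolynomial.X 1) ^ 2
  have hp : p.IsHomogeneous 1 := hom_s.C_mul _
  have hq : q.IsHomogeneous 2 := (hom_d.pow 2).C_mul _
  have hr := pow_red (p := (al : B) * (y1 + y2)) (q := (y1 - y2) ^ 2) (l := (la : B)) (E := E)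
    (by rw [hal]; push_cast at hE ⊢; linear_combination hE) (2 * n - 3)
  rw [show 2 * n - 3 + 1 = 2 * n - 2 by omega, show 2 * n - 3 + 2 = 2 * n - 1 by omega] at hr
  have ev1 : ∀ m, Q.ev y1 y2 (Q.sq p q m) =
      Q.sq ((al : B) * (y1 + y2)) (la * (y1 - y2) ^ 2) m := by
    intro m; rw [map_sq]; simp [p, q]
  have z1 := hom_zero h1 h2 hh
    (f := (MvPolynomial.X 0 - MvPolynomial.X 1) ^ 3 * Q.sq p q (2 * n - 3)) (by
      convert (hom_d.pow 3).mul (hom_sq hp hq (2 * n - 3)) using 1; omega)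
  have hf : ((MvPolynomial.X 0 - MvPolynomial.X 1) * Q.sq p q (2 * n - 2)).IsHomogeneous
      (2 * n - 1) := by
    convert hom_d.mul (hom_sq hp hq (2 * n - 2)) using 1; omega
  have z2 := hom_eval (by omega) h1 h2 hh hf
  have z3 := deh (m := 2 * n) (i := n) (by
    convert hom_d'.mul hf using 1; omega) (by omega)
  rw [show 2 * n - n = n by omega] at z3
  rw [← z3] at z2
  have hm := major (n := n) hl0 hal2 (2 * n - 2) 0 1 (by omega)
  have e3 : Q.ev (X : ℤ[X]) 1 ((MvPolynomial.X 1 - MvPolynomial.X 0) *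
      ((MvPolynomial.X 0 - MvPolynomial.X 1) * Q.sq p q (2 * n - 2))) =
      (X + 1 : ℤ[X]) ^ 0 * (-(X - 1) ^ 2) ^ 1 *
        Q.sq (C al * (X + 1)) (C la * (X - 1) ^ 2) (2 * n - 2) := by
    rw [map_mul, map_mul, map_sq]
    simp [p, q]
    ring
  rw [e3] at z2
  rw [pow_zero, one_mul, pow_one] at hm z2
  rw [std_value (by omega)] at hm
  set c := (-(X - 1) ^ 2 * Q.sq (C al * (X + 1 : ℤ[X])) (C la * (X - 1) ^ 2) (2 * n - 2)).coeff n
  simp only [map_mul, map_pow, map_sub, ev_X0, ev_X1, ev1] at z1 z2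
  have key : la ^ (2 * n - 2) • ((y1 - y2) * E ^ (2 * n - 1)) =
      c • (E * (y1 ^ n * y2 ^ (n - 1))) := by
    rw [← mul_smul_comm c, ← z2, zsmul_eq_mul]
    push_cast
    linear_combination (y1 - y2) * hr + z1
  rw [hN, smul_smul, ← Int.cast_smul_eq_zsmul ℂ, ← Int.cast_smul_eq_zsmul ℂ c] at key
  have k3 := congrArg abs (Int.cast_injective (smul_left_injective ℂ hk key))
  simp only [abs_mul, abs_pow] at k3
  have hpos : 0 < |la| ^ (2 * n - 2) := pow_pos (abs_pos.2 hl0) _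
  have := le_of_mul_le_mul_left (k3.le.trans hm) hpos
  linarith only [this, hl0, abs_nonneg N, Int.one_le_abs hl0, mul_nonneg_of_nonpos_of_nonpos (Mathlib.Tactic.Linarith.sub_nonpos_of_le (abs_nonneg N)) (Mathlib.Tactic.Linarith.sub_nonpos_of_le (Int.one_le_abs hl0))]

theorem alg_fin (hn : 2 ≤ n) {y1 y2 e z ζ : B} {d β : ℂ} {j s t N : ℤ} (h1 : y1 ^ (n + 1) = 0)
    (h2 : y2 ^ (n + 1) = 0) (hh : ∑ i ∈ range (n + 1), y1 ^ i * y2 ^ (n - i) = 0)
    (hm : d • z * e = y2 - y1) (hz : z ^ 2 = (-2 : ℂ) • (y1 + y2) + β • e ^ 2)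
    (hζ : (2 : ℂ) • ζ = z + (j : ℂ) • e) (hζ' : ζ ^ 2 + y1 = e * ((s : ℂ) • e + (t : ℂ) • ζ))
    (ind : ∀ a b : ℂ, (a • e + b • z) * e = 0 → a = 0 ∧ b = 0)
    (hN : (-e) ^ (4 * n - 1) = (N : ℂ) • -(y1 ^ n * y2 ^ (n - 1) * d • z))
    (hne : z * -(y1 ^ n * y2 ^ (n - 1) * d • z) ≠ 0) :
    |N| ≤ ((4 * n).choose (2 * n) : ℤ) - (4 * n).choose (2 * n - 1) := by
  have i := ind (β + j ^ 2 - (4 * s + 2 * t * j)) (2 * j - 2 * d - 2 * t) (by
    simp only [Algebra.smul_def, map_add, map_sub, map_mul, map_pow, map_neg, map_ofNat]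
      at hm hz hζ hζ' ⊢
    linear_combination 4 * hζ' - hz - 2 * hm - (2 * ζ + z + algebraMap ℂ B j * e -
      2 * algebraMap ℂ B t * e) * hζ)
  obtain rfl : d = ((j - t : ℤ) : ℂ) := by push_cast; linear_combination (-1 / 2 : ℂ) * i.2
  obtain rfl : β = ((4 * s + 2 * t * j - j ^ 2 : ℤ) : ℂ) := by push_cast; linear_combination i.1
  generalize j - t = d at *
  generalize 4 * s + 2 * t * j - j ^ 2 = b at *
  obtain ⟨m, rfl⟩ : ∃ m, n = m + 1 := ⟨n - 1, by omega⟩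
  have t0 := top_zero h1 h2 hh
  rw [show 4 * (m + 1) - 1 = 2 * (2 * m + 1) + 1 by omega, Odd.neg_pow ⟨_, rfl⟩] at hN
  simp only [Algebra.smul_def, map_intCast, map_neg, map_ofNat, Nat.add_sub_cancel]
    at hm hz hN hne
  have k : z * -(y1 ^ (m + 1) * y2 ^ m * (d * z)) = -(d * b * (e ^ 2 * (y1 ^ (m + 1) * y2 ^ m))) := by
    linear_combination (-(y1 ^ (m + 1) * y2 ^ m * d)) * hz + 2 * d * y2 ^ m * h1 + 2 * d * t0
  rw [k] at hne
  refine abs_neg N ▸ weinstein_le' (E := e ^ 2) (d := d) (b := b) hn h1 h2 hh ?_ ?_ ?_ ?_ ?_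
  · push_cast
    linear_combination (-(d : B) ^ 2 * e ^ 2) * hz + (d * z * e + y2 - y1) * hm
  · rintro rfl
    simp at hne
  · rintro rfl
    simp at hne
  · intro h
    rw [Nat.add_sub_cancel] at h
    simp [h] at hne
  · rw [show 2 * (m + 1) - 1 = 2 * m + 1 by omega, Nat.add_sub_cancel, zsmul_eq_mul]
    push_cast
    linear_combination (e ^ 2) ^ (2 * m + 1) * hm + d * z * hN + N * d * k

end Pool.Agent.Work.MP_8c604c_gt.T
end
end
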