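import Pool.Agent.Work.MP_8c604c_gt.T.ThF

/-!
The cohomology of the space `S` of closed geodesics.
Plan. `Nb \ Dg n` is `Tt n \ zs` through `G`, `Gi`, which retracts to `S` (`gc`, `c -> (c 1, vel c)`, `G_vel`).
Long exact sequence of `(Nb, Dg n)`: `H Nb (Dg n) = H (MM n) (Dg n)` (excision, `Nb` is open in `MM n`) has the
basis `u^i tauD` (tauD_bij, uH_basis), degrees `4 n + 4 i`; `H Nb = H (MH n)` (Nb_fst_bij).  A class `x` of even
degree has `dlt x` of odd degree, so `dlt x = 0`.  A class of odd degree `p` with `dlt x = 0` comes from `MH n` and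
vanishes; `dlt x = t tauD` in degree `4 n` has image `t (n + 1) u^n` (tauD_diag), so `t = 0`.
`vp`: the difference has image `u^n v^n - u^n v^n = 0`, exact_dlt_supp; note `MM n \ (Dg n ∪ F) = Nb \ Dg n`.
-/

noncomputable section

namespace Pool.Agent.Work.MP_8c604c_gt.T

open Set Topology Pool.Agent.Work.MP_849ab0_ag.G

variable {n k : ℕ}

namespace TD0

variable (D : TD0 n k)

theorem ok_ev (θ : Circle) : Ok (fun c : LM n => c θ) D.S univ (MH n) univ :=
  .of_mem (.of_continuous (continuous_eval_const θ) _) (fun c hc => D.mem c hc θ) fun _ _ _ => trivial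

/-- the class `u` on `S` -/
def uS : H D.S univ := pull (fun c : LM n => c 1) D.S univ (uH n)

theorem isDeg_uS : IsDeg 4 D.uS := isDeg_uH.pull _ _ _

theorem ev_eq (θ : Circle) (a : H (MH n) univ) :
    pull (fun c : LM n => c θ) D.S univ a = pull (fun c : LM n => c 1) D.S univ a := by
  obtain ⟨s, -, rfl⟩ := exists_cs θ
  have := pull_htpy_compact D.cpt (F := fun z : LM n × ℝ => z.1 (cs (z.2 * s)))
    (continuous_fst.eval (continuous_cs.comp (continuous_snd.mul continuous_const)))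
    (fun c hc t _ => D.mem c hc _) a
  simp only [zero_mul, one_mul, cs_zero] at this
  exact this.symm

theorem ok_j0 : Ok D.j0 D.S univ (D.Nb \ Dg n) univ := by
  exact .of_mem (.of_continuous D.continuous_j0 _) (fun _ hc => D.j0_mem hc) fun _ _ _ => trivial

theorem j0_bij : Function.Bijective (pull D.j0 D.S univ : H (D.Nb \ Dg n) univ → _) := by
  have lc : IsLocallyClosed (D.Nb \ Dg n) :=
    (Cl.of_isClosed isClosed_Dg _).isLocallyClosed_diff D.lc_Nb
  have od : ∀ y ∈ D.Nb \ Dg n, y ∈ Od n := fun y h => ⟨h.1.1, h.2⟩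
  have ok : Ok D.lc (D.Nb \ Dg n) univ D.S univ :=
    ok_top lc D.cont_lc fun y h => (D.lc_spec (od y h)).1
  have e : ∀ c ∈ D.S, D.lc (D.j0 c) = c := fun c hc =>
    D.lc_eq hc ⟨by positivity, by linarith [Real.pi_pos]⟩
  have b : Function.Bijective (pull D.lc (D.Nb \ Dg n) univ : H D.S univ → _) := by
    refine pull_bij_of_section ok D.ok_j0 e
      (F := fun z => (z.1.1, D.lc z.1 (cs ((1 - z.2) * (Real.pi / 4) + z.2 * D.lt z.1))))
      (ext_htpy lc (continuousOn_fst.fst.prodMk ?_)) (fun y h t ht => ?_)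
      (fun _ _ _ _ _ => trivial) (fun y h => ?_) fun y h => ?_
    · refine continuous_eval.comp_continuousOn ((D.cont_lc.comp continuousOn_fst
        fun _ h => h.1).prodMk (continuous_cs.comp_continuousOn ?_))
      exact (by fun_prop : ContinuousOn _ _).add (continuousOn_snd.mul
        (D.cont_lt.comp continuousOn_fst fun _ h => h.1.1.1))
    · obtain ⟨h1, h2, h3, -⟩ := D.lc_spec (od y h)
      have h4 := (D.lt_lt h.1).2
      have h5 : (1 - t) * (Real.pi / 4) + t * D.lt y ∈ Ioo 0 (Real.pi / 2) :=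
        convex_Ioo (𝕜 := ℝ) 0 (Real.pi / 2)
          (⟨by positivity, by linarith [Real.pi_pos]⟩ : Real.pi / 4 ∈ Ioo 0 (Real.pi / 2))
          ⟨h3.1, h4⟩ (sub_nonneg.2 ht.2) ht.1 (sub_add_cancel _ _)
      rw [← h2]
      refine ⟨?_, (D.od_mem h1 ⟨h5.1, h5.2.le⟩).2⟩
      have := D.not_cut h1 (s := 0) (t := (1 - t) * (Real.pi / 4) + t * D.lt y)
        (by rw [sub_zero, abs_of_pos h5.1]; exact h5.2)
      rwa [cs_zero] at this
    · simp only [sub_zero, one_mul, zero_mul, add_zero, j0, (D.lc_spec (od y h)).2.1]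
    · simp only [sub_self, one_mul, zero_mul, zero_add, (D.lc_spec (od y h)).2.2.2]
  refine (Function.Bijective.of_comp_iff _ b).1 ?_
  have : (pull D.j0 D.S univ : H (D.Nb \ Dg n) univ → _) ∘
      (pull D.lc (D.Nb \ Dg n) univ : H D.S univ → _) = id := funext fun a => by
    rw [Function.comp_apply, pull_pull' (F := id) D.ok_j0 ok e, pull_id, id]
  rw [this]
  exact Function.bijective_id

theorem HS_sub : D.Nb ⊆ MM n := sdiff_subset

theorem HS_ok : Ok id D.Nb (Dg n) (MM n) (Dg n) := .id D.HS_sub fun _ _ h => h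

theorem HS_cup (a : H (MH n) univ) :
    pull id D.Nb (Dg n) (cup (MM n) (Dg n) (pull Prod.fst (MM n) univ a) (tauD n)) =
      cup D.Nb (Dg n) (pull Prod.fst D.Nb univ a) (pull id D.Nb (Dg n) (tauD n)) := by
  rw [pull_cm D.HS_ok, res_pull ok_MM1 D.HS_sub fun _ _ h => h]

/-- the Gysin sequence of the diagonal in `Nb` -/
theorem HS_gys : GysD Prod.fst D.Nb (Dg n) (MH n) (pull id D.Nb (Dg n) (tauD n)) (4 * n)
    (((n : ℂ) + 1) • uH n ^ n) where
  ok := D.ok_fst_Nb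
  deg := isDeg_tauD.pull _ _ _
  thom := by
    have b : Function.Bijective (pull id D.Nb (Dg n) : H (MM n) (Dg n) → _) :=
      res_excision D.HS_sub (Cl.of_isClosed isClosed_Dg _) (fun x hx h =>
        (Cl.of_isClosed D.isClosed_F _).diff_mem_nhdsWithin (D.Dg_sub hx h)) fun _ _ => Iff.rfl
    have := b.comp (tauD_bij (n := n))
    simp only [Function.comp_def, D.HS_cup] at this
    exact this
  base := D.Nb_fst_bij
  eul := by
    rw [← D.fst_diag_Nb (pull id D.Nb univ (pull id D.Nb (Dg n) (tauD n))),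
      pull_res D.ok_diag_Nb Subset.rfl fun _ _ _ => trivial,
      pull_pull' (Z := univ) (F := fun p => (p, p)) (.of_mem (.of_continuous (by fun_prop) _)
        D.ok_diag_Nb.maps fun _ _ _ => trivial) D.HS_ok fun _ _ => rfl, tauD_diag]

theorem HS_lift {p : ℤ} {x : H D.S univ} (hx : IsDeg p x) :
    ∃ y : H (D.Nb \ Dg n) univ, IsDeg p y ∧ x = pull D.j0 D.S univ y := by
  obtain ⟨y, rfl⟩ := D.j0_bij.2 x
  exact ⟨prj {p} y, isDeg_prj _ _, by rw [pull_prj, isDeg_iff.1 hx]⟩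

theorem HS_fst {p : ℤ} {y : H (D.Nb \ Dg n) univ} (hy : IsDeg p y) (h : D.HS_gys.gys y = 0) :
    ∃ a : H (MH n) univ, IsDeg p a ∧ y = pull Prod.fst (D.Nb \ Dg n) univ a := by
  obtain ⟨a, rfl⟩ := (D.HS_gys.gys_eq_zero y).1 h
  exact ⟨prj {p} a, isDeg_prj _ _, by rw [pull_prj, isDeg_iff.1 hy]⟩

theorem HS_odd {p : ℤ} {y : H (D.Nb \ Dg n) univ} (hy : IsDeg p y) (ho : Odd p)
    (h : D.HS_gys.gys y = 0) : y = 0 := by
  obtain ⟨a, ha, rfl⟩ := D.HS_fst hy h
  obtain ⟨m, rfl⟩ := ho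
  rw [MH_deg_zero ha (Or.inl (by omega)), map_zero]

theorem S_evn {p : ℤ} {x : H D.S univ} (hx : IsDeg (2 * p) x) :
    ∃ a : H (MH n) univ, IsDeg (2 * p) a ∧ x = pull (fun c : LM n => c 1) D.S univ a := by
  obtain ⟨y, hy, rfl⟩ := D.HS_lift hx
  have : D.HS_gys.gys y = 0 :=
    MH_deg_zero (D.HS_gys.gys_deg (p := 2 * p + 1 - 4 * n) hy (by ring)) (Or.inl (by omega))
  obtain ⟨a, ha, rfl⟩ := D.HS_fst hy this
  exact ⟨a, ha, pull_pull' D.ok_j0 D.HS_gys.ok0 (fun _ _ => rfl) a⟩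

theorem S_odd {p : ℤ} {x : H D.S univ} (hx : IsDeg p x) (ho : Odd p) (hp : p < 4 * n + 3) :
    x = 0 := by
  obtain ⟨y, hy, rfl⟩ := D.HS_lift hx
  have hd := D.HS_gys.gys_deg (p := p + 1 - 4 * n) hy (by ring)
  have : D.HS_gys.gys y = 0 := by
    rcases lt_trichotomy (p + 1 - 4 * n) 0 with h | h | h
    · exact hd.eq_zero_of_neg h
    · obtain ⟨c, hc⟩ := MH_deg (k := 0) (a := D.HS_gys.gys y) (by rw [h] at hd; simpa using hd)
      have h1 := D.HS_gys.gys_mul_e y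
      rw [hc, pow_zero, smul_mul_assoc, one_mul, smul_smul, smul_eq_zero, mul_eq_zero] at h1
      rcases h1 with (h1 | h1) | h1
      · rw [hc, h1, zero_smul]
      · exact absurd h1 (Nat.cast_add_one_ne_zero n)
      · exact absurd h1 (uH_pow_ne le_rfl)
    · exact MH_deg_zero hd (Or.inl (by omega))
  rw [D.HS_odd hy ho this, map_zero]

theorem uS_pow_ne {i : ℕ} (hi : i < n) : D.uS ^ i ≠ 0 := by
  intro h
  rw [uS, ← pull_pow (D.ok_ev 1),
    ← pull_pull' (F := fun c : LM n => c 1) D.ok_j0 D.HS_gys.ok0 (fun _ _ => rfl),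
    ← map_zero (pull D.j0 D.S univ : H (D.Nb \ Dg n) univ →ₗ[ℂ] _)] at h
  obtain ⟨b, hb⟩ := (D.HS_gys.pull_eq_zero _).1 (D.j0_bij.1 h)
  refine uH_pow_ne (n := n) (Nat.succ_le_of_lt hi) ?_
  rw [pow_succ, hb, mul_assoc, smul_mul_assoc, ← pow_succ, uH_pow, smul_zero, mul_zero]

theorem exists_vp (hn : 1 ≤ n) : ∃ x : H (D.Nb \ Dg n) univ, IsDeg (8 * n - 1) x ∧
    dlt (MM n) (Dg n ∪ D.F) x =
      pull id (MM n) (Dg n ∪ D.F) (cup (MM n) (Dg n) (uu n ^ n) (tauD n)) -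
        pull id (MM n) (Dg n ∪ D.F) (cup (MM n) D.F (uu n ^ n * vv n ^ (n - 1)) D.thF) := by
  obtain ⟨m, rfl⟩ : ∃ m, n = m + 1 := ⟨n - 1, by omega⟩
  have h1 : MM (m + 1) \ (Dg (m + 1) ∪ D.F) = D.Nb \ Dg (m + 1) := by
    rw [union_comm, ← sdiff_sdiff]; rfl
  have o1 : Ok id (MM (m + 1)) univ (MM (m + 1)) (Dg (m + 1) ∪ D.F) :=
    .id Subset.rfl fun _ _ _ => trivial
  have hd : IsDeg (8 * ((m + 1 : ℕ) : ℤ)) (pull id (MM (m + 1)) (Dg (m + 1) ∪ D.F)
      (cup (MM (m + 1)) (Dg (m + 1)) (uu (m + 1) ^ (m + 1)) (tauD (m + 1))) -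
        pull id (MM (m + 1)) (Dg (m + 1) ∪ D.F) (cup (MM (m + 1)) D.F
          (uu (m + 1) ^ (m + 1) * vv (m + 1) ^ (m + 1 - 1)) D.thF)) := by
    refine IsDeg.sub (IsDeg.pull ?_ _ _ _) (IsDeg.pull ?_ _ _ _)
    · convert (IsDeg.powH isDeg_uu (m + 1)).cup isDeg_tauD _ _ using 1
      ring
    · convert (ThMa_deg (m + 1) (m + 1 - 1)).cup D.isDeg_thF _ _ using 1
      simp only [Nat.add_sub_cancel]
      push_cast
      ring
  obtain ⟨x, hx⟩ := (exact_dlt_supp (Z := univ) (Z₂ := univ) h1 (by simp) _).1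
    (show pull id (MM (m + 1)) univ (pull id (MM (m + 1)) (Dg (m + 1) ∪ D.F)
      (cup (MM (m + 1)) (Dg (m + 1)) (uu (m + 1) ^ (m + 1)) (tauD (m + 1))) -
        pull id (MM (m + 1)) (Dg (m + 1) ∪ D.F) (cup (MM (m + 1)) D.F
          (uu (m + 1) ^ (m + 1) * vv (m + 1) ^ (m + 1 - 1)) D.thF)) = 0 by
      rw [map_sub, pull_res o1 Subset.rfl fun _ _ h => Or.inl h,
        pull_res o1 Subset.rfl fun _ _ h => Or.inr h, fgt_cm, fgt_cm, fgt_tauD, D.fgt_thF, ThM_top,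
        Nat.add_sub_cancel, mul_sub, mul_assoc, ← pow_succ, mul_assoc,
        ← (ThMa_comm.pow_right m).eq, ← mul_assoc, ← pow_succ, uu_pow, zero_mul, sub_zero,
        sub_self])
  refine ⟨prj {8 * ((m + 1 : ℕ) : ℤ) - 1} x, isDeg_prj _ _, ?_⟩
  rw [dlt_prj (t := {8 * ((m + 1 : ℕ) : ℤ)}) (fun p => by simp only [mem_singleton_iff]; omega), hx,
    isDeg_iff.1 hd]

/-- the top class of the space of unit vectors -/
def vp (hn : 1 ≤ n) : H (D.Nb \ Dg n) univ := (D.exists_vp hn).choose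

theorem isDeg_vp (hn : 1 ≤ n) : IsDeg (8 * n - 1) (D.vp hn) := (D.exists_vp hn).choose_spec.1

theorem dlt_vp (hn : 1 ≤ n) : dlt (MM n) (Dg n ∪ D.F) (D.vp hn) =
    pull id (MM n) (Dg n ∪ D.F) (cup (MM n) (Dg n) (uu n ^ n) (tauD n)) -
      pull id (MM n) (Dg n ∪ D.F) (cup (MM n) D.F (uu n ^ n * vv n ^ (n - 1)) D.thF) :=
  (D.exists_vp hn).choose_spec.2

theorem dlt_vp' (hn : 1 ≤ n) : dlt D.Nb (Dg n) (D.vp hn) =
    pull id D.Nb (Dg n) (cup (MM n) (Dg n) (uu n ^ n) (tauD n)) := by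
  have o1 : Ok id D.Nb (Dg n) (MM n) (Dg n ∪ D.F) :=
    .id D.HS_sub fun _ k h => h.elim id fun h => (k.2 h).elim
  have := congrArg (pull id D.Nb (Dg n)) (D.dlt_vp hn)
  rw [pull_dlt (.of_continuous continuous_id univ) (subset_univ _) (subset_univ _) o1 Ok.refl
    Subset.rfl (fun _ h => ⟨⟨h.1, fun k => h.2 (Or.inr k)⟩, fun k => h.2 (Or.inl k)⟩), pull_id,
    map_sub, pull_res o1 Subset.rfl fun _ _ h => Or.inl h,
    pull_res o1 Subset.rfl fun _ _ h => Or.inr h,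
    pull_miss (U' := MM n) (Z' := D.F) (.of_continuous continuous_id _) D.HS_sub fun _ h => h.2,
    sub_zero] at this
  exact this

/-- the connecting map of `(Nb, Dg n)` is injective on classes of odd degree -/
theorem dlt_inj {p : ℤ} {x : H (D.Nb \ Dg n) univ} (hx : IsDeg p x) (ho : Odd p)
    (h : dlt D.Nb (Dg n) x = 0) : x = 0 := by
  exact D.HS_odd hx ho (D.HS_gys.gys_eq.2 (by rw [h, map_zero, map_zero, LinearMap.zero_apply]))

theorem vp_ne (hn : 1 ≤ n) : pull D.j0 D.S univ (D.vp hn) ≠ 0 := by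
  intro h
  rw [← map_zero (pull D.j0 D.S univ : H (D.Nb \ Dg n) univ →ₗ[ℂ] _)] at h
  have h1 := D.dlt_vp' hn
  rw [uu, ← pull_pow ok_MM1, D.HS_cup, ← D.HS_gys.gys_eq, D.j0_bij.1 h, map_zero] at h1
  exact uH_pow_ne le_rfl h1.symm

end TD0

end Pool.Agent.Work.MP_8c604c_gt.T
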