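import Pool.Agent.Work.MP_8c604c_gt.T.ThF
import Pool.Agent.Work.MP_8c604c_gt.T.Deg
import Pool.Agent.Work.MP_8c604c_gt.T.SL

-- merged part: Pool.Agent.Work.MP_8c604c_gt.T.DnA
section
/-!
The sphere swept out by the push at `c0`: definitions and continuity.
Plan. `exists_T3`: `stdOrthonormalBasis` of the range of `K c0` (finrank 3).  `cont_lp`: `contOn_of_cpt` from
`Icc 0 1 ×ˢ sphere 0 1`, `(r, x) ↦ r • x`, with `G (r, x) = Hh (r, c0, T3 x)` (`H0` for `r = 0`).  `cont_ps`: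
`contOn_of_cpt` from `closedBall 0 1 ×ˢ univ`, `(x, θ) ↦ (x, (1 - ‖x‖) θ)`, `G (x, θ) = lp x θ` (`phs_mul`; `H1` for
`‖x‖ = 1`).  `lp_cut`: `short` for `x ≠ 0`, `cut_iff` for `x = 0`.  `Sg_neg`: let `nrm z = (‖z.1‖ + ‖z.2‖)⁻¹ • z` on
`{0}ᶜ`, `x' = pull nrm x`; `dlt univ {0} x'` is fixed by the linear map `io` of determinant `-1` (`pull_dlt`,
`pull_lin`, `LinearMap.det_prodMap`), so it is `0`; then `x'` comes from `H univ univ` (exact_res_dlt), which is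
acyclic (van_contr or acy_deg), so `x' = 0`, and `x` is the restriction of `x'`.  `van_Sg`: `van_contr` with
`nrm (t • z - (1 - t) • v)`.
-/

noncomputable section

namespace Pool.Agent.Work.MP_8c604c_gt.T

open Set Real Topology Pool.Agent.Work.MP_849ab0_ag.G

variable {n : ℕ}

/-- the four-sphere as a join -/
def Sg : Set (RN 3 × ℂ) := {z | ‖z.1‖ + ‖z.2‖ = 1}

/-- the reflection -/
def io (z : RN 3 × ℂ) : RN 3 × ℂ := (-z.1, z.2)

/-- radial retraction onto the unit ball -/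
def clp (x : RN 3) : RN 3 := (max 1 ‖x‖)⁻¹ • x

/-- a time in `[0, π]` -/
def tmc (t : ℝ) : ℝ := π / 2 * (1 + max (-1) (min 1 t))

theorem isCompact_Sg : IsCompact Sg := by
  refine Metric.isCompact_of_isClosed_isBounded (isClosed_eq (by fun_prop) continuous_const)
    ((Metric.isBounded_closedBall (x := 0) (r := 1)).subset fun z hz => ?_)
  have h : ‖z.1‖ + ‖z.2‖ = 1 := hz
  rw [mem_closedBall_zero_iff, Prod.norm_def]
  exact max_le (by linarith [norm_nonneg z.2]) (by linarith [norm_nonneg z.1])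

theorem continuous_clp : Continuous clp := by
  exact ((continuous_const.max continuous_norm).inv₀ fun x =>
    (one_pos.trans_le (le_max_left _ _)).ne').smul continuous_id

theorem norm_clp_le (x : RN 3) : ‖clp x‖ ≤ 1 := by
  have h : (0 : ℝ) < max 1 ‖x‖ := one_pos.trans_le (le_max_left _ _)
  rw [clp, norm_smul, norm_inv, Real.norm_of_nonneg h.le, inv_mul_le_iff₀ h, mul_one]
  exact le_max_right _ _

theorem norm_clp_eq {x : RN 3} (h : 1 ≤ ‖x‖) : ‖clp x‖ = 1 := by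
  rw [clp, max_eq_right h, norm_smul, norm_inv, norm_norm, inv_mul_cancel₀ (one_pos.trans_le h).ne']

theorem clp_eq {x : RN 3} (h : ‖x‖ ≤ 1) : clp x = x := by
  rw [clp, max_eq_left h, inv_one, one_smul]

theorem continuous_tmc : Continuous tmc := by
  unfold tmc
  fun_prop

theorem tmc_mem (t : ℝ) : tmc t ∈ Icc 0 π := by
  have h1 : -1 ≤ max (-1) (min 1 t) := le_max_left _ _
  have h2 : max (-1) (min 1 t) ≤ 1 := max_le (by norm_num) (min_le_left _ _)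
  exact ⟨mul_nonneg (by positivity) (by linarith), by unfold tmc; nlinarith [pi_pos]⟩

theorem cs_tmc {t : ℝ} (h : 1 ≤ |t|) : cs (tmc t) = 1 := by
  rcases le_abs'.1 h with h | h
  · rw [tmc, max_eq_left ((min_le_right _ _).trans h), add_neg_cancel, mul_zero, cs_zero]
  · rw [tmc, min_eq_left h, max_eq_right (by norm_num), show π / 2 * (1 + 1) = π by ring, cs_pi]

theorem tmc_eq {t : ℝ} (h : |t| ≤ 1) : tmc t = π / 2 * (1 + t) := by
  rw [tmc, min_eq_right (abs_le.1 h).2, max_eq_right (abs_le.1 h).1]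

/-- radial projection onto the sphere -/
def DnA_nrm (z : RN 3 × ℂ) : RN 3 × ℂ := (‖z.1‖ + ‖z.2‖)⁻¹ • z

theorem DnA_pos {z : RN 3 × ℂ} (h : z ≠ 0) : 0 < ‖z.1‖ + ‖z.2‖ :=
  lt_of_le_of_ne (by positivity) fun e => h (Prod.ext
    (norm_eq_zero.1 (by linarith [norm_nonneg z.1, norm_nonneg z.2]))
    (norm_eq_zero.1 (by linarith [norm_nonneg z.1, norm_nonneg z.2])))

theorem DnA_cont {z : RN 3 × ℂ} (h : z ≠ 0) : ContinuousAt DnA_nrm z :=
  (ContinuousAt.inv₀ (f := fun z : RN 3 × ℂ => ‖z.1‖ + ‖z.2‖) (by fun_prop)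
    (DnA_pos h).ne').smul continuousAt_id

theorem DnA_mem {z : RN 3 × ℂ} (h : z ≠ 0) : DnA_nrm z ∈ Sg := by
  have := DnA_pos h
  simp only [Sg, DnA_nrm, mem_ofPred, Prod.smul_fst, Prod.smul_snd, norm_smul, norm_inv,
    Real.norm_of_nonneg this.le]
  rw [← mul_add, inv_mul_cancel₀ this.ne']

theorem DnA_eq {z : RN 3 × ℂ} (h : z ∈ Sg) : DnA_nrm z = z := by
  rw [DnA_nrm, show ‖z.1‖ + ‖z.2‖ = 1 from h, inv_one, one_smul]

/-- the reflection acts by `-1` in positive degrees -/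
theorem Sg_neg {p : ℤ} (hp : p ≠ 0) {x : H Sg univ} (hx : IsDeg p x) (e : pull io Sg univ x = x) :
    x = 0 := by
  have h1 : (univ : Set (RN 3 × ℂ)) \ {0} = {0}ᶜ := (compl_eq_univ_sdiff _).symm
  have h2 : ({0}ᶜ : Set (RN 3 × ℂ)) \ univ = univ \ univ := by simp
  have o1 : Ok DnA_nrm {0}ᶜ univ Sg univ :=
    .of_mem (.of_continuousAt fun z hz => DnA_cont hz) (fun z hz => DnA_mem hz) fun _ _ _ => trivial
  have ci : Continuous io := by unfold io; fun_prop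
  have i0 : ∀ z, io z = 0 → z = 0 := fun z h =>
    Prod.ext (neg_eq_zero.1 (congrArg Prod.fst h)) (congrArg Prod.snd h :)
  have o2 : Ok io {0}ᶜ univ {0}ᶜ univ :=
    .of_mem (.of_continuous ci _) (fun z hz h => hz (i0 z h)) fun _ _ _ => trivial
  have o3 : Ok io Sg univ Sg univ :=
    .of_mem (.of_continuous ci _) (fun z hz => by simpa [Sg, io] using hz) fun _ _ _ => trivial
  have o4 : Ok id Sg univ ({0}ᶜ : Set (RN 3 × ℂ)) univ :=
    .id (fun z hz h => by rw [show z = 0 from h] at hz; simp [Sg] at hz) fun _ _ _ => trivial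
  have e1 : pull io {0}ᶜ univ (pull DnA_nrm {0}ᶜ univ x) = pull DnA_nrm {0}ᶜ univ x := by
    conv_rhs => rw [← e]
    rw [pull_pull o2 o1, pull_pull' (F := DnA_nrm ∘ io) o1 o3 fun z _ => by
      simp [DnA_nrm, io]]
  let T : (RN 3 × ℂ) →ₗ[ℝ] RN 3 × ℂ := ((-1 : ℝ) • LinearMap.id).prodMap LinearMap.id
  have hT : (T : RN 3 × ℂ → RN 3 × ℂ) = io := funext fun z => by simp [T, io]
  have e2 := pull_lin (T := T) ((injective_iff_map_eq_zero T).2 fun z h => i0 z (hT ▸ h))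
    (dlt univ {0} (pull DnA_nrm {0}ᶜ univ x))
  have e3 : LinearMap.det T = -1 := by
    rw [LinearMap.det_prodMap, LinearMap.det_smul, finrank_euclideanSpace_fin]
    norm_num
  have o5 : Ok io univ {0} univ {0} :=
    .of_mem (.of_continuous ci _) (mapsTo_univ _ _) fun z _ h => i0 z h
  rw [hT, pull_dlt (V := univ) (.of_continuous ci _) subset_rfl (subset_univ _) o5 o2 h1.le h1.le,
    e1, e3] at e2
  have e4 : dlt univ {0} (pull DnA_nrm {0}ᶜ univ x) = 0 := by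
    have : (2 : ℂ) • dlt univ {0} (pull DnA_nrm {0}ᶜ univ x) = 0 := by
      rw [two_smul]
      nth_rewrite 1 [e2]
      simp
    exact (smul_eq_zero.1 this).resolve_left two_ne_zero
  obtain ⟨y, hy⟩ := (exact_res_dlt h1 h2 _).1 e4
  have v : Van p (univ : Set (RN 3 × ℂ)) univ :=
    van_contr (F := fun z => z.2 • z.1) (.of_continuous (by fun_prop) _) (fun _ _ _ _ => trivial)
      (mem_univ 0) (fun _ _ => zero_smul _ _) (fun _ _ => one_smul _ _) hp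
  have e5 : pull DnA_nrm {0}ᶜ univ x = 0 := by
    rw [← isDeg_iff.1 (hx.pull DnA_nrm {0}ᶜ univ), ← hy, ← pull_prj, v.eq_zero (isDeg_prj p y),
      map_zero]
  rw [← pull_id x, ← pull_pull' o4 o1 fun z hz => DnA_eq hz, e5, map_zero]

theorem van_Sg {v : RN 3 × ℂ} (hv : v ∈ Sg) {d : ℤ} (hd : d ≠ 0) : Van d (Sg \ {v}) univ := by
  have hv' : ‖v.1‖ + ‖v.2‖ = 1 := hv
  have ne : ∀ z ∈ Sg \ {v}, ∀ t ∈ Icc (0 : ℝ) 1, ∀ s : ℝ, 0 ≤ s →
      t • z - (1 - t) • v ≠ s • v := fun z hz t ht s hs e => by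
    have hz' : ‖z.1‖ + ‖z.2‖ = 1 := hz.1
    have h0 : 0 ≤ s + (1 - t) := by linarith [ht.2]
    have e1 : t • z = (s + (1 - t)) • v := by rw [add_smul, ← e, sub_add_cancel]
    have e2 : t = s + (1 - t) := by
      have a := congrArg (fun w : RN 3 × ℂ => ‖w.1‖ + ‖w.2‖) e1
      simp only [Prod.smul_fst, Prod.smul_snd, norm_smul, Real.norm_of_nonneg ht.1,
        Real.norm_of_nonneg h0, ← mul_add, hz', hv', mul_one] at a
      exact a
    rw [← e2] at e1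
    exact hz.2 (smul_right_injective _ (show t ≠ 0 by intro h; rw [h] at e2; linarith) e1)
  have n0 : ∀ z ∈ Sg \ {v}, ∀ t ∈ Icc (0 : ℝ) 1, t • z - (1 - t) • v ≠ 0 := fun z hz t ht => by
    simpa only [zero_smul] using ne z hz t ht 0 le_rfl
  have m : ∀ z ∈ Sg \ {v}, ∀ t ∈ Icc (0 : ℝ) 1, DnA_nrm (t • z - (1 - t) • v) ∈ Sg \ {v} :=
    fun z hz t ht => ⟨DnA_mem (n0 z hz t ht), fun e => ne z hz t ht _ (DnA_pos (n0 z hz t ht)).le
      ((eq_inv_smul_iff₀ (DnA_pos (n0 z hz t ht)).ne').1 (Eq.symm e)).symm⟩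
  have nv : -v ∈ Sg := by simpa [Sg] using hv'
  have mv : -v ∈ Sg \ {v} := ⟨nv, fun e => by
    have : v = 0 := (smul_eq_zero.1 (by rw [two_smul, ← eq_neg_iff_add_eq_zero]; exact Eq.symm e :
      (2 : ℝ) • v = 0)).resolve_left two_ne_zero
    simp [this] at hv'⟩
  refine van_contr (F := fun z => DnA_nrm (z.2 • z.1 - (1 - z.2) • v))
    (.of_continuousAt fun z hz => (DnA_cont (n0 _ hz.1 _ hz.2)).comp (f := fun z : (RN 3 × ℂ) × ℝ =>
      z.2 • z.1 - (1 - z.2) • v) (by fun_prop)) m mv (fun z _ => ?_) (fun z hz => ?_) hd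
  · simp only [zero_smul, sub_zero, one_smul, zero_sub, DnA_eq nv]
  · simp only [one_smul, sub_self, zero_smul, sub_zero, DnA_eq hz.1]

namespace TD

variable (D : TD n)

theorem exists_T3 : ∃ T : RN 3 →ₗᵢ[ℝ] RN D.N, ∀ x, D.K D.c0 x = x ↔ ∃ a, T a = x := by
  let b := (stdOrthonormalBasis ℝ (LinearMap.range (D.K D.c0 : RN D.N →ₗ[ℝ] RN D.N))).reindex
    (finCongr (D.rkK _ D.c0S))
  refine ⟨(Submodule.subtypeₗᵢ _).comp b.repr.symm.toLinearIsometry, fun x => ⟨fun h =>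
    ⟨b.repr ⟨x, x, h⟩, by simp⟩, ?_⟩⟩
  rintro ⟨a, rfl⟩
  obtain ⟨y, hy⟩ := (b.repr.symm a).2
  change D.K D.c0 (b.repr.symm a) = b.repr.symm a
  rw [← hy]
  exact D.idK _ D.c0S y

/-- an isometry onto the fibre over `c0` -/
def T3 : RN 3 →ₗᵢ[ℝ] RN D.N := D.exists_T3.choose

theorem T3_spec {x : RN D.N} : D.K D.c0 x = x ↔ ∃ a, D.T3 a = x := D.exists_T3.choose_spec x

theorem K_T3 (a : RN 3) : D.K D.c0 (D.T3 a) = D.T3 a := D.T3_spec.2 ⟨a, rfl⟩

/-- the pushed loops -/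
def lp (x : RN 3) : LM n :=
  open Classical in if x = 0 then D.c0 else D.Hh (‖x‖, D.c0, D.T3 (‖x‖⁻¹ • x))

/-- the swept out sphere -/
def ps (z : RN 3 × ℂ) : AM n := D.lp z.1 (phs z.2)

/-- pairs of points on the loops `Q` -/
def qq (s : ℝ) (z : RN 3 × ℝ) : AM n × AM n :=
  (D.Q (s, D.T3 (clp z.1)) 1, D.Q (s, D.T3 (clp z.1)) (cs (tmc z.2)))

theorem DnA_unit {x : RN 3} (hx : ‖x‖ = 1) : (D.c0, D.T3 x) ∈ unitK D.S D.K :=
  ⟨D.c0S, D.K_T3 x, (D.T3.norm_map x).trans hx⟩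

theorem DnA_pol {x : RN 3} (hx : ‖x‖ ≤ 1) : ∃ r ∈ Icc (0 : ℝ) 1, ∃ u : RN 3, ‖u‖ = 1 ∧ x = r • u := by
  by_cases h : x = 0
  · exact ⟨0, ⟨le_rfl, zero_le_one⟩, EuclideanSpace.single 0 1, by simp, by simp [h]⟩
  · have := norm_ne_zero_iff.2 h
    exact ⟨‖x‖, ⟨norm_nonneg _, hx⟩, ‖x‖⁻¹ • x, by simp [norm_smul, this], (smul_inv_smul₀ this x).symm⟩

theorem lp_eq {r : ℝ} (hr : 0 ≤ r) {x : RN 3} (hx : ‖x‖ = 1) :
    D.lp (r • x) = D.Hh (r, D.c0, D.T3 x) := by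
  rcases hr.eq_or_lt with rfl | h
  · rw [zero_smul, lp, if_pos rfl]
    exact (D.H0 _ (D.DnA_unit hx)).symm
  · have h0 : r • x ≠ 0 := smul_ne_zero h.ne' (norm_ne_zero_iff.1 (by simp [hx]))
    rw [lp, if_neg h0, norm_smul, hx, mul_one, Real.norm_of_nonneg hr, inv_smul_smul₀ h.ne']

theorem cont_lp : ContinuousOn D.lp (Metric.closedBall 0 1) := by
  refine contOn_of_cpt (K := Icc (0 : ℝ) 1 ×ˢ Metric.sphere (0 : RN 3) 1)
    (isCompact_Icc.prod (isCompact_sphere _ _))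
    (show ContinuousOn (fun y : ℝ × RN 3 => y.1 • y.2) _ by fun_prop)
    (fun x hx => ?_) (G := fun y => D.Hh (y.1, D.c0, D.T3 y.2))
    (D.cH.comp (by fun_prop) fun y hy => ⟨hy.1, D.DnA_unit (mem_sphere_zero_iff_norm.1 hy.2)⟩)
    fun y hy => D.lp_eq hy.1.1 (mem_sphere_zero_iff_norm.1 hy.2)
  obtain ⟨r, hr, u, hu, rfl⟩ := DnA_pol (mem_closedBall_zero_iff.1 hx)
  exact ⟨(r, u), ⟨hr, mem_sphere_zero_iff_norm.2 hu⟩, rfl⟩

theorem lp_mem {x : RN 3} (hx : ‖x‖ ≤ 1) (θ : Circle) : D.lp x θ ∈ MH n := by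
  obtain ⟨r, hr, u, hu, rfl⟩ := DnA_pol hx
  rw [D.lp_eq hr.1 hu]
  exact D.memH r hr _ (D.DnA_unit hu) θ

theorem lp_const {x : RN 3} (hx : ‖x‖ = 1) (θ : Circle) : D.lp x θ = D.lp x 1 := by
  rw [← one_smul ℝ x, D.lp_eq zero_le_one hx]
  exact D.H1 _ (D.DnA_unit hx) θ

theorem lp_cut {x : RN 3} (hx : ‖x‖ ≤ 1) {θ : Circle} (h : (D.lp x 1, D.lp x θ) ∈ D.F) :
    x = 0 ∧ θ = cs (π / 2) := by
  obtain ⟨r, hr, u, hu, rfl⟩ := DnA_pol hx
  rcases hr.1.eq_or_lt with rfl | h0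
  · rw [zero_smul, lp, if_pos rfl] at h
    exact ⟨zero_smul _ _, (D.cut_iff D.c0S).1 h⟩
  · rw [D.lp_eq hr.1 hu] at h
    exact absurd h (D.short r ⟨h0, hr.2⟩ _ (D.DnA_unit hu) θ)

theorem Q_zero {x : RN 3} (hx : ‖x‖ ≤ 1) : D.Q (0, D.T3 x) = D.lp (D.s0 • x) := by
  obtain ⟨r, hr, u, hu, rfl⟩ := DnA_pol hx
  rw [smul_smul, D.lp_eq (mul_nonneg D.s0I.1.le hr.1) hu, map_smul,
    D.Q0 r hr _ (D.K_T3 u) ((D.T3.norm_map u).trans hu)]

theorem cont_ps : ContinuousOn D.ps Sg := by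
  refine contOn_of_cpt (K := Metric.closedBall (0 : RN 3) 1 ×ˢ (univ : Set Circle))
    ((isCompact_closedBall _ _).prod isCompact_univ)
    (show ContinuousOn (fun y : RN 3 × Circle => (y.1, ((1 - ‖y.1‖ : ℝ) : ℂ) * y.2)) _ by fun_prop)
    (fun z hz => ?_)
    (G := fun y => D.lp y.1 y.2) (continuous_eval.comp_continuousOn
      ((D.cont_lp.comp continuousOn_fst fun _ h => h.1).prodMk continuousOn_snd)) fun y hy => ?_
  · have h : ‖z.1‖ + ‖z.2‖ = 1 := hz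
    refine ⟨(z.1, phs z.2), ⟨mem_closedBall_zero_iff.2 (by linarith [norm_nonneg z.2]), trivial⟩,
      Prod.ext rfl ?_⟩
    simp only [← h, add_sub_cancel_left, norm_mul_phs]
  · rcases (mem_closedBall_zero_iff.1 hy.1).eq_or_lt with h | h
    · exact (D.lp_const h _).trans (D.lp_const h _).symm
    · simp only [ps, phs_mul (sub_pos.2 h)]

theorem ps_mem : MapsTo D.ps Sg (MH n) := by
  intro z hz
  have h : ‖z.1‖ + ‖z.2‖ = 1 := hz
  exact D.lp_mem (by linarith [norm_nonneg z.2]) _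

theorem cont_qq : ContinuousOn (fun y : (RN 3 × ℝ) × ℝ => D.qq y.2 y.1) (univ ×ˢ Icc 0 1) := by
  have h : ContinuousOn (fun y : (RN 3 × ℝ) × ℝ => D.Q (y.2, D.T3 (clp y.1.1))) (univ ×ˢ Icc 0 1) :=
    D.cQ.comp (continuous_snd.prodMk (D.T3.continuous.comp
      (continuous_clp.comp continuous_fst.fst))).continuousOn fun y hy =>
        ⟨hy.2, D.K_T3 _, (D.T3.norm_map _).trans_le (norm_clp_le _)⟩
  exact (continuous_eval.comp_continuousOn (h.prodMk continuousOn_const)).prodMk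
    (continuous_eval.comp_continuousOn (h.prodMk (continuous_cs.comp
      (continuous_tmc.comp continuous_fst.snd)).continuousOn))

theorem qq_mem {s : ℝ} (hs : s ∈ Icc (0 : ℝ) 1) (z : RN 3 × ℝ) : D.qq s z ∈ MM n := by
  have h := D.memQ s hs _ (D.K_T3 (clp z.1)) ((D.T3.norm_map _).trans_le (norm_clp_le _))
  exact ⟨h _, h _⟩

theorem qq_cut {s : ℝ} (hs : s ∈ Icc (0 : ℝ) 1) {z : RN 3 × ℝ} (h : D.qq s z ∈ D.F) :
    z ∈ Metric.ball (0 : RN 3 × ℝ) 1 := by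
  rw [mem_ball_zero_iff, Prod.norm_def]
  refine max_lt (lt_of_not_ge fun k => ?_) (lt_of_not_ge fun k => ?_)
  · exact D.Qb s hs _ (D.K_T3 _) ((D.T3.norm_map _).trans (norm_clp_eq k)) _ h
  · refine (D.F_sub h).2 ?_
    change D.Q _ 1 = D.Q _ (cs (tmc z.2))
    rw [cs_tmc k]

end TD

end Pool.Agent.Work.MP_8c604c_gt.T
end
end

-- merged part: Pool.Agent.Work.MP_8c604c_gt.T.DnB
section
/-!
The broken geodesics meet the cut locus essentially.
Notation: `c1 = sh (cs (π / 4)) c0`, `y1 = en c1`, `Tw (a, x) = a • vel c1 + B c1 (T3 x)`, `K c1 = K c0` (invK).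
Plan.
* `Tw_mem`, `Tw_inj`: by `BW` and `mem_Ws` the range of `Tw` is `Ws y1` (`Lk c1 c'` says `en c' = en c1`), which has
  dimension `4` (rb_WF.rank, WF_eq), and `ℝ × RN 3` has dimension `4`.
* `sl_ne`: `thF_slice` for `Tw ∘ e`, `e : (Fin 4 → ℝ) ≃ₗ ℝ × RN 3`; `pull_pull'`, `ok_lin`.
* `mv s v = (c0 (cs (s π / 4)), (Th (y1, Tw v)).2)`; `mv 1 v = Th (y1, Tw v)` (Th_fst).
  `mv_bdd`: the set of `(s, c, t)` in `Icc 0 1 × S × Icc 0 (π / 2)` with `c 1 = c1 1` and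
  `(c0 (cs (s π / 4)), c (cs t)) ∈ F` is compact and `t > 0` on it (not_cut), so `t ≥ δ`; write `Tw v = r • vel c`
  (mem_Ws, Th_eq), `t = π / 2 / (1 + r)`, so `r` is bounded, `vel` is bounded on `S`, `Tw` is antilipschitz.
* `mv_zero`: `cut1` gives `c = c1`, `t = π / 4`, `r = 1`, `Tw v = vel c1 = Tw (1, 0)`.
* `mv_ne`: if the class vanishes with support `{(1, 0)}` then also with support `closedBall 0 R`, `R ≥ 1`;
  `pull_htpy'` along `mv s`; `zb_star` and `sl_ne`.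
* `qq_one`: for `tmc z.2 ∈ [π / 4, 3 π / 4]` use `Q1` (first part) and `cut1`; `g x = c1` forces `x = 0` by `gS`,
  `Tw_inj`, `εne`.  For the other times `Q1` (second part; `cs (t - π) = cs t`) and `not_cut`.
  `Q (1, x) 1 = c0 1` (`t = π / 4`).
* `qq_ne`: suppose the class is `0`; by `zb_star` it is `0` with support `{0}`.  On the open set
  `O = {v | 0 < v.1 ∧ ‖v.2‖ < |ε| * v.1}` let `σ v = ((ε v.1)⁻¹ • v.2, (t v - π / 4) / (π / 2))`,
  `t v = π / 2 / (1 + gr (c1 1, Tw v))` (cont_gr).  With `x = T3 (σ v).1`, `Tw v` is a positive multiple of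
  `vel (g x)` (gS), so `qq 1 (σ v) = mv 0 v` (Th_eq, gc_eq, Q1).  Pull back along `σ` (`σ v = 0` gives
  `v = (1, 0)` by `mv_zero` or directly), excision (`ZB.excision_univ`), `mv_ne`.
-/

noncomputable section

namespace Pool.Agent.Work.MP_8c604c_gt.T

open Set Real Topology Pool.Agent.Work.MP_849ab0_ag.G

variable {n : ℕ}

namespace TD

variable (D : TD n)

/-- the geodesic `c0` from the time `π / 4` on -/
def c1 : LM n := sh (cs (π / 4)) D.c0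

/-- coordinates on the fibre of `WF` -/
def Tw : ℝ × RN 3 →ₗ[ℝ] AM n :=
  (LinearMap.toSpanSingleton ℝ _ (D.vel D.c1)).coprod
    ((D.B D.c1 : RN D.N →ₗ[ℝ] AM n) ∘ₗ D.T3.toLinearMap)

/-- the first point moves along `c0` -/
def mv (s : ℝ) (v : ℝ × RN 3) : AM n × AM n :=
  (D.c0 (cs (s * (π / 4))), (D.Th (D.en D.c1, D.Tw v)).2)

theorem Tw_apply (v : ℝ × RN 3) : D.Tw v = v.1 • D.vel D.c1 + D.B D.c1 (D.T3 v.2) := rfl

theorem c1_mem : D.c1 ∈ D.S := D.inv _ _ D.c0S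

theorem Tw_mem {X : AM n} : X ∈ D.Ws (D.en D.c1) ↔ ∃ v, D.Tw v = X := by
  have e : D.K D.c1 = D.K D.c0 := D.invK _ _ D.c0S
  have b := D.BW D.c1 D.c1_mem X
  rw [D.mem_Ws (D.en_mem D.c1_mem)]
  constructor
  · rintro ⟨c, hc, h, k⟩
    obtain ⟨t, x, hx, rfl⟩ := b.1 ⟨c, hc, Prod.ext_iff.1 h, k⟩
    obtain ⟨a, rfl⟩ := D.T3_spec.1 (e ▸ hx)
    exact ⟨(t, a), rfl⟩
  · rintro ⟨v, rfl⟩
    obtain ⟨c, hc, h, k⟩ := b.2 ⟨v.1, D.T3 v.2, e ▸ D.K_T3 _, rfl⟩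
    exact ⟨c, hc, Prod.ext h.1 h.2, k⟩

theorem Tw_inj : Function.Injective D.Tw := by
  have h1 : LinearMap.range D.Tw =
      LinearMap.range (D.WF (D.en D.c1) : AM n →ₗ[ℝ] AM n) := Submodule.ext fun X => by
    rw [D.rb_WF.mem_range (D.en_mem D.c1_mem), D.WF_eq, D.Tw_mem]; rfl
  have h2 := D.Tw.finrank_range_add_finrank_ker
  rw [h1, D.rb_WF.rank _ (D.en_mem D.c1_mem), Module.finrank_prod, finrank_euclideanSpace_fin,
    Module.finrank_self] at h2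
  exact LinearMap.ker_eq_bot.1 (Submodule.finrank_eq_zero.1 (by omega))

theorem dnb_Ws (v : ℝ × RN 3) : D.Tw v ∈ D.Ws (D.en D.c1) := D.Tw_mem.2 ⟨v, rfl⟩

theorem dnb_tot (v : ℝ × RN 3) : (D.en D.c1, D.Tw v) ∈ totR D.WF D.F :=
  ⟨D.en_mem D.c1_mem, D.WF_eq.2 (D.dnb_Ws v)⟩

theorem dnb_Tt (v : ℝ × RN 3) : (D.c1 1, D.Tw v) ∈ Tt n :=
  D.Ws_tan (D.en_mem D.c1_mem) (D.dnb_Ws v)

theorem dnb_time {r : ℝ} (hr : 0 ≤ r) : π / 2 / (1 + r) ∈ Icc 0 (π / 2) :=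
  ⟨by positivity, div_le_self (by positivity) (by linarith)⟩

theorem dnb_Th {c : LM n} (hc : c ∈ D.S) (h : Lk D.c1 c) {r : ℝ} (hr : 0 ≤ r) {v : ℝ × RN 3}
    (e : D.Tw v = r • D.vel c) : (D.Th (D.en D.c1, D.Tw v)).2 = c (cs (π / 2 / (1 + r))) ∧
      D.gr (D.c1 1, D.Tw v) = r := by
  refine ⟨by rw [e, ← show D.en c = D.en D.c1 from Prod.ext h.1 h.2, D.Th_eq hc hr], ?_⟩
  rw [e, ← h.1]
  rcases hr.eq_or_lt with rfl | k
  · rw [zero_smul, D.gr_zero]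
  · exact (D.gc_eq hc k).2

theorem dnb_ex (v : ℝ × RN 3) : ∃ c ∈ D.S, Lk D.c1 c ∧ ∃ r : ℝ, 0 ≤ r ∧ D.Tw v = r • D.vel c := by
  obtain ⟨c, hc, h, k⟩ := (D.mem_Ws (D.en_mem D.c1_mem)).1 (D.dnb_Ws v)
  exact ⟨c, hc, Prod.ext_iff.1 h, k⟩

theorem sl_ne (hn : 2 ≤ n) :
    pull (fun v => D.Th (D.en D.c1, D.Tw v)) univ {0} D.thF ≠ 0 :=
  D.toTD0.thF_slice' (by omega) (D.en_mem D.c1_mem) (by simp) D.Tw_inj D.dnb_Ws

theorem cont_mv : Continuous fun y : (ℝ × RN 3) × ℝ => D.mv y.2 y.1 :=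
  (D.c0.continuous.comp (continuous_cs.comp (by fun_prop))).prodMk
    (D.cont_Th.comp_continuous (continuous_const.prodMk
      (D.Tw.continuous_of_finiteDimensional.comp continuous_fst)) fun y => D.dnb_tot y.1).snd

theorem mv_mem (s : ℝ) (v : ℝ × RN 3) : D.mv s v ∈ MM n :=
  ⟨D.mem _ D.c0S _, (D.Th_mem (D.dnb_tot v)).1.2⟩

theorem dnb_c1 : D.c1 1 = D.c0 (cs (π / 4)) := by rw [c1, sh_apply, mul_one]

theorem mv_bdd : ∃ R : ℝ, 1 ≤ R ∧ ∀ s ∈ Icc (0 : ℝ) 1, ∀ v, D.mv s v ∈ D.F → ‖v‖ ≤ R := by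
  have p := pi_pos
  have m1 : D.c1 1 ∈ MH n := D.mem _ D.c1_mem _
  have hK : IsCompact (Icc (0 : ℝ) 1 ×ˢ MH n ∩
      (fun z : ℝ × AM n => (D.c0 (cs (z.1 * (π / 4))), z.2)) ⁻¹' D.F) :=
    (isCompact_Icc.prod isCompact_MH).inter_right (D.isClosed_F.preimage
      ((D.c0.continuous.comp (continuous_cs.comp (by fun_prop))).prodMk continuous_snd))
  obtain ⟨δ, d0, hδ⟩ := hK.exists_forall_le' (f := fun z => D.lt (D.c1 1, z.2)) (a := 0)
    (D.cont_lt.comp (by fun_prop) fun z hz => ⟨m1, hz.1.2⟩) fun z hz =>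
      (D.lc_spec (y := (D.c1 1, z.2)) ⟨⟨m1, hz.1.2⟩, fun e => by
        have e' : D.c0 (cs (π / 4)) = z.2 := D.dnb_c1.symm.trans e
        refine (D.not_cut D.c0S (s := z.1 * (π / 4)) (t := π / 4) (abs_lt.2 ⟨?_, ?_⟩)).2
          (e' ▸ hz.2)
        · nlinarith [hz.1.1.2]
        · nlinarith [hz.1.1.1]⟩).2.2.1.1
  obtain ⟨a, b, a0, -, hab⟩ := D.gr_bound
  obtain ⟨K, -, hT⟩ := D.Tw.exists_antilipschitzWith (LinearMap.ker_eq_bot.2 D.Tw_inj)
  refine ⟨max 1 (K * (π / 2 / δ / a)), le_max_left _ _, fun s hs v h => le_max_of_le_right ?_⟩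
  obtain ⟨c, hc, l, r, hr, e⟩ := D.dnb_ex v
  obtain ⟨e1, e2⟩ := D.dnb_Th hc l hr e
  have h1 := hδ (s, (D.mv s v).2) ⟨⟨hs, (D.mv_mem s v).2⟩, h⟩
  change δ ≤ D.lt (D.c1 1, (D.Th (D.en D.c1, D.Tw v)).2) at h1
  rw [e1, ← l.1, D.lt_eq hc (dnb_time hr), le_div_iff₀ (by linarith)] at h1
  have h2 := (hab _ (D.dnb_Tt v)).1
  rw [e2] at h2
  refine (ZeroHomClass.bound_of_antilipschitz D.Tw hT v).trans
    (mul_le_mul_of_nonneg_left ?_ K.2)
  rw [le_div_iff₀ a0, le_div_iff₀ d0]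
  nlinarith

theorem mv_zero {v : ℝ × RN 3} (h : D.mv 0 v ∈ D.F) : v = (1, 0) := by
  obtain ⟨c, hc, l, r, hr, e⟩ := D.dnb_ex v
  rw [mv, (D.dnb_Th hc l hr e).1, zero_mul, cs_zero] at h
  obtain ⟨h1, h2⟩ := D.cut1 c hc l _ (dnb_time hr) h
  have p := pi_pos
  rw [div_eq_iff (by linarith)] at h2
  have : r = 1 := by nlinarith
  refine D.Tw_inj ?_
  rw [e, this, h1, Tw_apply]
  simp [c1]

theorem dnb_ok (s : ℝ) {U Z : Set (ℝ × RN 3)} (h : ∀ v ∈ U, D.mv s v ∈ D.F → v ∈ Z) :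
    Ok (D.mv s) U Z (MM n) D.F :=
  .of_mem (.of_continuous (D.cont_mv.comp (continuous_id.prodMk continuous_const)) _)
    (fun v _ => D.mv_mem s v) h

theorem mv_ne (hn : 2 ≤ n) : pull (D.mv 0) univ {(1, 0)} D.thF ≠ 0 := fun h => by
  obtain ⟨R, R1, hR⟩ := D.mv_bdd
  have e1 : D.mv 1 = fun v => D.Th (D.en D.c1, D.Tw v) := funext fun v =>
    Prod.ext (by rw [D.Th_fst, mv, one_mul]; exact D.dnb_c1.symm) rfl
  have o1 : Ok (D.mv 1) univ {0} (MM n) D.F := D.dnb_ok 1 fun v _ k =>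
    D.Tw_inj (((D.Th_F (D.dnb_tot v)).1 (congrFun e1 v ▸ k)).trans (map_zero _).symm)
  have z := zb_convex (K := Metric.closedBall (0 : ℝ × RN 3) R) (O := univ)
    (Metric.mem_closedBall_self (by linarith)) (convex_closedBall _ _) (isCompact_closedBall _ _)
    isOpen_univ (subset_univ _)
  have o0 : Ok (D.mv 0) univ {(1, 0)} (MM n) D.F := D.dnb_ok 0 fun _ _ => D.mv_zero
  refine D.sl_ne hn (z.bij.1 ?_)
  rw [map_zero, ← e1, pull_pull' (F := D.mv 1) z.ok o1 fun _ _ => rfl,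
    ← pull_htpy' (f := D.mv 0) (g := D.mv 1) (F := fun y => D.mv y.2 y.1)
      (.of_continuous D.cont_mv _) (fun v _ s _ => D.mv_mem s v)
      (fun v _ s hs k => mem_closedBall_zero_iff.2 (hR s hs v k)) (fun _ _ => rfl) fun _ _ => rfl,
    ← res_pull o0 subset_rfl fun v _ k => by
      rw [k, mem_closedBall_zero_iff]; simpa using R1, h, map_zero]

theorem dnb_Q {x : RN 3} (hx : ‖x‖ ≤ 1) : D.Q (1, D.T3 x) 1 = D.c0 1 := by
  have p := pi_pos
  have := (D.Q1 _ (D.K_T3 x) (by rwa [D.T3.norm_map]) (π / 4) ⟨by positivity, by linarith⟩).2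
  rwa [sub_self, cs_zero] at this

theorem qq_one {z : RN 3 × ℝ} (h : D.qq 1 z ∈ D.F) : z = 0 := by
  have p := pi_pos
  have n1 : ‖D.T3 (clp z.1)‖ ≤ 1 := by rw [D.T3.norm_map]; exact norm_clp_le _
  have q := D.Q1 _ (D.K_T3 (clp z.1)) n1
  have m := tmc_mem z.2
  rw [qq, D.dnb_Q (norm_clp_le _)] at h
  have key : ∀ t, |t| ≤ π / 4 → cs (tmc z.2) ≠ cs t := fun t ht e => by
    have := (q (t + π / 4) ⟨by linarith [(abs_le.1 ht).1], by linarith [(abs_le.1 ht).2]⟩).2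
    rw [add_sub_cancel_right] at this
    rw [e, this, ← cs_zero] at h
    exact (D.not_cut D.c0S (by rw [sub_zero]; linarith)).2 h
  have h1 : π / 4 < tmc z.2 := not_le.1 fun k => key _ (by rwa [abs_of_nonneg m.1]) rfl
  have h2 : tmc z.2 < 3 * π / 4 := not_le.1 fun k => key (tmc z.2 - π)
    (abs_le.2 ⟨by linarith, by linarith [m.2]⟩)
    (by rw [← mul_one (cs (_ - π)), ← cs_pi, ← cs_add, sub_add_cancel])
  have m' : tmc z.2 - π / 4 ∈ Icc 0 (π / 2) := ⟨by linarith, by linarith⟩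
  have := (q _ m').1
  rw [sub_add_cancel] at this
  rw [this] at h
  obtain ⟨g1, g2, r, hr, g3⟩ := D.gS _ (D.K_T3 (clp z.1)) n1
  obtain ⟨k1, k2⟩ := D.cut1 _ g1 g2 _ m' h
  have k3 : (r, (r * D.ε) • clp z.1) = (1, 0) := D.Tw_inj (by
    rw [k1] at g3
    rw [Tw_apply, Tw_apply]
    simp only [map_smul, mul_smul, map_zero, one_smul, add_zero, ← smul_add]
    exact g3.symm)
  have k4 := (smul_eq_zero.1 (congrArg Prod.snd k3)).resolve_left (mul_ne_zero hr.ne' D.εne)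
  refine Prod.ext ((smul_eq_zero.1 k4).resolve_left (by positivity)) ?_
  have k5 : max (-1) (min 1 z.2) = 0 := by
    rw [tmc] at k2
    nlinarith
  change z.2 = 0
  rcases le_total z.2 (-1) with a | a
  · rw [min_eq_right (by linarith), max_eq_left a] at k5
    norm_num at k5
  · rcases le_total z.2 1 with b | b
    · rwa [min_eq_right b, max_eq_right a] at k5
    · rw [min_eq_left b] at k5
      norm_num at k5

/-- the comparison map -/
def dnb_sg (v : ℝ × RN 3) : RN 3 × ℝ :=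
  ((D.ε * v.1)⁻¹ • v.2, (π / 2 / (1 + D.gr (D.c1 1, D.Tw v)) - π / 4) / (π / 2))

theorem dnb_qq {v : ℝ × RN 3} (h0 : 0 < v.1) (h : ‖v.2‖ < |D.ε| * v.1) :
    D.qq 1 (D.dnb_sg v) = D.mv 0 v := by
  have p := pi_pos
  have e0 := abs_pos.2 D.εne
  have n0 : ‖(D.ε * v.1)⁻¹ • v.2‖ ≤ 1 := by
    rw [norm_smul, norm_inv, Real.norm_eq_abs, abs_mul, abs_of_pos h0]
    exact inv_mul_le_one_of_le₀ h.le (by positivity)
  have n1 : ‖D.T3 ((D.ε * v.1)⁻¹ • v.2)‖ ≤ 1 := by rwa [D.T3.norm_map]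
  obtain ⟨g1, g2, r, hr, g3⟩ := D.gS _ (D.K_T3 _) n1
  have hr' : 0 ≤ v.1 / r := by positivity
  obtain ⟨e1, e2⟩ := D.dnb_Th g1 g2 hr' (v := v) (by
    rw [g3, smul_smul, div_mul_cancel₀ _ hr.ne', map_smul, map_smul, smul_add, smul_smul,
      smul_smul, mul_comm v.1, mul_inv_cancel₀ (mul_ne_zero D.εne h0.ne'), one_smul]
    rfl)
  have m := dnb_time hr'
  rw [qq, mv, dnb_sg, clp_eq n0, D.dnb_Q n0, zero_mul, cs_zero, e1, e2, ← (D.Q1 _ (D.K_T3 _) n1 _ m).1,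
    tmc_eq (abs_le.2 ⟨by rw [le_div_iff₀ (by positivity)]; linarith [m.1],
      by rw [div_le_iff₀ (by positivity)]; linarith [m.2]⟩)]
  congr 3
  field_simp
  ring

theorem qq_ne (hn : 2 ≤ n) : pull (D.qq 1) univ (Metric.ball 0 1) D.thF ≠ 0 := fun h => by
  have o1 : Ok (D.qq 1) univ {0} (MM n) D.F := .of_mem (.of_continuous
    (D.cont_qq.comp_continuous (continuous_id.prodMk continuous_const)
      fun _ => ⟨trivial, zero_le_one, le_rfl⟩) _)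
    (fun z _ => D.qq_mem ⟨zero_le_one, le_rfl⟩ z) fun _ _ => D.qq_one
  have z := zb_star (K := Metric.ball (0 : RN 3 × ℝ) 1) (Metric.mem_ball_self one_pos)
    (fun _ k _ ht => (convex_ball _ _).smul_mem_of_zero_mem (Metric.mem_ball_self one_pos) k ht)
    Metric.isBounded_ball
  have h1 : pull (D.qq 1) univ {0} D.thF = 0 := z.bij.1 (by
    rw [pull_pull' (F := D.qq 1) z.ok o1 fun _ _ => rfl, h, map_zero])
  let O : Set (ℝ × RN 3) := {v | 0 < v.1 ∧ ‖v.2‖ < |D.ε| * v.1}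
  have hO : IsOpen O := (isOpen_lt continuous_const continuous_fst).inter
    (isOpen_lt continuous_snd.norm (continuous_const.mul continuous_fst))
  have ex := ZB.excision_univ (O := O) (Z := {(1, 0)}) isClosed_singleton fun x k =>
    hO.mem_nhds (by rw [k]; exact ⟨one_pos, by simpa using D.εne⟩)
  have o0 : Ok (D.mv 0) univ {(1, 0)} (MM n) D.F := D.dnb_ok 0 fun _ _ => D.mv_zero
  refine D.mv_ne hn (ex.bij.1 ?_)
  rw [map_zero, pull_pull' (F := D.mv 0) ex.ok o0 fun _ _ => rfl]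
  by_cases h0 : D.qq 1 0 ∈ D.F
  · have cg : Continuous fun v => D.gr (D.c1 1, D.Tw v) := D.cont_gr.comp_continuous
      (continuous_const.prodMk D.Tw.continuous_of_finiteDimensional) D.dnb_Tt
    have o2 : Ok D.dnb_sg O {(1, 0)} univ {0} := ok_of hO.isLocallyClosed
      ((((continuousOn_const.mul continuousOn_fst).inv₀ fun v k =>
        mul_ne_zero D.εne k.1.ne').smul continuousOn_snd).prodMk
        (((continuous_const.div (continuous_const.add cg) fun v => ne_of_gt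
          (add_pos_of_pos_of_nonneg one_pos (D.gr_nonneg (D.dnb_Tt v)))).sub continuous_const).div_const _).continuousOn)
      (mapsTo_univ _ _) fun v k e => D.mv_zero (by rwa [← D.dnb_qq k.1 k.2, e])
    rw [← pull_pull' o2 o1 fun v k => D.dnb_qq k.1 k.2, h1, map_zero]
  · exact pull_miss (o0.ext.mono (subset_univ _)) (fun v _ => D.mv_mem 0 v) (fun v k e => h0 (by
      rw [← D.dnb_qq k.1 k.2] at e
      rwa [D.qq_one e] at e)) _

end TD

end Pool.Agent.Work.MP_8c604c_gt.T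
end
end
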