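import Pool.Agent.Work.MP_8c604c_gt.T.Tot
import Pool.Agent.Work.MP_8c604c_gt.OT.Tor
import Pool.Agent.Work.MP_8c604c_gt.T.HS
import Pool.Agent.Work.MP_8c604c_gt.T.DnB

-- merged part: Pool.Agent.Work.MP_8c604c_gt.T.Psi
section
-- merged part: Pool.Agent.Work.MP_8c604c_gt.T.Psi
section
/-!
The map `Ps : Tq → MM n`, the classes `yp`, `ym`, `zq`, `mu` and their first relations
(owner helper87).

PLAN.
* `pp_qP`: `exists_oL`, `eqH`, `H1`.  `ok_pp`: `CQ.contOn'` for `cq_qP`, `cH`, `memH`.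
* `qP_pp`: `pull_htpy'` with `(x, s) ↦ Hh (s, x) 1`, `H0`; `qP_pm` from `anti`.
* `Ps_kap`: `kap_inj`; for radius zero both loops are constant (`H1`, `eqH`).  `ok_Ps`: continuity
  by `CQ.contOn'` for `cq_kap`; for radius `> 1` the value is `j0 x.1` (`H0`, `j0_mem`).
* `Ps (zer y) = (pp y, pm y)` (`zer (qP x) = kap (x, 0)`, `H1`), hence `zer_uu`, `zer_vv`.
* `mu_ee`: apply `pull (zer _) Pq univ` to `tq_mu`: `CB.zer_thd`, `pull_pull'`, `fgt_thF`.
  `hn_mu`: pull back `hh_thF` (`pull_cm`, `CB.cup_thd`), `tq_bij`.  `bD_ee` likewise with `fgt_tauD`.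
* `gys_vp`: pull back `dlt_vp` along `Ps` (`pull_dlt`; `MM n \ (Dg n ∪ F) = Nb \ Dg n`), on `To`
  the map `Ps` is `j0 ∘ fst ∘ nu`; `tq_gysP`, `pull_res`, `pull_cm`, `CB.cup_thd`, `tq_bij`.
-/

noncomputable section

set_option linter.unusedSectionVars false

namespace Pool.Agent.Work.MP_8c604c_gt.T

open Set Topology Matrix Real Pool.Agent.Work.MP_849ab0_ag.G

variable {n : ℕ}

namespace TD

variable (D : TD n)

/-- the end point of the push in the direction `y.2` -/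
def pp (y : LQ n × RN D.N) : AM n := D.Hh (1, oL y.1, y.2) 1

/-- the end point of the push in the direction `-y.2` -/
def pm (y : LQ n × RN D.N) : AM n := D.pp (anti y)

/-- the class `u` at the first end point -/
def yp : H D.Pq univ := pull D.pp D.Pq univ (uH n)

/-- the class `u` at the second end point -/
def ym : H D.Pq univ := pull D.pm D.Pq univ (uH n)

/-- the vertical class on `Pq` -/
def zq : H D.Pq univ := zz D.Kq D.oq D.Cq

/-- the vertical class on `Pt` -/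
def zt : H D.Pt univ := zz D.K (D.oq ∘ qL) D.S

/-- the complete symmetric polynomial -/
def hy : H D.Pq univ := ∑ i ∈ Finset.range (n + 1), D.yp ^ i * D.ym ^ (n - i)

/-- the map `Ps` in polar coordinates -/
def PsF (x : (LM n × RN D.N) × ℝ) : AM n × AM n :=
  (D.Hh (max 0 (1 - x.2), x.1) 1, D.Hh (max 0 (1 - x.2), anti x.1) (cs (π / 4)))

/-- the two pushes -/
def Ps (y : D.TA) : AM n × AM n := D.PsF (Function.invFunOn D.kap (D.Pt ×ˢ Ici 0) y)

/-- the class with `mu * ee = ym - yp` -/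
def mu : H D.Pq univ := Function.surjInv D.tq_bij.2 (pull D.Ps D.Tq D.Dq D.thF)

/-- the class with `bD * ee = hy` -/
def bD : H D.Pq univ := Function.surjInv D.tq_bij.2 (pull D.Ps D.Tq D.Dq (tauD n))

theorem tq_mu : D.tq D.mu = pull D.Ps D.Tq D.Dq D.thF := Function.surjInv_eq _ _

theorem tq_bD : D.tq D.bD = pull D.Ps D.Tq D.Dq (tauD n) := Function.surjInv_eq _ _

theorem psi_one : (1 : ℝ) ∈ Icc (0 : ℝ) 1 := ⟨zero_le_one, le_rfl⟩

theorem psi_cH {X : Type} [TopologicalSpace X] {U : Set X} {s : X → ℝ} {y : X → LM n × RN D.N}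
    (hs : Continuous s) (hy : Continuous y) (m1 : ∀ x ∈ U, s x ∈ Icc (0 : ℝ) 1)
    (m2 : ∀ x ∈ U, y x ∈ D.Pt) (θ : Circle) : ContinuousOn (fun x => D.Hh (s x, y x) θ) U :=
  (continuous_eval_const θ).comp_continuousOn
    (D.cH.comp (hs.prodMk hy).continuousOn fun x hx => ⟨m1 x hx, m2 x hx⟩)

theorem pp_qP {x : LM n × RN D.N} (hx : x ∈ D.Pt) (θ : Circle) :
    D.pp (qP x) = D.Hh (1, x) θ := by
  obtain ⟨η, e⟩ := exists_oL x.1
  change D.Hh (1, oL (qL x.1), x.2) 1 = _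
  rw [e, D.eqH 1 psi_one x hx η, sh_apply, D.H1 x hx (η * 1), D.H1 x hx θ]

theorem ok_pp : Ok D.pp D.Pq univ (MH n) univ := by
  exact ok_top D.lc_Pq (D.cq_qP.contOn' Subset.rfl (F := fun x => D.Hh (1, x) 1)
    (D.psi_cH continuous_const continuous_id (fun _ _ => psi_one) (fun _ h => h.1) 1)
    fun x hx _ => D.pp_qP hx 1) fun y hy => D.memH 1 psi_one _ (oL_memP hy) 1

theorem ok_pm : Ok D.pm D.Pq univ (MH n) univ := D.ok_pp.comp ok_anti

theorem isDeg_yp : IsDeg 4 D.yp := isDeg_uH.pull _ _ _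

theorem isDeg_ym : IsDeg 4 D.ym := isDeg_uH.pull _ _ _

theorem yp_pow : D.yp ^ (n + 1) = 0 := by rw [yp, ← pull_pow D.ok_pp, uH_pow, map_zero]

theorem ym_pow : D.ym ^ (n + 1) = 0 := by rw [ym, ← pull_pow D.ok_pm, uH_pow, map_zero]

theorem psi_fst : Ok Prod.fst D.Pt univ D.S univ := ok_sph'

theorem psi_ht {σ : LM n × RN D.N → LM n × RN D.N} (hσ : Continuous σ) (m : MapsTo σ D.Pt D.Pt)
    (e : ∀ x, (σ x).1 = x.1) (a : H (MH n) univ) :
    pull (fun x => D.Hh (1, σ x) 1) D.Pt univ a =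
      pull Prod.fst D.Pt univ (pull (fun c : LM n => c 1) D.S univ a) := by
  rw [pull_pull D.psi_fst (D.ok_ev 1)]
  refine (LinearMap.congr_fun (pull_htpy' (F := fun z => D.Hh (z.2, σ z.1) 1)
    (ext_htpy D.lc_Pt (D.psi_cH continuous_snd (hσ.comp continuous_fst) (fun _ h => h.2)
      (fun _ h => m h.1) 1)) (fun x hx t ht => D.memH t ht _ (m hx) 1) (fun _ _ _ _ _ => trivial)
    (fun x hx => ?_) fun _ _ => rfl) a).symm
  change D.Hh (0, σ x) 1 = x.1 1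
  rw [D.H0 _ (m hx), e]

theorem qP_pp (a : H (MH n) univ) : pull qP D.Pt univ (pull D.pp D.Pq univ a) =
    pull Prod.fst D.Pt univ (pull (fun c : LM n => c 1) D.S univ a) := by
  rw [pull_pull' D.ok_qP D.ok_pp (fun x hx => D.pp_qP hx 1)]
  exact D.psi_ht continuous_id (fun _ h => h) (fun _ => rfl) a

theorem qP_pm (a : H (MH n) univ) : pull qP D.Pt univ (pull D.pm D.Pq univ a) =
    pull Prod.fst D.Pt univ (pull (fun c : LM n => c 1) D.S univ a) := by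
  rw [pull_pull' D.ok_qP D.ok_pm (F := fun x => D.Hh (1, anti x) 1)
    (fun x hx => D.pp_qP (anti_mem hx) 1)]
  exact D.psi_ht continuous_anti (fun _ h => anti_mem h) (fun _ => rfl) a

theorem isDeg_zq (hn : 1 ≤ n) : IsDeg 2 D.zq := (D.sb_q hn).isDeg_zz

theorem qP_zq (hn : 1 ≤ n) : pull qP D.Pt univ D.zq = D.zt :=
  (D.sb_q hn).pull_zz D.cpt.isClosed.isLocallyClosed continuous_qL.continuousOn D.cq_qL.maps
    fun _ hc => (Kq_qL hc).symm

theorem anti_zq (hn : 1 ≤ n) : pull anti D.Pq univ D.zq = -D.zq := (D.sb_q hn).anti_zz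

theorem anti_ee : pull anti D.Pq univ D.ee = D.ee :=
  eu_pull D.cb_Lq D.lc_Pq continuous_anti.continuousOn fun _ h => anti_mem h

theorem anti_yp : pull anti D.Pq univ D.yp = D.ym := pull_pull ok_anti D.ok_pp _

theorem anti_ym : pull anti D.Pq univ D.ym = D.yp :=
  pull_pull' ok_anti D.ok_pm (fun _ _ => by rw [pm, anti_anti]) _

theorem psi_zero {x : (LM n × RN D.N) × ℝ} (hx : x.1 ∈ D.Pt) (e : x.2 = 0) :
    D.PsF x = (D.pp (qP x.1), D.pm (qP x.1)) := by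
  rw [PsF, e, sub_zero, max_eq_right zero_le_one, ← D.pp_qP hx, ← D.pp_qP (anti_mem hx)]
  rfl

theorem Ps_kap {x : (LM n × RN D.N) × ℝ} (hx : x ∈ D.Pt ×ˢ Ici 0) : D.Ps (D.kap x) = D.PsF x := by
  have h : ∃ x' ∈ D.Pt ×ˢ Ici (0 : ℝ), D.kap x' = D.kap x := ⟨x, hx, rfl⟩
  have h1 := Function.invFunOn_mem h
  have h2 := Function.invFunOn_eq h
  rcases kap_inj hx h1 h2 with e | ⟨e, e', -⟩
  · rw [Ps, e]
  · rw [Ps, D.psi_zero h1.1 e', D.psi_zero hx.1 e, show qP _ = qP x.1 from congrArg Prod.fst h2]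

theorem Ps_To {y : D.TA} (hy : y ∈ D.To) : D.Ps y = D.j0 (D.nu y).1 := by
  obtain ⟨h1, h2⟩ := kap_nu hy
  have hx : (D.nu y, ‖y.2‖) ∈ D.Pt ×ˢ Ici (0 : ℝ) := ⟨h1, norm_nonneg _⟩
  have h3 : 1 < ‖y.2‖ := (kap_mem_To hx).1 (h2.symm ▸ hy)
  have e := D.Ps_kap hx
  rw [h2, PsF, max_eq_left (sub_nonpos.2 h3.le), D.H0 _ h1, D.H0 _ (anti_mem h1)] at e
  exact e

theorem ok_Ps : Ok D.Ps D.Tq D.Dq (MM n) (Dg n ∪ D.F) := by
  have hs : Continuous fun x : (LM n × RN D.N) × ℝ => max 0 (1 - x.2) := by fun_prop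
  have m : ∀ x ∈ D.Pt ×ˢ Ici (0 : ℝ), max 0 (1 - x.2) ∈ Icc (0 : ℝ) 1 := fun x hx =>
    ⟨le_max_left _ _, max_le zero_le_one (sub_le_self _ hx.2)⟩
  refine ok_of D.lc_Tq (D.cq_kap.contOn' Subset.rfl (F := D.PsF)
    ((D.psi_cH hs continuous_fst (fun x h => m x h.1) (fun _ h => h.1.1) _).prodMk
      (D.psi_cH hs (continuous_anti.comp continuous_fst) (fun x h => m x h.1)
        (fun _ h => anti_mem h.1.1) _)) fun x hx _ => D.Ps_kap hx) (fun y hy => ?_)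
    fun y hy k => by_contra fun h => ?_
  · obtain ⟨x, hx, rfl⟩ := D.cq_kap.surj hy
    rw [D.Ps_kap hx]
    exact ⟨D.memH _ (m x hx) _ hx.1 _, D.memH _ (m x hx) _ (anti_mem hx.1) _⟩
  · have hy' : y ∈ D.To := ⟨hy, h⟩
    have j := D.j0_mem (kap_nu hy').1.1
    rw [D.Ps_To hy'] at k
    exact k.elim j.2 j.1.2

theorem Ps_zer {y : LQ n × RN D.N} (hy : y ∈ D.Pq) : D.Ps (zer _ y) = (D.pp y, D.pm y) := by
  obtain ⟨x, hx, rfl⟩ := D.cq_qP.surj hy
  have e : zer _ (qP x) = D.kap (x, 0) := Prod.ext rfl (zero_smul ℝ _).symm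
  rw [e, D.Ps_kap (x := (x, 0)) ⟨hx, self_mem_Ici⟩, D.psi_zero hx rfl]

theorem psi_okz (Z : Set D.TA) : Ok (zer _) D.Pq univ D.Tq Z := ok_zer _ _ _

theorem psi_top : Ok D.Ps D.Tq univ (MM n) univ := Ok.top D.ok_Ps

theorem zer_uu : pull (zer _) D.Pq univ (pull D.Ps D.Tq univ (uu n)) = D.yp := by
  rw [uu, pull_pull D.psi_top ok_MM1]
  exact pull_pull' (D.psi_okz _) (ok_MM1.comp D.psi_top)
    (fun y hy => congrArg Prod.fst (D.Ps_zer hy)) _

theorem zer_vv : pull (zer _) D.Pq univ (pull D.Ps D.Tq univ (vv n)) = D.ym := by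
  rw [vv, pull_pull D.psi_top ok_MM2]
  exact pull_pull' (D.psi_okz _) (ok_MM2.comp D.psi_top)
    (fun y hy => congrArg Prod.snd (D.Ps_zer hy)) _

theorem psi_deg {p : ℤ} {a : H D.Pq univ} {c : H D.Tq D.Dq} (e : D.tq a = c)
    (hc : IsDeg (p + 2) c) : IsDeg p a := by
  obtain ⟨b, hb, e'⟩ := D.cb_Lq.exists_thd zero_le_one (p := p) (c := c) hc
  rwa [D.tq_bij.1 (e.trans e')]

/-- pull-back along `(pp, pm)` -/
def psi_φ : H (MM n) univ →ₐ[ℂ] H D.Pq univ := (pullA (D.psi_okz univ)).comp (pullA D.psi_top)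

theorem psi_uu : D.psi_φ (uu n) = D.yp := D.zer_uu

theorem psi_vv : D.psi_φ (vv n) = D.ym := D.zer_vv

theorem psi_hh : D.psi_φ (hh n) = D.hy := by
  simp only [hh, hy, map_sum, map_mul, map_pow, psi_uu, psi_vv]

theorem psi_ok {Z : Set (AM n × AM n)} (h : Z ⊆ Dg n ∪ D.F) : Ok D.Ps D.Tq D.Dq (MM n) Z :=
  .of_mem D.ok_Ps.ext D.ok_Ps.maps fun _ hy k => D.ok_Ps.mem hy (h k)

theorem psi_ee {Z : Set (AM n × AM n)} (h : Z ⊆ Dg n ∪ D.F) {c : H (MM n) Z} {a : H D.Pq univ}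
    (e : D.tq a = pull D.Ps D.Tq D.Dq c) : a * D.ee = D.psi_φ (pull id (MM n) univ c) := by
  have k : pull (zer _) D.Pq univ (D.tq a) = a * D.ee := D.cb_Lq.zer_thd zero_le_one a
  change _ = pull (zer _) D.Pq univ (pull D.Ps D.Tq univ _)
  rw [← k, e, pull_res D.psi_top Subset.rfl (fun _ _ _ => trivial),
    pull_pull (D.psi_okz _) (D.psi_ok h),
    pull_pull (D.psi_okz univ) (.of_mem D.ok_Ps.ext D.ok_Ps.maps fun _ _ _ => trivial)]

theorem psi_cup {Z : Set (AM n × AM n)} (h : Z ⊆ Dg n ∪ D.F) {c : H (MM n) Z} {a : H D.Pq univ}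
    (e : D.tq a = pull D.Ps D.Tq D.Dq c) (x : H (MM n) univ) :
    pull D.Ps D.Tq D.Dq (cup (MM n) Z x c) = D.tq (D.psi_φ x * a) := by
  rw [pull_cm (D.psi_ok h), ← e]
  exact D.cb_Lq.cup_thd zero_le_one _ a

theorem isDeg_mu : IsDeg 2 D.mu := by
  exact D.psi_deg D.tq_mu (D.isDeg_thF.pull _ _ _)

theorem isDeg_bD : IsDeg (4 * n - 2) D.bD := by
  refine D.psi_deg D.tq_bD (IsDeg.pull ?_ _ _ _)
  rw [sub_add_cancel]
  exact isDeg_tauD

theorem mu_ee : D.mu * D.ee = D.ym - D.yp := by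
  rw [D.psi_ee subset_union_right D.tq_mu, D.fgt_thF, map_sub, psi_uu, psi_vv]

theorem bD_ee : D.bD * D.ee = D.hy := by
  rw [D.psi_ee subset_union_left D.tq_bD, fgt_tauD, psi_hh]

theorem hy_mu : D.hy * D.mu = 0 := by
  apply D.tq_bij.1
  rw [← psi_hh, ← D.psi_cup subset_union_right D.tq_mu, D.hh_thF, map_zero, map_zero]

theorem gys_vp (hn : 1 ≤ n) :
    D.gysP (pull Prod.fst D.Pt univ (pull D.j0 D.S univ (D.vp hn))) =
      D.yp ^ n * D.bD - D.yp ^ n * D.ym ^ (n - 1) * D.mu := by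
  have e : ∀ y ∈ D.To, D.j0 (D.nu y).1 = D.Ps y := fun y hy => (D.Ps_To hy).symm
  have ok := (D.ok_j0 (k := 3)).comp D.psi_fst
  apply D.tq_bij.1
  rw [tq_gysP, pull_pull D.psi_fst D.ok_j0, pull_pull' D.ok_nu ok e,
    ← pull_dlt (U₁ := D.To) D.ok_Ps.ext Subset.rfl sdiff_subset D.ok_Ps ((ok.comp D.ok_nu).congr e)
      Subset.rfl fun y hy => ⟨⟨hy.1, fun k => hy.2 (Or.inr k)⟩, fun k => hy.2 (Or.inl k)⟩,
    D.dlt_vp hn, map_sub, pull_res D.ok_Ps Subset.rfl (fun _ _ => Or.inl),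
    pull_res D.ok_Ps Subset.rfl (fun _ _ => Or.inr), D.psi_cup subset_union_left D.tq_bD,
    D.psi_cup subset_union_right D.tq_mu, map_sub, map_mul D.psi_φ]
  simp only [map_pow D.psi_φ, psi_uu, psi_vv]

end TD

end Pool.Agent.Work.MP_8c604c_gt.T
end
end

-- merged part: Pool.Agent.Work.MP_8c604c_gt.T.DnC
section
/-!
The swept out sphere is essential.
Plan.
* `qq_eq`: `pull_htpy'` with `cont_qq`, `qq_mem`, `qq_cut` (`ext_htpy`).
* `ps_ne`: let `a = pull (fun z => (lp z.1 1, ps z)) Sg {v} thF`, `v = (0, -1)` (`lp_cut`; `z.1 = 0` and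
  `phs z.2 = cs (π / 2)` give `z.2 = -1` by `norm_mul_phs`).  Forgetting the support gives
  `pull ps uH - pull (lp z.1 1) uH` (fgt_thF, pull_res, vv, uu), the second term factors through the convex set
  `closedBall 0 1` (van_contr), so it is `0`.  If the first term is `0` then `a = 0` (`supp_inj`, `van_Sg`).
  Pull back along `f z = (s0 • clp z.1, (1 - s0 ‖clp z.1‖) cs (tmc z.2))`, a map `univ → Sg` with `f z = v` only for
  `z` in the ball; the composite is `qq 0` (`Q_zero`, `phs_mul`).  This contradicts `qq_eq`, `qq_ne`.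
* `ps_rot`: the homotopy `ps (-z.1, cs (t a) z.2)`, `t ∈ [0, 1]`, and `Sg_neg`.
-/

noncomputable section

namespace Pool.Agent.Work.MP_8c604c_gt.T

open Set Real Topology Pool.Agent.Work.MP_849ab0_ag.G

variable {n : ℕ}

theorem DnC_le {z : RN 3 × ℂ} (hz : z ∈ Sg) : ‖z.1‖ ≤ 1 :=
  (le_add_of_nonneg_right (norm_nonneg z.2)).trans_eq hz

theorem DnC_half : (cs (π / 2) : ℂ) = -1 := by
  rw [cs, show 2 * (π / 2) = π by ring, Circle.coe_exp, Complex.exp_pi_mul_I]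

namespace TD

variable (D : TD n)

theorem qq_eq : pull (D.qq 0) univ (Metric.ball 0 1) D.thF =
    pull (D.qq 1) univ (Metric.ball 0 1) D.thF := by
  exact LinearMap.congr_fun (pull_htpy' (F := fun y => D.qq y.2 y.1)
    (ext_htpy isOpen_univ.isLocallyClosed D.cont_qq) (fun x _ t ht => D.qq_mem ht x)
    (fun x _ t ht k => D.qq_cut ht k) (fun _ _ => rfl) fun _ _ => rfl) _

theorem ps_ne (hn : 2 ≤ n) : pull D.ps Sg univ (uH n) ≠ 0 := by
  intro h0
  have lc := isCompact_Sg.isClosed.isLocallyClosed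
  have s0 := D.s0I
  let v : RN 3 × ℂ := (0, -1)
  have hv : v ∈ Sg := by simp [v, Sg]
  have c0 : ContinuousOn (fun x => D.lp x 1) (Metric.closedBall 0 1) :=
    (continuous_eval_const 1).comp_continuousOn D.cont_lp
  have m0 : MapsTo Prod.fst Sg (Metric.closedBall (0 : RN 3) 1) := fun z hz =>
    mem_closedBall_zero_iff.2 (DnC_le hz)
  have c1 : ContinuousOn (fun z : RN 3 × ℂ => D.lp z.1 1) Sg := c0.comp continuousOn_fst m0
  have ok : Ok (fun z : RN 3 × ℂ => (D.lp z.1 1, D.ps z)) Sg {v} (MM n) D.F :=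
    ok_of lc (c1.prodMk D.cont_ps) (fun z hz => ⟨D.lp_mem (DnC_le hz) 1, D.ps_mem hz⟩)
      fun z hz k => by
        obtain ⟨k1, k2⟩ := D.lp_cut (DnC_le hz) k
        have k3 : ‖z.2‖ = 1 := by simpa [Sg, k1] using hz
        have k4 := norm_mul_phs z.2
        rw [k2, k3, DnC_half] at k4
        exact Prod.ext k1 (by simpa using k4.symm)
  have e1 : pull (fun z : RN 3 × ℂ => D.lp z.1 1) Sg univ (uH n) = 0 := by
    have o : Ok (fun x => D.lp x 1) (Metric.closedBall 0 1) univ (MH n) univ :=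
      ok_top Metric.isClosed_closedBall.isLocallyClosed c0 fun x hx =>
        D.lp_mem (mem_closedBall_zero_iff.1 hx) 1
    have w : Van 4 (Metric.closedBall (0 : RN 3) 1) univ :=
      van_contr (F := fun y => y.2 • y.1) (.of_continuous (by fun_prop) _) (fun x hx t ht => by
        rw [mem_closedBall_zero_iff] at hx ⊢
        rw [norm_smul, Real.norm_of_nonneg ht.1]
        exact mul_le_one₀ ht.2 (norm_nonneg _) hx) (Metric.mem_closedBall_self zero_le_one)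
        (fun x _ => zero_smul _ _) (fun x _ => one_smul _ _) (by norm_num)
    rw [← pull_pull' (ok_top lc continuousOn_fst m0) o fun _ _ => rfl,
      w.eq_zero (isDeg_uH.pull _ _ _), map_zero]
  have o1 : Ok Prod.fst (MM n) univ (MH n) univ :=
    .of_mem (.of_continuous continuous_fst _) (fun _ k => k.1) fun _ _ _ => trivial
  have o2 : Ok Prod.snd (MM n) univ (MH n) univ :=
    .of_mem (.of_continuous continuous_snd _) (fun _ k => k.2) fun _ _ _ => trivial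
  have e2 : pull (fun z : RN 3 × ℂ => (D.lp z.1 1, D.ps z)) Sg {v} D.thF = 0 := by
    refine supp_inj (U := Sg) (Z := univ) (Z₂ := univ) (d := 4) rfl (by simp)
      (fun b hb => (van_Sg hv (by norm_num)).eq_zero hb) (D.isDeg_thF.pull _ _ _) ?_
    rw [res_pull (W₁ := univ) ok subset_rfl fun _ _ _ => mem_univ _,
      ← pull_res (U' := MM n) (Z' := D.F) (Ok.top ok) subset_rfl (fun _ _ _ => mem_univ _) D.thF,
      D.fgt_thF, map_sub, vv, uu,
      pull_pull' (F := D.ps) (Ok.top ok) o2 fun _ _ => rfl,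
      pull_pull' (F := fun z => D.lp z.1 1) (Ok.top ok) o1 fun _ _ => rfl, h0, e1, sub_zero]
  have hp : ∀ x : RN 3, 0 < 1 - D.s0 * ‖clp x‖ := fun x => by
    nlinarith [norm_clp_le x, norm_nonneg (clp x), s0.1, s0.2]
  have of : Ok (fun z : RN 3 × ℝ => ((D.s0 • clp z.1,
      ((1 - D.s0 * ‖clp z.1‖ : ℝ) : ℂ) * cs (tmc z.2)) : RN 3 × ℂ)) univ (Metric.ball 0 1) Sg {v} := by
    have := continuous_clp
    have := continuous_tmc
    have := continuous_cs
    refine .of_mem (.of_continuous (by fun_prop) _) (fun z _ => ?_) fun z _ k => ?_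
    · simp only [Sg, Set.mem_ofPred_eq, norm_smul, norm_mul, Complex.norm_real, Circle.norm_coe,
        Real.norm_of_nonneg s0.1.le, Real.norm_of_nonneg (hp _).le]
      ring
    · have k1 : clp z.1 = 0 := (smul_eq_zero.1 (congrArg Prod.fst k)).resolve_left s0.1.ne'
      have k2 := congrArg Prod.snd k
      rw [mem_ball_zero_iff, Prod.norm_def, max_lt_iff]
      refine ⟨not_le.1 fun k3 => ?_, not_le.1 fun k3 => ?_⟩
      · simpa [k1] using norm_clp_eq k3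
      · simp only [k1, cs_tmc k3, v] at k2
        norm_num at k2
  refine D.qq_ne hn ?_
  rw [← D.qq_eq, ← pull_pull' of ok fun z _ => ?_, e2, map_zero]
  simp only [ps, qq, phs_mul (hp _), D.Q_zero (norm_clp_le _)]

theorem ps_rot (hn : 2 ≤ n) (a : ℝ) :
    pull (fun z : RN 3 × ℂ => D.ps (-z.1, cs a * z.2)) Sg univ (uH n) ≠ pull D.ps Sg univ (uH n) := by
  intro e
  have lc := isCompact_Sg.isClosed.isLocallyClosed
  have m : ∀ t : ℝ, ∀ z ∈ Sg, ((-z.1, cs t * z.2) : RN 3 × ℂ) ∈ Sg := fun t z hz => by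
    simpa [Sg] using hz
  have := continuous_cs
  have h1 := LinearMap.congr_fun (pull_htpy' (U' := MH n) (Z' := univ) (Z := univ)
    (F := fun y : (RN 3 × ℂ) × ℝ => D.ps (-y.1.1, cs (y.2 * a) * y.1.2))
    (f := fun z => D.ps (io z)) (g := fun z : RN 3 × ℂ => D.ps (-z.1, cs a * z.2))
    (ext_htpy lc (D.cont_ps.comp (Continuous.continuousOn (by fun_prop)) fun y hy => m _ _ hy.1))
    (fun x hx t _ => D.ps_mem (m _ _ hx)) (fun _ _ _ _ _ => trivial)
    (fun z _ => by simp [io, cs_zero]) fun z _ => by simp) (uH n)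
  refine D.ps_ne hn (Sg_neg (p := 4) (by norm_num) (isDeg_uH.pull _ _ _) ?_)
  rw [pull_pull' (F := fun z => D.ps (io z))
    (ok_top lc (Continuous.continuousOn (by unfold io; fun_prop)) fun z hz => by
      simpa [Sg, io] using hz) (ok_top lc D.cont_ps D.ps_mem) fun _ _ => rfl, h1, e]

end TD

end Pool.Agent.Work.MP_8c604c_gt.T
end
end

-- merged part: Pool.Agent.Work.MP_8c604c_gt.T.DN
section
/-!
The class `mu` is not zero.
-/

noncomputable section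

set_option linter.unusedSectionVars false

namespace Pool.Agent.Work.MP_8c604c_gt.T

open Set Topology Matrix Real Pool.Agent.Work.MP_849ab0_ag.G

variable {n : ℕ}

namespace TD

variable (D : TD n)

theorem dn_rad : ∃ r : ℝ, 0 ≤ r ∧ r < 1 ∧ ∀ y ∈ D.Tq, D.Ps y ∈ D.F → ‖y.2‖ ≤ r := by
  have sub : D.Pt ×ˢ Icc (0 : ℝ) 1 ⊆ D.Pt ×ˢ Ici 0 := prod_mono subset_rfl Icc_subset_Ici_self
  have k := D.isCompact_Pt.prod (isCompact_Icc (a := (0 : ℝ)) (b := 1))
  have c : ContinuousOn (D.Ps ∘ D.kap) (D.Pt ×ˢ Icc (0 : ℝ) 1) :=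
    (D.ok_Ps.ext.continuousOn.comp D.cq_kap.cont D.cq_kap.maps).mono sub
  have hA := k.of_isClosed_subset (c.preimage_isClosed_of_isClosed k.isClosed
    D.isCompact_F.isClosed) inter_subset_left
  have lt : ∀ x ∈ D.Pt ×ˢ Icc (0 : ℝ) 1 ∩ (D.Ps ∘ D.kap) ⁻¹' D.F, x.2 < 1 := fun x hx => by
    refine lt_of_le_of_ne hx.1.2.2 fun e => ?_
    have h := hx.2
    rw [mem_preimage, Function.comp_apply, D.Ps_kap (sub hx.1), PsF, e, sub_self, max_self,
      D.H0 _ hx.1.1, D.H0 _ (anti_mem hx.1.1)] at h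
    exact (D.j0_mem hx.1.1.1).1.2 h
  have ex : ∃ r : ℝ, 0 ≤ r ∧ r < 1 ∧
      ∀ x ∈ D.Pt ×ˢ Icc (0 : ℝ) 1 ∩ (D.Ps ∘ D.kap) ⁻¹' D.F, x.2 ≤ r := by
    rcases (D.Pt ×ˢ Icc (0 : ℝ) 1 ∩ (D.Ps ∘ D.kap) ⁻¹' D.F).eq_empty_or_nonempty with e | ne
    · exact ⟨0, le_rfl, one_pos, by simp [e]⟩
    · obtain ⟨x, hx, m⟩ := hA.exists_isMaxOn ne continuousOn_snd
      exact ⟨x.2, hx.1.2.1, lt x hx, fun y hy => m hy⟩
  obtain ⟨r, h0, h1, h⟩ := ex
  refine ⟨r, h0, h1, fun y hy hF => ?_⟩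
  obtain ⟨x, hx, e⟩ := D.tot_sur hy
  exact h (x, ‖y.2‖) ⟨⟨hx, norm_nonneg _, D.ok_Ps.mem hy (.inr hF)⟩, by
    rw [mem_preimage, Function.comp_apply, e]; exact hF⟩

/-- the two pushes on the sphere -/
def dnP (z : RN 3 × ℂ) : AM n × AM n := (D.ps z, D.ps (-z.1, cs (π / 4) * z.2))

/-- the fibre over `c0` -/
def dnS (z : RN 3 × ℂ) : D.TA := ((qL D.c0, D.T3 (‖z.1‖⁻¹ • z.1)), z.2 • D.Φ1 D.c0)

theorem dn_phs (θ : Circle) {w : ℂ} (hw : w ≠ 0) : phs (θ * w) = θ * phs w := by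
  rw [← phs_mul (norm_pos_iff.2 hw) (θ * phs w), Circle.coe_mul, mul_left_comm, norm_mul_phs]

theorem dn_rot (θ : Circle) {z : RN 3 × ℂ} (hz : z ∈ Sg) : (-z.1, θ * z.2) ∈ Sg := by
  simpa [Sg] using hz

theorem dn_Ps {z : RN 3 × ℂ} (hz : z ∈ Sg) (h0 : z.1 ≠ 0) :
    D.dnS z ∈ D.Tq ∧ D.Ps (D.dnS z) = D.dnP z := by
  have n0 := norm_ne_zero_iff.2 h0
  have h1 : ‖‖z.1‖⁻¹ • z.1‖ = 1 := by rw [norm_smul, norm_inv, norm_norm, inv_mul_cancel₀ n0]
  have hx : (D.c0, D.T3 (‖z.1‖⁻¹ • z.1)) ∈ D.Pt := ⟨D.c0S, D.K_T3 _, by rw [D.T3.norm_map, h1]⟩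
  have m : ((sh (phs z.2) D.c0, D.T3 (‖z.1‖⁻¹ • z.1)), ‖z.2‖) ∈ D.Pt ×ˢ Ici (0 : ℝ) :=
    ⟨sh_mem _ hx, norm_nonneg _⟩
  have e : D.dnS z = D.kap ((sh (phs z.2) D.c0, D.T3 (‖z.1‖⁻¹ • z.1)), ‖z.2‖) := by
    refine Prod.ext (Prod.ext (qL_sh _ _).symm rfl) ?_
    change z.2 • D.Φ1 D.c0 = ‖z.2‖ • D.Φ1 (sh (phs z.2) D.c0)
    rw [Φ1_sh _ D.c0S, ← Complex.coe_smul, smul_smul, norm_mul_phs]
  have hz' : ‖z.1‖ + ‖z.2‖ = 1 := hz
  have r : max 0 (1 - ‖z.2‖) = ‖z.1‖ := by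
    rw [← eq_sub_of_add_eq hz', max_eq_right (norm_nonneg _)]
  have I : ‖z.1‖ ∈ Icc (0 : ℝ) 1 := ⟨norm_nonneg _, by linarith [norm_nonneg z.2]⟩
  have l1 : D.lp z.1 = D.Hh (‖z.1‖, D.c0, D.T3 (‖z.1‖⁻¹ • z.1)) := by
    rw [← D.lp_eq I.1 h1, smul_inv_smul₀ n0]
  have l2 : D.lp (-z.1) = D.Hh (‖z.1‖, D.c0, -D.T3 (‖z.1‖⁻¹ • z.1)) := by
    rw [← map_neg, ← D.lp_eq I.1 (by rw [norm_neg, h1]), smul_neg, smul_inv_smul₀ n0]
  rw [e]
  refine ⟨D.cq_kap.maps m, ?_⟩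
  rw [D.Ps_kap m, PsF, r]
  refine Prod.ext ?_ ?_
  · change D.Hh (‖z.1‖, sh _ _, _) 1 = D.lp z.1 (phs z.2)
    rw [l1, D.eqH _ I _ hx, sh_apply, mul_one]
  · change D.Hh (‖z.1‖, sh _ D.c0, -D.T3 _) _ = D.lp (-z.1) (phs (cs (π / 4) * z.2))
    rw [D.eqH _ I (D.c0, -D.T3 _) (anti_mem hx), sh_apply, ← l2]
    by_cases w : z.2 = 0
    · have : ‖-z.1‖ = 1 := by rw [norm_neg, ← hz', w, norm_zero, add_zero]
      rw [D.lp_const this, D.lp_const this (phs _)]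
    · rw [dn_phs _ w, mul_comm]

theorem dn_zero {z : RN 3 × ℂ} (hz : z ∈ Sg) (h0 : z.1 = 0) : D.dnP z ∉ D.F := by
  have w : z.2 ≠ 0 := fun e => by simpa [Sg, h0, e] using hz
  have e : D.dnP z = D.j0 (sh (phs z.2) D.c0) := by
    simp only [dnP, ps, dn_phs _ w]
    simp [lp, h0, TD0.j0, sh_apply, mul_comm]
  rw [e]
  exact (D.j0_mem (D.inv _ _ D.c0S)).1.2

theorem mu_ne (hn : 2 ≤ n) : D.mu ≠ 0 := fun h => by
  obtain ⟨r, r0, r1, hr⟩ := D.dn_rad
  have o1 : Ok D.Ps D.Tq (dsc _ _ r) (MM n) D.F := .of_mem D.ok_Ps.ext D.ok_Ps.maps hr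
  have e1 : pull D.Ps D.Tq (dsc _ _ r) D.thF = 0 := by
    obtain ⟨a, ha⟩ := (D.cb_Lq.thd_bij r0).2 (pull D.Ps D.Tq (dsc _ _ r) D.thF)
    have : D.tq a = D.tq 0 := by
      refine (CB.supp_thd r0 r1.le a).symm.trans ?_
      rw [ha]
      exact (res_pull o1 subset_rfl (fun _ _ k => le_trans k r1.le) _).trans
        (D.tq_mu.symm.trans (by rw [h]))
    rw [← ha, D.tq_bij.1 this]
    exact map_zero _
  have lc := isCompact_Sg.isClosed.isLocallyClosed
  have hO : IsOpen {z : RN 3 × ℂ | z.1 ≠ 0} := isOpen_ne_fun continuous_fst continuous_const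
  have nS : ∀ z, ‖(D.dnS z).2‖ = ‖z.2‖ := fun z => by
    rw [dnS, norm_smul, norm_Φ1 D.c0S, mul_one]
  have c2 : ContinuousOn (fun z : RN 3 × ℂ => D.ps (-z.1, cs (π / 4) * z.2)) Sg :=
    D.cont_ps.comp (by fun_prop) fun _ => dn_rot _
  have m2 : MapsTo (fun z : RN 3 × ℂ => D.ps (-z.1, cs (π / 4) * z.2)) Sg (MH n) :=
    fun _ k => D.ps_mem (dn_rot _ k)
  have o2 : Ok D.dnP Sg {z | ‖z.2‖ ≤ r} (MM n) D.F :=
    ok_of lc (D.cont_ps.prodMk c2) (fun _ k => ⟨D.ps_mem k, m2 k⟩) fun z k hF => by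
      have h0 : z.1 ≠ 0 := fun e => D.dn_zero k e hF
      obtain ⟨a, b⟩ := D.dn_Ps k h0
      exact (nS z).ge.trans (hr _ a (b ▸ hF))
  have o3 : Ok D.dnS (Sg ∩ {z | z.1 ≠ 0}) {z | ‖z.2‖ ≤ r} D.Tq (dsc _ _ r) :=
    ok_of (lc.inter hO.isLocallyClosed) ((continuousOn_const.prodMk
      (D.T3.continuous.comp_continuousOn ((continuousOn_fst.norm.inv₀ fun _ k =>
        norm_ne_zero_iff.2 k.2).smul continuousOn_fst))).prodMk (by fun_prop))
      (fun _ k => (D.dn_Ps k.1 k.2).1) fun z _ k => (nS z).ge.trans k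
  have e2 : pull D.dnP Sg {z | ‖z.2‖ ≤ r} D.thF = 0 := by
    refine (res_excision_open hO (.of_isClosed (isClosed_le continuous_snd.norm continuous_const) _)
      fun z k k' e => ?_).1 ?_
    · have : ‖z.2‖ = 1 := by simpa [Sg, e] using k
      exact absurd (this.ge.trans k') (not_le.2 r1)
    · rw [res_pull o2 inter_subset_left (fun _ _ k => k), map_zero,
        ← pull_pull' o3 o1 (fun _ k => (D.dn_Ps k.1 k.2).2), e1, map_zero]
  have e3 := congrArg (pull id Sg univ) e2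
  rw [res_pull (W₁ := univ) o2 subset_rfl (fun _ _ _ => trivial), map_zero,
    ← pull_res (Ok.top o2) subset_rfl (fun _ _ _ => trivial), D.fgt_thF, map_sub, vv, uu,
    pull_pull' (F := D.ps) (Ok.top o2) ok_MM1 (fun _ _ => rfl),
    pull_pull' (F := fun z : RN 3 × ℂ => D.ps (-z.1, cs (π / 4) * z.2)) (Ok.top o2) ok_MM2
      (fun _ _ => rfl), sub_eq_zero] at e3
  exact D.ps_rot hn _ e3

end TD

end Pool.Agent.Work.MP_8c604c_gt.T
end
end
end

-- merged part: Pool.Agent.Work.MP_8c604c_gt.T.Par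
section
/-!
The ring `H Pq univ`: injectivity of `ee`, vanishing of odd classes, parity under the antipodal
map (owner helper87).

PLAN.  `SB.lh_deg`, `SB.lh_sph'` for `D.sb_t` describe `H Pt univ` (note `D.Pt = sph D.K D.S` and
`D.zt = zz ..` by `rfl`); `S_odd`, `S_evn`, `MH_deg`, `MH_deg_zero` describe `H S univ`.
* `Pt_evn`: `S_evn` for both components, `qP_pp`, `qP_zq`, `pull_mul`.
* `ee_inj`: `mul_ee_eq_zero`, `Pt_odd`.  `ee_pow`: `eu_pow_eq_zero` with the sections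
  `Lq y *ᵥ Pi.single j 1` (a rank one matrix is not zero).
* `Pq_odd`: `a * ee = 0` gives `a = gysP b`, `b` even, `Pt_evn`, `gysP_qP`; so multiplication by
  `ee` is injective on odd classes; downward induction from `a * ee ^ (4 * n) = 0`.
* `deg_zero`, `deg_two`: subtract a lift, `qP_eq_zero`, `IsDeg.eq_zero_of_neg`.
* `exists_d`: `pull anti mu = -mu` by `ee_inj` (`mu_ee`, `anti_ee`, `anti_yp`, `anti_ym`, `pull_mul`).
* `inv_zero`: induction on `p`.  Write `pull qP a = π α + zt * π β`; `anti` commutes with `qP`, fixes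
  `π`, and `anti_zz`; uniqueness gives `β = 0`, then `zt * π α = 0` gives `α = 0`; so `a = b * ee`
  and `b` has the same two properties by `ee_inj`.
* `hy_zero`: `hy_mu`, `anti` fixes `hy` (`Finset.sum_range_reflect`, `yp`, `ym` commute).
* `exists_beta`: `X = zq ^ 2 + 2 • (yp + ym)` dies on `Pt`, `X = b * ee`, `deg_two`, parity.
* `zq_gys_ne`: `gysP_mul`, `gysP_inj` (degree `8 n + 1`), `vp_ne`, injectivity of `lh_sph'`.
Even classes commute with everything: `IsDeg.evn`, `Evn.commH`.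
-/

noncomputable section

set_option linter.unusedSectionVars false

namespace Pool.Agent.Work.MP_8c604c_gt.T

open Set Topology Matrix Real Pool.Agent.Work.MP_849ab0_ag.G

variable {n : ℕ}

namespace TD

variable {D : TD n} {p : ℤ}

theorem par_deg {X : Type} [TopologicalSpace X] {U Z : Set X} {a : H U Z} {q : ℤ} (h : IsDeg p a)
    (e : p = q) : IsDeg q a := e ▸ h

theorem par_ok : Ok Prod.fst D.Pt univ D.S univ := ok_sph'

theorem par_oq : Ok anti D.Pq univ D.Pq univ := ok_anti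

theorem par_ot : Ok anti D.Pt univ D.Pt univ := ok_anti

theorem par_lh (hn : 1 ≤ n) {a : H D.Pt univ} (ha : IsDeg p a) :
    ∃ α β : H D.S univ, IsDeg p α ∧ IsDeg (p - 2) β ∧
      a = pull Prod.fst D.Pt univ α + D.zt * pull Prod.fst D.Pt univ β := (D.sb_t hn).lh_deg ha

theorem par_inj (hn : 1 ≤ n) {α β : H D.S univ}
    (h : pull Prod.fst D.Pt univ α + D.zt * pull Prod.fst D.Pt univ β = 0) : α = 0 ∧ β = 0 :=
  Prod.mk.inj ((D.sb_t hn).lh_sph'.1 (a₁ := (α, β)) (a₂ := (0, 0)) (h.trans (by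
    change 0 = pull Prod.fst D.Pt univ 0 + D.zt * pull Prod.fst D.Pt univ 0
    rw [map_zero, mul_zero, add_zero])))

theorem par_evn (hn : 1 ≤ n) {a : H D.Pt univ} (ha : IsDeg (2 * p) a) :
    ∃ α β : H (MH n) univ, IsDeg (2 * p) α ∧ IsDeg (2 * (p - 1)) β ∧
      a = pull Prod.fst D.Pt univ (pull (fun c : LM n => c 1) D.S univ α) +
        D.zt * pull Prod.fst D.Pt univ (pull (fun c : LM n => c 1) D.S univ β) := by
  obtain ⟨α, β, h1, h2, rfl⟩ := par_lh hn ha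
  obtain ⟨α, k1, rfl⟩ := D.S_evn h1
  obtain ⟨β, k2, rfl⟩ := D.S_evn (p := p - 1) (par_deg h2 (by ring))
  exact ⟨α, β, k1, k2, rfl⟩

theorem par_one (c : ℂ) :
    pull Prod.fst D.Pt univ (pull (fun c : LM n => c 1) D.S univ (c • uH n ^ 0)) = c • 1 := by
  rw [pow_zero, map_smul, map_smul, pull_oneH (D.ok_ev 1), pull_oneH par_ok]

theorem Pt_odd (hn : 1 ≤ n) {a : H D.Pt univ} (ha : IsDeg p a) (ho : Odd p) (hp : p < 4 * n + 3) :
    a = 0 := by
  obtain ⟨α, β, h1, h2, rfl⟩ := par_lh hn ha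
  rw [D.S_odd h1 ho hp, D.S_odd h2 (ho.sub_even even_two) (by omega), map_zero, mul_zero, add_zero]

theorem Pt_evn (hn : 1 ≤ n) {a : H D.Pt univ} (ha : IsDeg (2 * p) a) :
    ∃ b : H D.Pq univ, IsDeg (2 * p) b ∧ a = pull qP D.Pt univ b := by
  obtain ⟨α, β, h1, h2, rfl⟩ := par_evn hn ha
  refine ⟨pull D.pp D.Pq univ α + D.zq * pull D.pp D.Pq univ β,
    (h1.pull _ _ _).add (par_deg (IsDeg.mulH (D.isDeg_zq hn) (h2.pull _ _ _)) (by ring)), ?_⟩
  rw [map_add, pull_mul D.ok_qP, D.qP_pp, D.qP_pp, D.qP_zq hn]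

theorem ee_inj (hn : 1 ≤ n) {a : H D.Pq univ} (ha : IsDeg (2 * p) a) (hp : p ≤ 2 * n)
    (e : a * D.ee = 0) : a = 0 := by
  obtain ⟨c, hc, rfl⟩ := mul_ee_eq_zero ha e
  rw [Pt_odd hn hc (odd_two_mul_add_one p) (by omega), map_zero]

theorem ee_pow : D.ee ^ (4 * n) = 0 := by
  have := eu_pow_eq_zero (K := Fin (4 * n)) D.cb_Lq (σ := fun k y => D.Lq y *ᵥ Pi.single k 1)
    (fun k => ⟨(continuous_id.matrix_mulVec continuous_const).comp_continuousOn D.cb_Lq.cont,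
      fun y hy => by rw [mulVec_mulVec, D.cb_Lq.idem y hy], fun _ _ _ => trivial⟩) fun y hy => by
    by_contra! k
    have := D.cb_Lq.rank y hy
    rw [ext_of_mulVec_single fun i => (k i).trans (zero_mulVec _).symm, rank_zero] at this
    exact zero_ne_one this
  rwa [Fintype.card_fin] at this

theorem Pq_odd (hn : 1 ≤ n) {a : H D.Pq univ} (ha : IsDeg p a) (ho : Odd p) : a = 0 := by
  have key : ∀ (k : ℕ) (p : ℤ) (a : H D.Pq univ), IsDeg p a → Odd p → a * D.ee ^ k = 0 →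
      a = 0 := by
    intro k
    induction k with
    | zero => exact fun p a _ _ e => by rwa [pow_zero, mul_one] at e
    | succ k ih =>
      intro p a ha ho e
      rw [pow_succ', ← mul_assoc] at e
      obtain ⟨c, hc, rfl⟩ :=
        mul_ee_eq_zero ha (ih _ _ (IsDeg.mulH ha D.isDeg_ee) (ho.add_even even_two) e)
      obtain ⟨m, rfl⟩ := ho
      obtain ⟨b, -, rfl⟩ := Pt_evn (p := m + 1) hn (par_deg hc (by ring))
      exact gysP_qP b
  exact key _ p a ha ho (by rw [ee_pow, mul_zero])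

theorem gysP_inj (hn : 1 ≤ n) {a : H D.Pt univ} (ha : IsDeg p a) (ho : Odd p)
    (e : D.gysP a = 0) : a = 0 := by
  obtain ⟨b, hb, rfl⟩ := gysP_eq_zero ha e
  rw [Pq_odd hn hb ho, map_zero]

theorem deg_zero (hn : 1 ≤ n) {a : H D.Pq univ} (ha : IsDeg 0 a) : ∃ t : ℂ, a = t • 1 := by
  obtain ⟨α, β, h1, h2, e⟩ := par_evn (p := 0) hn (ha.pull qP D.Pt univ)
  obtain ⟨c, rfl⟩ := MH_deg (k := 0) h1
  obtain ⟨b, hb, e'⟩ := qP_eq_zero (p := -2) (a := a - c • 1) (ha.sub (isDeg_oneH.smul c)) (by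
    rw [map_sub, e, h2.eq_zero_of_neg (by norm_num), par_one, map_zero, map_zero, mul_zero,
      add_zero, map_smul, pull_oneH D.ok_qP, sub_self])
  rw [hb.eq_zero_of_neg (by norm_num), zero_mul, sub_eq_zero] at e'
  exact ⟨c, e'⟩

theorem deg_two (hn : 1 ≤ n) {a : H D.Pq univ} (ha : IsDeg 2 a) :
    ∃ s t : ℂ, a = s • D.ee + t • D.zq := by
  obtain ⟨α, β, h1, h2, e⟩ := par_evn (p := 1) hn (ha.pull qP D.Pt univ)
  obtain ⟨c, rfl⟩ := MH_deg (k := 0) h2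
  obtain ⟨b, hb, e'⟩ := qP_eq_zero (p := 0) (ha.sub ((D.isDeg_zq hn).smul c)) (by
    rw [map_sub, e, MH_deg_zero h1 (.inl (by norm_num)), par_one, map_zero, map_zero,
      zero_add, map_smul, D.qP_zq hn, mul_smul_comm, mul_one, sub_self])
  obtain ⟨s, rfl⟩ := deg_zero hn hb
  rw [smul_mul_assoc, one_mul, sub_eq_iff_eq_add] at e'
  exact ⟨s, c, e'⟩

theorem indep_two (hn : 1 ≤ n) {s t : ℂ} (h : s • D.ee + t • D.zq = 0) : s = 0 ∧ t = 0 := by
  have n1 : (1 : H D.S univ) ≠ 0 := by simpa using D.uS_pow_ne (i := 0) hn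
  have h1 := congrArg (pull qP D.Pt univ) h
  rw [map_add, map_smul, map_smul, pull_qP_ee, D.qP_zq hn, smul_zero, map_zero] at h1
  obtain rfl : t = 0 := (smul_eq_zero.1 (par_inj hn (α := 0) (β := t • 1) (by
    rwa [map_zero, map_smul, pull_oneH par_ok, mul_smul_comm, mul_one])).2).resolve_right n1
  have h2 := congrArg (pull qP D.Pt univ) (ee_inj (p := 0) hn (isDeg_oneH.smul s) (by positivity)
    (by rwa [zero_smul, add_zero, ← one_mul D.ee, ← smul_mul_assoc] at h))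
  rw [map_smul, pull_oneH D.ok_qP, map_zero] at h2
  exact ⟨(smul_eq_zero.1 (par_inj hn (α := s • 1) (β := 0) (by
    rwa [map_zero, map_smul, pull_oneH par_ok, mul_zero, add_zero])).1).resolve_right n1, rfl⟩

theorem exists_d (hn : 1 ≤ n) : ∃ d : ℂ, D.mu = d • D.zq := by
  obtain ⟨s, t, e⟩ := deg_two hn D.isDeg_mu
  have h1 := congrArg (pull anti D.Pq univ) D.mu_ee
  rw [pull_mul par_oq, D.anti_ee, map_sub, D.anti_yp, D.anti_ym] at h1
  have h2 := ee_inj (p := 1) hn ((D.isDeg_mu.pull anti D.Pq univ).add D.isDeg_mu) (by omega)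
    (by rw [add_mul, h1, D.mu_ee, sub_add_sub_cancel, sub_self])
  rw [e, map_add, map_smul, map_smul, D.anti_ee, D.anti_zq hn] at h2
  have h3 := (indep_two hn (s := s + s) (t := 0) (Eq.trans (by module) h2)).1
  exact ⟨t, by rw [e, add_self_eq_zero.1 h3, zero_smul, zero_add]⟩

theorem par_fix (hn : 1 ≤ n) {b : H D.Pq univ} (hb : IsDeg (2 * p) b) (hp : p ≤ 2 * n)
    (e : pull anti D.Pq univ (b * D.ee) = b * D.ee) : pull anti D.Pq univ b = b := by
  rw [pull_mul par_oq, D.anti_ee, ← sub_eq_zero, ← sub_mul] at e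
  exact sub_eq_zero.1 (ee_inj hn ((hb.pull _ _ _).sub hb) hp e)

theorem par_step (hn : 1 ≤ n) {a : H D.Pq univ} (ha : IsDeg (p + 2) a)
    (e1 : pull anti D.Pq univ a = a) (e2 : D.zq * a = 0) : ∃ b, IsDeg p b ∧ a = b * D.ee := by
  obtain ⟨α, β, -, -, e⟩ := par_lh hn (ha.pull qP D.Pt univ)
  have h0 : ∀ x : H D.S univ, pull anti D.Pt univ (pull Prod.fst D.Pt univ x) =
      pull Prod.fst D.Pt univ x := pull_pull' par_ot par_ok fun _ _ => rfl
  have h1 : pull anti D.Pt univ (pull qP D.Pt univ a) = pull qP D.Pt univ a := by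
    rw [pull_pull par_ot D.ok_qP, ← pull_pull' (F := qP ∘ anti) D.ok_qP par_oq (fun _ _ => rfl), e1]
  have hz : pull anti D.Pt univ D.zt = -D.zt := (D.sb_t hn).anti_zz
  rw [e, map_add, pull_mul par_ot, h0, h0, hz, add_right_inj, neg_mul, neg_eq_iff_add_eq_zero,
    ← two_smul ℂ, smul_eq_zero] at h1
  rw [h1.resolve_left two_ne_zero, add_zero] at e
  have h2 := congrArg (pull qP D.Pt univ) e2
  rw [pull_mul D.ok_qP, D.qP_zq hn, e, map_zero] at h2
  rw [(par_inj hn (α := 0) (β := α) (by rwa [map_zero, zero_add])).2, map_zero] at e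
  exact qP_eq_zero ha e

theorem inv_zero (hn : 1 ≤ n) (k : ℕ) (hk : k ≤ 2 * n) : ∀ a : H D.Pq univ, IsDeg (2 * k) a →
    pull anti D.Pq univ a = a → D.zq * a = 0 → a = 0 := by
  induction k with
  | zero =>
    intro a ha e1 e2
    obtain ⟨b, hb, rfl⟩ := par_step (p := -2) hn (par_deg ha (by norm_num)) e1 e2
    rw [hb.eq_zero_of_neg (by norm_num), zero_mul]
  | succ k ih =>
    intro a ha e1 e2
    obtain ⟨b, hb, rfl⟩ := par_step (p := 2 * k) hn (par_deg ha (by push_cast; ring)) e1 e2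
    rw [ih (by omega) b hb (par_fix hn hb (by omega) e1) (ee_inj (p := k + 1) hn
      (par_deg (IsDeg.mulH (D.isDeg_zq hn) hb) (by ring)) (by omega) (by rwa [mul_assoc])), zero_mul]

theorem hy_zero (hn : 1 ≤ n) (h : D.mu ≠ 0) : D.hy = 0 := by
  obtain ⟨d, e⟩ := exists_d (D := D) hn
  have h1 := D.hy_mu
  rw [e, mul_smul_comm, smul_eq_zero] at h1
  refine inv_zero hn (2 * n) le_rfl _ (IsDeg.sum _ fun i hi => ?_) ?_ ?_
  · refine par_deg (IsDeg.mulH (IsDeg.powH D.isDeg_yp i) (IsDeg.powH D.isDeg_ym _)) ?_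
    have := Finset.mem_range.1 hi
    omega
  · rw [hy, map_sum, ← Finset.sum_range_reflect]
    refine Finset.sum_congr rfl fun i hi => ?_
    have := Finset.mem_range.1 hi
    rw [pull_mul par_oq, pull_pow par_oq, pull_pow par_oq, D.anti_yp, D.anti_ym,
      show n + 1 - 1 - i = n - i from rfl, show n - (n - i) = i by omega]
    exact (IsDeg.evn (IsDeg.powH D.isDeg_yp i) ⟨i * 2, by ring⟩).commH _
  · rw [← (IsDeg.evn (D.isDeg_zq hn) even_two).commH]
    exact h1.resolve_left fun k => h (by rw [e, k, zero_smul])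

theorem bD_zero (hn : 1 ≤ n) (h : D.mu ≠ 0) : D.bD = 0 := by
  exact ee_inj (p := 2 * n - 1) hn (par_deg D.isDeg_bD (by ring)) (by omega)
    (D.bD_ee.trans (hy_zero hn h))

theorem exists_beta (hn : 1 ≤ n)
    (h : D.zt ^ 2 = (-4 : ℂ) • pull Prod.fst D.Pt univ D.uS) :
    ∃ β : ℂ, D.zq ^ 2 = (-2 : ℂ) • (D.yp + D.ym) + β • D.ee ^ 2 := by
  obtain ⟨b, hb, e⟩ := qP_eq_zero (p := 2) (a := D.zq ^ 2 + (2 : ℂ) • (D.yp + D.ym))
    ((IsDeg.powH (D.isDeg_zq hn) 2).add ((D.isDeg_yp.add D.isDeg_ym).smul 2)) (by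
      rw [map_add, map_smul, map_add, pull_pow D.ok_qP, D.qP_zq hn, h, yp, ym, D.qP_pp, D.qP_pm,
        TD0.uS]
      module)
  have h1 := par_fix (p := 1) hn hb (by omega) (by
    rw [← e, map_add, map_smul, map_add, pull_pow par_oq, D.anti_zq hn, D.anti_yp, D.anti_ym,
      neg_sq, add_comm D.ym])
  obtain ⟨s, t, rfl⟩ := deg_two hn hb
  rw [map_add, map_smul, map_smul, D.anti_ee, D.anti_zq hn, ← sub_eq_zero] at h1
  have h2 := (indep_two hn (s := 0) (t := -(t + t)) (Eq.trans (by module) h1)).2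
  rw [add_self_eq_zero.1 (neg_eq_zero.1 h2), zero_smul, add_zero, smul_mul_assoc, ← sq] at e
  exact ⟨s, by rw [← e]; module⟩

theorem zq_gys_ne (hn : 1 ≤ n) :
    D.zq * D.gysP (pull Prod.fst D.Pt univ (pull D.j0 D.S univ (D.vp hn))) ≠ 0 := by
  intro e
  rw [← gysP_mul (IsDeg.evn (D.isDeg_zq hn) even_two), D.qP_zq hn] at e
  have h1 := gysP_inj hn (IsDeg.mulH (D.sb_t hn).isDeg_zz (((D.isDeg_vp hn).pull _ _ _).pull _ _ _))
    ⟨4 * n, by ring⟩ e
  exact D.vp_ne hn (par_inj hn (α := 0) (by rw [map_zero, zero_add]; exact h1)).2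

end TD

end Pool.Agent.Work.MP_8c604c_gt.T
end
end
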