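import Pool.Agent.Work.MP_849ab0_ag.G.FMil
import Pool.Agent.Work.MP_8c604c_gt.T.Gys
import Pool.Agent.Work.MP_8c604c_gt.T.Sph
import Pool.Agent.Work.MP_8c604c_gt.T.Deg
import Pool.Agent.Work.MP_8c604c_gt.OG.ZG
import Pool.Agent.Work.MP_8c604c_gt.T.ZTh

-- merged part: Pool.Agent.Work.MP_8c604c_gt.T.Disc
section
/-!
The Thom isomorphism with supports in a disc bundle (owner helper87).

PLAN.
* `thd_bij`: `thd R = pull id (dsc R) ∘ thm` (`supp_cm`), `CB.thm_bij`, and `supp_bij_of_push`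
  (`G/FMil`) with `F (y, t) = (y.1, (1 + t * (R + 1) / ‖y.2‖) • y.2)`, `Ext` from `ext_htpy`, `lc_sp`.
* `fst_zer`: `CB.fst_bij` and `pull_pull'`.  `zer_thd`: `pull_cm`, the definition of `eu`.
* `shell_inj`: `exact_dlt_supp` with `U = tot`, `Z₁ = shell`, `Z = dsc r`, `U₂ = tot \ shell`,
  `Z₂ = dsc r`: `c = dlt x`, replace `x` by `prj {p} x` (`dlt_prj`).  `res_excision_open` for
  `O = {‖y.2‖ < r}` and `res_bij_of_eq` identify `H (tot \ shell) (dsc r)` with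
  `H (tot ∩ O) univ`, which is `H U univ` (`pull_bij_of_section` with the zero section and
  `(y.1, t • y.2)`); a homogeneous class has a homogeneous preimage (`pull_prj`).  Finally
  `H tot (dsc r) → H tot (dsc R)` is injective by `thd_bij`, `supp_thd`.
* `snd_orient`: on `tot P U` the trivial bundle `1` splits as `P ∘ fst` and `Q ∘ fst`,
  `Q = 1 - P * 1` (`CB.sub` with `cb_one`); `ec_one`, `ec_split` with the sections `y.2` (zeros in
  `zs`) and `0`; `ec (P ∘ fst) 1 snd = th P` by `th_map` for the bundle map `(fst, 1)`;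
  `eu_pull`; commute with `Evn.comm`.  For `w ≠ 0` use `pull_htpy'` with `y.2 - t • w`.
-/

noncomputable section

set_option linter.unusedSectionVars false

namespace Pool.Agent.Work.MP_8c604c_gt.T

open Set Topology Matrix Pool.Agent.Work.MP_849ab0_ag.G

variable {X J : Type} [TopologicalSpace X] [Fintype J] {U : Set X} {r : ℕ}
  {P : X → Matrix J J ℂ} {R R' : ℝ}

/-- the disc bundle -/
def dsc (X J : Type) [Fintype J] (R : ℝ) : Set (X × (J → ℂ)) := {y | ‖y.2‖ ≤ R}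

/-- the sphere bundle -/
def shl (X J : Type) [Fintype J] (R : ℝ) : Set (X × (J → ℂ)) := {y | ‖y.2‖ = R}

/-- the zero section -/
def zer (J : Type) (x : X) : X × (J → ℂ) := (x, 0)

/-- the Thom map with supports in a disc bundle -/
def thd (P : X → Matrix J J ℂ) (r : ℕ) (U : Set X) (R : ℝ) :
    H U univ →ₗ[ℂ] H (tot P U) (dsc X J R) :=
  (cup (tot P U) (dsc X J R)).flip (th P r U) ∘ₗ pull Prod.fst (tot P U) univ

theorem thd_apply (a : H U univ) : thd P r U R a =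
    cup (tot P U) (dsc X J R) (pull Prod.fst (tot P U) univ a) (th P r U) := rfl

theorem isClosed_dsc : IsClosed (dsc X J R) := isClosed_le continuous_snd.norm continuous_const

theorem isClosed_shl : IsClosed (shl X J R) := isClosed_eq continuous_snd.norm continuous_const

theorem ok_zer (P : X → Matrix J J ℂ) (U : Set X) (Z : Set (X × (J → ℂ))) :
    Ok (zer J) U univ (tot P U) Z :=
  .of_mem (.of_continuous (continuous_id.prodMk continuous_const) _)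
    (fun _ h => ⟨h, mulVec_zero _⟩) fun _ _ _ => trivial

theorem ok_totfst (P : X → Matrix J J ℂ) (U : Set X) : Ok Prod.fst (tot P U) univ U univ :=
  .of_mem (.of_continuous continuous_fst _) (fun _ h => h.1) fun _ _ _ => trivial

variable [T3Space X] [SecondCountableTopology X]

theorem disc_zs (hR : 0 ≤ R) {y : X × (J → ℂ)} (hy : y ∈ zs X (J → ℂ)) : y ∈ dsc X J R :=
  (norm_eq_zero.2 hy).trans_le hR

theorem disc_cup (hR : 0 ≤ R) (A : Set (X × (J → ℂ))) :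
    CupOK A univ A (zs X (J → ℂ)) A (dsc X J R) := cupOK fun _ _ _ k => disc_zs hR k

theorem disc_smul {y : X × (J → ℂ)} (hy : y ∈ tot P U) (c : ℝ) : (y.1, c • y.2) ∈ tot P U :=
  ⟨hy.1, (mulVec_smul _ c _).trans (congrArg _ hy.2)⟩

theorem disc_norm {v : J → ℂ} (hv : v ≠ 0) {c : ℝ} (hc : 0 ≤ c) :
    ‖(1 + c / ‖v‖) • v‖ = ‖v‖ + c := by
  rw [norm_smul, Real.norm_of_nonneg (by positivity), add_mul, one_mul,
    div_mul_cancel₀ _ (norm_ne_zero_iff.2 hv)]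

theorem disc_zer (a : H U univ) : pull (zer J) U univ (pull Prod.fst (tot P U) univ a) = a :=
  (pull_pull' (F := id) (ok_zer P U _) (ok_totfst P U) (fun _ _ => rfl) a).trans (pull_id a)

theorem CB.thd_bij (h : CB P r U) (hR : 0 ≤ R) : Function.Bijective (thd P r U R) := by
  have h1 : ∀ {t : ℝ}, t ∈ Icc (0 : ℝ) 1 → 0 ≤ t * (R + 1) := fun ht =>
    mul_nonneg ht.1 (by linarith)
  have h2 : ∀ {y : X × (J → ℂ)}, y ∉ dsc X J R → y.2 ≠ 0 := fun hy e => hy (disc_zs hR e)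
  have h3 := supp_bij_of_push (U := tot P U) (Z := dsc X J R) (Z₁ := zs X (J → ℂ))
    (F := fun y => (y.1.1, (1 + y.2 * (R + 1) / ‖y.1.2‖) • y.1.2)) (fun _ hy => ⟨hy.1, h2 hy.2⟩)
    (ext_htpy h.lc_sp (ContinuousOn.prodMk (by fun_prop) (ContinuousOn.smul
      (continuousOn_const.add (ContinuousOn.div (by fun_prop) (by fun_prop)
        fun y hy => norm_ne_zero_iff.2 hy.1.2)) (by fun_prop))))
    (fun y hy t ht => ⟨disc_smul hy.1 _, norm_pos_iff.1 ((add_pos_of_pos_of_nonneg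
      (norm_pos_iff.2 hy.2) (h1 ht)).trans_eq (disc_norm hy.2 (h1 ht)).symm)⟩)
    (fun y hy t ht => ⟨disc_smul hy.1 _, fun k => hy.2 ((le_add_of_nonneg_right (h1 ht)).trans
      ((disc_norm (h2 hy.2) (h1 ht)).symm.trans_le k))⟩)
    (fun y _ => by simp) fun y hy => ⟨disc_smul hy.1 _, fun k => by
      have := (disc_norm hy.2 (h1 (right_mem_Icc.2 zero_le_one))).symm.trans_le k
      linarith [norm_nonneg y.2]⟩
  have e : ⇑(thd P r U R) = pull id (tot P U) (dsc X J R) ∘ thm P r U := funext fun a =>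
    (res_cup_out (.id subset_rfl fun _ _ => disc_zs hR) (cupU _ _) _ _).symm
  rw [e]
  exact h3.comp h.thm_bij

theorem CB.isDeg_thd (h : CB P r U) {p : ℤ} {a : H U univ} (ha : IsDeg p a) :
    IsDeg (p + 2 * r) (thd P r U R a) :=
  (ha.pull _ _ _).cup h.isThom_th.1 _ _

theorem CB.exists_thd (h : CB P r U) (hR : 0 ≤ R) {p : ℤ} {c : H (tot P U) (dsc X J R)}
    (hc : IsDeg (p + 2 * r) c) : ∃ a, IsDeg p a ∧ c = thd P r U R a := by
  obtain ⟨a, rfl⟩ := (h.thd_bij hR).2 c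
  refine ⟨_, isDeg_prj p a, ?_⟩
  rw [thd_apply (prj _ _), pull_prj, cup_prj_left (t := {p + 2 * r}) (by simp) _ h.isThom_th.1]
  exact (isDeg_iff.1 hc).symm

theorem CB.supp_thd (hR : 0 ≤ R) (hR' : R ≤ R') (a : H U univ) :
    pull id (tot P U) (dsc X J R') (thd P r U R a) = thd P r U R' a :=
  res_cup_out (.id subset_rfl fun _ _ k => le_trans k hR') (disc_cup hR _) _ _

theorem CB.fst_zer (h : CB P r U) (y : H (tot P U) univ) :
    pull Prod.fst (tot P U) univ (pull (zer J) U univ y) = y := by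
  obtain ⟨a, rfl⟩ := (Gys_bij h).2 y
  rw [disc_zer]

theorem CB.zer_thd (h : CB P r U) (hR : 0 ≤ R) (a : H U univ) :
    pull (zer J) U univ (thd P r U R a) = a * eu P r U := by
  rw [thd_apply, pull_cup' (ok_zer P U _) (ok_zer P U _) (ok_zer P U _) (fun _ _ _ k => k)
    (disc_cup hR _), disc_zer]
  rfl

theorem CB.cup_thd (h : CB P r U) (hR : 0 ≤ R) (y : H (tot P U) univ) (a : H U univ) :
    cup (tot P U) (dsc X J R) y (thd P r U R a) = thd P r U R (pull (zer J) U univ y * a) := by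
  rw [thd_apply, thd_apply, pull_mul (ok_totfst P U), h.fst_zer]
  exact (cup_assoc (cupU _ _) (disc_cup hR _) (disc_cup hR _) (cupU _ _) _ _ _).symm

theorem CB.shell_inj (h : CB P r U) (hR : 0 < R) (hR' : R ≤ R') {p : ℤ}
    (h0 : ∀ a : H U univ, IsDeg p a → a = 0) {c : H (tot P U) (shl X J R)} (hc : IsDeg (p + 1) c)
    (e : pull id (tot P U) (dsc X J R') c = 0) : c = 0 := by
  have h1 : pull id (tot P U) (dsc X J R) c = 0 := by
    obtain ⟨a, ha⟩ := (h.thd_bij hR.le).2 (pull id (tot P U) (dsc X J R) c)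
    have h2 := CB.supp_thd (P := P) (r := r) hR.le hR' a
    rw [ha, pull_res (Z₁ := dsc X J R) (W := dsc X J R') (Z' := shl X J R)
      (.id subset_rfl fun _ _ k => le_trans k hR') subset_rfl fun _ _ k => le_of_eq k, e] at h2
    rw [← ha, (h.thd_bij (hR.le.trans hR')).1 (h2.symm.trans (map_zero _).symm), map_zero]
  obtain ⟨x, rfl⟩ := (exact_dlt_supp (Z₁ := shl X J R) (Z₂ := dsc X J R) rfl (Set.ext fun y =>
    ⟨fun k => ⟨k.1.1, k.2⟩, fun k => ⟨⟨k.1, fun k' => k.2 (le_of_eq k')⟩, k.2⟩⟩) c).1 h1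
  have hO : IsOpen {y : X × (J → ℂ) | ‖y.2‖ < R} := isOpen_lt (by fun_prop) (by fun_prop)
  have h2 := res_excision (U := tot P U \ shl X J R) (U₁ := tot P U ∩ {y | ‖y.2‖ < R})
    (Z₁ := univ) (fun _ k => ⟨k.1, ne_of_lt k.2⟩) (.of_isClosed isClosed_dsc _)
    (fun y hy k => Filter.inter_mem (nhdsWithin_mono _ sdiff_subset self_mem_nhdsWithin)
      (nhdsWithin_le_nhds (hO.mem_nhds (lt_of_le_of_ne k hy.2))))
    fun y k => iff_of_true (show ‖y.2‖ ≤ R from le_of_lt k.2) trivial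
  have h3 := pull_bij_of_section (f := Prod.fst) (U := tot P U ∩ {y | ‖y.2‖ < R}) (Z := univ)
    (U' := U) (Z' := univ) (s := zer J) (F := fun y => (y.1.1, y.2 • y.1.2))
    (.of_mem (.of_continuous continuous_fst _) (fun _ k => k.1.1) fun _ _ _ => trivial)
    (.of_mem (ok_zer P U univ).ext (fun _ k => ⟨(ok_zer P U univ).maps k, norm_zero.trans_lt hR⟩)
      fun _ _ _ => trivial) (fun _ _ => rfl) (.of_continuous (by fun_prop) _)
    (fun y hy t ht => ⟨disc_smul hy.1 _, lt_of_le_of_lt ((norm_smul_le _ _).trans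
      (mul_le_of_le_one_left (norm_nonneg _) (abs_le.2 ⟨by linarith [ht.1], ht.2⟩))) hy.2⟩)
    (fun _ _ _ _ _ => trivial) (fun _ _ => by simp [zer]) fun _ _ => by simp
  obtain ⟨a, ha⟩ := h3.2 (pull id _ univ x)
  have h4 : prj {p} x = 0 := h2.1 (by
    rw [pull_prj, ← ha, ← pull_prj, h0 _ (isDeg_prj p a), map_zero, map_zero])
  rw [← isDeg_iff.1 hc, ← dlt_prj (s := {p}) (by simp), h4, map_zero]

/-- the tautological map of a line bundle -/
theorem CB.snd_orient [DecidableEq J] {m : ℕ} (hm : Fintype.card J = 1 + m) (h : CB P 1 U)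
    {w : J → ℂ} (hw : ‖w‖ ≤ R) :
    pull (fun y => y.2 - w) (tot P U) (dsc X J R) (orient J) =
      thd P 1 U R (eu (fun x => 1 - P x) m U) := by
  have hR := (norm_nonneg w).trans hw
  have h1 := cb_one (J := J) h.lc
  have h2 := cb_one (J := J) h.lc_tot
  rw [hm] at h1 h2
  have hQ : CB (fun x => 1 - P x) m U :=
    (h1.sub h fun _ _ => one_mul _).congr fun _ _ => by simp
  have hf := (ok_totfst P U).maps
  have hP := h.comp h.lc_tot continuousOn_fst hf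
  have hs : Sec (fun y : X × (J → ℂ) => P y.1) Prod.snd (tot P U) (zs X (J → ℂ)) :=
    ⟨continuousOn_snd, fun _ k => k.2, fun _ _ k => k⟩
  have b : BM (fun y : X × (J → ℂ) => P y.1) (tot P U) P U Prod.fst fun _ => 1 :=
    ⟨continuousOn_fst, hf, continuousOn_const, fun _ _ _ k => by simpa using k,
      fun _ _ _ _ k => by simpa using k⟩
  have h3 := ec_split h2 hP (hQ.comp h.lc_tot continuousOn_fst hf) (fun _ _ => one_mul _)
    (fun _ _ => one_mul _) (fun _ _ v k k' => by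
      rw [← k', sub_mulVec, one_mulVec, k, sub_self]) hs (sec_zero _ _)
    fun _ _ k _ => disc_zs hR k
  have h4 : ec (fun y : X × (J → ℂ) => P y.1) 1 Prod.snd (tot P U) (zs X (J → ℂ)) = th P 1 U := by
    rw [ec, ← th_map hP h b, pull_pull' (F := id) (hs.ok h.lc_tot) (b.ok hP)
      fun _ _ => by simp [bm], pull_id]
  simp only [Pi.zero_apply, add_zero] at h3
  rw [h4, ← hm, ec_one h.lc_tot (by fun_prop) fun _ _ k => disc_zs hR k] at h3
  rw [pull_htpy' (U' := univ) (Z' := {0}) (g := fun y => y.2)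
    (F := fun y => y.1.2 - (1 - y.2) • w) (.of_continuous (by fun_prop) _)
    (fun _ _ _ _ => trivial) (fun y _ t ht k => ?_) (fun _ _ => by simp) fun _ _ => by simp, h3,
    thd_apply, eu_pull hQ h.lc_tot continuousOn_fst hf]
  · exact (hQ.comp h.lc_tot continuousOn_fst hf).evn_eu.comm (disc_cup hR _) _
  · exact ((congrArg norm (sub_eq_zero.1 k)).trans_le ((norm_smul_le _ _).trans
      (mul_le_of_le_one_left (norm_nonneg _)
        (abs_le.2 ⟨by linarith [ht.2], by linarith [ht.1]⟩)))).trans hw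

end Pool.Agent.Work.MP_8c604c_gt.T
end
end

-- merged part: Pool.Agent.Work.MP_8c604c_gt.T.Tot
section
-- merged part: Pool.Agent.Work.MP_8c604c_gt.T.Cone
section
/-!
The cone over the equivariant map, on the tangent bundle.
Hints. cont_Cn: off the zero section cont_gr, cont_gc, gc_spec; at the zero section the norm is at most gr y * (max of the norm of Phi on the compact S) and gr is continuous, gr_zero.
Cn_bound: gr_bound and the minimum of the norm of Phi on S. zb_KR: ZB.supp and ZB.retract with (y, t) -> (y.1, (1 + t * (R + 1) / norm y.2) • y.2) (Tan.rsmul).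
Cn_move: pull_htpy' with (y, t) -> Cn y - t • w.
-/

noncomputable section

namespace Pool.Agent.Work.MP_8c604c_gt.T

open Set Topology Matrix Real Pool.Agent.Work.MP_849ab0_ag.G

variable {n : ℕ}

/-- vectors of length at most `R` -/
def KR (n : ℕ) (R : ℝ) : Set (AM n × AM n) := {y | ‖y.2‖ ≤ R}

theorem lc_Tt : IsLocallyClosed (Tt n) := isClosed_Tt.isLocallyClosed

theorem zb_KR {R : ℝ} (hR : 0 ≤ R) : ZB id (Tt n) (KR n R) (Tt n) (zs (AM n) (AM n)) := by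
  have cz : IsClosed (zs (AM n) (AM n)) := isClosed_eq continuous_snd continuous_const
  have key : ∀ y : AM n × AM n, y.2 ≠ 0 → ∀ t ∈ Icc (0 : ℝ) 1,
      ‖(1 + t * (R + 1) / ‖y.2‖) • y.2‖ = ‖y.2‖ + t * (R + 1) := fun y h t ht => by
    have h1 := norm_pos_iff.2 h
    have h2 := ht.1
    rw [norm_smul, Real.norm_of_nonneg (by positivity)]
    field_simp
  have sub : ∀ y : AM n × AM n, y ∈ zs (AM n) (AM n) → y ∈ KR n R := fun y h => by
    have : y.2 = 0 := h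
    show ‖y.2‖ ≤ R
    rwa [this, norm_zero]
  refine ZB.supp (fun y _ h => sub y h) (ZB.retract (Z := univ)
    (F := fun z => (z.1.1, (1 + z.2 * (R + 1) / ‖z.1.2‖) • z.1.2))
    (fun y h => ⟨h.1, fun k => h.2 (sub y k)⟩) (fun _ _ => Iff.rfl)
    (ext_htpy (lc_Tt.inter cz.isOpen_compl.isLocallyClosed) ?_) (fun y h t ht => ⟨h.1.rsmul _, ?_⟩)
    (fun y h t ht => ⟨h.1.rsmul _, ?_⟩) (fun _ _ _ _ _ => trivial) (fun y _ => by simp)
    fun y h => ⟨h.1.rsmul _, ?_⟩)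
  · have c1 : ContinuousOn (fun z : (AM n × AM n) × ℝ => z.2 * (R + 1) / ‖z.1.2‖)
        ((Tt n \ zs (AM n) (AM n)) ×ˢ Icc 0 1) :=
      ContinuousOn.div (by fun_prop) (by fun_prop) fun z hz => norm_ne_zero_iff.2 hz.1.2
    exact continuous_fst.fst.continuousOn.prodMk
      ((continuousOn_const.add c1).smul continuous_fst.snd.continuousOn)
  · intro k
    have k1 := key y h.2 t ht
    have k2 : (1 + t * (R + 1) / ‖y.2‖) • y.2 = 0 := k
    have k3 := norm_pos_iff.2 (h.2 : y.2 ≠ 0)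
    rw [k2, norm_zero] at k1
    nlinarith [ht.1]
  · intro k
    have k1 := key y (fun e => h.2 (sub y e)) t ht
    have k2 : ‖(1 + t * (R + 1) / ‖y.2‖) • y.2‖ ≤ R := k
    have k3 : ¬ ‖y.2‖ ≤ R := h.2
    rw [k1] at k2
    nlinarith [ht.1]
  · intro k
    have k1 := key y h.2 1 ⟨zero_le_one, le_rfl⟩
    have k2 : ‖(1 + 1 * (R + 1) / ‖y.2‖) • y.2‖ ≤ R := k
    rw [k1] at k2
    linarith [norm_nonneg y.2]

namespace TD

variable (D : TD n)

/-- the cone over `Φ` -/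
def Cn (y : AM n × AM n) : Fin (4 * n) → ℂ := D.gr y • D.Φ (D.gc y)

theorem Cn_eq {c : LM n} (hc : c ∈ D.S) {r : ℝ} (hr : 0 < r) :
    D.Cn (c 1, r • D.vel c) = r • D.Φ c := by
  rw [Cn, (D.gc_eq hc hr).1, (D.gc_eq hc hr).2]

theorem cont_Cn : ContinuousOn D.Cn (Tt n) := by
  obtain ⟨M, hM⟩ := D.cpt.exists_bound_of_continuousOn D.cΦ
  refine geob_smul_cont (Z := zs (AM n) (AM n)) (M := M)
    (isClosed_eq continuous_snd continuous_const) D.cont_gr
    (D.cΦ.comp D.cont_gc fun y h => (D.gc_spec h.1 h.2).1) (fun y _ h => ?_)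
    fun y h => hM _ (D.gc_spec h.1 h.2).1
  obtain ⟨p, X⟩ := y
  obtain rfl : X = 0 := h
  exact D.gr_zero p

theorem Cn_eq_zero {y : AM n × AM n} (hy : y ∈ Tt n) : D.Cn y = 0 ↔ y.2 = 0 := by
  refine ⟨fun e => by_contra fun h => ?_, fun e => ?_⟩
  · have k := D.gc_spec hy h
    exact (smul_ne_zero k.2.2.1.ne' (D.neΦ _ k.1)) e
  · obtain ⟨p, X⟩ := y
    obtain rfl : X = 0 := e
    rw [Cn, D.gr_zero, zero_smul]

theorem Cn_bound : ∃ a : ℝ, 0 < a ∧ ∀ y ∈ Tt n, a * ‖y.2‖ ≤ ‖D.Cn y‖ := by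
  obtain ⟨a, b, ha, -, h⟩ := D.gr_bound
  obtain ⟨c, hc, hm⟩ := D.cpt.exists_isMinOn ⟨_, D.c0S⟩ D.cΦ.norm
  have hp := norm_pos_iff.2 (D.neΦ c hc)
  refine ⟨a * ‖D.Φ c‖, by positivity, fun y hy => ?_⟩
  by_cases h0 : y.2 = 0
  · rw [h0, norm_zero, mul_zero]
    exact norm_nonneg _
  · have k := D.gc_spec hy h0
    rw [Cn, norm_smul, Real.norm_of_nonneg k.2.2.1.le, mul_right_comm]
    exact mul_le_mul (h y hy).1 (hm k.1) hp.le k.2.2.1.le

theorem ok_Cn : Ok D.Cn (Tt n) (zs (AM n) (AM n)) univ {0} :=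
  ok_of lc_Tt D.cont_Cn (mapsTo_univ _ _) fun _ h e => (D.Cn_eq_zero h).1 e

/-- moving the value -/
theorem Cn_move (w : Fin (4 * n) → ℂ) : ∃ R₀ : ℝ, ∀ R, R₀ ≤ R →
    ∀ a : H (univ : Set (Fin (4 * n) → ℂ)) {0},
      pull (fun y => D.Cn y - w) (Tt n) (KR n R) a = pull D.Cn (Tt n) (KR n R) a := by
  obtain ⟨a, ha, h⟩ := D.Cn_bound
  refine ⟨‖w‖ / a, fun R hR b => ?_⟩
  refine (LinearMap.congr_fun (pull_htpy' (U' := univ) (Z' := {0})
    (F := fun z => D.Cn z.1 - z.2 • w)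
    (ext_htpy lc_Tt ((D.cont_Cn.comp continuousOn_fst fun z hz => hz.1).sub (by fun_prop)))
    (fun _ _ _ _ => trivial) (fun y hy t ht k => ?_) (fun _ _ => by simp)
    fun _ _ => by simp) b).symm
  have k1 : D.Cn y = t • w := sub_eq_zero.1 k
  have k2 := h y hy
  rw [k1, norm_smul, Real.norm_of_nonneg ht.1] at k2
  refine le_trans ((le_div_iff₀ ha).2 ?_) hR
  nlinarith [ht.2, norm_nonneg w]

end TD

end Pool.Agent.Work.MP_8c604c_gt.T
end
end

-- merged part: Pool.Agent.Work.MP_8c604c_gt.T.Tot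
section
/-!
Polar coordinates on the total space of `Lq` and the Gysin sequence of `Pt → Pq` (owner helper87).

PLAN.
* `cq_kap`: `Pt ×ˢ Icc 0 R` is compact and its image is `Tq ∩ {‖y.2‖ ≤ R}`: a point of `Tq` is
  `(qP x, t • Φ x.1)` (`sph_lin_fix`, `Lq_qP`, `Pq_eq`); write `t • Φ = r • θ • Φ1`
  (`norm_mul_phs` of `T/EqExt`) and replace `x` by `(sh θ x.1, x.2)` (`Φ1_sh`, `qL_sh`).
* `kap_inj`: norms give `r' = r`; `qL_eq` gives `x'.1 = sh θ x.1`, and `θ • Φ1 = Φ1` forces `θ = 1`.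
* `nu_kap`, `cont_nu`: `Function.invFunOn`, `CQ.contOn'`.
* `nu_bij`: `pull_bij_of_section` with the section `x ↦ kap (x, 2)` and the homotopy
  `(y, t) ↦ (y.1, ((1 - t) * 2 / ‖y.2‖ + t) • y.2)`; note `y = kap (nu y, ‖y.2‖)`.
* `gd`: `CB.thd_bij` (`cup_res_right`), `CB.fst_bij`, `CB.fgt_thm` or `fst_zer`.
* the exactness statements: `GysD.pull_eq_zero`, `gys_eq_zero`, `mul_eq_zero`, `gys_mul_evn`,
  `gys_deg` and `fst = qP ∘ nu` on `To`; homogeneous parts by `prj` (`cup_prj_left`, `gys_prj`,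
  `pull_prj`, `isDeg_prj`).
* `gysP_Φ`: `Φ ∘ fst ∘ nu` is homotopic to `snd` in `{0}ᶜ` (positive multiples), `pull_dlt`,
  `CB.snd_orient` with `w = 0`, `GysD.gys_eq`.
-/

noncomputable section

set_option linter.unusedSectionVars false

namespace Pool.Agent.Work.MP_8c604c_gt.T

open Set Topology Matrix Pool.Agent.Work.MP_849ab0_ag.G

variable {n : ℕ}

namespace TD

variable (D : TD n)

/-- the ambient space of the total space -/
abbrev TA : Type := (LQ n × RN D.N) × (Fin (4 * n) → ℂ)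

/-- the total space of `Lq` -/
def Tq : Set D.TA := tot D.Lq D.Pq

/-- the unit disc bundle -/
def Dq : Set D.TA := dsc (LQ n × RN D.N) (Fin (4 * n)) 1

/-- the complement of the unit disc bundle -/
def To : Set D.TA := D.Tq \ D.Dq

/-- polar coordinates -/
def kap (x : (LM n × RN D.N) × ℝ) : D.TA := (qP x.1, x.2 • D.Φ1 x.1.1)

/-- the angular part of a nonzero vector -/
def nu (y : D.TA) : LM n × RN D.N := (Function.invFunOn D.kap (D.Pt ×ˢ Ici 0) y).1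

/-- the Thom map -/
def tq : H D.Pq univ →ₗ[ℂ] H D.Tq D.Dq := thd D.Lq 1 D.Pq 1

theorem lc_Tq : IsLocallyClosed D.Tq := D.cb_Lq.lc_tot

theorem lc_To : IsLocallyClosed D.To :=
  D.lc_Tq.inter isClosed_dsc.isOpen_compl.isLocallyClosed

theorem tq_bij : Function.Bijective D.tq := D.cb_Lq.thd_bij zero_le_one

theorem tot_Φ {c : LM n} (hc : c ∈ D.S) : ‖D.Φ c‖ • D.Φ1 c = D.Φ c :=
  smul_inv_smul₀ (norm_ne_zero_iff.2 (D.neΦ c hc)) _

theorem tot_sur {y : D.TA} (hy : y ∈ D.Tq) : ∃ x ∈ D.Pt, D.kap (x, ‖y.2‖) = y := by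
  obtain ⟨x, hx, e⟩ := D.Pq_eq.ge hy.1
  have h2 := hy.2
  rw [← e, Lq_qP hx.1, sph_lin_fix (D.neΦ _ hx.1)] at h2
  obtain ⟨t, ht⟩ := h2
  rw [← D.tot_Φ hx.1, ← Complex.coe_smul, smul_smul] at ht
  generalize t * (‖D.Φ x.1‖ : ℂ) = s at ht
  refine ⟨_, sh_mem (phs s) hx, Prod.ext (e ▸ Prod.ext (qL_sh (phs s) x.1) rfl) ?_⟩
  change ‖y.2‖ • D.Φ1 (sh (phs s) x.1) = y.2
  rw [Φ1_sh _ hx.1, ht, norm_smul, norm_Φ1 hx.1, mul_one, ← Complex.coe_smul, smul_smul,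
    norm_mul_phs]

theorem cq_kap : CQ D.kap (D.Pt ×ˢ Ici 0) D.Tq := by
  refine ⟨(continuous_qP.comp continuous_fst).continuousOn.prodMk (continuousOn_snd.smul
    (D.cont_Φ1.comp continuousOn_fst.fst fun _ h => h.1.1)), fun x hx => ⟨qP_mem hx.1, ?_⟩,
    fun y hy => ⟨D.Pt ×ˢ Icc 0 (‖y.2‖ + 1), prod_mono subset_rfl Icc_subset_Ici_self,
      D.isCompact_Pt.prod isCompact_Icc, mem_nhdsWithin.2 ⟨{z | ‖z.2‖ < ‖y.2‖ + 1},
        isOpen_lt continuous_snd.norm continuous_const, lt_add_one ‖y.2‖, fun z hz => ?_⟩⟩⟩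
  · change D.Lq (qP x.1) *ᵥ (x.2 • D.Φ1 x.1.1) = x.2 • D.Φ1 x.1.1
    rw [Lq_qP hx.1.1, sph_lin_fix (D.neΦ _ hx.1.1), Φ1, smul_smul]
    exact ⟨_, (Complex.coe_smul _ _).symm⟩
  · obtain ⟨x, hx, e⟩ := D.tot_sur hz.2
    exact ⟨(x, ‖z.2‖), ⟨hx, norm_nonneg _, le_of_lt hz.1⟩, e⟩

variable {D} {x x' : (LM n × RN D.N) × ℝ} {y : D.TA}

theorem norm_kap (hx : x ∈ D.Pt ×ˢ Ici 0) : ‖(D.kap x).2‖ = x.2 := by
  change ‖x.2 • D.Φ1 x.1.1‖ = x.2
  rw [norm_smul, norm_Φ1 hx.1.1, mul_one, Real.norm_of_nonneg hx.2]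

theorem kap_inj (hx : x ∈ D.Pt ×ˢ Ici 0) (hx' : x' ∈ D.Pt ×ˢ Ici 0) (e : D.kap x' = D.kap x) :
    x' = x ∨ x.2 = 0 ∧ x'.2 = 0 ∧ ∃ θ, x'.1 = (sh θ x.1.1, x.1.2) := by
  have e0 : x'.2 = x.2 := by rw [← norm_kap hx, ← norm_kap hx', e]
  obtain ⟨e1, e2⟩ := Prod.mk.inj e
  obtain ⟨e3, e4⟩ := Prod.mk.inj e1
  obtain ⟨θ, hθ⟩ := qL_eq.1 e3.symm
  by_cases h0 : x.2 = 0
  · exact .inr ⟨h0, e0.trans h0, θ, Prod.ext hθ.symm e4⟩
  have h1 : D.Φ1 x.1.1 ≠ 0 := norm_ne_zero_iff.1 (by rw [norm_Φ1 hx.1.1]; exact one_ne_zero)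
  rw [e0, ← hθ, Φ1_sh _ hx.1.1] at e2
  have e5 : θ = 1 := Circle.ext
    (smul_left_injective ℂ h1 ((smul_right_injective _ h0 e2).trans (one_smul _ _).symm))
  rw [e5, sh_one] at hθ
  exact .inl (Prod.ext (Prod.ext hθ.symm e4) e0)

theorem kap_mem_To (hx : x ∈ D.Pt ×ˢ Ici 0) : D.kap x ∈ D.To ↔ 1 < x.2 := by
  rw [← norm_kap hx]
  exact ⟨fun k => not_le.1 k.2, fun k => ⟨D.cq_kap.maps hx, not_le.2 k⟩⟩

theorem nu_kap (hx : x.1 ∈ D.Pt) (h0 : 0 < x.2) : D.nu (D.kap x) = x.1 := by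
  have m : x ∈ D.Pt ×ˢ Ici 0 := ⟨hx, h0.le⟩
  rcases kap_inj m (Function.invFunOn_mem ⟨x, m, rfl⟩) (Function.invFunOn_eq ⟨x, m, rfl⟩) with
    k | k
  · exact congrArg Prod.fst k
  · exact (h0.ne' k.1).elim

theorem kap_nu (hy : y ∈ D.To) : D.nu y ∈ D.Pt ∧ D.kap (D.nu y, ‖y.2‖) = y := by
  obtain ⟨x, hx, e⟩ := D.tot_sur hy.1
  have k := nu_kap (x := (x, ‖y.2‖)) hx (one_pos.trans (not_le.1 hy.2))
  rw [e] at k
  rw [k]
  exact ⟨hx, e⟩

variable (D)

theorem tot_cont : ContinuousOn D.nu D.To :=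
  D.cq_kap.contOn' sdiff_subset continuousOn_fst fun _ hx k =>
    nu_kap hx.1 (one_pos.trans ((kap_mem_To hx).1 k))

theorem ok_nu : Ok D.nu D.To univ D.Pt univ := by
  exact ok_top D.lc_To D.tot_cont fun _ hy => (kap_nu hy).1

theorem nu_bij : Function.Bijective (pull D.nu D.To univ : H D.Pt univ → _) := by
  have lt : ∀ y ∈ D.To, ∀ t ∈ Icc (0 : ℝ) 1, 1 < (1 - t) * 2 + t * ‖y.2‖ := fun y hy t ht => by
    have h1 : 1 < ‖y.2‖ := not_le.1 hy.2
    rcases ht.1.eq_or_lt with rfl | k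
    exacts [by simp, by nlinarith [ht.2]]
  have m : ∀ y ∈ D.To, ∀ t ∈ Icc (0 : ℝ) 1,
      (D.nu y, (1 - t) * 2 + t * ‖y.2‖) ∈ D.Pt ×ˢ Ici (0 : ℝ) := fun y hy t ht =>
    ⟨(kap_nu hy).1, (one_pos.trans (lt y hy t ht)).le⟩
  have m2 : ∀ x ∈ D.Pt, (x, (2 : ℝ)) ∈ D.Pt ×ˢ Ici (0 : ℝ) := fun x hx =>
    ⟨hx, (zero_le_two : (0 : ℝ) ≤ 2)⟩
  refine pull_bij_of_section (s := fun x => D.kap (x, 2)) D.ok_nu
    (ok_top D.lc_Pt (D.cq_kap.cont.comp (continuousOn_id.prodMk continuousOn_const) m2)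
      fun x hx => (kap_mem_To (m2 x hx)).2 one_lt_two) (fun x hx => nu_kap hx two_pos)
    (F := fun w => D.kap (D.nu w.1, (1 - w.2) * 2 + w.2 * ‖w.1.2‖))
    (ext_htpy D.lc_To (D.cq_kap.cont.comp ((D.tot_cont.comp continuousOn_fst fun _ k => k.1).prodMk
      (by fun_prop)) fun w hw => m _ hw.1 _ hw.2))
    (fun y hy t ht => (kap_mem_To (m y hy t ht)).2 (lt y hy t ht)) (fun _ _ _ _ _ => trivial)
    (fun y hy => by simp) fun y hy => by simpa using (kap_nu hy).2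

theorem tot_ok : Ok id D.Tq D.Dq D.Tq (zs _ _) := .id subset_rfl fun y _ k => by
  change ‖y.2‖ ≤ 1
  rw [show y.2 = 0 from k, norm_zero]
  exact zero_le_one

theorem tot_tq (a : H D.Pq univ) : cup D.Tq D.Dq (pull Prod.fst D.Tq univ a)
    (pull id D.Tq D.Dq (th D.Lq 1 D.Pq)) = D.tq a := cup_res_right D.tot_ok (cupU _ _) _ _

theorem gd : GysD Prod.fst D.Tq D.Dq D.Pq (pull id D.Tq D.Dq (th D.Lq 1 D.Pq)) 2 D.ee := by
  refine ⟨ok_totfst _ _, D.cb_Lq.isThom_th.1.pull _ _ _, ?_, Gys_bij D.cb_Lq, ?_⟩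
  · rw [funext D.tot_tq]
    exact D.tq_bij
  · have e := D.cb_Lq.fgt_thm 1
    rw [one_mul, thm_apply, pull_oneH (ok_totfst _ _), cm_one] at e
    exact e.symm.trans (res_pull D.tot_ok subset_rfl (fun _ _ _ => trivial) _).symm

/-- integration along the circles -/
def gysP : H D.Pt univ →ₗ[ℂ] H D.Pq univ := D.gd.gys ∘ₗ pull D.nu D.To univ

theorem tot_fst (a : H D.Pq univ) :
    pull D.nu D.To univ (pull qP D.Pt univ a) = pull Prod.fst D.To univ a :=
  pull_pull' D.ok_nu D.ok_qP (fun _ hy => congrArg Prod.fst (kap_nu hy).2) a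

theorem tq_gysP (a : H D.Pt univ) :
    D.tq (D.gysP a) = dlt D.Tq D.Dq (pull D.nu D.To univ a) := by
  rw [← D.tot_tq]
  exact D.gd.gys_spec _

variable {D} {p : ℤ}

theorem isDeg_gysP {a : H D.Pt univ} (ha : IsDeg (p + 1) a) : IsDeg p (D.gysP a) := by
  exact D.gd.gys_deg (ha.pull _ _ _) (by ring)

theorem qP_eq_zero {a : H D.Pq univ} (ha : IsDeg (p + 2) a) (e : pull qP D.Pt univ a = 0) :
    ∃ b, IsDeg p b ∧ a = b * D.ee := by
  obtain ⟨b, hb⟩ := (D.gd.pull_eq_zero a).1 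
    ((D.tot_fst a).symm.trans ((congrArg _ e).trans (map_zero _)))
  refine ⟨_, isDeg_prj p b, ?_⟩
  rw [mulH, cup_prj_left (t := {p + 2}) (fun q => by simp) b D.isDeg_ee, ← mulH, ← hb,
    ha.prj_eq (mem_singleton _)]

theorem pull_qP_ee : pull qP D.Pt univ D.ee = 0 := by
  exact D.nu_bij.1 ((D.tot_fst _).trans (D.gd.pull_e.trans (map_zero _).symm))

theorem gysP_qP (a : H D.Pq univ) : D.gysP (pull qP D.Pt univ a) = 0 := by
  exact (congrArg D.gd.gys (D.tot_fst a)).trans (D.gd.gys_pull a)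

theorem gysP_eq_zero {a : H D.Pt univ} (ha : IsDeg p a) (e : D.gysP a = 0) :
    ∃ b : H D.Pq univ, IsDeg p b ∧ a = pull qP D.Pt univ b := by
  obtain ⟨b, hb⟩ := (D.gd.gys_eq_zero _).1 e
  refine ⟨_, isDeg_prj p b, ?_⟩
  rw [pull_prj, ← D.nu_bij.1 (hb.trans (D.tot_fst b).symm), ha.prj_eq (mem_singleton _)]

theorem mul_ee_eq_zero {b : H D.Pq univ} (hb : IsDeg p b) (e : b * D.ee = 0) :
    ∃ a, IsDeg (p + 1) a ∧ b = D.gysP a := by
  obtain ⟨c, hc⟩ := (D.gd.mul_eq_zero b).1 e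
  obtain ⟨a, rfl⟩ := D.nu_bij.2 c
  refine ⟨_, isDeg_prj _ a, Eq.symm ((congrArg D.gd.gys (pull_prj _ a)).trans ?_)⟩
  refine (D.gd.gys_prj (t := {p}) (fun q => ?_) _).trans ?_
  · simp only [mem_singleton_iff]
    omega
  · exact (congrArg _ hc).trans (hb.prj_eq (mem_singleton _))

theorem gysP_mul {b : H D.Pq univ} (hb : Evn b) (a : H D.Pt univ) :
    D.gysP (pull qP D.Pt univ b * a) = b * D.gysP a := by
  refine (congrArg D.gd.gys ((pull_mul D.ok_nu _ _).trans ?_)).trans (D.gd.gys_mul_evn hb _)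
  rw [D.tot_fst]
  rfl

theorem gysP_Φ (hn : 1 ≤ n) {σ : H ({0}ᶜ : Set (Fin (4 * n) → ℂ)) univ}
    (hσ : dlt univ {0} σ = orient (Fin (4 * n))) :
    D.gysP (pull (fun x => D.Φ x.1) D.Pt univ σ) = eu (fun y => 1 - D.Lq y) (4 * n - 1) D.Pq := by
  have x1 : Ext (fun y : D.TA => y.2 - 0) D.Tq := .of_continuous (by fun_prop) _
  have o1 : Ok (fun y : D.TA => y.2 - 0) D.Tq D.Dq univ {0} :=
    .of_mem x1 (fun _ _ => trivial) fun y hy k => D.tot_ok.mem hy (sub_eq_zero.1 k)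
  have o2 : Ok (fun y : D.TA => y.2 - 0) D.To univ {0}ᶜ univ :=
    .of_mem (x1.mono sdiff_subset) (fun _ hy => (o1.supp hy).2) fun _ _ _ => trivial
  have m : ∀ y ∈ D.To, (D.nu y).1 ∈ D.S := fun y hy => (kap_nu hy).1.1
  have c : ContinuousOn (fun w : D.TA × ℝ => (D.nu w.1).1) (D.To ×ˢ Icc 0 1) :=
    (D.tot_cont.comp continuousOn_fst fun _ k => k.1).fst
  have o3 : Ok (fun x : LM n × RN D.N => D.Φ x.1) D.Pt univ {0}ᶜ univ :=
    ok_top D.lc_Pt (D.cΦ.comp continuousOn_fst fun _ k => k.1) fun x hx => D.neΦ _ hx.1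
  apply D.tq_bij.1
  rw [D.tq_gysP, pull_pull' (F := fun y => D.Φ (D.nu y).1) D.ok_nu o3
    fun _ _ => rfl, pull_htpy' (f := fun y => D.Φ (D.nu y).1) (g := fun y : D.TA => y.2 - 0)
    (Z := univ) (U' := {0}ᶜ) (Z' := univ)
    (F := fun w => ((1 - w.2) * ‖D.Φ (D.nu w.1).1‖ + w.2 * ‖w.1.2‖) • D.Φ1 (D.nu w.1).1)
    (ext_htpy D.lc_To ((((continuousOn_const.sub continuousOn_snd).mul
      (D.cΦ.comp c fun _ k => m _ k.1).norm).add (by fun_prop)).smul
      (D.cont_Φ1.comp c fun _ k => m _ k.1))) (fun y hy t ht => ?_) (fun _ _ _ _ _ => trivial)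
    (fun y hy => by simpa using D.tot_Φ (m y hy))
    (fun y hy => by simpa [kap] using congrArg Prod.snd (kap_nu hy).2),
    ← pull_dlt (U₁ := D.To) x1 subset_rfl sdiff_subset o1 o2 subset_rfl fun _ k => k.2, hσ]
  · exact D.cb_Lq.snd_orient (by rw [Fintype.card_fin]; omega) (by simp)
  · have h1 : 1 < ‖y.2‖ := not_le.1 hy.2
    have h2 := norm_pos_iff.2 (D.neΦ _ (m y hy))
    refine smul_ne_zero (ne_of_gt ?_)
      (norm_ne_zero_iff.1 (by rw [norm_Φ1 (m y hy)]; exact one_ne_zero))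
    rcases ht.1.eq_or_lt with rfl | k
    exacts [by simpa using D.neΦ _ (m y hy), by nlinarith [ht.2]]

end TD

end Pool.Agent.Work.MP_8c604c_gt.T
end
end
end
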