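import Pool.Agent.Work.MP_8c604c_gt.T.Par
import Pool.Agent.Work.MP_8c604c_gt.OT.Tor
import Mathlib
import Pool.Agent.Work.MP_8c604c_gt.T.Cx
import Pool.Agent.Work.MP_8c604c_gt.T.ThF
import Pool.Agent.Work.MP_8c604c_gt.T.HS
import Pool.Agent.Work.MP_8c604c_gt.T.SL

-- merged part: Pool.Agent.Work.MP_8c604c_gt.T.DZ
section
/-!
The integral structure of the ring `H Pq univ` in low degrees (owner helper12).
-/

noncomputable section

set_option linter.unusedSectionVars false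

namespace Pool.Agent.Work.MP_8c604c_gt.T

open Set Topology Matrix Real Pool.Agent.Work.MP_849ab0_ag.G

variable {n : ℕ} {q : ℤ}

namespace TD

variable (D : TD n)

theorem dz_pull (a : H D.Pq univ) : pull (fun x => (qP x, D.Φ x.1)) D.Pt univ
    (pull Prod.fst (sp D.Lq D.Pq) univ a) = pull qP D.Pt univ a :=
  pull_pull' D.zb_Pt.ok (ok_sp _ _) (fun _ _ => rfl) a

theorem dz_ker (v : Tf q D.Pt univ) {a : H D.Pq univ} (ha : IsZ a) (hd : IsDeg q a)
    (k : pull qP D.Pt univ a = 0) : ∃ b, IsZ b ∧ IsDeg (q - 2) b ∧ a = b * D.ee :=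
  D.cb_Lq.thZ.ker D.cb_Lq.fst_eu (v.of_pul D.zb_Pt) ha hd
    (D.zb_Pt.bij.1 (((D.dz_pull a).trans k).trans (map_zero _).symm))

theorem dz_zero (hn : 1 ≤ n) {b : H D.Pq univ} (hb : IsZ b) (hd : IsDeg 0 b) :
    ∃ m : ℤ, b = (m : ℂ) • 1 := by
  obtain ⟨m, e⟩ := (D.sb_t hn).deg_zero (D.isPathConnected_S hn).isConnected
    (hb.pul qP D.Pt univ) (hd.pull _ _ _)
  obtain ⟨c, -, c2, c3⟩ := D.dz_ker tf_zero (hb.sub (isZ_oneH.smul m)) (hd.sub (isDeg_oneH.smul _))
    (by rw [map_sub, map_smul, pull_oneH D.ok_qP]; exact sub_eq_zero.2 e)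
  rw [c2.eq_zero_of_neg (by norm_num), zero_mul] at c3
  exact ⟨m, sub_eq_zero.1 c3⟩

theorem dz_two (hn : 2 ≤ n) {a : H D.Pq univ} (ha : IsZ a) (hd : IsDeg 2 a)
    (k : pull qP D.Pt univ a = 0) : ∃ m : ℤ, a = (m : ℂ) • D.ee := by
  obtain ⟨b, b1, b2, rfl⟩ := D.dz_ker ((D.sb_t (by omega)).tf_two
    (D.van_S hn (by norm_num) (by norm_num))) ha hd k
  obtain ⟨m, rfl⟩ := D.dz_zero (by omega) b1 b2
  exact ⟨m, by rw [smul_mul_assoc, one_mul]⟩

theorem exists_zeta (hn : 2 ≤ n)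
    (h : D.zt ^ 2 = (-4 : ℂ) • pull Prod.fst D.Pt univ D.uS) :
    ∃ (ζ : H D.Pq univ) (j s t : ℤ), IsDeg 2 ζ ∧ (2 : ℂ) • ζ = D.zq + (j : ℂ) • D.ee ∧
      ζ ^ 2 + D.yp = D.ee * ((s : ℂ) • D.ee + (t : ℂ) • ζ) := by
  have hn' : 1 ≤ n := by omega
  have sb := D.sb_t hn'
  have v1 := D.van_S hn (q := 1) (by norm_num) (by norm_num)
  have v2 := D.van_S hn (q := 2) (by norm_num) (by norm_num)
  have v3 := D.van_S hn (q := 3) (by norm_num) (by norm_num)
  obtain ⟨η, g, e⟩ := sb.exists_half (D.isPathConnected_S hn').isConnected v2 v3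
  have t := D.cb_Lq.thZ
  obtain ⟨η', g', rfl⟩ := g.exists_pul D.zb_Pt
  obtain ⟨ζ, z1, z2, rfl⟩ := t.desc (t.van_base ((sb.van v1 (van_neg (by norm_num))).of_pul
    D.zb_Pt) (van_neg (by norm_num))) g'.isZ g'.deg
  replace g : Gen 2 (pull qP D.Pt univ ζ) := D.dz_pull ζ ▸ g
  replace e : D.zt = (2 : ℂ) • pull qP D.Pt univ ζ := D.dz_pull ζ ▸ e
  obtain ⟨j, hj⟩ := D.dz_two hn ((z1.nsmul 2).sub (D.sb_q hn').cb_ell.isZ_eu)
    ((z2.smul _).sub (D.isDeg_zq hn')) (by
      rw [map_sub, map_smul, sub_eq_zero]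
      exact e.symm.trans (D.qP_zq hn').symm)
  obtain ⟨w, w1, w2, w3⟩ := D.dz_ker (sb.tf_four (D.tf_S hn) v1 v2)
    ((z1.pow 2).add (ql_MH.toCB.isZ_eu.pul D.pp _ _)) ((IsDeg.powH z2 2).add D.isDeg_yp) (by
      refine smul_right_injective _ (show (4 : ℂ) ≠ 0 by norm_num) ?_
      rw [e, smul_pow] at h
      simp only [map_add, smul_add, smul_zero]
      rw [pull_pow D.ok_qP, show (4 : ℂ) = 2 ^ 2 by norm_num, h]
      refine (congrArg _ (congrArg _ (D.qP_pp _))).trans ?_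
      refine (add_smul _ _ _).symm.trans ?_
      norm_num)
  obtain ⟨t, ht⟩ := g.int _ (w1.pul qP D.Pt univ) (w2.pull _ _ _)
  obtain ⟨s, hs⟩ := D.dz_two hn (w1.sub (z1.smul t)) (w2.sub (z2.smul _)) (by
    rw [map_sub, map_smul, ht, sub_self])
  refine ⟨ζ, j, s, t, z2, eq_add_of_sub_eq' hj, w3.trans ?_⟩
  rw [← hs, sub_add_cancel]
  exact D.cb_Lq.evn_eu.commH w

end TD

end Pool.Agent.Work.MP_8c604c_gt.T
end
end

-- merged part: Pool.Agent.Work.MP_8c604c_gt.T.AlgLS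
section
/-!
The algebra of the cup length argument (pure commutative algebra).

PLAN.
* `alg_core` (ring with `u ^ 2 = 0`).  Write `n = m + 2`.  Let `s`, `t : ℕ → ℂ` be given by
  `s 0 = 1`, `s 1 = -α`, `s (k+2) = -α s (k+1) - b0 s k`, `t 0 = -α`,
  `t 1 = 2 α ^ 2 - b1`, `t (k+2) = -α t (k+1) - b0 t k - α s (k+2) - b1 s (k+1)`
  (so `t k` is the coefficient of `u v ^ k X ^ (k+1)`).  With `A0 = mk (s k • v ^ k)`,
  `A1 = mk (t k • v ^ k)` one has `om0 u v * (A0 + C u * X * A1) = 1` (compare coefficients,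
  `coeff_succ_X_mul`, or prove `q * A0 = 1` and `q * A1 = -(α + b1 v X) A0` for
  `q = 1 + α v X + b0 v ^ 2 X ^ 2`, then `linear_combination` with `C u ^ 2 = 0`), and
  `(1 + u X) ^ (2n+2) = 1 + (2n+2) u X`, `(1 + 4 u X) (1 - 4 u X) = 1`.  Hence
  `G = A0 B0 + u X ((2n-2) A0 B0 + A1 B0 + A0 B1)`.  Since `u ^ 2 = 0`,
  `v (u-v)(u-w)(v-w) = (v^3 w - v^2 w^2) + u (v w^2 - v^3)`.  Auxiliary lemma: for `a + b + k = 2 n`,
  `v^a w^b * coeff k (mk (x j • v^j) * mk (y j • w^j)) = (if a ≤ n ∧ b ≤ n then x (n-a) * y (n-b)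
  else 0) • (v^n w^n)`, and the product is `0` if `a + b + k > 2 n` (`coeff_mul`, `Finset.sum_eq_single`).
  With `U 0 = 0`, `U (k+1) = s k`, `T 0 = 0`, `T (k+1) = t k` the coefficient is
  `(2n-2)(U m U (m+2) - U (m+1)^2) + (T m U (m+2) + U m T (m+2) - 2 T (m+1) U (m+1))
   + (U (m+2) U (m+1) - U m U (m+3))`; by induction on `m` (joint statement, `linear_combination`)
  the three brackets are `-b0^m`, `(m+2) α b0^m`, `-α b0^m`.
* `alg_ser`: from the divisibility of polynomials to power series.  `contract_mul_expand` removes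
  `expand 2`; `reflect_mul` with `natDegree` of the quotient `≤ 2n - 4` (the divisor is monic of degree
  `6`; trivial ring separately); `om0` has constant coefficient `1`, so it is a unit in `R⟦X⟧`.
* `alg_LS`: apply `alg_core` in the quotient of `R` by the annihilator of `u ^ (n-1)`
  (`PowerSeries.map`), where `u v^n w^n ≠ 0`.
-/

noncomputable section

namespace Pool.Agent.Work.MP_8c604c_gt.T

open Polynomial

variable {R R' : Type} [CommRing R] [Algebra ℂ R] [CommRing R']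

/-- the Chern polynomial of `W` -/
def om (α b0 b1 b2 : ℂ) (u v : R) : R[X] :=
  X ^ 4 + C (α • (u + v)) * X ^ 2 + C (b0 • v ^ 2 + b1 • (u * v) + b2 • u ^ 2)

/-- the total Chern class of `W` -/
def om0 (α b0 b1 b2 : ℂ) (u v : R) : PowerSeries R :=
  1 + PowerSeries.C (α • (u + v)) * PowerSeries.X +
    PowerSeries.C (b0 • v ^ 2 + b1 • (u * v) + b2 • u ^ 2) * PowerSeries.X ^ 2

/-- substitution of `v X` in a complex power series -/
def alglsE (v : R) : PowerSeries ℂ →+* PowerSeries R :=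
  (PowerSeries.rescale v).comp (PowerSeries.map (algebraMap ℂ R))

theorem alglsE_coeff (v : R) (f : PowerSeries ℂ) (k : ℕ) :
    PowerSeries.coeff k (alglsE v f) = PowerSeries.coeff k f • v ^ k := by
  rw [alglsE, RingHom.comp_apply, PowerSeries.coeff_rescale, PowerSeries.coeff_map,
    Algebra.smul_def, mul_comm]

theorem alglsE_X (v : R) : alglsE v PowerSeries.X = PowerSeries.C v * PowerSeries.X := by
  rw [alglsE, RingHom.comp_apply, PowerSeries.map_X, PowerSeries.rescale_X]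

theorem alglsE_C (v : R) (c : ℂ) :
    alglsE v (PowerSeries.C c) = PowerSeries.C (algebraMap ℂ R c) := by
  ext k
  rw [alglsE_coeff, PowerSeries.coeff_C, PowerSeries.coeff_C]
  split_ifs with h
  · rw [h, pow_zero, Algebra.algebraMap_eq_smul_one]
  · rw [zero_smul]

theorem algls_top {v w : R} {n : ℕ} (hv : v ^ (n + 1) = 0) (hw : w ^ (n + 1) = 0)
    (f g : PowerSeries ℂ) : PowerSeries.coeff (2 * n) (alglsE v f * alglsE w g) =
      (PowerSeries.coeff n f * PowerSeries.coeff n g) • (v ^ n * w ^ n) := by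
  rw [PowerSeries.coeff_mul, Finset.sum_eq_single (n, n)]
  · rw [alglsE_coeff, alglsE_coeff, smul_mul_smul_comm]
  · rintro ⟨a, b⟩ h1 h2
    rw [Finset.HasAntidiagonal.mem_antidiagonal] at h1
    rw [alglsE_coeff, alglsE_coeff]
    by_cases h : n + 1 ≤ a
    · rw [pow_eq_zero_of_le h hv, smul_zero, zero_mul]
    · have : n + 1 ≤ b := by
        by_contra h3
        exact h2 (Prod.ext (by simp only at h1 ⊢; omega) (by simp only at h1 ⊢; omega))
      rw [pow_eq_zero_of_le this hw, smul_zero, mul_zero]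
  · intro h
    exact absurd (Finset.HasAntidiagonal.mem_antidiagonal.2 (two_mul n).symm) h

theorem algls_over {v w : R} {n : ℕ} (hv : v ^ (n + 1) = 0) (hw : w ^ (n + 1) = 0)
    (f g : PowerSeries ℂ) : PowerSeries.coeff (2 * n + 1) (alglsE v f * alglsE w g) = 0 := by
  rw [PowerSeries.coeff_mul]
  refine Finset.sum_eq_zero fun p h1 => ?_
  rw [Finset.HasAntidiagonal.mem_antidiagonal] at h1
  rw [alglsE_coeff, alglsE_coeff]
  by_cases h : n + 1 ≤ p.1
  · rw [pow_eq_zero_of_le h hv, smul_zero, zero_mul]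
  · rw [pow_eq_zero_of_le (show n + 1 ≤ p.2 by omega) hw, smul_zero, mul_zero]

theorem algls_rec {α b0 b1 : ℂ} {U T : ℕ → ℂ} (U0 : U 0 = 0) (U1 : U 1 = 1) (T0 : T 0 = 0)
    (T1 : T 1 = -α) (hU : ∀ k, U (k + 2) + α * U (k + 1) + b0 * U k = 0)
    (hT : ∀ k, T (k + 2) + α * T (k + 1) + b0 * T k = -(α * U (k + 2) + b1 * U (k + 1))) (m : ℕ) :
    U m * U (m + 2) - U (m + 1) ^ 2 = -b0 ^ m ∧
      T m * U (m + 2) + U m * T (m + 2) - 2 * T (m + 1) * U (m + 1) = (m + 2) * α * b0 ^ m := by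
  induction m with
  | zero => simp [U0, U1, T0, T1]
  | succ m ih =>
    have h : U (m + 1) * U (m + 1 + 2) - U (m + 1 + 1) ^ 2 = -b0 ^ (m + 1) := by
      linear_combination b0 * ih.1 + U (m + 1) * hU (m + 1) - U (m + 2) * hU m
    refine ⟨h, ?_⟩
    push_cast
    linear_combination b0 * ih.2 - α * h + T (m + 1) * hU (m + 1) + U (m + 1) * hT (m + 1) -
      U (m + 2) * hT m - T (m + 2) * hU m

theorem algls_nil {S : Type} [CommRing S] {e : S} (he : e ^ 2 = 0) (k : ℕ) :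
    (1 + e) ^ k = 1 + k * e := by
  induction k with
  | zero => simp
  | succ k ih =>
    rw [pow_succ, ih]
    push_cast
    linear_combination k * he

open PowerSeries in
theorem algls_inv {u : R} (hu : u ^ 2 = 0) (v : R) {α b0 b1 : ℂ} (b2 : ℂ) {A A1 : ℂ⟦X⟧}
    (hA : (1 + PowerSeries.C α * PowerSeries.X + PowerSeries.C b0 * PowerSeries.X ^ 2) * A = 1)
    (hA1 : (1 + PowerSeries.C α * PowerSeries.X + PowerSeries.C b0 * PowerSeries.X ^ 2) * A1 =
      -(PowerSeries.C α + PowerSeries.C b1 * PowerSeries.X) * A) :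
    om0 α b0 b1 b2 u v * (alglsE v A + PowerSeries.C u * PowerSeries.X * alglsE v A1) = 1 := by
  have h1 := congrArg (alglsE v) hA
  have h2 := congrArg (alglsE v) hA1
  have h3 : (PowerSeries.C u) ^ 2 = 0 := by rw [← map_pow, hu, map_zero]
  simp only [map_mul, map_add, map_neg, map_pow, map_one, alglsE_X, alglsE_C] at h1 h2
  simp only [om0, hu, add_zero, Algebra.smul_def, map_mul, map_add, map_pow, mul_zero]
  linear_combination h1 + PowerSeries.C u * PowerSeries.X * h2 + PowerSeries.X ^ 2 * alglsE v A1 *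
    (PowerSeries.C (algebraMap ℂ R α) + PowerSeries.C (algebraMap ℂ R b1) * PowerSeries.C v *
      PowerSeries.X) * h3

theorem alg_core {u v w : R} {m : ℕ} (hu : u ^ 2 = 0) (hv : v ^ (m + 3) = 0)
    (hw : w ^ (m + 3) = 0) (α b0 b1 b2 : ℂ) {G : PowerSeries R}
    (hG : (1 + PowerSeries.C (4 * u) * PowerSeries.X) * om0 α b0 b1 b2 u v * om0 α b0 b1 b2 u w * G =
      (1 + PowerSeries.C u * PowerSeries.X) ^ (2 * m + 6)) :
    v * ((u - v) * (u - w) * (v - w) * PowerSeries.coeff (2 * m + 1) G) =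
      (b0 ^ m * (m + 1) * (α - 2)) • (u * v ^ (m + 2) * w ^ (m + 2)) := by
  obtain ⟨q, hq⟩ : ∃ q : PowerSeries ℂ,
      q = 1 + PowerSeries.C α * PowerSeries.X + PowerSeries.C b0 * PowerSeries.X ^ 2 := ⟨_, rfl⟩
  obtain ⟨A, hA⟩ : ∃ A, q * A = 1 := ⟨_, PowerSeries.mul_inv_cancel q (by simp [hq])⟩
  obtain ⟨A1, hA1⟩ : ∃ A1, q * A1 = -(PowerSeries.C α + PowerSeries.C b1 * PowerSeries.X) * A :=
    ⟨-(PowerSeries.C α + PowerSeries.C b1 * PowerSeries.X) * A * A, by
      linear_combination -(PowerSeries.C α + PowerSeries.C b1 * PowerSeries.X) * A * hA⟩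
  rw [hq] at hA hA1
  have h1 := algls_inv hu v b2 hA hA1
  have h2 := algls_inv hu w b2 hA hA1
  obtain ⟨Z, hZ⟩ : ∃ Z, Z = PowerSeries.X * A := ⟨_, rfl⟩
  obtain ⟨Z1, hZ1⟩ : ∃ Z1, Z1 = PowerSeries.X * A1 := ⟨_, rfl⟩
  have eZ : Z + PowerSeries.C α * (PowerSeries.X * Z) +
      PowerSeries.C b0 * (PowerSeries.X * (PowerSeries.X * Z)) = PowerSeries.X := by
    rw [hZ]
    linear_combination PowerSeries.X * hA
  have eZ1 : Z1 + PowerSeries.C α * (PowerSeries.X * Z1) +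
      PowerSeries.C b0 * (PowerSeries.X * (PowerSeries.X * Z1)) =
      -(PowerSeries.C α * Z + PowerSeries.C b1 * (PowerSeries.X * Z)) := by
    rw [hZ, hZ1]
    linear_combination PowerSeries.X * hA1
  have U0 : PowerSeries.coeff 0 Z = 0 := by simp [hZ]
  have T0 : PowerSeries.coeff 0 Z1 = 0 := by simp [hZ1]
  have U1 : PowerSeries.coeff 1 Z = 1 := by
    have := congrArg (PowerSeries.coeff (0 + 1)) eZ
    simp only [map_add, PowerSeries.coeff_C_mul, PowerSeries.coeff_succ_X_mul, U0,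
      PowerSeries.coeff_zero_X_mul] at this
    simpa using this
  have T1 : PowerSeries.coeff 1 Z1 = -α := by
    have := congrArg (PowerSeries.coeff (0 + 1)) eZ1
    simp only [map_add, map_neg, PowerSeries.coeff_C_mul, PowerSeries.coeff_succ_X_mul, U0, T0,
      PowerSeries.coeff_zero_X_mul] at this
    simpa [U1] using this
  have hU : ∀ k, PowerSeries.coeff (k + 2) Z + α * PowerSeries.coeff (k + 1) Z +
      b0 * PowerSeries.coeff k Z = 0 := fun k => by
    have := congrArg (PowerSeries.coeff (k + 1 + 1)) eZ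
    simp only [map_add, PowerSeries.coeff_C_mul, PowerSeries.coeff_succ_X_mul] at this
    rwa [PowerSeries.coeff_X, if_neg (by omega)] at this
  have hT := fun k => congrArg (PowerSeries.coeff (k + 1 + 1)) eZ1
  simp only [map_add, map_neg, PowerSeries.coeff_C_mul, PowerSeries.coeff_succ_X_mul] at hT
  obtain ⟨r1, r2⟩ := algls_rec (U := fun k => PowerSeries.coeff k Z)
    (T := fun k => PowerSeries.coeff k Z1) U0 U1 T0 T1 hU hT m
  have h3 : (PowerSeries.C u) ^ 2 = 0 := by rw [← map_pow, hu, map_zero]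
  have he : (PowerSeries.C u * PowerSeries.X) ^ 2 = 0 := by rw [mul_pow, h3, zero_mul]
  rw [algls_nil he, map_mul, map_ofNat] at hG
  obtain ⟨e, hee⟩ : ∃ e, e = PowerSeries.C u * PowerSeries.X := ⟨_, rfl⟩
  rw [mul_assoc 4, ← hee] at hG
  rw [← hee] at h1 h2 he
  have h4 : G = alglsE v A * alglsE w A + e * ((2 * m + 2) * alglsE v A * alglsE w A +
      alglsE v A1 * alglsE w A + alglsE v A * alglsE w A1) := by
    have h5 : G = (1 + 4 * e) * (1 - 4 * e) * (om0 α b0 b1 b2 u v * (alglsE v A + e * alglsE v A1)) *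
        (om0 α b0 b1 b2 u w * (alglsE w A + e * alglsE w A1)) * G := by
      rw [h1, h2]
      linear_combination 16 * G * he
    push_cast at hG
    linear_combination h5 + (1 - 4 * e) * (alglsE v A + e * alglsE v A1) *
      (alglsE w A + e * alglsE w A1) * hG + (alglsE v A1 * alglsE w A1 +
        ((2 * m + 2) - 4 * (2 * m + 6) * e) * (alglsE v A1 * alglsE w A + alglsE v A * alglsE w A1 +
          e * alglsE v A1 * alglsE w A1) - 4 * (2 * m + 6) * alglsE v A * alglsE w A) * he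
  have h6 : PowerSeries.X ^ 4 * (PowerSeries.C (v * ((u - v) * (u - w) * (v - w))) * G) =
      alglsE v (PowerSeries.X ^ 2 * Z) * alglsE w Z -
        alglsE v (PowerSeries.X * Z) * alglsE w (PowerSeries.X * Z) +
      PowerSeries.C u * (PowerSeries.X * (alglsE v Z * alglsE w (PowerSeries.X * Z) -
        alglsE v (PowerSeries.X ^ 2 * Z) * alglsE w A +
        alglsE v (PowerSeries.C (2 * m + 2 : ℂ) * (PowerSeries.X ^ 2 * Z)) * alglsE w Z -
        alglsE v (PowerSeries.C (2 * m + 2 : ℂ) * (PowerSeries.X * Z)) * alglsE w (PowerSeries.X * Z) +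
        alglsE v (PowerSeries.X ^ 2 * Z1) * alglsE w Z -
        alglsE v (PowerSeries.X * Z1) * alglsE w (PowerSeries.X * Z) +
        alglsE v (PowerSeries.X ^ 2 * Z) * alglsE w Z1 -
        alglsE v (PowerSeries.X * Z) * alglsE w (PowerSeries.X * Z1))) := by
    simp only [h4, hZ, hZ1, hee, map_mul, map_sub, map_add, map_pow, alglsE_X, map_natCast,
      map_ofNat]
    linear_combination PowerSeries.X ^ 4 * PowerSeries.C v * (PowerSeries.C v - PowerSeries.C w) *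
      (alglsE v A * alglsE w A + (PowerSeries.C u - PowerSeries.C v - PowerSeries.C w) *
        PowerSeries.X * ((2 * m + 2) * alglsE v A * alglsE w A +
          alglsE v A1 * alglsE w A + alglsE v A * alglsE w A1)) * h3
  have h7 := congrArg (PowerSeries.coeff (2 * (m + 2) + 1)) h6
  have h8 : PowerSeries.coeff (m + 2) A = PowerSeries.coeff (m + 3) Z := by
    rw [hZ, PowerSeries.coeff_succ_X_mul]
  rw [map_add, map_sub, algls_over hv hw, algls_over hv hw, PowerSeries.coeff_C_mul,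
    PowerSeries.coeff_succ_X_mul, show 2 * (m + 2) + 1 = 2 * m + 1 + 4 by ring,
    PowerSeries.coeff_X_pow_mul, PowerSeries.coeff_C_mul] at h7
  simp only [map_add (PowerSeries.coeff _), map_sub (PowerSeries.coeff _), algls_top hv hw,
    PowerSeries.coeff_C_mul, PowerSeries.coeff_X_pow_mul, PowerSeries.coeff_succ_X_mul, h8,
    ← add_smul, ← sub_smul] at h7
  rw [← mul_assoc, h7, sub_zero, zero_add, mul_smul_comm, ← mul_assoc]
  congr 1
  linear_combination (2 * m + 2 + α) * r1 + r2 + PowerSeries.coeff (m + 1) Z * hU m -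
    PowerSeries.coeff m Z * hU (m + 1)

/-- `P` is the reflection of the polynomial `p` of degree at most `d` -/
def alglsR (d : ℕ) (p : R'[X]) (P : PowerSeries R') : Prop :=
  p.natDegree ≤ d ∧ (reflect d p : PowerSeries R') = P

theorem alglsR.mul {d d' : ℕ} {p p' : R'[X]} {P P' : PowerSeries R'} (h : alglsR d p P)
    (h' : alglsR d' p' P') : alglsR (d + d') (p * p') (P * P') :=
  ⟨natDegree_mul_le_of_le h.1 h'.1, by rw [reflect_mul _ _ h.1 h'.1, coe_mul, h.2, h'.2]⟩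

theorem alglsR.pow {p : R'[X]} {P : PowerSeries R'} (h : alglsR 1 p P) (k : ℕ) :
    alglsR k (p ^ k) (P ^ k) := by
  induction k with
  | zero => exact ⟨by simp, by simp⟩
  | succ k ih =>
    rw [pow_succ, pow_succ]
    exact ih.mul h

theorem alglsR_one (a : R') : alglsR 1 (X + C a) (1 + PowerSeries.C a * PowerSeries.X) :=
  ⟨by compute_degree, by simp [reflect_C]⟩

theorem alglsR_two (a b : R') : alglsR 2 (X ^ 2 + C a * X + C b)
    (1 + PowerSeries.C a * PowerSeries.X + PowerSeries.C b * PowerSeries.X ^ 2) := by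
  refine ⟨by compute_degree, ?_⟩
  have h : reflect 2 (X : R'[X]) = X := by simpa using reflect_monomial 2 1 (R := R')
  simp [reflect_C, reflect_monomial, h]

theorem algls_poly {u a b a' b' : R'} {m : ℕ} {G : PowerSeries R'}
    (dvd : X ^ 2 * (X ^ 2 + C (4 * u)) * (X ^ 4 + C a * X ^ 2 + C b) *
      (X ^ 4 + C a' * X ^ 2 + C b') ∣ (X ^ 2 + C u) ^ (2 * m + 6))
    (hG : (1 + PowerSeries.C (4 * u) * PowerSeries.X) *
      (1 + PowerSeries.C a * PowerSeries.X + PowerSeries.C b * PowerSeries.X ^ 2) *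
      (1 + PowerSeries.C a' * PowerSeries.X + PowerSeries.C b' * PowerSeries.X ^ 2) * G =
        (1 + PowerSeries.C u * PowerSeries.X) ^ (2 * m + 6)) :
    PowerSeries.coeff (2 * m + 1) G = 0 := by
  nontriviality R'
  obtain ⟨H, hH⟩ := dvd
  obtain ⟨p, hp⟩ : ∃ p : R'[X], p = (X + C 0) * (X + C (4 * u)) * (X ^ 2 + C a * X + C b) *
    (X ^ 2 + C a' * X + C b') := ⟨_, rfl⟩
  have h1 : expand R' 2 ((X + C u) ^ (2 * m + 6)) = H * expand R' 2 p := by
    simp only [hp, map_mul, map_add, map_pow, expand_X, expand_C, map_zero, add_zero,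
      ← pow_mul] at hH ⊢
    rw [hH, mul_comm]
  have h2 := congrArg (contract 2) h1
  rw [contract_expand 2 two_ne_zero, contract_mul_expand two_ne_zero] at h2
  have hR := (((alglsR_one (0 : R')).mul (alglsR_one (4 * u))).mul (alglsR_two a b)).mul
    (alglsR_two a' b')
  rw [← hp, map_zero, zero_mul, add_zero, one_mul] at hR
  have hm : p.Monic ∧ p.natDegree = 6 := by
    have m1 : (X ^ 2 + C a * X + C b).Monic := by monicity!
    have m2 : (X ^ 2 + C a' * X + C b').Monic := by monicity!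
    have m3 := (monic_X_add_C (0 : R')).mul (monic_X_add_C (4 * u))
    have d1 : (X ^ 2 + C a * X + C b).natDegree = 2 := by compute_degree!
    have d2 : (X ^ 2 + C a' * X + C b').natDegree = 2 := by compute_degree!
    refine ⟨hp ▸ (m3.mul m1).mul m2, ?_⟩
    rw [hp, (m3.mul m1).natDegree_mul m2, m3.natDegree_mul m1,
      (monic_X_add_C _).natDegree_mul (monic_X_add_C _), natDegree_X_add_C, natDegree_X_add_C,
      d1, d2]
  have hN := (alglsR_one u).pow (2 * m + 6)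
  have hd : (contract 2 H).natDegree ≤ 2 * m := by
    by_cases h0 : contract 2 H = 0
    · rw [h0, natDegree_zero]
      exact Nat.zero_le _
    · have h3 := hN.1
      rw [h2, mul_comm (contract 2 H), hm.1.natDegree_mul' h0, hm.2] at h3
      omega
  have h3 := (alglsR.mul ⟨hd, rfl⟩ hR).2
  rw [← h2, hN.2, ← hG, mul_comm] at h3
  have hu : IsUnit ((1 + PowerSeries.C (4 * u) * PowerSeries.X) *
      (1 + PowerSeries.C a * PowerSeries.X + PowerSeries.C b * PowerSeries.X ^ 2) *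
      (1 + PowerSeries.C a' * PowerSeries.X + PowerSeries.C b' * PowerSeries.X ^ 2)) :=
    PowerSeries.isUnit_iff_constantCoeff.2 (by simp)
  rw [hu.mul_right_cancel h3, coeff_coe, coeff_reflect, revAt_eq_self_of_lt (by omega)]
  exact coeff_eq_zero_of_natDegree_lt (by omega)

theorem alg_ser (φ : R →+* R') (u v w : R) (m : ℕ) (α b0 b1 b2 : ℂ)
    (dvd : (X ^ 2 * (X ^ 2 + C (4 * u)) * om α b0 b1 b2 u v * om α b0 b1 b2 u w).map φ ∣
      ((X ^ 2 + C u) ^ (2 * m + 6)).map φ) :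
    ∃ G : PowerSeries R,
      (1 + PowerSeries.C (4 * u) * PowerSeries.X) * om0 α b0 b1 b2 u v * om0 α b0 b1 b2 u w * G =
        (1 + PowerSeries.C u * PowerSeries.X) ^ (2 * m + 6) ∧
      φ (PowerSeries.coeff (2 * m + 1) G) = 0 := by
  have hu : IsUnit ((1 + PowerSeries.C (4 * u) * PowerSeries.X) * om0 α b0 b1 b2 u v *
      om0 α b0 b1 b2 u w) := PowerSeries.isUnit_iff_constantCoeff.2 (by simp [om0])
  obtain ⟨G, hG⟩ := hu.dvd (a := (1 + PowerSeries.C u * PowerSeries.X) ^ (2 * m + 6))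
  refine ⟨G, hG.symm, ?_⟩
  have h1 := congrArg (PowerSeries.map φ) hG.symm
  simp only [om0, map_mul (PowerSeries.map φ), map_add (PowerSeries.map φ),
    map_pow (PowerSeries.map φ), map_one, PowerSeries.map_C, PowerSeries.map_X, map_mul φ 4,
    map_ofNat] at h1
  simp only [om, Polynomial.map_mul, Polynomial.map_add, Polynomial.map_pow, map_C, map_X,
    map_mul φ 4, map_ofNat] at dvd
  rw [← PowerSeries.coeff_map]
  exact algls_poly dvd h1

theorem alg_LS (φ : R →+* R') {u v w : R} {n : ℕ} (hn : 2 ≤ n) (hu : u ^ (n + 1) = 0)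
    (hv : v ^ (n + 1) = 0) (hw : w ^ (n + 1) = 0) (ne : u ^ n * v ^ n * w ^ n ≠ 0)
    {α b0 b1 b2 : ℂ} (hb : n = 2 ∨ b0 ≠ 0)
    (ls : ∀ y, φ y = 0 → (u - v) * (u - w) * (v - w) * y = 0)
    (dvd : (X ^ 2 * (X ^ 2 + C (4 * u)) * om α b0 b1 b2 u v * om α b0 b1 b2 u w).map φ ∣
      ((X ^ 2 + C u) ^ (2 * n + 2)).map φ) : α = 2 := by
  obtain ⟨m, rfl⟩ : ∃ m, n = m + 2 := ⟨n - 2, by omega⟩
  obtain ⟨G, hG, h0⟩ := alg_ser φ u v w m α b0 b1 b2 dvd
  let I : Ideal R := Ideal.torsionOf R R (u ^ (m + 1))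
  let π : R →ₐ[ℂ] R ⧸ I := Ideal.Quotient.mkₐ ℂ I
  have hπ : ∀ x, π x = 0 ↔ x * u ^ (m + 1) = 0 := fun x =>
    Ideal.Quotient.eq_zero_iff_mem.trans (Ideal.mem_torsionOf_iff _ _)
  have h1 := congrArg (PowerSeries.map (π : R →+* R ⧸ I)) hG
  simp only [om0, map_mul (PowerSeries.map _), map_add (PowerSeries.map _),
    map_pow (PowerSeries.map _), map_one, PowerSeries.map_C, PowerSeries.map_X, RingHom.coe_coe,
    map_mul π, map_add π, map_smul π, map_pow π, map_ofNat] at h1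
  have h2 := alg_core (u := π u) (v := π v) (w := π w) (m := m)
    (by rw [← map_pow, hπ, ← pow_add, ← hu]; congr 1; ring) (by rw [← map_pow, hv, map_zero])
    (by rw [← map_pow, hw, map_zero]) α b0 b1 b2 h1
  have h3 := congrArg π (ls _ h0)
  simp only [map_mul, map_sub, map_zero] at h3
  rw [PowerSeries.coeff_map, RingHom.coe_coe, h3, mul_zero, ← map_pow, ← map_pow, ← map_mul,
    ← map_mul, ← map_smul, eq_comm, hπ, smul_mul_assoc, smul_eq_zero] at h2
  rcases h2 with h2 | h2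
  · have h4 : b0 ^ m ≠ 0 := by
      rcases hb with hb | hb
      · rw [show m = 0 by omega, pow_zero]
        exact one_ne_zero
      · exact pow_ne_zero _ hb
    exact sub_eq_zero.1 ((mul_eq_zero.1 h2).resolve_left (mul_ne_zero h4 (Nat.cast_add_one_ne_zero m)))
  · exact absurd (by rw [← h2]; ring) ne

end Pool.Agent.Work.MP_8c604c_gt.T
end
end

-- merged part: Pool.Agent.Work.MP_8c604c_gt.T.LSa
section
/-!
The Chern polynomial of the bundle `WF` over the cut locus `F`.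

PLAN.
* `ls_mul`: on `A ∪ B` lift the restriction of `a` to supports `Aᶜ` and that of `b` to supports `Bᶜ`
  (`exact_supp_res`), the cup product of the lifts lies in `H (A ∪ B) ∅`, which is trivial (`subsingleton_H`);
  `res_cup_out`, `cup_res_left`, `cup_res_right`, `pull_mul`.
* `MM_deg`: `MM_basis`, apply `prj`.
* `res_F_surj`, `res_F_inj`: `res_Od_surj`, `res_Od_eq_zero`, `res_F_bij`, `pull_pull'`; a multiple of `hh` has no
  component of degree `p < 4 n` (`cup_prj_left`, `IsDeg.eq_zero_of_neg`).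
* `sq_eu`: `sp (cx WF) F` is the union of `{cre v ≠ 0}` and `{cim v ≠ 0}`.  On the first set the maps `z.1.1` and
  `z.1.2` to `MH n` are homotopic through `gc (z.1.1, cre z.2) (cs (t π / 2))` (`cxm_fix`, `WF_eq`, `Ws_tan`, `gc_spec`,
  `en_gc`, `cont_gc`, `pull_htpy'`), so `uu - vv` dies there.  `ls_mul`, then `CB.sp_eq_zero'`.
* `cp_swap`: `cp_cx_map` for `VV → WF` over `id` (`WithLp.fstL`, `Vs_fst`) and over `Prod.swap` (`Vs_snd`).
* `cp_W`: the coefficients `4, 3, 2, 1, 0` have degrees `0, 2, 4, 6, 8` and come from `MM n`; `cp_swap` gives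
  `α u + β v = α v + β u` on `F`, so this class is `((α + β) / 2) (u + v)`.  For `n ≥ 3`: `sq_eu`, `c` is a constant,
  `res_F_inj` in degree `8`, multiply by `u ^ n v ^ (n - 2)` and use `uv_pow_ne`: `c b0 = 1`.
-/

noncomputable section

set_option linter.unusedSectionVars false

namespace Pool.Agent.Work.MP_8c604c_gt.T

open Set Topology Matrix Polynomial Pool.Agent.Work.MP_849ab0_ag.G

variable {n k : ℕ}

/-- the cup length principle -/
theorem ls_mul {T : Type} [TopologicalSpace T] {U A B : Set T} (hA : A ⊆ U) (hB : B ⊆ U)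
    {a b : H U univ} (ha : pull id A univ a = 0) (hb : pull id B univ b = 0) :
    pull id (A ∪ B) univ (a * b) = 0 := by
  have s : A ∪ B ⊆ U := union_subset hA hB
  have key : ∀ {C : Set T} {c : H U univ}, C ⊆ A ∪ B → pull id C univ c = 0 →
      ∃ x : H (A ∪ B) Cᶜ, pull id (A ∪ B) univ x = pull id (A ∪ B) univ c := fun {C c} h e =>
    (exact_supp_res (U := A ∪ B) (Z := univ) (Z₁ := Cᶜ) (U₂ := C) (Z₂ := univ)
      (by rw [sdiff_compl]; exact inter_eq_right.2 h) (by simp) _).1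
      (by rw [res_pull (ok_fgt s) h fun _ _ h => h, e])
  obtain ⟨x, hx⟩ := key subset_union_left ha
  obtain ⟨y, hy⟩ := key subset_union_right hb
  rw [pull_mul (ok_fgt s), ← hx, ← hy, mulH, cup_res_left (ok_fgt subset_rfl) (cupU _ _),
    cup_res_right (U := A ∪ B) (Z := univ) (U₁ := A ∪ B) (ok_fgt subset_rfl)
      (cupOK fun _ _ _ _ => trivial), ← res_cup_out (U := A ∪ B) (Z := ∅) (ok_fgt subset_rfl)
      (cupOK fun _ h h1 h2 => h.elim h1 h2),
    (subsingleton_H (disjoint_empty _)).elim (cup _ _ x y) 0, map_zero]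

theorem lsa_cov {T : Type} [TopologicalSpace T] {U A B : Set T} (h : A ∪ B = U)
    {a b : H U univ} (ha : pull id A univ a = 0) (hb : pull id B univ b = 0) : a * b = 0 := by
  subst h
  rw [← ls_mul subset_union_left subset_union_right ha hb, pull_id]

theorem MM_deg {j : ℕ} {a : H (MM n) univ} (ha : IsDeg (4 * j) a) :
    ∃ c : ℕ → ℂ, a = ∑ i ∈ Finset.range (j + 1), c i • (uu n ^ i * vv n ^ (j - i)) := by
  obtain ⟨c, h, rfl⟩ := ThMa_exp ha
  refine Finset.sum_induction _ (fun a => ∃ c : ℕ → ℂ, a = ∑ i ∈ Finset.range (j + 1),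
    c i • (uu n ^ i * vv n ^ (j - i))) ?_ ⟨0, by simp⟩ fun i _ => ?_
  · rintro _ _ ⟨c, rfl⟩ ⟨d, rfl⟩
    exact ⟨c + d, by simp only [Pi.add_apply, add_smul, Finset.sum_add_distrib]⟩
  · by_cases e : (i.1 : ℕ) + (i.2 : ℕ) = j
    · refine ⟨Pi.single (i.1 : ℕ) (c i), ?_⟩
      rw [Finset.sum_eq_single (i.1 : ℕ) (fun k _ hk => by rw [Pi.single_eq_of_ne hk, zero_smul])
        (fun hk => absurd (Finset.mem_range.2 (by omega)) hk), Pi.single_eq_same,
        show j - (i.1 : ℕ) = (i.2 : ℕ) by omega]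
    · exact ⟨0, by rw [h i (by omega)]; simp⟩

/-- `uu` as an even class -/
def uuE (n : ℕ) : EvR (MM n) := ⟨uu n, IsDeg.evn isDeg_uu ⟨2, rfl⟩⟩

/-- `vv` as an even class -/
def vvE (n : ℕ) : EvR (MM n) := ⟨vv n, IsDeg.evn isDeg_vv ⟨2, rfl⟩⟩

namespace TD0

variable (D : TD0 n k)

theorem F_MM : D.F ⊆ MM n := fun _ h => (D.F_sub h).1

theorem ok_F : Ok id D.F univ (MM n) univ := ok_fgt D.F_MM

theorem ok_swap : Ok Prod.swap D.F univ D.F univ :=
  .of_mem (.of_continuous continuous_swap _) (fun _ h => D.swap_F h) fun _ _ _ => trivial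

theorem res_F_surj {p : ℤ} {a : H D.F univ} (ha : IsDeg p a) :
    ∃ b : H (MM n) univ, IsDeg p b ∧ a = pull id D.F univ b := by
  obtain ⟨x, rfl⟩ := D.res_F_bij.2 a
  obtain ⟨b, rfl⟩ := res_Od_surj x
  refine ⟨_, isDeg_prj p b, ?_⟩
  rw [res_pull (ok_fgt Od_sub) D.F_sub fun _ _ h => h] at ha ⊢
  rw [pull_prj, isDeg_iff.1 ha]

theorem res_F_inj {p : ℤ} {b : H (MM n) univ} (hb : IsDeg p b) (hp : p < 4 * n)
    (e : pull id D.F univ b = 0) : b = 0 := by
  rw [← res_pull (ok_fgt Od_sub) D.F_sub (fun _ _ h => h) b, map_eq_zero_iff _ D.res_F_bij.1] at e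
  obtain ⟨c, rfl⟩ := res_Od_eq_zero.1 e
  rw [← isDeg_iff.1 hb, mulH, ← cup_prj_left (s := {p - 4 * n}) (fun q => by
    simp [eq_sub_iff_add_eq]) _ isDeg_hh, (isDeg_prj _ _).eq_zero_of_neg (by omega), map_zero,
    LinearMap.zero_apply]

/-- a nonzero vector of `Ws` gives a geodesic between the two points -/
theorem lsa_htpy {T : Type} [TopologicalSpace T] [RegularSpace T] [SecondCountableTopology T]
    {A : Set T} (hA : IsLocallyClosed A) {f : T → AM n × AM n} {φ : T → AM n} (hf : Continuous f)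
    (hφ : Continuous φ) (m : ∀ z ∈ A, f z ∈ D.F ∧ φ z ∈ D.Ws (f z) ∧ φ z ≠ 0) :
    pull f A univ (uu n - vv n) = 0 := by
  have o : Ok f A univ (MM n) univ :=
    .of_mem (.of_continuous hf _) (fun z h => D.F_MM (m z h).1) fun _ _ _ => trivial
  have t : ∀ z ∈ A, ((f z).1, φ z) ∈ Tt n := fun z h => D.Ws_tan (m z h).1 (m z h).2.1
  have c : ContinuousOn (fun w : T × ℝ => D.gc ((f w.1).1, φ w.1)) (A ×ˢ Icc 0 1) :=
    D.cont_gc.comp (by fun_prop) fun w h => ⟨t _ h.1, (m _ h.1).2.2⟩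
  rw [map_sub, uu, vv, pull_pull' o ok_MM1 fun _ _ => rfl, pull_pull' o ok_MM2 fun _ _ => rfl,
    pull_htpy' (F := fun w : T × ℝ => D.gc ((f w.1).1, φ w.1) (cs (w.2 * (Real.pi / 2))))
      (Z := univ) (f := fun z => (f z).1) (g := fun z => (f z).2)
      (ext_htpy hA (c.eval (continuous_cs.comp (by fun_prop)).continuousOn))
      (fun z h _ _ => D.mem _ (D.gc_spec (t z h) (m z h).2.2).1 _) (fun _ _ _ _ _ => trivial)
      (fun z h => by simpa only [zero_mul, cs_zero] using (D.gc_spec (t z h) (m z h).2.2).2.1)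
      fun z h => by
        rw [one_mul]
        exact congrArg Prod.snd (D.en_gc (m z h).1 (m z h).2.1 (m z h).2.2)]
  exact sub_self _

theorem sq_eu (D : TD0 n 3) : ∃ c : H D.F univ, IsDeg 0 c ∧
    pull id D.F univ ((uu n - vv n) * (uu n - vv n)) = c * eu (cx D.WF) 4 D.F := by
  have cb := D.rb_WF.cb_cx
  have o : Ok Prod.fst (sp (cx D.WF) D.F) univ (MM n) univ :=
    .of_mem (.of_continuous continuous_fst _) (fun _ h => D.F_MM h.1.1) fun _ _ _ => trivial
  have key : ∀ {φ : (Fin (Module.finrank ℝ (AM n)) → ℂ) → AM n}, Continuous φ →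
      (∀ z ∈ sp (cx D.WF) D.F, D.WF z.1 (φ z.2) = φ z.2) →
      pull id (sp (cx D.WF) D.F ∩ {z | φ z.2 ≠ 0}) univ
        (pull Prod.fst (sp (cx D.WF) D.F) univ (uu n - vv n)) = 0 := fun {φ} hφ m => by
    rw [res_pull o inter_subset_left fun _ _ h => h]
    exact D.lsa_htpy (cb.lc_sp.inter
      (isOpen_ne_fun (hφ.comp continuous_snd) continuous_const).isLocallyClosed) continuous_fst
      (hφ.comp continuous_snd) fun z hz => ⟨hz.1.1.1, D.WF_eq.1 (m z hz.1), hz.2⟩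
  have d : IsDeg 8 (pull id D.F univ ((uu n - vv n) * (uu n - vv n))) :=
    (IsDeg.mulH (isDeg_uu.sub isDeg_vv) (isDeg_uu.sub isDeg_vv)).pull _ _ _
  refine cb.sp_eq_zero' d ?_
  rw [pull_res (ok_sp _ _) D.F_MM fun _ _ h => h, pull_mul o]
  refine lsa_cov ?_ (key continuous_cre fun z hz => (cxm_fix.1 hz.1.2).1)
    (key continuous_cim fun z hz => (cxm_fix.1 hz.1.2).2)
  rw [← inter_union_distrib_left, inter_eq_left]
  exact fun z hz => not_and_or.1 (mt cre_eq_zero.2 hz.2)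

theorem cp_swap : (cp (cx D.WF) (k + 1) D.F).map (pR D.ok_swap) = cp (cx D.WF) (k + 1) D.F := by
  have b1 : BMap D.VV D.F D.WF D.F id fun _ => WithLp.fstL 2 ℝ (AM n) (AM n) :=
    ⟨continuousOn_id, mapsTo_id _, continuousOn_const,
      fun y hy a h => D.WF_eq.2 (D.Vs_fst hy (D.VV_eq.1 h)).1,
      fun y hy a h => (D.Vs_fst hy (D.VV_eq.1 h)).2⟩
  have b2 : BMap D.VV D.F D.WF D.F Prod.swap fun _ => WithLp.sndL 2 ℝ (AM n) (AM n) :=
    ⟨continuous_swap.continuousOn, fun _ h => D.swap_F h, continuousOn_const,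
      fun y hy a h => D.WF_eq.2 (D.Vs_snd hy (D.VV_eq.1 h)).1,
      fun y hy a h => (D.Vs_snd hy (D.VV_eq.1 h)).2⟩
  rw [cp_cx_map D.rb_WF D.rb_VV b2 D.ok_swap, ← cp_cx_map D.rb_WF D.rb_VV b1 .refl, pR_id,
    Polynomial.map_id]

theorem lsa_deg {j : ℕ} {a : EvR D.F} (ha : IsDeg (4 * j) (a : H D.F univ)) : ∃ c : ℕ → ℂ,
    a = pR D.ok_F (∑ i ∈ Finset.range (j + 1), c i • (uuE n ^ i * vvE n ^ (j - i))) := by
  obtain ⟨b, hb, e⟩ := D.res_F_surj ha
  obtain ⟨c, rfl⟩ := MM_deg hb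
  refine ⟨c, Subtype.ext (e.trans ?_)⟩
  rw [pR_val, AddSubmonoidClass.coe_finsetSum]
  rfl

theorem lsa_su : pR D.ok_swap (pR D.ok_F (uuE n)) = pR D.ok_F (vvE n) := Subtype.ext (by
  change pull _ _ _ (pull _ _ _ (uu n)) = pull _ _ _ (vv n)
  rw [uu, vv, res_pull ok_MM1 D.F_MM fun _ _ h => h, res_pull ok_MM2 D.F_MM fun _ _ h => h]
  exact pull_pull' D.ok_swap (ok_MM1.comp D.ok_F) (fun _ _ => rfl) _)

theorem lsa_sv : pR D.ok_swap (pR D.ok_F (vvE n)) = pR D.ok_F (uuE n) := Subtype.ext (by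
  change pull _ _ _ (pull _ _ _ (vv n)) = pull _ _ _ (uu n)
  rw [uu, vv, res_pull ok_MM1 D.F_MM fun _ _ h => h, res_pull ok_MM2 D.F_MM fun _ _ h => h]
  exact pull_pull' D.ok_swap (ok_MM2.comp D.ok_F) (fun _ _ => rfl) _)

theorem cp_W (D : TD0 n 3) (hn : 2 ≤ n) : ∃ α b0 b1 b2 : ℂ, (n = 2 ∨ b0 ≠ 0) ∧
    cp (cx D.WF) 4 D.F = (om α b0 b1 b2 (uuE n) (vvE n)).map (pR D.ok_F) := by
  have cb : CB (cx D.WF) 4 D.F := D.rb_WF.cb_cx
  have z : ∀ i, i = 1 ∨ i = 3 → (cp (cx D.WF) 4 D.F).coeff i = 0 := fun i hi => by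
    obtain ⟨b, hb, e⟩ := D.res_F_surj (cb.cp_deg i)
    exact Subtype.ext (by rw [e, MM_deg_zero hb (.inl (by omega)), map_zero]; rfl)
  obtain ⟨a, e2⟩ := D.lsa_deg (j := 1) (cb.cp_deg 2)
  obtain ⟨b, e0⟩ := D.lsa_deg (j := 2) (cb.cp_deg 0)
  simp only [Finset.sum_range_succ, Finset.range_zero, Finset.sum_empty, zero_add, pow_zero,
    pow_one, one_mul, mul_one, Nat.sub_zero, Nat.sub_self, Nat.add_one_sub_one] at e2 e0
  have sw := congrArg (coeff · 2) D.cp_swap
  simp only [coeff_map] at sw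
  have e3 : (cp (cx D.WF) 4 D.F).coeff 2 = pR D.ok_F (((a 0 + a 1) / 2) • (uuE n + vvE n)) := by
    have k : pR D.ok_swap (pR D.ok_F (a 0 • vvE n + a 1 • uuE n)) =
      pR D.ok_F (a 0 • vvE n + a 1 • uuE n) := e2 ▸ sw
    simp only [map_add, pR_smul, D.lsa_su, D.lsa_sv] at k
    rw [e2]
    simp only [map_add, pR_smul]
    linear_combination (norm := module) (-(1 / 2 : ℂ)) • k
  refine ⟨(a 0 + a 1) / 2, b 0, b 1, b 2, ?_, ?_⟩
  · refine (Nat.eq_or_lt_of_le hn).imp Eq.symm fun h3 h0 => ?_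
    obtain ⟨c, hc, e⟩ := D.sq_eu
    obtain ⟨t, rfl⟩ := deg0_const (D.isConnected_F (by omega)).isPreconnected hc
    rw [smul_mul_assoc, one_mul, ← cb.euE_val, ← cp_coeff_zero cb, e0, pR_val, ← map_smul,
      ← sub_eq_zero, ← map_sub] at e
    have d2 := ThMa_deg (n := n) 0 2
    have d1 := ThMa_deg (n := n) 1 1
    have d0 := ThMa_deg (n := n) 2 0
    simp only [pow_zero, pow_one, one_mul, mul_one] at d0 d1 d2
    have e4 := D.res_F_inj (p := 8) ((IsDeg.mulH (isDeg_uu.sub isDeg_vv)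
      (isDeg_uu.sub isDeg_vv)).sub ((((d2.smul (b 0)).add (d1.smul (b 1))).add
        (d0.smul (b 2))).smul t)) (by omega) e
    have e5 : (uuE n - vvE n) * (uuE n - vvE n) -
      t • (b 0 • vvE n ^ 2 + b 1 • (uuE n * vvE n) + b 2 • uuE n ^ 2) = 0 := Subtype.ext e4
    have e6 : uuE n ^ (n + 1) = 0 := Subtype.ext uu_pow
    obtain ⟨m, rfl⟩ : ∃ m, n = m + 2 := ⟨n - 2, by omega⟩
    refine uv_pow_ne (n := m + 2) (congrArg Subtype.val
      (show uuE (m + 2) ^ (m + 2) * vvE (m + 2) ^ (m + 2) = 0 from ?_))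
    simp only [h0, map_zero, Algebra.smul_def] at e5
    linear_combination uuE (m + 2) ^ (m + 2) * vvE (m + 2) ^ m * e5 + vvE (m + 2) ^ m *
      (algebraMap ℂ _ t * (algebraMap ℂ _ (b 1) * vvE (m + 2) + algebraMap ℂ _ (b 2) * uuE (m + 2)) +
        2 * vvE (m + 2) - uuE (m + 2)) * e6
  · rw [om, Polynomial.map_add, Polynomial.map_add, Polynomial.map_mul, Polynomial.map_pow,
      Polynomial.map_pow, map_X, map_C, map_C, ← e3, ← e0]
    conv_lhs => rw [as_sum_range_C_mul_X_pow' _ (Nat.lt_succ_of_le cb.cp_natDegree)]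
    simp only [Finset.sum_range_succ, Finset.range_zero, Finset.sum_empty, z 1 (.inl rfl),
      z 3 (.inr rfl), cp_coeff_top cb, map_zero, map_one]
    ring

end TD0

end Pool.Agent.Work.MP_8c604c_gt.T
end
end

-- merged part: Pool.Agent.Work.MP_8c604c_gt.T.LS
section
/-!
The cup length argument: the first Pontryagin class of `WF` and of `K`.
-/

noncomputable section

set_option linter.unusedSectionVars false

namespace Pool.Agent.Work.MP_8c604c_gt.T

open Set Topology Matrix Polynomial Pool.Agent.Work.MP_849ab0_ag.G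

variable {n : ℕ}

theorem om_map {T Y : Type} [TopologicalSpace T] [TopologicalSpace Y] {U : Set T} {V : Set Y}
    {f : T → Y} (h : Ok f U univ V univ) (α b0 b1 b2 : ℂ) (u v : EvR V) :
    (om α b0 b1 b2 u v).map (pR h) = om α b0 b1 b2 (pR h u) (pR h v) := by
  simp [om, pR_smul]

theorem uuE_eq : uuE n = pR ok_MM1 (uE n) := Subtype.ext (by rw [pR_val, uE_val]; rfl)

theorem vvE_eq : vvE n = pR ok_MM2 (uE n) := Subtype.ext (by rw [pR_val, uE_val]; rfl)

theorem uE_pow : uE n ^ (n + 1) = 0 :=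
  Subtype.ext (by rw [SubmonoidClass.coe_pow, uE_val, uH_pow]; rfl)

theorem ls_top : pull Prod.fst (MM n ×ˢ MH n) univ (uu n ^ n * vv n ^ n) *
    pull Prod.snd (MM n ×ˢ MH n) univ (uH n ^ n) ≠ 0 := fun e => by
  have := (lh_prod' isCompact_MH (k := fun i : Fin (n + 1) => (i : ℕ) * 4)
    (fun i => IsDeg.powH isDeg_uH i) uH_basis (MM n)).1
    (a₁ := Pi.single (Fin.last n) (uu n ^ n * vv n ^ n)) (a₂ := 0) (by
      simp only [Pi.zero_apply, map_zero, zero_mul, Finset.sum_const_zero]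
      rw [Finset.sum_eq_single (Fin.last n) (fun j _ k => by simp [k]) (by simp), Pi.single_eq_same]
      exact e)
  exact uv_pow_ne (by simpa using congrFun this (Fin.last n))

theorem ls_okc {T Y : Type} [TopologicalSpace T] [TopologicalSpace Y] {U : Set T} {V : Set Y}
    {f : T → Y} (h : Continuous f) (m : MapsTo f U V) : Ok f U univ V univ :=
  .of_mem (.of_continuous h _) m fun _ _ _ => trivial

theorem cp_cx_pull {T Y A : Type} [TopologicalSpace T] [TopologicalSpace Y] [RegularSpace T]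
    [SecondCountableTopology T] [RegularSpace Y] [SecondCountableTopology Y] [NormedAddCommGroup A]
    [NormedSpace ℝ A] [FiniteDimensional ℝ A] {U : Set T} {V : Set Y} {f : T → Y}
    {W : Y → A →L[ℝ] A} {r : ℕ} (h : RB W r V) (hU : IsLocallyClosed U) (ok : Ok f U univ V univ) :
    (cp (cx W) r V).map (pR ok) = cp (cx fun x => W (f x)) r U := cp_pull h.cb_cx hU ok

namespace TD0

/-- triples with two different cut points -/
def A0 (D : TD0 n 3) : Set ((AM n × AM n) × AM n) :=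
  {y | y.1 ∈ D.F ∧ (y.1.1, y.2) ∈ D.F ∧ y.1.2 ≠ y.2}

variable (D : TD0 n 3)

theorem A0_sub : D.A0 ⊆ MM n ×ˢ MH n := fun _ h => ⟨D.F_MM h.1, (D.F_MM h.2.1).2⟩

theorem lc_A0 : IsLocallyClosed D.A0 :=
  (D.isCompact_F.isClosed.preimage continuous_fst).isLocallyClosed.inter
    ((D.isCompact_F.isClosed.preimage (f := fun y : (AM n × AM n) × AM n => (y.1.1, y.2))
      (by fun_prop)).isLocallyClosed.inter (isOpen_ne_fun (by fun_prop) (by fun_prop)).isLocallyClosed)

theorem ls_nb {T : Type} [TopologicalSpace T] {A U : Set T} (hA : A ⊆ U) {f : T → AM n × AM n}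
    (hf : Continuous f) (m : MapsTo f A D.Nb) {a b : T → AM n} (ha : Ok a U univ (MH n) univ)
    (hb : Ok b U univ (MH n) univ) (ea : ∀ x, (f x).1 = a x) (eb : ∀ x, (f x).2 = b x) :
    pull id A univ ((pR ha (uE n) - pR hb (uE n) : EvR U) : H U univ) = 0 := by
  have o := ls_okc hf m
  have o1 : Ok Prod.fst D.Nb univ (MH n) univ := ls_okc continuous_fst fun _ h => h.1.1
  have o2 : Ok Prod.snd D.Nb univ (MH n) univ := ls_okc continuous_snd fun _ h => h.1.2
  rw [AddSubgroupClass.coe_sub, map_sub, pR_val, pR_val, res_pull (W₁ := univ) ha hA fun _ _ _ => trivial,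
    res_pull (W₁ := univ) hb hA fun _ _ _ => trivial, ← pull_pull' o o1 fun x _ => ea x,
    ← pull_pull' o o2 fun x _ => eb x, D.Nb_fst_snd, sub_self]

theorem ls_dvd (hn : 2 ≤ n) :
    cp (cx fun y : (AM n × AM n) × AM n => D.WF y.1) 4 D.A0 *
      cp (cx fun y : (AM n × AM n) × AM n => D.WF (y.1.1, y.2)) 4 D.A0 ∣
      cp (cx fun y : (AM n × AM n) × AM n => tanP y.1.1) (4 * n) D.A0 := by
  obtain ⟨m, rfl⟩ := Nat.exists_eq_add_of_le' hn
  have e : 4 * (m + 2) = 4 + 4 + 4 * m := by ring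
  have t : ∀ y ∈ D.F, ∀ a, D.WF y a = a → tanP y.1 a = a := fun y hy a k =>
    (tanP_eq_iff (D.F_MM hy).1).2 (D.Ws_tan hy (D.WF_eq.1 k))
  have h := rb_tanP.comp D.lc_A0 (f := fun y => y.1.1) (by fun_prop) fun _ h => (D.F_MM h.1).1
  rw [e] at h ⊢
  refine cp_cx_dvd (B₁ := fun _ => 1) (B₂ := fun _ => 1) h
    (D.rb_WF.comp D.lc_A0 continuousOn_fst fun _ h => h.1)
    (D.rb_WF.comp D.lc_A0 (by fun_prop) fun _ h => h.2.1)
    ⟨continuousOn_id, mapsTo_id _, continuousOn_const, fun y hy a k => t _ hy.1 a k, fun _ _ _ _ k => k⟩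
    ⟨continuousOn_id, mapsTo_id _, continuousOn_const, fun y hy a k => t _ hy.2.1 a k,
      fun _ _ _ _ k => k⟩ fun y hy a b ka kb k => ?_
  have k' : a = -b := eq_neg_of_add_eq_zero_left k
  have a0 : a = 0 := D.Ws_disj hy.1 hy.2.1 rfl hy.2.2 (D.WF_eq.1 ka)
    (k' ▸ neg_mem (D.WF_eq.1 kb))
  exact ⟨a0, neg_eq_zero.1 (k' ▸ a0)⟩

theorem cp_W_two (hn : 2 ≤ n) :
    (cp (cx D.WF) 4 D.F).coeff 2 = pR D.ok_F ((2 : ℂ) • (uuE n + vvE n)) := by
  obtain ⟨α, b0, b1, b2, hb, e⟩ := D.cp_W hn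
  suffices α = 2 by
    rw [e, coeff_map, this]
    simp only [om, coeff_add, coeff_C_mul, coeff_X_pow, coeff_C]
    simp
  have o1 : Ok (fun y => y.1.1) (MM n ×ˢ MH n) univ (MH n) univ :=
    ls_okc (by fun_prop) fun _ h => h.1.1
  have o2 : Ok (fun y => y.1.2) (MM n ×ˢ MH n) univ (MH n) univ :=
    ls_okc (by fun_prop) fun _ h => h.1.2
  have o3 : Ok Prod.snd (MM n ×ˢ MH n) univ (MH n) univ := ok_snd' _ _
  have z : ∀ {f} (o : Ok f (MM n ×ˢ MH n) univ (MH n) univ), pR o (uE n) ^ (n + 1) = 0 := fun o => by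
    rw [← map_pow, uE_pow, map_zero]
  refine alg_LS (b1 := b1) (b2 := b2) (pR (ok_fgt D.A0_sub)) hn (z o1) (z o2) (z o3)
    (fun k => ls_top (n := n) ?_) hb
    (fun y hy => Subtype.ext ?_) ?_
  · have := congrArg Subtype.val k
    rw [← pR_pR (ok_fst' _ _) ok_MM1 o1 fun _ _ => rfl, ← pR_pR (ok_fst' _ _) ok_MM2 o2 fun _ _ => rfl,
      ← uuE_eq, ← vvE_eq, ← map_pow, ← map_pow, ← map_pow, ← map_mul, MulMemClass.coe_mul, pR_val,
      pR_val, SubmonoidClass.coe_pow, uE_val] at this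
    exact this
  · have s : ∀ {A : Set _}, MM n ×ˢ MH n ∩ A ⊆ MM n ×ˢ MH n := fun {_} _ h => h.1
    have h1 := D.ls_nb (A := MM n ×ˢ MH n ∩ {y | y.1 ∉ D.F}) s continuous_fst
      (fun _ h => ⟨h.1.1, h.2⟩) o1 o2 (fun _ => rfl) fun _ => rfl
    have h2 := D.ls_nb (A := MM n ×ˢ MH n ∩ {y | (y.1.1, y.2) ∉ D.F}) s
      (f := fun y => (y.1.1, y.2)) (by fun_prop) (fun _ h => ⟨⟨h.1.1.1, h.1.2⟩, h.2⟩) o1 o3
      (fun _ => rfl) fun _ => rfl
    have h3 := D.ls_nb (A := MM n ×ˢ MH n ∩ {y | y.1.2 = y.2}) s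
      (f := fun y => (y.1.2, y.2)) (by fun_prop)
      (fun _ h => D.Dg_sub ⟨h.1.1.2, h.1.2⟩ h.2) o2 o3 (fun _ => rfl) fun _ => rfl
    have h4 := ls_mul (union_subset (union_subset s s) s) D.A0_sub
      (ls_mul (union_subset s s) s (ls_mul s s h1 h2) h3) (congrArg Subtype.val hy)
    have c : ∀ {A : Set _} {a : H (MM n ×ˢ MH n) univ}, A = MM n ×ˢ MH n →
      pull id A univ a = 0 → a = 0 := fun e k => by subst e; rwa [pull_id] at k
    refine c (subset_antisymm (union_subset (union_subset (union_subset s s) s) D.A0_sub)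
      fun y hy => ?_) h4
    by_cases k1 : y.1 ∈ D.F
    · by_cases k2 : (y.1.1, y.2) ∈ D.F
      · by_cases k3 : y.1.2 = y.2
        exacts [.inl (.inr ⟨hy, k3⟩), .inr ⟨k1, k2, k3⟩]
      · exact .inl (.inl (.inr ⟨hy, k2⟩))
    · exact .inl (.inl (.inl ⟨hy, k1⟩))
  · have a := ok_fgt (Z := univ) D.A0_sub
    have p1 : Ok (fun y => y.1.1) D.A0 univ (MH n) univ := o1.comp a
    have p2 : Ok (fun y => y.1.2) D.A0 univ (MH n) univ := o2.comp a
    have p3 : Ok Prod.snd D.A0 univ (MH n) univ := o3.comp a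
    have q1 : Ok Prod.fst D.A0 univ D.F univ := ls_okc continuous_fst fun _ h => h.1
    have q2 : Ok (fun y => (y.1.1, y.2)) D.A0 univ D.F univ := ls_okc (by fun_prop) fun _ h => h.2.1
    have r1 : Ok Prod.fst D.F univ (MH n) univ := ok_MM1.comp D.ok_F
    have r2 : Ok Prod.snd D.F univ (MH n) univ := ok_MM2.comp D.ok_F
    have e1 := cp_cx_pull (r := 4) D.rb_WF D.lc_A0 q1
    have e2 := cp_cx_pull (r := 4) D.rb_WF D.lc_A0 q2
    have e3 := congrArg (Polynomial.map (pR p1)) (cp_tan (n := n))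
    rw [Polynomial.map_mul, cp_cx_pull rb_tanP D.lc_A0 p1] at e3
    rw [e, uuE_eq, vvE_eq, om_map, om_map, pR_pR D.ok_F ok_MM1 r1 fun _ _ => rfl,
      pR_pR D.ok_F ok_MM2 r2 fun _ _ => rfl] at e1 e2
    rw [pR_pR q1 r1 p1 fun _ _ => rfl, pR_pR q1 r2 p2 fun _ _ => rfl] at e1
    rw [pR_pR q2 r1 p1 fun _ _ => rfl, pR_pR q2 r2 p3 fun _ _ => rfl] at e2
    simp only [Polynomial.map_mul, Polynomial.map_pow, Polynomial.map_add, map_X, map_C, map_mul,
      map_ofNat, Polynomial.map_ofNat, om_map, pR_pR a o1 p1 fun _ _ => rfl, pR_pR a o2 p2 fun _ _ => rfl,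
      pR_pR a o3 p3 fun _ _ => rfl] at e3 ⊢
    rw [← e3, mul_assoc _ (om _ _ _ _ _ _), congrArg₂ HMul.hMul e1 e2]
    exact mul_dvd_mul_left _ (D.ls_dvd hn)

end TD0

theorem TD.ls_inj (D : TD n) {c : LM n} (hc : c ∈ D.S) :
    (∀ (t : ℝ) x, D.K c x = x → t • D.vel c + D.B c x ∈ D.Ws (D.en c)) ∧
      ∀ (t : ℝ) x, D.K c x = x → t • D.vel c + D.B c x = 0 → t = 0 ∧ x = 0 := by
  have hW : ∀ Y, Y ∈ D.Ws (D.en c) ↔ ∃ (t : ℝ) (x : RN D.N), D.K c x = x ∧ Y = t • D.vel c + D.B c x :=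
    fun Y => by
      rw [D.mem_Ws (D.en_mem hc), ← D.BW c hc]
      simp only [TD0.en, Prod.ext_iff, Lk]
  refine ⟨fun t x k => (hW _).2 ⟨t, x, k, rfl⟩, fun t x k e => ?_⟩
  let Ψ : (ℝ × LinearMap.range (D.K c : RN D.N →ₗ[ℝ] RN D.N)) →ₗ[ℝ] AM n :=
    (LinearMap.toSpanSingleton ℝ _ (D.vel c)).coprod
      ((D.B c : RN D.N →ₗ[ℝ] AM n) ∘ₗ Submodule.subtype _)
  have r : LinearMap.range Ψ = D.Ws (D.en c) := by
    ext Y
    rw [hW]
    constructor
    · rintro ⟨⟨t, _, x, rfl⟩, rfl⟩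
      exact ⟨t, _, D.idK c hc x, rfl⟩
    · rintro ⟨t, x, k, rfl⟩
      exact ⟨(t, ⟨x, x, k⟩), rfl⟩
  have d := LinearMap.finrank_range_add_finrank_ker Ψ
  have d4 : Module.finrank ℝ (D.Ws (D.en c)) = 4 := by
    have := D.rb_WF.rank _ (D.en_mem hc)
    rwa [TD0.WF, Submodule.range_starProjection] at this
  rw [r, d4, Module.finrank_prod, D.rkK c hc, Module.finrank_self, add_eq_left,
    Submodule.finrank_eq_zero, LinearMap.ker_eq_bot'] at d
  have := d (t, ⟨x, x, k⟩) e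
  exact ⟨congrArg Prod.fst this, congrArg (fun y => (y.2 : RN D.N)) this⟩

theorem TD.c2K (D : TD n) (hn : 2 ≤ n) :
    ((cp (cx D.K) 3 D.S).coeff 1 : H D.S univ) = (4 : ℂ) • D.uS := by
  have lc := D.cpt.isClosed.isLocallyClosed
  have ce : Continuous D.en := by unfold TD0.en; fun_prop
  have o : Ok D.en D.S univ D.F univ := ls_okc ce fun _ h => D.en_mem h
  have e := cp_cx_sum (r₁ := 1) (r₂ := 3) (B₁ := fun c => (1 : ℝ →L[ℝ] ℝ).smulRight (D.vel c))
    (B₂ := D.B) (D.rb_WF.comp lc ce.continuousOn o.maps) (rb_one lc) D.rb_K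
    ⟨continuousOn_id, mapsTo_id _,
      ((ContinuousLinearMap.smulRightL ℝ ℝ (AM n) 1).continuous.comp_continuousOn D.cvel :),
      fun c hc t _ => D.WF_eq.2 (by simpa using (D.ls_inj hc).1 t 0 (map_zero _)),
      fun c hc t _ k => ((D.ls_inj hc).2 t 0 (map_zero _) (by simpa using k)).1⟩
    ⟨continuousOn_id, mapsTo_id _, D.cB,
      fun c hc x k => D.WF_eq.2 (by simpa using (D.ls_inj hc).1 0 x k),
      fun c hc x k k' => ((D.ls_inj hc).2 0 x k (by simpa using k')).2⟩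
    fun c hc t x _ k k' => (D.ls_inj hc).2 t x k k'
  have e1 := (cp_pull D.rb_WF.cb_cx lc o).trans e
  have e2 := congrArg (fun p => (coeff p 2).1) e1
  simp only [cp_cx_one lc, coeff_X_mul, coeff_map, D.cp_W_two hn] at e2
  have o1 := D.ok_ev 1
  have o2 := D.ok_ev (cs (Real.pi / 2))
  rw [← e2, pR_pR o D.ok_F (D.ok_F.comp o) fun _ _ => rfl, pR_smul, map_add, uuE_eq, vvE_eq,
    pR_pR _ ok_MM1 o1 fun _ _ => rfl, pR_pR _ ok_MM2 o2 fun _ _ => rfl, SetLike.val_smul,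
    AddMemClass.coe_add, pR_val, pR_val, uE_val, D.ev_eq (cs _), TD0.uS, ← two_smul ℂ, smul_smul]
  norm_num

theorem ls_mat {N : ℕ} (A : RN N →L[ℝ] RN N) (a : RN N) :
    (mat A).map ((↑) : ℝ → ℂ) *ᵥ rcv a = rcv (A a) := by
  funext i
  conv_rhs => rw [← (EuclideanSpace.basisFun (Fin N) ℝ).sum_repr a]
  simp [mulVec, dotProduct, mat, rcv, mul_comm]

theorem SB.zz_sq {T : Type} [TopologicalSpace T] [T3Space T] [SecondCountableTopology T] {N : ℕ}
    {V : T → RN N →L[ℝ] RN N} {o : T → RN N [⋀^Fin 3]→L[ℝ] ℝ} {U : Set T} (h : SB V o U) :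
    zz V o U ^ 2 = -pull Prod.fst (sph V U) univ ((cp (cx V) 3 U).coeff 1 : H U univ) := by
  have m := fun y (hy : y ∈ sph V U) => (h.exists_fr hy).choose_spec.choose_spec.mat_eq
  have cr : Continuous fun y : T × RN N => rcv y.2 := by unfold rcv; fun_prop
  have h1 : CB (fun y => lin (rcv y.2)) 1 (sph V U) :=
    ⟨h.lc, sph_lin_cont cr.continuousOn fun y hy => (m y hy).1, fun y hy => sph_lin_idem (m y hy).1,
      fun y hy => sph_lin_rank (m y hy).1⟩
  have h2 := h.cb_ell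
  have h3 := h2.conj
  have h12 := h1.add h2 (fun y hy => (m y hy).2.2.1) fun y hy => (m y hy).2.2.2.1
  have a : ∀ y ∈ sph V U, (lin (rcv y.2) + ell V o y) * (ell V o y).map star = 0 := fun y hy => by
    rw [add_mul, ell, (m y hy).2.2.2.2.1, (m y hy).2.2.2.2.2.2.1, add_zero]
  have b : ∀ y ∈ sph V U, (ell V o y).map star * (lin (rcv y.2) + ell V o y) = 0 := fun y hy => by
    rw [mul_add, ell, (m y hy).2.2.2.2.2.1, (m y hy).2.2.2.2.2.2.2, add_zero]
  have h123 := h12.add h3 a b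
  have e := cp_spl h123 h12 h3 (spl_add h12 h3 a b)
  rw [cp_spl h12 h1 h2 (spl_add h1 h2 (fun y hy => (m y hy).2.2.1) fun y hy => (m y hy).2.2.2.1),
    cp_triv h1 ⟨cr.continuousOn, fun y hy => lin_mulVec (m y hy).1, fun y hy => (m y hy).1⟩,
    cp_line h2, cp_line h3] at e
  let β : RN N →ₗ[ℝ] Fin N → ℂ :=
    ⟨⟨rcv, fun a b => funext fun i => by simp [rcv]⟩, fun t a => funext fun i => by simp [rcv]⟩
  have hV := h.rb.cb_cx.comp h.lc continuousOn_fst fun _ k => k.1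
  have e1 := (cp_pull h.rb.cb_cx h.lc ok_sph').trans ((cp_iso hV h123 (A := fun _ => cmx β)
    ⟨continuousOn_id, mapsTo_id _, continuousOn_const, fun y hy v k => by
      obtain ⟨k1, k2⟩ := cxm_fix.1 k
      rw [id, ell, ← (m y hy).2.1, cmx_mulVec, mulVec_add, mulVec_smul]
      exact congrArg₂ (fun a b => a + Complex.I • b) ((ls_mat _ _).trans (congrArg rcv k1))
        ((ls_mat _ _).trans (congrArg rcv k2)), fun y _ v _ k => by
      rw [cmx_mulVec] at k
      refine cre_eq_zero.2 ⟨?_, ?_⟩ <;> ext i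
      · simpa [β, rcv] using congrArg Complex.re (congrFun k i)
      · simpa [β, rcv] using congrArg Complex.im (congrFun k i)⟩).symm.trans e)
  have z : euE (fun y => (ell V o y).map star) 1 (sph V U) = -euE (ell V o) 1 (sph V U) :=
    Subtype.ext (by rw [h3.euE_val, NegMemClass.coe_neg, h2.euE_val, eu_conj h2]; simp)
  have e2 := congrArg (fun p => (coeff p 1).1) e1
  simp only [z, mul_assoc, coeff_X_mul, mul_coeff_zero, coeff_add, coeff_X_zero, coeff_C_zero,
    zero_add, coeff_map, pR_val] at e2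
  rw [e2, mul_neg, NegMemClass.coe_neg, neg_neg, MulMemClass.coe_mul, h2.euE_val, sq, zz]

theorem TD.zz_sq (D : TD n) (hn : 2 ≤ n) {o : LM n → RN D.N [⋀^Fin 3]→L[ℝ] ℝ} (h : SB D.K o D.S) :
    zz D.K o D.S ^ 2 = (-4 : ℂ) • pull Prod.fst (sph D.K D.S) univ D.uS := by
  rw [h.zz_sq, D.c2K hn, map_smul, neg_smul]

end Pool.Agent.Work.MP_8c604c_gt.T
end
end
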