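import Pool.Agent.Work.MP_8c604c_gt.T.Cx
import Pool.Agent.Work.MP_8c604c_gt.T.SphZ

/-!
The square of the class `zz` is minus the pull-back of the coefficient `c₂` of the complexification.
-/

noncomputable section

set_option linter.unusedSectionVars false

namespace Pool.Agent.Work.MP_8c604c_gt.T

open Set Topology Matrix Polynomial Pool.Agent.Work.MP_849ab0_ag.G

variable {N : ℕ}

/-- `rcv` as a real linear map -/
def rcvL (N : ℕ) : RN N →ₗ[ℝ] Fin N → ℂ where
  toFun := rcv
  map_add' a b := funext fun i => by simp [rcv]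
  map_smul' c a := funext fun i => by simp [rcv]

theorem lsz_mat (A : RN N →L[ℝ] RN N) (a : RN N) :
    (mat A).map ((↑) : ℝ → ℂ) *ᵥ rcv a = rcv (A a) := by
  have e : a = ∑ j, a j • EuclideanSpace.single j (1 : ℝ) := by
    ext i
    simp [Pi.single_apply]
  funext i
  conv_rhs => rw [e]
  simp [mulVec, dotProduct, mat, rcv, mul_comm]

theorem lsz_inj {a b : RN N} (h : rcv a + Complex.I • rcv b = 0) : a = 0 ∧ b = 0 := by
  constructor
  · ext i
    simpa [rcv] using congrArg Complex.re (congrFun h i)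
  · ext i
    simpa [rcv] using congrArg Complex.im (congrFun h i)

theorem SB.zz_sq' {T : Type} [TopologicalSpace T] [T3Space T] [SecondCountableTopology T]
    {V : T → RN N →L[ℝ] RN N} {o : T → RN N [⋀^Fin 3]→L[ℝ] ℝ} {U : Set T} (h : SB V o U) :
    zz V o U ^ 2 = -pull Prod.fst (sph V U) univ ((cp (cx V) 3 U).coeff 1 : H U univ) := by
  have m : ∀ y ∈ sph V U, _ := fun y hy => (h.exists_fr hy).choose_spec.choose_spec.mat_eq
  have c0 : ContinuousOn (fun y : T × RN N => rcv y.2) (sph V U) := by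
    refine Continuous.continuousOn (continuous_pi fun i => ?_)
    unfold rcv
    fun_prop
  have h1 : CB (fun y : T × RN N => lin (rcv y.2)) 1 (sph V U) :=
    ⟨h.lc, sph_lin_cont c0 fun y hy => (m y hy).1, fun y hy => sph_lin_idem (m y hy).1,
      fun y hy => sph_lin_rank (m y hy).1⟩
  have h2 := h.cb_ell
  have h3 := h2.conj
  have e12 : ∀ y ∈ sph V U, lin (rcv y.2) * ell V o y = 0 := fun y hy => (m y hy).2.2.1
  have e21 : ∀ y ∈ sph V U, ell V o y * lin (rcv y.2) = 0 := fun y hy => (m y hy).2.2.2.1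
  have e3 : ∀ y ∈ sph V U, (lin (rcv y.2) + ell V o y) * (ell V o y).map star = 0 := fun y hy => by
    rw [add_mul, ell, (m y hy).2.2.2.2.1, (m y hy).2.2.2.2.2.2.1, add_zero]
  have e3' : ∀ y ∈ sph V U, (ell V o y).map star * (lin (rcv y.2) + ell V o y) = 0 := fun y hy => by
    rw [mul_add, ell, (m y hy).2.2.2.2.2.1, (m y hy).2.2.2.2.2.2.2, add_zero]
  have h12 := h1.add h2 e12 e21
  have h123 := h12.add h3 e3 e3'
  have ok : Ok Prod.fst (sph V U) univ U univ := ok_sph'
  have hc := h.rb.cb_cx.comp h.lc ok.ext.continuousOn ok.maps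
  have b : BM (fun y : T × RN N => cx V y.1) (sph V U)
      (fun y => lin (rcv y.2) + ell V o y + (ell V o y).map star) (sph V U) id
      fun _ => cmx (rcvL N) := by
    refine ⟨continuousOn_id, mapsTo_id _, continuousOn_const, fun y hy v hv => ?_,
      fun y hy v hv e => ?_⟩
    · obtain ⟨k1, k2⟩ := cxm_fix.1 hv
      rw [cmx_mulVec]
      change (lin (rcv y.2) + ell0 (V y.1) (o y.1) y.2 + (ell0 (V y.1) (o y.1) y.2).map star) *ᵥ
        (rcv _ + Complex.I • rcv _) = rcv _ + Complex.I • rcv _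
      rw [← (m y hy).2.1, mulVec_add, mulVec_smul, lsz_mat, lsz_mat, k1, k2]
    · rw [cmx_mulVec] at e
      exact cre_eq_zero.2 (lsz_inj e)
  have e : (cp (cx V) 3 U).map (pR ok) =
      X * (X + C (euE (ell V o) 1 (sph V U))) * (X + C (-euE (ell V o) 1 (sph V U))) := by
    rw [cp_pull h.rb.cb_cx h.lc ok, ← cp_iso hc h123 b, cp_spl h123 h12 h3 (spl_add h12 h3 e3 e3'),
      cp_spl h12 h1 h2 (spl_add h1 h2 e12 e21), cp_line h2, cp_line h3,
      cp_triv h1 (σ := fun y => rcv y.2) ⟨c0, fun y hy => (sph_lin_fix (m y hy).1).2 ⟨1, by simp⟩,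
        fun y hy k => (m y hy).1 k⟩]
    congr 3
    refine Subtype.ext ?_
    rw [h3.euE_val, eu_conj h2, pow_one, neg_one_smul, NegMemClass.coe_neg, h2.euE_val]
  have e1 := congrArg (fun p : (EvR (sph V U))[X] => (p.coeff 1 : H (sph V U) univ)) e
  have e2 : ∀ z : EvR (sph V U), (X * (X + C z) * (X + C (-z))).coeff 1 = -z ^ 2 := fun z => by
    have : X * (X + C z) * (X + C (-z)) = X ^ 3 + C (-z ^ 2) * X := by
      simp only [map_neg, map_pow]
      ring
    rw [this, coeff_add, coeff_X_pow, coeff_C_mul, coeff_X_one]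
    simp
  simp only [coeff_map, pR_val, e2] at e1
  rw [e1, NegMemClass.coe_neg, neg_neg, SubmonoidClass.coe_pow, h2.euE_val, zz]

end Pool.Agent.Work.MP_8c604c_gt.T
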